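import Pool.Agent.Lib.H59P.Defs

/-!
# Project H59P: definitions for the main terms
-/

open Finset

namespace Pool.Agent.Lib.H59P

open Pool.Agent.Lib.H68T Pool.Agent.Lib.H18Q

noncomputable section

/-- `conj χ_p(m)` -/
def cj (p : Ch) (m : ℤ) : ℂ := (starRingEnd ℂ) (p.2 (m : ZMod p.1))

/-- The periodic function of the main term: `∏_i conj χ_i(n+h_i) ∏_{l ∈ P} (1 + gl l (n+h_i))`. -/
def Ph {k : ℕ} (p : Fin k → Ch) (P : Finset ℕ) (h : Fin k → ℕ) (n : ℤ) : ℂ :=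
  ∏ i, (cj (p i) (n + h i) * ((uu P (n + h i) : ℝ) : ℂ))

/-- Its mean modulo `R` for the primes dividing `R`. -/
def MR {k : ℕ} (p : Fin k → Ch) (R : ℕ) (h : Fin k → ℕ) : ℂ :=
  (∑ n ∈ range R, Ph p R.primeFactors h n) / R

/-- The mean over a complete period `Q!` for all primes up to `Q`. -/
def MQ {k : ℕ} (Q : ℕ) (p : Fin k → Ch) (h : Fin k → ℕ) : ℂ :=
  (∑ n ∈ range Q.factorial, Ph p (pr Q) h n) / (Q.factorial : ℂ)

/-- The function of the main term: `∏_i uu(n+h_i) (1 - th_i ψ(n+h_i))`, `ψ` the character of `px`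
(real). -/
def fP {k : ℕ} (Q : ℕ) (px : Ch) (th : Fin k → ℝ) (h : Fin k → ℕ) (n : ℤ) : ℝ :=
  ∏ i, (uu (pr Q) (n + h i) * (1 - th i * (cj px (n + h i)).re))

/-- The main term: the mean of `fP` over a complete period. -/
def PM {k : ℕ} (Q : ℕ) (px : Ch) (th : Fin k → ℝ) (h : Fin k → ℕ) : ℝ :=
  (∑ n ∈ range Q.factorial, fP Q px th h n) / (Q.factorial : ℝ)

open Classical in
/-- The tuples of characters with `lcm(px.1, p_1.1, …, p_k.1) ≤ D`. -/
def TS (k Q D : ℕ) (px : Ch) : Finset (Fin k → Ch) :=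
  (Fintype.piFinset fun _ : Fin k => PC Q).filter
    (fun p => px.1.lcm (univ.lcm fun i => (p i).1) ≤ D)

/-- The modulus of a tuple of characters. -/
def Rp {k : ℕ} (px : Ch) (p : Fin k → Ch) : ℕ := px.1.lcm (univ.lcm fun i => (p i).1)

end

end Pool.Agent.Lib.H59P
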