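import Pool.Agent.Lib.H59P.C1A
import Pool.Agent.Lib.H59P.MDefs

/-!
# Project H59P, chunk C1
-/

open Finset

namespace Pool.Agent.Lib.H59P

open Pool.Agent.Lib.H68T Pool.Agent.Lib.H18Q

/-- **C1.** Proof. `∏ (A + B) = ∑_J ∏_{i∉J} A ∏_{i∈J} B` (`Finset.prod_add` with the roles of the two subsets).
For `J = ∅`: tuples not satisfying `φ` have a coordinate outside of `V` (`hV`), so the product of the `A`
vanishes, and the sum over all tuples is `∏_i ∑_p A i p`. For `J ≠ ∅` use `C1a`; the sum of the bounds over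
all `J ≠ ∅` is `∏_i (‖∑ A‖ + ∑ ‖B‖) - ∏_i ‖∑ A‖`. -/
theorem C1 {k : ℕ} {ι : Type*} [DecidableEq ι] (S V : Finset ι) (φ : (Fin k → ι) → Prop)
    [DecidablePred φ] (A B : Fin k → ι → ℂ)
    (hA : ∀ i, ∀ p ∈ S, p ∉ V → A i p = 0)
    (dep : ∀ (J : Finset (Fin k)) (p p' : Fin k → ι), (∀ i ∈ J, p i = p' i) →
      (∀ i, i ∉ J → p i ∈ V) → (∀ i, i ∉ J → p' i ∈ V) → (φ p ↔ φ p'))
    (hV : ∀ p : Fin k → ι, (∀ i, p i ∈ V) → φ p) :
    ‖∑ p ∈ (Fintype.piFinset fun _ : Fin k => S).filter φ, ∏ i, (A i (p i) + B i (p i)) -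
      ∏ i, ∑ p ∈ S, A i p‖ ≤
      ∏ i, (‖∑ p ∈ S, A i p‖ + ∑ p ∈ S, ‖B i p‖) - ∏ i, ‖∑ p ∈ S, A i p‖ := by
  classical
  set F : Finset (Fin k) → ℂ := fun J => ∑ p ∈ (Fintype.piFinset fun _ : Fin k => S).filter φ,
      (∏ i ∈ univ \ J, A i (p i)) * ∏ i ∈ J, B i (p i) with hF
  set G : Finset (Fin k) → ℝ := fun J =>
      (∏ i ∈ univ \ J, ‖∑ p ∈ S, A i p‖) * ∏ i ∈ J, ∑ p ∈ S, ‖B i p‖ with hG
  have h1 : ∑ p ∈ (Fintype.piFinset fun _ : Fin k => S).filter φ, ∏ i, (A i (p i) + B i (p i)) =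
      ∑ J ∈ (univ : Finset (Fin k)).powerset, F J := by
    simp only [hF]
    rw [Finset.sum_comm]
    refine Finset.sum_congr rfl fun p _ => ?_
    have : ∀ i, A i (p i) + B i (p i) = B i (p i) + A i (p i) := fun i => add_comm _ _
    simp only [this]
    rw [Finset.prod_add]
    refine Finset.sum_congr rfl fun J _ => mul_comm _ _
  have h2 : ∏ i, (‖∑ p ∈ S, A i p‖ + ∑ p ∈ S, ‖B i p‖) = ∑ J ∈ (univ : Finset (Fin k)).powerset, G J := by
    simp only [hG]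
    have : ∀ i, ‖∑ p ∈ S, A i p‖ + ∑ p ∈ S, ‖B i p‖ = ∑ p ∈ S, ‖B i p‖ + ‖∑ p ∈ S, A i p‖ := fun i => add_comm _ _
    simp only [this]
    rw [Finset.prod_add]
    refine Finset.sum_congr rfl fun J _ => mul_comm _ _
  have h3 : F ∅ = ∏ i, ∑ p ∈ S, A i p := by
    simp only [hF, Finset.sdiff_empty, Finset.prod_empty, mul_one]
    rw [Finset.prod_univ_sum, Finset.sum_filter]
    refine Finset.sum_congr rfl fun p hp => ?_
    by_cases hφ : φ p
    · rw [if_pos hφ]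
    · rw [if_neg hφ]
      have : ∃ i, p i ∉ V := by
        by_contra h
        push Not at h
        exact hφ (hV p h)
      obtain ⟨i, hi⟩ := this
      exact (Finset.prod_eq_zero (Finset.mem_univ i) (hA i (p i) (Fintype.mem_piFinset.mp hp i) hi)).symm
  have h4 : G ∅ = ∏ i, ‖∑ p ∈ S, A i p‖ := by
    simp only [hG, Finset.sdiff_empty, Finset.prod_empty, mul_one]
  have hmem : (∅ : Finset (Fin k)) ∈ (univ : Finset (Fin k)).powerset := Finset.empty_mem_powerset _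
  rw [h1, h2, ← h3, ← h4, ← Finset.add_sum_erase _ F hmem, ← Finset.add_sum_erase _ G hmem, add_sub_cancel_left,
    add_sub_cancel_left]
  refine (norm_sum_le _ _).trans (Finset.sum_le_sum fun J _ => ?_)
  exact C1a S V φ A B J hA (dep J)

end Pool.Agent.Lib.H59P
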