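import Pool.Agent.Lib.H59P.MDefs

/-!
# Project H59P, chunk C2: the numerical inequality
-/

open Finset

namespace Pool.Agent.Lib.H59P

open Pool.Agent.Lib.H68T Pool.Agent.Lib.H18Q

/-- **C2.** Proof. `a_i + b_i ≤ a_i (1 + E0)` (`b_i ≤ η E0 ≤ a_i E0`), so the left side is at most
`((1+E0)^k - 1) ∏ a_i`, and `(1+E0)^k ≤ e^(k E0) ≤ e^(1/4) ≤ 3/2`. -/
theorem C2 {k : ℕ} (a b : Fin k → ℝ) (η E0 : ℝ) (hη : 0 < η) (hE0 : 0 ≤ E0) (hE : 4 * k * E0 ≤ 1)
    (ha : ∀ i, η ≤ a i) (hb0 : ∀ i, 0 ≤ b i) (hb : ∀ i, b i ≤ η * E0) :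
    ∏ i, (a i + b i) - ∏ i, a i ≤ 1 / 2 * ∏ i, a i := by
  have ha0 : ∀ i, 0 ≤ a i := fun i => hη.le.trans (ha i)
  have hP : 0 ≤ ∏ i, a i := Finset.prod_nonneg fun i _ => ha0 i
  have h1 : ∏ i, (a i + b i) ≤ ∏ i, (a i * (1 + E0)) := by
    refine Finset.prod_le_prod (fun i _ => add_nonneg (ha0 i) (hb0 i)) fun i _ => ?_
    have := mul_le_mul_of_nonneg_right (ha i) hE0
    have := hb i
    linarith
  have h2 : ∏ i : Fin k, (a i * (1 + E0)) = (∏ i, a i) * (1 + E0) ^ k := by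
    rw [Finset.prod_mul_distrib, Finset.prod_const, Finset.card_univ, Fintype.card_fin]
  have h3 : (1 + E0) ^ k ≤ 3 / 2 := by
    have e1 : (1 + E0) ^ k ≤ Real.exp E0 ^ k :=
      pow_le_pow_left₀ (by linarith) (by linarith [Real.add_one_le_exp E0]) k
    have e2 : Real.exp E0 ^ k = Real.exp (k * E0) := by rw [← Real.exp_nat_mul]
    have e3 : Real.exp (k * E0) ≤ Real.exp (1 / 4) := Real.exp_le_exp.mpr (by linarith)
    have e4 : Real.exp (1 / 4) ≤ 3 / 2 := by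
      have h := Real.exp_one_lt_d9
      have h5 : Real.exp (1 / 4) ^ 4 = Real.exp 1 := by
        rw [← Real.exp_nat_mul]; norm_num
      by_contra hcon
      push Not at hcon
      have h6 : (3 / 2 : ℝ) ^ 4 < Real.exp (1 / 4) ^ 4 := pow_lt_pow_left₀ hcon (by norm_num) (by norm_num)
      rw [h5] at h6
      norm_num at h6
      linarith
    linarith [e1.trans (e2.le.trans (e3.trans e4))]
  rw [h2] at h1
  have h4 := mul_le_mul_of_nonneg_left h3 hP
  linarith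

end Pool.Agent.Lib.H59P
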