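import Pool.Agent.Lib.H59P.M3E

/-!
# Project H59P, chunk M3f: the mean of the main term function times a local function
-/

open Finset

namespace Pool.Agent.Lib.H59P

open Pool.Agent.Lib.H68T Pool.Agent.Lib.H18Q

theorem m3f_uu (R : ℕ) (m : ℤ) : uu R.primeFactors (m + R) = uu R.primeFactors m := by
  unfold uu
  apply Finset.prod_congr rfl
  intro l hl
  obtain ⟨c, hc⟩ := Nat.dvd_of_mem_primeFactors hl
  have : m + (R : ℤ) = m + (c : ℤ) * l := by
    rw [show (R : ℤ) = ((l * c : ℕ) : ℤ) from by rw [← hc]]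
    push_cast; ring
  rw [this, gl_per]

theorem m3f_cj (p : Ch) (R : ℕ) (hd : p.1 ∣ R) (m : ℤ) : cj p (m + R) = cj p m := by
  unfold cj
  have : (((m + (R : ℤ) : ℤ)) : ZMod p.1) = (m : ZMod p.1) := by
    push_cast
    rw [(ZMod.natCast_eq_zero_iff R p.1).2 hd, add_zero]
  rw [this]

/-- `Ph p R.primeFactors h` has period `R` if all conductors divide `R`. Proof. `gl_per`; `ZMod` casts. -/
theorem M3f_per {k : ℕ} (p : Fin k → Ch) (R : ℕ) (hd : ∀ i, (p i).1 ∣ R) (h : Fin k → ℕ) (n : ℤ) :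
    Ph p R.primeFactors h (n + R) = Ph p R.primeFactors h n := by
  unfold Ph
  apply Finset.prod_congr rfl
  intro i _
  have : n + (R : ℤ) + h i = (n + h i) + R := by ring
  rw [this, m3f_uu, m3f_cj (p i) R (hd i)]

/-- Proof. `n ↦ Ph … n * Wd d h n` has period `R d`, is bounded by `(R/φ(R))^k (d/φ(d))^k` (`M3a_Ph`, `M3a_uu`,
`M3a_td`) and has mean `MR p R h * td d h` (`M3d`, `M3e`, `d` coprime to `R`); `M3c`. -/
theorem M3f {k : ℕ} (p : Fin k → Ch) (R d : ℕ) (hR : 0 < R) (hd : ∀ i, (p i).1 ∣ R)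
    (hsq : Squarefree d) (hc : Nat.Coprime d R) (h : Fin k → ℕ) (a H : ℕ) :
    ‖∑ n ∈ Ico a (a + H), Ph p R.primeFactors h n * ((Wd d h n : ℝ) : ℂ) -
      H * (MR p R h * ((td d h : ℝ) : ℂ))‖ ≤
      2 * (R * d) * (((R : ℝ) / (Nat.totient R : ℝ)) * ((d : ℝ) / (Nat.totient d : ℝ))) ^ k := by
  have hd0 : 0 < d := Nat.pos_of_ne_zero hsq.ne_zero
  set f : ℤ → ℂ := fun n => Ph p R.primeFactors h n with hf
  set g : ℤ → ℂ := fun n => ((Wd d h n : ℝ) : ℂ) with hg
  have hfper : ∀ m, f (m + R) = f m := fun m => M3f_per p R hd h m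
  have hgper : ∀ m, g (m + d) = g m := by
    intro m
    show ((Wd d h (m + d) : ℝ) : ℂ) = ((Wd d h m : ℝ) : ℂ)
    have : Wd d h (m + d) = Wd d h m :=
      m3e_per_prod d.primeFactors d (fun l hl => Nat.dvd_of_mem_primeFactors hl) h m
    rw [this]
  have hfgper : ∀ m : ℤ, f (m + ((R * d : ℕ) : ℤ)) * g (m + ((R * d : ℕ) : ℤ)) = f m * g m := by
    intro m
    have e1 : f (m + ((R * d : ℕ) : ℤ)) = f m := by
      have := m3c_per f R hfper d m
      rw [← this]
      congr 1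
      push_cast
      ring
    have e2 : g (m + ((R * d : ℕ) : ℤ)) = g m := by
      have := m3c_per g d hgper R m
      rw [← this]
      congr 1
    rw [e1, e2]
  have hbd : ∀ m : ℤ, ‖f m * g m‖ ≤
      (((R : ℝ) / (Nat.totient R : ℝ)) * ((d : ℝ) / (Nat.totient d : ℝ))) ^ k := by
    intro m
    rw [norm_mul, mul_pow]
    apply mul_le_mul
    · calc ‖f m‖ ≤ ∏ i, uu R.primeFactors (m + h i) :=
          M3a_Ph p R.primeFactors (fun l hl => Nat.prime_of_mem_primeFactors hl) h m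
        _ ≤ ∏ _i : Fin k, ((R : ℝ) / (Nat.totient R : ℝ)) :=
          Finset.prod_le_prod (fun i _ => (M3a_uu R hR _).1) (fun i _ => (M3a_uu R hR _).2)
        _ = ((R : ℝ) / (Nat.totient R : ℝ)) ^ k := by
          rw [Finset.prod_const, Finset.card_univ, Fintype.card_fin]
    · show ‖((Wd d h m : ℝ) : ℂ)‖ ≤ _
      rw [Complex.norm_real, Real.norm_eq_abs]
      exact (M3a_td d hsq h m).1
    · exact norm_nonneg _
    · positivity
  have key := M3c (fun m => f m * g m) (R * d) (Nat.mul_pos hR hd0) hfgper _ hbd a H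
  have hprod : ∑ n ∈ range (R * d), f n * g n = (∑ n ∈ range R, f n) * ∑ n ∈ range d, g n :=
    M3d f g R d hR hd0 hc.symm hfper hgper
  have hgsum : ∑ n ∈ range d, g n = d * ((td d h : ℝ) : ℂ) := by
    have := M3e d hsq h
    have h2 : ((∑ n ∈ range d, Wd d h n : ℝ) : ℂ) = ((d * td d h : ℝ) : ℂ) := by rw [this]
    rw [Complex.ofReal_sum] at h2
    rw [show ∑ n ∈ range d, g n = ∑ n ∈ range d, ((Wd d h (n : ℤ) : ℝ) : ℂ) from rfl, h2]
    push_cast
    rfl
  have hRc : (R : ℂ) ≠ 0 := by exact_mod_cast hR.ne'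
  have hdc : (d : ℂ) ≠ 0 := by exact_mod_cast hd0.ne'
  have hmean : (∑ n ∈ range (R * d), f n * g n) / ((R * d : ℕ) : ℂ) =
      MR p R h * ((td d h : ℝ) : ℂ) := by
    rw [hprod, hgsum]
    unfold MR
    push_cast
    field_simp
    rw [mul_comm]
  have key2 : ‖∑ n ∈ Ico a (a + H), f n * g n - H * (MR p R h * ((td d h : ℝ) : ℂ))‖ ≤
      2 * ((R * d : ℕ) : ℝ) * (((R : ℝ) / (Nat.totient R : ℝ)) * ((d : ℝ) / (Nat.totient d : ℝ))) ^ k := by
    rw [← hmean]
    exact key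
  rw [Nat.cast_mul] at key2
  exact key2

end Pool.Agent.Lib.H59P
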