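import Pool.Agent.Lib.H59P.M5B
import Pool.Agent.Lib.H59P.M3F

/-!
# Project H59P, chunk M5_SS
-/

open Finset

namespace Pool.Agent.Lib.H59P

open Pool.Agent.Lib.H68T Pool.Agent.Lib.H18Q

/-- The mean of `∏_i uu (pr Q)(n + h_i)` is the singular series. Proof. `M5` with `R = 1`, `p_i = p0`
(`cj p0 m = 1`), or directly. -/
theorem M5_SS {k : ℕ} (Q : ℕ) (h : Fin k → ℕ) :
    (∑ n ∈ range Q.factorial, ∏ i, uu (pr Q) ((n : ℤ) + h i)) / (Q.factorial : ℝ) =
      SS (pr Q) h := by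
  have hc : ∀ m : ℤ, cj p0 m = 1 := by
    intro m
    unfold cj p0
    rw [MulChar.one_apply (isUnit_of_subsingleton _), map_one]
  have h1 := M5 Q 1 one_pos (one_dvd _) (fun _ : Fin k => p0) (fun _ => dvd_rfl) h
  have h2 : (pr Q).filter (fun l => ¬ l ∣ 1) = pr Q := by
    apply filter_true_of_mem
    intro l hl h3
    rw [pr, mem_filter] at hl
    exact hl.2.one_lt.ne' (Nat.dvd_one.1 h3)
  have h3 : MR (fun _ : Fin k => p0) 1 h = 1 := by
    unfold MR Ph
    rw [sum_range_one, Nat.primeFactors_one]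
    simp [uu, hc]
  rw [h2, h3, one_mul] at h1
  have h4 : MQ Q (fun _ : Fin k => p0) h =
      (((∑ n ∈ range Q.factorial, ∏ i, uu (pr Q) ((n : ℤ) + h i)) / (Q.factorial : ℝ) : ℝ) : ℂ) := by
    unfold MQ Ph
    push_cast
    congr 1
    refine sum_congr rfl fun n _ => prod_congr rfl fun i _ => ?_
    rw [hc, one_mul]
  rw [h4] at h1
  exact (Complex.ofReal_injective h1).symm

end Pool.Agent.Lib.H59P
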