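import Pool.Agent.Lib.H59P.C3A
import Pool.Agent.Lib.H59P.C1
import Pool.Agent.Lib.H59P.C2
import Pool.Agent.Lib.H59P.M5

/-!
# Project H59P, chunk C3
-/

open Finset

namespace Pool.Agent.Lib.H59P

open Pool.Agent.Lib.H68T Pool.Agent.Lib.H18Q

theorem c3_cj_p0 (m : ℤ) : cj p0 m = 1 := by
  unfold cj p0
  have h : IsUnit ((m : ℤ) : ZMod 1) := isUnit_of_subsingleton _
  rw [MulChar.one_apply h, map_one]

theorem c3_cj_norm (p : Ch) (m : ℤ) : ‖cj p m‖ ≤ 1 := by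
  unfold cj
  rw [RCLike.norm_conj]
  exact DirichletCharacter.norm_le_one _ _

theorem c3_lcm {k : ℕ} (px : Ch) (J : Finset (Fin k)) (p p' : Fin k → Ch) (h1 : ∀ i ∈ J, p i = p' i)
    (h2 : ∀ i, i ∉ J → p i = p0 ∨ p i = px) :
    px.1.lcm (univ.lcm fun i => (p i).1) ∣ px.1.lcm (univ.lcm fun i => (p' i).1) := by
  refine Nat.lcm_dvd (Nat.dvd_lcm_left _ _) (Finset.lcm_dvd fun i _ => ?_)
  by_cases hi : i ∈ J
  · rw [h1 i hi]
    exact (Finset.dvd_lcm (f := fun i => (p' i).1) (Finset.mem_univ i)).trans (Nat.dvd_lcm_right _ _)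
  · rcases h2 i hi with h | h
    · rw [h]
      exact one_dvd _
    · rw [h]
      exact Nat.dvd_lcm_left _ _

theorem c3_sumA (Q : ℕ) (hQ : 1 ≤ Q) (px : Ch) (hpx : px ∈ PC Q) (t : ℝ) (htriv : px = p0 → t = 0)
    (hreal : px.2 ^ 2 = 1) (m : ℤ) :
    ∑ p ∈ PC Q, MX px (fun _ => t) 0 p * cj p m = ((1 - t * (cj px m).re : ℝ) : ℂ) := by
  classical
  by_cases hp : px = p0
  · have ht := htriv hp
    rw [Finset.sum_eq_single p0]
    · simp [MX, c3_cj_p0, ht]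
    · intro p _ hne
      have h0 : MX px (fun _ => t) 0 p = 0 := by
        simp only [MX]
        rw [if_neg hne, if_neg (by rw [hp]; exact hne)]
      rw [h0, zero_mul]
    · intro h
      exact absurd (p0_mem hQ) h
  · have hsub : ({p0, px} : Finset Ch) ⊆ PC Q := by
      intro p h
      rw [Finset.mem_insert, Finset.mem_singleton] at h
      rcases h with h | h
      · rw [h]; exact p0_mem hQ
      · rw [h]; exact hpx
    rw [← Finset.sum_subset hsub]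
    · rw [Finset.sum_pair (Ne.symm hp)]
      have e1 : MX px (fun _ => t) 0 p0 = 1 := by simp [MX]
      have e2 : MX px (fun _ => t) 0 px = -((t : ℝ) : ℂ) := by simp [MX, hp]
      rw [e1, e2, c3_cj_p0]
      have e3 := (C3a px hreal m).1
      rw [e3]
      push_cast
      simp
      ring
    · intro p _ hne
      rw [Finset.mem_insert, Finset.mem_singleton, not_or] at hne
      have h0 : MX px (fun _ => t) 0 p = 0 := by
        simp only [MX]
        rw [if_neg hne.1, if_neg hne.2]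
      rw [h0, zero_mul]

/-- the pointwise bound -/
theorem c3_pt {k : ℕ} (Q D1 : ℕ) (hQ : 1 ≤ Q) (η E0 : ℝ) (px : Ch) (hpx : px ∈ PC Q) (hreal : px.2 ^ 2 = 1)
    (hcond : px.1 ≤ D1) (hη : 0 < η) (hE0 : 0 ≤ E0) (hE : 4 * k * E0 ≤ 1) (th : Fin k → ℝ)
    (hth0 : ∀ i, 0 ≤ th i) (hth : ∀ i, th i ≤ 1 - η) (htriv : px = p0 → ∀ i, th i = 0)
    (e : Fin k → Ch → ℂ) (he : ∀ i, ∑ p ∈ PC Q, ‖e i p‖ ≤ η * E0) (m : Fin k → ℤ) :
    ‖∑ p ∈ TS k Q D1 px, ∏ i, ((MX px (fun _ => th i) 0 (p i) + e i (p i)) * cj (p i) (m i)) -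
      ((∏ i, (1 - th i * (cj px (m i)).re) : ℝ) : ℂ)‖ ≤ 1 / 2 * ∏ i, (1 - th i * (cj px (m i)).re) := by
  classical
  have ha : ∀ i, η ≤ 1 - th i * (cj px (m i)).re := by
    intro i
    have h1 := (abs_le.mp (C3a px hreal (m i)).2).2
    have h2 := mul_le_mul_of_nonneg_left h1 (hth0 i)
    have h3 := hth i
    linarith
  have ha0 : ∀ i, 0 ≤ 1 - th i * (cj px (m i)).re := fun i => hη.le.trans (ha i)
  have hsum : ∀ i, ∑ p ∈ PC Q, MX px (fun _ => th i) 0 p * cj p (m i) =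
      ((1 - th i * (cj px (m i)).re : ℝ) : ℂ) := fun i =>
    c3_sumA Q hQ px hpx (th i) (fun h => htriv h i) hreal (m i)
  have hC1 := C1 (PC Q) ({p0, px} : Finset Ch) (fun p : Fin k → Ch => px.1.lcm (univ.lcm fun i => (p i).1) ≤ D1)
    (fun i p => MX px (fun _ => th i) 0 p * cj p (m i)) (fun i p => e i p * cj p (m i)) ?_ ?_ ?_
  rotate_left
  · intro i p _ hne
    rw [Finset.mem_insert, Finset.mem_singleton, not_or] at hne
    have h0 : MX px (fun _ => th i) 0 p = 0 := by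
      simp only [MX]
      rw [if_neg hne.1, if_neg hne.2]
    show MX px (fun _ => th i) 0 p * cj p (m i) = 0
    rw [h0, zero_mul]
  · intro J p p' h1 h2 h3
    have k1 := c3_lcm px J p p' h1 (fun i hi => by simpa using h2 i hi)
    have k2 := c3_lcm px J p' p (fun i hi => (h1 i hi).symm) (fun i hi => by simpa using h3 i hi)
    show px.1.lcm (univ.lcm fun i => (p i).1) ≤ D1 ↔ px.1.lcm (univ.lcm fun i => (p' i).1) ≤ D1
    rw [Nat.dvd_antisymm k1 k2]
  · intro p hp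
    have k1 := c3_lcm px ∅ p (fun _ => p0) (fun i hi => by simp at hi) (fun i _ => by simpa using hp i)
    have k2 : px.1.lcm (univ.lcm fun i : Fin k => ((fun _ => p0 : Fin k → Ch) i).1) ∣ px.1 := by
      refine Nat.lcm_dvd dvd_rfl (Finset.lcm_dvd fun i _ => ?_)
      exact one_dvd _
    have hpos : 0 < px.1 := (mem_PC.mp hpx).1
    exact (Nat.le_of_dvd hpos (k1.trans k2)).trans hcond
  have e1 : ∀ p : Fin k → Ch, ∏ i, ((MX px (fun _ => th i) 0 (p i) + e i (p i)) * cj (p i) (m i)) =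
      ∏ i, (MX px (fun _ => th i) 0 (p i) * cj (p i) (m i) + e i (p i) * cj (p i) (m i)) := fun p =>
    Finset.prod_congr rfl fun i _ => by ring
  have e2 : ∏ i, ∑ p ∈ PC Q, MX px (fun _ => th i) 0 p * cj p (m i) =
      ((∏ i, (1 - th i * (cj px (m i)).re) : ℝ) : ℂ) := by
    rw [Complex.ofReal_prod]
    exact Finset.prod_congr rfl fun i _ => hsum i
  have e3 : ∀ i, ‖∑ p ∈ PC Q, MX px (fun _ => th i) 0 p * cj p (m i)‖ = 1 - th i * (cj px (m i)).re := by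
    intro i
    rw [hsum i, Complex.norm_real, Real.norm_eq_abs, abs_of_nonneg (ha0 i)]
  have hC2 := C2 (fun i => 1 - th i * (cj px (m i)).re) (fun i => ∑ p ∈ PC Q, ‖e i p * cj p (m i)‖) η E0 hη hE0 hE ha
    (fun i => Finset.sum_nonneg fun _ _ => norm_nonneg _) (fun i => ?_)
  swap
  · refine (Finset.sum_le_sum fun p _ => ?_).trans (he i)
    rw [norm_mul]
    exact mul_le_of_le_one_right (norm_nonneg _) (c3_cj_norm p (m i))
  simp only [e3] at hC1
  rw [e2] at hC1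
  unfold TS
  simp only [e1]
  exact hC1.trans hC2

theorem c3_pr (Q : ℕ) : ∀ l ∈ pr Q, l.Prime := fun l hl => (Finset.mem_filter.mp hl).2

/-- **C3.** `c i p = MX px (th i) p + e i p`.

Proof. Both sides are means over `n < Q!` of `∏_i uu(n+h_i)` (`≥ 0`, `M3a_uu_nonneg`) times
`∑_{p ∈ TS} ∏_i c_i(p_i) cj (p_i)(n+h_i)` and `∏_i (1 - th_i ψ(n+h_i))` respectively. For fixed `n` apply `C1` with
`S = PC Q`, `V = {p0, px}`, `φ p = (px.1.lcm (lcm p_i.1) ≤ D1)`, `A i p = MX px (th i) p · cj p (n+h_i)`,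
`B i p = e i p · cj p (n+h_i)`: `∑_p A i p = 1 - th_i ψ(n+h_i)` (`cj p0 = 1`; `C3a`; if `px = p0` then `th_i = 0`)
which is real and `≥ 1 - th_i ≥ η`, `∑ ‖B‖ ≤ ∑ ‖e i p‖ ≤ η E0`; `dep`: coordinates in `V` have modulus `1` or
`px.1`, which does not change `px.1.lcm (…)`; `hV`: then the lcm is `px.1 ≤ D1`. `C2`. -/
theorem C3 {k : ℕ} (Q D1 : ℕ) (hQ : 1 ≤ Q) (η E0 : ℝ) (px : Ch) (hpx : px ∈ PC Q) (hreal : px.2 ^ 2 = 1)
    (hcond : px.1 ≤ D1) (hη : 0 < η) (hE0 : 0 ≤ E0) (hE : 4 * k * E0 ≤ 1) (th : Fin k → ℝ)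
    (hth0 : ∀ i, 0 ≤ th i) (hth : ∀ i, th i ≤ 1 - η) (htriv : px = p0 → ∀ i, th i = 0)
    (e : Fin k → Ch → ℂ) (he : ∀ i, ∑ p ∈ PC Q, ‖e i p‖ ≤ η * E0) (h : Fin k → ℕ) :
    ‖∑ p ∈ TS k Q D1 px, (∏ i, (MX px (fun _ => th i) 0 (p i) + e i (p i))) * MQ Q p h -
      ((PM Q px th h : ℝ) : ℂ)‖ ≤ 1 / 2 * PM Q px th h := by
  have hQ0 : (0 : ℝ) < (Q.factorial : ℝ) := by exact_mod_cast Nat.factorial_pos Q
  have hU : ∀ n : ℤ, 0 ≤ ∏ i : Fin k, uu (pr Q) (n + h i) := fun n =>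
    Finset.prod_nonneg fun i _ => M3a_uu_nonneg _ (c3_pr Q) _
  have h1 : ∑ p ∈ TS k Q D1 px, (∏ i, (MX px (fun _ => th i) 0 (p i) + e i (p i))) * MQ Q p h =
      (∑ n ∈ range Q.factorial, ((∏ i : Fin k, uu (pr Q) ((n : ℤ) + h i) : ℝ) : ℂ) *
        ∑ p ∈ TS k Q D1 px, ∏ i, ((MX px (fun _ => th i) 0 (p i) + e i (p i)) * cj (p i) ((n : ℤ) + h i))) /
        ((Q.factorial : ℝ) : ℂ) := by
    unfold MQ
    rw [Finset.sum_div]
    simp only [Finset.mul_sum, Finset.sum_div, mul_div_assoc']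
    rw [Finset.sum_comm]
    refine Finset.sum_congr rfl fun n _ => ?_
    refine Finset.sum_congr rfl fun p _ => ?_
    unfold Ph
    rw [Finset.prod_mul_distrib, Finset.prod_mul_distrib, Complex.ofReal_prod]
    push_cast
    ring
  have h2 : PM Q px th h = (∑ n ∈ range Q.factorial, (∏ i : Fin k, uu (pr Q) ((n : ℤ) + h i)) *
        ∏ i, (1 - th i * (cj px ((n : ℤ) + h i)).re)) / (Q.factorial : ℝ) := by
    unfold PM fP
    congr 1
    refine Finset.sum_congr rfl fun n _ => ?_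
    rw [Finset.prod_mul_distrib]
  rw [h1, h2]
  rw [Complex.ofReal_div, ← sub_div, norm_div, Complex.norm_real, Real.norm_eq_abs, abs_of_pos hQ0, mul_div_assoc']
  refine div_le_div_of_nonneg_right ?_ hQ0.le
  rw [Complex.ofReal_sum, ← Finset.sum_sub_distrib, Finset.mul_sum]
  refine (norm_sum_le _ _).trans (Finset.sum_le_sum fun n _ => ?_)
  rw [Complex.ofReal_mul, ← mul_sub, norm_mul, Complex.norm_real, Real.norm_eq_abs, abs_of_nonneg (hU n)]
  have hpt := c3_pt Q D1 hQ η E0 px hpx hreal hcond hη hE0 hE th hth0 hth htriv e he (fun i => (n : ℤ) + h i)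
  have := mul_le_mul_of_nonneg_left hpt (hU n)
  refine this.trans (le_of_eq ?_)
  ring

end Pool.Agent.Lib.H59P
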