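import Pool.Agent.Lib.H59P.MDefs

/-!
# Project H59P, definitions for the second moments
-/

open Finset

namespace Pool.Agent.Lib.H59P

open Pool.Agent.Lib.H68T Pool.Agent.Lib.H18Q

noncomputable section

/-- The box `[0, X)^k`. -/
def bx (k X : ℕ) : Finset (Fin k → ℕ) := Fintype.piFinset fun _ : Fin k => range X

/-- The correlation of the projections. -/
def Rs {k : ℕ} (Q X : ℕ) (h : Fin k → ℕ) : ℝ :=
  ∑ n ∈ Ico X (2 * X), ∏ i, Lk Q (X / Q ^ 2) ((n : ℤ) + h i)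

/-- The base point of the cell of `m` for cells of length `H`. -/
def bs (H m : ℕ) : ℕ := m / H * H

/-- The correlation with coefficients frozen in cells of length `H` (`X = H q0`): for `n` in the cell
of `a = bs H n`, the coefficients are taken at `a + bs H (h_i)`. -/
def Rc {k : ℕ} (Q X H : ℕ) (B : ℤ → Ch → ℂ) (h : Fin k → ℕ) : ℂ :=
  ∑ n ∈ Ico X (2 * X), ∏ i, SG Q (B (((bs H n + bs H (h i) : ℕ) : ℤ))) ((n : ℤ) + h i)

/-- Coefficients: total size at most `3`, slowly varying, and the projection is their sum. -/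
structure Cf (Q X : ℕ) (B : ℤ → Ch → ℂ) (mb : Ch → ℝ) : Prop where
  nonneg : ∀ p ∈ PC Q, 0 ≤ mb p
  sum : ∑ p ∈ PC Q, mb p ≤ 3
  le : ∀ m : ℤ, (X : ℤ) ≤ m → m ≤ 4 * X → ∀ p ∈ PC Q, ‖B m p‖ ≤ mb p
  slow : ∀ m : ℤ, (X : ℤ) ≤ m → m + 1 ≤ 4 * X → ∀ p ∈ PC Q, ‖B (m + 1) p - B m p‖ ≤ 2 * (Q : ℝ) ^ 3 / X
  eq : ∀ m : ℤ, (X : ℤ) ≤ m → m ≤ 4 * X → ((Lk Q (X / Q ^ 2) m : ℝ) : ℂ) = SG Q (B m) m

end

end Pool.Agent.Lib.H59P
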