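import Pool.Agent.Lib.H59P.S1A
import Pool.Agent.Lib.H59P.SDefs
import Pool.Agent.Lib.H18Q.QP

/-!
# Project H59P, chunk S1b
-/

open Finset

namespace Pool.Agent.Lib.H59P

open Pool.Agent.Lib.H68T Pool.Agent.Lib.H18Q

/-- The size of `SG` with coefficients of total size at most `b`. Proof. `qp_SG_le` in `H18Q/QP.lean`. -/
theorem S1b (Q : ℕ) (hQ : 1 ≤ Q) (B : Ch → ℂ) (mb : Ch → ℝ) (hB : ∀ p ∈ PC Q, ‖B p‖ ≤ mb p) (m : ℤ) :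
    ‖SG Q B m‖ ≤ 100 * (1 + Real.log Q) ^ 3 * dQ Q m * ∑ p ∈ PC Q, mb p :=
  qp_SG_le hQ B mb hB m

end Pool.Agent.Lib.H59P
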