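import Pool.Agent.Lib.H59P.MDefs

/-!
# Project H59P, chunk M2a
-/

open Finset

namespace Pool.Agent.Lib.H59P

open Pool.Agent.Lib.H68T Pool.Agent.Lib.H18Q

/-- `μ(κ) c_κ(m)/φ(κ) = ∏_{l ∣ κ} gl l m` for squarefree `κ`.

Proof. Induction over the prime factors (`CA_cq_mul`, `CA_cq_prime`, multiplicativity of `μ` and `φ`);
for a prime `l`: `-c_l(m)/(l-1)`, `c_l(m) = l - 1` if `l ∣ m`, else `-1`. -/
theorem M2a (κ : ℕ) (hκ : Squarefree κ) (m : ℤ) :
    (ArithmeticFunction.moebius κ : ℝ) / (Nat.totient κ : ℝ) * cq κ m =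
      ∏ l ∈ κ.primeFactors, gl l m := by
  induction κ using Nat.recOnPosPrimePosCoprime with
  | prime_pow p n hp hn =>
    have hn1 : n = 1 := ((Nat.squarefree_pow_iff hp.ne_one hn.ne').1 hκ).2
    subst hn1
    rw [pow_one, CA_cq_prime p hp, hp.primeFactors, Finset.prod_singleton,
      ArithmeticFunction.moebius_apply_prime hp, Nat.totient_prime hp, Nat.cast_pred hp.pos]
    have h1 : (p : ℝ) - 1 ≠ 0 := by
      have : (1 : ℝ) < p := by exact_mod_cast hp.one_lt
      linarith
    unfold gl
    split_ifs with h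
    · push_cast
      field_simp
      ring
    · push_cast
      field_simp
      ring
  | zero => exact absurd rfl hκ.ne_zero
  | one =>
    have h1 : cq 1 m = 1 := by
      rw [cq, Nat.divisors_one, Finset.sum_filter, Finset.sum_singleton,
        if_pos (by rw [Nat.cast_one]; exact one_dvd m)]
      simp
    rw [h1]
    simp
  | coprime a b ha hb hab iha ihb =>
    have hsa : Squarefree a := hκ.squarefree_of_dvd (Dvd.intro _ rfl)
    have hsb : Squarefree b := hκ.squarefree_of_dvd (Dvd.intro_left _ rfl)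
    rw [Nat.Coprime.primeFactors_mul hab, Finset.prod_union hab.disjoint_primeFactors,
      ← iha hsa, ← ihb hsb, CA_cq_mul a b m hab,
      ArithmeticFunction.isMultiplicative_moebius.map_mul_of_coprime hab,
      Nat.totient_mul hab]
    push_cast
    rw [mul_div_mul_comm]
    ring

end Pool.Agent.Lib.H59P
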