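import Pool.Agent.Lib.H59P.M2A
import Pool.Agent.Lib.H59P.MDefs

/-!
# Project H59P, chunk M2b
-/

open Finset

namespace Pool.Agent.Lib.H59P

open Pool.Agent.Lib.H68T Pool.Agent.Lib.H18Q

theorem m2b_prod (r : ℕ) (hr : 0 < r) (m : ℤ) (h : IsCoprime (r : ℤ) m) :
    ∏ l ∈ r.primeFactors, (1 + gl l m) = (r : ℝ) / (Nat.totient r : ℝ) := by
  have h0 : ∀ l ∈ r.primeFactors, (l : ℝ) - 1 ≠ 0 := by
    intro l hl
    have : (1 : ℝ) < l := by exact_mod_cast (Nat.prime_of_mem_primeFactors hl).one_lt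
    linarith
  have h1 : ∏ l ∈ r.primeFactors, (1 + gl l m) =
      (∏ l ∈ r.primeFactors, (l : ℝ)) / ∏ l ∈ r.primeFactors, ((l : ℝ) - 1) := by
    rw [← Finset.prod_div_distrib]
    refine Finset.prod_congr rfl fun l hl => ?_
    have hp := Nat.prime_of_mem_primeFactors hl
    have hnd : ¬ (l : ℤ) ∣ m := by
      intro hdm
      have hdr : (l : ℤ) ∣ (r : ℤ) := by exact_mod_cast Nat.dvd_of_mem_primeFactors hl
      exact (Nat.prime_iff_prime_int.mp hp).not_unit (h.isUnit_of_dvd' hdr hdm)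
    have := h0 l hl
    rw [gl, if_neg hnd]
    field_simp
    ring
  have h2 := Nat.totient_mul_prod_primeFactors r
  have h3 : (Nat.totient r : ℝ) * ∏ l ∈ r.primeFactors, (l : ℝ) =
      (r : ℝ) * ∏ l ∈ r.primeFactors, ((l : ℝ) - 1) := by
    have h4 := congrArg (fun x : ℕ => (x : ℝ)) h2
    simp only [Nat.cast_mul, Nat.cast_prod] at h4
    rw [h4]
    congr 1
    refine Finset.prod_congr rfl fun l hl => ?_
    rw [Nat.cast_pred (Nat.prime_of_mem_primeFactors hl).pos]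
  have h5 : (∏ l ∈ r.primeFactors, ((l : ℝ) - 1)) ≠ 0 := Finset.prod_ne_zero_iff.2 h0
  have h6 : (Nat.totient r : ℝ) ≠ 0 := by
    exact_mod_cast (Nat.totient_pos.2 hr).ne'
  rw [h1, div_eq_div_iff h5 h6, mul_comm, h3]

/-- For `p.1 ∣ R`, `r = p.1`:
`(r/φ(r)) conj χ(m) ∏_{l ∣ R, l ∤ r} (1 + gl l m) = conj χ(m) ∏_{l ∣ R} (1 + gl l m)`.

Proof. If `m` is not coprime to `r` both sides are `0` (`CA_chi_zero`). Else for `l ∣ r` `l` does not divide
`m` and `1 + gl l m = l/(l-1)`, and `∏_{l ∣ r} l/(l-1) = r/φ(r)` (`Nat.totient_eq_mul_prod_factors`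
or `Nat.totient_mul_prod_primeFactors`). `r` divides `R`, so the prime factors of `r` are among those of
`R` (`R > 0`). -/
theorem M2b (R : ℕ) (hR : 0 < R) (p : Ch) (hd : p.1 ∣ R) (m : ℤ) :
    (((p.1 : ℝ) / (Nat.totient p.1 : ℝ) : ℝ) : ℂ) * cj p m *
      ((∏ l ∈ R.primeFactors.filter (fun l => ¬ l ∣ p.1), (1 + gl l m) : ℝ) : ℂ) =
    cj p m * ((uu R.primeFactors m : ℝ) : ℂ) := by
  by_cases h : IsCoprime (p.1 : ℤ) m
  · have hr : 0 < p.1 := Nat.pos_of_dvd_of_pos hd hR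
    have hset : R.primeFactors.filter (fun l => l ∣ p.1) = p.1.primeFactors := by
      ext l
      rw [Finset.mem_filter, Nat.mem_primeFactors, Nat.mem_primeFactors]
      constructor
      · rintro ⟨⟨h1, -, -⟩, h2⟩
        exact ⟨h1, h2, hr.ne'⟩
      · rintro ⟨h1, h2, -⟩
        exact ⟨⟨h1, h2.trans hd, hR.ne'⟩, h2⟩
    have h1 : uu R.primeFactors m = (p.1 : ℝ) / (Nat.totient p.1 : ℝ) *
        ∏ l ∈ R.primeFactors.filter (fun l => ¬ l ∣ p.1), (1 + gl l m) := by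
      rw [uu, ← Finset.prod_filter_mul_prod_filter_not R.primeFactors (fun l => l ∣ p.1), hset,
        m2b_prod p.1 hr m h]
    rw [h1, Complex.ofReal_mul]
    ring
  · have h0 : cj p m = 0 := by
      rw [cj, CA_chi_zero p.1 p.2 m h, map_zero]
    rw [h0]
    ring

end Pool.Agent.Lib.H59P
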