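import Pool.Agent.Lib.H59P.MDefs

/-!
# Project H59P, chunk M2c: sum over the squarefree divisors of R coprime to r
-/

open Finset

namespace Pool.Agent.Lib.H59P

open Pool.Agent.Lib.H68T Pool.Agent.Lib.H18Q

/-- The squarefree divisors of `R` coprime to `r`. -/
noncomputable def SD (R r : ℕ) : Finset ℕ :=
  open Classical in R.divisors.filter (fun s => Squarefree s ∧ Nat.Coprime s r)

/-- Proof. `s ↦ s.primeFactors` is a bijection from `SD R r` to the subsets of
`R.primeFactors.filter (¬ l ∣ r)` (inverse `S ↦ ∏ l ∈ S, l`); `Finset.prod_one_add` (or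
`Finset.prod_add`). -/
theorem M2c (a : ℕ → ℂ) (R r : ℕ) (hR : 0 < R) :
    ∑ s ∈ SD R r, ∏ l ∈ s.primeFactors, a l =
      ∏ l ∈ R.primeFactors.filter (fun l => ¬ l ∣ r), (1 + a l) := by
  rw [Finset.prod_one_add]
  have hSD : ∀ q, q ∈ SD R r ↔ (q ∣ R ∧ R ≠ 0) ∧ Squarefree q ∧ Nat.Coprime q r := by
    intro q
    rw [SD, Finset.mem_filter, Nat.mem_divisors]
  have hpr : ∀ S ∈ (R.primeFactors.filter (fun l => ¬ l ∣ r)).powerset, ∀ l ∈ S, l.Prime ∧ l ∣ R ∧
      ¬ l ∣ r := by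
    intro S hS l hl
    have h1 := Finset.mem_powerset.1 hS hl
    rw [Finset.mem_filter, Nat.mem_primeFactors] at h1
    exact ⟨h1.1.1, h1.1.2.1, h1.2⟩
  refine Finset.sum_nbij' (fun s => s.primeFactors) (fun S => ∏ l ∈ S, l) ?_ ?_ ?_ ?_ ?_
  · intro s hs
    rw [hSD] at hs
    rw [Finset.mem_powerset]
    intro l hl
    rw [Finset.mem_filter, Nat.mem_primeFactors]
    have hl' := Nat.mem_primeFactors.1 hl
    refine ⟨⟨hl'.1, hl'.2.1.trans hs.1.1, hs.1.2⟩, fun h => ?_⟩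
    exact Nat.Prime.not_coprime_iff_dvd.2 ⟨l, hl'.1, hl'.2.1, h⟩ hs.2.2
  · intro S hS
    have hS' := hpr S hS
    rw [hSD]
    refine ⟨⟨?_, hR.ne'⟩, ?_, ?_⟩
    · exact Finset.prod_primes_dvd R (fun l hl => (hS' l hl).1.prime) (fun l hl => (hS' l hl).2.1)
    · refine Finset.squarefree_prod_of_pairwise_isCoprime
        (fun x hx y hy hxy => ?_) (fun l hl => (hS' l hl).1.prime.squarefree)
      exact Nat.coprime_iff_isRelPrime.1 ((Nat.coprime_primes (hS' x hx).1 (hS' y hy).1).2 hxy)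
    · refine Nat.Coprime.prod_left fun l hl => ?_
      exact (Nat.Prime.coprime_iff_not_dvd (hS' l hl).1).2 (hS' l hl).2.2
  · intro s hs
    rw [hSD] at hs
    exact Nat.prod_primeFactors_of_squarefree hs.2.1
  · intro S hS
    exact Nat.primeFactors_prod fun l hl => (hpr S hS l hl).1
  · intro s _
    rfl

end Pool.Agent.Lib.H59P
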