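import Pool.Agent.Lib.H59P.M3A

/-!
# Project H59P, chunk M3b: elementary bound for n/φ(n)
-/

open Finset

namespace Pool.Agent.Lib.H59P

open Pool.Agent.Lib.H68T Pool.Agent.Lib.H18Q

theorem m3b_prod (S : Finset ℕ) : (∀ l ∈ S, 2 ≤ l) →
    ∏ l ∈ S, ((l : ℝ) / ((l : ℝ) - 1)) ≤ (S.card : ℝ) + 1 := by
  induction S using Finset.induction_on_max with
  | empty => intro _; simp
  | insert a s ha ih =>
    intro h2
    have hns : a ∉ s := fun h => lt_irrefl _ (ha a h)
    have hsub : s ⊆ Finset.Ico 2 a := by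
      intro x hx
      rw [Finset.mem_Ico]
      exact ⟨h2 x (Finset.mem_insert_of_mem hx), ha x hx⟩
    have hcard : s.card ≤ a - 2 := by
      have := Finset.card_le_card hsub
      rwa [Nat.card_Ico] at this
    have ha2 : 2 ≤ a := h2 a (Finset.mem_insert_self _ _)
    have hca : s.card + 2 ≤ a := by omega
    have hca' : (s.card : ℝ) + 2 ≤ a := by exact_mod_cast hca
    have hs0 : (0 : ℝ) ≤ s.card := Nat.cast_nonneg _
    rw [Finset.prod_insert hns, Finset.card_insert_of_notMem hns]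
    have ih' := ih (fun l hl => h2 l (Finset.mem_insert_of_mem hl))
    have h3 : (a : ℝ) / ((a : ℝ) - 1) ≤ ((s.card : ℝ) + 2) / ((s.card : ℝ) + 1) := by
      rw [div_le_div_iff₀ (by linarith) (by linarith)]
      nlinarith
    have h4 : (0 : ℝ) ≤ ∏ l ∈ s, ((l : ℝ) / ((l : ℝ) - 1)) := by
      apply Finset.prod_nonneg
      intro l hl
      have : (2 : ℝ) ≤ l := by exact_mod_cast h2 l (Finset.mem_insert_of_mem hl)
      exact div_nonneg (by linarith) (by linarith)
    calc (a : ℝ) / ((a : ℝ) - 1) * ∏ l ∈ s, ((l : ℝ) / ((l : ℝ) - 1))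
        ≤ ((s.card : ℝ) + 2) / ((s.card : ℝ) + 1) * ((s.card : ℝ) + 1) :=
          mul_le_mul h3 ih' h4 (by positivity)
      _ = ((s.card : ℝ) + 2) := by field_simp
      _ = ((s.card + 1 : ℕ) : ℝ) + 1 := by push_cast; ring

/-- `n/φ(n) ≤ 2 (1 + log n)`.

Proof. `n/φ(n) = ∏_{l ∣ n} l/(l-1) ≤ ∏_{j=2}^{ω+1} j/(j-1) = ω + 1`, `ω = ω(n)` the number of prime factors
(the `j`-th smallest element of a set of integers `≥ 2` is `≥ j + 1`; induction on the cardinality of the
set, removing the maximum, which is at least the cardinality plus one), and `2^ω ≤ n`, so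
`ω ≤ log n/log 2 ≤ 2 log n`. -/
theorem M3b (n : ℕ) (hn : 1 ≤ n) : (n : ℝ) / (Nat.totient n : ℝ) ≤ 2 * (1 + Real.log n) := by
  rw [← M3a_prod n hn]
  have h1 := m3b_prod n.primeFactors (fun l hl => (Nat.prime_of_mem_primeFactors hl).two_le)
  have h2 : 2 ^ n.primeFactors.card ≤ n := by
    calc 2 ^ n.primeFactors.card = ∏ _l ∈ n.primeFactors, 2 := by rw [Finset.prod_const]
      _ ≤ ∏ l ∈ n.primeFactors, l :=
        Finset.prod_le_prod' (fun l hl => (Nat.prime_of_mem_primeFactors hl).two_le)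
      _ ≤ n := Nat.le_of_dvd hn (Nat.prod_primeFactors_dvd n)
  have h3 : (n.primeFactors.card : ℝ) * Real.log 2 ≤ Real.log n := by
    rw [← Real.log_pow]
    apply Real.log_le_log (by positivity)
    exact_mod_cast h2
  have h4 : (0.5 : ℝ) < Real.log 2 := by
    have := Real.log_two_gt_d9
    linarith
  have h5 : (0 : ℝ) ≤ n.primeFactors.card := Nat.cast_nonneg _
  nlinarith

end Pool.Agent.Lib.H59P
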