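import Pool.Agent.Lib.H59P.M3C
import Pool.Agent.Lib.H59P.M3B

/-!
# Project H59P, chunk M3d
-/

open Finset

namespace Pool.Agent.Lib.H59P

open Pool.Agent.Lib.H68T Pool.Agent.Lib.H18Q

theorem m3d_mod (f : ℤ → ℂ) (P : ℕ) (hf : ∀ m, f (m + P) = f m) (n : ℕ) :
    f ((n % P : ℕ) : ℤ) = f n := by
  have h := m3c_per f P hf (n / P) ((n % P : ℕ) : ℤ)
  rw [← h]
  congr 1
  have := Nat.mod_add_div n P
  rw [mul_comm] at this
  exact_mod_cast this

/-- Chinese remainder theorem for two periodic functions.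

Proof. `c ↦ (c mod a, c mod b)` is a bijection from `range (a b)` to `range a × range b`
(`Nat.chineseRemainder`, compare `cc1_two` in `H18Q/CC1.lean`, same proof for complex values). -/
theorem M3d (f g : ℤ → ℂ) (a b : ℕ) (ha : 0 < a) (hb : 0 < b) (hab : Nat.Coprime a b)
    (hf : ∀ m, f (m + a) = f m) (hg : ∀ m, g (m + b) = g m) :
    ∑ n ∈ range (a * b), f n * g n = (∑ n ∈ range a, f n) * ∑ n ∈ range b, g n := by
  rw [Finset.sum_mul_sum, ← Finset.sum_product']
  apply Finset.sum_bij (fun (n : ℕ) _ => (n % a, n % b))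
  · intro n _
    rw [Finset.mem_product, Finset.mem_range, Finset.mem_range]
    exact ⟨Nat.mod_lt _ ha, Nat.mod_lt _ hb⟩
  · intro n hn m hm h
    rw [Finset.mem_range] at hn hm
    have h1 : n % a = m % a := congrArg Prod.fst h
    have h2 : n % b = m % b := congrArg Prod.snd h
    have h3 : n ≡ m [MOD (a * b)] :=
      (Nat.modEq_and_modEq_iff_modEq_mul hab).1 ⟨h1, h2⟩
    exact Nat.ModEq.eq_of_lt_of_lt h3 hn hm
  · rintro ⟨x, y⟩ hxy
    rw [Finset.mem_product, Finset.mem_range, Finset.mem_range] at hxy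
    refine ⟨(Nat.chineseRemainder hab x y : ℕ), ?_, ?_⟩
    · rw [Finset.mem_range]
      exact Nat.chineseRemainder_lt_mul hab x y ha.ne' hb.ne'
    · have h1 := (Nat.chineseRemainder hab x y).2.1
      have h2 := (Nat.chineseRemainder hab x y).2.2
      have h3 : (Nat.chineseRemainder hab x y : ℕ) % a = x := by
        have := h1
        unfold Nat.ModEq at this
        rw [this, Nat.mod_eq_of_lt hxy.1]
      have h4 : (Nat.chineseRemainder hab x y : ℕ) % b = y := by
        have := h2
        unfold Nat.ModEq at this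
        rw [this, Nat.mod_eq_of_lt hxy.2]
      exact Prod.ext h3 h4
  · intro n _
    show f n * g n = f ((n % a : ℕ) : ℤ) * g ((n % b : ℕ) : ℤ)
    rw [m3d_mod f a hf, m3d_mod g b hg]

end Pool.Agent.Lib.H59P
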