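import Pool.Agent.Lib.H59P.M3B

/-!
# Project H59P, chunk M3c
-/

open Finset

namespace Pool.Agent.Lib.H59P

open Pool.Agent.Lib.H68T Pool.Agent.Lib.H18Q

theorem m3c_per (f : ℤ → ℂ) (P : ℕ) (hf : ∀ m, f (m + P) = f m) (j : ℕ) (m : ℤ) :
    f (m + j * P) = f m := by
  induction j with
  | zero => simp
  | succ j ih =>
    have : m + ((j + 1 : ℕ) : ℤ) * P = (m + j * P) + P := by push_cast; ring
    rw [this, hf, ih]

/-- the sum over a period does not depend on the starting point -/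
theorem m3c_start (f : ℤ → ℂ) (P : ℕ) (hf : ∀ m, f (m + P) = f m) (a : ℕ) :
    ∑ n ∈ range P, f ((a : ℤ) + n) = ∑ n ∈ range P, f n := by
  induction a with
  | zero => simp
  | succ a ih =>
    rw [← ih]
    have h1 : ∑ n ∈ range (P + 1), f ((a : ℤ) + n) =
        ∑ n ∈ range P, f ((a : ℤ) + n) + f ((a : ℤ) + P) := by
      rw [Finset.sum_range_succ]
    have h2 : ∑ n ∈ range (P + 1), f ((a : ℤ) + n) =
        ∑ n ∈ range P, f (((a + 1 : ℕ) : ℤ) + n) + f (a : ℤ) := by
      rw [Finset.sum_range_succ']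
      congr 1
      · apply Finset.sum_congr rfl
        intro n _
        congr 1
        push_cast
        ring
    have h3 := hf a
    rw [h3] at h1
    rw [h1] at h2
    exact (add_right_cancel h2).symm

/-- A periodic function over an interval.

Proof. `H = j P + s`, `s < P`; `j` full periods (each with the same sum, `CB_shift`) and a rest with `s < P`
terms: the difference is at most `s Φ + (s/P) ‖∑‖ ≤ 2 P Φ`. -/
theorem M3c (f : ℤ → ℂ) (P : ℕ) (hP : 0 < P) (hf : ∀ m, f (m + P) = f m) (Φ : ℝ) (hΦ : ∀ m, ‖f m‖ ≤ Φ)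
    (a H : ℕ) :
    ‖∑ n ∈ Ico a (a + H), f n - H * ((∑ n ∈ range P, f n) / P)‖ ≤ 2 * P * Φ := by
  have hP0 : (0 : ℝ) < P := by exact_mod_cast hP
  have hΦ0 : 0 ≤ Φ := le_trans (norm_nonneg _) (hΦ 0)
  have hsum : ‖∑ n ∈ range P, f n‖ ≤ P * Φ := by
    calc ‖∑ n ∈ range P, f n‖ ≤ ∑ n ∈ range P, ‖f n‖ := norm_sum_le _ _
      _ ≤ ∑ _n ∈ range P, Φ := Finset.sum_le_sum fun n _ => hΦ n
      _ = P * Φ := by rw [Finset.sum_const, Finset.card_range, nsmul_eq_mul]
  have hIco : ∀ H : ℕ, ∑ n ∈ Ico a (a + H), f n = ∑ n ∈ range H, f ((a : ℤ) + n) := by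
    intro H
    rw [Finset.sum_Ico_eq_sum_range]
    have : a + H - a = H := by omega
    rw [this]
    apply Finset.sum_congr rfl
    intro n _
    push_cast
    rfl
  have hfull : ∀ j s : ℕ, ∑ n ∈ range (j * P + s), f ((a : ℤ) + n) =
      j * ∑ n ∈ range P, f n + ∑ n ∈ range s, f ((a : ℤ) + n) := by
    intro j
    induction j with
    | zero => intro s; simp
    | succ j ih =>
      intro s
      have e1 : (j + 1) * P + s = (j * P + s) + P := by ring
      rw [e1, Finset.sum_range_add, ih s]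
      have e2 : ∑ x ∈ range P, f ((a : ℤ) + ((j * P + s + x : ℕ) : ℤ)) = ∑ n ∈ range P, f n := by
        have := m3c_start f P hf (a + s)
        rw [← this]
        apply Finset.sum_congr rfl
        intro n _
        have e3 : (a : ℤ) + ((j * P + s + n : ℕ) : ℤ) = (((a + s : ℕ) : ℤ) + n) + j * P := by
          push_cast; ring
        rw [e3, m3c_per f P hf]
      rw [e2]
      push_cast
      ring
  have hH : H = (H / P) * P + H % P := by
    have := Nat.div_add_mod H P
    rw [mul_comm] at this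
    exact this.symm
  set j := H / P with hj
  set s := H % P with hs
  have hsP : s < P := Nat.mod_lt _ hP
  rw [hIco]
  have e1 : ∑ n ∈ range H, f ((a : ℤ) + n) =
      j * ∑ n ∈ range P, f n + ∑ n ∈ range s, f ((a : ℤ) + n) := by
    have := hfull j s
    rw [← hH] at this
    exact this
  rw [e1]
  have hPc : (P : ℂ) ≠ 0 := by exact_mod_cast hP.ne'
  have e2 : (j : ℂ) * ∑ n ∈ range P, f n + ∑ n ∈ range s, f ((a : ℤ) + n) -
      H * ((∑ n ∈ range P, f n) / P) =
      ∑ n ∈ range s, f ((a : ℤ) + n) - (s : ℂ) / P * ∑ n ∈ range P, f n := by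
    have : (H : ℂ) = j * P + s := by exact_mod_cast hH
    rw [this]
    field_simp
    ring
  rw [e2]
  have hrest : ‖∑ n ∈ range s, f ((a : ℤ) + n)‖ ≤ P * Φ := by
    calc ‖∑ n ∈ range s, f ((a : ℤ) + n)‖ ≤ ∑ n ∈ range s, ‖f ((a : ℤ) + n)‖ := norm_sum_le _ _
      _ ≤ ∑ _n ∈ range s, Φ := Finset.sum_le_sum fun n _ => hΦ _
      _ = s * Φ := by rw [Finset.sum_const, Finset.card_range, nsmul_eq_mul]
      _ ≤ P * Φ := by
        apply mul_le_mul_of_nonneg_right _ hΦ0
        exact_mod_cast hsP.le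
  have hfr : ‖(s : ℂ) / P‖ ≤ 1 := by
    rw [norm_div, Complex.norm_natCast, Complex.norm_natCast, div_le_one hP0]
    exact_mod_cast hsP.le
  calc ‖∑ n ∈ range s, f ((a : ℤ) + n) - (s : ℂ) / P * ∑ n ∈ range P, f n‖
      ≤ ‖∑ n ∈ range s, f ((a : ℤ) + n)‖ + ‖(s : ℂ) / P * ∑ n ∈ range P, f n‖ := norm_sub_le _ _
    _ ≤ P * Φ + 1 * (P * Φ) := by
      apply add_le_add hrest
      rw [norm_mul]
      exact mul_le_mul hfr hsum (norm_nonneg _) zero_le_one
    _ = 2 * P * Φ := by ring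

end Pool.Agent.Lib.H59P
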