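import Pool.Agent.Lib.H59P.ZDefs
import Pool.Agent.Lib.H68T.PV
import Pool.Agent.Lib.H68T.VB
import Pool.Agent.Lib.H68T.CQ1

/-!
# Project H59P, module F (frequencies): definitions
-/

open Finset

namespace Pool.Agent.Lib.H59P

open Pool.Agent.Lib.H68T Pool.Agent.Lib.H18Q

noncomputable section

/-- The residues coprime to `q`. -/
def UR (q : ℕ) : Finset ℕ := (range q).filter (fun x => Nat.Coprime x q)

/-- The index set of the frequencies of a coordinate of conductor `r`: the pairs `(κ, x)`,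
`κ ∈ KS Q r`, `x < r κ` coprime to `r κ`. -/
def FJ (Q r : ℕ) : Finset (ℕ × ℕ) :=
  open Classical in ((KS Q r) ×ˢ (range Q)).filter (fun j => j.2 ∈ UR (r * j.1))

/-- The frequency `x/(r κ)` of the index `(κ, x)`. -/
def fr (r : ℕ) (j : ℕ × ℕ) : ℝ := (j.2 : ℝ) / ((r * j.1 : ℕ) : ℝ)

end

end Pool.Agent.Lib.H59P
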