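import Pool.Agent.Lib.H59P.FDefs

/-!
# Project H59P, chunk F2: spacing of the frequencies
-/

open Finset

namespace Pool.Agent.Lib.H59P

open Pool.Agent.Lib.H68T Pool.Agent.Lib.H18Q

theorem f2_geo (b H : ℕ) (α : ℝ) :
    ‖∑ h ∈ Ico b (b + H), e ((h : ℝ) * α)‖ ≤ H ∧ ‖∑ h ∈ Ico b (b + H), e ((h : ℝ) * α)‖ * (2 * nd α) ≤ 1 := by
  have h0 : ∀ x : ℝ, ‖e x‖ = 1 := by
    intro x
    unfold e
    rw [show (2 * Real.pi * x * Complex.I : ℂ) = ((2 * Real.pi * x : ℝ) : ℂ) * Complex.I by push_cast; ring,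
      Complex.norm_exp_ofReal_mul_I]
  constructor
  · refine (norm_sum_le _ _).trans ?_
    simp_rw [h0]
    rw [sum_const, Nat.card_Ico, nsmul_eq_mul, mul_one]
    simp
  · have h1 : (e α - 1) * ∑ h ∈ Ico b (b + H), e ((h : ℝ) * α) =
        e (((b + H : ℕ) : ℝ) * α) - e ((b : ℝ) * α) := by
      rw [sum_Ico_eq_sum_range, Nat.add_sub_cancel_left, mul_sum]
      have h2 : ∀ i ∈ range H, (e α - 1) * e (((b + i : ℕ) : ℝ) * α) =
          (fun i : ℕ => e (((b + i : ℕ) : ℝ) * α)) (i + 1) - (fun i : ℕ => e (((b + i : ℕ) : ℝ) * α)) i := by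
        intro i _
        have h3 : e (((b + (i + 1) : ℕ) : ℝ) * α) = e α * e (((b + i : ℕ) : ℝ) * α) := by
          rw [← PV_e_add]
          congr 1
          push_cast
          ring
        simp only [h3]
        ring
      rw [sum_congr rfl h2]
      have h3 := sum_range_sub (fun i : ℕ => e (((b + i : ℕ) : ℝ) * α)) H
      rw [h3]
      simp
    have h4 := congrArg norm h1
    rw [norm_mul] at h4
    have h5 : ‖e (((b + H : ℕ) : ℝ) * α) - e ((b : ℝ) * α)‖ ≤ 2 := by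
      refine (norm_sub_le _ _).trans ?_
      rw [h0, h0]
      norm_num
    have h6 := VB_four_nd_le α
    have h7 : 4 * nd α * ‖∑ h ∈ Ico b (b + H), e ((h : ℝ) * α)‖ ≤ 2 := by
      calc 4 * nd α * ‖∑ h ∈ Ico b (b + H), e ((h : ℝ) * α)‖
          ≤ ‖e α - 1‖ * ‖∑ h ∈ Ico b (b + H), e ((h : ℝ) * α)‖ := by gcongr
        _ ≤ 2 := by rw [h4]; exact h5
    linarith

theorem f2_nd (Q q q' x x' : ℕ) (hq : 1 ≤ q) (hq' : 1 ≤ q') (hqQ : q ≤ Q) (hqQ' : q' ≤ Q)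
    (hx : x < q) (hx' : x' < q') (hc : Nat.Coprime x q) (hc' : Nat.Coprime x' q')
    (hne : ¬ (q = q' ∧ x = x')) :
    1 / (Q : ℝ) ^ 2 ≤ nd ((x : ℝ) / q - (x' : ℝ) / q') := by
  set m : ℤ := round ((x : ℝ) / q - (x' : ℝ) / q') with hm
  have hqr : (0 : ℝ) < q := by exact_mod_cast hq
  have hqr' : (0 : ℝ) < q' := by exact_mod_cast hq'
  have hQr : (0 : ℝ) < Q := by
    have : (q : ℝ) ≤ Q := by exact_mod_cast hqQ
    linarith
  set N : ℤ := (x : ℤ) * q' - x' * q - m * (q * q') with hN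
  have h1 : nd ((x : ℝ) / q - (x' : ℝ) / q') = |(N : ℝ)| / (q * q') := by
    have h2 : (x : ℝ) / q - (x' : ℝ) / q' - m = (N : ℝ) / (q * q') := by
      rw [hN]
      push_cast
      field_simp
    have h3 : nd ((x : ℝ) / q - (x' : ℝ) / q') = |(x : ℝ) / q - (x' : ℝ) / q' - m| := rfl
    rw [h3, h2, abs_div, abs_of_pos (mul_pos hqr hqr')]
  have hN0 : N ≠ 0 := by
    intro hN1
    rw [hN] at hN1
    have h2 : (x : ℤ) * q' = q * (x' + m * q') := by linarith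
    have h3 : (q : ℤ) ∣ (x : ℤ) * q' := ⟨_, h2⟩
    have h4 : q ∣ q' := by
      have h5 : q ∣ x * q' := by exact_mod_cast h3
      exact (Nat.Coprime.dvd_of_dvd_mul_left hc.symm h5)
    have h6 : (x' : ℤ) * q = q' * (x - m * q) := by linarith
    have h7 : q' ∣ q := by
      have h8 : (q' : ℤ) ∣ (x' : ℤ) * q := ⟨_, h6⟩
      have h9 : q' ∣ x' * q := by exact_mod_cast h8
      exact (Nat.Coprime.dvd_of_dvd_mul_left hc'.symm h9)
    have h10 : q = q' := Nat.dvd_antisymm h4 h7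
    apply hne
    refine ⟨h10, ?_⟩
    subst h10
    have hq0 : (q : ℤ) ≠ 0 := by exact_mod_cast (by omega : q ≠ 0)
    have h11 : (x : ℤ) = x' + m * q := by
      apply mul_right_cancel₀ hq0
      linarith
    have h12 : (x : ℤ) < q := by exact_mod_cast hx
    have h13 : (x' : ℤ) < q := by exact_mod_cast hx'
    have h14 : (0 : ℤ) ≤ x := by positivity
    have h15 : (0 : ℤ) ≤ x' := by positivity
    have h16 : m = 0 := by
      by_contra hm0
      rcases lt_or_gt_of_ne hm0 with h | h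
      · have : m ≤ -1 := by omega
        nlinarith
      · have : 1 ≤ m := by omega
        nlinarith
    rw [h16] at h11
    have : (x : ℤ) = x' := by linarith
    exact_mod_cast this
  rw [h1]
  have h2 : (1 : ℝ) ≤ |(N : ℝ)| := by
    have := Int.one_le_abs hN0
    exact_mod_cast this
  have h3 : (q : ℝ) * q' ≤ (Q : ℝ) ^ 2 := by
    have a1 : (q : ℝ) ≤ Q := by exact_mod_cast hqQ
    have a2 : (q' : ℝ) ≤ Q := by exact_mod_cast hqQ'
    nlinarith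
  calc 1 / (Q : ℝ) ^ 2 ≤ 1 / (q * q') := by
        apply one_div_le_one_div_of_le (mul_pos hqr hqr') h3
    _ ≤ |(N : ℝ)| / (q * q') := by gcongr

theorem f2_mem {Q r : ℕ} {j : ℕ × ℕ} (hr : 1 ≤ r) (hj : j ∈ FJ Q r) :
    1 ≤ r * j.1 ∧ r * j.1 ≤ Q ∧ j.2 < r * j.1 ∧ Nat.Coprime j.2 (r * j.1) := by
  classical
  unfold FJ at hj
  rw [mem_filter, mem_product, mem_range] at hj
  obtain ⟨⟨h1, -⟩, h2⟩ := hj
  obtain ⟨⟨hk1, hk2⟩, -, -⟩ := CA_mem_KS.1 h1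
  unfold UR at h2
  rw [mem_filter, mem_range] at h2
  refine ⟨Nat.mul_pos hr hk1, ?_, h2.1, h2.2⟩
  calc r * j.1 ≤ r * (Q / r) := Nat.mul_le_mul_left _ hk2
    _ ≤ Q := Nat.mul_div_le _ _

theorem f2_card (Q r : ℕ) : (FJ Q r).card ≤ Q ^ 2 := by
  classical
  unfold FJ
  refine (card_filter_le _ _).trans ?_
  rw [card_product, card_range]
  have h1 : (KS Q r).card ≤ Q := by
    have h2 : KS Q r ⊆ Icc 1 Q := by
      intro κ hκ
      obtain ⟨⟨hk1, hk2⟩, -, -⟩ := CA_mem_KS.1 hκ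
      rw [mem_Icc]
      exact ⟨hk1, hk2.trans (Nat.div_le_self _ _)⟩
    refine (card_le_card h2).trans ?_
    simp
  calc (KS Q r).card * Q ≤ Q * Q := Nat.mul_le_mul_right _ h1
    _ = Q ^ 2 := by ring

/-- **F2.** Proof. The term `j' = j` is `H`. For `j' ≠ j` the difference of the two reduced fractions is not an
integer (equal reduced fractions in `[0, 1)` have equal denominators `r κ = r κ'` and numerators) and is a
rational with denominator at most `Q²`, so `nd ≥ 1/Q²`, and `‖∑‖ ≤ 1/(2 nd) ≤ Q²/2` (`H68T/VB.lean`, line 84).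
There are at most `Q²` indices `j'` (`FJ Q r ⊆ KS Q r ×ˢ range Q`). Total `H + Q^4/2 ≤ 2 H`. -/
theorem F2 (Q r H b : ℕ) (hr : 1 ≤ r) (hrQ : r ≤ Q) (hQ : Q ^ 4 ≤ H) : ∀ j ∈ FJ Q r,
    ∑ j' ∈ FJ Q r, ‖∑ h ∈ Ico b (b + H), e ((h : ℝ) * (fr r j - fr r j'))‖ ≤ 2 * H := by
  classical
  intro j hj
  have hQ1 : 1 ≤ Q := hr.trans hrQ
  have hQr : (0 : ℝ) < Q := by exact_mod_cast hQ1
  obtain ⟨a1, a2, a3, a4⟩ := f2_mem hr hj
  rw [← add_sum_erase _ _ hj]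
  have h1 : ∀ j' ∈ (FJ Q r).erase j,
      ‖∑ h ∈ Ico b (b + H), e ((h : ℝ) * (fr r j - fr r j'))‖ ≤ (Q : ℝ) ^ 2 / 2 := by
    intro j' hj'
    rw [mem_erase] at hj'
    obtain ⟨b1, b2, b3, b4⟩ := f2_mem hr hj'.2
    have h2 : 1 / (Q : ℝ) ^ 2 ≤ nd (fr r j - fr r j') := by
      refine f2_nd Q (r * j.1) (r * j'.1) j.2 j'.2 a1 b1 a2 b2 a3 b3 a4 b4 ?_
      rintro ⟨e1, e2⟩
      apply hj'.1
      have e3 : j.1 = j'.1 := Nat.eq_of_mul_eq_mul_left hr e1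
      exact (Prod.ext e3 e2).symm
    have h3 := (f2_geo b H (fr r j - fr r j')).2
    set S := ‖∑ h ∈ Ico b (b + H), e ((h : ℝ) * (fr r j - fr r j'))‖ with hS
    have h4 : S * (2 * (1 / (Q : ℝ) ^ 2)) ≤ 1 := by
      refine le_trans ?_ h3
      have : 0 ≤ S := norm_nonneg _
      gcongr
    have h5 : S * (2 * (1 / (Q : ℝ) ^ 2)) = S / ((Q : ℝ) ^ 2 / 2) := by
      field_simp
    rw [h5, div_le_one (by positivity)] at h4
    exact h4
  have h6 := (f2_geo b H (fr r j - fr r j)).1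
  have h7 : ∑ j' ∈ (FJ Q r).erase j, ‖∑ h ∈ Ico b (b + H), e ((h : ℝ) * (fr r j - fr r j'))‖ ≤
      (Q : ℝ) ^ 2 * ((Q : ℝ) ^ 2 / 2) := by
    refine (sum_le_sum h1).trans ?_
    rw [sum_const, nsmul_eq_mul]
    have h8 : (((FJ Q r).erase j).card : ℝ) ≤ (Q : ℝ) ^ 2 := by
      have : ((FJ Q r).erase j).card ≤ Q ^ 2 := (card_le_card (erase_subset _ _)).trans (f2_card Q r)
      exact_mod_cast this
    gcongr
  have h9 : (Q : ℝ) ^ 4 ≤ H := by exact_mod_cast hQ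
  have h10 : (Q : ℝ) ^ 2 * ((Q : ℝ) ^ 2 / 2) ≤ H := by
    have : (Q : ℝ) ^ 2 * ((Q : ℝ) ^ 2 / 2) = (Q : ℝ) ^ 4 / 2 := by ring
    rw [this]
    have : (0 : ℝ) ≤ (Q : ℝ) ^ 4 := by positivity
    linarith
  linarith

end Pool.Agent.Lib.H59P
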