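import Pool.Agent.Lib.H59P.FDefs

/-!
# Project H59P, chunk F3: the large sieve in `k` dimensions, by Schur's test
-/

open Finset

namespace Pool.Agent.Lib.H59P

open Pool.Agent.Lib.H68T Pool.Agent.Lib.H18Q

theorem f3_conj_symm (s : Finset ℕ) (x y : ℝ) :
    ‖∑ h ∈ s, e ((h : ℝ) * (x - y))‖ = ‖∑ h ∈ s, e ((h : ℝ) * (y - x))‖ := by
  have h1 : ∑ h ∈ s, e ((h : ℝ) * (x - y)) = (starRingEnd ℂ) (∑ h ∈ s, e ((h : ℝ) * (y - x))) := by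
    rw [map_sum]
    refine sum_congr rfl fun h _ => ?_
    rw [PV_e_conj]
    congr 1
    ring
  rw [h1, Complex.norm_conj]

/-- Schur's test for a symmetric nonnegative kernel -/
theorem f3_schur {ι : Type} (S : Finset ι) (K : ι → ι → ℝ) (hK : ∀ i j, 0 ≤ K i j)
    (hs : ∀ i j, K i j = K j i) (B : ℝ) (hB : ∀ i ∈ S, ∑ j ∈ S, K i j ≤ B) (A : ι → ℝ) :
    ∑ i ∈ S, ∑ j ∈ S, A i * A j * K i j ≤ B * ∑ i ∈ S, A i ^ 2 := by
  have h1 : ∀ i ∈ S, ∀ j ∈ S, A i * A j * K i j ≤ (A i ^ 2 * K i j + A j ^ 2 * K i j) / 2 := by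
    intro i _ j _
    have := mul_nonneg (sq_nonneg (A i - A j)) (hK i j)
    nlinarith
  have h2 : ∑ i ∈ S, ∑ j ∈ S, A j ^ 2 * K i j = ∑ i ∈ S, ∑ j ∈ S, A i ^ 2 * K i j := by
    rw [sum_comm]
    exact sum_congr rfl fun i _ => sum_congr rfl fun j _ => by rw [hs j i]
  calc ∑ i ∈ S, ∑ j ∈ S, A i * A j * K i j
      ≤ ∑ i ∈ S, ∑ j ∈ S, (A i ^ 2 * K i j + A j ^ 2 * K i j) / 2 :=
        sum_le_sum fun i hi => sum_le_sum fun j hj => h1 i hi j hj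
    _ = (∑ i ∈ S, ∑ j ∈ S, A i ^ 2 * K i j + ∑ i ∈ S, ∑ j ∈ S, A j ^ 2 * K i j) / 2 := by
        rw [← sum_add_distrib, sum_div]
        refine sum_congr rfl fun i _ => ?_
        rw [← sum_add_distrib, sum_div]
    _ = ∑ i ∈ S, ∑ j ∈ S, A i ^ 2 * K i j := by rw [h2]; ring
    _ = ∑ i ∈ S, A i ^ 2 * ∑ j ∈ S, K i j := sum_congr rfl fun i _ => (mul_sum _ _ _).symm
    _ ≤ ∑ i ∈ S, A i ^ 2 * B := sum_le_sum fun i hi => mul_le_mul_of_nonneg_left (hB i hi) (sq_nonneg _)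
    _ = B * ∑ i ∈ S, A i ^ 2 := by rw [← sum_mul, mul_comm]

/-- **F3.** Proof. Expand the square: `∑_{j,j'} A j conj(A j') ∏_i (∑_{h_i} e(h_i (θ_i j_i - θ_i j'_i)))`
(`Finset.prod_univ_sum`, `PV_e_conj`, `PV_e_add`). In absolute value at most
`∑_{j,j'} (‖A j‖² + ‖A j'‖²)/2 ∏_i K_i(j_i, j'_i)`, `K_i` symmetric, `= ∑_j ‖A j‖² ∏_i ∑_{j'} K_i(j_i, j')
≤ B^k ∑_j ‖A j‖²`. -/
theorem F3 {k : ℕ} {ι : Type} (J : Fin k → Finset ι) (θ : Fin k → ι → ℝ) (b : Fin k → ℕ) (H : ℕ) (B : ℝ)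
    (hB0 : 0 ≤ B) (hB : ∀ i, ∀ j ∈ J i,
      ∑ j' ∈ J i, ‖∑ h ∈ Ico (b i) (b i + H), e ((h : ℝ) * (θ i j - θ i j'))‖ ≤ B)
    (A : (Fin k → ι) → ℂ) :
    ∑ h ∈ cube b H, ‖∑ j ∈ Fintype.piFinset J, A j * ∏ i, e ((h i : ℝ) * θ i (j i))‖ ^ 2 ≤
      B ^ k * ∑ j ∈ Fintype.piFinset J, ‖A j‖ ^ 2 := by
  set P := Fintype.piFinset J with hP
  set K : (Fin k → ι) → (Fin k → ι) → ℝ := fun j j' =>
    ∏ i, ‖∑ h ∈ Ico (b i) (b i + H), e ((h : ℝ) * (θ i (j i) - θ i (j' i)))‖ with hKdef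
  have hC : ((∑ h ∈ cube b H, ‖∑ j ∈ P, A j * ∏ i, e ((h i : ℝ) * θ i (j i))‖ ^ 2 : ℝ) : ℂ) =
      ∑ j ∈ P, ∑ j' ∈ P, A j * (starRingEnd ℂ) (A j') *
        ∏ i, ∑ h ∈ Ico (b i) (b i + H), e ((h : ℝ) * (θ i (j i) - θ i (j' i))) := by
    have h1 : ∀ h : Fin k → ℕ, ((‖∑ j ∈ P, A j * ∏ i, e ((h i : ℝ) * θ i (j i))‖ ^ 2 : ℝ) : ℂ) =
        ∑ j ∈ P, ∑ j' ∈ P, A j * (starRingEnd ℂ) (A j') *
          ∏ i, e ((h i : ℝ) * (θ i (j i) - θ i (j' i))) := by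
      intro h
      rw [Complex.ofReal_pow, ← Complex.mul_conj', map_sum, sum_mul_sum]
      refine sum_congr rfl fun j _ => sum_congr rfl fun j' _ => ?_
      rw [map_mul, map_prod]
      have h2 : ∏ i, e ((h i : ℝ) * (θ i (j i) - θ i (j' i))) =
          (∏ i, e ((h i : ℝ) * θ i (j i))) * ∏ i, (starRingEnd ℂ) (e ((h i : ℝ) * θ i (j' i))) := by
        rw [← prod_mul_distrib]
        refine prod_congr rfl fun i _ => ?_
        rw [PV_e_conj, ← PV_e_add]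
        congr 1
        ring
      rw [h2]
      ring
    rw [Complex.ofReal_sum, sum_congr rfl fun h _ => h1 h, sum_comm]
    refine sum_congr rfl fun j _ => ?_
    rw [sum_comm]
    refine sum_congr rfl fun j' _ => ?_
    rw [← mul_sum]
    congr 1
    rw [prod_univ_sum]
    rfl
  have hle : ∑ h ∈ cube b H, ‖∑ j ∈ P, A j * ∏ i, e ((h i : ℝ) * θ i (j i))‖ ^ 2 ≤
      ∑ j ∈ P, ∑ j' ∈ P, ‖A j‖ * ‖A j'‖ * K j j' := by
    have h3 : ∑ h ∈ cube b H, ‖∑ j ∈ P, A j * ∏ i, e ((h i : ℝ) * θ i (j i))‖ ^ 2 =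
        ‖((∑ h ∈ cube b H, ‖∑ j ∈ P, A j * ∏ i, e ((h i : ℝ) * θ i (j i))‖ ^ 2 : ℝ) : ℂ)‖ := by
      rw [Complex.norm_real, Real.norm_eq_abs, abs_of_nonneg (sum_nonneg fun _ _ => sq_nonneg _)]
    rw [h3, hC]
    refine (norm_sum_le _ _).trans (sum_le_sum fun j _ => (norm_sum_le _ _).trans
      (sum_le_sum fun j' _ => ?_))
    rw [norm_mul, norm_mul, Complex.norm_conj, norm_prod]
  refine hle.trans (f3_schur P K (fun j j' => prod_nonneg fun i _ => norm_nonneg _) ?_ (B ^ k) ?_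
    (fun j => ‖A j‖))
  · intro j j'
    exact prod_congr rfl fun i _ => f3_conj_symm _ _ _
  · intro j hj
    rw [hP, Fintype.mem_piFinset] at hj
    calc ∑ j' ∈ P, K j j' = ∏ i, ∑ x ∈ J i,
          ‖∑ h ∈ Ico (b i) (b i + H), e ((h : ℝ) * (θ i (j i) - θ i x))‖ := by
          rw [prod_univ_sum]
      _ ≤ ∏ _i : Fin k, B := prod_le_prod (fun i _ => sum_nonneg fun _ _ => norm_nonneg _)
          (fun i _ => hB i (j i) (hj i))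
      _ = B ^ k := by rw [prod_const, card_univ, Fintype.card_fin]

end Pool.Agent.Lib.H59P
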