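import Pool.Agent.Lib.H59P.FDefs

/-!
# Project H59P, chunk F4: the second moment over the frequencies
-/

open Finset

namespace Pool.Agent.Lib.H59P

open Pool.Agent.Lib.H68T Pool.Agent.Lib.H18Q

theorem f4_conj (x : ℝ) : (starRingEnd ℂ) (e x) = e (-x) := by
  unfold e
  rw [← Complex.exp_conj]
  congr 1
  simp only [map_mul, Complex.conj_I, Complex.conj_ofReal, map_ofNat]
  push_cast
  ring

/-- the number of points of an interval in a residue class -/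
theorem f4_count (a H L n : ℕ) (hL : 0 < L) :
    (((Ico a (a + H)).filter fun n' : ℕ => (L : ℤ) ∣ (n' : ℤ) - n).card : ℝ) ≤ (H : ℝ) / L + 1 := by
  have h1 : (Ico a (a + H)).filter (fun n' : ℕ => (L : ℤ) ∣ (n' : ℤ) - n) =
      (Ico a (a + H)).filter (fun n' : ℕ => n' ≡ n [MOD L]) := by
    refine filter_congr fun n' _ => ?_
    rw [Nat.ModEq.comm, Nat.modEq_iff_dvd]
  rw [h1]
  have hLq : (0 : ℚ) < L := by exact_mod_cast hL
  have h2 := Nat.Ico_filter_modEq_card a (a + H) hL n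
  have h3 : ((((Ico a (a + H)).filter (fun n' : ℕ => n' ≡ n [MOD L])).card : ℤ) : ℚ) ≤ (H : ℚ) / L + 1 := by
    rw [h2]
    rw [Int.cast_max]
    apply max_le
    · have h4 := Int.ceil_lt_add_one ((((a + H : ℕ) : ℚ) - (n : ℚ)) / (L : ℚ))
      have h5 := Int.le_ceil (((a : ℚ) - (n : ℚ)) / (L : ℚ))
      have h6 : (((a + H : ℕ) : ℚ) - (n : ℚ)) / (L : ℚ) - ((a : ℚ) - (n : ℚ)) / (L : ℚ) = (H : ℚ) / L := by
        push_cast
        ring
      push_cast at h4 h6 ⊢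
      linarith
    · push_cast
      positivity
  have h5 : ((((Ico a (a + H)).filter (fun n' : ℕ => n' ≡ n [MOD L])).card : ℚ) : ℝ) ≤ (((H : ℚ) / L + 1 : ℚ) : ℝ) := by
    exact_mod_cast h3
  push_cast at h5
  exact h5

/-- **F4.** Proof. Expand the square: `∑_{n,n'} ∏_i ∑_{x_i < q_i} e((n - n') x_i/q_i)`, and the inner sum is `q_i`
if `q_i ∣ n - n'` and `0` else (`CQ1_geom`). So the left side is `∏ q_i` times the number of pairs `(n, n')` with
`lcm q_i ∣ n - n'`; for each `n` there are at most `H/lcm + 1` such `n'` in the interval. -/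
theorem F4 {k : ℕ} (q : Fin k → ℕ) (hq : ∀ i, 1 ≤ q i) (a H : ℕ) :
    ∑ x ∈ Fintype.piFinset (fun i => range (q i)),
      ‖∑ n ∈ Ico a (a + H), ∏ i, e ((n : ℝ) * ((x i : ℝ) / (q i : ℝ)))‖ ^ 2 ≤
      (∏ i, (q i : ℝ)) * (H * ((H : ℝ) / (univ.lcm q : ℕ) + 1)) := by
  have hL : 0 < univ.lcm q := by
    rw [Nat.pos_iff_ne_zero, Ne, Finset.lcm_eq_zero_iff]
    rintro ⟨i, -, hi⟩
    have := hq i
    omega
  have hdvd : ∀ m : ℤ, (∀ i, (q i : ℤ) ∣ m) ↔ ((univ.lcm q : ℕ) : ℤ) ∣ m := by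
    intro m
    rw [Int.natCast_dvd, Finset.lcm_dvd_iff]
    simp only [Int.natCast_dvd, mem_univ, true_implies]
  have h1 : ∀ x : Fin k → ℕ, ((‖∑ n ∈ Ico a (a + H), ∏ i, e ((n : ℝ) * ((x i : ℝ) / (q i : ℝ)))‖ ^ 2 : ℝ) : ℂ) =
      ∑ n ∈ Ico a (a + H), ∑ n' ∈ Ico a (a + H), ∏ i, e ((x i : ℝ) * ((((n' : ℤ) - n : ℤ) : ℝ) / (q i : ℝ))) := by
    intro x
    rw [Complex.ofReal_pow, ← Complex.conj_mul', map_sum, sum_mul_sum]
    refine sum_congr rfl fun n _ => sum_congr rfl fun n' _ => ?_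
    rw [map_prod, ← prod_mul_distrib]
    refine prod_congr rfl fun i _ => ?_
    rw [f4_conj, ← CQ1_e_add]
    congr 1
    push_cast
    ring
  have h2 : ((∑ x ∈ Fintype.piFinset (fun i => range (q i)),
      ‖∑ n ∈ Ico a (a + H), ∏ i, e ((n : ℝ) * ((x i : ℝ) / (q i : ℝ)))‖ ^ 2 : ℝ) : ℂ) =
      ∑ n ∈ Ico a (a + H), ∑ n' ∈ Ico a (a + H),
        if ((univ.lcm q : ℕ) : ℤ) ∣ (n' : ℤ) - n then ((∏ i, (q i : ℝ) : ℝ) : ℂ) else 0 := by
    rw [Complex.ofReal_sum]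
    simp_rw [h1]
    rw [sum_comm]
    refine sum_congr rfl fun n _ => ?_
    rw [sum_comm]
    refine sum_congr rfl fun n' _ => ?_
    rw [← prod_univ_sum (fun i => range (q i))
      (fun i b => e ((b : ℝ) * ((((n' : ℤ) - n : ℤ) : ℝ) / (q i : ℝ))))]
    have h3 : ∀ i, ∑ b ∈ range (q i), e ((b : ℝ) * ((((n' : ℤ) - n : ℤ) : ℝ) / (q i : ℝ))) =
        if (q i : ℤ) ∣ (n' : ℤ) - n then (q i : ℂ) else 0 := fun i => CQ1_geom (q i) (hq i) _
    simp_rw [h3]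
    rw [prod_ite_zero]
    simp only [mem_univ, true_implies, hdvd]
    push_cast
    rfl
  have h4 : ∑ x ∈ Fintype.piFinset (fun i => range (q i)),
      ‖∑ n ∈ Ico a (a + H), ∏ i, e ((n : ℝ) * ((x i : ℝ) / (q i : ℝ)))‖ ^ 2 =
      ∑ n ∈ Ico a (a + H), ∑ n' ∈ Ico a (a + H),
        if ((univ.lcm q : ℕ) : ℤ) ∣ (n' : ℤ) - n then (∏ i, (q i : ℝ)) else 0 := by
    apply Complex.ofReal_injective
    rw [h2, Complex.ofReal_sum]
    refine sum_congr rfl fun n _ => ?_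
    rw [Complex.ofReal_sum]
    refine sum_congr rfl fun n' _ => ?_
    split_ifs <;> simp
  rw [h4]
  have hP : 0 ≤ ∏ i, (q i : ℝ) := prod_nonneg fun i _ => Nat.cast_nonneg _
  calc _ ≤ ∑ _n ∈ Ico a (a + H), (∏ i, (q i : ℝ)) * ((H : ℝ) / (univ.lcm q : ℕ) + 1) := by
        refine sum_le_sum fun n _ => ?_
        rw [← sum_filter, sum_const, nsmul_eq_mul, mul_comm]
        exact mul_le_mul_of_nonneg_left (f4_count a H _ n hL) hP
    _ = _ := by
        rw [sum_const, Nat.card_Ico, Nat.add_sub_cancel_left, nsmul_eq_mul]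
        ring

end Pool.Agent.Lib.H59P
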