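import Pool.Agent.Lib.H59P.FDefs
import Pool.Agent.Lib.H68T.CQ2

/-!
# Project H59P, chunk F5: an arithmetic sum
-/

open Finset

namespace Pool.Agent.Lib.H59P

open Pool.Agent.Lib.H68T Pool.Agent.Lib.H18Q

/-- **F5.** Proof. `CQ2_ratio`: `1/φ(q) ≤ (3/2) (1 + log q)/q`, so each term is at most
`(9/4) (1 + log Q)²/κ`, and `∑_{κ ≤ Q} 1/κ ≤ 1 + log Q` (`harmonic_le_one_add_log`). -/
theorem F5 (Q r : ℕ) (hr : 1 ≤ r) (hrQ : r ≤ Q) :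
    ∑ κ ∈ KS Q r, (r : ℝ) / (Nat.totient (r * κ) : ℝ) ^ 2 * (r * κ : ℕ) ≤
      3 * (1 + Real.log Q) ^ 3 := by
  have hQ1 : 1 ≤ Q := hr.trans hrQ
  have hlQ : 0 ≤ Real.log Q := Real.log_natCast_nonneg Q
  have hrr : (0 : ℝ) < r := by exact_mod_cast hr
  have h1 : ∀ κ ∈ KS Q r, (r : ℝ) / (Nat.totient (r * κ) : ℝ) ^ 2 * (r * κ : ℕ) ≤
      9 / 4 * (1 + Real.log Q) ^ 2 * (1 / (κ : ℝ)) := by
    intro κ hκ
    obtain ⟨⟨hk1, hk2⟩, -, -⟩ := CA_mem_KS.1 hκ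
    have hkr : (0 : ℝ) < κ := by exact_mod_cast hk1
    have hq : 0 < r * κ := Nat.mul_pos hr hk1
    have hqQ : r * κ ≤ Q := by
      calc r * κ ≤ r * (Q / r) := Nat.mul_le_mul_left _ hk2
        _ ≤ Q := Nat.mul_div_le _ _
    have hqr : (0 : ℝ) < ((r * κ : ℕ) : ℝ) := by exact_mod_cast hq
    have h2 := CQ2_ratio (r * κ) hq
    have h3 : Real.log ((r * κ : ℕ) : ℝ) ≤ Real.log Q :=
      Real.log_le_log hqr (by exact_mod_cast hqQ)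
    have h4 : (1 : ℝ) / Nat.totient (r * κ) ≤ 3 / 2 * (1 + Real.log Q) / ((r * κ : ℕ) : ℝ) := by
      refine h2.trans ?_
      gcongr
    have h0 : (0 : ℝ) ≤ 1 / Nat.totient (r * κ) := by positivity
    calc (r : ℝ) / (Nat.totient (r * κ) : ℝ) ^ 2 * (r * κ : ℕ)
        = r * (1 / (Nat.totient (r * κ) : ℝ)) ^ 2 * (r * κ : ℕ) := by
          rw [one_div, inv_pow, div_eq_mul_inv]
      _ ≤ r * (3 / 2 * (1 + Real.log Q) / ((r * κ : ℕ) : ℝ)) ^ 2 * (r * κ : ℕ) := by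
          gcongr
      _ = 9 / 4 * (1 + Real.log Q) ^ 2 * (1 / (κ : ℝ)) := by
          push_cast
          field_simp
          ring
  have h5 : ∑ κ ∈ KS Q r, (1 / (κ : ℝ)) ≤ 1 + Real.log Q := by
    have h6 : KS Q r ⊆ Icc 1 Q := by
      intro κ hκ
      obtain ⟨⟨hk1, hk2⟩, -, -⟩ := CA_mem_KS.1 hκ
      rw [mem_Icc]
      exact ⟨hk1, hk2.trans (Nat.div_le_self _ _)⟩
    calc ∑ κ ∈ KS Q r, (1 / (κ : ℝ)) ≤ ∑ κ ∈ Icc 1 Q, (1 / (κ : ℝ)) :=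
          sum_le_sum_of_subset_of_nonneg h6 (fun _ _ _ => by positivity)
      _ = (harmonic Q : ℝ) := by
          rw [harmonic_eq_sum_Icc]
          push_cast
          exact sum_congr rfl fun κ _ => one_div _
      _ ≤ 1 + Real.log Q := harmonic_le_one_add_log Q
  calc _ ≤ ∑ κ ∈ KS Q r, 9 / 4 * (1 + Real.log Q) ^ 2 * (1 / (κ : ℝ)) := sum_le_sum h1
    _ = 9 / 4 * (1 + Real.log Q) ^ 2 * ∑ κ ∈ KS Q r, (1 / (κ : ℝ)) := (mul_sum _ _ _).symm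
    _ ≤ 9 / 4 * (1 + Real.log Q) ^ 2 * (1 + Real.log Q) := by gcongr
    _ ≤ 3 * (1 + Real.log Q) ^ 3 := by
        have : 0 ≤ (1 + Real.log Q) ^ 3 := by positivity
        nlinarith

end Pool.Agent.Lib.H59P
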