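import Pool.Agent.Lib.H59P.F1
import Pool.Agent.Lib.H59P.F2
import Pool.Agent.Lib.H59P.F3
import Pool.Agent.Lib.H59P.F4
import Pool.Agent.Lib.H59P.F5

/-!
# Project H59P, chunk F: conclusion of module F
-/

open Finset

namespace Pool.Agent.Lib.H59P

open Pool.Agent.Lib.H68T Pool.Agent.Lib.H18Q

theorem f_mem_FJ {Q r : ℕ} {j : ℕ × ℕ} :
    j ∈ FJ Q r ↔ (j.1 ∈ KS Q r ∧ j.2 < Q) ∧ j.2 ∈ UR (r * j.1) := by
  classical
  unfold FJ
  rw [mem_filter, mem_product, mem_range]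

theorem f_q_le {Q : ℕ} {p : Ch} (hp : p ∈ PC Q) {κ : ℕ} (hκ : κ ∈ KS Q p.1) :
    1 ≤ p.1 * κ ∧ p.1 * κ ≤ Q := by
  obtain ⟨hr1, hrQ, -⟩ := mem_PC.1 hp
  obtain ⟨⟨hk1, hk2⟩, -, -⟩ := CA_mem_KS.1 hκ
  refine ⟨Nat.one_le_iff_ne_zero.2 (by positivity), ?_⟩
  calc p.1 * κ ≤ p.1 * (Q / p.1) := Nat.mul_le_mul_left _ hk2
    _ ≤ Q := Nat.mul_div_le _ _

theorem f_sum {k Q : ℕ} (p : Fin k → Ch) (hp : ∀ i, p i ∈ PC Q) (T : Finset (Fin k → ℕ))
    (hT : T ⊆ Fintype.piFinset (fun i => KS Q (p i).1)) {M : Type*} [AddCommMonoid M]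
    (f : (Fin k → ℕ × ℕ) → M) :
    ∑ j ∈ Fintype.piFinset (fun i => FJ Q (p i).1),
      (if (fun i => (j i).1) ∈ T then f j else 0) =
    ∑ κ ∈ T, ∑ x ∈ Fintype.piFinset (fun i => UR ((p i).1 * κ i)), f (fun i => (κ i, x i)) := by
  classical
  rw [← sum_filter, sum_sigma']
  refine sum_bij' (fun j _ => (⟨fun i => (j i).1, fun i => (j i).2⟩ : (_ : Fin k → ℕ) × (Fin k → ℕ)))
    (fun s _ => fun i => (s.1 i, s.2 i)) ?_ ?_ ?_ ?_ ?_
  · intro j hj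
    rw [mem_filter, Fintype.mem_piFinset] at hj
    rw [mem_sigma]
    refine ⟨hj.2, ?_⟩
    rw [Fintype.mem_piFinset]
    intro i
    exact (f_mem_FJ.1 (hj.1 i)).2
  · intro s hs
    rw [mem_sigma, Fintype.mem_piFinset] at hs
    rw [mem_filter, Fintype.mem_piFinset]
    refine ⟨fun i => ?_, hs.1⟩
    have h1 := Fintype.mem_piFinset.1 (hT hs.1) i
    have h2 := hs.2 i
    refine f_mem_FJ.2 ⟨⟨h1, ?_⟩, h2⟩
    have h3 : s.2 i < (p i).1 * s.1 i := by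
      unfold UR at h2
      rw [mem_filter, mem_range] at h2
      exact h2.1
    exact lt_of_lt_of_le h3 (f_q_le (hp i) h1).2
  · intro j hj
    rfl
  · intro s hs
    rfl
  · intro j hj
    rfl

/-- the amplitude -/
noncomputable def fA {k : ℕ} (p : Fin k → Ch) (c : Fin k → ℕ → ℕ → ℂ) (a H : ℕ) (j : Fin k → ℕ × ℕ) : ℂ :=
  (∏ i, c i (j i).1 (j i).2) * ∑ n ∈ Ico a (a + H), ∏ i, e ((n : ℝ) * fr (p i).1 (j i))

theorem f_expand {k Q : ℕ} (p : Fin k → Ch) (hp : ∀ i, p i ∈ PC Q) (T : Finset (Fin k → ℕ))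
    (hT : T ⊆ Fintype.piFinset (fun i => KS Q (p i).1)) (c : Fin k → ℕ → ℕ → ℂ)
    (hc : ∀ i, ∀ κ ∈ KS Q (p i).1, ∀ m : ℤ, gk (p i) κ m =
      ∑ x ∈ UR ((p i).1 * κ), c i κ x * e ((m : ℝ) * fr (p i).1 (κ, x))) (a H : ℕ) (h : Fin k → ℕ) :
    ∑ n ∈ Ico a (a + H), ∑ κ ∈ T, ∏ i, gk (p i) (κ i) ((n : ℤ) + h i) =
    ∑ j ∈ Fintype.piFinset (fun i => FJ Q (p i).1),
      (if (fun i => (j i).1) ∈ T then fA p c a H j else 0) * ∏ i, e ((h i : ℝ) * fr (p i).1 (j i)) := by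
  have h1 : ∀ j ∈ Fintype.piFinset (fun i => FJ Q (p i).1),
      (if (fun i => (j i).1) ∈ T then fA p c a H j else 0) * ∏ i, e ((h i : ℝ) * fr (p i).1 (j i)) =
      if (fun i => (j i).1) ∈ T then fA p c a H j * ∏ i, e ((h i : ℝ) * fr (p i).1 (j i)) else 0 := by
    intro j _
    rw [ite_mul, zero_mul]
  rw [sum_congr rfl h1, f_sum p hp T hT (fun j => fA p c a H j * ∏ i, e ((h i : ℝ) * fr (p i).1 (j i))),
    sum_comm]
  refine sum_congr rfl fun κ hκ => ?_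
  have h2 := Fintype.mem_piFinset.1 (hT hκ)
  have h3 : ∀ n ∈ Ico a (a + H), ∏ i, gk (p i) (κ i) ((n : ℤ) + h i) =
      ∑ x ∈ Fintype.piFinset (fun i => UR ((p i).1 * κ i)), (∏ i, c i (κ i) (x i)) *
        (∏ i, e ((n : ℝ) * fr (p i).1 (κ i, x i))) * ∏ i, e ((h i : ℝ) * fr (p i).1 (κ i, x i)) := by
    intro n _
    rw [prod_congr rfl fun i _ => hc i (κ i) (h2 i) ((n : ℤ) + h i), prod_univ_sum]
    refine sum_congr rfl fun x _ => ?_
    rw [← prod_mul_distrib, ← prod_mul_distrib]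
    refine prod_congr rfl fun i _ => ?_
    rw [mul_assoc, ← PV_e_add]
    congr 2
    push_cast
    ring
  rw [sum_congr rfl h3, sum_comm]
  refine sum_congr rfl fun x _ => ?_
  unfold fA
  rw [mul_sum, sum_mul]

theorem f_moment {k Q D : ℕ} (hD1 : 1 ≤ D) (p : Fin k → Ch) (hp : ∀ i, p i ∈ PC Q) (T : Finset (Fin k → ℕ))
    (hT : T ⊆ Fintype.piFinset (fun i => KS Q (p i).1))
    (hTD : ∀ κ ∈ T, D < univ.lcm (fun i => (p i).1 * κ i)) (c : Fin k → ℕ → ℕ → ℂ)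
    (hc : ∀ i, ∀ κ ∈ KS Q (p i).1, ∀ x, ‖c i κ x‖ ^ 2 ≤ ((p i).1 : ℝ) / (Nat.totient ((p i).1 * κ) : ℝ) ^ 2)
    (a H : ℕ) :
    ∑ j ∈ Fintype.piFinset (fun i => FJ Q (p i).1),
      ‖(if (fun i => (j i).1) ∈ T then fA p c a H j else 0)‖ ^ 2 ≤
      (H * ((H : ℝ) / D + 1)) * (3 * (1 + Real.log Q) ^ 3) ^ k := by
  have h1 : ∀ j ∈ Fintype.piFinset (fun i => FJ Q (p i).1),
      ‖(if (fun i => (j i).1) ∈ T then fA p c a H j else 0)‖ ^ 2 =
      if (fun i => (j i).1) ∈ T then ‖fA p c a H j‖ ^ 2 else 0 := by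
    intro j _
    split_ifs <;> simp
  rw [sum_congr rfl h1, f_sum p hp T hT (fun j => ‖fA p c a H j‖ ^ 2)]
  have hDr : (0 : ℝ) < D := by exact_mod_cast hD1
  have h2 : ∀ κ ∈ T, ∑ x ∈ Fintype.piFinset (fun i => UR ((p i).1 * κ i)),
      ‖fA p c a H (fun i => (κ i, x i))‖ ^ 2 ≤
      (H * ((H : ℝ) / D + 1)) * ∏ i, (((p i).1 : ℝ) / (Nat.totient ((p i).1 * κ i) : ℝ) ^ 2 *
        ((p i).1 * κ i : ℕ)) := by
    intro κ hκ
    have hk := Fintype.mem_piFinset.1 (hT hκ)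
    have h3 : ∀ x ∈ Fintype.piFinset (fun i => UR ((p i).1 * κ i)),
        ‖fA p c a H (fun i => (κ i, x i))‖ ^ 2 ≤
        (∏ i, (((p i).1 : ℝ) / (Nat.totient ((p i).1 * κ i) : ℝ) ^ 2)) *
          ‖∑ n ∈ Ico a (a + H), ∏ i, e ((n : ℝ) * ((x i : ℝ) / (((p i).1 * κ i : ℕ) : ℝ)))‖ ^ 2 := by
      intro x _
      unfold fA
      rw [norm_mul, mul_pow]
      refine mul_le_mul_of_nonneg_right ?_ (by positivity)
      rw [norm_prod, ← prod_pow]
      exact prod_le_prod (fun i _ => by positivity) (fun i _ => hc i (κ i) (hk i) (x i))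
    have h4 := F4 (fun i => (p i).1 * κ i) (fun i => (f_q_le (hp i) (hk i)).1) a H
    have hL : (D : ℝ) ≤ ((univ.lcm (fun i => (p i).1 * κ i) : ℕ) : ℝ) := by
      exact_mod_cast (hTD κ hκ).le
    calc ∑ x ∈ Fintype.piFinset (fun i => UR ((p i).1 * κ i)), ‖fA p c a H (fun i => (κ i, x i))‖ ^ 2
        ≤ ∑ x ∈ Fintype.piFinset (fun i => UR ((p i).1 * κ i)),
          (∏ i, (((p i).1 : ℝ) / (Nat.totient ((p i).1 * κ i) : ℝ) ^ 2)) *
          ‖∑ n ∈ Ico a (a + H), ∏ i, e ((n : ℝ) * ((x i : ℝ) / (((p i).1 * κ i : ℕ) : ℝ)))‖ ^ 2 :=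
          sum_le_sum h3
      _ ≤ ∑ x ∈ Fintype.piFinset (fun i => range ((p i).1 * κ i)),
          (∏ i, (((p i).1 : ℝ) / (Nat.totient ((p i).1 * κ i) : ℝ) ^ 2)) *
          ‖∑ n ∈ Ico a (a + H), ∏ i, e ((n : ℝ) * ((x i : ℝ) / (((p i).1 * κ i : ℕ) : ℝ)))‖ ^ 2 := by
          refine sum_le_sum_of_subset_of_nonneg ?_ (fun _ _ _ => by positivity)
          exact Fintype.piFinset_subset _ _ (fun i => filter_subset _ _)
      _ = (∏ i, (((p i).1 : ℝ) / (Nat.totient ((p i).1 * κ i) : ℝ) ^ 2)) *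
          ∑ x ∈ Fintype.piFinset (fun i => range ((p i).1 * κ i)),
          ‖∑ n ∈ Ico a (a + H), ∏ i, e ((n : ℝ) * ((x i : ℝ) / (((p i).1 * κ i : ℕ) : ℝ)))‖ ^ 2 :=
          (mul_sum _ _ _).symm
      _ ≤ (∏ i, (((p i).1 : ℝ) / (Nat.totient ((p i).1 * κ i) : ℝ) ^ 2)) *
          ((∏ i, (((p i).1 * κ i : ℕ) : ℝ)) * (H * ((H : ℝ) / D + 1))) := by
          refine mul_le_mul_of_nonneg_left (h4.trans ?_) (prod_nonneg fun i _ => by positivity)
          refine mul_le_mul_of_nonneg_left ?_ (prod_nonneg fun i _ => by positivity)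
          refine mul_le_mul_of_nonneg_left ?_ (by positivity)
          gcongr
      _ = _ := by
          rw [prod_mul_distrib]
          ring
  refine (sum_le_sum h2).trans ?_
  rw [← mul_sum]
  refine mul_le_mul_of_nonneg_left ?_ (by positivity)
  calc ∑ κ ∈ T, ∏ i, (((p i).1 : ℝ) / (Nat.totient ((p i).1 * κ i) : ℝ) ^ 2 * ((p i).1 * κ i : ℕ))
      ≤ ∑ κ ∈ Fintype.piFinset (fun i => KS Q (p i).1),
        ∏ i, (((p i).1 : ℝ) / (Nat.totient ((p i).1 * κ i) : ℝ) ^ 2 * ((p i).1 * κ i : ℕ)) :=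
        sum_le_sum_of_subset_of_nonneg hT (fun _ _ _ => prod_nonneg fun i _ => by positivity)
    _ = ∏ i, ∑ κ ∈ KS Q (p i).1, (((p i).1 : ℝ) / (Nat.totient ((p i).1 * κ) : ℝ) ^ 2 *
        ((p i).1 * κ : ℕ)) := by
        rw [prod_univ_sum]
    _ ≤ ∏ _i : Fin k, (3 * (1 + Real.log Q) ^ 3) := by
        refine prod_le_prod (fun i _ => sum_nonneg fun κ _ => by positivity) (fun i _ => ?_)
        obtain ⟨hr1, hrQ, -⟩ := mem_PC.1 (hp i)
        exact F5 Q (p i).1 hr1 hrQ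
    _ = _ := by rw [prod_const, card_univ, Fintype.card_fin]

/-- **F_main.** -/
theorem F_main : FMain := by
  refine ⟨4, 5, by norm_num, by norm_num, ?_⟩
  intro k Q X H D hreg hQH hHX hD1 hDQ p hp a b T hT hTD
  have hlX := hreg.logX_ge (by norm_num)
  have hlX1 := hreg.logX_ge_one (by norm_num)
  have hQ5 := hreg.Q_ge (by norm_num)
  have hQ1 : 1 ≤ Q := by
    have : (1 : ℝ) ≤ Q := by linarith
    exact_mod_cast this
  have hH1 : 1 ≤ H := le_trans (Nat.one_le_pow _ _ hQ1) hQH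
  have hDH : D ≤ H := hDQ.trans ((Nat.le_self_pow (by norm_num) Q).trans hQH)
  have hDr : (1 : ℝ) ≤ D := by exact_mod_cast hD1
  have hHr : (1 : ℝ) ≤ H := by exact_mod_cast hH1
  have hDHr : (D : ℝ) ≤ H := by exact_mod_cast hDH
  -- the case k = 0
  rcases Nat.eq_zero_or_pos k with hk | hk
  · subst hk
    have hTe : T = ∅ := by
      rw [eq_empty_iff_forall_notMem]
      intro κ hκ
      have h1 := hTD κ hκ
      rw [univ_eq_empty, lcm_empty] at h1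
      omega
    rw [hTe]
    have : ∑ h ∈ cube b H, ‖∑ n ∈ Ico a (a + H), ∑ κ ∈ (∅ : Finset (Fin 0 → ℕ)),
        ∏ i, gk (p i) (κ i) ((n : ℤ) + h i)‖ ^ 2 = 0 := by
      simp
    rw [this]
    positivity
  choose c hc using fun i => F1 Q (p i) (hp i)
  have h1 : ∀ h ∈ cube b H, ‖∑ n ∈ Ico a (a + H), ∑ κ ∈ T, ∏ i, gk (p i) (κ i) ((n : ℤ) + h i)‖ ^ 2 =
      ‖∑ j ∈ Fintype.piFinset (fun i => FJ Q (p i).1),
      (if (fun i => (j i).1) ∈ T then fA p c a H j else 0) * ∏ i, e ((h i : ℝ) * fr (p i).1 (j i))‖ ^ 2 := by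
    intro h _
    rw [f_expand p hp T hT c (fun i κ hκ => (hc i κ hκ).2) a H h]
  rw [sum_congr rfl h1]
  have h2 := F3 (fun i => FJ Q (p i).1) (fun i => fr (p i).1) b H (2 * H) (by positivity)
    (fun i j hj => F2 Q (p i).1 H (b i) (mem_PC.1 (hp i)).1 (mem_PC.1 (hp i)).2.1 hQH j hj)
    (fun j => if (fun i => (j i).1) ∈ T then fA p c a H j else 0)
  have h3 := f_moment hD1 p hp T hT hTD c (fun i κ hκ => (hc i κ hκ).1) a H
  refine h2.trans ((mul_le_mul_of_nonneg_left h3 (by positivity)).trans ?_)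
  -- numerical part
  have hlQ0 : 0 ≤ Real.log Q := Real.log_natCast_nonneg Q
  have hlQ : Real.log Q ≤ Real.log X := by
    have := hreg.2.2
    linarith
  have hexp : (96 : ℝ) ≤ Real.log X := by
    refine le_trans ?_ hlX
    have h5 : (2.7182818283 : ℝ) < Real.exp 1 := Real.exp_one_gt_d9
    have h6 : Real.exp 5 = Real.exp 1 ^ 5 := by
      rw [← Real.exp_nat_mul]
      norm_num
    rw [h6]
    calc (96 : ℝ) ≤ 2.7 ^ 5 := by norm_num
      _ ≤ Real.exp 1 ^ 5 := by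
        apply pow_le_pow_left₀ (by norm_num)
        linarith
  have hbase : 2 * (2 * (3 * (1 + Real.log Q) ^ 3)) ≤ Real.log X ^ 4 := by
    have h7 : 1 + Real.log Q ≤ 2 * Real.log X := by linarith
    have h8 : (1 + Real.log Q) ^ 3 ≤ (2 * Real.log X) ^ 3 := pow_le_pow_left₀ (by positivity) h7 3
    calc 2 * (2 * (3 * (1 + Real.log Q) ^ 3)) ≤ 2 * (2 * (3 * (2 * Real.log X) ^ 3)) := by
          gcongr
      _ = 96 * Real.log X ^ 3 := by ring
      _ ≤ Real.log X * Real.log X ^ 3 := by gcongr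
      _ = _ := by ring
  have hrp : (Real.log X) ^ ((4 : ℝ) * k) = (Real.log X ^ 4) ^ k := by
    rw [Real.rpow_mul (by linarith), Real.rpow_natCast]
    norm_num
  rw [hrp]
  have hDhalf : (D : ℝ) ^ (-(1 / 2) : ℝ) = 1 / Real.sqrt D := by
    rw [Real.rpow_neg (by positivity), Real.sqrt_eq_rpow]
    exact (one_div _).symm
  rw [hDhalf]
  have hsq1 : 1 ≤ Real.sqrt D := Real.one_le_sqrt.2 hDr
  have hsq2 : Real.sqrt D * Real.sqrt D = D := Real.mul_self_sqrt (by positivity)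
  have hsqD : Real.sqrt D ≤ D := by nlinarith
  have hmain : (H : ℝ) * ((H : ℝ) / D + 1) ≤ 2 * ((H : ℝ) ^ 2 * (1 / Real.sqrt D)) := by
    have e1 : (H : ℝ) / D ≤ H * (1 / Real.sqrt D) := by
      rw [div_eq_mul_one_div]
      gcongr
    have e2 : 1 ≤ (H : ℝ) * (1 / Real.sqrt D) := by
      rw [mul_one_div, le_div_iff₀ (by linarith), one_mul]
      exact hsqD.trans hDHr
    calc (H : ℝ) * ((H : ℝ) / D + 1) ≤ H * (H * (1 / Real.sqrt D) + H * (1 / Real.sqrt D)) := by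
          gcongr
      _ = _ := by ring
  have h2k : (2 : ℝ) ≤ 2 ^ k := by
    calc (2 : ℝ) = 2 ^ 1 := by norm_num
      _ ≤ 2 ^ k := pow_le_pow_right₀ (by norm_num) hk
  have hs0 : 0 ≤ 1 / Real.sqrt D := by positivity
  calc (2 * (H : ℝ)) ^ k * (H * ((H : ℝ) / D + 1) * (3 * (1 + Real.log Q) ^ 3) ^ k)
      ≤ (2 * (H : ℝ)) ^ k * ((2 ^ k * ((H : ℝ) ^ 2 * (1 / Real.sqrt D))) * (3 * (1 + Real.log Q) ^ 3) ^ k) := by
        refine mul_le_mul_of_nonneg_left (mul_le_mul_of_nonneg_right (hmain.trans ?_) (by positivity))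
          (by positivity)
        exact mul_le_mul_of_nonneg_right h2k (by positivity)
    _ = (2 * (2 * (3 * (1 + Real.log Q) ^ 3))) ^ k * (H : ℝ) ^ (k + 2) * (1 / Real.sqrt D) := by
        generalize 3 * (1 + Real.log Q) ^ 3 = B
        generalize 1 / Real.sqrt D = s
        rw [mul_pow, mul_pow, mul_pow, pow_add]
        ring
    _ ≤ (Real.log X ^ 4) ^ k * (H : ℝ) ^ (k + 2) * (1 / Real.sqrt D) := by
        gcongr

end Pool.Agent.Lib.H59P
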