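import Pool.Agent.Lib.H59P.FDefs

/-!
# Project H59P, chunk F1b: the Chinese remainder theorem for frequencies
-/

open Finset

namespace Pool.Agent.Lib.H59P

open Pool.Agent.Lib.H68T Pool.Agent.Lib.H18Q

/-- an inverse modulo `n`, also for `n = 1` -/
theorem f1b_inv (a n : ℕ) (h : Nat.Coprime a n) : ∃ a' : ℕ, a * a' ≡ 1 [MOD n] ∧ Nat.Coprime a' n := by
  rcases Nat.eq_zero_or_pos n with h0 | h0
  · subst h0
    rw [Nat.coprime_zero_right] at h
    exact ⟨1, by rw [h], by simp⟩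
  · obtain ⟨x, -, hx⟩ := Nat.exists_mul_mod_eq_of_coprime 1 h h0.ne'
    have hx' : a * x ≡ 1 [MOD n] := hx
    refine ⟨x, hx', ?_⟩
    have h1 := hx'.gcd_eq
    rw [Nat.gcd_one_left] at h1
    exact Nat.Coprime.coprime_mul_left (k := a) h1

theorem f1b_e_per (m : ℤ) (N : ℕ) (hN : 1 ≤ N) (x y : ℕ) (h : x ≡ y [MOD N]) :
    e ((m : ℝ) * ((x : ℝ) / (N : ℝ))) = e ((m : ℝ) * ((y : ℝ) / (N : ℝ))) := by
  have hN0 : (N : ℝ) ≠ 0 := by
    have : (1 : ℝ) ≤ N := by exact_mod_cast hN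
    linarith
  obtain ⟨t, ht⟩ := (Nat.modEq_iff_dvd).1 h
  have h1 : (y : ℝ) = x + N * t := by
    have h2 : (y : ℤ) = x + N * t := by linarith
    exact_mod_cast h2
  have h3 : (m : ℝ) * ((y : ℝ) / (N : ℝ)) = (m : ℝ) * ((x : ℝ) / (N : ℝ)) + ((m * t : ℤ) : ℝ) := by
    rw [h1]
    push_cast
    field_simp
  rw [h3, CQ1_e_add, CQ1_e_int, mul_one]

/-- **F1b.** Proof. The map `(y, z) ↦ (y κ + z r) mod r κ` is a bijection from `UR r × UR κ` onto `UR (r κ)`
(injective: modulo `r` it is `y κ`, modulo `κ` it is `z r`; coprime to `r κ`; the cardinalities `φ(r) φ(κ) = φ(r κ)`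
agree, or the inverse). `e(m (y κ + z r)/(r κ)) = e(m y/r) e(m z/κ)`, and multiples of `r κ` do not change
`e(m x/(r κ))`, `m` an integer. So `c x = d (y x)` where `y x` is the `y` of `x` (any choice, for example
`y x = the y ∈ UR r with y κ ≡ x mod r`). -/
theorem F1b (r κ : ℕ) (hr : 1 ≤ r) (hκ : 1 ≤ κ) (hc : Nat.Coprime κ r) (d : ℕ → ℂ) : ∃ c : ℕ → ℂ,
    (∀ x, ∃ y, c x = d y) ∧ ∀ m : ℤ,
      (∑ y ∈ UR r, d y * e ((m : ℝ) * ((y : ℝ) / r))) * (∑ z ∈ UR κ, e ((m : ℝ) * ((z : ℝ) / κ))) =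
      ∑ x ∈ UR (r * κ), c x * e ((m : ℝ) * fr r (κ, x)) := by
  obtain ⟨κ', hκ', hκc⟩ := f1b_inv κ r hc
  obtain ⟨r', hr', hrc⟩ := f1b_inv r κ hc.symm
  have hr0 : (r : ℝ) ≠ 0 := by
    have : (1 : ℝ) ≤ r := by exact_mod_cast hr
    linarith
  have hκ0 : (κ : ℝ) ≠ 0 := by
    have : (1 : ℝ) ≤ κ := by exact_mod_cast hκ
    linarith
  have hN : 1 ≤ r * κ := Nat.one_le_iff_ne_zero.2 (Nat.mul_ne_zero (by omega) (by omega))
  refine ⟨fun x => d (x * κ' % r), fun x => ⟨_, rfl⟩, fun m => ?_⟩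
  rw [sum_mul_sum, ← sum_product']
  -- congruences
  have c1 : ∀ y z : ℕ, (y * κ + z * r) % (r * κ) * κ' ≡ y [MOD r] := by
    intro y z
    have h1 : (y * κ + z * r) % (r * κ) ≡ y * κ + z * r [MOD r] :=
      (Nat.mod_modEq _ _).of_dvd (dvd_mul_right r κ)
    have h2 : y * κ + z * r ≡ y * κ [MOD r] := by
      have : y * κ + z * r ≡ y * κ + 0 [MOD r] :=
        Nat.ModEq.add_left _ ((Nat.modEq_zero_iff_dvd).2 (dvd_mul_left r z))
      simp only [add_zero, zero_add] at this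
      exact this
    have h3 : y * κ * κ' ≡ y * 1 [MOD r] := by
      rw [mul_assoc]
      exact Nat.ModEq.mul_left y hκ'
    rw [mul_one] at h3
    exact ((h1.trans h2).mul_right κ').trans h3
  have c2 : ∀ y z : ℕ, (y * κ + z * r) % (r * κ) * r' ≡ z [MOD κ] := by
    intro y z
    have h1 : (y * κ + z * r) % (r * κ) ≡ y * κ + z * r [MOD κ] :=
      (Nat.mod_modEq _ _).of_dvd (dvd_mul_left κ r)
    have h2 : y * κ + z * r ≡ z * r [MOD κ] := by
      have : y * κ + z * r ≡ 0 + z * r [MOD κ] :=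
        Nat.ModEq.add_right _ ((Nat.modEq_zero_iff_dvd).2 (dvd_mul_left κ y))
      simp only [add_zero, zero_add] at this
      exact this
    have h3 : z * r * r' ≡ z * 1 [MOD κ] := by
      rw [mul_assoc]
      exact Nat.ModEq.mul_left z hr'
    rw [mul_one] at h3
    exact ((h1.trans h2).mul_right r').trans h3
  have c3 : ∀ x : ℕ, (x * κ' % r * κ + x * r' % κ * r) % (r * κ) ≡ x [MOD r * κ] := by
    intro x
    refine (Nat.mod_modEq _ _).trans ?_
    rw [← Nat.modEq_and_modEq_iff_modEq_mul hc.symm]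
    constructor
    · have h1 : x * κ' % r * κ + x * r' % κ * r ≡ x * κ' * κ + 0 [MOD r] :=
        ((Nat.mod_modEq _ _).mul_right κ).add ((Nat.modEq_zero_iff_dvd).2 (dvd_mul_left r _))
      refine h1.trans ?_
      rw [add_zero, mul_assoc, mul_comm κ' κ]
      have h2 := Nat.ModEq.mul_left x hκ'
      rwa [mul_one] at h2
    · have h1 : x * κ' % r * κ + x * r' % κ * r ≡ 0 + x * r' * r [MOD κ] :=
        ((Nat.modEq_zero_iff_dvd).2 (dvd_mul_left κ _)).add ((Nat.mod_modEq _ _).mul_right r)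
      refine h1.trans ?_
      rw [zero_add, mul_assoc, mul_comm r' r]
      have h2 := Nat.ModEq.mul_left x hr'
      rwa [mul_one] at h2
  refine sum_nbij' (fun p => (p.1 * κ + p.2 * r) % (r * κ)) (fun x => (x * κ' % r, x * r' % κ)) ?_ ?_ ?_ ?_ ?_
  · rintro ⟨y, z⟩ hp
    rw [mem_product] at hp
    unfold UR at hp ⊢
    simp only [mem_filter, mem_range] at hp ⊢
    refine ⟨Nat.mod_lt _ hN, ?_⟩
    have h1 : Nat.Coprime (y * κ + z * r) r := by
      have h2 : y * κ + z * r ≡ y * κ + 0 [MOD r] :=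
        Nat.ModEq.add_left _ ((Nat.modEq_zero_iff_dvd).2 (dvd_mul_left r z))
      have h3 := h2.gcd_eq
      rw [add_zero] at h3
      have h4 : Nat.Coprime (y * κ) r := Nat.Coprime.mul_left hp.1.2 hc
      exact h3.trans h4
    have h5 : Nat.Coprime (y * κ + z * r) κ := by
      have h2 : y * κ + z * r ≡ 0 + z * r [MOD κ] :=
        Nat.ModEq.add_right _ ((Nat.modEq_zero_iff_dvd).2 (dvd_mul_left κ y))
      have h3 := h2.gcd_eq
      rw [zero_add] at h3
      have h4 : Nat.Coprime (z * r) κ := Nat.Coprime.mul_left hp.2.2 hc.symm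
      exact h3.trans h4
    have h6 : Nat.Coprime (y * κ + z * r) (r * κ) := Nat.Coprime.mul_right h1 h5
    exact (Nat.mod_modEq (y * κ + z * r) (r * κ)).gcd_eq.trans h6
  · intro x hx
    rw [mem_product]
    unfold UR at hx ⊢
    simp only [mem_filter, mem_range] at hx ⊢
    have h1 : Nat.Coprime x r := Nat.Coprime.coprime_mul_right_right hx.2
    have h2 : Nat.Coprime x κ := Nat.Coprime.coprime_mul_left_right hx.2
    have h3 : Nat.Coprime (x * κ') r := Nat.Coprime.mul_left h1 hκc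
    have h4 : Nat.Coprime (x * r') κ := Nat.Coprime.mul_left h2 hrc
    exact ⟨⟨Nat.mod_lt _ hr, (Nat.mod_modEq (x * κ') r).gcd_eq.trans h3⟩,
      ⟨Nat.mod_lt _ hκ, (Nat.mod_modEq (x * r') κ).gcd_eq.trans h4⟩⟩
  · rintro ⟨y, z⟩ hp
    rw [mem_product] at hp
    unfold UR at hp
    simp only [mem_filter, mem_range] at hp
    have h1 := c1 y z
    have h2 := c2 y z
    unfold Nat.ModEq at h1 h2
    rw [Nat.mod_eq_of_lt hp.1.1] at h1
    rw [Nat.mod_eq_of_lt hp.2.1] at h2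
    exact Prod.ext h1 h2
  · intro x hx
    unfold UR at hx
    simp only [mem_filter, mem_range] at hx
    have h1 := c3 x
    unfold Nat.ModEq at h1
    rw [Nat.mod_mod, Nat.mod_eq_of_lt hx.1] at h1
    exact h1
  · rintro ⟨y, z⟩ hp
    rw [mem_product] at hp
    unfold UR at hp
    simp only [mem_filter, mem_range] at hp
    have h1 := c1 y z
    unfold Nat.ModEq at h1
    rw [Nat.mod_eq_of_lt hp.1.1] at h1
    simp only
    rw [h1, mul_assoc, ← CQ1_e_add]
    congr 1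
    unfold fr
    have h2 := f1b_e_per m (r * κ) hN _ _ (Nat.mod_modEq (y * κ + z * r) (r * κ))
    simp only
    rw [h2]
    congr 1
    push_cast
    field_simp

end Pool.Agent.Lib.H59P
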