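import Pool.Agent.Lib.H59P.F1A
import Pool.Agent.Lib.H59P.F1B

/-!
# Project H59P, chunk F1: Fourier expansion of a component
-/

open Finset

namespace Pool.Agent.Lib.H59P

open Pool.Agent.Lib.H68T Pool.Agent.Lib.H18Q

/-- **F1.** Proof. `gk p κ m = (r/φ(r)) conj χ(m) (μ(κ)/φ(κ)) c_κ(m)`; `F1a`, `cq_eq_sum` (`H68T/CQ1.lean`),
`F1b`; the coefficient is `(r/φ(r)) (μ(κ)/φ(κ)) d y`, of absolute value at most
`(r/φ(r)) (1/φ(κ)) r^(-1/2) = √r/φ(r κ)`. -/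
theorem F1 (Q : ℕ) (p : Ch) (hp : p ∈ PC Q) : ∃ c : ℕ → ℕ → ℂ, ∀ κ ∈ KS Q p.1,
    (∀ x, ‖c κ x‖ ^ 2 ≤ (p.1 : ℝ) / (Nat.totient (p.1 * κ) : ℝ) ^ 2) ∧
    ∀ m : ℤ, gk p κ m = ∑ x ∈ UR (p.1 * κ), c κ x * e ((m : ℝ) * fr p.1 (κ, x)) := by
  rw [mem_PC] at hp
  obtain ⟨r, χ⟩ := p
  obtain ⟨hr, -, hχ⟩ := hp
  simp only at hr hχ ⊢
  have : NeZero r := ⟨by omega⟩
  obtain ⟨d, hd, hdm⟩ := F1a r χ hχ
  have hr0 : (0 : ℝ) < r := by exact_mod_cast hr
  have hφr : (0 : ℝ) < Nat.totient r := by exact_mod_cast Nat.totient_pos.2 hr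
  have H : ∀ κ : ℕ, ∃ c : ℕ → ℂ, κ ∈ KS Q r → (∀ x, ‖c x‖ ^ 2 ≤ (r : ℝ) / (Nat.totient (r * κ) : ℝ) ^ 2) ∧
      ∀ m : ℤ, gk ⟨r, χ⟩ κ m = ∑ x ∈ UR (r * κ), c x * e ((m : ℝ) * fr r (κ, x)) := by
    intro κ
    by_cases hκ : κ ∈ KS Q r
    swap
    · exact ⟨fun _ => 0, fun h => absurd h hκ⟩
    have hκ' := hκ
    unfold KS at hκ'
    rw [mem_filter, mem_Icc] at hκ'
    obtain ⟨⟨hκ1, -⟩, -, hcop⟩ := hκ'
    have hφκ : (0 : ℝ) < Nat.totient κ := by exact_mod_cast Nat.totient_pos.2 hκ1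
    obtain ⟨c', hc', hcm⟩ := F1b r κ hr hκ1 hcop d
    refine ⟨fun x => (((r : ℝ) / (Nat.totient r : ℝ) *
      ((ArithmeticFunction.moebius κ : ℝ) / (Nat.totient κ : ℝ)) : ℝ) : ℂ) * c' x, fun _ => ⟨?_, ?_⟩⟩
    · intro x
      obtain ⟨y, hy⟩ := hc' x
      simp only
      rw [hy, norm_mul, mul_pow, Complex.norm_real, Real.norm_eq_abs, sq_abs]
      have hμ : (ArithmeticFunction.moebius κ : ℝ) ^ 2 ≤ 1 := by
        have h1 : |ArithmeticFunction.moebius κ| ≤ 1 := ArithmeticFunction.abs_moebius_le_one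
        have h2 : |(ArithmeticFunction.moebius κ : ℝ)| ≤ 1 := by exact_mod_cast h1
        rw [← sq_abs]
        exact pow_le_one₀ (abs_nonneg _) h2
      have htot : (Nat.totient (r * κ) : ℝ) = Nat.totient r * Nat.totient κ := by
        rw [Nat.totient_mul hcop.symm]
        push_cast
        ring
      rw [htot]
      have e1 : ((r : ℝ) / (Nat.totient r : ℝ) * ((ArithmeticFunction.moebius κ : ℝ) / (Nat.totient κ : ℝ))) ^ 2 *
          ‖d y‖ ^ 2 = (r : ℝ) ^ 2 / ((Nat.totient r : ℝ) * Nat.totient κ) ^ 2 *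
          ((ArithmeticFunction.moebius κ : ℝ) ^ 2 * ‖d y‖ ^ 2) := by
        field_simp
      have e2 : (r : ℝ) / ((Nat.totient r : ℝ) * Nat.totient κ) ^ 2 =
          (r : ℝ) ^ 2 / ((Nat.totient r : ℝ) * Nat.totient κ) ^ 2 * (1 * (1 / (r : ℝ))) := by
        field_simp
      rw [e1, e2]
      refine mul_le_mul_of_nonneg_left ?_ (by positivity)
      exact mul_le_mul hμ (hd y) (sq_nonneg _) zero_le_one
    · intro m
      have h1 : ((cq κ m : ℝ) : ℂ) = ∑ z ∈ UR κ, e ((m : ℝ) * ((z : ℝ) / κ)) := by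
        rw [cq_eq_sum κ hκ1 m]
        unfold UR
        refine sum_congr rfl fun z _ => ?_
        congr 1
        ring
      unfold gk
      simp only
      rw [hdm m]
      push_cast
      rw [h1]
      have h2 := hcm m
      calc _ = ((r : ℂ) / (Nat.totient r : ℂ) * ((ArithmeticFunction.moebius κ : ℂ) / (Nat.totient κ : ℂ))) *
            ((∑ y ∈ UR r, d y * e ((m : ℝ) * ((y : ℝ) / r))) * ∑ z ∈ UR κ, e ((m : ℝ) * ((z : ℝ) / κ))) := by
            ring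
        _ = _ := by
            rw [h2, mul_sum]
            refine sum_congr rfl fun x _ => ?_
            ring
  choose c hc using H
  exact ⟨c, fun κ hκ => hc κ hκ⟩

end Pool.Agent.Lib.H59P
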