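import Pool.Agent.Lib.H59P.ZDefs
import Pool.Agent.Lib.H59P.M4

/-!
# Project H59P, chunk Z1a
-/

open Finset

namespace Pool.Agent.Lib.H59P

open Pool.Agent.Lib.H68T Pool.Agent.Lib.H18Q

/-- **Z1a.** Expansion of the product into tuples of characters and components.

Proof. `SG Q c m = ∑_{p ∈ PC Q} (∑_{κ ∈ KS Q p.1} gk p κ m) c p` (`gam_expand`, `H18Q/CA.lean`),
`Finset.prod_univ_sum` twice. -/
theorem Z1a {k : ℕ} (Q : ℕ) (c : Fin k → Ch → ℂ) (h : Fin k → ℕ) (n : ℤ) :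
    ∏ i, SG Q (c i) (n + h i) =
      ∑ p ∈ Fintype.piFinset fun _ : Fin k => PC Q, (∏ i, c i (p i)) *
        ∑ κ ∈ Fintype.piFinset fun i => KS Q (p i).1, ∏ i, gk (p i) (κ i) (n + h i) := by
  classical
  have h1 : ∀ i : Fin k, SG Q (c i) (n + h i) =
      ∑ p ∈ PC Q, c i p * ∑ κ ∈ KS Q p.1, gk p κ (n + h i) := by
    intro i
    unfold SG
    refine sum_congr rfl fun p hp => ?_
    rw [gam_expand Q p hp, mul_comm]
  rw [prod_congr rfl fun i _ => h1 i, Finset.prod_univ_sum]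
  refine sum_congr rfl fun p _ => ?_
  rw [prod_mul_distrib, Finset.prod_univ_sum]

end Pool.Agent.Lib.H59P
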