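import Pool.Agent.Lib.H59P.Z1D
import Pool.Agent.Lib.H59P.Z1A

/-!
# Project H59P, chunk Z1e
-/

open Finset

namespace Pool.Agent.Lib.H59P

open Pool.Agent.Lib.H68T Pool.Agent.Lib.H18Q

/-- `Q` is large in the regime. -/
theorem z1e_large {K : ℝ} (hK : 1 ≤ K) {Q X : ℕ} (hR : RegP K Q X) : K ≤ Q := by
  obtain ⟨h1, h2, -⟩ := hR
  have h3 : K * 1 ≤ K * Real.log (Real.log X) := mul_le_mul_of_nonneg_left (hK.trans h1) (by linarith)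
  have h4 : Real.log Q ≤ Q := Real.log_le_self (Nat.cast_nonneg Q)
  linarith

/-- **Z1e.** A tuple with large modulus. Proof. All `κ` have `lcm(r_i κ_i) ≥ Rp px p / px.1 > D1 / px.1 ≥ D2`
(`Z1b`, `Z1c`); `FMain` with `T` = everything. -/
theorem Z1e (hF : FMain) : ∃ C K : ℝ, 1 ≤ C ∧ 1 ≤ K ∧ ∀ (k Q X H : ℕ), RegP K Q X → 1 ≤ k → Q ^ 4 ≤ H →
    H ≤ X → ∀ px ∈ PC Q, px.1 ^ 100 ≤ Q → ∀ p : Fin k → Ch, (∀ i, p i ∈ PC Q) →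
    p ∉ TS k Q (Nat.sqrt (Nat.sqrt Q)) px → ∀ (a : ℕ) (b : Fin k → ℕ),
    ∑ h ∈ cube b H, ‖∑ n ∈ Ico a (a + H),
        ∑ κ ∈ Fintype.piFinset fun i => KS Q (p i).1, ∏ i, gk (p i) (κ i) ((n : ℤ) + h i)‖ ^ 2 ≤
      (Real.log X) ^ (C * k) * (H : ℝ) ^ (k + 2) * (Q : ℝ) ^ (-(1 / 12) : ℝ) := by
  obtain ⟨C, K, hC, hK, hF⟩ := hF
  obtain ⟨Q0, h0⟩ := Z1c
  refine ⟨C, max K (Q0 + 1), hC, hK.trans (le_max_left _ _), ?_⟩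
  intro k Q X H hR hk hQH hHX px hpx hpx100 p hp hpTS a b
  have hK1 : 1 ≤ max K ((Q0 : ℝ) + 1) := hK.trans (le_max_left _ _)
  have hR1 : RegP K Q X := hR.mono (by linarith) (le_max_left _ _)
  have hQ1 := z1e_large hK1 hR
  have hQ0 : Q0 ≤ Q := by
    have h1 : ((Q0 : ℝ) + 1) ≤ Q := (le_max_right _ _).trans hQ1
    have h2 : (Q0 : ℝ) ≤ Q := by linarith
    exact_mod_cast h2
  have hQpos : (0 : ℝ) < Q := by linarith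
  have hpx1 : 1 ≤ px.1 := (mem_PC.mp hpx).1
  obtain ⟨c1, c2, c3, c4, c5, c6, -⟩ := h0 Q hQ0 px.1 hpx1 hpx100
  have hRp : Nat.sqrt (Nat.sqrt Q) < Rp px p := by
    by_contra hcon
    refine hpTS ?_
    unfold TS
    rw [mem_filter]
    exact ⟨Fintype.mem_piFinset.mpr hp, not_lt.mp hcon⟩
  have hmain := hF k Q X H ⌊(Q : ℝ) ^ (1 / 5 : ℝ)⌋₊ hR1 hQH hHX c3 c4 p hp a b
    (Fintype.piFinset fun i => KS Q (p i).1) subset_rfl ?_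
  · refine hmain.trans ?_
    have h3 : ((⌊(Q : ℝ) ^ (1 / 5 : ℝ)⌋₊ : ℕ) : ℝ) ^ (-(1 / 2) : ℝ) ≤ (Q : ℝ) ^ (-(1 / 12) : ℝ) := by
      have h4 : ((⌊(Q : ℝ) ^ (1 / 5 : ℝ)⌋₊ : ℕ) : ℝ) ^ (-(1 / 2) : ℝ) ≤ ((Q : ℝ) ^ (1 / 6 : ℝ)) ^ (-(1 / 2) : ℝ) :=
        Real.rpow_le_rpow_of_nonpos (Real.rpow_pos_of_pos hQpos _) c5 (by norm_num)
      refine h4.trans (le_of_eq ?_)
      rw [← Real.rpow_mul hQpos.le]
      norm_num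
    refine mul_le_mul_of_nonneg_left h3 ?_
    exact mul_nonneg (Real.rpow_nonneg (Real.log_natCast_nonneg X) _) (pow_nonneg (Nat.cast_nonneg H) _)
  · intro κ hκ
    have h5 := (Z1b Q 0 px hpx p hp κ (fun i => Fintype.mem_piFinset.mp hκ i)).2
    by_contra hcon
    have h6 : px.1 * univ.lcm (fun i => (p i).1 * κ i) ≤ px.1 * ⌊(Q : ℝ) ^ (1 / 5 : ℝ)⌋₊ :=
      Nat.mul_le_mul_left _ (not_lt.mp hcon)
    omega

end Pool.Agent.Lib.H59P
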