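import Pool.Agent.Lib.H59P.Z2B
import Pool.Agent.Lib.H59P.Z1E

/-!
# Project H59P, chunk Z2
-/

open Finset

namespace Pool.Agent.Lib.H59P

open Pool.Agent.Lib.H68T Pool.Agent.Lib.H18Q

/-- the fibres of `h ↦ h / H` on the box are the cubes -/
theorem z2_fib {k : ℕ} (N H : ℕ) (hH : 0 < H) (t : Fin k → ℕ) (ht : ∀ i, t i < N) :
    (bx k (H * N)).filter (fun h => (fun i => h i / H) = t) = cube (fun i => t i * H) H := by
  classical
  ext h
  unfold bx cube
  rw [mem_filter, Fintype.mem_piFinset, Fintype.mem_piFinset]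
  constructor
  · rintro ⟨_, h2⟩ i
    have h3 : h i / H = t i := congrFun h2 i
    rw [mem_Ico]
    have h4 := Nat.div_mul_le_self (h i) H
    have h5 := Nat.lt_div_mul_add hH (a := h i)
    rw [h3] at h4 h5
    exact ⟨h4, h5⟩
  · intro h1
    have h3 : ∀ i, t i * H ≤ h i ∧ h i < t i * H + H := fun i => mem_Ico.mp (h1 i)
    refine ⟨fun i => ?_, ?_⟩
    · rw [mem_range]
      have h4 : (t i + 1) * H ≤ N * H := Nat.mul_le_mul_right H (ht i)
      calc h i < t i * H + H := (h3 i).2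
        _ = (t i + 1) * H := by ring
        _ ≤ N * H := h4
        _ = H * N := by ring
    · funext i
      have h4 := h3 i
      rw [Nat.div_eq_iff hH]
      constructor
      · exact h4.1
      · have h5 : h i < t i * H + H := h4.2
        omega

/-- sums over a long interval split into cells -/
theorem z2_cells {M : Type*} [AddCommMonoid M] (A H N : ℕ) (f : ℕ → M) :
    ∑ n ∈ Ico A (A + N * H), f n = ∑ j ∈ range N, ∑ n ∈ Ico (A + j * H) (A + j * H + H), f n := by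
  induction N with
  | zero => simp
  | succ N ih =>
    rw [Finset.sum_range_succ, ← ih]
    have h1 : A + (N + 1) * H = A + N * H + H := by ring
    rw [h1]
    exact (Finset.sum_Ico_consecutive f (by omega) (by omega)).symm

theorem z2_bs {H : ℕ} (hH : 0 < H) (c m : ℕ) (h1 : c * H ≤ m) (h2 : m < c * H + H) : bs H m = c * H := by
  unfold bs
  have h3 : m / H = c := by
    rw [Nat.div_eq_iff hH]
    constructor
    · exact h1
    · omega
  rw [h3]

theorem z2_cs (N : ℕ) (z : ℕ → ℂ) : ‖∑ j ∈ range N, z j‖ ^ 2 ≤ N * ∑ j ∈ range N, ‖z j‖ ^ 2 := by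
  have h1 : ‖∑ j ∈ range N, z j‖ ≤ ∑ j ∈ range N, ‖z j‖ := norm_sum_le _ _
  have h2 := sq_sum_le_card_mul_sum_sq (s := range N) (f := fun j => ‖z j‖)
  rw [card_range] at h2
  exact (pow_le_pow_left₀ (norm_nonneg _) h1 2).trans h2

/-- **Z2.** All cells. Proof. `bx k X` is the disjoint union of the `Q^(8k)` cubes of side `H` with base points
multiples of `H` (`X = H Q^8`), `Ico X (2X)` of the `Q^8` intervals `Ico (X+jH) (X+(j+1)H)`, on which `bs H n =
X + jH`; on a cube `bs H (h i) = b i`. For each cube: `‖∑_j (…)‖² ≤ Q^8 ∑_j ‖…‖²`, `Z2b` with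
`c_i = B(X + jH + b_i)` (total size `≤ 3`: `Cf.le`, `Cf.sum`, arguments in `[X, 3X)`). Sum:
`Q^(8k) · Q^8 · Q^8 · H^(k+2) = X^(k+2)`. -/
theorem Z2 (hF : FMain) : ∃ C K : ℝ, 1 ≤ C ∧ 1 ≤ K ∧ ∀ (k Q X H : ℕ), RegP K Q X → 1 ≤ k → Q ^ 4 ≤ H →
    X = H * Q ^ 8 → ∀ px ∈ PC Q, px.1 ^ 100 ≤ Q → ∀ (B : ℤ → Ch → ℂ) (mb : Ch → ℝ), Cf Q X B mb →
    ∑ h ∈ bx k X, ‖Rc Q X H B h - MT Q X H px B h‖ ^ 2 ≤
      (Real.log X) ^ (C * k) * (X : ℝ) ^ (k + 2) * (Q : ℝ) ^ (-(1 / 12) : ℝ) := by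
  classical
  obtain ⟨C, K, hC, hK, hZ⟩ := Z2b hF
  refine ⟨C, K, hC, hK, ?_⟩
  intro k Q X H hReg hk hQH hX px hpx hpx100 B mb hB
  have hKpos : (0 : ℝ) < K := by linarith
  have hQpos : 0 < Q := hReg.Q_pos hK
  have hQ8 : 0 < Q ^ 8 := Nat.pow_pos hQpos
  have hXpos : 0 < X := hReg.X_pos hKpos
  have hHpos : 0 < H := by
    rcases Nat.eq_zero_or_pos H with h0 | h0
    · rw [h0] at hX
      omega
    · exact h0
  have hHX : H ≤ X := by
    rw [hX]
    exact Nat.le_mul_of_pos_right H hQ8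
  set W := (Real.log X) ^ (C * k) * (H : ℝ) ^ (k + 2) * (Q : ℝ) ^ (-(1 / 12) : ℝ) with hW
  -- the errors of the cells
  set Er : (Fin k → ℕ) → ℕ → (Fin k → ℕ) → ℂ := fun t j h =>
    ∑ n ∈ Ico (X + j * H) (X + j * H + H), ∏ i, SG Q (B (((X + j * H + t i * H : ℕ) : ℤ))) ((n : ℤ) + h i)
      - H * MC Q px (fun i => B (((X + j * H + t i * H : ℕ) : ℤ))) h with hEr
  have hcell : ∀ t : Fin k → ℕ, (∀ i, t i < Q ^ 8) → ∀ j < Q ^ 8,
      ∑ h ∈ cube (fun i => t i * H) H, ‖Er t j h‖ ^ 2 ≤ W := by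
    intro t ht j hj
    refine hZ k Q X H hReg hk hQH hHX px hpx hpx100
      (fun i => B (((X + j * H + t i * H : ℕ) : ℤ))) ?_ (X + j * H) (fun i => t i * H)
    intro i
    have h1 : (j + 1) * H ≤ Q ^ 8 * H := Nat.mul_le_mul_right H hj
    have h2 : (t i + 1) * H ≤ Q ^ 8 * H := Nat.mul_le_mul_right H (ht i)
    have h3 : Q ^ 8 * H = X := by rw [hX]; ring
    have h4 : X + j * H + t i * H ≤ 4 * X := by
      rw [h3] at h1 h2
      have h5 : (j + 1) * H = j * H + H := by ring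
      have h6 : (t i + 1) * H = t i * H + H := by ring
      omega
    refine (Finset.sum_le_sum (fun p hp => ?_)).trans hB.sum
    exact hB.le _ (by push_cast; nlinarith [Nat.zero_le (j * H), Nat.zero_le (t i * H)])
      (by exact_mod_cast h4) p hp
  -- on the cube of `t`
  have hdiff : ∀ t : Fin k → ℕ, ∀ h ∈ cube (fun i => t i * H) H,
      Rc Q X H B h - MT Q X H px B h = ∑ j ∈ range (Q ^ 8), Er t j h := by
    intro t h hh
    have hh2 : ∀ i, t i * H ≤ h i ∧ h i < t i * H + H := by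
      intro i
      unfold cube at hh
      rw [Fintype.mem_piFinset] at hh
      exact mem_Ico.mp (hh i)
    have hbs : ∀ i, bs H (h i) = t i * H := fun i => z2_bs hHpos (t i) (h i) (hh2 i).1 (hh2 i).2
    have h1 : Rc Q X H B h = ∑ j ∈ range (Q ^ 8), ∑ n ∈ Ico (X + j * H) (X + j * H + H),
        ∏ i, SG Q (B (((X + j * H + t i * H : ℕ) : ℤ))) ((n : ℤ) + h i) := by
      unfold Rc
      have h2 : 2 * X = X + Q ^ 8 * H := by
        have : Q ^ 8 * H = X := by rw [hX]; ring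
        omega
      rw [h2, z2_cells]
      refine Finset.sum_congr rfl (fun j _ => Finset.sum_congr rfl (fun n hn => ?_))
      rw [mem_Ico] at hn
      have h3 : bs H n = X + j * H := by
        have h4 : X + j * H = (Q ^ 8 + j) * H := by rw [hX]; ring
        rw [h4] at hn ⊢
        exact z2_bs hHpos _ n hn.1 hn.2
      rw [h3]
      refine Finset.prod_congr rfl (fun i _ => ?_)
      rw [hbs i]
    have h5 : MT Q X H px B h = ∑ j ∈ range (Q ^ 8), (H : ℂ) *
        MC Q px (fun i => B (((X + j * H + t i * H : ℕ) : ℤ))) h := by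
      unfold MT
      refine Finset.sum_congr rfl (fun j _ => ?_)
      simp only [hbs]
    rw [h1, h5, ← Finset.sum_sub_distrib]
  -- each cube
  have hcube : ∀ t ∈ Fintype.piFinset (fun _ : Fin k => range (Q ^ 8)),
      ∑ h ∈ cube (fun i => t i * H) H, ‖Rc Q X H B h - MT Q X H px B h‖ ^ 2
        ≤ ((Q : ℝ) ^ 8) ^ 2 * W := by
    intro t ht
    rw [Fintype.mem_piFinset] at ht
    have ht' : ∀ i, t i < Q ^ 8 := fun i => mem_range.mp (ht i)
    calc ∑ h ∈ cube (fun i => t i * H) H, ‖Rc Q X H B h - MT Q X H px B h‖ ^ 2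
        ≤ ∑ h ∈ cube (fun i => t i * H) H, ((Q ^ 8 : ℕ) : ℝ) * ∑ j ∈ range (Q ^ 8), ‖Er t j h‖ ^ 2 := by
          refine Finset.sum_le_sum (fun h hh => ?_)
          rw [hdiff t h hh]
          exact z2_cs _ _
      _ = ((Q ^ 8 : ℕ) : ℝ) * ∑ j ∈ range (Q ^ 8), ∑ h ∈ cube (fun i => t i * H) H, ‖Er t j h‖ ^ 2 := by
          rw [← Finset.mul_sum, Finset.sum_comm]
      _ ≤ ((Q ^ 8 : ℕ) : ℝ) * ∑ j ∈ range (Q ^ 8), W := by
          refine mul_le_mul_of_nonneg_left ?_ (by positivity)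
          exact Finset.sum_le_sum (fun j hj => hcell t ht' j (mem_range.mp hj))
      _ = ((Q : ℝ) ^ 8) ^ 2 * W := by
          rw [Finset.sum_const, card_range, nsmul_eq_mul]
          push_cast
          ring
  have hmaps : ∀ h ∈ bx k X, (fun i => h i / H) ∈ Fintype.piFinset (fun _ : Fin k => range (Q ^ 8)) := by
    intro h hh
    unfold bx at hh
    rw [Fintype.mem_piFinset] at hh ⊢
    intro i
    have h1 : h i < X := mem_range.mp (hh i)
    rw [mem_range]
    rw [Nat.div_lt_iff_lt_mul hHpos]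
    calc h i < X := h1
      _ = Q ^ 8 * H := by rw [hX]; ring
  rw [← Finset.sum_fiberwise_of_maps_to hmaps]
  have hfib : ∀ t ∈ Fintype.piFinset (fun _ : Fin k => range (Q ^ 8)),
      ∑ h ∈ (bx k X).filter (fun h => (fun i => h i / H) = t), ‖Rc Q X H B h - MT Q X H px B h‖ ^ 2
        ≤ ((Q : ℝ) ^ 8) ^ 2 * W := by
    intro t ht
    have ht' : ∀ i, t i < Q ^ 8 := fun i => mem_range.mp ((Fintype.mem_piFinset.mp ht) i)
    have h1 : (bx k X).filter (fun h => (fun i => h i / H) = t) = cube (fun i => t i * H) H := by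
      conv_lhs => rw [hX]
      exact z2_fib (Q ^ 8) H hHpos t ht'
    rw [h1]
    exact hcube t ht
  refine (Finset.sum_le_sum hfib).trans (le_of_eq ?_)
  rw [Finset.sum_const, Fintype.card_piFinset, nsmul_eq_mul]
  simp only [card_range, Finset.prod_const, card_univ, Fintype.card_fin]
  have hXr : (X : ℝ) = H * (Q : ℝ) ^ 8 := by
    rw [hX]
    push_cast
    ring
  rw [hW]
  have h7 : (X : ℝ) ^ (k + 2) = (H : ℝ) ^ (k + 2) * ((Q : ℝ) ^ 8) ^ (k + 2) := by
    rw [hXr, mul_pow]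
  rw [h7]
  push_cast
  ring

end Pool.Agent.Lib.H59P
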