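import Pool.Agent.Lib.H59P.C1
import Pool.Agent.Lib.H59P.C2
import Pool.Agent.Lib.H59P.M5

/-!
# Project H59P, chunk C3a
-/

open Finset

namespace Pool.Agent.Lib.H59P

open Pool.Agent.Lib.H68T Pool.Agent.Lib.H18Q

/-- A real character has real values `-1, 0, 1`. Proof. `ψ ^ 2 = 1`; compare `XDA_real` in `H68X`. -/
theorem C3a (px : Ch) (hreal : px.2 ^ 2 = 1) (m : ℤ) :
    cj px m = ((cj px m).re : ℂ) ∧ |(cj px m).re| ≤ 1 := by
  unfold cj
  by_cases ha : IsUnit (m : ZMod px.1)
  · have h1 : (px.2 (m : ZMod px.1)) ^ 2 = 1 := by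
      rw [← MulChar.pow_apply' px.2 (by norm_num : (2:ℕ) ≠ 0) _, hreal, MulChar.one_apply ha]
    have h2 : (px.2 (m : ZMod px.1) - 1) * (px.2 (m : ZMod px.1) + 1) = 0 := by
      have : (px.2 (m : ZMod px.1) - 1) * (px.2 (m : ZMod px.1) + 1) = (px.2 (m : ZMod px.1)) ^ 2 - 1 := by ring
      rw [this, h1, sub_self]
    rcases mul_eq_zero.mp h2 with h3 | h3
    · have : px.2 (m : ZMod px.1) = 1 := by linear_combination h3
      rw [this, map_one]
      simp
    · have : px.2 (m : ZMod px.1) = -1 := by linear_combination h3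
      rw [this, map_neg, map_one]
      simp
  · rw [MulChar.map_nonunit px.2 ha, map_zero]
    simp

end Pool.Agent.Lib.H59P
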