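import Pool.Agent.Lib.H59P.X1A
import Pool.Agent.Lib.H59P.SDefs
import Pool.Agent.Lib.H59P.M5
import Pool.Agent.Lib.H59C.LSB

/-!
# Project H59P, chunk pB, X1
-/

open Finset

namespace Pool.Agent.Lib.H59P

open Pool.Agent.Lib.H68T Pool.Agent.Lib.H18Q

/-- The tuple of characters: `⟨r, ψ⟩` on `B`, trivial else. -/
noncomputable def pB {k : ℕ} (px : Ch) (B : Finset (Fin k)) (i : Fin k) : Ch := if i ∈ B then px else p0

theorem x1_tot (r : ℕ) (hr : 0 < r) :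
    ∏ l ∈ r.primeFactors, ((l : ℝ) / ((l : ℝ) - 1)) = (r : ℝ) / (Nat.totient r : ℝ) := by
  have h1 : (Nat.totient r : ℝ) = (r : ℝ) * ∏ p ∈ r.primeFactors, (1 - (p : ℝ)⁻¹) := by
    have h := Nat.totient_eq_mul_prod_factors r
    have h2 : (((Nat.totient r : ℚ)) : ℝ) = (((r : ℚ) * ∏ p ∈ r.primeFactors, (1 - (p : ℚ)⁻¹) : ℚ) : ℝ) := by
      rw [h]
    push_cast at h2
    exact h2
  have h3 : ∀ p ∈ r.primeFactors, ((p : ℝ) / ((p : ℝ) - 1)) * (1 - (p : ℝ)⁻¹) = 1 := by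
    intro p hp
    have hp2 := (Nat.prime_of_mem_primeFactors hp).two_le
    have hp3 : (2 : ℝ) ≤ p := by exact_mod_cast hp2
    have : (p : ℝ) - 1 ≠ 0 := by linarith
    have : (p : ℝ) ≠ 0 := by linarith
    field_simp
  have h4 : (∏ l ∈ r.primeFactors, ((l : ℝ) / ((l : ℝ) - 1))) * ∏ p ∈ r.primeFactors, (1 - (p : ℝ)⁻¹) = 1 := by
    rw [← prod_mul_distrib]
    exact prod_eq_one h3
  have hr0 : (0 : ℝ) < r := by exact_mod_cast hr
  have ht0 : (0 : ℝ) < Nat.totient r := by exact_mod_cast Nat.totient_pos.2 hr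
  rw [eq_div_iff ht0.ne', h1, mul_comm (r : ℝ), ← mul_assoc, h4, one_mul]

theorem x1_uu_unit (r : ℕ) (hr : 0 < r) (m : ℤ) (hm : IsUnit (m : ZMod r)) :
    uu r.primeFactors m = (r : ℝ) / (Nat.totient r : ℝ) := by
  rw [← x1_tot r hr]
  unfold uu
  refine prod_congr rfl fun l hl => ?_
  have hlp := Nat.prime_of_mem_primeFactors hl
  have hld := Nat.dvd_of_mem_primeFactors hl
  have hnd : ¬ (l : ℤ) ∣ m := by
    intro h
    rw [ZMod.coe_int_isUnit_iff_isCoprime] at hm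
    have h1 : IsCoprime (l : ℤ) m := hm.of_isCoprime_of_dvd_left (by exact_mod_cast hld)
    have h2 : IsUnit (l : ℤ) := h1.isUnit_of_dvd' dvd_rfl h
    rw [Int.isUnit_iff] at h2
    have := hlp.two_le
    omega
  unfold gl
  rw [if_neg hnd]
  have hp3 : (2 : ℝ) ≤ l := by exact_mod_cast hlp.two_le
  have : (l : ℝ) - 1 ≠ 0 := by linarith
  field_simp
  ring

theorem x1_uu_per (r : ℕ) (m m' : ℤ) (h : (m : ZMod r) = (m' : ZMod r)) :
    uu r.primeFactors m = uu r.primeFactors m' := by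
  unfold uu gl
  refine prod_congr rfl fun l hl => ?_
  have hld : (l : ℤ) ∣ (r : ℤ) := by exact_mod_cast Nat.dvd_of_mem_primeFactors hl
  have h1 : (r : ℤ) ∣ m' - m := (ZMod.intCast_eq_intCast_iff_dvd_sub m m' r).1 h
  have h2 : ((l : ℤ) ∣ m) ↔ ((l : ℤ) ∣ m') := by
    have h3 := hld.trans h1
    constructor
    · intro h4
      have := dvd_add h4 h3
      rwa [add_sub_cancel] at this
    · intro h4
      have := dvd_sub h4 h3
      rwa [sub_sub_cancel] at this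
  simp only [h2]

theorem x1_sum_mul (r q : ℕ) (g : ℕ → ℂ) (hg : ∀ s, g (s + r) = g s) :
    ∑ s ∈ range (r * q), g s = q * ∑ s ∈ range r, g s := by
  induction q with
  | zero => simp
  | succ q ih =>
    rw [Nat.mul_succ, sum_range_add, ih]
    have h1 : ∀ q s : ℕ, g (r * q + s) = g s := by
      intro q s
      induction q with
      | zero => simp
      | succ q ih =>
        rw [Nat.mul_succ, show r * q + r + s = (r * q + s) + r by ring, hg, ih]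
    simp_rw [h1]
    push_cast
    ring

theorem x1_sum_zmod (r : ℕ) [NeZero r] {M : Type*} [AddCommMonoid M] (g : ZMod r → M) :
    ∑ s ∈ range r, g (s : ZMod r) = ∑ t : ZMod r, g t := by
  refine sum_nbij' (fun s => (s : ZMod r)) (fun t => t.val) ?_ ?_ ?_ ?_ ?_
  · intro s _
    exact mem_univ _
  · intro t _
    exact mem_range.2 (ZMod.val_lt t)
  · intro s hs
    exact ZMod.val_cast_of_lt (mem_range.1 hs)
  · intro t _
    exact ZMod.natCast_zmod_val t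
  · intro s _
    rfl

theorem x1_cj_norm (p : Ch) (m : ℤ) : ‖cj p m‖ ≤ 1 := by
  unfold cj
  rw [RCLike.norm_conj]
  exact DirichletCharacter.norm_le_one _ _

theorem x1_sum_c (r : ℕ) [NeZero r] (χ : DirichletCharacter ℂ r) (hχ : χ.IsPrimitive) :
    ∑ t : ZMod r, ‖∑ s : ZMod r, χ s * (starRingEnd ℂ) (χ (s + t))‖ ≤ (r : ℝ) * Real.sqrt r := by
  have h1 := X1a r χ hχ
  have h2 := sq_sum_le_card_mul_sum_sq (s := (univ : Finset (ZMod r)))
    (f := fun t => ‖∑ s : ZMod r, χ s * (starRingEnd ℂ) (χ (s + t))‖)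
  rw [card_univ, ZMod.card] at h2
  have hr0 : (0 : ℝ) ≤ r := Nat.cast_nonneg r
  refine (pow_le_pow_iff_left₀ (sum_nonneg fun _ _ => norm_nonneg _) (by positivity) two_ne_zero).1 ?_
  calc _ ≤ (r : ℝ) * ∑ t : ZMod r, ‖∑ s : ZMod r, χ s * (starRingEnd ℂ) (χ (s + t))‖ ^ 2 := h2
    _ ≤ (r : ℝ) * (r : ℝ) ^ 2 := mul_le_mul_of_nonneg_left h1 hr0
    _ = ((r : ℝ) * Real.sqrt r) ^ 2 := by
      rw [mul_pow, Real.sq_sqrt hr0]
      ring

/-- the factor of the `i`-th coordinate -/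
noncomputable def x1F {k : ℕ} (px : Ch) (B : Finset (Fin k)) (r : ℕ) (i : Fin k) (m : ℤ) : ℂ :=
  cj (pB px B i) m * ((uu r.primeFactors m : ℝ) : ℂ)

theorem x1_MR {k : ℕ} (px : Ch) (B : Finset (Fin k)) (r : ℕ) (h : Fin k → ℕ) :
    MR (pB px B) r h = (∑ n ∈ range r, ∏ i, x1F px B r i ((n : ℤ) + h i)) / r := rfl

theorem x1_sq {k : ℕ} (px : Ch) (B : Finset (Fin k)) (r : ℕ) (h : Fin k → ℕ) :
    ((‖MR (pB px B) r h‖ ^ 2 : ℝ) : ℂ) = (1 / (r : ℂ) ^ 2) * ∑ n ∈ range r, ∑ n' ∈ range r,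
      ∏ i, ((starRingEnd ℂ) (x1F px B r i ((n : ℤ) + h i)) * x1F px B r i ((n' : ℤ) + h i)) := by
  rw [Complex.ofReal_pow, ← Complex.conj_mul', x1_MR, map_div₀, map_sum, Complex.conj_natCast,
    div_mul_div_comm, sum_mul_sum, ← sq, one_div, div_eq_inv_mul]
  congr 1
  refine sum_congr rfl fun n _ => sum_congr rfl fun n' _ => ?_
  rw [map_prod, prod_mul_distrib]

theorem x1_F_le {k : ℕ} (px : Ch) (B : Finset (Fin k)) (r : ℕ) (hr : 0 < r) (i : Fin k) (m : ℤ) :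
    ‖x1F px B r i m‖ ≤ (r : ℝ) / (Nat.totient r : ℝ) := by
  unfold x1F
  rw [norm_mul, Complex.norm_real, Real.norm_eq_abs, abs_of_nonneg (M3a_uu r hr m).1]
  calc _ ≤ 1 * ((r : ℝ) / (Nat.totient r : ℝ)) :=
        mul_le_mul (x1_cj_norm _ _) (M3a_uu r hr m).2 (M3a_uu r hr m).1 zero_le_one
    _ = _ := one_mul _

theorem x1_F_B {k : ℕ} (r : ℕ) (hr : 0 < r) (χ : DirichletCharacter ℂ r) (B : Finset (Fin k)) (i : Fin k)
    (hi : i ∈ B) (m : ℤ) :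
    x1F ⟨r, χ⟩ B r i m = (((r : ℝ) / (Nat.totient r : ℝ) : ℝ) : ℂ) * (starRingEnd ℂ) (χ (m : ZMod r)) := by
  unfold x1F pB
  rw [if_pos hi]
  unfold cj
  by_cases hm : IsUnit (m : ZMod r)
  · rw [x1_uu_unit r hr m hm, mul_comm]
  · show (starRingEnd ℂ) (χ (m : ZMod r)) * _ = _
    rw [MulChar.map_nonunit χ hm]
    simp

/-- the correlation of one coordinate -/
noncomputable def x1T {k : ℕ} (px : Ch) (B : Finset (Fin k)) (r L : ℕ) (i : Fin k) (n n' : ℕ) : ℂ :=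
  ∑ s ∈ range L, (starRingEnd ℂ) (x1F px B r i ((n : ℤ) + s)) * x1F px B r i ((n' : ℤ) + s)

theorem x1_T_le {k : ℕ} (px : Ch) (B : Finset (Fin k)) (r : ℕ) (hr : 0 < r) (L : ℕ) (i : Fin k) (n n' : ℕ) :
    ‖x1T px B r L i n n'‖ ≤ (L : ℝ) * ((r : ℝ) / (Nat.totient r : ℝ)) ^ 2 := by
  unfold x1T
  refine (norm_sum_le _ _).trans ?_
  calc _ ≤ ∑ _s ∈ range L, ((r : ℝ) / (Nat.totient r : ℝ)) ^ 2 := by
        refine sum_le_sum fun s _ => ?_
        rw [norm_mul, RCLike.norm_conj, sq]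
        exact mul_le_mul (x1_F_le px B r hr i _) (x1_F_le px B r hr i _) (norm_nonneg _) (by positivity)
    _ = _ := by rw [sum_const, card_range, nsmul_eq_mul]

theorem x1_T_B {k : ℕ} (r : ℕ) [NeZero r] (hr : 0 < r) (χ : DirichletCharacter ℂ r) (B : Finset (Fin k)) (q : ℕ)
    (i : Fin k) (hi : i ∈ B) (n n' : ℕ) :
    ‖x1T ⟨r, χ⟩ B r (r * q) i n n'‖ = (q : ℝ) * ((r : ℝ) / (Nat.totient r : ℝ)) ^ 2 *
      ‖∑ s : ZMod r, χ s * (starRingEnd ℂ) (χ (s + ((n' : ZMod r) - (n : ZMod r))))‖ := by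
  have h1 : x1T ⟨r, χ⟩ B r (r * q) i n n' = ((((r : ℝ) / (Nat.totient r : ℝ)) ^ 2 : ℝ) : ℂ) *
      ∑ s ∈ range (r * q), χ ((n : ZMod r) + s) * (starRingEnd ℂ) (χ ((n' : ZMod r) + s)) := by
    unfold x1T
    rw [mul_sum]
    refine sum_congr rfl fun s _ => ?_
    rw [x1_F_B r hr χ B i hi, x1_F_B r hr χ B i hi]
    push_cast
    simp only [map_mul, map_div₀, Complex.conj_natCast, Complex.conj_conj]
    ring
  have h2 : ∑ s ∈ range (r * q), χ ((n : ZMod r) + s) * (starRingEnd ℂ) (χ ((n' : ZMod r) + s)) =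
      q * ∑ s : ZMod r, χ s * (starRingEnd ℂ) (χ (s + ((n' : ZMod r) - (n : ZMod r)))) := by
    rw [x1_sum_mul r q (fun s => χ ((n : ZMod r) + s) * (starRingEnd ℂ) (χ ((n' : ZMod r) + s)))]
    · congr 1
      rw [x1_sum_zmod r fun s : ZMod r => χ ((n : ZMod r) + s) * (starRingEnd ℂ) (χ ((n' : ZMod r) + s))]
      refine Fintype.sum_equiv (Equiv.addLeft (n : ZMod r)) _ _ fun s => ?_
      simp only [Equiv.coe_addLeft]
      congr 3
      ring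
    · intro s
      push_cast
      rw [ZMod.natCast_self, add_zero]
  rw [h1, h2, norm_mul, norm_mul, Complex.norm_real, Real.norm_eq_abs, abs_of_nonneg (sq_nonneg _),
    Complex.norm_natCast]
  ring

theorem x1_double (r : ℕ) [NeZero r] (f : ZMod r → ℝ) :
    ∑ n ∈ range r, ∑ n' ∈ range r, f ((n' : ZMod r) - (n : ZMod r)) = (r : ℝ) * ∑ t : ZMod r, f t := by
  have h1 : ∀ n : ℕ, ∑ n' ∈ range r, f ((n' : ZMod r) - (n : ZMod r)) = ∑ t : ZMod r, f t := by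
    intro n
    rw [x1_sum_zmod r fun t : ZMod r => f (t - (n : ZMod r))]
    exact Fintype.sum_equiv (Equiv.subRight (n : ZMod r)) _ _ fun t => rfl
  simp_rw [h1]
  rw [sum_const, card_range, nsmul_eq_mul]

theorem x1_main {k : ℕ} (X r : ℕ) (hr : 0 < r) (hrX : r ≤ X) (χ : DirichletCharacter ℂ r)
    (hprim : χ.IsPrimitive) (B : Finset (Fin k)) (hB : B.Nonempty) :
    ∑ h ∈ bx k X, ‖MR (pB ⟨r, χ⟩ B) r h‖ ^ 2 ≤
      (2 * (X : ℝ)) ^ k * ((r : ℝ) / (Nat.totient r : ℝ)) ^ (2 * k) * (r : ℝ) ^ (-(1 / 2) : ℝ) := by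
  have : NeZero r := ⟨hr.ne'⟩
  obtain ⟨i0, hi0⟩ := hB
  set Φ : ℝ := (r : ℝ) / (Nat.totient r : ℝ) with hΦ
  have hr0 : (0 : ℝ) < r := by exact_mod_cast hr
  have hΦ0 : 0 ≤ Φ := by positivity
  set q := (X + r - 1) / r with hq
  have hq1 : X ≤ r * q := by
    have h1 := Nat.div_add_mod (X + r - 1) r
    have h2 := Nat.mod_lt (X + r - 1) hr
    rw [← hq] at h1
    omega
  have hq2 : r * q ≤ 2 * X := by
    have h1 := Nat.mul_div_le (X + r - 1) r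
    rw [← hq] at h1
    omega
  set L := r * q with hL
  have hsub : bx k X ⊆ bx k L := by
    intro h hh
    unfold bx at hh ⊢
    rw [Fintype.mem_piFinset] at hh ⊢
    intro i
    have := mem_range.1 (hh i)
    exact mem_range.2 (by omega)
  have h1 : ∑ h ∈ bx k X, ‖MR (pB ⟨r, χ⟩ B) r h‖ ^ 2 ≤ ∑ h ∈ bx k L, ‖MR (pB ⟨r, χ⟩ B) r h‖ ^ 2 :=
    sum_le_sum_of_subset_of_nonneg hsub fun h _ _ => sq_nonneg _
  have h2 : ((∑ h ∈ bx k L, ‖MR (pB ⟨r, χ⟩ B) r h‖ ^ 2 : ℝ) : ℂ) =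
      (1 / (r : ℂ) ^ 2) * ∑ n ∈ range r, ∑ n' ∈ range r, ∏ i, x1T ⟨r, χ⟩ B r L i n n' := by
    rw [Complex.ofReal_sum]
    simp_rw [x1_sq]
    rw [← mul_sum, sum_comm]
    congr 1
    refine sum_congr rfl fun n _ => ?_
    rw [sum_comm]
    refine sum_congr rfl fun n' _ => ?_
    unfold bx x1T
    rw [prod_univ_sum]
  have h3 : ∀ n n' : ℕ, ‖∏ i, x1T ⟨r, χ⟩ B r L i n n'‖ ≤ ((L : ℝ) * Φ ^ 2) ^ (k - 1) * ((q : ℝ) * Φ ^ 2 *
      ‖∑ s : ZMod r, χ s * (starRingEnd ℂ) (χ (s + ((n' : ZMod r) - (n : ZMod r))))‖) := by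
    intro n n'
    rw [norm_prod, ← mul_prod_erase univ _ (mem_univ i0), mul_comm]
    apply mul_le_mul _ (x1_T_B r hr χ B q i0 hi0 n n').le (norm_nonneg _) (by positivity)
    refine (prod_le_prod (fun i _ => norm_nonneg _) fun i _ => x1_T_le ⟨r, χ⟩ B r hr L i n n').trans ?_
    rw [prod_const, card_erase_of_mem (mem_univ i0), card_univ, Fintype.card_fin]
  have h4 : ∑ h ∈ bx k L, ‖MR (pB ⟨r, χ⟩ B) r h‖ ^ 2 ≤ (1 / (r : ℝ) ^ 2) *
      (((L : ℝ) * Φ ^ 2) ^ (k - 1) * ((q : ℝ) * Φ ^ 2) * ((r : ℝ) * ((r : ℝ) * Real.sqrt r))) := by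
    have h5 : ∑ h ∈ bx k L, ‖MR (pB ⟨r, χ⟩ B) r h‖ ^ 2 =
        ‖((∑ h ∈ bx k L, ‖MR (pB ⟨r, χ⟩ B) r h‖ ^ 2 : ℝ) : ℂ)‖ := by
      rw [Complex.norm_real, Real.norm_eq_abs, abs_of_nonneg (sum_nonneg fun _ _ => sq_nonneg _)]
    rw [h5, h2, norm_mul, norm_div, norm_one, norm_pow, Complex.norm_natCast]
    refine mul_le_mul_of_nonneg_left ?_ (by positivity)
    refine (norm_sum_le _ _).trans ?_
    calc _ ≤ ∑ n ∈ range r, ∑ n' ∈ range r, ((L : ℝ) * Φ ^ 2) ^ (k - 1) * ((q : ℝ) * Φ ^ 2 *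
          ‖∑ s : ZMod r, χ s * (starRingEnd ℂ) (χ (s + ((n' : ZMod r) - (n : ZMod r))))‖) :=
          sum_le_sum fun n _ => (norm_sum_le _ _).trans (sum_le_sum fun n' _ => h3 n n')
      _ = ((L : ℝ) * Φ ^ 2) ^ (k - 1) * ((q : ℝ) * Φ ^ 2) *
          ∑ n ∈ range r, ∑ n' ∈ range r,
            ‖∑ s : ZMod r, χ s * (starRingEnd ℂ) (χ (s + ((n' : ZMod r) - (n : ZMod r))))‖ := by
          rw [mul_sum]
          refine sum_congr rfl fun n _ => ?_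
          rw [mul_sum]
          refine sum_congr rfl fun n' _ => ?_
          ring
      _ = ((L : ℝ) * Φ ^ 2) ^ (k - 1) * ((q : ℝ) * Φ ^ 2) * ((r : ℝ) *
            ∑ t : ZMod r, ‖∑ s : ZMod r, χ s * (starRingEnd ℂ) (χ (s + t))‖) := by
          rw [x1_double r fun t => ‖∑ s : ZMod r, χ s * (starRingEnd ℂ) (χ (s + t))‖]
      _ ≤ _ := by
          refine mul_le_mul_of_nonneg_left ?_ (by positivity)
          exact mul_le_mul_of_nonneg_left (x1_sum_c r χ hprim) hr0.le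
  have hk : 1 ≤ k := Nat.one_le_of_lt i0.2
  obtain ⟨k', rfl⟩ : ∃ k', k = k' + 1 := ⟨k - 1, by omega⟩
  rw [Nat.add_sub_cancel] at h4
  have hs : (r : ℝ) ^ (-(1 / 2) : ℝ) = (Real.sqrt r)⁻¹ := by
    rw [Real.rpow_neg hr0.le, Real.sqrt_eq_rpow]
  have hs0 : 0 < Real.sqrt r := Real.sqrt_pos.2 hr0
  have hss : Real.sqrt r * Real.sqrt r = r := Real.mul_self_sqrt hr0.le
  have hLq : (L : ℝ) = r * q := by rw [hL]; push_cast; ring
  have hL2 : (L : ℝ) ≤ 2 * X := by exact_mod_cast hq2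
  refine (h1.trans h4).trans ?_
  have h6 : (1 / (r : ℝ) ^ 2) * (((L : ℝ) * Φ ^ 2) ^ k' * ((q : ℝ) * Φ ^ 2) * ((r : ℝ) * ((r : ℝ) * Real.sqrt r)))
      = (L : ℝ) ^ (k' + 1) * Φ ^ (2 * (k' + 1)) * (Real.sqrt r)⁻¹ := by
    have e1 : (Real.sqrt r)⁻¹ = Real.sqrt r / r := by
      rw [eq_div_iff hr0.ne', inv_mul_eq_div, div_eq_iff hs0.ne', hss]
    rw [e1, mul_pow, pow_succ (L : ℝ) k', ← pow_mul]
    have e2 : Φ ^ (2 * (k' + 1)) = Φ ^ (2 * k') * Φ ^ 2 := by ring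
    rw [e2, hLq]
    field_simp
  rw [h6, hs]
  gcongr

/-- **X1.** Proof. The range of each `h_i` is covered by `⌈X/r⌉ ≤ 2X/r` complete periods, and the summand is
nonnegative and periodic modulo `r` in each `h_i`: the sum is at most `(2X/r)^k` times the sum over
`[0, r)^k`. There, squaring out, it is `(1/r²) ∑_{n,n'} ∏_i (∑_{s mod r} …)`: for `i ∉ B` the factor is
`∑_s uu(n+s) uu(n'+s) ≤ r (r/φ)²`, for `i ∈ B` (`uu = r/φ(r)` where `ψ ≠ 0`) it is `(r/φ)² ∑_s χ(n+s) conj χ(n'+s)`, of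
absolute value `(r/φ)² |c(n'-n)| ≤ r (r/φ)²`. Choose one `i0 ∈ B` and bound the others: at most
`r^(k-1) (r/φ)^(2k) (1/r²) ∑_{n,n'} |c(n'-n)| = r^(k-1) (r/φ)^(2k) (1/r) ∑_t |c(t)| ≤ r^(k-1) (r/φ)^(2k) (1/r) (r · r²)^(1/2)`
by Cauchy-Schwarz and `X1a`, i.e. `r^k (r/φ)^(2k) r^(-1/2)`. -/
theorem X1 {k : ℕ} (X r : ℕ) (hr : 0 < r) (hrX : r ≤ X) (px : Ch) (hpx : px.1 = r)
    (hprim : px.2.IsPrimitive) (B : Finset (Fin k)) (hB : B.Nonempty) :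
    ∑ h ∈ bx k X, ‖MR (pB px B) r h‖ ^ 2 ≤
      (2 * (X : ℝ)) ^ k * ((r : ℝ) / (Nat.totient r : ℝ)) ^ (2 * k) * (r : ℝ) ^ (-(1 / 2) : ℝ) := by
  obtain ⟨r', χ⟩ := px
  simp only at hpx
  subst hpx
  exact x1_main X r' hr hrX χ hprim B hB

end Pool.Agent.Lib.H59P
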