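import Pool.Agent.Lib.H59P.Z1E

/-!
# Project H59P, chunk Z2a
-/

open Finset

namespace Pool.Agent.Lib.H59P

open Pool.Agent.Lib.H68T Pool.Agent.Lib.H18Q

/-- Triangle inequality in `ℓ²`: a combination of functions with mean square at most `W²` and coefficients of
total size at most `c`. Proof. Minkowski, or Cauchy-Schwarz: `‖∑_p γ_p f_p(h)‖² ≤ (∑ |γ_p|) ∑_p |γ_p| ‖f_p(h)‖²`. -/
theorem Z2a {α β : Type*} (S : Finset α) (P : Finset β) (γ : β → ℂ) (f : β → α → ℂ) (c W : ℝ)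
    (hW : 0 ≤ W) (hγ : ∑ p ∈ P, ‖γ p‖ ≤ c) (hf : ∀ p ∈ P, ∑ h ∈ S, ‖f p h‖ ^ 2 ≤ W) :
    ∑ h ∈ S, ‖∑ p ∈ P, γ p * f p h‖ ^ 2 ≤ c ^ 2 * W := by
  have h0 : 0 ≤ ∑ p ∈ P, ‖γ p‖ := Finset.sum_nonneg fun p _ => norm_nonneg _
  have hc : 0 ≤ c := h0.trans hγ
  have h1 : ∀ h ∈ S, ‖∑ p ∈ P, γ p * f p h‖ ^ 2 ≤ c * ∑ p ∈ P, ‖γ p‖ * ‖f p h‖ ^ 2 := by
    intro h _
    have e1 : ‖∑ p ∈ P, γ p * f p h‖ ≤ ∑ p ∈ P, ‖γ p‖ * ‖f p h‖ := by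
      refine (norm_sum_le _ _).trans (le_of_eq ?_)
      exact Finset.sum_congr rfl fun p _ => norm_mul _ _
    have e2 : (∑ p ∈ P, ‖γ p‖ * ‖f p h‖) ^ 2 ≤
        (∑ p ∈ P, ‖γ p‖) * ∑ p ∈ P, ‖γ p‖ * ‖f p h‖ ^ 2 := by
      have h2 := Finset.sum_mul_sq_le_sq_mul_sq P (fun p => Real.sqrt ‖γ p‖)
        (fun p => Real.sqrt ‖γ p‖ * ‖f p h‖)
      have h3 : ∀ p ∈ P, Real.sqrt ‖γ p‖ * (Real.sqrt ‖γ p‖ * ‖f p h‖) = ‖γ p‖ * ‖f p h‖ := by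
        intro p _
        rw [← mul_assoc, Real.mul_self_sqrt (norm_nonneg _)]
      have h4 : ∀ p ∈ P, Real.sqrt ‖γ p‖ ^ 2 = ‖γ p‖ := fun p _ => Real.sq_sqrt (norm_nonneg _)
      have h5 : ∀ p ∈ P, (Real.sqrt ‖γ p‖ * ‖f p h‖) ^ 2 = ‖γ p‖ * ‖f p h‖ ^ 2 := by
        intro p hp
        rw [mul_pow, h4 p hp]
      rw [Finset.sum_congr rfl h3, Finset.sum_congr rfl h4, Finset.sum_congr rfl h5] at h2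
      exact h2
    have e3 : 0 ≤ ∑ p ∈ P, ‖γ p‖ * ‖f p h‖ ^ 2 :=
      Finset.sum_nonneg fun p _ => mul_nonneg (norm_nonneg _) (sq_nonneg _)
    calc ‖∑ p ∈ P, γ p * f p h‖ ^ 2 ≤ (∑ p ∈ P, ‖γ p‖ * ‖f p h‖) ^ 2 :=
          pow_le_pow_left₀ (norm_nonneg _) e1 2
      _ ≤ (∑ p ∈ P, ‖γ p‖) * ∑ p ∈ P, ‖γ p‖ * ‖f p h‖ ^ 2 := e2
      _ ≤ c * ∑ p ∈ P, ‖γ p‖ * ‖f p h‖ ^ 2 := mul_le_mul_of_nonneg_right hγ e3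
  refine (Finset.sum_le_sum h1).trans ?_
  rw [← Finset.mul_sum, Finset.sum_comm]
  have h6 : ∑ p ∈ P, ∑ h ∈ S, ‖γ p‖ * ‖f p h‖ ^ 2 ≤ ∑ p ∈ P, ‖γ p‖ * W := by
    refine Finset.sum_le_sum fun p hp => ?_
    rw [← Finset.mul_sum]
    exact mul_le_mul_of_nonneg_left (hf p hp) (norm_nonneg _)
  rw [← Finset.sum_mul] at h6
  calc c * ∑ p ∈ P, ∑ h ∈ S, ‖γ p‖ * ‖f p h‖ ^ 2 ≤ c * ((∑ p ∈ P, ‖γ p‖) * W) :=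
        mul_le_mul_of_nonneg_left h6 hc
    _ ≤ c * (c * W) := mul_le_mul_of_nonneg_left (mul_le_mul_of_nonneg_right hγ hW) hc
    _ = c ^ 2 * W := by ring

end Pool.Agent.Lib.H59P
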