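import Pool.Agent.Lib.H59P.S0B
import Pool.Agent.Lib.H59P.SDefs

/-!
# Project H59P, chunk S0c
-/

open Finset

namespace Pool.Agent.Lib.H59P

open Pool.Agent.Lib.H68T Pool.Agent.Lib.H18Q

/-- **S0c.** The same, one factor `j` being used through its correlations.

Proof. `S0a`; all factors but the `j`-th are at most `W i` in absolute value, so the sum is at most
`∏_{i≠j} W i ∑_{n,n'} |A_j(n,n')|`, and `∑_{n,n'} |A_j| ≤ |I| (∑ A_j²)^{1/2}` (Cauchy-Schwarz). -/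
theorem S0c {k : ℕ} (X : ℕ) (I : Finset ℕ) (f : Fin k → ℤ → ℝ) (W : Fin k → ℝ) (j : Fin k)
    (hW : ∀ i, ∀ n ∈ I, ∑ s ∈ range X, f i ((n : ℤ) + s) ^ 2 ≤ W i) (V : ℝ) (hV : 0 ≤ V)
    (hj : ∑ n ∈ I, ∑ n' ∈ I, (∑ s ∈ range X, f j ((n : ℤ) + s) * f j ((n' : ℤ) + s)) ^ 2 ≤ V ^ 2) :
    ∑ h ∈ bx k X, (∑ n ∈ I, ∏ i, f i ((n : ℤ) + h i)) ^ 2 ≤
      (I.card : ℝ) * V * ∏ i ∈ univ.erase j, W i := by
  rw [S0a]
  rcases I.eq_empty_or_nonempty with rfl | ⟨n0, hn0⟩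
  · simp
  have hW0 : ∀ i, 0 ≤ W i := fun i => le_trans (sum_nonneg fun s _ => sq_nonneg _) (hW i n0 hn0)
  set A : Fin k → ℕ → ℕ → ℝ := fun i n n' => ∑ s ∈ range X, f i ((n : ℤ) + s) * f i ((n' : ℤ) + s) with hA
  have hAW : ∀ i, ∀ n ∈ I, ∀ n' ∈ I, |A i n n'| ≤ W i := by
    intro i n hn n' hn'
    apply abs_le_of_sq_le_sq _ (hW0 i)
    calc A i n n' ^ 2 ≤ (∑ s ∈ range X, f i ((n : ℤ) + s) ^ 2) * ∑ s ∈ range X, f i ((n' : ℤ) + s) ^ 2 :=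
          sum_mul_sq_le_sq_mul_sq _ _ _
      _ ≤ W i * W i := mul_le_mul (hW i n hn) (hW i n' hn') (sum_nonneg fun s _ => sq_nonneg _) (hW0 i)
      _ = W i ^ 2 := by ring
  have hP : 0 ≤ ∏ i ∈ univ.erase j, W i := prod_nonneg fun i _ => hW0 i
  have h1 : ∀ n ∈ I, ∀ n' ∈ I, ∏ i, A i n n' ≤ |A j n n'| * ∏ i ∈ univ.erase j, W i := by
    intro n hn n' hn'
    calc ∏ i, A i n n' ≤ |∏ i, A i n n'| := le_abs_self _
      _ = ∏ i, |A i n n'| := abs_prod _ _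
      _ = |A j n n'| * ∏ i ∈ univ.erase j, |A i n n'| := (mul_prod_erase univ _ (mem_univ j)).symm
      _ ≤ |A j n n'| * ∏ i ∈ univ.erase j, W i :=
          mul_le_mul_of_nonneg_left (prod_le_prod (fun i _ => abs_nonneg _) fun i _ => hAW i n hn n' hn')
            (abs_nonneg _)
  have h2 : ∑ n ∈ I, ∑ n' ∈ I, |A j n n'| ≤ (I.card : ℝ) * V := by
    apply le_of_sq_le_sq _ (mul_nonneg (Nat.cast_nonneg _) hV)
    rw [← sum_product']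
    calc (∑ p ∈ I ×ˢ I, |A j p.1 p.2|) ^ 2 ≤ ((I ×ˢ I).card : ℝ) * ∑ p ∈ I ×ˢ I, |A j p.1 p.2| ^ 2 :=
          sq_sum_le_card_mul_sum_sq
      _ = (I.card : ℝ) ^ 2 * ∑ n ∈ I, ∑ n' ∈ I, (A j n n') ^ 2 := by
          rw [card_product, sum_product]
          simp only [sq_abs]
          push_cast
          ring
      _ ≤ (I.card : ℝ) ^ 2 * V ^ 2 := mul_le_mul_of_nonneg_left hj (sq_nonneg _)
      _ = ((I.card : ℝ) * V) ^ 2 := by ring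
  calc ∑ n ∈ I, ∑ n' ∈ I, ∏ i, A i n n'
      ≤ ∑ n ∈ I, ∑ n' ∈ I, |A j n n'| * ∏ i ∈ univ.erase j, W i :=
        sum_le_sum fun n hn => sum_le_sum fun n' hn' => h1 n hn n' hn'
    _ = (∑ n ∈ I, ∑ n' ∈ I, |A j n n'|) * ∏ i ∈ univ.erase j, W i := by
        simp only [sum_mul]
    _ ≤ (I.card : ℝ) * V * ∏ i ∈ univ.erase j, W i := mul_le_mul_of_nonneg_right h2 hP

end Pool.Agent.Lib.H59P
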