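import Pool.Agent.Lib.H59P.S1B
import Pool.Agent.Lib.H59P.SDefs
import Pool.Agent.Lib.H18Q.QP

/-!
# Project H59P, chunk S1
-/

open Finset

namespace Pool.Agent.Lib.H59P

open Pool.Agent.Lib.H68T Pool.Agent.Lib.H18Q

/-- **S1.** Mean squares over the windows `[n, n + X)`, `X ≤ n ≤ 2 X` (all in `[X, 3X)`).

Proof. `Lk` is `SG (B m) m`, `‖·‖ ≤ 300 (1+log Q)^3 dQ Q m` (`S1b`, `Cf.eq`, `Cf.le`, `Cf.sum`), `S1a`;
`1 + log Q ≤ log X`; total `720000 X (log X)^9 ≤ X (log X)^10` since `log X ≥ e^K`, `K` large. `lp m ≤ log(4X)`,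
`lp² ≤ (2 log X)²`. `(lp - Lk)² ≤ 2 lp² + 2 Lk²`. -/
theorem S1 : ∃ K : ℝ, 1 ≤ K ∧ ∀ (Q X : ℕ) (B : ℤ → Ch → ℂ) (mb : Ch → ℝ), RegP K Q X → Cf Q X B mb →
    ∀ n ∈ Icc X (2 * X),
      ∑ s ∈ range X, Lk Q (X / Q ^ 2) ((n : ℤ) + s) ^ 2 ≤ X * (Real.log X) ^ 10 ∧
      ∑ s ∈ range X, lp ((n : ℤ) + s) ^ 2 ≤ X * (Real.log X) ^ 10 ∧
      ∑ s ∈ range X, (lp ((n : ℤ) + s) - Lk Q (X / Q ^ 2) ((n : ℤ) + s)) ^ 2 ≤ X * (Real.log X) ^ 10 := by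
  refine ⟨2000000, by norm_num, fun Q X B mb hreg hB n hn => ?_⟩
  have hK0 : (0 : ℝ) ≤ 2000000 := by norm_num
  obtain ⟨hQ, hlQ, hlX, hQX, hX0, hlQ0⟩ := qp_regime (le_refl (20736 : ℝ)) (hreg.mono hK0 (by norm_num))
  have hl2 : 2000000 ≤ Real.log X := by
    have h1 := hreg.logX_ge (by norm_num)
    have h2 := Real.add_one_le_exp (2000000 : ℝ)
    linarith
  have hX1 : (1 : ℝ) ≤ X := by exact_mod_cast hX0
  have hQ1' : (1 : ℝ) ≤ Q := by linarith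
  have hQ1 : 1 ≤ Q := by exact_mod_cast hQ1'
  have hQXn : Q ^ 2 ≤ X := by
    have h3 : (Q : ℝ) ^ 2 ≤ X := (pow_le_pow_right₀ hQ1' (by norm_num)).trans hQX
    exact_mod_cast h3
  obtain ⟨hn1, hn2⟩ := mem_Icc.1 hn
  obtain ⟨ℓ, hℓ⟩ : ∃ ℓ, ℓ = Real.log X := ⟨_, rfl⟩
  rw [← hℓ] at hl2 hlX hlQ ⊢
  have hℓ9 : 0 ≤ ℓ ^ 9 := by positivity
  have hℓ2 : ℓ ^ 2 ≤ ℓ ^ 9 := pow_le_pow_right₀ hlX (by norm_num)
  have hT1 : ∑ s ∈ range X, Lk Q (X / Q ^ 2) ((n : ℤ) + s) ^ 2 ≤ X * (720000 * ℓ ^ 9) := by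
    have h1 : ∀ s ∈ range X, Lk Q (X / Q ^ 2) ((n : ℤ) + s) ^ 2 ≤
        90000 * (1 + Real.log Q) ^ 6 * dQ Q ((n : ℤ) + s) ^ 2 := by
      intro s hs
      rw [mem_range] at hs
      have g1 : (X : ℤ) ≤ (n : ℤ) + s := by omega
      have g2 : (n : ℤ) + s ≤ 4 * X := by omega
      have g3 := hB.eq _ g1 g2
      have g4 := S1b Q hQ1 (B ((n : ℤ) + s)) mb (hB.le _ g1 g2) ((n : ℤ) + s)
      have hd0 : 0 ≤ dQ Q ((n : ℤ) + s) := by unfold dQ; positivity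
      have hA0 : 0 ≤ 100 * (1 + Real.log Q) ^ 3 * dQ Q ((n : ℤ) + s) := by positivity
      have g5 : |Lk Q (X / Q ^ 2) ((n : ℤ) + s)| ≤ 300 * (1 + Real.log Q) ^ 3 * dQ Q ((n : ℤ) + s) := by
        rw [← Real.norm_eq_abs, ← Complex.norm_real, g3]
        have g8 := mul_le_mul_of_nonneg_left hB.sum hA0
        linarith
      rw [← sq_abs]
      calc |Lk Q (X / Q ^ 2) ((n : ℤ) + s)| ^ 2 ≤
          (300 * (1 + Real.log Q) ^ 3 * dQ Q ((n : ℤ) + s)) ^ 2 :=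
            pow_le_pow_left₀ (abs_nonneg _) g5 2
        _ = _ := by ring
    refine (Finset.sum_le_sum h1).trans ?_
    rw [← Finset.mul_sum]
    have h2 := S1a Q X hQ1 hQXn n
    have h3 : (1 + Real.log Q) ^ 9 ≤ ℓ ^ 9 := pow_le_pow_left₀ (by linarith) hlQ 9
    calc 90000 * (1 + Real.log Q) ^ 6 * ∑ s ∈ range X, dQ Q ((n : ℤ) + s) ^ 2 ≤
        90000 * (1 + Real.log Q) ^ 6 * (8 * X * (1 + Real.log Q) ^ 3) :=
          mul_le_mul_of_nonneg_left h2 (by positivity)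
      _ = X * (720000 * (1 + Real.log Q) ^ 9) := by ring
      _ ≤ X * (720000 * ℓ ^ 9) := by
          apply mul_le_mul_of_nonneg_left _ (by linarith)
          linarith
  have hT2 : ∑ s ∈ range X, lp ((n : ℤ) + s) ^ 2 ≤ X * (4 * ℓ ^ 9) := by
    have h1 : ∀ s ∈ range X, lp ((n : ℤ) + s) ^ 2 ≤ 4 * ℓ ^ 9 := by
      intro s hs
      rw [mem_range] at hs
      have g1 : (1 : ℤ) ≤ (n : ℤ) + s := by omega
      have g2 : ((((n : ℤ) + s : ℤ)) : ℝ) ≤ 4 * X := by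
        have g3 : (n : ℤ) + s ≤ 4 * X := by omega
        exact_mod_cast g3
      obtain ⟨g3, g4⟩ := BA2_lp_bounds ((n : ℤ) + s) (4 * X) g1 g2
      have g5 : lp ((n : ℤ) + s) ≤ 2 * ℓ := by
        refine g4.trans ?_
        rw [Real.log_mul (by norm_num) (by positivity), ← hℓ]
        have : Real.log 4 ≤ 4 := by
          have := Real.log_le_sub_one_of_pos (show (0 : ℝ) < 4 by norm_num)
          linarith
        linarith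
      calc lp ((n : ℤ) + s) ^ 2 ≤ (2 * ℓ) ^ 2 := pow_le_pow_left₀ g3 g5 2
        _ = 4 * ℓ ^ 2 := by ring
        _ ≤ 4 * ℓ ^ 9 := by linarith
    refine (Finset.sum_le_sum h1).trans ?_
    rw [Finset.sum_const, card_range, nsmul_eq_mul]
  have hc : ∀ c : ℝ, c ≤ 2000000 → (X : ℝ) * (c * ℓ ^ 9) ≤ X * ℓ ^ 10 := by
    intro c hc
    apply mul_le_mul_of_nonneg_left _ (by linarith)
    have h1 : ℓ ^ 10 = ℓ * ℓ ^ 9 := by ring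
    rw [h1]
    exact mul_le_mul_of_nonneg_right (by linarith) hℓ9
  refine ⟨hT1.trans (hc _ (by norm_num)), hT2.trans (hc _ (by norm_num)), ?_⟩
  have hT3 : ∑ s ∈ range X, (lp ((n : ℤ) + s) - Lk Q (X / Q ^ 2) ((n : ℤ) + s)) ^ 2 ≤
      2 * ∑ s ∈ range X, lp ((n : ℤ) + s) ^ 2 +
      2 * ∑ s ∈ range X, Lk Q (X / Q ^ 2) ((n : ℤ) + s) ^ 2 := by
    rw [Finset.mul_sum, Finset.mul_sum, ← Finset.sum_add_distrib]
    refine Finset.sum_le_sum fun s _ => ?_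
    nlinarith [sq_nonneg (lp ((n : ℤ) + s) + Lk Q (X / Q ^ 2) ((n : ℤ) + s))]
  refine hT3.trans (le_trans ?_ (hc 1440008 (by norm_num)))
  have h5 : (X : ℝ) * (1440008 * ℓ ^ 9) = 2 * (X * (4 * ℓ ^ 9)) + 2 * (X * (720000 * ℓ ^ 9)) := by ring
  rw [h5]
  linarith

end Pool.Agent.Lib.H59P
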