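import Pool.Agent.Lib.H59P.V1B
import Pool.Agent.Lib.H59P.S1
import Pool.Agent.Lib.H59P.S0

/-!
# Project H59P, chunk V1
-/

open Finset

namespace Pool.Agent.Lib.H59P

open Pool.Agent.Lib.H68T Pool.Agent.Lib.H18Q

/-- **V1.** Proof. `Rs = ∑_n ∏_i SG Q (B (n+h_i)) (n+h_i)` (`Cf.eq`, `n + h_i < 3X`), `V1b` summed over `n`,
then `S0b` with `f_i = dQ Q`, `W i = 8 X (1+log Q)^3` (`S1a`): mean square at most
`(k (4/Q^3) Z^k)² X² (8 X (1+log Q)^3)^k`; `Z² · 8 (1+log Q)^3 ≤ (log X)^10`, `k² 16 ≤ 16 (log X)^(2k)`, `16/Q^6 ≤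
Q^(-4)`. -/
theorem V1 : ∃ K : ℝ, 1 ≤ K ∧ ∀ (k Q X H : ℕ) (B : ℤ → Ch → ℂ) (mb : Ch → ℝ), RegP K Q X →
    X = H * Q ^ 8 → Cf Q X B mb →
    ∑ h ∈ bx k X, ‖((Rs Q X h : ℝ) : ℂ) - Rc Q X H B h‖ ^ 2 ≤
      (X : ℝ) ^ (k + 2) * (Q : ℝ) ^ (-(4) : ℝ) * (Real.log X) ^ (20 * k) := by
  refine ⟨1000000, by norm_num, fun k Q X H B mb hr hX hB => ?_⟩
  have hK0 : (0 : ℝ) < 1000000 := by norm_num
  have hK1 : (1 : ℝ) ≤ 1000000 := by norm_num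
  have hQ : 1 ≤ Q := hr.Q_pos hK1
  have hXp : 0 < X := hr.X_pos hK0
  have hH : 1 ≤ H := by
    rcases Nat.eq_zero_or_pos H with h0 | h0
    · rw [h0, zero_mul] at hX; omega
    · exact h0
  have hQX : Q ^ 2 ≤ X := by
    rw [hX]
    calc Q ^ 2 ≤ Q ^ 8 := Nat.pow_le_pow_right hQ (by norm_num)
      _ ≤ H * Q ^ 8 := Nat.le_mul_of_pos_left _ hH
  set L : ℝ := Real.log X with hLdef
  set q : ℝ := 1 + Real.log Q with hqdef
  have hL : (1000000 : ℝ) ≤ L := by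
    have e1 := hr.logX_ge hK0
    have e2 := Real.add_one_le_exp (1000000 : ℝ)
    linarith
  have hlQ : 0 ≤ Real.log Q := Real.log_natCast_nonneg Q
  have hq0 : 0 ≤ q := by rw [hqdef]; linarith
  have hq : q ≤ L := by
    have e1 := hr.logQ_le hK1
    rw [hqdef]
    nlinarith
  have hQr : (1000000 : ℝ) ≤ Q := hr.Q_ge hK1
  have hX0 : (0 : ℝ) ≤ X := Nat.cast_nonneg X
  set c : ℝ := (k : ℝ) * (4 / (Q : ℝ) ^ 3) * (300 * q ^ 3) ^ k with hc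
  have hpt : ∀ h ∈ bx k X, ‖((Rs Q X h : ℝ) : ℂ) - Rc Q X H B h‖ ^ 2 ≤
      c ^ 2 * (∑ n ∈ Ico X (2 * X), ∏ i, dQ Q ((n : ℤ) + h i)) ^ 2 := by
    intro h hh
    have hhi : ∀ i, h i < X := fun i => mem_range.1 (Fintype.mem_piFinset.1 hh i)
    have e1 : ((Rs Q X h : ℝ) : ℂ) =
        ∑ n ∈ Ico X (2 * X), ∏ i, SG Q (B ((n : ℤ) + h i)) ((n : ℤ) + h i) := by
      unfold Rs
      rw [Complex.ofReal_sum]
      refine Finset.sum_congr rfl fun n hn => ?_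
      rw [Complex.ofReal_prod]
      refine Finset.prod_congr rfl fun i _ => ?_
      have h1 := mem_Ico.1 hn
      have h2 := hhi i
      exact hB.eq _ (by omega) (by omega)
    rw [e1, Rc, ← Finset.sum_sub_distrib]
    have h1 : ‖∑ n ∈ Ico X (2 * X), (∏ i, SG Q (B ((n : ℤ) + h i)) ((n : ℤ) + h i) -
        ∏ i, SG Q (B (((bs H n + bs H (h i) : ℕ) : ℤ))) ((n : ℤ) + h i))‖ ≤
        ∑ n ∈ Ico X (2 * X), c * ∏ i, dQ Q ((n : ℤ) + h i) :=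
      (norm_sum_le _ _).trans (Finset.sum_le_sum fun n hn =>
        V1b Q X H hQ hX hH B mb hB h hh n hn)
    rw [← Finset.mul_sum] at h1
    calc _ ≤ (c * ∑ n ∈ Ico X (2 * X), ∏ i, dQ Q ((n : ℤ) + h i)) ^ 2 :=
          pow_le_pow_left₀ (norm_nonneg _) h1 2
      _ = _ := mul_pow _ _ _
  have hS := S0b (k := k) X (Ico X (2 * X)) (fun _ => dQ Q) (fun _ => 8 * X * q ^ 3)
    (fun i n _ => S1a Q X hQ hQX n)
  have hcard : ((Ico X (2 * X)).card : ℝ) = X := by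
    rw [Nat.card_Ico]
    congr 1
    omega
  rw [hcard, Finset.prod_const, Finset.card_univ, Fintype.card_fin] at hS
  have hA : (k : ℝ) ^ 2 * (720000 * q ^ 9) ^ k ≤ L ^ (20 * k) := by
    have h1 : (k : ℝ) ≤ 2 ^ k := by exact_mod_cast (Nat.lt_two_pow_self (n := k)).le
    have h2 : (k : ℝ) ^ 2 ≤ 4 ^ k := by
      calc (k : ℝ) ^ 2 ≤ (2 ^ k) ^ 2 := pow_le_pow_left₀ (Nat.cast_nonneg k) h1 2
        _ = 4 ^ k := by rw [← pow_mul, mul_comm, pow_mul]; norm_num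
    have h3 : 4 * (720000 * q ^ 9) ≤ L ^ 20 := by
      have h4 : q ^ 9 ≤ L ^ 9 := pow_le_pow_left₀ hq0 hq 9
      have h5 : (2880000 : ℝ) ≤ L ^ 2 := by nlinarith
      calc 4 * (720000 * q ^ 9) = 2880000 * q ^ 9 := by ring
        _ ≤ L ^ 2 * L ^ 9 := mul_le_mul h5 h4 (by positivity) (by positivity)
        _ = L ^ 11 := by ring
        _ ≤ L ^ 20 := pow_le_pow_right₀ (by linarith) (by norm_num)
    calc (k : ℝ) ^ 2 * (720000 * q ^ 9) ^ k ≤ 4 ^ k * (720000 * q ^ 9) ^ k :=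
          mul_le_mul_of_nonneg_right h2 (by positivity)
      _ = (4 * (720000 * q ^ 9)) ^ k := (mul_pow _ _ _).symm
      _ ≤ (L ^ 20) ^ k := pow_le_pow_left₀ (by positivity) h3 k
      _ = L ^ (20 * k) := by rw [← pow_mul]
  have hQ4 : 16 / (Q : ℝ) ^ 6 ≤ (Q : ℝ) ^ (-(4) : ℝ) := by
    have hQp : (0 : ℝ) < Q := by linarith
    have e1 : (Q : ℝ) ^ (-(4) : ℝ) = ((Q : ℝ) ^ 4)⁻¹ := by
      rw [Real.rpow_neg hQp.le]
      congr 1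
      exact_mod_cast Real.rpow_natCast (Q : ℝ) 4
    rw [e1, div_le_iff₀ (by positivity)]
    have e2 : ((Q : ℝ) ^ 4)⁻¹ * (Q : ℝ) ^ 6 = (Q : ℝ) ^ 2 := by field_simp
    rw [e2]
    nlinarith
  calc ∑ h ∈ bx k X, ‖((Rs Q X h : ℝ) : ℂ) - Rc Q X H B h‖ ^ 2
      ≤ ∑ h ∈ bx k X, c ^ 2 * (∑ n ∈ Ico X (2 * X), ∏ i, dQ Q ((n : ℤ) + h i)) ^ 2 :=
        Finset.sum_le_sum hpt
    _ = c ^ 2 * ∑ h ∈ bx k X, (∑ n ∈ Ico X (2 * X), ∏ i, dQ Q ((n : ℤ) + h i)) ^ 2 := by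
        rw [Finset.mul_sum]
    _ ≤ c ^ 2 * ((X : ℝ) ^ 2 * (8 * X * q ^ 3) ^ k) := mul_le_mul_of_nonneg_left hS (sq_nonneg c)
    _ = (X : ℝ) ^ (k + 2) * (16 / (Q : ℝ) ^ 6) * ((k : ℝ) ^ 2 * (720000 * q ^ 9) ^ k) := by
        have e1 : (720000 * q ^ 9) ^ k = ((300 * q ^ 3) ^ k) ^ 2 * (8 * q ^ 3) ^ k := by
          rw [← pow_mul, mul_comm k 2, pow_mul, ← mul_pow]
          congr 1
          ring
        have e2 : (8 * (X : ℝ) * q ^ 3) ^ k = (X : ℝ) ^ k * (8 * q ^ 3) ^ k := by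
          rw [← mul_pow]
          congr 1
          ring
        rw [e1, e2, hc, pow_add]
        ring
    _ ≤ (X : ℝ) ^ (k + 2) * (Q : ℝ) ^ (-(4) : ℝ) * L ^ (20 * k) := by
        have h0 : (0 : ℝ) ≤ (X : ℝ) ^ (k + 2) := by positivity
        refine mul_le_mul (mul_le_mul_of_nonneg_left hQ4 h0) hA (by positivity) ?_
        exact mul_nonneg h0 (Real.rpow_nonneg (Nat.cast_nonneg Q) _)

end Pool.Agent.Lib.H59P
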