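import Pool.Agent.Lib.H59P.S1
import Pool.Agent.Lib.H59P.S0

/-!
# Project H59P, chunk V1a
-/

open Finset

namespace Pool.Agent.Lib.H59P

open Pool.Agent.Lib.H68T Pool.Agent.Lib.H18Q

/-- Slow variation over a distance less than `2 H`. Proof. Induction on the distance (`Cf.slow`),
both points in `[X, 4X]`. -/
theorem V1a (Q X : ℕ) (B : ℤ → Ch → ℂ) (mb : Ch → ℝ) (hB : Cf Q X B mb) (m m' : ℤ)
    (hm : (X : ℤ) ≤ m) (hmm : m ≤ m') (hm' : m' ≤ 4 * X) (p : Ch) (hp : p ∈ PC Q) :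
    ‖B m' p - B m p‖ ≤ (m' - m) * (2 * (Q : ℝ) ^ 3 / X) := by
  have hQ0 : (0 : ℝ) ≤ 2 * (Q : ℝ) ^ 3 / X := by positivity
  obtain ⟨d, rfl⟩ : ∃ d : ℕ, m' = m + d := ⟨(m' - m).toNat, by
    rw [Int.toNat_of_nonneg (by omega)]
    ring⟩
  clear hmm
  induction d with
  | zero => simp
  | succ d ih =>
    have h1 := ih (by push_cast at hm'; omega)
    have h2 := hB.slow (m + d) (by omega) (by push_cast at hm'; omega) p hp
    have h3 : m + ((d + 1 : ℕ) : ℤ) = m + d + 1 := by push_cast; ring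
    rw [h3]
    have h4 : B (m + d + 1) p - B m p = (B (m + d + 1) p - B (m + d) p) + (B (m + d) p - B m p) := by
      ring
    rw [h4]
    refine (norm_add_le _ _).trans ?_
    push_cast at h1 ⊢
    have h5 : ((m : ℝ) + d - m) = d := by ring
    have h6 : ((m : ℝ) + d + 1 - m) = d + 1 := by ring
    rw [h5] at h1
    rw [h6]
    linarith

end Pool.Agent.Lib.H59P
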