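import Pool.Agent.Lib.H59P.MDefs

/-!
# Project H59P, chunks M3a, M3b: periodicity and bounds of the local functions
-/

open Finset

namespace Pool.Agent.Lib.H59P

open Pool.Agent.Lib.H68T Pool.Agent.Lib.H18Q

/-- `gl l` has period `l`. -/
theorem gl_per (l : ℕ) (m j : ℤ) : gl l (m + j * l) = gl l m := by
  unfold gl
  have h : ((l : ℤ) ∣ m + j * l) ↔ (l : ℤ) ∣ m := by
    constructor
    · intro h
      have := (dvd_add_left (dvd_mul_left (l : ℤ) j)).1 h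
      exact this
    · intro h
      exact dvd_add h (dvd_mul_left _ _)
  simp only [h]

/-- **M3a.** Bounds: for a prime `l`, `0 ≤ 1 + gl l m ≤ l/(l-1)`; `0 ≤ uu P m ≤ R/φ(R)` for
`P = R.primeFactors`; `‖Ph p P h n‖ ≤ ∏_i uu P (n+h_i)` for a set `P` of primes; `|Wl l h n| ≤ (l/(l-1))^k`,
`|tp l h| ≤ (l/(l-1))^k`, `0 ≤ 1 + tp l h ≤ (l/(l-1))^k`; `|Wd d h n| ≤ (d/φ(d))^k` and
`|td d h| ≤ (d/φ(d))^k` for squarefree `d` (`∏_{l ∣ d} l/(l-1) = d/φ(d)`).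

Proof. Directly; `(l/(l-1))^k ≥ 1`; `DirichletCharacter.norm_le_one`. -/
theorem M3a_gl (l : ℕ) (hl : l.Prime) (m : ℤ) : 0 ≤ 1 + gl l m ∧ 1 + gl l m ≤ (l : ℝ) / ((l : ℝ) - 1) := by
  have h2 : (2 : ℝ) ≤ l := by exact_mod_cast hl.two_le
  have h3 : (0 : ℝ) < (l : ℝ) - 1 := by linarith
  have h4 : (0 : ℝ) ≤ (l : ℝ) / ((l : ℝ) - 1) := by positivity
  unfold gl
  split_ifs with h
  · constructor
    · norm_num
    · linarith
  · have h5 : (1 : ℝ) + 1 / ((l : ℝ) - 1) = (l : ℝ) / ((l : ℝ) - 1) := by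
      field_simp
      ring
    rw [h5]
    exact ⟨h4, le_refl _⟩

theorem M3a_ratio (l : ℕ) (hl : l.Prime) : (1 : ℝ) ≤ (l : ℝ) / ((l : ℝ) - 1) := by
  have h2 : (2 : ℝ) ≤ l := by exact_mod_cast hl.two_le
  have h3 : (0 : ℝ) < (l : ℝ) - 1 := by linarith
  rw [le_div_iff₀ h3]
  linarith

theorem M3a_prod (R : ℕ) (hR : 0 < R) :
    ∏ l ∈ R.primeFactors, ((l : ℝ) / ((l : ℝ) - 1)) = (R : ℝ) / (Nat.totient R : ℝ) := by
  have h1 : ((Nat.totient R : ℕ) : ℝ) = R * ∏ p ∈ R.primeFactors, (1 - (p : ℝ)⁻¹) := by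
    have h := Nat.totient_eq_mul_prod_factors R
    have h' : (((Nat.totient R : ℕ) : ℚ) : ℝ) =
        ((R * ∏ p ∈ R.primeFactors, (1 - (p : ℚ)⁻¹) : ℚ) : ℝ) := by rw [h]
    push_cast at h'
    exact h'
  have h2' : (∏ l ∈ R.primeFactors, ((l : ℝ) / ((l : ℝ) - 1))) *
      ∏ p ∈ R.primeFactors, (1 - (p : ℝ)⁻¹) = 1 := by
    rw [← Finset.prod_mul_distrib]
    apply Finset.prod_eq_one
    intro l hl
    have hl' := Nat.prime_of_mem_primeFactors hl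
    have h2 : (2 : ℝ) ≤ l := by exact_mod_cast hl'.two_le
    have h3 : (l : ℝ) - 1 ≠ 0 := by linarith
    have h4 : (l : ℝ) ≠ 0 := by linarith
    field_simp
  have hφ : (0 : ℝ) < (Nat.totient R : ℝ) := by exact_mod_cast Nat.totient_pos.2 hR
  rw [eq_div_iff hφ.ne', h1]
  calc (∏ l ∈ R.primeFactors, ((l : ℝ) / ((l : ℝ) - 1))) *
      (R * ∏ p ∈ R.primeFactors, (1 - (p : ℝ)⁻¹))
      = R * ((∏ l ∈ R.primeFactors, ((l : ℝ) / ((l : ℝ) - 1))) *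
        ∏ p ∈ R.primeFactors, (1 - (p : ℝ)⁻¹)) := by ring
    _ = R := by rw [h2', mul_one]

theorem M3a_uu (R : ℕ) (hR : 0 < R) (m : ℤ) :
    0 ≤ uu R.primeFactors m ∧ uu R.primeFactors m ≤ (R : ℝ) / (Nat.totient R : ℝ) := by
  constructor
  · exact Finset.prod_nonneg fun l hl => (M3a_gl l (Nat.prime_of_mem_primeFactors hl) m).1
  · rw [← M3a_prod R hR]
    exact Finset.prod_le_prod (fun l hl => (M3a_gl l (Nat.prime_of_mem_primeFactors hl) m).1)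
      (fun l hl => (M3a_gl l (Nat.prime_of_mem_primeFactors hl) m).2)

theorem M3a_uu_nonneg (P : Finset ℕ) (hP : ∀ l ∈ P, l.Prime) (m : ℤ) : 0 ≤ uu P m :=
  Finset.prod_nonneg fun l hl => (M3a_gl l (hP l hl) m).1

theorem M3a_Ph {k : ℕ} (p : Fin k → Ch) (P : Finset ℕ) (hP : ∀ l ∈ P, l.Prime) (h : Fin k → ℕ) (n : ℤ) :
    ‖Ph p P h n‖ ≤ ∏ i, uu P (n + h i) := by
  unfold Ph
  rw [norm_prod]
  apply Finset.prod_le_prod (fun i _ => norm_nonneg _)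
  intro i _
  have h0 := M3a_uu_nonneg P hP (n + h i)
  rw [norm_mul, Complex.norm_real, Real.norm_of_nonneg h0]
  have h1 : ‖cj (p i) (n + h i)‖ ≤ 1 := by
    unfold cj
    rw [RCLike.norm_conj]
    exact DirichletCharacter.norm_le_one _ _
  calc ‖cj (p i) (n + h i)‖ * uu P (n + h i) ≤ 1 * uu P (n + h i) :=
        mul_le_mul_of_nonneg_right h1 h0
    _ = uu P (n + h i) := one_mul _

theorem M3a_tp {k : ℕ} (l : ℕ) (hl : l.Prime) (h : Fin k → ℕ) (n : ℤ) :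
    |Wl l h n| ≤ ((l : ℝ) / ((l : ℝ) - 1)) ^ k ∧ |tp l h| ≤ ((l : ℝ) / ((l : ℝ) - 1)) ^ k ∧
      0 ≤ 1 + tp l h ∧ 1 + tp l h ≤ ((l : ℝ) / ((l : ℝ) - 1)) ^ k := by
  have hc : (1 : ℝ) ≤ ((l : ℝ) / ((l : ℝ) - 1)) ^ k := one_le_pow₀ (M3a_ratio l hl)
  have hp : ∀ m : ℤ, 0 ≤ ∏ i, (1 + gl l (m + h i)) ∧
      ∏ i, (1 + gl l (m + h i)) ≤ ((l : ℝ) / ((l : ℝ) - 1)) ^ k := by
    intro m
    constructor
    · exact Finset.prod_nonneg fun i _ => (M3a_gl l hl _).1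
    · calc ∏ i, (1 + gl l (m + h i)) ≤ ∏ _i : Fin k, ((l : ℝ) / ((l : ℝ) - 1)) :=
          Finset.prod_le_prod (fun i _ => (M3a_gl l hl _).1) (fun i _ => (M3a_gl l hl _).2)
        _ = ((l : ℝ) / ((l : ℝ) - 1)) ^ k := by
          rw [Finset.prod_const, Finset.card_univ, Fintype.card_fin]
  have hl0 : (0 : ℝ) < l := by exact_mod_cast hl.pos
  have htp : 0 ≤ 1 + tp l h ∧ 1 + tp l h ≤ ((l : ℝ) / ((l : ℝ) - 1)) ^ k := by
    unfold tp
    rw [add_sub_cancel]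
    constructor
    · exact div_nonneg (Finset.sum_nonneg fun n _ => (hp n).1) hl0.le
    · rw [div_le_iff₀ hl0]
      calc ∑ n ∈ range l, ∏ i, (1 + gl l ((n : ℤ) + h i))
          ≤ ∑ _n ∈ range l, ((l : ℝ) / ((l : ℝ) - 1)) ^ k :=
            Finset.sum_le_sum fun n _ => (hp n).2
        _ = ((l : ℝ) / ((l : ℝ) - 1)) ^ k * l := by
          rw [Finset.sum_const, Finset.card_range, nsmul_eq_mul, mul_comm]
  refine ⟨?_, ?_, htp.1, htp.2⟩
  · unfold Wl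
    rw [abs_le]
    have := hp n
    constructor <;> linarith [this.1, this.2]
  · rw [abs_le]
    constructor <;> linarith [htp.1, htp.2]

theorem M3a_td {k : ℕ} (d : ℕ) (hd : Squarefree d) (h : Fin k → ℕ) (n : ℤ) :
    |Wd d h n| ≤ ((d : ℝ) / (Nat.totient d : ℝ)) ^ k ∧
      |td d h| ≤ ((d : ℝ) / (Nat.totient d : ℝ)) ^ k := by
  have hd0 : 0 < d := Nat.pos_of_ne_zero hd.ne_zero
  rw [← M3a_prod d hd0, ← Finset.prod_pow]
  constructor
  · unfold Wd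
    rw [Finset.abs_prod]
    exact Finset.prod_le_prod (fun l _ => abs_nonneg _)
      (fun l hl => (M3a_tp l (Nat.prime_of_mem_primeFactors hl) h n).1)
  · unfold td
    rw [Finset.abs_prod]
    exact Finset.prod_le_prod (fun l _ => abs_nonneg _)
      (fun l hl => (M3a_tp l (Nat.prime_of_mem_primeFactors hl) h n).2.1)

end Pool.Agent.Lib.H59P
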