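import Pool.Agent.Lib.H59P.M3D
import Pool.Agent.Lib.H59P.M3B

/-!
# Project H59P, chunk M3e
-/

open Finset

namespace Pool.Agent.Lib.H59P

open Pool.Agent.Lib.H68T Pool.Agent.Lib.H18Q

theorem m3e_per {k : ℕ} (l P : ℕ) (hlP : l ∣ P) (h : Fin k → ℕ) (n : ℤ) :
    Wl l h (n + P) = Wl l h n := by
  obtain ⟨c, rfl⟩ := hlP
  unfold Wl
  congr 1
  apply Finset.prod_congr rfl
  intro i _
  have : n + ((l * c : ℕ) : ℤ) + h i = (n + h i) + (c : ℤ) * l := by push_cast; ring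
  rw [this, gl_per]

theorem m3e_per_prod {k : ℕ} (S : Finset ℕ) (P : ℕ) (hP : ∀ l ∈ S, l ∣ P) (h : Fin k → ℕ) (n : ℤ) :
    ∏ l ∈ S, Wl l h (n + P) = ∏ l ∈ S, Wl l h n :=
  Finset.prod_congr rfl fun l hl => m3e_per l P (hP l hl) h n

theorem m3e_prime {k : ℕ} (l : ℕ) (hl : l.Prime) (h : Fin k → ℕ) :
    ∑ n ∈ range l, Wl l h n = l * tp l h := by
  have hl0 : (l : ℝ) ≠ 0 := by exact_mod_cast hl.pos.ne'
  unfold tp Wl
  rw [Finset.sum_sub_distrib, Finset.sum_const, Finset.card_range, nsmul_eq_mul, mul_one]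
  field_simp

theorem m3e_set {k : ℕ} (h : Fin k → ℕ) (S : Finset ℕ) : (∀ l ∈ S, l.Prime) →
    ∑ n ∈ range (∏ l ∈ S, l), ∏ l ∈ S, Wl l h n = ((∏ l ∈ S, l : ℕ) : ℝ) * ∏ l ∈ S, tp l h := by
  induction S using Finset.induction_on with
  | empty => intro _; simp
  | insert a s ha ih =>
    intro hS
    have hap : a.Prime := hS a (Finset.mem_insert_self _ _)
    have hs : ∀ l ∈ s, l.Prime := fun l hl => hS l (Finset.mem_insert_of_mem hl)
    have hcop : Nat.Coprime a (∏ l ∈ s, l) := by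
      apply Nat.Coprime.prod_right
      intro l hl
      rw [Nat.coprime_primes hap (hs l hl)]
      rintro rfl
      exact ha hl
    have hpos : 0 < ∏ l ∈ s, l := Finset.prod_pos fun l hl => (hs l hl).pos
    have key := M3d (fun n => ((Wl a h n : ℝ) : ℂ)) (fun n => ((∏ l ∈ s, Wl l h n : ℝ) : ℂ)) a
      (∏ l ∈ s, l) hap.pos hpos hcop
      (fun m => by
        show ((Wl a h (m + a) : ℝ) : ℂ) = ((Wl a h m : ℝ) : ℂ)
        rw [m3e_per a a dvd_rfl h m])
      (fun m => by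
        show ((∏ l ∈ s, Wl l h (m + ((∏ l ∈ s, l : ℕ) : ℤ)) : ℝ) : ℂ) = ((∏ l ∈ s, Wl l h m : ℝ) : ℂ)
        rw [m3e_per_prod s _ (fun l hl => Finset.dvd_prod_of_mem _ hl) h m])
    have key' : ∑ n ∈ range (a * ∏ l ∈ s, l), Wl a h n * ∏ l ∈ s, Wl l h n =
        (∑ n ∈ range a, Wl a h n) * ∑ n ∈ range (∏ l ∈ s, l), ∏ l ∈ s, Wl l h n := by
      have : ((∑ n ∈ range (a * ∏ l ∈ s, l), Wl a h n * ∏ l ∈ s, Wl l h n : ℝ) : ℂ) =
          (((∑ n ∈ range a, Wl a h n) * ∑ n ∈ range (∏ l ∈ s, l), ∏ l ∈ s, Wl l h n : ℝ) : ℂ) := by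
        rw [Complex.ofReal_sum, Complex.ofReal_mul, Complex.ofReal_sum, Complex.ofReal_sum]
        rw [← key]
        apply Finset.sum_congr rfl
        intro n _
        rw [Complex.ofReal_mul]
      exact_mod_cast this
    rw [Finset.prod_insert ha, Finset.prod_insert ha]
    have e1 : ∑ n ∈ range (a * ∏ l ∈ s, l), ∏ l ∈ insert a s, Wl l h n =
        ∑ n ∈ range (a * ∏ l ∈ s, l), Wl a h n * ∏ l ∈ s, Wl l h n := by
      apply Finset.sum_congr rfl
      intro n _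
      rw [Finset.prod_insert ha]
    rw [e1, key', ih hs, m3e_prime a hap h, Nat.cast_mul]
    ring

/-- The mean of `Wd d h` modulo `d` is `td d h`.

Proof. Induction over the prime factors with `M3d`; for a prime `l`: `(∑_{n<l} Wl l h n)/l = tp l h`. -/
theorem M3e {k : ℕ} (d : ℕ) (hd : Squarefree d) (h : Fin k → ℕ) :
    ∑ n ∈ range d, Wd d h n = d * td d h := by
  have h1 := m3e_set h d.primeFactors (fun l hl => Nat.prime_of_mem_primeFactors hl)
  rw [Nat.prod_primeFactors_of_squarefree hd] at h1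
  exact h1

end Pool.Agent.Lib.H59P
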