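import Pool.Agent.Lib.H59P.M5A
import Pool.Agent.Lib.H59P.M3F

/-!
# Project H59P, chunk M5_loc
-/

open Finset

namespace Pool.Agent.Lib.H59P

open Pool.Agent.Lib.H68T Pool.Agent.Lib.H18Q

theorem m5b_cj (m : ℤ) : cj p0 m = 1 := by
  unfold cj p0
  have h1 : ((m : ℤ) : ZMod 1) = 1 := Subsingleton.elim _ _
  rw [h1, map_one, map_one]

theorem m5b_ph {k : ℕ} (h : Fin k → ℕ) (n : ℤ) : Ph (fun _ => p0) ∅ h n = 1 := by
  unfold Ph uu
  refine prod_eq_one fun i _ => ?_
  rw [m5b_cj]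
  simp

/-- The mean modulo `R` for the trivial characters. Proof. As `M5`: `M3d` over the prime factors of `R`, the
period `∏_{l ∣ R} l` divides `R`. -/
theorem M5_loc {k : ℕ} (R : ℕ) (hR : 0 < R) (h : Fin k → ℕ) :
    MR (fun _ => p0) R h = ((SS R.primeFactors h : ℝ) : ℂ) := by
  have hp1 : ∀ l ∈ R.primeFactors, l.Prime ∧ ¬ l ∣ 1 := by
    intro l hl
    have h1 := Nat.prime_of_mem_primeFactors hl
    exact ⟨h1, fun h2 => h1.one_lt.ne' (Nat.dvd_one.1 h2)⟩
  have hpos : 0 < ∏ l ∈ R.primeFactors, l := prod_pos fun q hq => (hp1 q hq).1.pos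
  have hPh : ∀ n : ℤ, Ph (fun _ : Fin k => p0) R.primeFactors h n =
      ∏ l ∈ R.primeFactors, m5a_g h l n := by
    intro n
    have h1 := m5a_ph (fun _ : Fin k => p0) ∅ R.primeFactors (disjoint_empty_left _) h n
    rw [empty_union, m5b_ph, one_mul] at h1
    exact h1
  have hmain := m5a_main 1 one_pos (fun _ : Fin k => p0) (fun _ => one_dvd _) h R.primeFactors hp1
  rw [one_mul, Nat.primeFactors_one] at hmain
  have hone : ∑ n ∈ range 1, Ph (fun _ : Fin k => p0) ∅ h n = 1 := by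
    rw [sum_range_one]
    exact m5b_ph h _
  rw [hone, one_mul] at hmain
  have hmain2 : ∑ n ∈ range (∏ l ∈ R.primeFactors, l), Ph (fun _ : Fin k => p0) R.primeFactors h n =
      ∏ l ∈ R.primeFactors, (l * (((1 + tp l h : ℝ)) : ℂ)) := by
    rw [← hmain]
    refine sum_congr rfl fun n _ => ?_
    rw [hPh, m5b_ph, one_mul]
  have hper : ∀ m : ℤ, Ph (fun _ : Fin k => p0) R.primeFactors h (m + (∏ l ∈ R.primeFactors, l : ℕ)) =
      Ph (fun _ : Fin k => p0) R.primeFactors h m := by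
    intro m
    rw [hPh, hPh]
    refine prod_congr rfl fun q hq => ?_
    rw [← mul_prod_erase R.primeFactors (fun t => t) hq]
    exact m5a_g_per' h q _ m
  obtain ⟨j, hj⟩ := Nat.prod_primeFactors_dvd R
  have hj0 : 0 < j := by
    rcases Nat.eq_zero_or_pos j with rfl | h1
    · rw [mul_zero] at hj
      omega
    · exact h1
  have hsum : ∑ n ∈ range R, Ph (fun _ : Fin k => p0) R.primeFactors h n =
      j * ∏ l ∈ R.primeFactors, (l * (((1 + tp l h : ℝ)) : ℂ)) := by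
    have h1 := m5a_full _ _ hper j
    rw [← hj, hmain2] at h1
    exact h1
  have hRc : (R : ℂ) = (∏ l ∈ R.primeFactors, (l : ℂ)) * j := by
    have h1 : ((R : ℕ) : ℂ) = (((∏ l ∈ R.primeFactors, l) * j : ℕ) : ℂ) := by rw [← hj]
    rw [h1]
    push_cast
    rfl
  have hR0 : (R : ℂ) ≠ 0 := by exact_mod_cast hR.ne'
  unfold MR SS
  rw [hsum, prod_mul_distrib, div_eq_iff hR0, hRc]
  push_cast
  ring

end Pool.Agent.Lib.H59P
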