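import Pool.Agent.Lib.H59P.SDefs

/-!
# Project H59P, chunk CF0: coefficients from the model
-/

open Finset

namespace Pool.Agent.Lib.H59P

open Pool.Agent.Lib.H68T Pool.Agent.Lib.H18Q

/-- **CF0.** From `Mdl` with `E0 ≤ 1`: the coefficients `B m p = MX px th m p + e m p` satisfy `Cf` with
`mb p = [p = p0] + [p = px, px ≠ p0] + eb p`.

Proof. `MX` is `1` at `p0`, `-th m` at `px` (`0 ≤ th m ≤ 1 - η ≤ 1`), `0` else, and varies by at most `Q^3/X`
(`Mdl.slow`); `∑ eb ≤ η E0 ≤ 1` (`Finset.sum_ite_eq`). The remaining conclusions are `LevE`. -/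
theorem CF0 (Q X : ℕ) (η E0 : ℝ) (px : Ch) (th : ℤ → ℝ) (hQ : 1 ≤ Q) (hM : Mdl Q X η E0 px th)
    (hE : E0 ≤ 1) :
    ∃ (e : ℤ → Ch → ℂ) (eb mb : Ch → ℝ), (∀ p ∈ PC Q, 0 ≤ eb p) ∧ ∑ p ∈ PC Q, eb p ≤ η * E0 ∧
      (∀ m : ℤ, (X : ℤ) ≤ m → m ≤ 4 * X → ∀ p ∈ PC Q, ‖e m p‖ ≤ eb p) ∧
      Cf Q X (fun m p => MX px th m p + e m p) mb := by
  classical
  have hQ0 : (0 : ℝ) ≤ (Q : ℝ) ^ 3 := by positivity
  obtain ⟨e, eb, heb0, hebs, hlev⟩ := hM.lev
  have hE1 : ∑ p ∈ PC Q, eb p ≤ 1 := by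
    refine hebs.trans ?_
    have h1 := hM.eta_pos
    have h2 := hM.eta_le
    nlinarith
  let ma : Ch → ℝ := fun p => (if p = p0 then 1 else if p = px then 1 else 0)
  have hma0 : ∀ p, 0 ≤ ma p := by
    intro p
    change 0 ≤ (if p = p0 then (1 : ℝ) else if p = px then 1 else 0)
    split_ifs <;> norm_num
  have hMXn : ∀ m : ℤ, (X : ℤ) ≤ m → m ≤ 4 * X → ∀ p, ‖MX px th m p‖ ≤ ma p := by
    intro m h1 h2 p
    change ‖MX px th m p‖ ≤ (if p = p0 then (1 : ℝ) else if p = px then 1 else 0)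
    unfold MX
    split_ifs with h3 h4
    · simp
    · rw [norm_neg, Complex.norm_real, Real.norm_eq_abs, abs_of_nonneg (hM.nonneg m h1 h2)]
      linarith [hM.le m h1 h2, hM.eta_pos]
    · simp
  have hXm : ∀ m : ℤ, (X : ℤ) ≤ m → m + 1 ≤ 4 * X → ∀ p,
      ‖MX px th (m + 1) p - MX px th m p‖ ≤ (Q : ℝ) ^ 3 / X := by
    intro m h1 h2 p
    have h0 : (0 : ℝ) ≤ (Q : ℝ) ^ 3 / X := div_nonneg hQ0 (Nat.cast_nonneg X)
    unfold MX
    split_ifs with h3 h4
    · simpa using h0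
    · have h5 := hM.slow m h1 h2
      rw [neg_sub_neg, ← Complex.ofReal_sub, Complex.norm_real, Real.norm_eq_abs, abs_sub_comm]
      exact h5
    · simpa using h0
  refine ⟨e, eb, fun p => ma p + eb p, heb0, hebs, fun m h1 h2 p hp => ((hlev m h1 h2).2 p hp).1, ?_⟩
  refine ⟨fun p hp => add_nonneg (hma0 p) (heb0 p hp), ?_, ?_, ?_, ?_⟩
  · rw [Finset.sum_add_distrib]
    have h1 : ∑ p ∈ PC Q, ma p ≤ 2 := by
      have h2 : ∀ p, ma p ≤ (if p = p0 then (1 : ℝ) else 0) + (if p = px then (1 : ℝ) else 0) := by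
        intro p
        change (if p = p0 then (1 : ℝ) else if p = px then 1 else 0) ≤ _
        split_ifs <;> norm_num
      refine (Finset.sum_le_sum fun p _ => h2 p).trans ?_
      rw [Finset.sum_add_distrib, Finset.sum_ite_eq', Finset.sum_ite_eq']
      split_ifs <;> norm_num
    linarith
  · intro m h1 h2 p hp
    exact (norm_add_le _ _).trans (add_le_add (hMXn m h1 h2 p) ((hlev m h1 h2).2 p hp).1)
  · intro m h1 h2 p hp
    have h3 := hXm m h1 h2 p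
    have h4 := ((hlev m h1 (by omega)).2 p hp).2
    have h5 : MX px th (m + 1) p + e (m + 1) p - (MX px th m p + e m p) =
        (MX px th (m + 1) p - MX px th m p) + (e (m + 1) p - e m p) := by ring
    rw [h5]
    refine (norm_add_le _ _).trans ?_
    have h6 : 2 * (Q : ℝ) ^ 3 / X = (Q : ℝ) ^ 3 / X + (Q : ℝ) ^ 3 / X := by ring
    rw [h6]
    exact add_le_add h3 h4
  · intro m h1 h2
    exact (hlev m h1 h2).1

end Pool.Agent.Lib.H59P
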