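import Pool.Agent.Lib.H59P.S1
import Pool.Agent.Lib.H18Q.R1
import Pool.Agent.Lib.H68T.PV

/-!
# Project H59P, chunk S2: correlations of the unstructured part
-/

open Finset

namespace Pool.Agent.Lib.H59P

open Pool.Agent.Lib.H68T Pool.Agent.Lib.H18Q

theorem S2_sum_Ico (F : ℤ → ℂ) (s X : ℕ) :
    ∑ m ∈ Ico (s : ℤ) ((s : ℤ) + X), F m = ∑ c ∈ range X, F ((s : ℤ) + c) := by
  symm
  apply Finset.sum_nbij (fun c : ℕ => (s : ℤ) + c)
  · intro c hc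
    rw [mem_range] at hc
    rw [mem_Ico]
    constructor <;> omega
  · intro a _ b _ hab
    simp only at hab
    omega
  · intro m hm
    rw [coe_Ico, Set.mem_Ico] at hm
    refine ⟨(m - s).toNat, ?_, ?_⟩
    · rw [coe_range, Set.mem_Iio]
      omega
    · simp only
      omega
  · intro c _
    rfl

theorem S2_norm_e (x : ℝ) : ‖e x‖ = 1 := by
  unfold e
  rw [Complex.norm_exp]
  simp

/-- **S2.** Proof. `corr_sq_le` (`H68T/PV.lean`) with `M = X`, `u = v = (lp - Lk)(·)` on the natural numbers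
(cast), `D = X Q^(-1/4)` by `fourier_smallP` (`H18Q/R1.lean`; the sum over `[s, s + X)`,
`X ≤ s < 2X`, with the phase shifted: `e((s+c)θ) = e(sθ) e(cθ)`), and
`∑_{l ∈ [X,3X)} (lp - Lk)² ≤ 2 X (log X)^10` by `S1` (windows at `n = X` and `n = 2X`). Total
`X · X² Q^(-1/2) · 2 X (log X)^10 ≤ (X² Q^(-1/4) (log X)^6)²`. -/
theorem S2 : ∃ K : ℝ, 1 ≤ K ∧ ∀ (Q X : ℕ) (B : ℤ → Ch → ℂ) (mb : Ch → ℝ), RegP K Q X → Cf Q X B mb →
    ∑ n ∈ Ico X (2 * X), ∑ n' ∈ Ico X (2 * X),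
      (∑ s ∈ range X, (lp ((n : ℤ) + s) - Lk Q (X / Q ^ 2) ((n : ℤ) + s)) *
        (lp ((n' : ℤ) + s) - Lk Q (X / Q ^ 2) ((n' : ℤ) + s))) ^ 2 ≤
      ((X : ℝ) ^ 2 * (Q : ℝ) ^ (-(1 / 4) : ℝ) * (Real.log X) ^ 6) ^ 2 := by
  obtain ⟨K1, hK1, h1⟩ := S1
  obtain ⟨K2, h2⟩ := fourier_smallP
  refine ⟨max K1 (max K2 2), hK1.trans (le_max_left _ _), fun Q X B mb hR hC => ?_⟩
  have hKpos : (0 : ℝ) ≤ max K1 (max K2 2) := by
    have := le_max_left K1 (max K2 2)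
    linarith
  have hR1 : RegP K1 Q X := hR.mono hKpos (le_max_left _ _)
  have hR2 : RegP K2 Q X := hR.mono hKpos ((le_max_left _ _).trans (le_max_right _ _))
  have hR3 : RegP 2 Q X := hR.mono hKpos ((le_max_right _ _).trans (le_max_right _ _))
  have hL2 : 2 ≤ Real.log X := by
    have := hR3.logX_ge (by norm_num)
    have h3 := Real.add_one_le_exp 2
    linarith
  have hX0 : (0 : ℝ) ≤ X := Nat.cast_nonneg X
  set L := Real.log X with hL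
  set w := (Q : ℝ) ^ (-(1 / 4) : ℝ) with hw
  have hw0 : 0 ≤ w := Real.rpow_nonneg (Nat.cast_nonneg Q) _
  set u : ℕ → ℝ := fun l => lp (l : ℤ) - Lk Q (X / Q ^ 2) (l : ℤ) with hu
  have hD : ∀ s ∈ Ico X (2 * X), ∀ θ : ℝ,
      ‖∑ c ∈ range X, (u (s + c) : ℂ) * e (c * θ)‖ ≤ X * w := by
    intro s hs θ
    rw [mem_Ico] at hs
    have h3 := h2 Q X hR2 θ (s : ℤ) ((s : ℤ) + X) (by omega) (by omega)
    rw [S2_sum_Ico] at h3
    have h4 : ∑ c ∈ range X, ((lp ((s : ℤ) + (c : ℤ)) - Lk Q (X / Q ^ 2) ((s : ℤ) + (c : ℤ)) : ℝ) : ℂ) *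
        e ((((s : ℤ) + (c : ℤ) : ℤ) : ℝ) * θ) =
        e ((s : ℝ) * θ) * ∑ c ∈ range X, (u (s + c) : ℂ) * e (c * θ) := by
      rw [mul_sum]
      refine sum_congr rfl fun c _ => ?_
      have e1 : ((((s : ℤ) + (c : ℤ) : ℤ) : ℝ) * θ) = (s : ℝ) * θ + (c : ℝ) * θ := by
        push_cast
        ring
      rw [e1, PV_e_add, hu]
      push_cast
      ring
    rw [h4, norm_mul, S2_norm_e, one_mul] at h3
    exact h3
  have h5 := corr_sq_le X u u (X * w) hD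
  have hs1 : ∑ l ∈ Ico X (3 * X), u l ^ 2 ≤ 2 * (X * L ^ 10) := by
    have e0 : ∑ l ∈ Ico X (3 * X), u l ^ 2 =
        ∑ l ∈ Ico X (2 * X), u l ^ 2 + ∑ l ∈ Ico (2 * X) (3 * X), u l ^ 2 :=
      (sum_Ico_consecutive _ (by omega) (by omega)).symm
    have e1 : ∑ l ∈ Ico X (2 * X), u l ^ 2 ≤ X * L ^ 10 := by
      have g := (h1 Q X B mb hR1 hC X (by rw [mem_Icc]; omega)).2.2
      rw [sum_Ico_eq_sum_range]
      have e2 : 2 * X - X = X := by omega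
      rw [e2]
      refine le_trans (le_of_eq ?_) g
      refine sum_congr rfl fun s _ => ?_
      rw [hu]
      push_cast
      rfl
    have e3 : ∑ l ∈ Ico (2 * X) (3 * X), u l ^ 2 ≤ X * L ^ 10 := by
      have g := (h1 Q X B mb hR1 hC (2 * X) (by rw [mem_Icc]; omega)).2.2
      rw [sum_Ico_eq_sum_range]
      have e2 : 3 * X - 2 * X = X := by omega
      rw [e2]
      refine le_trans (le_of_eq ?_) g
      refine sum_congr rfl fun s _ => ?_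
      rw [hu]
      push_cast
      rfl
    rw [e0]
    linarith
  have h6 : ∑ n ∈ Ico X (2 * X), ∑ n' ∈ Ico X (2 * X),
      (∑ s ∈ range X, (lp ((n : ℤ) + s) - Lk Q (X / Q ^ 2) ((n : ℤ) + s)) *
        (lp ((n' : ℤ) + s) - Lk Q (X / Q ^ 2) ((n' : ℤ) + s))) ^ 2 =
      ∑ s ∈ Ico X (2 * X), ∑ s' ∈ Ico X (2 * X), (∑ c ∈ range X, u (s + c) * u (s' + c)) ^ 2 := by
    refine sum_congr rfl fun n _ => sum_congr rfl fun n' _ => ?_
    rw [hu]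
    push_cast
    rfl
  rw [h6]
  refine h5.trans ?_
  have h7 : (X : ℝ) * (X * w) ^ 2 * ∑ l ∈ Ico X (3 * X), u l ^ 2 ≤
      (X : ℝ) * (X * w) ^ 2 * (2 * (X * L ^ 10)) :=
    mul_le_mul_of_nonneg_left hs1 (by positivity)
  refine h7.trans ?_
  have h8 : ((X : ℝ) ^ 2 * w * L ^ 6) ^ 2 - (X : ℝ) * (X * w) ^ 2 * (2 * (X * L ^ 10)) =
      (X ^ 2 * w * L ^ 5) ^ 2 * (L ^ 2 - 2) := by ring
  have h9 : 0 ≤ L ^ 2 - 2 := by nlinarith
  have h10 : 0 ≤ ((X : ℝ) ^ 2 * w * L ^ 5) ^ 2 * (L ^ 2 - 2) := mul_nonneg (sq_nonneg _) h9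
  linarith

end Pool.Agent.Lib.H59P
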