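import Pool.Agent.Lib.H59P.SDefs

/-!
# Project H59P, chunk S3: telescoping
-/

open Finset

namespace Pool.Agent.Lib.H59P

open Pool.Agent.Lib.H68T Pool.Agent.Lib.H18Q

/-- Telescoping of a difference of products over `Fin k`.

Proof. Induction on `k` (`Fin.prod_univ_castSucc` or `Fin.prod_univ_succ`), or
`Finset.prod_range`-telescoping: `T_j = ∏_{i<j} b_i ∏_{i≥j} a_i`, `T_0 = ∏ a`, `T_k = ∏ b`. -/
theorem S3 {k : ℕ} (a b : Fin k → ℝ) :
    ∏ i, a i - ∏ i, b i =
      ∑ j, ∏ i, (if i < j then b i else if i = j then a i - b i else a i) := by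
  induction k with
  | zero => simp
  | succ k ih =>
    rw [Fin.sum_univ_succ, Fin.prod_univ_succ a, Fin.prod_univ_succ b]
    have h0 : ∏ i : Fin (k + 1), (if i < 0 then b i else if i = 0 then a i - b i else a i) =
        (a 0 - b 0) * ∏ i : Fin k, a i.succ := by
      rw [Fin.prod_univ_succ]
      simp [Fin.succ_ne_zero]
    have h1 : ∀ j : Fin k, ∏ i : Fin (k + 1),
        (if i < j.succ then b i else if i = j.succ then a i - b i else a i) =
        b 0 * ∏ i : Fin k, (if i < j then b i.succ else if i = j then a i.succ - b i.succ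
          else a i.succ) := by
      intro j
      rw [Fin.prod_univ_succ]
      simp only [Fin.succ_pos, if_true, Fin.succ_lt_succ_iff, Fin.succ_inj]
    rw [h0, Finset.sum_congr rfl fun j _ => h1 j, ← Finset.mul_sum,
      ← ih (fun i => a i.succ) (fun i => b i.succ)]
    ring

end Pool.Agent.Lib.H59P
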