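import Pool.Agent.Lib.H59P.S0
import Pool.Agent.Lib.H59P.S2
import Pool.Agent.Lib.H59P.S3

/-!
# Project H59P, chunk S4: the primes are replaced by the projection, in mean square over the tuples
-/

open Finset

namespace Pool.Agent.Lib.H59P

open Pool.Agent.Lib.H68T Pool.Agent.Lib.H18Q

/-- **S4.** Proof. `S3` for each `n`: `Rh - Rs = ∑_j D_j`, `D_j(h) = ∑_n ∏_i f_{j,i}(n+h_i)`,
`f_{j,i} = Lk` for `i < j`, `lp - Lk` for `i = j`, `lp` for `i > j`. `S0c` with `W i = X (log X)^10` (`S1`),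
`V = X² Q^(-1/4) (log X)^6` (`S2`), `|I| = X`: `∑_h D_j² ≤ X · V · (X (log X)^10)^(k-1)
= X^(k+2) Q^(-1/4) (log X)^(10 k - 4)`. `(∑_j D_j)² ≤ k ∑_j D_j²` and `k² ≤ (log X)^(10 k)`
(`k ≤ 2^k`, `log X ≥ 2`). -/
theorem S4 : ∃ K : ℝ, 1 ≤ K ∧ ∀ (k Q X : ℕ) (B : ℤ → Ch → ℂ) (mb : Ch → ℝ), RegP K Q X → Cf Q X B mb →
    ∑ h ∈ bx k X, (Rh X h - Rs Q X h) ^ 2 ≤
      (X : ℝ) ^ (k + 2) * (Q : ℝ) ^ (-(1 / 4) : ℝ) * (Real.log X) ^ (20 * k) := by
  obtain ⟨K1, hK1, h1⟩ := S1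
  obtain ⟨K2, hK2, h2⟩ := S2
  refine ⟨max (max K1 K2) 100, le_max_of_le_left (le_max_of_le_left hK1), fun k Q X B mb hr hB => ?_⟩
  have hM0 : (0 : ℝ) ≤ max (max K1 K2) 100 := le_max_of_le_right (by norm_num)
  have hr1 : RegP K1 Q X := hr.mono hM0 ((le_max_left _ _).trans (le_max_left _ _))
  have hr2 : RegP K2 Q X := hr.mono hM0 ((le_max_right _ _).trans (le_max_left _ _))
  have hr3 : RegP 100 Q X := hr.mono hM0 (le_max_right _ _)
  have h100 : (0 : ℝ) < 100 := by norm_num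
  set L : ℝ := Real.log X with hLdef
  have hL : (100 : ℝ) ≤ L := by
    have e1 := hr3.logX_ge h100
    have e2 := Real.add_one_le_exp (100 : ℝ)
    linarith
  have hX0 : (0 : ℝ) ≤ X := Nat.cast_nonneg X
  have hQ0 : (0 : ℝ) ≤ (Q : ℝ) ^ (-(1 / 4) : ℝ) := Real.rpow_nonneg (Nat.cast_nonneg Q) _
  set W : ℝ := X * L ^ 10 with hW
  set V : ℝ := (X : ℝ) ^ 2 * (Q : ℝ) ^ (-(1 / 4) : ℝ) * L ^ 6 with hV
  have hW0 : 0 ≤ W := by positivity
  have hV0 : 0 ≤ V := by positivity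
  obtain ⟨f, hf⟩ : ∃ f : Fin k → Fin k → ℤ → ℝ, f = fun j i m =>
    if i < j then Lk Q (X / Q ^ 2) m else if i = j then H68T.lp m - Lk Q (X / Q ^ 2) m else H68T.lp m := ⟨_, rfl⟩
  have hdiff : ∀ h : Fin k → ℕ, Rh X h - Rs Q X h =
      ∑ j, ∑ n ∈ Ico X (2 * X), ∏ i, f j i ((n : ℤ) + h i) := by
    intro h
    unfold Rh Rs
    rw [← Finset.sum_sub_distrib, Finset.sum_comm]
    refine Finset.sum_congr rfl fun n _ => ?_
    rw [S3 (fun i => H68T.lp ((n : ℤ) + h i)) (fun i => Lk Q (X / Q ^ 2) ((n : ℤ) + h i)), hf]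
  have hj : ∀ j : Fin k, ∑ h ∈ bx k X, (∑ n ∈ Ico X (2 * X), ∏ i, f j i ((n : ℤ) + h i)) ^ 2 ≤
      X * V * W ^ (k - 1) := by
    intro j
    have e1 := S0c X (Ico X (2 * X)) (f j) (fun _ => W) j (by
      intro i n hn
      have hn' : n ∈ Icc X (2 * X) := mem_Icc.2 ⟨(mem_Ico.1 hn).1, (mem_Ico.1 hn).2.le⟩
      obtain ⟨g1, g2, g3⟩ := h1 Q X B mb hr1 hB n hn'
      rcases lt_trichotomy i j with hij | hij | hij
      · simp only [hf, if_pos hij]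
        exact g1
      · simp only [hf, if_neg (not_lt.2 hij.symm.le), if_pos hij]
        exact g3
      · simp only [hf, if_neg (not_lt.2 hij.le), if_neg hij.ne']
        exact g2) V hV0 (by
      simp only [hf, lt_irrefl, if_false, if_true]
      exact h2 Q X B mb hr2 hB)
    have hcard : ((Ico X (2 * X)).card : ℝ) = X := by
      rw [Nat.card_Ico]
      congr 1
      omega
    rw [hcard, Finset.prod_const, Finset.card_erase_of_mem (Finset.mem_univ j), Finset.card_univ,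
      Fintype.card_fin] at e1
    exact e1
  have hsum : ∑ h ∈ bx k X, (Rh X h - Rs Q X h) ^ 2 ≤ k * (k * (X * V * W ^ (k - 1))) := by
    calc ∑ h ∈ bx k X, (Rh X h - Rs Q X h) ^ 2
        ≤ ∑ h ∈ bx k X, (k : ℝ) * ∑ j, (∑ n ∈ Ico X (2 * X), ∏ i, f j i ((n : ℤ) + h i)) ^ 2 := by
          refine Finset.sum_le_sum fun h _ => ?_
          rw [hdiff h]
          refine sq_sum_le_card_mul_sum_sq.trans (le_of_eq ?_)
          rw [Finset.card_univ, Fintype.card_fin]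
      _ = (k : ℝ) * ∑ j, ∑ h ∈ bx k X, (∑ n ∈ Ico X (2 * X), ∏ i, f j i ((n : ℤ) + h i)) ^ 2 := by
          rw [← Finset.mul_sum, Finset.sum_comm]
      _ ≤ (k : ℝ) * ∑ _j : Fin k, (X * V * W ^ (k - 1)) :=
          mul_le_mul_of_nonneg_left (Finset.sum_le_sum fun j _ => hj j) (Nat.cast_nonneg k)
      _ = k * (k * (X * V * W ^ (k - 1))) := by
          rw [Finset.sum_const, Finset.card_univ, Fintype.card_fin, nsmul_eq_mul]
  refine hsum.trans ?_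
  rcases Nat.eq_zero_or_pos k with hk | hk
  · rw [hk]
    simp only [Nat.cast_zero, zero_mul]
    positivity
  obtain ⟨m, rfl⟩ : ∃ m, k = m + 1 := ⟨k - 1, by omega⟩
  have hk2 : ((m + 1 : ℕ) : ℝ) ^ 2 ≤ L ^ (m + 1) := by
    have e1 : ((m + 1 : ℕ) : ℝ) ≤ 2 ^ (m + 1) := by
      exact_mod_cast (Nat.lt_two_pow_self (n := m + 1)).le
    calc ((m + 1 : ℕ) : ℝ) ^ 2 ≤ (2 ^ (m + 1)) ^ 2 := pow_le_pow_left₀ (Nat.cast_nonneg _) e1 2
      _ = 4 ^ (m + 1) := by rw [← pow_mul, mul_comm, pow_mul]; norm_num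
      _ ≤ L ^ (m + 1) := pow_le_pow_left₀ (by norm_num) (by linarith) _
  have hL1 : (1 : ℝ) ≤ L := by linarith
  calc ((m + 1 : ℕ) : ℝ) * (((m + 1 : ℕ) : ℝ) * (X * V * W ^ (m + 1 - 1)))
      = (X : ℝ) ^ (m + 1 + 2) * (Q : ℝ) ^ (-(1 / 4) : ℝ) * (((m + 1 : ℕ) : ℝ) ^ 2 * L ^ (10 * m + 6)) := by
        rw [Nat.add_sub_cancel, hW, hV, mul_pow, ← pow_mul]
        ring
    _ ≤ (X : ℝ) ^ (m + 1 + 2) * (Q : ℝ) ^ (-(1 / 4) : ℝ) * L ^ (20 * (m + 1)) := by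
        refine mul_le_mul_of_nonneg_left ?_ (by positivity)
        calc ((m + 1 : ℕ) : ℝ) ^ 2 * L ^ (10 * m + 6) ≤ L ^ (m + 1) * L ^ (10 * m + 6) :=
              mul_le_mul_of_nonneg_right hk2 (by positivity)
          _ = L ^ (m + 1 + (10 * m + 6)) := by rw [← pow_add]
          _ ≤ L ^ (20 * (m + 1)) := pow_le_pow_right₀ hL1 (by omega)

end Pool.Agent.Lib.H59P
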