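import Pool.Agent.Lib.H59P.Z3A
import Pool.Agent.Lib.H59P.Z1A
import Pool.Agent.Lib.H59P.CF0
import Pool.Agent.Lib.H59P.C3

/-!
# Project H59P, chunk Z3
-/

open Finset

namespace Pool.Agent.Lib.H59P

open Pool.Agent.Lib.H68T Pool.Agent.Lib.H18Q

/-- **Z3.** Proof. For each `j` the arguments `X + jH + bs H (h i)` are in `[X, 4X]`; with `c_i` the coefficients
there, `Z3a` and `C3` (`th_i = th (X + jH + bs H (h i))`, `MX px th m p = MX px (fun _ => th m) 0 p`) give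
`Re (MC) ≥ PM/2 - (6(1+log Q))^k τ ≥ m/2 - …` (`hm`); sum over `j < Q^8`, times `H`; `H Q^8 = X`. -/
theorem Z3 {k : ℕ} (Q X H : ℕ) (hQ : 1 ≤ Q) (hX : X = H * Q ^ 8) (hX0 : 0 < X) (η E0 : ℝ) (px : Ch)
    (th : ℤ → ℝ) (hM : Mdl Q X η E0 px th) (hE0 : 0 ≤ E0) (hE1 : E0 ≤ 1) (hE : 4 * k * E0 ≤ 1)
    (hcond : px.1 ≤ Nat.sqrt (Nat.sqrt Q))
    (e : ℤ → Ch → ℂ) (eb mb : Ch → ℝ) (heb : ∑ p ∈ PC Q, eb p ≤ η * E0)
    (he : ∀ m : ℤ, (X : ℤ) ≤ m → m ≤ 4 * X → ∀ p ∈ PC Q, ‖e m p‖ ≤ eb p)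
    (hcf : Cf Q X (fun m p => MX px th m p + e m p) mb)
    (h : Fin k → ℕ) (hh : h ∈ bx k X) (τ m : ℝ)
    (hτ : ∀ R : ℕ, 1 ≤ R → R ≤ Nat.sqrt (Nat.sqrt Q) →
      |∑ d ∈ SF (Nat.sqrt Q / R) R, td d h - SS ((pr Q).filter (fun l => ¬ l ∣ R)) h| ≤ τ)
    (hm : ∀ th' : Fin k → ℝ, (∀ i, 0 ≤ th' i) → (∀ i, th' i ≤ 1 - η) → (px = p0 → ∀ i, th' i = 0) →
      m ≤ PM Q px th' h) :
    X * (m / 2 - (6 * (1 + Real.log Q)) ^ k * τ) ≤
      (MT Q X H px (fun m p => MX px th m p + e m p) h).re := by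
  have hXr : (X : ℝ) = H * (Q : ℝ) ^ 8 := by
    rw [hX]
    push_cast
    ring
  have hhi : ∀ i, h i < X := by
    intro i
    have := Fintype.mem_piFinset.1 hh i
    exact Finset.mem_range.1 this
  have hbsle : ∀ m : ℕ, bs H m ≤ m := fun m => Nat.div_mul_le_self m H
  have harg : ∀ j ∈ range (Q ^ 8), ∀ i : Fin k,
      (X : ℤ) ≤ ((X + j * H + bs H (h i) : ℕ) : ℤ) ∧ ((X + j * H + bs H (h i) : ℕ) : ℤ) ≤ 4 * X := by
    intro j hj i
    have h1 := hbsle (h i)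
    have h2 := hhi i
    have h3 : j * H ≤ X := by
      rw [hX, mul_comm]
      exact Nat.mul_le_mul_left _ (Finset.mem_range.1 hj).le
    constructor <;> omega
  have hcell : ∀ j ∈ range (Q ^ 8), m / 2 - (6 * (1 + Real.log Q)) ^ k * τ ≤
      (MC Q px (fun i => (fun m p => MX px th m p + e m p) (((X + j * H + bs H (h i) : ℕ) : ℤ))) h).re := by
    intro j hj
    set a : Fin k → ℤ := fun i => ((X + j * H + bs H (h i) : ℕ) : ℤ) with ha
    have ha1 : ∀ i, (X : ℤ) ≤ a i := fun i => (harg j hj i).1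
    have ha2 : ∀ i, a i ≤ 4 * X := fun i => (harg j hj i).2
    have hc : ∀ i, ∑ p ∈ PC Q, ‖MX px th (a i) p + e (a i) p‖ ≤ 3 := fun i =>
      (Finset.sum_le_sum fun p hp => hcf.le (a i) (ha1 i) (ha2 i) p hp).trans hcf.sum
    have z1 := Z3a Q hQ px hM.mem (fun i p => MX px th (a i) p + e (a i) p) hc h τ hτ
    have z2 := C3 Q (Nat.sqrt (Nat.sqrt Q)) hQ η E0 px hM.mem hM.real hcond hM.eta_pos hE0 hE
      (fun i => th (a i)) (fun i => hM.nonneg _ (ha1 i) (ha2 i)) (fun i => hM.le _ (ha1 i) (ha2 i))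
      (fun h0 i => hM.triv h0 _) (fun i => e (a i))
      (fun i => (Finset.sum_le_sum fun p hp => he (a i) (ha1 i) (ha2 i) p hp).trans heb) h
    have z3 := hm (fun i => th (a i)) (fun i => hM.nonneg _ (ha1 i) (ha2 i))
      (fun i => hM.le _ (ha1 i) (ha2 i)) (fun h0 i => hM.triv h0 _)
    have hS : ∑ p ∈ TS k Q (Nat.sqrt (Nat.sqrt Q)) px,
        (∏ i, (MX px (fun _ => th (a i)) 0 (p i) + e (a i) (p i))) * MQ Q p h =
        ∑ p ∈ TS k Q (Nat.sqrt (Nat.sqrt Q)) px,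
        (∏ i, (MX px th (a i) (p i) + e (a i) (p i))) * MQ Q p h := rfl
    rw [hS] at z2
    set S : ℂ := ∑ p ∈ TS k Q (Nat.sqrt (Nat.sqrt Q)) px,
        (∏ i, (MX px th (a i) (p i) + e (a i) (p i))) * MQ Q p h with hSdef
    set P : ℝ := PM Q px (fun i => th (a i)) h with hP
    have y2 : -(1 / 2 * P) ≤ (S - ((P : ℝ) : ℂ)).re := by
      have := (Complex.abs_re_le_norm (S - ((P : ℝ) : ℂ))).trans z2
      exact (abs_le.1 this).1
    rw [Complex.sub_re, Complex.ofReal_re] at y2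
    have y1 := (abs_le.1 ((Complex.abs_re_le_norm _).trans z1)).1
    rw [Complex.sub_re] at y1
    have y3 : MC Q px (fun i => (fun m p => MX px th m p + e m p) (a i)) h =
        MC Q px (fun i p => MX px th (a i) p + e (a i) p) h := rfl
    rw [y3]
    linarith
  unfold MT
  rw [Complex.re_sum]
  have hterm : ∀ j ∈ range (Q ^ 8), (H : ℝ) * (m / 2 - (6 * (1 + Real.log Q)) ^ k * τ) ≤
      ((H : ℂ) * MC Q px (fun i => (fun m p => MX px th m p + e m p)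
        (((X + j * H + bs H (h i) : ℕ) : ℤ))) h).re := by
    intro j hj
    have e1 : ((H : ℂ) * MC Q px (fun i => (fun m p => MX px th m p + e m p)
        (((X + j * H + bs H (h i) : ℕ) : ℤ))) h).re = (H : ℝ) * (MC Q px (fun i => (fun m p => MX px th m p + e m p)
        (((X + j * H + bs H (h i) : ℕ) : ℤ))) h).re := by
      rw [Complex.mul_re]
      simp
    rw [e1]
    exact mul_le_mul_of_nonneg_left (hcell j hj) (Nat.cast_nonneg H)
  calc (X : ℝ) * (m / 2 - (6 * (1 + Real.log Q)) ^ k * τ)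
      = ∑ _j ∈ range (Q ^ 8), (H : ℝ) * (m / 2 - (6 * (1 + Real.log Q)) ^ k * τ) := by
        rw [Finset.sum_const, Finset.card_range, nsmul_eq_mul, hXr]
        push_cast
        ring
    _ ≤ _ := Finset.sum_le_sum hterm

end Pool.Agent.Lib.H59P
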