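import Pool.Agent.Lib.H59P.MDefs

/-!
# Project H59P, chunk M1a
-/

open Finset

namespace Pool.Agent.Lib.H59P

open Pool.Agent.Lib.H68T Pool.Agent.Lib.H18Q

theorem m1a_sum {R : Type*} [CommRing R] (b : ℕ → R) (d : ℕ) (hd : Squarefree d) :
    ∑ q ∈ d.divisors, ∏ l ∈ q.primeFactors, b l = ∏ l ∈ d.primeFactors, (1 + b l) := by
  have h := ArithmeticFunction.IsMultiplicative.prodPrimeFactors_one_add_of_squarefree
    (ArithmeticFunction.IsMultiplicative.prodPrimeFactors b) hd
  have h1 : ∏ p ∈ d.primeFactors, (1 + ArithmeticFunction.prodPrimeFactors b p) =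
      ∏ l ∈ d.primeFactors, (1 + b l) := by
    refine Finset.prod_congr rfl fun l hl => ?_
    have hp := Nat.prime_of_mem_primeFactors hl
    rw [ArithmeticFunction.prodPrimeFactors_apply hp.ne_zero, hp.primeFactors,
      Finset.prod_singleton]
  rw [← h1, h]
  refine Finset.sum_congr rfl fun q hq => ?_
  rw [ArithmeticFunction.prodPrimeFactors_apply (Nat.pos_of_mem_divisors hq).ne']

theorem m1a_filter {k : ℕ} (d e : ℕ) (hd : d ≠ 0) (he : e ∣ d) :
    (Fintype.piFinset fun _ : Fin k => d.divisors).filter (fun κ => univ.lcm κ = e) =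
    (Fintype.piFinset fun _ : Fin k => e.divisors).filter (fun κ => univ.lcm κ = e) := by
  have he0 : e ≠ 0 := fun h => hd (by rw [h] at he; exact zero_dvd_iff.1 he)
  ext κ
  simp only [Finset.mem_filter, Fintype.mem_piFinset, Nat.mem_divisors]
  constructor
  · rintro ⟨-, h⟩
    exact ⟨fun i => ⟨h ▸ Finset.dvd_lcm (Finset.mem_univ i), he0⟩, h⟩
  · rintro ⟨h1, h⟩
    exact ⟨fun i => ⟨(h1 i).1.trans he, hd⟩, h⟩

/-- The tuples `κ` of divisors of a squarefree `d` with least common multiple `d`.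

Proof. Let `P = d.primeFactors`. `κ ↦ (l ↦ {i | l ∣ κ_i})` is a bijection from the tuples of divisors
of `d` with `lcm κ = d` to the functions `B` on `P` with values in the nonempty subsets of `Fin k` (inverse:
`κ_i = ∏_{l ∈ P, i ∈ B_l} l`), and `∏_i ∏_{l ∣ κ_i} a l i = ∏_{l ∈ P} ∏_{i ∈ B_l} a l i`. Sum:
`∏_{l ∈ P} ∑_{B ≠ ∅} ∏_{i ∈ B} a l i = ∏_{l ∈ P} (∏_i (1 + a l i) - 1)` (`Finset.prod_one_add`,
`Finset.prod_univ_sum` / `Finset.prod_sum`).
Or by strong induction on `d`: summing both sides over the divisors of `d` gives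
`∏_i ∑_{q ∣ d} ∏_{l ∣ q} a l i = ∏_i ∏_{l ∣ d} (1 + a l i)` on both sides
(`Finset.sum_fiberwise_of_maps_to` for `κ ↦ lcm κ`). -/
theorem M1a {k : ℕ} (a : ℕ → Fin k → ℂ) (d : ℕ) (hd : Squarefree d) :
    ∑ κ ∈ (Fintype.piFinset fun _ : Fin k => d.divisors).filter (fun κ => univ.lcm κ = d),
      ∏ i, ∏ l ∈ (κ i).primeFactors, a l i =
    ∏ l ∈ d.primeFactors, (∏ i, (1 + a l i) - 1) := by
  induction d using Nat.strong_induction_on with
  | _ d ih =>
    have hd0 : d ≠ 0 := hd.ne_zero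
    have hA : ∑ e ∈ d.divisors,
        (∑ κ ∈ (Fintype.piFinset fun _ : Fin k => e.divisors).filter (fun κ => univ.lcm κ = e),
          ∏ i, ∏ l ∈ (κ i).primeFactors, a l i) =
        ∏ i, ∏ l ∈ d.primeFactors, (1 + a l i) := by
      have h1 : ∑ κ ∈ (Fintype.piFinset fun _ : Fin k => d.divisors),
          ∏ i, ∏ l ∈ (κ i).primeFactors, a l i = ∏ i, ∏ l ∈ d.primeFactors, (1 + a l i) := by
        rw [← Finset.prod_univ_sum (fun _ : Fin k => d.divisors)
          (fun i q => ∏ l ∈ q.primeFactors, a l i)]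
        exact Finset.prod_congr rfl fun i _ => m1a_sum (fun l => a l i) d hd
      rw [← h1, ← Finset.sum_fiberwise_of_maps_to (s := Fintype.piFinset fun _ : Fin k => d.divisors)
        (t := d.divisors) (g := fun κ => univ.lcm κ)]
      · refine Finset.sum_congr rfl fun e he => ?_
        rw [m1a_filter d e hd0 (Nat.dvd_of_mem_divisors he)]
      · intro κ hκ
        rw [Fintype.mem_piFinset] at hκ
        rw [Nat.mem_divisors]
        exact ⟨Finset.lcm_dvd fun i _ => Nat.dvd_of_mem_divisors (hκ i), hd0⟩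
    have hB : ∑ e ∈ d.divisors, ∏ l ∈ e.primeFactors, (∏ i, (1 + a l i) - 1) =
        ∏ i, ∏ l ∈ d.primeFactors, (1 + a l i) := by
      rw [m1a_sum (fun l => ∏ i, (1 + a l i) - 1) d hd, Finset.prod_comm]
      refine Finset.prod_congr rfl fun l _ => ?_
      ring
    have hC := hA.trans hB.symm
    rw [← Nat.insert_self_properDivisors hd0, Finset.sum_insert Nat.self_notMem_properDivisors,
      Finset.sum_insert Nat.self_notMem_properDivisors] at hC
    have hD : ∑ e ∈ d.properDivisors,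
        (∑ κ ∈ (Fintype.piFinset fun _ : Fin k => e.divisors).filter (fun κ => univ.lcm κ = e),
          ∏ i, ∏ l ∈ (κ i).primeFactors, a l i) =
        ∑ e ∈ d.properDivisors, ∏ l ∈ e.primeFactors, (∏ i, (1 + a l i) - 1) := by
      refine Finset.sum_congr rfl fun e he => ?_
      rw [Nat.mem_properDivisors] at he
      exact ih e he.2 (hd.squarefree_of_dvd he.1)
    rw [hD] at hC
    exact add_right_cancel hC

end Pool.Agent.Lib.H59P
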