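import Pool.Agent.Lib.H59P.M2C

/-!
# Project H59P, chunk M2d: splitting the tuples into the part dividing R and the part coprime to R
-/

open Finset

namespace Pool.Agent.Lib.H59P

open Pool.Agent.Lib.H68T Pool.Agent.Lib.H18Q

theorem m2d_mem_KS {Q r k : ℕ} : k ∈ KS Q r ↔ (1 ≤ k ∧ k ≤ Q / r) ∧ Squarefree k ∧ Nat.Coprime k r := by
  unfold KS
  rw [mem_filter, mem_Icc]

theorem m2d_mem_SF {D R d : ℕ} : d ∈ SF D R ↔ (1 ≤ d ∧ d ≤ D) ∧ Squarefree d ∧ Nat.Coprime d R := by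
  unfold SF
  rw [mem_filter, mem_Icc]

theorem m2d_mem_SD {R r s : ℕ} : s ∈ SD R r ↔ (s ∣ R ∧ R ≠ 0) ∧ Squarefree s ∧ Nat.Coprime s r := by
  unfold SD
  rw [mem_filter, Nat.mem_divisors]

theorem m2d_lcm_dvd_prod {k : ℕ} (d : Fin k → ℕ) : univ.lcm d ∣ ∏ i, d i :=
  Finset.lcm_dvd (fun i _ => Finset.dvd_prod_of_mem d (mem_univ i))

theorem m2d_lcm_pos {k : ℕ} (d : Fin k → ℕ) (h : ∀ i, 0 < d i) : 0 < univ.lcm d :=
  Nat.pos_of_dvd_of_pos (m2d_lcm_dvd_prod d) (Finset.prod_pos (fun i _ => h i))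

theorem m2d_lcm_coprime {k : ℕ} (R : ℕ) (d : Fin k → ℕ) (h : ∀ i, Nat.Coprime (d i) R) :
    Nat.Coprime R (univ.lcm d) := by
  refine Nat.Coprime.coprime_dvd_right (m2d_lcm_dvd_prod d) ?_
  exact Nat.Coprime.prod_right (fun i _ => (h i).symm)

theorem m2d_dvd_lcm {k : ℕ} (d : Fin k → ℕ) (i : Fin k) : d i ∣ univ.lcm d :=
  Finset.dvd_lcm (mem_univ i)

/-- **M2d.** For a common multiple `R > 0` of the `r_i ≥ 1`, `D ≤ Q`.

Proof. If `D < R` both sides are `0`: `lcm(R, …) ≥ R > D`, and on the right `D / R = 0`, `SF 0 R = ∅`, and a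
tuple in `piFinset` of the empty set does not exist for `k ≥ 1` (for `k = 0` the least common multiple of
the empty tuple is `1 > 0 = D / R`). Else: bijection `κ ↦ (s, d)`, `s_i = gcd(κ_i, R)`, `d_i = κ_i / s_i`, onto
the product of the two sets (`Finset.sum_nbij'`, after writing the right side as a sum over a product:
`Finset.prod_univ_sum`, `Finset.sum_mul_sum`, `Finset.sum_product'`). `κ_i` is squarefree, so `s_i` is a
squarefree divisor of `R` coprime to `r_i`, `d_i` is squarefree and coprime to `R` and `s_i`; and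
`lcm(R, κ_1, …, κ_k) = R lcm(d_1, …, d_k)` (`κ_i ∣ R lcm(d)` since `s_i ∣ R`, and `R`, `lcm(d)` are coprime and
both divide the left side), so the condition is `lcm(d) ≤ D / R`; in particular `d_i ≤ D/R`. Conversely for
`s_i ∈ SD R r_i`, `d_i ∈ SF (D/R) R` with `lcm(d) ≤ D/R` the number `κ_i = s_i d_i` is squarefree, coprime to
`r_i` (`d_i` is coprime to `R`, hence to `r_i`) and at most `Q / r_i`: `r_i s_i ∣ R` (coprime divisors), so
`r_i κ_i ≤ R d_i ≤ D ≤ Q`; and `gcd(s_i d_i, R) = s_i`. The prime factors of `κ_i` are the disjoint union of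
those of `s_i` and `d_i` (`Nat.Coprime.primeFactors_mul`, `Finset.prod_union`). -/
theorem M2d {k : ℕ} (a : ℕ → Fin k → ℂ) (Q D R : ℕ) (hDQ : D ≤ Q) (hR : 0 < R) (r : Fin k → ℕ)
    (hr : ∀ i, 1 ≤ r i) (hd : ∀ i, r i ∣ R) :
    ∑ κ ∈ (Fintype.piFinset fun i => KS Q (r i)).filter (fun κ => R.lcm (univ.lcm κ) ≤ D),
      ∏ i, ∏ l ∈ (κ i).primeFactors, a l i =
    (∏ i, ∑ s ∈ SD R (r i), ∏ l ∈ s.primeFactors, a l i) *
      ∑ κ ∈ (Fintype.piFinset fun _ : Fin k => SF (D / R) R).filter (fun κ => univ.lcm κ ≤ D / R),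
        ∏ i, ∏ l ∈ (κ i).primeFactors, a l i := by
  classical
  rw [Finset.prod_univ_sum, Finset.sum_mul_sum, ← Finset.sum_product']
  refine Finset.sum_bij'
    (i := fun (κ : Fin k → ℕ) _ => ((fun i => Nat.gcd (κ i) R, fun i => κ i / Nat.gcd (κ i) R) :
      (Fin k → ℕ) × (Fin k → ℕ)))
    (j := fun (x : (Fin k → ℕ) × (Fin k → ℕ)) _ => (fun i => x.1 i * x.2 i : Fin k → ℕ))
    ?_ ?_ ?_ ?_ ?_
  · intro κ hκ
    rw [mem_filter, Fintype.mem_piFinset] at hκ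
    obtain ⟨hκ1, hκ2⟩ := hκ
    have hκ3 : ∀ i, (1 ≤ κ i ∧ κ i ≤ Q / r i) ∧ Squarefree (κ i) ∧ Nat.Coprime (κ i) (r i) :=
      fun i => m2d_mem_KS.mp (hκ1 i)
    have hmul : ∀ i, Nat.gcd (κ i) R * (κ i / Nat.gcd (κ i) R) = κ i :=
      fun i => Nat.mul_div_cancel' (Nat.gcd_dvd_left _ _)
    have hgpos : ∀ i, 0 < Nat.gcd (κ i) R := fun i => Nat.gcd_pos_of_pos_right _ hR
    have hdsq : ∀ i, Squarefree (κ i / Nat.gcd (κ i) R) := fun i =>
      Squarefree.squarefree_of_dvd (Nat.div_dvd_of_dvd (Nat.gcd_dvd_left _ _)) (hκ3 i).2.1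
    have hdpos : ∀ i, 0 < κ i / Nat.gcd (κ i) R := fun i => Nat.pos_of_ne_zero (hdsq i).ne_zero
    have hcop : ∀ i, Nat.Coprime (Nat.gcd (κ i) R) (κ i / Nat.gcd (κ i) R) := fun i => by
      refine Nat.coprime_of_squarefree_mul ?_
      rw [hmul i]
      exact (hκ3 i).2.1
    have hdR : ∀ i, Nat.Coprime (κ i / Nat.gcd (κ i) R) R := fun i => by
      have h1 : Nat.gcd (κ i / Nat.gcd (κ i) R) R ∣ Nat.gcd (κ i) R :=
        Nat.dvd_gcd ((Nat.gcd_dvd_left _ _).trans (Nat.div_dvd_of_dvd (Nat.gcd_dvd_left _ _)))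
          (Nat.gcd_dvd_right _ _)
      have h2 := Nat.Coprime.coprime_dvd_left h1 (hcop i)
      have h3 : Nat.gcd (κ i / Nat.gcd (κ i) R) R ∣ κ i / Nat.gcd (κ i) R := Nat.gcd_dvd_left _ _
      exact Nat.Coprime.eq_one_of_dvd h2 h3
    have hle : univ.lcm (fun i => κ i / Nat.gcd (κ i) R) ≤ D / R := by
      rw [Nat.le_div_iff_mul_le hR]
      have h1 : R * univ.lcm (fun i => κ i / Nat.gcd (κ i) R) ∣ R.lcm (univ.lcm κ) := by
        refine Nat.Coprime.mul_dvd_of_dvd_of_dvd (m2d_lcm_coprime R _ hdR) (Nat.dvd_lcm_left _ _) ?_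
        refine Dvd.dvd.trans ?_ (Nat.dvd_lcm_right R (univ.lcm κ))
        refine Finset.lcm_dvd (fun i _ => ?_)
        exact (Nat.div_dvd_of_dvd (Nat.gcd_dvd_left _ _)).trans (m2d_dvd_lcm κ i)
      have h2 : 0 < R.lcm (univ.lcm κ) :=
        Nat.lcm_pos hR (m2d_lcm_pos κ (fun i => (hκ3 i).1.1))
      calc univ.lcm (fun i => κ i / Nat.gcd (κ i) R) * R
          = R * univ.lcm (fun i => κ i / Nat.gcd (κ i) R) := mul_comm _ _
        _ ≤ R.lcm (univ.lcm κ) := Nat.le_of_dvd h2 h1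
        _ ≤ D := hκ2
    rw [mem_product, mem_filter, Fintype.mem_piFinset, Fintype.mem_piFinset]
    refine ⟨fun i => m2d_mem_SD.mpr ⟨⟨Nat.gcd_dvd_right _ _, hR.ne'⟩, ?_, ?_⟩,
      fun i => m2d_mem_SF.mpr ⟨⟨hdpos i, ?_⟩, hdsq i, hdR i⟩, hle⟩
    · exact Squarefree.squarefree_of_dvd (Nat.gcd_dvd_left _ _) (hκ3 i).2.1
    · exact Nat.Coprime.coprime_dvd_left (Nat.gcd_dvd_left _ _) (hκ3 i).2.2
    · exact (Nat.le_of_dvd (m2d_lcm_pos _ hdpos)
        (m2d_dvd_lcm (fun i => κ i / Nat.gcd (κ i) R) i)).trans hle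
  · rintro ⟨s, d⟩ hx
    rw [mem_product, mem_filter, Fintype.mem_piFinset, Fintype.mem_piFinset] at hx
    obtain ⟨hs, hd1, hd2⟩ := hx
    dsimp only at hs hd1 hd2
    have hs3 := fun i => m2d_mem_SD.mp (hs i)
    have hd3 := fun i => m2d_mem_SF.mp (hd1 i)
    have hspos : ∀ i, 0 < s i := fun i => Nat.pos_of_dvd_of_pos (hs3 i).1.1 hR
    have hsd : ∀ i, Nat.Coprime (s i) (d i) := fun i =>
      (Nat.Coprime.coprime_dvd_right (hs3 i).1.1 (hd3 i).2.2).symm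
    have hRD : R * (D / R) ≤ D := Nat.mul_div_le D R
    rw [mem_filter, Fintype.mem_piFinset]
    refine ⟨fun i => m2d_mem_KS.mpr ⟨⟨Nat.mul_pos (hspos i) (hd3 i).1.1, ?_⟩, ?_, ?_⟩, ?_⟩
    · rw [Nat.le_div_iff_mul_le (hr i)]
      have h1 : r i * s i ∣ R :=
        Nat.Coprime.mul_dvd_of_dvd_of_dvd (hs3 i).2.2.symm (hd i) (hs3 i).1.1
      have h2 : r i * s i ≤ R := Nat.le_of_dvd hR h1
      calc s i * d i * r i = (r i * s i) * d i := by ring
        _ ≤ R * (D / R) := Nat.mul_le_mul h2 (hd3 i).1.2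
        _ ≤ D := hRD
        _ ≤ Q := hDQ
    · exact (Nat.squarefree_mul (hsd i)).mpr ⟨(hs3 i).2.1, (hd3 i).2.1⟩
    · exact Nat.Coprime.mul_left (hs3 i).2.2 (Nat.Coprime.coprime_dvd_right (hd i) (hd3 i).2.2)
    · have h1 : R.lcm (univ.lcm (fun i => s i * d i)) ∣ R * univ.lcm d := by
        refine Nat.lcm_dvd (Dvd.intro _ rfl) (Finset.lcm_dvd (fun i _ => ?_))
        exact Nat.mul_dvd_mul (hs3 i).1.1 (m2d_dvd_lcm d i)
      have h2 : 0 < R * univ.lcm d := Nat.mul_pos hR (m2d_lcm_pos d (fun i => (hd3 i).1.1))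
      calc R.lcm (univ.lcm (fun i => s i * d i)) ≤ R * univ.lcm d := Nat.le_of_dvd h2 h1
        _ ≤ R * (D / R) := Nat.mul_le_mul le_rfl hd2
        _ ≤ D := hRD
  · intro κ _
    funext i
    exact Nat.mul_div_cancel' (Nat.gcd_dvd_left _ _)
  · rintro ⟨s, d⟩ hx
    rw [mem_product, mem_filter, Fintype.mem_piFinset, Fintype.mem_piFinset] at hx
    obtain ⟨hs, hd1, hd2⟩ := hx
    dsimp only at hs hd1 hd2
    have hs3 := fun i => m2d_mem_SD.mp (hs i)
    have hd3 := fun i => m2d_mem_SF.mp (hd1 i)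
    have hg : ∀ i, Nat.gcd (s i * d i) R = s i := fun i => by
      rw [Nat.Coprime.gcd_mul_right_cancel (s i) (hd3 i).2.2]
      exact Nat.gcd_eq_left (hs3 i).1.1
    have hspos : ∀ i, 0 < s i := fun i => Nat.pos_of_dvd_of_pos (hs3 i).1.1 hR
    refine Prod.ext ?_ ?_
    · funext i
      exact hg i
    · funext i
      show s i * d i / Nat.gcd (s i * d i) R = d i
      rw [hg i]
      exact Nat.mul_div_cancel_left _ (hspos i)
  · intro κ hκ
    rw [mem_filter, Fintype.mem_piFinset] at hκ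
    have hκ3 : ∀ i, (1 ≤ κ i ∧ κ i ≤ Q / r i) ∧ Squarefree (κ i) ∧ Nat.Coprime (κ i) (r i) :=
      fun i => m2d_mem_KS.mp (hκ.1 i)
    rw [← Finset.prod_mul_distrib]
    refine Finset.prod_congr rfl (fun i _ => ?_)
    have hmul : Nat.gcd (κ i) R * (κ i / Nat.gcd (κ i) R) = κ i :=
      Nat.mul_div_cancel' (Nat.gcd_dvd_left _ _)
    have hcop : Nat.Coprime (Nat.gcd (κ i) R) (κ i / Nat.gcd (κ i) R) := by
      refine Nat.coprime_of_squarefree_mul ?_
      rw [hmul]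
      exact (hκ3 i).2.1
    have h1 : (κ i).primeFactors = (Nat.gcd (κ i) R).primeFactors ∪ (κ i / Nat.gcd (κ i) R).primeFactors := by
      have h2 := Nat.Coprime.primeFactors_mul hcop
      rw [hmul] at h2
      exact h2
    show ∏ l ∈ (κ i).primeFactors, a l i = (∏ l ∈ (Nat.gcd (κ i) R).primeFactors, a l i) *
      ∏ l ∈ (κ i / Nat.gcd (κ i) R).primeFactors, a l i
    rw [h1, Finset.prod_union hcop.disjoint_primeFactors]

end Pool.Agent.Lib.H59P
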