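import Pool.Agent.Lib.H59P.M1
import Pool.Agent.Lib.H59P.M2B
import Pool.Agent.Lib.H59P.M2D

/-!
# Project H59P, chunk M2: the part of the product with bounded least common multiple
-/

open Finset

namespace Pool.Agent.Lib.H59P

open Pool.Agent.Lib.H68T Pool.Agent.Lib.H18Q

/-- **M2.** The part of the product of the components with `lcm(R, κ_1, …, κ_k) ≤ D`, for a common multiple
`R` of the conductors.

Proof. `gk p κ m = (r/φ(r)) conj χ(m) ∏_{l ∣ κ} gl l m` for squarefree `κ` (`M2a`; definition of `gk`). So the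
left side is `∏_i (r_i/φ(r_i)) conj χ_i(n+h_i)` times the left side of `M2d` with `a l i = gl l (n + h_i)`
(`Finset.mul_sum`); then `M2c` for each `i`, `M2b` for each `i`, and `M1` for the second factor
(`D / R` for `E`); `Wd d h n = ∏_{l ∣ d} (∏_i (1 + gl l (n+h_i)) - 1)`. -/
theorem M2 {k : ℕ} (Q D R : ℕ) (hDQ : D ≤ Q) (hR : 0 < R) (p : Fin k → Ch) (hp : ∀ i, p i ∈ PC Q)
    (hd : ∀ i, (p i).1 ∣ R) (h : Fin k → ℕ) (n : ℤ) :
    ∑ κ ∈ (Fintype.piFinset fun i => KS Q (p i).1).filter (fun κ => R.lcm (univ.lcm κ) ≤ D),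
      ∏ i, gk (p i) (κ i) (n + h i) =
    Ph p R.primeFactors h n * ∑ d ∈ SF (D / R) R, ((Wd d h n : ℝ) : ℂ) := by
  have hr : ∀ i, 1 ≤ (p i).1 := fun i => Nat.pos_of_dvd_of_pos (hd i) hR
  have hL : ∑ κ ∈ (Fintype.piFinset fun i => KS Q (p i).1).filter
        (fun κ => R.lcm (univ.lcm κ) ≤ D), ∏ i, gk (p i) (κ i) (n + h i) =
      (∏ i, ((((p i).1 : ℝ) / (Nat.totient (p i).1 : ℝ) : ℝ) : ℂ) * cj (p i) (n + h i)) *
      ∑ κ ∈ (Fintype.piFinset fun i => KS Q (p i).1).filter (fun κ => R.lcm (univ.lcm κ) ≤ D),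
        ∏ i, ∏ l ∈ (κ i).primeFactors, ((gl l (n + h i) : ℝ) : ℂ) := by
    rw [Finset.mul_sum]
    refine Finset.sum_congr rfl fun κ hκ => ?_
    rw [← Finset.prod_mul_distrib]
    refine Finset.prod_congr rfl fun i _ => ?_
    rw [Finset.mem_filter, Fintype.mem_piFinset] at hκ
    have hκi := hκ.1 i
    rw [KS, Finset.mem_filter] at hκi
    rw [gk, M2a (κ i) hκi.2.1 (n + h i), Complex.ofReal_prod]
    rfl
  rw [hL, M2d (fun l i => ((gl l (n + h i) : ℝ) : ℂ)) Q D R hDQ hR (fun i => (p i).1) hr hd,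
    ← mul_assoc, ← Finset.prod_mul_distrib]
  congr 1
  · rw [Ph]
    refine Finset.prod_congr rfl fun i _ => ?_
    rw [M2c (fun l => ((gl l (n + h i) : ℝ) : ℂ)) R (p i).1 hR, ← M2b R hR (p i) (hd i) (n + h i),
      Complex.ofReal_prod]
    congr 1
    refine Finset.prod_congr rfl fun l _ => ?_
    rw [Complex.ofReal_add, Complex.ofReal_one]
  · rw [M1 (fun l i => ((gl l (n + h i) : ℝ) : ℂ)) (D / R) R]
    refine Finset.sum_congr rfl fun d _ => ?_
    rw [Wd, Complex.ofReal_prod]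
    refine Finset.prod_congr rfl fun l _ => ?_
    rw [Wl, Complex.ofReal_sub, Complex.ofReal_one, Complex.ofReal_prod]
    congr 1
    refine Finset.prod_congr rfl fun i _ => ?_
    rw [Complex.ofReal_add, Complex.ofReal_one]

end Pool.Agent.Lib.H59P
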