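import Pool.Agent.Lib.H59P.V1A
import Pool.Agent.Lib.H59P.S1
import Pool.Agent.Lib.H59P.S0

/-!
# Project H59P, chunk V1b
-/

open Finset

namespace Pool.Agent.Lib.H59P

open Pool.Agent.Lib.H68T Pool.Agent.Lib.H18Q

/-- difference of two products -/
theorem v1b_prod {ι : Type*} (s : Finset ι) (x y : ι → ℂ) (M : ι → ℝ) (δ : ℝ) (hδ : 0 ≤ δ)
    (hM : ∀ i, 0 ≤ M i) (hx : ∀ i ∈ s, ‖x i‖ ≤ M i) (hy : ∀ i ∈ s, ‖y i‖ ≤ M i)
    (hd : ∀ i ∈ s, ‖x i - y i‖ ≤ δ * M i) :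
    ‖∏ i ∈ s, x i - ∏ i ∈ s, y i‖ ≤ s.card * δ * ∏ i ∈ s, M i := by
  classical
  induction s using Finset.induction_on with
  | empty => simp
  | insert a s ha ih =>
    have ih' := ih (fun i hi => hx i (Finset.mem_insert_of_mem hi))
      (fun i hi => hy i (Finset.mem_insert_of_mem hi)) (fun i hi => hd i (Finset.mem_insert_of_mem hi))
    rw [Finset.prod_insert ha, Finset.prod_insert ha, Finset.prod_insert ha,
      Finset.card_insert_of_notMem ha]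
    have e1 : x a * ∏ i ∈ s, x i - y a * ∏ i ∈ s, y i =
        (x a - y a) * ∏ i ∈ s, x i + y a * (∏ i ∈ s, x i - ∏ i ∈ s, y i) := by ring
    rw [e1]
    have hP : ‖∏ i ∈ s, x i‖ ≤ ∏ i ∈ s, M i := by
      rw [norm_prod]
      exact Finset.prod_le_prod (fun i _ => norm_nonneg _)
        (fun i hi => hx i (Finset.mem_insert_of_mem hi))
    have hP0 : 0 ≤ ∏ i ∈ s, M i := Finset.prod_nonneg fun i _ => hM i
    have h1 := hd a (Finset.mem_insert_self a s)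
    have h2 := hy a (Finset.mem_insert_self a s)
    calc ‖(x a - y a) * ∏ i ∈ s, x i + y a * (∏ i ∈ s, x i - ∏ i ∈ s, y i)‖
        ≤ ‖x a - y a‖ * ‖∏ i ∈ s, x i‖ + ‖y a‖ * ‖∏ i ∈ s, x i - ∏ i ∈ s, y i‖ := by
          refine (norm_add_le _ _).trans ?_
          rw [norm_mul, norm_mul]
      _ ≤ (δ * M a) * ∏ i ∈ s, M i + M a * (s.card * δ * ∏ i ∈ s, M i) := by
          have hMa := hM a
          apply add_le_add
          · exact mul_le_mul h1 hP (norm_nonneg _) (by positivity)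
          · exact mul_le_mul h2 ih' (norm_nonneg _) hMa
      _ = ((s.card + 1 : ℕ) : ℝ) * δ * (M a * ∏ i ∈ s, M i) := by
          push_cast
          ring

/-- `SG` is additive in the coefficients -/
theorem v1b_sub (Q : ℕ) (b c : Ch → ℂ) (m : ℤ) :
    SG Q b m - SG Q c m = SG Q (fun p => b p - c p) m := by
  unfold SG
  rw [← Finset.sum_sub_distrib]
  refine Finset.sum_congr rfl fun p _ => ?_
  ring

/-- Pointwise comparison. `Z = 300 (1 + log Q)^3`.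

Proof. `|∏ x_i - ∏ y_i| ≤ ∑_j |x_j - y_j| ∏_{i≠j} max(|x_i|,|y_i|)` (`Finset.prod_sub_prod` type estimate;
induction); each `|x_i|, |y_i| ≤ Z dQ Q (n+h_i)` (`S1b`), and `|x_j - y_j| ≤ 100 (1+log Q)^3 dQ Q(n+h_j) ∑_p
‖B(n+h_j) p - B(base) p‖ ≤ Z dQ · Q² · 2H · 2Q³/X` (`V1a`: `0 ≤ n + h_j - (bs H n + bs H h_j) < 2H`, the base
point is `≥ X` since `n ≥ X = H q0` is a multiple of `H` (`bs H n ≥ X`); `card_PC_le`), and
`2H · 2Q^5/X = 4 Q^5/Q^8`. So the difference is at most `k (4/Q^3) Z^k ∏ dQ`. -/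
theorem V1b {k : ℕ} (Q X H : ℕ) (hQ : 1 ≤ Q) (hX : X = H * Q ^ 8) (hH : 1 ≤ H) (B : ℤ → Ch → ℂ)
    (mb : Ch → ℝ) (hB : Cf Q X B mb) (h : Fin k → ℕ) (hh : h ∈ bx k X) (n : ℕ) (hn : n ∈ Ico X (2 * X)) :
    ‖∏ i, SG Q (B ((n : ℤ) + h i)) ((n : ℤ) + h i) -
      ∏ i, SG Q (B (((bs H n + bs H (h i) : ℕ) : ℤ))) ((n : ℤ) + h i)‖ ≤
      k * (4 / (Q : ℝ) ^ 3) * (300 * (1 + Real.log Q) ^ 3) ^ k * ∏ i, dQ Q ((n : ℤ) + h i) := by
  have hQ1 : (1 : ℝ) ≤ Q := by exact_mod_cast hQ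
  have hQ0 : (0 : ℝ) < Q := by linarith
  have hH1 : (1 : ℝ) ≤ H := by exact_mod_cast hH
  have hlog : 0 ≤ Real.log Q := Real.log_nonneg hQ1
  have hXr : (X : ℝ) = H * (Q : ℝ) ^ 8 := by
    rw [hX]
    push_cast
    ring
  have hX0 : (0 : ℝ) < X := by
    rw [hXr]
    positivity
  rw [Finset.mem_Ico] at hn
  have hhi : ∀ i, h i < X := by
    intro i
    have := Fintype.mem_piFinset.1 hh i
    exact Finset.mem_range.1 this
  have hbsn : X ≤ bs H n := by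
    unfold bs
    have h1 : Q ^ 8 ≤ n / H := by
      rw [Nat.le_div_iff_mul_le (by omega)]
      calc Q ^ 8 * H = X := by rw [hX]; ring
        _ ≤ n := hn.1
    calc X = Q ^ 8 * H := by rw [hX]; ring
      _ ≤ n / H * H := Nat.mul_le_mul_right _ h1
  have hbsle : ∀ m : ℕ, bs H m ≤ m := fun m => Nat.div_mul_le_self m H
  have hbslt : ∀ m : ℕ, m < bs H m + H := by
    intro m
    unfold bs
    have h1 := Nat.div_add_mod' m H
    have h2 := Nat.mod_lt m (show 0 < H by omega)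
    omega
  have hZ : (∏ i : Fin k, (300 * (1 + Real.log Q) ^ 3 * dQ Q ((n : ℤ) + h i))) =
      (300 * (1 + Real.log Q) ^ 3) ^ k * ∏ i, dQ Q ((n : ℤ) + h i) := by
    rw [Finset.prod_mul_distrib, Finset.prod_const, Finset.card_univ, Fintype.card_fin]
  have hdq : ∀ i : Fin k, 0 ≤ dQ Q ((n : ℤ) + h i) := by
    intro i
    unfold dQ
    positivity
  have hC0 : 0 ≤ 100 * (1 + Real.log Q) ^ 3 := by positivity
  -- bounds for both factors
  have hsg : ∀ (m : ℤ) (i : Fin k), (X : ℤ) ≤ m → m ≤ 4 * X →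
      ‖SG Q (B m) ((n : ℤ) + h i)‖ ≤ 300 * (1 + Real.log Q) ^ 3 * dQ Q ((n : ℤ) + h i) := by
    intro m i h1 h2
    refine (S1b Q hQ (B m) mb (hB.le m h1 h2) _).trans ?_
    have h3 : 0 ≤ 100 * (1 + Real.log Q) ^ 3 * dQ Q ((n : ℤ) + h i) := mul_nonneg hC0 (hdq i)
    calc 100 * (1 + Real.log Q) ^ 3 * dQ Q ((n : ℤ) + h i) * ∑ p ∈ PC Q, mb p
        ≤ 100 * (1 + Real.log Q) ^ 3 * dQ Q ((n : ℤ) + h i) * 3 :=
          mul_le_mul_of_nonneg_left hB.sum h3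
      _ = 300 * (1 + Real.log Q) ^ 3 * dQ Q ((n : ℤ) + h i) := by ring
  have hr1 : ∀ i : Fin k, (X : ℤ) ≤ (n : ℤ) + h i ∧ (n : ℤ) + h i ≤ 4 * X := by
    intro i
    have := hhi i
    constructor
    · omega
    · omega
  have hr2 : ∀ i : Fin k, (X : ℤ) ≤ ((bs H n + bs H (h i) : ℕ) : ℤ) ∧
      ((bs H n + bs H (h i) : ℕ) : ℤ) ≤ (n : ℤ) + h i ∧
      (n : ℤ) + h i - ((bs H n + bs H (h i) : ℕ) : ℤ) ≤ 2 * H := by
    intro i
    have h1 := hbsle n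
    have h2 := hbsle (h i)
    have h3 := hbslt n
    have h4 := hbslt (h i)
    refine ⟨?_, ?_, ?_⟩ <;> omega
  have key := v1b_prod (Finset.univ : Finset (Fin k))
    (fun i => SG Q (B ((n : ℤ) + h i)) ((n : ℤ) + h i))
    (fun i => SG Q (B (((bs H n + bs H (h i) : ℕ) : ℤ))) ((n : ℤ) + h i))
    (fun i => 300 * (1 + Real.log Q) ^ 3 * dQ Q ((n : ℤ) + h i)) (4 / (Q : ℝ) ^ 3) (by positivity)
    (fun i => mul_nonneg (by positivity) (hdq i))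
    (fun i _ => hsg _ i (hr1 i).1 (hr1 i).2)
    (fun i _ => hsg _ i (hr2 i).1 ((hr2 i).2.1.trans (hr1 i).2))
    (fun i _ => ?_)
  · rw [hZ, Finset.card_univ, Fintype.card_fin] at key
    refine key.trans (le_of_eq ?_)
    ring
  · rw [v1b_sub]
    have h1 : ∀ p ∈ PC Q, ‖B ((n : ℤ) + h i) p - B (((bs H n + bs H (h i) : ℕ) : ℤ)) p‖ ≤
        4 / (Q : ℝ) ^ 5 := by
      intro p hp
      refine (V1a Q X B mb hB _ _ (hr2 i).1 (hr2 i).2.1 (hr1 i).2 p hp).trans ?_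
      have h2 : (((n : ℤ) + h i : ℤ) : ℝ) - (((bs H n + bs H (h i) : ℕ) : ℤ) : ℝ) ≤ 2 * H := by
        exact_mod_cast (hr2 i).2.2
      calc ((((n : ℤ) + h i : ℤ) : ℝ) - (((bs H n + bs H (h i) : ℕ) : ℤ) : ℝ)) * (2 * (Q : ℝ) ^ 3 / X)
          ≤ 2 * H * (2 * (Q : ℝ) ^ 3 / X) := mul_le_mul_of_nonneg_right h2 (by positivity)
        _ = 4 / (Q : ℝ) ^ 5 := by
            rw [hXr]
            field_simp
            ring
    refine (S1b Q hQ _ (fun _ => 4 / (Q : ℝ) ^ 5) h1 _).trans ?_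
    rw [Finset.sum_const, nsmul_eq_mul]
    have hc : ((PC Q).card : ℝ) ≤ (Q : ℝ) ^ 2 := by exact_mod_cast card_PC_le Q
    have h3 : 0 ≤ 100 * (1 + Real.log Q) ^ 3 * dQ Q ((n : ℤ) + h i) := mul_nonneg hC0 (hdq i)
    calc 100 * (1 + Real.log Q) ^ 3 * dQ Q ((n : ℤ) + h i) * (((PC Q).card : ℝ) * (4 / (Q : ℝ) ^ 5))
        ≤ 100 * (1 + Real.log Q) ^ 3 * dQ Q ((n : ℤ) + h i) * ((Q : ℝ) ^ 2 * (4 / (Q : ℝ) ^ 5)) := by
          apply mul_le_mul_of_nonneg_left _ h3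
          exact mul_le_mul_of_nonneg_right hc (by positivity)
      _ = 4 / (Q : ℝ) ^ 3 * (100 * (1 + Real.log Q) ^ 3 * dQ Q ((n : ℤ) + h i)) := by
          field_simp
      _ ≤ 4 / (Q : ℝ) ^ 3 * (300 * (1 + Real.log Q) ^ 3 * dQ Q ((n : ℤ) + h i)) := by
          apply mul_le_mul_of_nonneg_left _ (by positivity)
          have h5 : 0 ≤ (1 + Real.log Q) ^ 3 * dQ Q ((n : ℤ) + h i) := mul_nonneg (by positivity) (hdq i)
          nlinarith

end Pool.Agent.Lib.H59P
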