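import Pool.Agent.Lib.H59P.Defs
import Pool.Agent.Lib.H18Q.PD

/-!
# Project H59P, module A, file A1: the sum over the zeros, quantitative in `log X / log Q`
-/

open Finset

namespace Pool.Agent.Lib.H59P

open Pool.Agent.Lib.H68T Pool.Agent.Lib.H18Q

/-- Port of `zero_sum` (`H18Q/PD.lean`): the parameter `K` may grow with `X`; only `K log Q ≤ log X`
is used. -/
theorem zero_sum_q (C0 : ℝ) (h0 : 1 ≤ C0) : ∃ C K0 : ℝ, 1 ≤ C ∧ 1 ≤ K0 ∧ ∀ K : ℝ, K0 ≤ K →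
    ∀ Q X : ℕ, RegP K0 Q X → K * Real.log Q ≤ Real.log X →
    ∀ g : (Σ r : ℕ, DirichletCharacter ℂ r) → ℂ → ℂ, Fam C0 Q g →
    ∀ z : ℝ, (∀ p ∈ PC Q, ∀ ρ : ℂ, g p ρ = 0 → |ρ.im| ≤ (Q : ℝ) ^ 8 →
      z / Real.log Q ≤ 1 - ρ.re) →
    ∑ p ∈ PC Q, ∑ ρ ∈ ZR (g p) (1 - 1 / 8) ((Q : ℝ) ^ 8), (od (g p) ρ : ℝ) *
      (1 / (1 + 64 * (1 - ρ.re))) ^ kX X ≤ C * Real.exp (-(K / 16 * z)) + (Q : ℝ) ^ (-6 : ℝ) := by
  obtain ⟨C, θ, K1, hC, hθ, HD⟩ := zero_density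
  obtain ⟨K2, HC⟩ := zero_crude
  obtain ⟨C4, K4, h4, H4⟩ := LDat_Lp
  obtain ⟨θ', hθ'0, hθ'1, hθ'2⟩ : ∃ θ' : ℝ, 0 < θ' ∧ θ' ≤ θ / 2 ∧ θ' ≤ 1 / 64 :=
    ⟨min (θ / 2) (1 / 64), lt_min (by linarith) (by norm_num), min_le_left _ _, min_le_right _ _⟩
  obtain ⟨K0, hK0a, hK0b, hK0c, hK0d, hK0e, hK0f, hK0g⟩ : ∃ K0 : ℝ, 14 ≤ K0 ∧ 8 * (C + 1) ≤ K0 ∧
      1700 / (32 * θ') ≤ K0 ∧ K1 ≤ K0 ∧ K2 ≤ K0 ∧ K4 ≤ K0 ∧ 2 / θ ≤ K0 := by
    refine ⟨14 + 8 * (C + 1) + 1700 / (32 * θ') + |K1| + |K2| + |K4| + 2 / θ, ?_, ?_, ?_, ?_, ?_, ?_, ?_⟩ <;>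
    · have e1 : 0 < 1700 / (32 * θ') := by positivity
      have e2 : 0 < 2 / θ := by positivity
      have e3 := abs_nonneg K1
      have e4 := abs_nonneg K2
      have e5 := abs_nonneg K4
      have e6 := le_abs_self K1
      have e7 := le_abs_self K2
      have e8 := le_abs_self K4
      linarith
  refine ⟨2 * C * Real.exp C, K0, ?_, by linarith, ?_⟩
  · have := Real.add_one_le_exp C
    nlinarith
  intro K hK Q X hR hkp g hg z hz
  have hK1 : 1 ≤ K0 := by linarith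
  have hKp : 0 < K := by linarith
  have hLK : K0 ≤ Real.log Q := hR.logQ_ge hK1
  have hQK : K0 ≤ (Q : ℝ) := hR.Q_ge hK1
  obtain ⟨L, hL⟩ : ∃ L, L = Real.log Q := ⟨_, rfl⟩
  rw [← hL] at hLK
  have hL0 : 0 < L := by linarith
  have hQ0 : (0 : ℝ) < Q := by linarith
  have hQL : (Q : ℝ) = Real.exp L := by rw [hL, Real.exp_log hQ0]
  -- k
  have hk : K * L / 100 ≤ (kX X : ℝ) := by
    unfold kX
    have h1 := Nat.lt_floor_add_one (Real.log X / 64)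
    have h2 := hkp
    rw [← hL] at h2
    have h3 : 14 * 14 ≤ K * L := by nlinarith
    linarith
  have hθK : 17 ≤ 32 * θ' * K / 100 := by
    have h1 : 1700 / (32 * θ') ≤ K := by linarith
    rw [div_le_iff₀ (by positivity)] at h1
    linarith
  have hdatg : ∀ p ∈ PC Q, ∀ ρ, ρ ∈ ZR (g p) (1 - 1 / 8) ((Q : ℝ) ^ 8) ↔
      g p ρ = 0 ∧ 1 - 1 / 8 ≤ ρ.re ∧ ρ.re ≤ 1 ∧ |ρ.im| ≤ (Q : ℝ) ^ 8 := by
    intro p hp ρ
    exact mem_ZR (hg.dat p hp).diff (pd_ne (hg.dat p hp))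
  have hdatL : ∀ p ∈ PC Q, ∀ σ : ℝ, ∀ ρ, ρ ∈ ZR (Lp p) σ ((Q : ℝ) ^ 8) ↔
      Lp p ρ = 0 ∧ σ ≤ ρ.re ∧ ρ.re ≤ 1 ∧ |ρ.im| ≤ (Q : ℝ) ^ 8 := by
    intro p hp σ ρ
    have h5 := H4 Q (by linarith) p hp
    exact mem_ZR h5.diff (pd_ne h5)
  obtain ⟨J, hJ⟩ : ∃ J : ℕ, J = ⌊θ' * L⌋₊ + 1 := ⟨_, rfl⟩
  -- the pointwise bound
  have hpt : ∀ p ∈ PC Q, ∀ ρ ∈ ZR (g p) (1 - 1 / 8) ((Q : ℝ) ^ 8),
      (1 / (1 + 64 * (1 - ρ.re))) ^ kX X ≤ Real.exp (-(17 * L)) +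
        Real.exp (-(K / 16 * z)) * ∑ j ∈ Finset.range J,
          (if (1 - ρ.re) * L < j + 1 then Real.exp (-(K / 8 * j)) else 0) := by
    intro p hp ρ hρ
    obtain ⟨h1, h2, h3, h5⟩ := (hdatg p hp ρ).1 hρ
    have hzρ := hz p hp ρ h1 h5
    obtain ⟨δ, hδ⟩ : ∃ δ, δ = 1 - ρ.re := ⟨_, rfl⟩
    rw [← hδ] at hzρ ⊢
    have hδ0 : 0 ≤ δ := by linarith
    have hsum0 : 0 ≤ ∑ j ∈ Finset.range J,
        (if δ * L < j + 1 then Real.exp (-(K / 8 * j)) else 0) := by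
      apply Finset.sum_nonneg
      intro j _
      split_ifs
      · exact (Real.exp_pos _).le
      · exact le_refl _
    by_cases hc : θ' ≤ δ
    · have h6 : (1 / (1 + 64 * δ)) ^ kX X ≤ (1 / (1 + 64 * θ')) ^ kX X := by
        apply pow_le_pow_left₀ (by positivity)
        apply one_div_le_one_div_of_le (by positivity)
        linarith
      have h7 := pd_pow (x := 64 * θ') (by positivity) (by linarith) (kX X)
      have h8 : Real.exp (-(64 * θ' / 2 * (kX X : ℝ))) ≤ Real.exp (-(17 * L)) := by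
        apply Real.exp_le_exp.2
        have h9 : 32 * θ' * (K * L / 100) ≤ 32 * θ' * (kX X : ℝ) :=
          mul_le_mul_of_nonneg_left hk (by positivity)
        have h10 : 17 * L ≤ 32 * θ' * K / 100 * L := mul_le_mul_of_nonneg_right hθK hL0.le
        have h11 : 32 * θ' * K / 100 * L = 32 * θ' * (K * L / 100) := by ring
        have h12 : 64 * θ' / 2 * (kX X : ℝ) = 32 * θ' * (kX X : ℝ) := by ring
        linarith
      have h9 := mul_nonneg (Real.exp_pos (-(K / 16 * z))).le hsum0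
      linarith
    · push Not at hc
      have h6 := pd_pow (x := 64 * δ) (by positivity) (by linarith) (kX X)
      have hy0 : 0 ≤ δ * L := by positivity
      have hzy : z ≤ δ * L := by
        rw [← hL, div_le_iff₀ hL0] at hzρ
        exact hzρ
      have h7 : Real.exp (-(64 * δ / 2 * (kX X : ℝ))) ≤
          Real.exp (-(K / 16 * z)) * Real.exp (-(K / 8 * (δ * L))) := by
        rw [← Real.exp_add]
        apply Real.exp_le_exp.2
        have h8 : 32 * δ * (K * L / 100) ≤ 32 * δ * (kX X : ℝ) :=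
          mul_le_mul_of_nonneg_left hk (by positivity)
        have h9 : K / 16 * z ≤ K / 16 * (δ * L) := mul_le_mul_of_nonneg_left hzy (by positivity)
        have h10 : 0 ≤ K * (δ * L) := by positivity
        have h11 : 32 * δ * (K * L / 100) = 32 / 100 * (K * (δ * L)) := by ring
        have h12 : 64 * δ / 2 * (kX X : ℝ) = 32 * δ * (kX X : ℝ) := by ring
        have h13 : K / 16 * (δ * L) = 1 / 16 * (K * (δ * L)) := by ring
        have h14 : K / 8 * (δ * L) = 1 / 8 * (K * (δ * L)) := by ring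
        linarith
      have hjJ : ⌊δ * L⌋₊ ∈ Finset.range J := by
        rw [Finset.mem_range, hJ]
        have : ⌊δ * L⌋₊ ≤ ⌊θ' * L⌋₊ := Nat.floor_le_floor (mul_le_mul_of_nonneg_right hc.le hL0.le)
        omega
      have h8 : Real.exp (-(K / 8 * (δ * L))) ≤ ∑ j ∈ Finset.range J,
          (if δ * L < j + 1 then Real.exp (-(K / 8 * j)) else 0) := by
        have h9 : (if δ * L < (⌊δ * L⌋₊ : ℝ) + 1 then Real.exp (-(K / 8 * (⌊δ * L⌋₊ : ℝ))) else 0) ≤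
            ∑ j ∈ Finset.range J, (if δ * L < j + 1 then Real.exp (-(K / 8 * j)) else 0) := by
          refine Finset.single_le_sum
            (f := fun j : ℕ => if δ * L < (j : ℝ) + 1 then Real.exp (-(K / 8 * (j : ℝ))) else 0) ?_ hjJ
          intro j _
          split_ifs
          · exact (Real.exp_pos _).le
          · exact le_refl _
        rw [if_pos (Nat.lt_floor_add_one _)] at h9
        refine le_trans (Real.exp_le_exp.2 ?_) h9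
        have h10 := Nat.floor_le hy0
        have h11 : K / 8 * (⌊δ * L⌋₊ : ℝ) ≤ K / 8 * (δ * L) := mul_le_mul_of_nonneg_left h10 (by positivity)
        linarith
      have h9 := mul_le_mul_of_nonneg_left h8 (Real.exp_pos (-(K / 16 * z))).le
      have h10 := (Real.exp_pos (-(17 * L))).le
      linarith
  -- summation
  have hsum1 : ∑ p ∈ PC Q, ∑ ρ ∈ ZR (g p) (1 - 1 / 8) ((Q : ℝ) ^ 8), (od (g p) ρ : ℝ) *
      (1 / (1 + 64 * (1 - ρ.re))) ^ kX X ≤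
      ∑ p ∈ PC Q, ∑ ρ ∈ ZR (g p) (1 - 1 / 8) ((Q : ℝ) ^ 8), ((od (g p) ρ : ℝ) * Real.exp (-(17 * L)) +
        Real.exp (-(K / 16 * z)) * ∑ j ∈ Finset.range J, Real.exp (-(K / 8 * j)) *
          (if (1 - ρ.re) * L < j + 1 then (od (g p) ρ : ℝ) else 0)) := by
    refine Finset.sum_le_sum fun p hp => Finset.sum_le_sum fun ρ hρ => ?_
    refine (mul_le_mul_of_nonneg_left (hpt p hp ρ hρ) (Nat.cast_nonneg _)).trans (le_of_eq ?_)
    rw [mul_add, mul_left_comm]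
    congr 2
    rw [Finset.mul_sum]
    refine Finset.sum_congr rfl fun j _ => ?_
    split_ifs
    · ring
    · simp
  refine hsum1.trans ?_
  have hsub : ∀ p ∈ PC Q, ∀ σ : ℝ, ∀ R : Finset ℂ, (∀ ρ ∈ R, g p ρ = 0 ∧ σ ≤ ρ.re ∧ ρ.re ≤ 1 ∧
      |ρ.im| ≤ (Q : ℝ) ^ 8) → ∑ ρ ∈ R, (od (g p) ρ : ℝ) ≤
        ∑ ρ ∈ ZR (Lp p) σ ((Q : ℝ) ^ 8), (od (Lp p) ρ : ℝ) := by
    intro p hp σ R hR'
    calc ∑ ρ ∈ R, (od (g p) ρ : ℝ) ≤ ∑ ρ ∈ R, (od (Lp p) ρ : ℝ) :=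
          Finset.sum_le_sum fun ρ _ => by exact_mod_cast hg.ord p hp ρ
      _ ≤ _ := by
          apply Finset.sum_le_sum_of_subset_of_nonneg
          · intro ρ hρ
            obtain ⟨h1, h2⟩ := hR' ρ hρ
            exact (hdatL p hp σ ρ).2 ⟨hg.zer p hp ρ h1, h2⟩
          · intro ρ _ _
            exact Nat.cast_nonneg _
  have hA : ∑ p ∈ PC Q, ∑ ρ ∈ ZR (g p) (1 - 1 / 8) ((Q : ℝ) ^ 8), (od (g p) ρ : ℝ) ≤ Real.exp (11 * L) := by
    have h1 : ∀ p ∈ PC Q, ∑ ρ ∈ ZR (g p) (1 - 1 / 8) ((Q : ℝ) ^ 8), (od (g p) ρ : ℝ) ≤ (Q : ℝ) ^ 9 := by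
      intro p hp
      refine (hsub p hp (1 - 1 / 8) _ (fun ρ hρ => (hdatg p hp ρ).1 hρ)).trans ?_
      exact HC Q (by linarith) p hp
    refine (Finset.sum_le_card_nsmul _ _ _ h1).trans ?_
    rw [nsmul_eq_mul]
    have h2 : ((PC Q).card : ℝ) ≤ (Q : ℝ) ^ 2 := by exact_mod_cast card_PC_le Q
    calc ((PC Q).card : ℝ) * (Q : ℝ) ^ 9 ≤ (Q : ℝ) ^ 2 * (Q : ℝ) ^ 9 :=
          mul_le_mul_of_nonneg_right h2 (by positivity)
      _ = (Q : ℝ) ^ 11 := by ring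
      _ = Real.exp (11 * L) := by
          rw [hQL, ← Real.exp_nat_mul]
          norm_num
  have hB : ∀ j ∈ Finset.range J, ∑ p ∈ PC Q, ∑ ρ ∈ ZR (g p) (1 - 1 / 8) ((Q : ℝ) ^ 8),
      (if (1 - ρ.re) * L < j + 1 then (od (g p) ρ : ℝ) else 0) ≤ C * Real.exp (C * (j + 1)) := by
    intro j hj
    rw [Finset.mem_range, hJ] at hj
    have hjL : (j : ℝ) ≤ θ' * L := by
      have h1 : j ≤ ⌊θ' * L⌋₊ := by omega
      have h2 : (j : ℝ) ≤ (⌊θ' * L⌋₊ : ℝ) := by exact_mod_cast h1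
      exact h2.trans (Nat.floor_le (by positivity))
    have h1 : (j : ℝ) + 1 ≤ θ * Real.log Q := by
      rw [← hL]
      have h2 : 2 / θ ≤ L := by linarith
      rw [div_le_iff₀ hθ] at h2
      have h3 : θ' * L ≤ θ / 2 * L := mul_le_mul_of_nonneg_right hθ'1 hL0.le
      linarith
    refine le_trans ?_ (HD Q (by linarith) (j + 1) (by
      have : (0 : ℝ) ≤ j := Nat.cast_nonneg j
      linarith) h1)
    refine Finset.sum_le_sum fun p hp => ?_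
    rw [← Finset.sum_filter]
    refine hsub p hp (1 - (j + 1) / Real.log Q) _ ?_
    intro ρ hρ
    rw [Finset.mem_filter] at hρ
    obtain ⟨h2, h3, h5, h6⟩ := (hdatg p hp ρ).1 hρ.1
    refine ⟨h2, ?_, h5, h6⟩
    rw [← hL]
    have h7 : 1 - ρ.re ≤ (j + 1) / L := by
      rw [le_div_iff₀ hL0]
      exact hρ.2.le
    linarith
  -- assembly
  have hsplit : ∑ p ∈ PC Q, ∑ ρ ∈ ZR (g p) (1 - 1 / 8) ((Q : ℝ) ^ 8), ((od (g p) ρ : ℝ) * Real.exp (-(17 * L)) +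
        Real.exp (-(K / 16 * z)) * ∑ j ∈ Finset.range J, Real.exp (-(K / 8 * j)) *
          (if (1 - ρ.re) * L < j + 1 then (od (g p) ρ : ℝ) else 0)) =
      (∑ p ∈ PC Q, ∑ ρ ∈ ZR (g p) (1 - 1 / 8) ((Q : ℝ) ^ 8), (od (g p) ρ : ℝ)) * Real.exp (-(17 * L)) +
      Real.exp (-(K / 16 * z)) * ∑ j ∈ Finset.range J, Real.exp (-(K / 8 * j)) *
        ∑ p ∈ PC Q, ∑ ρ ∈ ZR (g p) (1 - 1 / 8) ((Q : ℝ) ^ 8),
          (if (1 - ρ.re) * L < j + 1 then (od (g p) ρ : ℝ) else 0) := by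
    simp only [Finset.sum_add_distrib]
    congr 1
    · rw [Finset.sum_mul]
      refine Finset.sum_congr rfl fun p _ => ?_
      rw [Finset.sum_mul]
    · simp only [← Finset.mul_sum]
      congr 1
      simp only [Finset.mul_sum]
      have e1 : ∀ p ∈ PC Q, ∑ ρ ∈ ZR (g p) (1 - 1 / 8) ((Q : ℝ) ^ 8), ∑ j ∈ Finset.range J,
          Real.exp (-(K / 8 * j)) * (if (1 - ρ.re) * L < j + 1 then (od (g p) ρ : ℝ) else 0) =
          ∑ j ∈ Finset.range J, ∑ ρ ∈ ZR (g p) (1 - 1 / 8) ((Q : ℝ) ^ 8),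
          Real.exp (-(K / 8 * j)) * (if (1 - ρ.re) * L < j + 1 then (od (g p) ρ : ℝ) else 0) :=
        fun p _ => Finset.sum_comm
      rw [Finset.sum_congr rfl e1]
      exact Finset.sum_comm
  rw [hsplit]
  have h1 : (∑ p ∈ PC Q, ∑ ρ ∈ ZR (g p) (1 - 1 / 8) ((Q : ℝ) ^ 8), (od (g p) ρ : ℝ)) *
      Real.exp (-(17 * L)) ≤ (Q : ℝ) ^ (-6 : ℝ) := by
    calc _ ≤ Real.exp (11 * L) * Real.exp (-(17 * L)) := mul_le_mul_of_nonneg_right hA (Real.exp_pos _).le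
      _ = (Q : ℝ) ^ (-6 : ℝ) := by
          rw [← Real.exp_add, Real.rpow_def_of_pos hQ0, ← hL]
          congr 1
          ring
  have h2 : ∑ j ∈ Finset.range J, Real.exp (-(K / 8 * j)) *
        ∑ p ∈ PC Q, ∑ ρ ∈ ZR (g p) (1 - 1 / 8) ((Q : ℝ) ^ 8),
          (if (1 - ρ.re) * L < j + 1 then (od (g p) ρ : ℝ) else 0) ≤ 2 * C * Real.exp C := by
    refine (Finset.sum_le_sum fun j hj => mul_le_mul_of_nonneg_left (hB j hj) (Real.exp_pos _).le).trans ?_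
    exact pd_geo C (K / 8) hC (by linarith) J
  have h3 := mul_le_mul_of_nonneg_left h2 (Real.exp_pos (-(K / 16 * z))).le
  calc _ ≤ (Q : ℝ) ^ (-6 : ℝ) + Real.exp (-(K / 16 * z)) * (2 * C * Real.exp C) := add_le_add h1 h3
    _ = _ := by ring

end Pool.Agent.Lib.H59P
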