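import Pool.Agent.Lib.H59P.A1
import Pool.Agent.Lib.H18Q.PH

/-!
# Project H59P, module A, file A2: the L1 norms at good and at exceptional levels, quantitative
-/

open Finset

namespace Pool.Agent.Lib.H59P

open Pool.Agent.Lib.H68T Pool.Agent.Lib.H18Q

open scoped Classical in
/-- Port of `L1_good` (`H18Q/PH.lean`) with the explicit bound. -/
theorem L1_good_q (c : ℝ) (hc : 0 < c) : ∃ K C : ℝ, 1 ≤ K ∧ 1 ≤ C ∧ ∀ kp : ℝ, K ≤ kp →
    ∀ Q X : ℕ, RegP K Q X → kp * Real.log Q ≤ Real.log X → Good c Q →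
    (∫ t in (-(Q : ℝ) ^ 7)..((Q : ℝ) ^ 7), ‖FL X p0 t - F0 X t‖) +
    ∑ p ∈ (PC Q).filter (fun p => p ≠ p0), ∫ t in (-(Q : ℝ) ^ 7)..((Q : ℝ) ^ 7),
      ‖FL X p t‖ ≤ C * Real.exp (-(kp / C)) + 1 / Q := by
  obtain ⟨C0, K1, h0, hfam⟩ := Fam_Lp
  obtain ⟨CL, KL, hCL, hKL, hL1⟩ := L1_family C0 h0
  obtain ⟨CZ, KZ, hCZ, hKZ, hZ⟩ := zero_sum_q C0 h0
  obtain ⟨c', K2, hc', hfree⟩ := zero_free_good c hc
  obtain ⟨CF, KF, hCF, hF⟩ := PF_main
  refine ⟨max (max (max KL KZ) (max K1 K2)) (max (max KF 21) (max (4 * CF) (CL + 2))),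
    max (CL * CZ) (max (16 / c') 1),
    le_trans hKL ((le_max_left _ _).trans ((le_max_left _ _).trans (le_max_left _ _))),
    (le_max_right _ _).trans (le_max_right _ _), ?_⟩
  intro kp hkp Q X hreg hkQ hgood
  obtain ⟨K, hKd⟩ : ∃ K, K = max (max (max KL KZ) (max K1 K2)) (max (max KF 21) (max (4 * CF)
    (CL + 2))) := ⟨_, rfl⟩
  rw [← hKd] at hreg hkp
  have k1 : KL ≤ K := by rw [hKd]; exact (le_max_left _ _).trans ((le_max_left _ _).trans (le_max_left _ _))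
  have k2 : KZ ≤ K := by rw [hKd]; exact (le_max_right _ _).trans ((le_max_left _ _).trans (le_max_left _ _))
  have k3 : K1 ≤ K := by rw [hKd]; exact (le_max_left _ _).trans ((le_max_right _ _).trans (le_max_left _ _))
  have k4 : K2 ≤ K := by rw [hKd]; exact (le_max_right _ _).trans ((le_max_right _ _).trans (le_max_left _ _))
  have k5 : KF ≤ K := by rw [hKd]; exact (le_max_left _ _).trans ((le_max_left _ _).trans (le_max_right _ _))
  have k6 : 21 ≤ K := by rw [hKd]; exact (le_max_right _ _).trans ((le_max_left _ _).trans (le_max_right _ _))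
  have k7 : 4 * CF ≤ K := by
    rw [hKd]; exact (le_max_left _ _).trans ((le_max_right _ _).trans (le_max_right _ _))
  have k8 : CL + 2 ≤ K := by
    rw [hKd]; exact (le_max_right _ _).trans ((le_max_right _ _).trans (le_max_right _ _))
  clear hKd
  have hK1 : 1 ≤ K := by linarith
  have hQK := hreg.Q_ge hK1
  have hXK := hreg.X_ge (by linarith)
  have hQ1 : (1 : ℝ) ≤ Q := by linarith
  have hQ1' : 1 ≤ Q := by exact_mod_cast hQ1
  have hfamQ := hfam Q (k3.trans hQK)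
  have hpow : (0 : ℝ) ≤ (Q : ℝ) ^ 7 := by positivity
  -- the family
  have hmain := hL1 Q X (hreg.mono (by linarith) k1) Lp (fun p => if p = p0 then 1 else 0)
    (fun _ => 1) hfamQ (by
      intro p hp
      refine ⟨?_, le_refl _, ?_⟩
      · split_ifs <;> simp
      · intro s hs
        by_cases h : p = p0
        · rw [if_pos h, h]
          exact ph_ld_p0 s hs
        · rw [if_neg h]
          exact ph_ld_ne hp h s hs 1)
  have hzs := hZ kp (by linarith) Q X (hreg.mono (by linarith) k2) hkQ Lp hfamQ c'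
    (hfree Q (k4.trans hQK) hgood)
  rw [ph_split (PC Q) p0 (p0_mem hQ1') (fun p => p ≠ p0) (fun _ => Iff.rfl)] at hmain
  have hsum : ∑ p ∈ (PC Q).filter (fun p => p ≠ p0), ∫ t in (-(Q : ℝ) ^ 7)..((Q : ℝ) ^ 7),
      ‖FL X p t - (((if p = p0 then 1 else 0 : ℝ)) : ℂ) * Mb X 1 t‖ =
      ∑ p ∈ (PC Q).filter (fun p => p ≠ p0), ∫ t in (-(Q : ℝ) ^ 7)..((Q : ℝ) ^ 7), ‖FL X p t‖ := by
    refine Finset.sum_congr rfl fun p hp => ?_
    rw [if_neg (mem_filter.1 hp).2]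
    simp
  rw [hsum] at hmain
  have htri := ph_tri (FL X p0) (Mb X 1) (F0 X) (ph_FF_cont X _) (ph_Mb_cont X 1) (ph_FF_cont X _)
    ((Q : ℝ) ^ 7) (CF * (1 + (Q : ℝ) ^ 7) / X) hpow (by
      intro t ht
      rw [PF_F0]
      refine (hF X (k5.trans hXK) 1 t (by norm_num) le_rfl).trans ?_
      apply div_le_div_of_nonneg_right _ (Nat.cast_nonneg _)
      apply mul_le_mul_of_nonneg_left _ hCF.le
      have := abs_le.2 ⟨ht.1, ht.2⟩
      linarith)
  have herr := ph_err hCF k6 k7 hreg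
  have hp0t : ∫ t in (-(Q : ℝ) ^ 7)..((Q : ℝ) ^ 7),
      ‖FL X p0 t - (((if p0 = p0 then 1 else 0 : ℝ)) : ℂ) * Mb X 1 t‖ =
      ∫ t in (-(Q : ℝ) ^ 7)..((Q : ℝ) ^ 7), ‖FL X p0 t - Mb X 1 t‖ := by
    rw [if_pos rfl]
    simp
  rw [hp0t] at hmain
  rw [ph_q6 hQ1] at hmain hzs
  have hq : 1 / (Q : ℝ) ^ 6 ≤ 1 / Q := by
    apply one_div_le_one_div_of_le (by linarith)
    calc (Q : ℝ) = (Q : ℝ) ^ 1 := (pow_one _).symm
      _ ≤ (Q : ℝ) ^ 6 := pow_le_pow_right₀ hQ1 (by norm_num)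
  obtain ⟨C, hCd⟩ : ∃ C, C = max (CL * CZ) (max (16 / c') 1) := ⟨_, rfl⟩
  rw [← hCd]
  have hC1 : CL * CZ ≤ C := by rw [hCd]; exact le_max_left _ _
  have hC2 : 16 / c' ≤ C := by rw [hCd]; exact (le_max_left _ _).trans (le_max_right _ _)
  have hC3 : 1 ≤ C := by rw [hCd]; exact (le_max_right _ _).trans (le_max_right _ _)
  have hA1 : CL * (CZ * Real.exp (-(kp / 16 * c'))) ≤ C * Real.exp (-(kp / C)) := by
    rw [← mul_assoc]
    apply mul_le_mul hC1 _ (Real.exp_pos _).le (by linarith)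
    apply Real.exp_le_exp.2
    have h1 : kp / C ≤ kp / (16 / c') :=
      div_le_div_of_nonneg_left (by linarith) (by positivity) hC2
    have h2 : kp / (16 / c') = kp / 16 * c' := by field_simp
    linarith
  have hA2 : (CL + 2) * (1 / (Q : ℝ) ^ 6) ≤ 1 / Q := by
    have hq0 : (0 : ℝ) < Q := by linarith
    rw [mul_one_div, div_le_div_iff₀ (by positivity) hq0, one_mul]
    have h1 : (CL + 2) * (Q : ℝ) ≤ Q * Q := mul_le_mul_of_nonneg_right (by linarith) hq0.le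
    have h2 : (Q : ℝ) * Q ≤ (Q : ℝ) ^ 6 := by
      rw [← pow_two]
      exact pow_le_pow_right₀ hQ1 (by norm_num)
    linarith
  have hA3 := mul_le_mul_of_nonneg_left hzs (by linarith : (0 : ℝ) ≤ CL)
  have hA4 : CL * (CZ * Real.exp (-(kp / 16 * c')) + 1 / (Q : ℝ) ^ 6) =
      CL * (CZ * Real.exp (-(kp / 16 * c'))) + CL * (1 / (Q : ℝ) ^ 6) := by ring
  rw [hA4] at hA3
  have hA5 : (CL + 2) * (1 / (Q : ℝ) ^ 6) = CL * (1 / (Q : ℝ) ^ 6) + 2 * (1 / (Q : ℝ) ^ 6) := by ring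
  rw [hA5] at hA2
  linarith

open scoped Classical in
/-- Port of `L1_exceptional` (`H18Q/PH.lean`) with the explicit bound. -/
theorem L1_exceptional_q : ∃ c1 K C : ℝ, 0 < c1 ∧ c1 < 1 ∧ 1 ≤ K ∧ 1 ≤ C ∧ ∀ kp : ℝ, K ≤ kp →
    ∀ Q X : ℕ, RegP K Q X → kp * Real.log Q ≤ Real.log X →
    ∀ (r : ℕ) [NeZero r] (ψ : DirichletCharacter ℂ r), r ≤ Q →
    ψ.IsPrimitive → ψ ≠ 1 → ψ ^ 2 = 1 → ∀ β : ℝ, β < 1 → ψ.LFunction (β : ℂ) = 0 →
    (1 - β) * Real.log Q ≤ c1 →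
    (∫ t in (-(Q : ℝ) ^ 7)..((Q : ℝ) ^ 7), ‖FL X p0 t - F0 X t‖) +
    (∫ t in (-(Q : ℝ) ^ 7)..((Q : ℝ) ^ 7), ‖FL X ⟨r, ψ⟩ t + Fb X β t‖) +
    ∑ p ∈ (PC Q).filter (fun p => p ≠ p0 ∧ p ≠ ⟨r, ψ⟩),
      ∫ t in (-(Q : ℝ) ^ 7)..((Q : ℝ) ^ 7), ‖FL X p t‖ ≤
        (C * Real.exp (-(kp / C)) + 1 / Q) * ((1 - β) * Real.log Q) := by
  obtain ⟨CR, c1, KR, hCR, hc1, hc11, hrep⟩ := repulsion
  obtain ⟨C0, K1, h0, hfam⟩ := Fam_Lx
  obtain ⟨CL, KL, hCL, hKL, hL1⟩ := L1_family C0 h0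
  obtain ⟨CZ, KZ, hCZ, hKZ, hZ⟩ := zero_sum_q C0 h0
  obtain ⟨CF, KF, hCF, hF⟩ := PF_main
  obtain ⟨ce, hce, hel⟩ := zero_elementary
  have hlam : 0 < Real.log (1 / c1) := Real.log_pos (by rw [lt_div_iff₀ hc1]; linarith)
  obtain ⟨lam, hlamd⟩ : ∃ lam, lam = Real.log (1 / c1) := ⟨_, rfl⟩
  rw [← hlamd] at hlam
  refine ⟨c1, max (max (max KL KZ) (max K1 KR)) (max (max KF 21) (max (4 * CF)
    (max (16 * CR) ((CL + 3) / ce)))), max (CL * CZ * Real.exp lam) (max (16 * CR / lam) 1),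
    hc1, hc11, le_trans hKL ((le_max_left _ _).trans ((le_max_left _ _).trans (le_max_left _ _))),
    (le_max_right _ _).trans (le_max_right _ _), ?_⟩
  intro kp hkp Q X hreg hkQ r _ ψ hr hprim hψ1 hψ2 β hβ hLβ hsmall
  obtain ⟨K, hKd⟩ : ∃ K, K = max (max (max KL KZ) (max K1 KR)) (max (max KF 21) (max (4 * CF)
    (max (16 * CR) ((CL + 3) / ce)))) := ⟨_, rfl⟩
  rw [← hKd] at hreg hkp
  have k1 : KL ≤ K := by rw [hKd]; exact (le_max_left _ _).trans ((le_max_left _ _).trans (le_max_left _ _))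
  have k2 : KZ ≤ K := by rw [hKd]; exact (le_max_right _ _).trans ((le_max_left _ _).trans (le_max_left _ _))
  have k3 : K1 ≤ K := by rw [hKd]; exact (le_max_left _ _).trans ((le_max_right _ _).trans (le_max_left _ _))
  have k4 : KR ≤ K := by rw [hKd]; exact (le_max_right _ _).trans ((le_max_right _ _).trans (le_max_left _ _))
  have k5 : KF ≤ K := by rw [hKd]; exact (le_max_left _ _).trans ((le_max_left _ _).trans (le_max_right _ _))
  have k6 : 21 ≤ K := by rw [hKd]; exact (le_max_right _ _).trans ((le_max_left _ _).trans (le_max_right _ _))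
  have k7 : 4 * CF ≤ K := by
    rw [hKd]; exact (le_max_left _ _).trans ((le_max_right _ _).trans (le_max_right _ _))
  have k8 : 16 * CR ≤ K := by
    rw [hKd]
    exact (le_max_left _ _).trans ((le_max_right _ _).trans ((le_max_right _ _).trans (le_max_right _ _)))
  have k9 : (CL + 3) / ce ≤ K := by
    rw [hKd]
    exact (le_max_right _ _).trans ((le_max_right _ _).trans ((le_max_right _ _).trans (le_max_right _ _)))
  clear hKd
  have hK1 : 1 ≤ K := by linarith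
  have hQK := hreg.Q_ge hK1
  have hXK := hreg.X_ge (by linarith)
  have hlQ := hreg.logQ_ge hK1
  have hQ1 : (1 : ℝ) ≤ Q := by linarith
  have hQ1' : 1 ≤ Q := by exact_mod_cast hQ1
  have hη : 0 < 1 - β := by linarith
  have hβ34 : 3 / 4 ≤ β := by
    by_contra hcon
    have h1 : (1 / 4 : ℝ) ≤ 1 - β := by linarith [not_le.1 hcon]
    have h2 : (1 / 4 : ℝ) * 21 ≤ (1 - β) * Real.log Q :=
      mul_le_mul h1 (by linarith) (by norm_num) hη.le
    linarith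
  have hfamQ := hfam Q (k3.trans hQK) r ψ hr hψ1 β hβ34 hβ hLβ
  have hpow : (0 : ℝ) ≤ (Q : ℝ) ^ 7 := by positivity
  have hmemψ : (⟨r, ψ⟩ : Σ r : ℕ, DirichletCharacter ℂ r) ∈ PC Q :=
    mem_PC.2 ⟨Nat.pos_of_ne_zero (NeZero.ne r), hr, hprim⟩
  have hneψ : (⟨r, ψ⟩ : Σ r : ℕ, DirichletCharacter ℂ r) ≠ p0 := by
    intro h
    unfold p0 at h
    obtain ⟨h1, h2⟩ := Sigma.mk.inj_iff.1 h
    subst h1
    exact hψ1 (eq_of_heq h2)
  -- the family
  have hmain := hL1 Q X (hreg.mono (by linarith) k1) (Lx r ψ β)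
    (fun p => if p = p0 then 1 else if p = ⟨r, ψ⟩ then -1 else 0)
    (fun p => if p = ⟨r, ψ⟩ then β else 1) hfamQ (by
      intro p hp
      refine ⟨?_, ?_, ?_⟩
      · split_ifs <;> simp
      · split_ifs
        · exact hβ.le
        · exact le_rfl
      · intro s hs
        by_cases h : p = p0
        · have h2 : p ≠ ⟨r, ψ⟩ := by rw [h]; exact fun h3 => hneψ h3.symm
          rw [if_pos h, if_neg h2, Lx_of_ne r ψ β p h2, h]
          exact ph_ld_p0 s hs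
        · by_cases h2 : p = ⟨r, ψ⟩
          · rw [if_neg h, if_pos h2, if_pos h2, h2, Lx_mk, logDeriv_apply]
            have hd := DirichletCharacter.differentiable_LFunction hψ1
            rw [Lp_mk r ψ hneψ]
            rw [XZ4_dslope_logderiv hd (β : ℂ) s hLβ (by
              rintro rfl
              rw [Complex.ofReal_re] at hs
              linarith) (DirichletCharacter.LFunction_ne_zero_of_one_le_re ψ (Or.inl hψ1) hs.le)]
            rw [← logDeriv_apply, lab1_char r ψ s hs]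
            push_cast
            ring
          · rw [if_neg h, if_neg h2, if_neg h2, Lx_of_ne r ψ β p h2]
            exact ph_ld_ne hp h s hs 1)
  have hx0 : 0 < (1 - β) * Real.log Q := mul_pos hη (by linarith)
  obtain ⟨x, hxd⟩ : ∃ x, x = (1 - β) * Real.log Q := ⟨_, rfl⟩
  rw [← hxd] at hx0 hsmall ⊢
  have hzs := hZ kp (by linarith) Q X (hreg.mono (by linarith) k2) hkQ (Lx r ψ β) hfamQ
    (Real.log (1 / x) / CR) (by
    intro p hp ρ hρ him
    have h1 := hrep Q (k4.trans hQK) r ψ hr hprim hψ1 hψ2 β hβ hLβ (by rw [← hxd]; exact hsmall)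
      p hp ρ hρ him
    rw [div_div, hxd]
    exact h1)
  rw [ph_split (PC Q) p0 (p0_mem hQ1') (fun p => p ≠ p0) (fun _ => Iff.rfl),
    ph_split ((PC Q).filter (fun p => p ≠ p0)) ⟨r, ψ⟩ (mem_filter.2 ⟨hmemψ, hneψ⟩)
      (fun p => p ≠ ⟨r, ψ⟩) (fun _ => Iff.rfl)] at hmain
  have hfilt : ((PC Q).filter (fun p => p ≠ p0)).filter (fun p => p ≠ ⟨r, ψ⟩) =
      (PC Q).filter (fun p => p ≠ p0 ∧ p ≠ ⟨r, ψ⟩) := by
    ext p
    simp only [mem_filter]
    tauto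
  rw [hfilt] at hmain
  have hsum : ∑ p ∈ (PC Q).filter (fun p => p ≠ p0 ∧ p ≠ ⟨r, ψ⟩),
      ∫ t in (-(Q : ℝ) ^ 7)..((Q : ℝ) ^ 7),
      ‖FL X p t - (((if p = p0 then 1 else if p = ⟨r, ψ⟩ then -1 else 0 : ℝ)) : ℂ) *
        Mb X (if p = ⟨r, ψ⟩ then β else 1) t‖ =
      ∑ p ∈ (PC Q).filter (fun p => p ≠ p0 ∧ p ≠ ⟨r, ψ⟩),
        ∫ t in (-(Q : ℝ) ^ 7)..((Q : ℝ) ^ 7), ‖FL X p t‖ := by
    refine Finset.sum_congr rfl fun p hp => ?_
    rw [if_neg (mem_filter.1 hp).2.1, if_neg (mem_filter.1 hp).2.2]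
    simp
  rw [hsum] at hmain
  have htri := ph_tri (FL X p0) (Mb X 1) (F0 X) (ph_FF_cont X _) (ph_Mb_cont X 1) (ph_FF_cont X _)
    ((Q : ℝ) ^ 7) (CF * (1 + (Q : ℝ) ^ 7) / X) hpow (by
      intro t ht
      rw [PF_F0]
      refine (hF X (k5.trans hXK) 1 t (by norm_num) le_rfl).trans ?_
      apply div_le_div_of_nonneg_right _ (Nat.cast_nonneg _)
      apply mul_le_mul_of_nonneg_left _ hCF.le
      have := abs_le.2 ⟨ht.1, ht.2⟩
      linarith)
  have htri2 := ph_tri (FL X ⟨r, ψ⟩) (fun t => -Mb X β t) (fun t => -Fb X β t) (ph_FF_cont X _)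
    (ph_Mb_cont X β).neg (ph_FF_cont X _).neg
    ((Q : ℝ) ^ 7) (CF * (1 + (Q : ℝ) ^ 7) / X) hpow (by
      intro t ht
      rw [show -Fb X β t - -Mb X β t = -(Fb X β t - Mb X β t) by ring, norm_neg]
      refine (hF X (k5.trans hXK) β t (by linarith) hβ.le).trans ?_
      apply div_le_div_of_nonneg_right _ (Nat.cast_nonneg _)
      apply mul_le_mul_of_nonneg_left _ hCF.le
      have := abs_le.2 ⟨ht.1, ht.2⟩
      linarith)
  simp only [sub_neg_eq_add] at htri2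
  have herr := ph_err hCF k6 k7 hreg
  have hp0t : ∫ t in (-(Q : ℝ) ^ 7)..((Q : ℝ) ^ 7),
      ‖FL X p0 t - (((if p0 = p0 then 1 else if p0 = ⟨r, ψ⟩ then -1 else 0 : ℝ)) : ℂ) *
        Mb X (if p0 = ⟨r, ψ⟩ then β else 1) t‖ =
      ∫ t in (-(Q : ℝ) ^ 7)..((Q : ℝ) ^ 7), ‖FL X p0 t - Mb X 1 t‖ := by
    rw [if_pos rfl, if_neg (fun h3 => hneψ h3.symm)]
    simp
  have hψt : ∫ t in (-(Q : ℝ) ^ 7)..((Q : ℝ) ^ 7),
      ‖FL X ⟨r, ψ⟩ t - (((if (⟨r, ψ⟩ : Σ r : ℕ, DirichletCharacter ℂ r) = p0 then 1 else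
        if (⟨r, ψ⟩ : Σ r : ℕ, DirichletCharacter ℂ r) = ⟨r, ψ⟩ then -1 else 0 : ℝ)) : ℂ) *
        Mb X (if (⟨r, ψ⟩ : Σ r : ℕ, DirichletCharacter ℂ r) = ⟨r, ψ⟩ then β else 1) t‖ =
      ∫ t in (-(Q : ℝ) ^ 7)..((Q : ℝ) ^ 7), ‖FL X ⟨r, ψ⟩ t + Mb X β t‖ := by
    rw [if_neg hneψ, if_pos rfl, if_pos rfl]
    simp
  rw [hp0t, hψt] at hmain
  rw [ph_q6 hQ1] at hmain hzs
  -- the numbers
  obtain ⟨C, hCd⟩ : ∃ C, C = max (CL * CZ * Real.exp lam) (max (16 * CR / lam) 1) := ⟨_, rfl⟩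
  rw [← hCd]
  have hC1 : CL * CZ * Real.exp lam ≤ C := by rw [hCd]; exact le_max_left _ _
  have hC2 : 16 * CR / lam ≤ C := by rw [hCd]; exact (le_max_left _ _).trans (le_max_right _ _)
  have hC3 : 1 ≤ C := by rw [hCd]; exact (le_max_right _ _).trans (le_max_right _ _)
  have hA1 : CL * (CZ * Real.exp (-(kp / 16 * (Real.log (1 / x) / CR)))) ≤
      C * Real.exp (-(kp / C)) * x := by
    have hxc : lam ≤ Real.log (1 / x) := by
      rw [hlamd]
      exact Real.log_le_log (by positivity) (one_div_le_one_div_of_le hx0 hsmall)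
    have hxlog : Real.log (1 / x) = -Real.log x := by rw [one_div, Real.log_inv]
    set Y := Real.log (1 / x) with hY
    have hY0 : 0 < Y := by linarith
    have e1 : -(kp / 16 * (Y / CR)) = Real.log x + -((kp / (16 * CR) - 1) * Y) := by
      have : Real.log x = -Y := by linarith
      rw [this]
      field_simp
      ring
    rw [e1, Real.exp_add, Real.exp_log hx0]
    have ha : 0 ≤ kp / (16 * CR) - 1 := by
      have : 1 ≤ kp / (16 * CR) := by
        rw [le_div_iff₀ (by positivity)]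
        linarith
      linarith
    have hb : (kp / (16 * CR) - 1) * lam ≤ (kp / (16 * CR) - 1) * Y :=
      mul_le_mul_of_nonneg_left hxc ha
    have hd : kp / C ≤ kp / (16 * CR) * lam := by
      have h1 : kp / C ≤ kp / (16 * CR / lam) :=
        div_le_div_of_nonneg_left (by linarith) (by positivity) hC2
      have h2 : kp / (16 * CR / lam) = kp / (16 * CR) * lam := by field_simp
      linarith
    have hf : Real.exp (-((kp / (16 * CR) - 1) * Y)) ≤ Real.exp lam * Real.exp (-(kp / C)) := by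
      rw [← Real.exp_add]
      apply Real.exp_le_exp.2
      linarith
    calc CL * (CZ * (x * Real.exp (-((kp / (16 * CR) - 1) * Y)))) =
        (CL * CZ * x) * Real.exp (-((kp / (16 * CR) - 1) * Y)) := by ring
      _ ≤ (CL * CZ * x) * (Real.exp lam * Real.exp (-(kp / C))) :=
          mul_le_mul_of_nonneg_left hf (by positivity)
      _ = CL * CZ * Real.exp lam * (Real.exp (-(kp / C)) * x) := by ring
      _ ≤ C * (Real.exp (-(kp / C)) * x) := mul_le_mul_of_nonneg_right hC1 (by positivity)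
      _ = C * Real.exp (-(kp / C)) * x := by ring
  have hA2 : (CL + 3) * (1 / (Q : ℝ) ^ 6) ≤ 1 / Q * x := by
    have hr1 : (1 : ℝ) ≤ r := by exact_mod_cast Nat.pos_of_ne_zero (NeZero.ne r)
    have hrQ : (r : ℝ) ≤ Q := by exact_mod_cast hr
    have h1 := hel r ψ hψ1 hψ2 β hβ hLβ
    have h2 : ce / (Q : ℝ) ^ 2 ≤ 1 - β := by
      refine le_trans ?_ h1
      apply div_le_div_of_nonneg_left hce.le (by positivity)
      exact pow_le_pow_left₀ (by linarith) hrQ 2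
    have h3 : ce / (Q : ℝ) ^ 2 ≤ x := by
      rw [hxd]
      have h4 : 0 ≤ ce / (Q : ℝ) ^ 2 := by positivity
      calc ce / (Q : ℝ) ^ 2 = ce / (Q : ℝ) ^ 2 * 1 := (mul_one _).symm
        _ ≤ (1 - β) * Real.log Q := mul_le_mul h2 (by linarith) zero_le_one hη.le
    have hq0 : (0 : ℝ) < Q := by linarith
    refine le_trans ?_ (mul_le_mul_of_nonneg_left h3 (by positivity))
    rw [div_le_iff₀ hce] at k9
    have h5 : (CL + 3) * (1 / (Q : ℝ) ^ 6) ≤ ce * Q * (1 / (Q : ℝ) ^ 6) := by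
      apply mul_le_mul_of_nonneg_right _ (by positivity)
      have h6 : K * ce ≤ Q * ce := mul_le_mul_of_nonneg_right hQK hce.le
      linarith
    have h7 : ce * (Q : ℝ) * (1 / (Q : ℝ) ^ 6) ≤ 1 / Q * (ce / (Q : ℝ) ^ 2) := by
      have h8 : ce * (Q : ℝ) * (1 / (Q : ℝ) ^ 6) = ce / (Q : ℝ) ^ 5 := by field_simp
      have h9 : 1 / Q * (ce / (Q : ℝ) ^ 2) = ce / (Q : ℝ) ^ 3 := by field_simp
      rw [h8, h9]
      apply div_le_div_of_nonneg_left hce.le (by positivity)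
      exact pow_le_pow_right₀ hQ1 (by norm_num)
    linarith
  have hA3 := mul_le_mul_of_nonneg_left hzs (by linarith : (0 : ℝ) ≤ CL)
  have hA4 : CL * (CZ * Real.exp (-(kp / 16 * (Real.log (1 / x) / CR))) + 1 / (Q : ℝ) ^ 6) =
      CL * (CZ * Real.exp (-(kp / 16 * (Real.log (1 / x) / CR)))) + CL * (1 / (Q : ℝ) ^ 6) := by ring
  rw [hA4] at hA3
  have hA5 : (CL + 3) * (1 / (Q : ℝ) ^ 6) = CL * (1 / (Q : ℝ) ^ 6) + 3 * (1 / (Q : ℝ) ^ 6) := by ring
  rw [hA5] at hA2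
  have hA6 : (C * Real.exp (-(kp / C)) + 1 / Q) * x = C * Real.exp (-(kp / C)) * x + 1 / Q * x := by
    ring
  rw [hA6]
  linarith

end Pool.Agent.Lib.H59P
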