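import Pool.Agent.Lib.H59P.A2
import Pool.Agent.Lib.H18Q.CL1

/-!
# Project H59P, module A, file A3: the model at good levels
-/

open Finset

namespace Pool.Agent.Lib.H59P

open Pool.Agent.Lib.H68T Pool.Agent.Lib.H18Q

theorem a3_q4 {Q : ℕ} (hQ : (16 : ℝ) ≤ Q) : 2 / Real.sqrt Q ≤ (Q : ℝ) ^ (-(1 / 4) : ℝ) := by
  have hQ0 : (0 : ℝ) < Q := by linarith
  have h1 : (2 : ℝ) ≤ (Q : ℝ) ^ (1 / 4 : ℝ) := by
    have h2 : (16 : ℝ) ^ (1 / 4 : ℝ) ≤ (Q : ℝ) ^ (1 / 4 : ℝ) :=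
      Real.rpow_le_rpow (by norm_num) hQ (by norm_num)
    have h3 : (16 : ℝ) ^ (1 / 4 : ℝ) = 2 := by
      rw [show (16 : ℝ) = 2 ^ (4 : ℝ) by norm_num, ← Real.rpow_mul (by norm_num)]
      norm_num
    linarith
  have h4 : Real.sqrt Q = (Q : ℝ) ^ (1 / 4 : ℝ) * (Q : ℝ) ^ (1 / 4 : ℝ) := by
    rw [Real.sqrt_eq_rpow, ← Real.rpow_add hQ0]
    norm_num
  have h5 : 0 < (Q : ℝ) ^ (1 / 4 : ℝ) := by positivity
  rw [Real.rpow_neg hQ0.le, h4, ← one_div, div_le_div_iff₀ (by positivity) h5]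
  calc 2 * (Q : ℝ) ^ (1 / 4 : ℝ) ≤ (Q : ℝ) ^ (1 / 4 : ℝ) * (Q : ℝ) ^ (1 / 4 : ℝ) :=
        mul_le_mul_of_nonneg_right h1 h5.le
    _ = 1 * ((Q : ℝ) ^ (1 / 4 : ℝ) * (Q : ℝ) ^ (1 / 4 : ℝ)) := (one_mul _).symm

theorem a3_inv {Q : ℕ} (hQ : (16 : ℝ) ≤ Q) : 1 / (Q : ℝ) ≤ 1 / Real.sqrt Q := by
  have hQ0 : (0 : ℝ) < Q := by linarith
  apply one_div_le_one_div_of_le (Real.sqrt_pos.2 hQ0)
  rw [Real.sqrt_le_left (by linarith)]
  nlinarith

open scoped Classical in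
/-- Quantitative `lev_good`: the model at a good level. -/
theorem mdl_good (c : ℝ) (hc : 0 < c) : ∃ K C : ℝ, 1 ≤ K ∧ 1 ≤ C ∧ ∀ kp : ℝ, K ≤ kp →
    ∀ Q X : ℕ, RegP K Q X → kp * Real.log Q ≤ Real.log X → Good c Q →
    Mdl Q X 1 (C * Real.exp (-(kp / C)) + (Q : ℝ) ^ (-(1 / 4) : ℝ)) p0 (fun _ => 0) := by
  classical
  obtain ⟨K1, C, hK1, hC, hL1⟩ := L1_good_q c hc
  obtain ⟨K2, hK2, hLip⟩ := Bc_lip
  obtain ⟨K3, hK3, hLk⟩ := Lk_SG
  obtain ⟨K4, hK4, hB0⟩ := cl1_B0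
  obtain ⟨K5, hK5, hB⟩ := B_leP
  refine ⟨max (max (max K1 K2) (max K3 K4)) (max K5 16), C,
    hK1.trans ((le_max_left _ _).trans ((le_max_left _ _).trans (le_max_left _ _))), hC, ?_⟩
  intro kp hkp Q X hreg hkQ hgood
  obtain ⟨K, hKd⟩ : ∃ K, K = max (max (max K1 K2) (max K3 K4)) (max K5 16) := ⟨_, rfl⟩
  rw [← hKd] at hreg hkp
  have k1 : K1 ≤ K := by rw [hKd]; exact (le_max_left _ _).trans ((le_max_left _ _).trans (le_max_left _ _))
  have k2 : K2 ≤ K := by rw [hKd]; exact (le_max_right _ _).trans ((le_max_left _ _).trans (le_max_left _ _))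
  have k3 : K3 ≤ K := by rw [hKd]; exact (le_max_left _ _).trans ((le_max_right _ _).trans (le_max_left _ _))
  have k4 : K4 ≤ K := by rw [hKd]; exact (le_max_right _ _).trans ((le_max_right _ _).trans (le_max_left _ _))
  have k5 : K5 ≤ K := by rw [hKd]; exact (le_max_left _ _).trans (le_max_right _ _)
  have k6 : 16 ≤ K := by rw [hKd]; exact (le_max_right _ _).trans (le_max_right _ _)
  clear hKd
  have hKp : 1 ≤ K := hK1.trans k1
  have hK0 : 0 ≤ K := by linarith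
  have hQ1 : 1 ≤ Q := hreg.Q_pos hKp
  have hQ1' : (1 : ℝ) ≤ Q := by exact_mod_cast hQ1
  have hQK := hreg.Q_ge hKp
  have hX0 : (0 : ℝ) < X := by exact_mod_cast hreg.X_pos (by linarith)
  have hL := hL1 kp (by linarith) Q X (hreg.mono hK0 k1) hkQ hgood
  obtain ⟨q, hq⟩ : ∃ q, q = (Q : ℝ) ^ (-(5 / 2) : ℝ) := ⟨_, rfl⟩
  have hq0 : 0 ≤ q := by rw [hq]; positivity
  obtain ⟨eb, heb⟩ : ∃ eb : (Σ r : ℕ, DirichletCharacter ℂ r) → ℝ, eb = fun p =>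
    (if p = p0 then ∫ t in (-(Q : ℝ) ^ 7)..((Q : ℝ) ^ 7), ‖FL X p0 t - F0 X t‖
      else ∫ t in (-(Q : ℝ) ^ 7)..((Q : ℝ) ^ 7), ‖FL X p t‖) + q := ⟨_, rfl⟩
  have heb0 : ∀ p, 0 ≤ eb p := by
    intro p
    rw [heb]
    simp only
    split_ifs
    · exact add_nonneg (cl1_int_nonneg Q _) hq0
    · exact add_nonneg (cl1_int_nonneg Q _) hq0
  have hsum : ∑ p ∈ PC Q, eb p ≤ C * Real.exp (-(kp / C)) + (Q : ℝ) ^ (-(1 / 4) : ℝ) := by
    have h1 : ∑ p ∈ PC Q, eb p =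
        (∑ p ∈ PC Q, (if p = p0 then ∫ t in (-(Q : ℝ) ^ 7)..((Q : ℝ) ^ 7), ‖FL X p0 t - F0 X t‖
          else ∫ t in (-(Q : ℝ) ^ 7)..((Q : ℝ) ^ 7), ‖FL X p t‖)) + (PC Q).card * q := by
      rw [heb, Finset.sum_add_distrib, Finset.sum_const, nsmul_eq_mul]
    rw [h1, ph_split (PC Q) p0 (p0_mem hQ1) (fun p => p ≠ p0) (fun _ => Iff.rfl), if_pos rfl]
    have h2 : ∑ p ∈ (PC Q).filter (fun p => p ≠ p0),
        (if p = p0 then ∫ t in (-(Q : ℝ) ^ 7)..((Q : ℝ) ^ 7), ‖FL X p0 t - F0 X t‖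
          else ∫ t in (-(Q : ℝ) ^ 7)..((Q : ℝ) ^ 7), ‖FL X p t‖) =
        ∑ p ∈ (PC Q).filter (fun p => p ≠ p0), ∫ t in (-(Q : ℝ) ^ 7)..((Q : ℝ) ^ 7), ‖FL X p t‖ :=
      Finset.sum_congr rfl fun p hp => by rw [if_neg (mem_filter.1 hp).2]
    rw [h2]
    have h3 : ((PC Q).card : ℝ) * q ≤ 1 / Real.sqrt Q := by
      rw [← (cl1_Qpow hQ1).1, ← hq]
      apply mul_le_mul_of_nonneg_right _ hq0
      exact_mod_cast card_PC_le Q
    have h4 := a3_q4 (Q := Q) (by linarith)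
    have h5 := a3_inv (Q := Q) (by linarith)
    have h6 : 2 / Real.sqrt Q = 1 / Real.sqrt Q + 1 / Real.sqrt Q := by ring
    linarith
  refine ⟨one_pos, le_rfl, p0_mem hQ1, ?_, ?_, fun _ _ => rfl, fun _ _ _ => le_rfl, ?_, ?_, ?_⟩
  · have : p0.2 = 1 := rfl
    rw [this, one_pow]
  · have : p0.1 = 1 := rfl
    rw [this, one_pow]
    exact hQ1
  · intro m _ _
    simp
  · intro m _ _
    rw [sub_self, abs_zero]
    positivity
  · have hMX : ∀ m p, MX p0 (fun _ => 0) m p = if p = p0 then 1 else 0 := by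
      intro m p
      unfold MX
      split_ifs <;> simp
    refine ⟨fun m p => Bc Q X p m - MX p0 (fun _ => 0) m p, eb, fun p _ => heb0 p, ?_, ?_⟩
    · rw [one_mul]
      exact hsum
    · intro m hm hm4
      refine ⟨?_, ?_⟩
      · rw [hLk Q X (hreg.mono hK0 k3) m hm hm4]
        congr 1
        funext p
        ring
      · intro p hp
        beta_reduce
        refine ⟨?_, ?_⟩
        · rw [hMX, heb]
          simp only
          split_ifs with h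
          · rw [h, hq]
            exact hB0 Q X (hreg.mono hK0 k4) m hm hm4
          · rw [sub_zero, hq]
            exact hB Q X (hreg.mono hK0 k5) p (mem_PC.1 hp).1 m hm hm4
        · have h1 := hLip Q X (hreg.mono hK0 k2) p m hm hm4
          rw [hMX, hMX]
          have h2 : (Bc Q X p (m + 1) - (if p = p0 then 1 else 0)) -
              (Bc Q X p m - (if p = p0 then 1 else 0)) = Bc Q X p (m + 1) - Bc Q X p m := by ring
          rw [h2]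
          refine h1.trans ?_
          apply div_le_div_of_nonneg_left (by positivity) hX0
          linarith

end Pool.Agent.Lib.H59P
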