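import Pool.Agent.Lib.H59P.A4
import Pool.Agent.Lib.H68X.XEX

/-!
# Project H59P, module A, file A5: choice of the level
-/

open Finset

namespace Pool.Agent.Lib.H59P

open Pool.Agent.Lib.H68T Pool.Agent.Lib.H18Q

/-- `(r, ψ)` is a real primitive character of small conductor with the exceptional zero `β`. -/
structure ExcZ (c1 : ℝ) (Q r : ℕ) [NeZero r] (ψ : DirichletCharacter ℂ r) (β : ℝ) : Prop where
  cond : r ^ 100 ≤ Q
  prim : ψ.IsPrimitive
  ne : ψ ≠ 1
  sq : ψ ^ 2 = 1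
  lt : β < 1
  zero : ψ.LFunction (β : ℂ) = 0
  small : (1 - β) * Real.log Q ≤ c1

/-- **The level.** `X` large, `kp ≥ K` not too large: there is a level `Q`, `log Q ≍ log X/kp`, which
is good or has an exceptional zero of small conductor.

Proof. `Q₁ = ⌊exp (log X/kp)⌋`. If it is good for `c = min c₁ c₂` take `Q = Q₁` (`mdl_good`). Otherwise
there is an exceptional zero `β` of `ψ` mod `r`, `r ≤ Q₁`. If `r^100 ≤ Q₁` take `Q = Q₁` (`mdl_exc`). If
`r^100 > Q₁` take `Q = r - 1` (`good_below`, `mdl_good`). -/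
theorem mdl_exists : ∃ c1 K C : ℝ, 0 < c1 ∧ c1 < 1 ∧ 1 ≤ K ∧ 1 ≤ C ∧ ∀ K' : ℝ, K ≤ K' → ∀ kp : ℝ,
    K' ≤ kp → ∀ X : ℕ, K' ≤ Real.log (Real.log X) →
    C * K' * kp * Real.log (Real.log X) ≤ Real.log X →
    ∃ Q : ℕ, RegP K' Q X ∧ kp * Real.log Q ≤ Real.log X ∧ Real.log X ≤ C * kp * Real.log Q ∧
      (Mdl Q X 1 (C * Real.exp (-(kp / C)) + (Q : ℝ) ^ (-(1 / 4) : ℝ)) p0 (fun _ => 0) ∨
      ∃ (r : ℕ) (_ : NeZero r) (ψ : DirichletCharacter ℂ r) (β : ℝ), ExcZ c1 Q r ψ β ∧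
        (1 - β) * Real.log Q / 2 ≤ 1 - (X : ℝ) ^ (β - 1) ∧
        Mdl Q X (1 - (X : ℝ) ^ (β - 1)) (C * Real.exp (-(kp / C)) + (Q : ℝ) ^ (-(1 / 4) : ℝ)) ⟨r, ψ⟩
          (fun m => (m : ℝ) ^ (β - 1))) := by
  obtain ⟨c1, K1, C1, hc1, hc11, hK1, hC1, hexc⟩ := mdl_exc
  obtain ⟨c2, K2, hc2, hgb⟩ := good_below
  obtain ⟨c, hcd⟩ : ∃ c, c = min c1 c2 := ⟨_, rfl⟩
  have hc0 : 0 < c := by rw [hcd]; exact lt_min hc1 hc2
  have hcc1 : c ≤ c1 := by rw [hcd]; exact min_le_left _ _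
  have hcc2 : c ≤ c2 := by rw [hcd]; exact min_le_right _ _
  obtain ⟨K3, C3, hK3, hC3, hg3⟩ := mdl_good c hc0
  obtain ⟨K4, C4, hK4, hC4, hg4⟩ := mdl_good c2 hc2
  obtain ⟨K, hKd⟩ : ∃ K, K = K1 + |K2| + K3 + K4 + 4 := ⟨_, rfl⟩
  obtain ⟨C, hCd⟩ : ∃ C, C = C1 + C3 + C4 + 1000 := ⟨_, rfl⟩
  have ha2 := abs_nonneg K2
  have hle2 := le_abs_self K2
  refine ⟨c1, K, C, hc1, hc11, by linarith, by linarith, ?_⟩
  intro K' hK' kp hkp X hX1 hX2
  obtain ⟨L, hL⟩ : ∃ L, L = Real.log X := ⟨_, rfl⟩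
  obtain ⟨l, hl⟩ : ∃ l, l = Real.log (Real.log X) := ⟨_, rfl⟩
  rw [← hl] at hX1 hX2
  rw [← hL] at hX2 ⊢
  have hK'4 : 4 ≤ K' := by linarith
  have hl4 : 4 ≤ l := by linarith
  have hkp4 : 4 ≤ kp := by linarith
  have hLbig : 1000 * K' * kp * l ≤ L := by
    have h1 : 1000 * (K' * kp * l) ≤ C * (K' * kp * l) :=
      mul_le_mul_of_nonneg_right (by linarith) (by positivity)
    linarith
  have hK'kpl : 64 ≤ K' * kp * l := by
    have h1 : (4 : ℝ) * 4 ≤ K' * kp := mul_le_mul hK'4 hkp4 (by norm_num) (by linarith)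
    have h2 : (4 : ℝ) * 4 * 4 ≤ K' * kp * l := mul_le_mul h1 hl4 (by norm_num) (by positivity)
    linarith
  have hL0 : 0 < L := by linarith
  have hX0 : (0 : ℝ) < X := by
    have h1 : X ≠ 0 := by
      rintro rfl
      rw [Nat.cast_zero, Real.log_zero] at hL
      linarith
    exact_mod_cast Nat.pos_of_ne_zero h1
  -- the level `Q₁`
  obtain ⟨q, hq⟩ : ∃ q, q = L / kp := ⟨_, rfl⟩
  have hkpq : kp * q = L := by rw [hq]; field_simp
  have hqK : 1000 * (K' * l) ≤ q := by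
    rw [hq, le_div_iff₀ (by linarith)]
    linarith
  have hK'l : 16 ≤ K' * l := by
    have h1 : (4 : ℝ) * 4 ≤ K' * l := mul_le_mul hK'4 hl4 (by norm_num) (by linarith)
    linarith
  obtain ⟨Q1, hQ1⟩ : ∃ Q1, Q1 = ⌊Real.exp q⌋₊ := ⟨_, rfl⟩
  have hexpq : Real.exp 1 ≤ Real.exp q := Real.exp_le_exp.2 (by linarith)
  have he2 : (2 : ℝ) ≤ Real.exp 1 := by linarith [Real.exp_one_gt_d9]
  have hQ1le : (Q1 : ℝ) ≤ Real.exp q := by rw [hQ1]; exact Nat.floor_le (Real.exp_pos q).le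
  have hQ1ge : Real.exp q / 2 ≤ (Q1 : ℝ) := by
    have h1 := Nat.lt_floor_add_one (Real.exp q)
    rw [← hQ1] at h1
    linarith
  have hQ1pos : (0 : ℝ) < Q1 := by
    have := Real.exp_pos q
    linarith
  have hlQ1le : Real.log Q1 ≤ q := by
    rw [Real.log_le_iff_le_exp hQ1pos]; exact hQ1le
  have hlQ1ge : q - 1 ≤ Real.log Q1 := by
    rw [Real.le_log_iff_exp_le hQ1pos]
    refine le_trans ?_ hQ1ge
    rw [Real.exp_sub, div_le_div_iff₀ (Real.exp_pos 1) (by norm_num)]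
    have := mul_le_mul_of_nonneg_left he2 (Real.exp_pos q).le
    linarith
  -- errors
  have herr : ∀ C' : ℝ, 1 ≤ C' → C' ≤ C → ∀ Q : ℕ,
      C' * Real.exp (-(kp / C')) + (Q : ℝ) ^ (-(1 / 4) : ℝ) ≤
      C * Real.exp (-(kp / C)) + (Q : ℝ) ^ (-(1 / 4) : ℝ) := by
    intro C' h1 h2 Q
    have h3 : Real.exp (-(kp / C')) ≤ Real.exp (-(kp / C)) := by
      apply Real.exp_le_exp.2
      have : kp / C ≤ kp / C' := div_le_div_of_nonneg_left (by linarith) (by linarith) h2
      linarith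
    have h4 := mul_le_mul h2 h3 (Real.exp_pos _).le (by linarith)
    linarith
  have hmono : ∀ (Q : ℕ) (η E E' : ℝ) (px : Ch) (th : ℤ → ℝ), E ≤ E' → Mdl Q X η E px th →
      Mdl Q X η E' px th := by
    intro Q η E E' px th hE h
    refine ⟨h.eta_pos, h.eta_le, h.mem, h.real, h.cond, h.triv, h.nonneg, h.le, h.slow, ?_⟩
    obtain ⟨e, eb, h1, h2, h3⟩ := h.lev
    exact ⟨e, eb, h1, h2.trans (mul_le_mul_of_nonneg_left hE h.eta_pos.le), h3⟩
  have hreg1 : RegP K' Q1 X := by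
    refine ⟨by rw [← hl]; exact hX1, ?_, ?_⟩
    · rw [← hl]; linarith
    · rw [← hL]
      have h1 : K' * Real.log Q1 ≤ kp * Real.log Q1 :=
        mul_le_mul_of_nonneg_right hkp (by linarith)
      have h2 : kp * Real.log Q1 ≤ kp * q := mul_le_mul_of_nonneg_left hlQ1le (by linarith)
      linarith
  have hkQ1 : kp * Real.log Q1 ≤ L := by
    have h2 : kp * Real.log Q1 ≤ kp * q := mul_le_mul_of_nonneg_left hlQ1le (by linarith)
    linarith
  have hkQ1' : L ≤ C * kp * Real.log Q1 := by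
    have h1 : q ≤ 2 * Real.log Q1 := by linarith
    have h2 : kp * q ≤ kp * (2 * Real.log Q1) := mul_le_mul_of_nonneg_left h1 (by linarith)
    have h3 : 2 * (kp * Real.log Q1) ≤ C * (kp * Real.log Q1) := by
      apply mul_le_mul_of_nonneg_right (by linarith)
      exact mul_nonneg (by linarith) (by linarith)
    linarith
  have hK'0 : 0 ≤ K' := by linarith
  by_cases hG : Good c Q1
  · refine ⟨Q1, hreg1, hkQ1, hkQ1', Or.inl ?_⟩
    exact hmono _ _ _ _ _ _ (herr C3 hC3 (by linarith) Q1)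
      (hg3 kp (by linarith) Q1 X (hreg1.mono hK'0 (by linarith)) (by rw [← hL]; exact hkQ1) hG)
  · unfold Good at hG
    push Not at hG
    obtain ⟨r, hr, ψ, hrQ, hprim, hne, hsq, β, hβ1, hβ2, hz⟩ := hG
    have hβ : β < 1 := by
      rcases lt_or_eq_of_le hβ2 with h | h
      · exact h
      · exfalso
        rw [h] at hz
        refine DirichletCharacter.LFunction_ne_zero_of_one_le_re ψ (Or.inl hne) ?_ hz
        simp
    by_cases hr100 : r ^ 100 ≤ Q1
    · have hsm : (1 - β) * Real.log Q1 ≤ c1 := by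
        have h1 : 1 - β ≤ c / Real.log Q1 := by linarith
        rw [le_div_iff₀ (by linarith)] at h1
        linarith
      obtain ⟨h1, h2⟩ := hexc kp (by linarith) Q1 X (hreg1.mono hK'0 (by linarith))
        (by rw [← hL]; exact hkQ1) r ψ hr100 hprim hne hsq β hβ hz hsm
      refine ⟨Q1, hreg1, hkQ1, hkQ1', Or.inr ⟨r, hr, ψ, β,
        ⟨hr100, hprim, hne, hsq, hβ, hz, hsm⟩, h1, ?_⟩⟩
      exact hmono _ _ _ _ _ _ (herr C1 hC1 (by linarith) Q1) h2
    · -- large conductor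
      push Not at hr100
      have hr100' : (Q1 : ℝ) < (r : ℝ) ^ 100 := by exact_mod_cast hr100
      have hrpos : (0 : ℝ) < r := by exact_mod_cast Nat.pos_of_ne_zero (NeZero.ne r)
      have hlr : Real.log Q1 ≤ 100 * Real.log r := by
        have h1 := Real.log_le_log hQ1pos hr100'.le
        rw [Real.log_pow] at h1
        exact_mod_cast h1
      have hlr' : q / 200 + 1 ≤ Real.log r := by linarith
      have hexplr : Real.exp 1 ≤ r := by
        rw [← Real.le_log_iff_exp_le hrpos]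
        linarith
      have hr2 : (2 : ℝ) ≤ r := by linarith
      have hr2' : 2 ≤ r := by exact_mod_cast hr2
      have hcast : ((r - 1 : ℕ) : ℝ) = r - 1 := by
        rw [Nat.cast_sub (by omega), Nat.cast_one]
      have hr1pos : (0 : ℝ) < ((r - 1 : ℕ) : ℝ) := by rw [hcast]; linarith
      have hlow : q / 200 ≤ Real.log ((r - 1 : ℕ) : ℝ) := by
        rw [Real.le_log_iff_exp_le hr1pos, hcast]
        have h1 : Real.exp (q / 200 + 1) ≤ r := by
          rw [← Real.le_log_iff_exp_le hrpos]; exact hlr'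
        rw [Real.exp_add] at h1
        have h2 : Real.exp (q / 200) * 2 ≤ Real.exp (q / 200) * Real.exp 1 :=
          mul_le_mul_of_nonneg_left he2 (Real.exp_pos _).le
        linarith
      have hup : Real.log ((r - 1 : ℕ) : ℝ) ≤ q := by
        refine le_trans (Real.log_le_log hr1pos ?_) hlQ1le
        rw [hcast]
        have : (r : ℝ) ≤ Q1 := by exact_mod_cast hrQ
        linarith
      have hKr : K2 ≤ r := by
        have h1 : |K2| ≤ q / 200 := by
          have h2 : K' * 4 ≤ K' * l := mul_le_mul_of_nonneg_left hl4 hK'0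
          linarith
        have h3 : q / 200 + 1 ≤ Real.exp (q / 200) := Real.add_one_le_exp _
        have h4 : Real.exp (q / 200) ≤ ((r - 1 : ℕ) : ℝ) := by
          rw [← Real.le_log_iff_exp_le hr1pos]; exact hlow
        rw [hcast] at h4
        linarith
      have hexc' : Exc c2 Q1 r ψ β := by
        refine ⟨hrQ, hprim, hne, hsq, ?_, hβ, hz⟩
        have : c / Real.log Q1 ≤ c2 / Real.log Q1 :=
          div_le_div_of_nonneg_right hcc2 (by linarith)
        linarith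
      have hG2 := hgb Q1 r ψ β hKr hexc'
      have hreg2 : RegP K' (r - 1) X := by
        refine ⟨by rw [← hl]; exact hX1, ?_, ?_⟩
        · rw [← hl]; linarith
        · rw [← hL]
          have h1 : K' * Real.log ((r - 1 : ℕ) : ℝ) ≤ kp * Real.log ((r - 1 : ℕ) : ℝ) :=
            mul_le_mul_of_nonneg_right hkp (by linarith)
          have h2 : kp * Real.log ((r - 1 : ℕ) : ℝ) ≤ kp * q :=
            mul_le_mul_of_nonneg_left hup (by linarith)
          linarith
      have hk2 : kp * Real.log ((r - 1 : ℕ) : ℝ) ≤ L := by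
        have h2 : kp * Real.log ((r - 1 : ℕ) : ℝ) ≤ kp * q :=
          mul_le_mul_of_nonneg_left hup (by linarith)
        linarith
      have hk3 : L ≤ C * kp * Real.log ((r - 1 : ℕ) : ℝ) := by
        have h1 : q ≤ 200 * Real.log ((r - 1 : ℕ) : ℝ) := by linarith
        have h2 : kp * q ≤ kp * (200 * Real.log ((r - 1 : ℕ) : ℝ)) :=
          mul_le_mul_of_nonneg_left h1 (by linarith)
        have h3 : 200 * (kp * Real.log ((r - 1 : ℕ) : ℝ)) ≤
            C * (kp * Real.log ((r - 1 : ℕ) : ℝ)) := by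
          apply mul_le_mul_of_nonneg_right (by linarith)
          exact mul_nonneg (by linarith) (by linarith)
        linarith
      refine ⟨r - 1, hreg2, hk2, hk3, Or.inl ?_⟩
      exact hmono _ _ _ _ _ _ (herr C4 hC4 (by linarith) (r - 1))
        (hg4 kp (by linarith) (r - 1) X (hreg2.mono hK'0 (by linarith))
          (by rw [← hL]; exact hk2) hG2)

end Pool.Agent.Lib.H59P
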