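import Pool.Agent.Lib.H59P.ZDefs
import Pool.Agent.Lib.H51D.VDefs

/-!
# Project H59P, interfaces of the final part: conclusions of the modules A and T
-/

open Finset

namespace Pool.Agent.Lib.H59P

open Pool.Agent.Lib.H68T Pool.Agent.Lib.H18Q

/-- The conclusion of module A (levels). `C`, `K` absolute; `K'` is the constant needed for the regime.
For every large `N` and every `kp` between `K` (and `K'`) and `(log log N)^2` there is a level `Q` with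
`log Q ≥ log N/(C kp)` and a length `X = H Q^8` between `N` and `2 N`, with the level structure of total error
`C exp(-kp/C)`, either without exceptional character or with one. -/
def AMain : Prop := ∃ C K : ℝ, 1 ≤ C ∧ 1 ≤ K ∧ ∀ K' : ℝ, ∃ N0 : ℕ, ∀ N : ℕ, N0 ≤ N → ∀ kp : ℝ, K ≤ kp →
  K' ≤ kp → kp ≤ (Real.log (Real.log N)) ^ 2 → ∃ Q H : ℕ, N ≤ H * Q ^ 8 ∧ H * Q ^ 8 ≤ 2 * N ∧
    RegP K' Q (H * Q ^ 8) ∧ Real.log N ≤ C * kp * Real.log Q ∧
    (Mdl Q (H * Q ^ 8) 1 (C * Real.exp (-(kp / C))) p0 (fun _ => 0) ∨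
      ∃ (r : ℕ) (_ : NeZero r) (ψ : DirichletCharacter ℂ r) (β η : ℝ), ψ.IsPrimitive ∧ ψ ≠ 1 ∧
        ψ ^ 2 = 1 ∧ 1 / 2 ≤ β ∧ β < 1 ∧ ψ.LFunction (β : ℂ) = 0 ∧ (1 - β) / 2 ≤ η ∧
        Mdl Q (H * Q ^ 8) η (C * Real.exp (-(kp / C))) ⟨r, ψ⟩ (fun m => (m : ℝ) ^ (β - 1)))

/-- The conclusion of module A for good levels: arbitrarily large `N` with a level
`log Q ≥ log N/(C log log N)` without exceptional character and total error at most `(log N)^(-2)`. -/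
def AGood : Prop := ∃ C : ℝ, 1 ≤ C ∧ ∀ (K' : ℝ) (N0 : ℕ), ∃ N : ℕ, N0 ≤ N ∧ ∃ Q H : ℕ, N ≤ H * Q ^ 8 ∧
  H * Q ^ 8 ≤ 2 * N ∧ RegP K' Q (H * Q ^ 8) ∧
  Real.log N ≤ C * Real.log (Real.log N) * Real.log Q ∧
  Mdl Q (H * Q ^ 8) 1 ((Real.log N) ^ (-(2 : ℝ))) p0 (fun _ => 0)

/-- The lower bound for the singular series (module T). -/
def TLow (c0 : ℝ) : Prop := ∀ (k : ℕ) (h : Fin k → ℕ), Adm h → ∀ P : Finset ℕ, (∀ l ∈ P, l.Prime) →
  Real.exp (-(c0 * k)) ≤ SS P h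

open Classical in
/-- The number of admissible sets (module T). -/
def TCount : Prop := ∃ C : ℝ, 1 ≤ C ∧ ∀ δ : ℝ, 0 < δ → δ < 1 → ∃ N0 : ℕ, ∀ (N k : ℕ), N0 ≤ N → 1 ≤ k →
  (k : ℝ) ≤ (Real.log N) ^ (1 - δ) →
  (N : ℝ) ^ k ≤ (Real.log N) ^ (C * k) * ((k.factorial : ℝ) *
    ((((range N).powersetCard k).filter (fun A => Admissible A)).card : ℝ))

/-- Every admissible tuple of the box outside of `Bad` has a prime translate in `[X, 2X)`. -/
def Good' {k : ℕ} (X : ℕ) (Bad : Finset (Fin k → ℕ)) : Prop :=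
  Bad ⊆ bx k X ∧ ∀ h ∈ bx k X, h ∉ Bad → Adm h → ∃ n ∈ Ico X (2 * X), ∀ i, (n + h i).Prime

open Classical in
/-- The admissible `k`-sets in `[0, x^(1-δ)]`. -/
noncomputable def adm (x δ : ℝ) (k : ℕ) : Finset (Finset ℕ) :=
  ((range (⌊x ^ (1 - δ)⌋₊ + 1)).powersetCard k).filter (fun A => Admissible A)

open Classical in
/-- The admissible `k`-sets in `[0, x^(1-δ)]` without prime translate. -/
noncomputable def bad (x δ : ℝ) (k : ℕ) : Finset (Finset ℕ) :=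
  ((range (⌊x ^ (1 - δ)⌋₊ + 1)).powersetCard k).filter
    (fun A => Admissible A ∧ ¬ HasPrimeTranslate x A)

end Pool.Agent.Lib.H59P
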