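import Pool.Agent.Lib.H59P.MDefs

/-!
# Project H59P, chunk C1a
-/

open Finset

namespace Pool.Agent.Lib.H59P

open Pool.Agent.Lib.H68T Pool.Agent.Lib.H18Q

/-- Sum over a product of coordinates in `J` and outside of `J`. -/
theorem c1a_split {k : ℕ} {ι : Type*} [DecidableEq ι] (S : Finset ι) (J : Finset (Fin k))
    (A : Fin k → ι → ℂ) (c : (Fin k → ι) → ℂ) (v0 : ι)
    (hc : ∀ p : Fin k → ι, c p = c (fun i => if i ∈ J then p i else v0)) :
    ∑ p ∈ (Fintype.piFinset fun _ : Fin k => S), (∏ i ∈ univ \ J, A i (p i)) * c p =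
      (∏ i ∈ univ \ J, ∑ p ∈ S, A i p) *
        ∑ a ∈ (Fintype.piFinset fun _ : {i : Fin k // i ∈ J} => S),
          c (fun i => if h : i ∈ J then a ⟨i, h⟩ else v0) := by
  classical
  have h1 : ∑ p ∈ (Fintype.piFinset fun _ : Fin k => S), (∏ i ∈ univ \ J, A i (p i)) * c p =
      ∑ x ∈ (Fintype.piFinset fun _ : {i : Fin k // i ∈ J} => S) ×ˢ
        (Fintype.piFinset fun _ : {i : Fin k // i ∉ J} => S),
        (∏ i : {i : Fin k // i ∉ J}, A i (x.2 i)) * c (fun i => if h : i ∈ J then x.1 ⟨i, h⟩ else v0) := by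
    refine Finset.sum_nbij' (fun p => (fun i : {i : Fin k // i ∈ J} => p i, fun i : {i : Fin k // i ∉ J} => p i))
      (fun x i => if h : i ∈ J then x.1 ⟨i, h⟩ else x.2 ⟨i, h⟩) ?_ ?_ ?_ ?_ ?_
    · intro p hp
      rw [Fintype.mem_piFinset] at hp
      simp only [Finset.mem_product, Fintype.mem_piFinset]
      exact ⟨fun i => hp i, fun i => hp i⟩
    · intro x hx
      simp only [Finset.mem_product, Fintype.mem_piFinset] at hx
      rw [Fintype.mem_piFinset]
      intro i
      by_cases h : i ∈ J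
      · simp only [h, dif_pos]; exact hx.1 _
      · simp only [h, dif_neg, not_false_eq_true]; exact hx.2 _
    · intro p hp
      funext i
      by_cases h : i ∈ J
      · simp only [h, dif_pos]
      · simp only [h, dif_neg, not_false_eq_true]
    · intro x hx
      refine Prod.ext ?_ ?_
      · funext i
        simp only [i.2, dif_pos]
      · funext i
        simp only [i.2, dif_neg, not_false_eq_true]
    · intro p hp
      have e1 : (∏ i ∈ univ \ J, A i (p i)) = ∏ i : {i : Fin k // i ∉ J}, A i (p i) := by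
        rw [← Finset.prod_subtype (univ \ J) (p := fun i => i ∉ J) (f := fun i => A i (p i))]
        intro i
        simp
      have e2 : (fun i => if i ∈ J then p i else v0) = fun i => if h : i ∈ J then p ((⟨i, h⟩ : {i : Fin k // i ∈ J}) : Fin k) else v0 := by
        funext i
        by_cases h : i ∈ J
        · simp [h]
        · simp [h]
      rw [e1, hc p, e2]
  rw [h1, Finset.sum_product]
  have e3 : (∏ i ∈ univ \ J, ∑ p ∈ S, A i p) = ∏ i : {i : Fin k // i ∉ J}, ∑ p ∈ S, A i p := by
    rw [← Finset.prod_subtype (univ \ J) (p := fun i => i ∉ J) (f := fun i => ∑ p ∈ S, A i p)]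
    intro i
    simp
  rw [e3, Finset.prod_univ_sum, Finset.mul_sum]
  refine Finset.sum_congr rfl fun a _ => ?_
  rw [Finset.sum_mul]

/-- **C1a.** `φ` is a condition on tuples which, for tuples with the coordinates outside of `J` in `V`,
depends on the coordinates in `J` only; `A i` vanishes outside of `V`.

Proof. If `J` is everything the right side bounds the left side by the triangle inequality. If `V ∩ S = ∅` and
`J` is not everything, both `∏_{i ∉ J} A i (p i)` and one factor `∑_p A i p` vanish. Else fix `v0 ∈ V ∩ S` and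
let `φ'(p) = φ(p with the coordinates outside J replaced by v0)`. Since `A i (p i) = 0` unless `p i ∈ V`,
the sum is `∑_{p} [φ'(p)] ∏_{i∉J} A i (p i) ∏_{i∈J} B i (p i)`, `φ'` depends on the coordinates in `J` only, so it is
`(∏_{i ∉ J} ∑_p A i p) · ∑_{p on J} [φ'] ∏_{i∈J} B i (p i)` (`Equiv.piEquivPiSubtypeProd` /
`Fintype.piFinset` and `Finset.prod_univ_sum`; or induction over the elements outside of `J`:
summing over one coordinate `i0 ∉ J` at a time). The last sum is at most `∏_{i∈J} ∑_p ‖B i p‖`. -/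
theorem C1a {k : ℕ} {ι : Type*} [DecidableEq ι] (S V : Finset ι) (φ : (Fin k → ι) → Prop)
    [DecidablePred φ] (A B : Fin k → ι → ℂ) (J : Finset (Fin k))
    (hA : ∀ i, ∀ p ∈ S, p ∉ V → A i p = 0)
    (dep : ∀ p p' : Fin k → ι, (∀ i ∈ J, p i = p' i) → (∀ i, i ∉ J → p i ∈ V) →
      (∀ i, i ∉ J → p' i ∈ V) → (φ p ↔ φ p')) :
    ‖∑ p ∈ (Fintype.piFinset fun _ : Fin k => S).filter φ,
      (∏ i ∈ univ \ J, A i (p i)) * ∏ i ∈ J, B i (p i)‖ ≤
      (∏ i ∈ univ \ J, ‖∑ p ∈ S, A i p‖) * ∏ i ∈ J, ∑ p ∈ S, ‖B i p‖ := by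
  classical
  by_cases hJ : ∃ i, i ∉ J
  swap
  · push Not at hJ
    have hJu : J = univ := Finset.eq_univ_iff_forall.mpr hJ
    subst hJu
    simp only [Finset.sdiff_self, Finset.prod_empty, one_mul]
    refine (norm_sum_le _ _).trans ?_
    rw [Finset.prod_univ_sum]
    refine (Finset.sum_le_sum_of_subset_of_nonneg (Finset.filter_subset _ _)
      fun p _ _ => norm_nonneg _).trans ?_
    exact Finset.sum_le_sum fun p _ => le_of_eq (norm_prod _ _)
  · obtain ⟨i0, hi0⟩ := hJ
    have hR : 0 ≤ (∏ i ∈ univ \ J, ‖∑ p ∈ S, A i p‖) * ∏ i ∈ J, ∑ p ∈ S, ‖B i p‖ :=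
      mul_nonneg (Finset.prod_nonneg fun _ _ => norm_nonneg _)
        (Finset.prod_nonneg fun _ _ => Finset.sum_nonneg fun _ _ => norm_nonneg _)
    by_cases hVS : ∃ v0, v0 ∈ V ∧ v0 ∈ S
    swap
    · push Not at hVS
      rw [Finset.sum_eq_zero]
      · rw [norm_zero]; exact hR
      · intro p hp
        have hp1 := Fintype.mem_piFinset.mp (Finset.mem_filter.mp hp).1
        rw [Finset.prod_eq_zero (i := i0) (by simp [hi0]) (hA i0 (p i0) (hp1 i0) fun h => hVS _ h (hp1 i0)), zero_mul]
    · obtain ⟨v0, hv0, hv0S⟩ := hVS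
      set c : (Fin k → ι) → ℂ := fun p =>
        if φ (fun i => if i ∈ J then p i else v0) then ∏ i ∈ J, B i (p i) else 0 with hc
      have h1 : ∑ p ∈ (Fintype.piFinset fun _ : Fin k => S).filter φ,
          (∏ i ∈ univ \ J, A i (p i)) * ∏ i ∈ J, B i (p i) =
          ∑ p ∈ (Fintype.piFinset fun _ : Fin k => S), (∏ i ∈ univ \ J, A i (p i)) * c p := by
        rw [Finset.sum_filter]
        refine Finset.sum_congr rfl fun p hp => ?_
        have hp1 := Fintype.mem_piFinset.mp hp
        by_cases hpV : ∀ i, i ∉ J → p i ∈ V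
        · have hd : φ p ↔ φ (fun i => if i ∈ J then p i else v0) := by
            refine dep _ _ (fun i hi => by simp [hi]) hpV fun i hi => ?_
            simp [hi, hv0]
          simp only [hc]
          by_cases hφ : φ p
          · rw [if_pos hφ, if_pos (hd.mp hφ)]
          · rw [if_neg hφ, if_neg (fun h => hφ (hd.mpr h)), mul_zero]
        · push Not at hpV
          obtain ⟨i1, hi1, hi1V⟩ := hpV
          have h0 : ∏ i ∈ univ \ J, A i (p i) = 0 :=
            Finset.prod_eq_zero (i := i1) (by simp [hi1]) (hA i1 (p i1) (hp1 i1) hi1V)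
          rw [h0, zero_mul, zero_mul, ite_self]
      have hcc : ∀ p : Fin k → ι, c p = c (fun i => if i ∈ J then p i else v0) := by
        intro p
        simp only [hc]
        have e1 : (fun i => if i ∈ J then (if i ∈ J then p i else v0) else v0) = fun i => if i ∈ J then p i else v0 := by
          funext i
          by_cases h : i ∈ J <;> simp [h]
        rw [e1]
        have e2 : ∏ i ∈ J, B i (if i ∈ J then p i else v0) = ∏ i ∈ J, B i (p i) :=
          Finset.prod_congr rfl fun i hi => by rw [if_pos hi]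
        rw [e2]
      rw [h1, c1a_split S J A c v0 hcc, norm_mul, norm_prod]
      refine mul_le_mul_of_nonneg_left ?_ (Finset.prod_nonneg fun _ _ => norm_nonneg _)
      refine (norm_sum_le _ _).trans ?_
      have e3 : ∏ i ∈ J, ∑ p ∈ S, ‖B i p‖ = ∏ i : {i : Fin k // i ∈ J}, ∑ p ∈ S, ‖B i p‖ := by
        rw [← Finset.prod_subtype J (p := fun i => i ∈ J) (f := fun i => ∑ p ∈ S, ‖B i p‖)]
        intro i
        simp
      rw [e3, Finset.prod_univ_sum]
      refine Finset.sum_le_sum fun a _ => ?_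
      have e4 : ∏ i : {i : Fin k // i ∈ J}, ‖B i (a i)‖ =
          ‖∏ i ∈ J, B i ((fun i => if h : i ∈ J then a ⟨i, h⟩ else v0) i)‖ := by
        rw [norm_prod, ← Finset.prod_attach J]
        rw [Finset.univ_eq_attach]
        refine Finset.prod_congr rfl fun i _ => ?_
        simp only [i.2, dif_pos]
      rw [e4]
      simp only [hc]
      split_ifs
      · exact le_rfl
      · rw [norm_zero]; exact norm_nonneg _

end Pool.Agent.Lib.H59P
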