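import Pool.Agent.Lib.H18Q.CL1
import Pool.Agent.Lib.H18Q.CA

/-!
# Project H59P: power savings for prime k-tuples (MP_f686a1_nt), definitions

See `PROOF.md` in this folder. The arithmetic input is `LevE` (project H18Q made quantitative): on
`[X, 4X]` the projection `Lk` of `lp` at level `Q` is a sum of components with slowly varying
coefficients, `1` at the trivial character, `-th m` at one real character `px`, and small ones.
-/

open Finset

namespace Pool.Agent.Lib.H59P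

open Pool.Agent.Lib.H68T Pool.Agent.Lib.H18Q

noncomputable section

/-- Characters with their modulus. -/
abbrev Ch := Σ r : ℕ, DirichletCharacter ℂ r

open Classical in
/-- The coefficients of the model: `1` at the trivial character, `-th m` at `px`, `0` else.
(For `px = p0`: `1` at `p0`, `0` else.) -/
def MX (px : Ch) (th : ℤ → ℝ) (m : ℤ) (p : Ch) : ℂ :=
  if p = p0 then 1 else if p = px then -((th m : ℝ) : ℂ) else 0

/-- The projection `Lk` at level `Q` on `[X, 4X]` is the model with coefficients `M m p` up to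
coefficients `e m p` of total size `E`; the latter vary slowly. -/
def LevE (Q X : ℕ) (E : ℝ) (M : ℤ → Ch → ℂ) : Prop :=
  ∃ (e : ℤ → Ch → ℂ) (eb : Ch → ℝ), (∀ p ∈ PC Q, 0 ≤ eb p) ∧ ∑ p ∈ PC Q, eb p ≤ E ∧
    ∀ m : ℤ, (X : ℤ) ≤ m → m ≤ 4 * X →
      ((Lk Q (X / Q ^ 2) m : ℝ) : ℂ) = SG Q (fun p => M m p + e m p) m ∧
      ∀ p ∈ PC Q, ‖e m p‖ ≤ eb p ∧ ‖e (m + 1) p - e m p‖ ≤ (Q : ℝ) ^ 3 / X

/-- Everything the additive part needs about the level `Q` and the length `X`: the level structure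
with the model `MX px th`, `px` a real character of small conductor, `0 ≤ th ≤ 1 - η` slowly varying,
and the coefficients of the error at most `η E0` in total. -/
structure Mdl (Q X : ℕ) (η E0 : ℝ) (px : Ch) (th : ℤ → ℝ) : Prop where
  eta_pos : 0 < η
  eta_le : η ≤ 1
  mem : px ∈ PC Q
  real : px.2 ^ 2 = 1
  cond : px.1 ^ 100 ≤ Q
  triv : px = p0 → ∀ m, th m = 0
  nonneg : ∀ m, (X : ℤ) ≤ m → m ≤ 4 * X → 0 ≤ th m
  le : ∀ m, (X : ℤ) ≤ m → m ≤ 4 * X → th m ≤ 1 - η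
  slow : ∀ m, (X : ℤ) ≤ m → m + 1 ≤ 4 * X → |th (m + 1) - th m| ≤ (Q : ℝ) ^ 3 / X
  lev : LevE Q X (η * E0) (MX px th)

/-- The local factor of the expansion of the von Mangoldt function at the prime `l`: `-1` if `l` divides
`m`, else `1/(l-1)`; so `1 + gl l m = l/(l-1)` if `l` does not divide `m`, and `0` else. -/
def gl (l : ℕ) (m : ℤ) : ℝ := if (l : ℤ) ∣ m then -1 else 1 / ((l : ℝ) - 1)

/-- `∏_{l ∈ P} (1 + gl l m)` -/
def uu (P : Finset ℕ) (m : ℤ) : ℝ := ∏ l ∈ P, (1 + gl l m)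

/-- The primes up to `z`. -/
def pr (z : ℕ) : Finset ℕ := (Icc 1 z).filter Nat.Prime

/-- The local factor of the singular series at the prime `l`, minus `1`. -/
def tp {k : ℕ} (l : ℕ) (h : Fin k → ℕ) : ℝ :=
  (∑ n ∈ range l, ∏ i, (1 + gl l ((n : ℤ) + h i))) / l - 1

/-- The product of the local factors of the singular series over the primes in `P`. -/
def SS {k : ℕ} (P : Finset ℕ) (h : Fin k → ℕ) : ℝ := ∏ l ∈ P, (1 + tp l h)

/-- `∏_i (1 + gl l (n + h_i)) - 1` -/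
def Wl {k : ℕ} (l : ℕ) (h : Fin k → ℕ) (n : ℤ) : ℝ := ∏ i, (1 + gl l (n + h i)) - 1

/-- `∏_{l ∣ d} Wl l h n` (`d` squarefree) -/
def Wd {k : ℕ} (d : ℕ) (h : Fin k → ℕ) (n : ℤ) : ℝ := ∏ l ∈ d.primeFactors, Wl l h n

/-- `∏_{l ∣ d} tp l h` (`d` squarefree) -/
def td {k : ℕ} (d : ℕ) (h : Fin k → ℕ) : ℝ := ∏ l ∈ d.primeFactors, tp l h

/-- The squarefree `d ≤ D` coprime to `R`. -/
def SF (D R : ℕ) : Finset ℕ :=
  open Classical in (Icc 1 D).filter (fun d => Squarefree d ∧ Nat.Coprime d R)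

/-- `h` is admissible: for every prime `l` some `n` makes all `n + h_i` prime to `l`. -/
def Adm {k : ℕ} (h : Fin k → ℕ) : Prop :=
  ∀ l : ℕ, l.Prime → ∃ n : ℕ, ∀ i, ¬ l ∣ n + h i

/-- The cube `∏ [b_i, b_i + H)`. -/
def cube {k : ℕ} (b : Fin k → ℕ) (H : ℕ) : Finset (Fin k → ℕ) :=
  Fintype.piFinset fun i => Ico (b i) (b i + H)

/-- The component of the character `p`: `Gam Q r m conj χ(m)`. -/
def Fp (Q : ℕ) (p : Ch) (m : ℤ) : ℂ :=
  (Gam Q p.1 m : ℂ) * (starRingEnd ℂ) (p.2 (m : ZMod p.1))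

/-- The number of integers `n`, `X ≤ n < 2 X`, for which all `n + h_i` are primes. -/
def Nh {k : ℕ} (X : ℕ) (h : Fin k → ℕ) : ℕ :=
  ((Ico X (2 * X)).filter (fun n => ∀ i, (n + h i).Prime)).card

/-- The weighted count `∑_n ∏_i lp(n + h_i)`. -/
def Rh {k : ℕ} (X : ℕ) (h : Fin k → ℕ) : ℝ :=
  ∑ n ∈ Ico X (2 * X), ∏ i, lp ((n : ℤ) + h i)

end

end Pool.Agent.Lib.H59P
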