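import Pool.Agent.Lib.H51D.VDefs

/-!
# Project H59P, part HB: the converse from `(1/2 + ε) k` primes for few sets
-/

open Finset

namespace Pool.Agent.Lib.H59P

open Pool.Agent.Lib.H68T

/-- Some `n ≤ x` makes at least `(1/2 + ε) |A|` of the `n + a` prime. -/
def HasManyPrimes (x ε : ℝ) (A : Finset ℕ) : Prop :=
  ∃ n : ℕ, 1 ≤ n ∧ (n : ℝ) ≤ x ∧
    (1 / 2 + ε) * (A.card : ℝ) ≤ ((A.filter (fun a => (n + a).Prime)).card : ℝ)

/-- At least the proportion `exp (-ε² k/10)` of the admissible `k`-sets has a translate with at least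
`(1/2 + ε) k` primes, for all large `x`, for all `k ≤ (log x)^(κ-δ)`. -/
def SomeHaveManyK (κ ε : ℝ) : Prop :=
  open Classical in
  ∀ δ : ℝ, 0 < δ → δ < κ → ∃ x₀ : ℝ, ∀ x : ℝ, x₀ ≤ x → ∀ k : ℕ, 1 ≤ k →
    (k : ℝ) ≤ (Real.log x) ^ (κ - δ) →
    Real.exp (-(ε ^ 2 * k / 10)) * ((((range (⌊x ^ (1 - δ)⌋₊ + 1)).powersetCard k).filter
      (fun A => Admissible A)).card : ℝ) ≤
      ((((range (⌊x ^ (1 - δ)⌋₊ + 1)).powersetCard k).filter (fun A => Admissible A ∧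
        HasManyPrimes x ε A)).card : ℝ)

theorem barrierMany (κ ε : ℝ) (hκ : 0 < κ) (hκ1 : κ ≤ 1) (hε : 0 < ε) (hε1 : ε ≤ 1 / 2) :
    SomeHaveManyK κ ε → NoSiegelK κ := by
  sorry

end Pool.Agent.Lib.H59P
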