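import Pool.Agent.Lib.H59P.T4A

/-!
# Chunk T4B (M): exponential moment of `GG` over the injective tuples

* `T4B_one`: `a : Fin m → ℕ` with values `< M`, `x` runs over the elements of `range M` different from all
  `a j`. If `m = 0` the sum is `M ≤ 2 exp 6 M`. Let `m ≥ 1`. By convexity of `exp` (Jensen, or AM-GM:
  `exp ((1/m) ∑_j y_j) ≤ (1/m) ∑_j exp y_j`, `convexOn_exp.map_sum_le`, `y_j = λ m F(|x - a_j|)`) the sum is
  at most `(1/m) ∑_j ∑_{x ∈ range M, x ≠ a_j} exp (λ m F(|x - a_j|))`. For fixed `j` the map `x ↦ |x - a_j|`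
  has values in `Icc 1 M` and each value is taken at most twice, so the inner sum is at most
  `2 ∑_{n ∈ Icc 1 M} exp (λ m F n) ≤ 2 M exp 6` (`T4A_sum` with `λ m`). (`Fz ≥ 0` is not needed.)
* `T4B_sum`: induction on `k`; `k = 0`: one tuple, `GG = 0`, both sides `1`. Step: the injective tuples of
  length `k + 1` are `Fin.snoc h x` with `h` injective and `x` not among the values of `h`
  (`Fin.snocEquiv`, `Fin.init`), the pairs `p.2 < p.1` of `Fin (k+1)` are those of `Fin k`
  (`Fin.castSucc`) and `(Fin.last k, j.castSucc)`, so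
  `GG (snoc h x) = GG h + ∑_j Fz |x - h j|`. For fixed `h` the sum over `x` is bounded by `T4B_one`
  (`λ k w^(η-1) ≤ λ (k+1) w^(η-1) ≤ 1`), and the rest by the induction hypothesis.
* `T4B_markov`: `#{...} exp (λ T) ≤ ∑ exp (λ GG)`.
-/

open Finset

namespace Pool.Agent.Lib.H59P

/-- The distances to `a` take every value at most twice. -/
theorem t4b_two (g : ℕ → ℝ) (hg : ∀ n, 0 ≤ g n) (M a : ℕ) (ha : a < M) (F : Finset ℕ)
    (hF : ∀ x ∈ F, x < M ∧ x ≠ a) :
    ∑ x ∈ F, g ((x : ℤ) - (a : ℤ)).natAbs ≤ 2 * ∑ n ∈ Icc 1 M, g n := by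
  classical
  have key : ∀ F' : Finset ℕ, F' ⊆ F →
      Set.InjOn (fun x : ℕ => ((x : ℤ) - (a : ℤ)).natAbs) (F' : Set ℕ) →
      ∑ x ∈ F', g ((x : ℤ) - (a : ℤ)).natAbs ≤ ∑ n ∈ Icc 1 M, g n := by
    intro F' hF' hinj
    rw [← Finset.sum_image (f := g) (g := fun x : ℕ => ((x : ℤ) - (a : ℤ)).natAbs) hinj]
    refine Finset.sum_le_sum_of_subset_of_nonneg ?_ fun n _ _ => hg n
    intro n hn
    obtain ⟨x, hx, rfl⟩ := mem_image.1 hn
    obtain ⟨h1, h2⟩ := hF x (hF' hx)
    rw [mem_Icc]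
    omega
  rw [← Finset.sum_filter_add_sum_filter_not F (fun x => x < a), two_mul]
  refine add_le_add (key _ (Finset.filter_subset _ _) ?_) (key _ (Finset.filter_subset _ _) ?_)
  · intro x hx y hy hxy
    have h1 := (mem_filter.1 (Finset.mem_coe.1 hx)).2
    have h2 := (mem_filter.1 (Finset.mem_coe.1 hy)).2
    have h3 : ((x : ℤ) - (a : ℤ)).natAbs = ((y : ℤ) - (a : ℤ)).natAbs := hxy
    omega
  · intro x hx y hy hxy
    have h1 := (mem_filter.1 (Finset.mem_coe.1 hx)).2
    have h2 := (mem_filter.1 (Finset.mem_coe.1 hy)).2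
    have h3 : ((x : ℤ) - (a : ℤ)).natAbs = ((y : ℤ) - (a : ℤ)).natAbs := hxy
    omega

/-- Jensen. -/
theorem t4b_jensen {m : ℕ} (hm : 0 < m) (y : Fin m → ℝ) :
    Real.exp (∑ j, y j) ≤ (m : ℝ)⁻¹ * ∑ j, Real.exp (m * y j) := by
  have hm' : (m : ℝ) ≠ 0 := by exact_mod_cast hm.ne'
  have h1 := convexOn_exp.map_sum_le (t := (univ : Finset (Fin m))) (w := fun _ => (m : ℝ)⁻¹)
    (p := fun j => m * y j) (fun _ _ => by positivity) (by
      rw [Finset.sum_const, Finset.card_univ, Fintype.card_fin, nsmul_eq_mul]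
      exact mul_inv_cancel₀ hm') (fun _ _ => Set.mem_univ _)
  simp only [smul_eq_mul] at h1
  rw [Finset.mul_sum]
  refine le_trans (le_of_eq ?_) h1
  congr 1
  refine Finset.sum_congr rfl fun j _ => ?_
  rw [inv_mul_cancel_left₀ hm']

theorem T4B_one (η w lam : ℝ) (hη : 0 < η) (hη2 : η ≤ 1 / 2) (hw : 1 ≤ w) (hlam : 0 ≤ lam) (m X M : ℕ)
    (hm : lam * m * w ^ (η - 1) ≤ 1) (a : Fin m → ℕ) (ha : ∀ j, a j < M) :
    ∑ x ∈ (range M).filter (fun x => ∀ j, x ≠ a j),
      Real.exp (lam * ∑ j, Fz η w X ((x : ℤ) - (a j : ℤ)).natAbs) ≤ 2 * Real.exp 6 * M := by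
  have he6 : 1 ≤ Real.exp 6 := Real.one_le_exp (by norm_num)
  have hM0 : (0 : ℝ) ≤ M := Nat.cast_nonneg M
  rcases Nat.eq_zero_or_pos m with rfl | hm0
  · have h1 : ∀ x ∈ (range M).filter (fun x => ∀ j, x ≠ a j),
        Real.exp (lam * ∑ j, Fz η w X ((x : ℤ) - (a j : ℤ)).natAbs) ≤ 1 := by
      intro x _
      simp
    refine (Finset.sum_le_sum h1).trans ?_
    rw [Finset.sum_const, nsmul_eq_mul, mul_one]
    have h2 : (((range M).filter (fun x => ∀ j, x ≠ a j)).card : ℝ) ≤ M := by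
      have h3 := Finset.card_filter_le (range M) (fun x => ∀ j, x ≠ a j)
      rw [card_range] at h3
      exact_mod_cast h3
    nlinarith
  have hm' : (0 : ℝ) < m := by exact_mod_cast hm0
  have h1 : ∀ x ∈ (range M).filter (fun x => ∀ j, x ≠ a j),
      Real.exp (lam * ∑ j, Fz η w X ((x : ℤ) - (a j : ℤ)).natAbs) ≤
      (m : ℝ)⁻¹ * ∑ j, Real.exp (lam * m * Fz η w X ((x : ℤ) - (a j : ℤ)).natAbs) := by
    intro x _
    rw [Finset.mul_sum]
    refine (t4b_jensen hm0 _).trans (le_of_eq ?_)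
    congr 1
    refine Finset.sum_congr rfl fun j _ => ?_
    congr 1
    ring
  refine (Finset.sum_le_sum h1).trans ?_
  rw [← Finset.mul_sum, Finset.sum_comm]
  have h2 : ∀ j ∈ (univ : Finset (Fin m)), ∑ x ∈ (range M).filter (fun x => ∀ j, x ≠ a j),
      Real.exp (lam * m * Fz η w X ((x : ℤ) - (a j : ℤ)).natAbs) ≤ 2 * (M * Real.exp 6) := by
    intro j _
    have h3 := t4b_two (fun n => Real.exp (lam * m * Fz η w X n)) (fun n => (Real.exp_pos _).le)
      M (a j) (ha j) ((range M).filter (fun x => ∀ j, x ≠ a j)) fun x hx => by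
        obtain ⟨h4, h5⟩ := mem_filter.1 hx
        exact ⟨mem_range.1 h4, h5 j⟩
    have h4 := T4A_sum η w (lam * m) hη hη2 hw (by positivity) hm X M
    exact h3.trans (mul_le_mul_of_nonneg_left h4 (by norm_num))
  have h3 := Finset.sum_le_sum h2
  rw [Finset.sum_const, Finset.card_univ, Fintype.card_fin, nsmul_eq_mul] at h3
  refine (mul_le_mul_of_nonneg_left h3 (inv_nonneg.2 hm'.le)).trans (le_of_eq ?_)
  rw [inv_mul_cancel_left₀ hm'.ne']
  ring

/-- The pairs of `Fin (k + 1)`. -/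
theorem t4b_prs {k : ℕ} (f : Fin (k + 1) × Fin (k + 1) → ℝ) :
    ∑ p ∈ prs (k + 1), f p = ∑ i : Fin k, f (i.succ, 0) + ∑ p ∈ prs k, f (p.1.succ, p.2.succ) := by
  unfold prs
  rw [Finset.sum_filter, Finset.sum_filter, Fintype.sum_prod_type, Fintype.sum_prod_type,
    Fin.sum_univ_succ]
  have h1 : ∑ j : Fin (k + 1), (if ((0 : Fin (k + 1)), j).2 < ((0 : Fin (k + 1)), j).1
      then f (0, j) else 0) = 0 := by
    refine Finset.sum_eq_zero fun j _ => if_neg ?_
    exact Fin.not_lt_zero j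
  rw [h1, zero_add, ← Finset.sum_add_distrib]
  refine Finset.sum_congr rfl fun i _ => ?_
  rw [Fin.sum_univ_succ]
  simp only [Fin.succ_pos, if_true, Fin.succ_lt_succ_iff]

theorem t4b_GG {k : ℕ} (η w : ℝ) (X x : ℕ) (h : Fin k → ℕ) :
    GG η w X (Fin.cons x h : Fin (k + 1) → ℕ) =
      ∑ j, Fz η w X ((x : ℤ) - (h j : ℤ)).natAbs + GG η w X h := by
  unfold GG
  rw [t4b_prs]
  simp only [Fin.cons_succ, Fin.cons_zero]
  congr 1
  refine Finset.sum_congr rfl fun j _ => ?_
  rw [← Int.natAbs_neg, neg_sub]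

open Classical in
theorem T4B_sum (η w lam : ℝ) (hη : 0 < η) (hη2 : η ≤ 1 / 2) (hw : 1 ≤ w) (hlam : 0 ≤ lam) (k X M : ℕ)
    (hk : lam * k * w ^ (η - 1) ≤ 1) :
    ∑ h ∈ (Fintype.piFinset (fun _ : Fin k => range M)).filter (fun h => Function.Injective h),
      Real.exp (lam * GG η w X h) ≤ (2 * Real.exp 6 * M) ^ k := by
  have hw0 : 0 < w := by linarith
  induction k with
  | zero =>
    have h1 : ∀ h : Fin 0 → ℕ, Real.exp (lam * GG η w X h) ≤ 1 := by
      intro h
      have h2 : GG η w X h = 0 := by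
        unfold GG prs
        refine Finset.sum_eq_zero fun p _ => ?_
        exact p.1.elim0
      rw [h2, mul_zero, Real.exp_zero]
    refine (Finset.sum_le_sum fun h _ => h1 h).trans ?_
    rw [Finset.sum_const, nsmul_eq_mul, mul_one, pow_zero]
    have h2 := Finset.card_filter_le (Fintype.piFinset (fun _ : Fin 0 => range M))
      (fun h => Function.Injective h)
    have h3 : (Fintype.piFinset (fun _ : Fin 0 => range M)).card = 1 := by simp
    rw [h3] at h2
    exact_mod_cast h2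
  | succ k ih =>
    have hk' : lam * k * w ^ (η - 1) ≤ 1 := by
      refine le_trans ?_ hk
      refine mul_le_mul_of_nonneg_right ?_ (Real.rpow_nonneg hw0.le _)
      push_cast
      nlinarith
    have h1 : ∑ h ∈ (Fintype.piFinset (fun _ : Fin (k + 1) => range M)).filter
          (fun h => Function.Injective h), Real.exp (lam * GG η w X h) =
        ∑ h ∈ (Fintype.piFinset (fun _ : Fin k => range M)).filter (fun h => Function.Injective h),
          ∑ x ∈ (range M).filter (fun x => ∀ j, x ≠ h j),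
            Real.exp (lam * GG η w X (Fin.cons x h : Fin (k + 1) → ℕ)) := by
      rw [Finset.sum_sigma']
      refine Finset.sum_bij' (fun (h : Fin (k + 1) → ℕ) _ =>
          (⟨Fin.tail h, h 0⟩ : (_ : Fin k → ℕ) × ℕ))
        (fun (p : (_ : Fin k → ℕ) × ℕ) _ => (Fin.cons p.2 p.1 : Fin (k + 1) → ℕ)) ?_ ?_ ?_ ?_ ?_
      · intro h hh
        obtain ⟨h2, h3⟩ := mem_filter.1 hh
        rw [Fintype.mem_piFinset] at h2
        rw [mem_sigma, mem_filter, mem_filter, Fintype.mem_piFinset]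
        refine ⟨⟨fun j => h2 j.succ, fun i j hij => ?_⟩, h2 0, fun j hj => ?_⟩
        · exact Fin.succ_injective _ (h3 hij)
        · have h4 : h 0 = h j.succ := hj
          exact (Fin.succ_ne_zero j) (h3 h4).symm
      · intro p hp
        rw [mem_sigma, mem_filter, mem_filter, Fintype.mem_piFinset] at hp
        obtain ⟨⟨h2, h3⟩, h4, h5⟩ := hp
        rw [mem_filter, Fintype.mem_piFinset]
        refine ⟨fun j => ?_, Fin.cons_injective_iff.2 ⟨?_, h3⟩⟩
        · refine Fin.cases ?_ (fun j => ?_) j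
          · rw [Fin.cons_zero]
            exact h4
          · rw [Fin.cons_succ]
            exact h2 j
        · rintro ⟨j, hj⟩
          exact h5 j hj.symm
      · intro h _
        exact Fin.cons_self_tail h
      · intro p _
        simp only [Fin.tail_cons, Fin.cons_zero]
      · intro h _
        simp only [Fin.cons_self_tail]
    rw [h1]
    have h2 : ∀ h ∈ (Fintype.piFinset (fun _ : Fin k => range M)).filter
        (fun h => Function.Injective h), ∑ x ∈ (range M).filter (fun x => ∀ j, x ≠ h j),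
            Real.exp (lam * GG η w X (Fin.cons x h : Fin (k + 1) → ℕ)) ≤
        2 * Real.exp 6 * M * Real.exp (lam * GG η w X h) := by
      intro h hh
      obtain ⟨h3, -⟩ := mem_filter.1 hh
      rw [Fintype.mem_piFinset] at h3
      have h4 := T4B_one η w lam hη hη2 hw hlam k X M hk' h fun j => mem_range.1 (h3 j)
      have h5 : ∀ x ∈ (range M).filter (fun x => ∀ j, x ≠ h j),
          Real.exp (lam * GG η w X (Fin.cons x h : Fin (k + 1) → ℕ)) =
          Real.exp (lam * ∑ j, Fz η w X ((x : ℤ) - (h j : ℤ)).natAbs) *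
            Real.exp (lam * GG η w X h) := by
        intro x _
        rw [t4b_GG, mul_add, Real.exp_add]
      rw [Finset.sum_congr rfl h5, ← Finset.sum_mul]
      exact mul_le_mul_of_nonneg_right h4 (Real.exp_pos _).le
    refine (Finset.sum_le_sum h2).trans ?_
    rw [← Finset.mul_sum, pow_succ, mul_comm _ (2 * Real.exp 6 * (M : ℝ))]
    exact mul_le_mul_of_nonneg_left (ih hk') (by positivity)

open Classical in
theorem T4B_markov (η w lam T : ℝ) (hη : 0 < η) (hη2 : η ≤ 1 / 2) (hw : 1 ≤ w) (hlam : 0 ≤ lam)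
    (k X M : ℕ) (hk : lam * k * w ^ (η - 1) ≤ 1) :
    (((Fintype.piFinset (fun _ : Fin k => range M)).filter
      (fun h => Function.Injective h ∧ T < GG η w X h)).card : ℝ) ≤
      (2 * Real.exp 6 * M) ^ k * Real.exp (-(lam * T)) := by
  have h1 := T4B_sum η w lam hη hη2 hw hlam k X M hk
  have h2 : (((Fintype.piFinset (fun _ : Fin k => range M)).filter
      (fun h => Function.Injective h ∧ T < GG η w X h)).card : ℝ) * Real.exp (lam * T) ≤
      ∑ h ∈ (Fintype.piFinset (fun _ : Fin k => range M)).filter (fun h => Function.Injective h),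
        Real.exp (lam * GG η w X h) := by
    rw [← nsmul_eq_mul, ← Finset.sum_const]
    refine le_trans (Finset.sum_le_sum (g := fun h => Real.exp (lam * GG η w X h)) ?_) ?_
    · intro h hh
      obtain ⟨-, -, h3⟩ := mem_filter.1 hh
      exact Real.exp_le_exp.2 (mul_le_mul_of_nonneg_left h3.le hlam)
    · refine Finset.sum_le_sum_of_subset_of_nonneg ?_ fun _ _ _ => (Real.exp_pos _).le
      intro h hh
      obtain ⟨h3, h4, -⟩ := mem_filter.1 hh
      exact mem_filter.2 ⟨h3, h4⟩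
  rw [Real.exp_neg, ← div_eq_mul_inv, le_div_iff₀ (Real.exp_pos _)]
  exact h2.trans h1

end Pool.Agent.Lib.H59P
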