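import Pool.Agent.Lib.H59P.TDefs

/-!
# Chunk T4A (M): exponential moment of the sum over the large prime divisors

* `T4A_int`: for integers `l > w ≥ 1` and `0 < η ≤ 1/2`: `∑_{l > w} l^(η-2) ≤ w^(η-2) + ∫_w^∞ t^(η-2) dt ≤
  w^(η-1) + w^(η-1)/(1-η) ≤ 3 w^(η-1)`. Elementary way: for `l ≥ 2`, `l^(η-2) ≤ 2 ((l-1)^(η-1) - l^(η-1))`
  (mean value theorem: `(l-1)^(η-1) - l^(η-1) ≥ (1-η) l^(η-2) ≥ l^(η-2)/2`), telescope from `l0 = ⌊w⌋ + 1`,
  and treat the first term `l0^(η-2) ≤ w^(η-1)` separately (`l0 > w ≥ 1`; the rest is at most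
  `2 l0^(η-1) ≤ 2 w^(η-1)`).
* `T4A_sum`. Let `𝒫 = {l ∈ pr X : w < l}` and `β l = exp (m l^(η-1)) - 1`. As `m l^(η-1) ≤ m w^(η-1) ≤ 1` and
  `e^t - 1 ≤ 2 t` for `0 ≤ t ≤ 1`: `0 ≤ β l ≤ 2 m l^(η-1)`. For `n ≥ 1`:
  `exp (m Fz n) = ∏_{l ∈ 𝒫, l ∣ n} (1 + β l) = ∑_{S ⊆ 𝒫} [∏ S ∣ n] ∏_{l ∈ S} β l` (distinct primes all
  divide `n` iff their product does: `Finset.prod_primes_dvd` or `Finset.prod_dvd_of_coprime`). Sum over
  `1 ≤ n ≤ N`: the number of `n ≤ N` divisible by `d` is at most `N/d`. So the sum is at most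
  `N ∑_{S ⊆ 𝒫} ∏_{l ∈ S} β l / l = N ∏_{l ∈ 𝒫} (1 + β l/l) ≤ N exp (2 m ∑_{l ∈ 𝒫} l^(η-2)) ≤ N exp 6`.
-/

open Finset

namespace Pool.Agent.Lib.H59P

/-- One step of the comparison with the integral. -/
theorem t4a_step (η : ℝ) (hη : 0 < η) (hη2 : η ≤ 1 / 2) (l : ℕ) (hl : 2 ≤ l) :
    (l : ℝ) ^ (η - 2) ≤ 2 * (((l : ℝ) - 1) ^ (η - 1) - (l : ℝ) ^ (η - 1)) := by
  have hl' : (2 : ℝ) ≤ l := by exact_mod_cast hl
  have hl0 : (0 : ℝ) < l := by linarith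
  have hl1 : (0 : ℝ) < (l : ℝ) - 1 := by linarith
  -- `(1 - 1/l) ^ (η - 1) ≥ 1 + (1 - η) / l`
  have h1 : 1 + (1 - η) * (1 / l) ≤ (((l : ℝ) - 1) / l) ^ (η - 1) := by
    have h2 : (((l : ℝ) - 1) / l) ^ (η - 1) = Real.exp (Real.log (((l : ℝ) - 1) / l) * (η - 1)) :=
      Real.rpow_def_of_pos (by positivity) _
    have h3 : Real.log (((l : ℝ) - 1) / l) ≤ -(1 / l) := by
      refine (Real.log_le_sub_one_of_pos (by positivity)).trans (le_of_eq ?_)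
      field_simp
      ring
    have h4 : (1 - η) * (1 / l) ≤ Real.log (((l : ℝ) - 1) / l) * (η - 1) := by
      have h5 : 0 ≤ 1 - η := by linarith
      nlinarith
    rw [h2]
    linarith [Real.add_one_le_exp (Real.log (((l : ℝ) - 1) / l) * (η - 1))]
  have h6 : ((l : ℝ) - 1) ^ (η - 1) = (l : ℝ) ^ (η - 1) * (((l : ℝ) - 1) / l) ^ (η - 1) := by
    rw [← Real.mul_rpow hl0.le (by positivity)]
    congr 1
    field_simp
  have h7 : (l : ℝ) ^ (η - 2) = (l : ℝ) ^ (η - 1) * (1 / l) := by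
    have h8 : η - 2 = (η - 1) - 1 := by ring
    rw [h8, Real.rpow_sub_one hl0.ne']
    ring
  have h9 : 0 < (l : ℝ) ^ (η - 1) := Real.rpow_pos_of_pos hl0 _
  rw [h6, h7]
  have h10 : (l : ℝ) ^ (η - 1) * (1 + (1 - η) * (1 / l)) ≤
      (l : ℝ) ^ (η - 1) * (((l : ℝ) - 1) / l) ^ (η - 1) := mul_le_mul_of_nonneg_left h1 h9.le
  have h11 : (l : ℝ) ^ (η - 1) * (1 / l) ≤ 2 * ((l : ℝ) ^ (η - 1) * ((1 - η) * (1 / l))) := by
    have h12 : 0 ≤ (l : ℝ) ^ (η - 1) * (1 / l) := by positivity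
    nlinarith
  linarith

theorem t4a_tele (η : ℝ) (hη : 0 < η) (hη2 : η ≤ 1 / 2) (a : ℕ) (ha : 1 ≤ a) (N : ℕ) :
    ∑ l ∈ Ioc a (a + N), (l : ℝ) ^ (η - 2) ≤ 2 * ((a : ℝ) ^ (η - 1) - ((a + N : ℕ) : ℝ) ^ (η - 1)) := by
  induction N with
  | zero => simp
  | succ N ih =>
    have h1 : a + (N + 1) = (a + N) + 1 := by ring
    rw [h1, Finset.sum_Ioc_succ_top (by omega)]
    have h2 := t4a_step η hη hη2 (a + N + 1) (by omega)
    have h3 : (((a + N + 1 : ℕ) : ℝ) - 1) = ((a + N : ℕ) : ℝ) := by push_cast; ring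
    rw [h3] at h2
    linarith

theorem T4A_int (η w : ℝ) (hη : 0 < η) (hη2 : η ≤ 1 / 2) (hw : 1 ≤ w) (X : ℕ) :
    ∑ l ∈ (pr X).filter (fun l : ℕ => w < (l : ℝ)), (l : ℝ) ^ (η - 2) ≤ 3 * w ^ (η - 1) := by
  have hw0 : 0 < w := by linarith
  set a := ⌊w⌋₊ + 1 with ha
  have haw : w < (a : ℝ) := by
    rw [ha]
    push_cast
    exact Nat.lt_floor_add_one w
  have hsub : (pr X).filter (fun l : ℕ => w < (l : ℝ)) ⊆ insert a (Ioc a (a + X)) := by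
    intro l hl
    obtain ⟨h1, h2⟩ := mem_filter.1 hl
    have h3 := (mem_pr.1 h1).1
    have h4 : ⌊w⌋₊ < l := (Nat.floor_lt hw0.le).2 h2
    rw [mem_insert, mem_Ioc]
    omega
  refine (Finset.sum_le_sum_of_subset_of_nonneg hsub fun l _ _ => by positivity).trans ?_
  rw [Finset.sum_insert (by simp)]
  have h5 := t4a_tele η hη hη2 a (by omega) X
  have h6 : (0 : ℝ) ≤ ((a + X : ℕ) : ℝ) ^ (η - 1) := by positivity
  have h7 : (a : ℝ) ^ (η - 1) ≤ w ^ (η - 1) :=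
    Real.rpow_le_rpow_of_nonpos hw0 haw.le (by linarith)
  have h8 : (a : ℝ) ^ (η - 2) ≤ w ^ (η - 1) := by
    have h9 : (a : ℝ) ^ (η - 2) ≤ w ^ (η - 2) :=
      Real.rpow_le_rpow_of_nonpos hw0 haw.le (by linarith)
    have h10 : w ^ (η - 2) ≤ w ^ (η - 1) := Real.rpow_le_rpow_of_exponent_le hw (by linarith)
    linarith
  linarith

/-- The expansion of the exponential. -/
theorem t4a_exp (η w m : ℝ) (X n : ℕ) (hn : n ≠ 0) :
    Real.exp (m * Fz η w X n) =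
      ∑ S ∈ ((pr X).filter (fun l : ℕ => w < (l : ℝ))).powerset,
        (if (∏ l ∈ S, l) ∣ n then (1 : ℝ) else 0) *
          ∏ l ∈ S, (Real.exp (m * (l : ℝ) ^ (η - 1)) - 1) := by
  classical
  set PP := (pr X).filter (fun l : ℕ => w < (l : ℝ)) with hPP
  have hpr : ∀ l ∈ PP, l.Prime := fun l hl => (mem_pr.1 (mem_filter.1 hl).1).2
  have h1 : Real.exp (m * Fz η w X n) =
      ∏ l ∈ PP, (1 + (if l ∣ n then (Real.exp (m * (l : ℝ) ^ (η - 1)) - 1) else 0)) := by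
    rw [Fz, Finset.mul_sum, Real.exp_sum]
    have h2 : (pr X).filter (fun l : ℕ => w < (l : ℝ) ∧ l ∣ n) = PP.filter (fun l => l ∣ n) := by
      rw [hPP, Finset.filter_filter]
    rw [h2, Finset.prod_filter]
    refine Finset.prod_congr rfl fun l _ => ?_
    split_ifs
    · ring
    · ring
  rw [h1, Finset.prod_one_add]
  refine Finset.sum_congr rfl fun S hS => ?_
  have hSP := mem_powerset.1 hS
  by_cases hdiv : (∏ l ∈ S, l) ∣ n
  · rw [if_pos hdiv, one_mul]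
    refine Finset.prod_congr rfl fun l hl => ?_
    rw [if_pos ((Finset.dvd_prod_of_mem (fun l : ℕ => l) hl).trans hdiv)]
  · rw [if_neg hdiv, zero_mul]
    have h3 : ∃ l ∈ S, ¬ l ∣ n := by
      by_contra hcon
      push Not at hcon
      exact hdiv (Finset.prod_primes_dvd n (fun l hl => (hpr l (hSP hl)).prime) hcon)
    obtain ⟨l, hl, hln⟩ := h3
    exact Finset.prod_eq_zero hl (if_neg hln)

theorem t4a_count (d N : ℕ) (hd : 0 < d) :
    ∑ n ∈ Icc 1 N, (if d ∣ n then (1 : ℝ) else 0) ≤ N / d := by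
  rw [Finset.sum_ite, Finset.sum_const_zero, add_zero, Finset.sum_const, nsmul_eq_mul, mul_one]
  have h1 : ((Icc 1 N).filter (fun n => d ∣ n)).card = N / d := by
    have h2 := Nat.Ioc_filter_dvd_card_eq_div N d
    have h3 : Icc 1 N = Ioc 0 N := by
      ext x
      simp only [mem_Icc, mem_Ioc]
      omega
    rw [h3]
    exact h2
  rw [h1]
  exact Nat.cast_div_le

theorem T4A_sum (η w m : ℝ) (hη : 0 < η) (hη2 : η ≤ 1 / 2) (hw : 1 ≤ w) (hm : 0 ≤ m)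
    (hmw : m * w ^ (η - 1) ≤ 1) (X N : ℕ) :
    ∑ n ∈ Icc 1 N, Real.exp (m * Fz η w X n) ≤ N * Real.exp 6 := by
  classical
  have hw0 : 0 < w := by linarith
  set PP := (pr X).filter (fun l : ℕ => w < (l : ℝ)) with hPP
  have hpr : ∀ l ∈ PP, l.Prime := fun l hl => (mem_pr.1 (mem_filter.1 hl).1).2
  have hlw : ∀ l ∈ PP, w < (l : ℝ) := fun l hl => (mem_filter.1 hl).2
  have h1 : ∀ n ∈ Icc 1 N, Real.exp (m * Fz η w X n) = ∑ S ∈ PP.powerset,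
      (if (∏ l ∈ S, l) ∣ n then (1 : ℝ) else 0) *
        ∏ l ∈ S, (Real.exp (m * (l : ℝ) ^ (η - 1)) - 1) := by
    intro n hn
    exact t4a_exp η w m X n (by have := (mem_Icc.1 hn).1; omega)
  rw [Finset.sum_congr rfl h1, Finset.sum_comm]
  -- the bounds for `β`
  have hβ0 : ∀ l ∈ PP, 0 ≤ Real.exp (m * (l : ℝ) ^ (η - 1)) - 1 := by
    intro l hl
    have h2 : 0 ≤ m * (l : ℝ) ^ (η - 1) := by positivity
    linarith [Real.one_le_exp h2]
  have hβ1 : ∀ l ∈ PP, Real.exp (m * (l : ℝ) ^ (η - 1)) - 1 ≤ 2 * m * (l : ℝ) ^ (η - 1) := by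
    intro l hl
    have h2 : 0 ≤ m * (l : ℝ) ^ (η - 1) := by positivity
    have h3 : m * (l : ℝ) ^ (η - 1) ≤ 1 := by
      refine le_trans (mul_le_mul_of_nonneg_left ?_ hm) hmw
      exact Real.rpow_le_rpow_of_nonpos hw0 (hlw l hl).le (by linarith)
    have h4 := Real.abs_exp_sub_one_le (x := m * (l : ℝ) ^ (η - 1)) (by rwa [abs_of_nonneg h2])
    rw [abs_of_nonneg h2] at h4
    have h5 := le_abs_self (Real.exp (m * (l : ℝ) ^ (η - 1)) - 1)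
    linarith
  have h6 : ∀ S ∈ PP.powerset, ∑ n ∈ Icc 1 N, (if (∏ l ∈ S, l) ∣ n then (1 : ℝ) else 0) *
        ∏ l ∈ S, (Real.exp (m * (l : ℝ) ^ (η - 1)) - 1) ≤
      N * ∏ l ∈ S, ((Real.exp (m * (l : ℝ) ^ (η - 1)) - 1) / l) := by
    intro S hS
    have hSP := mem_powerset.1 hS
    have hd : 0 < ∏ l ∈ S, l := Finset.prod_pos fun l hl => (hpr l (hSP hl)).pos
    rw [← Finset.sum_mul]
    have h7 := t4a_count (∏ l ∈ S, l) N hd
    have h8 : 0 ≤ ∏ l ∈ S, (Real.exp (m * (l : ℝ) ^ (η - 1)) - 1) :=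
      Finset.prod_nonneg fun l hl => hβ0 l (hSP hl)
    refine (mul_le_mul_of_nonneg_right h7 h8).trans (le_of_eq ?_)
    rw [Finset.prod_div_distrib, Nat.cast_prod]
    ring
  refine (Finset.sum_le_sum h6).trans ?_
  rw [← Finset.mul_sum, ← Finset.prod_one_add]
  refine mul_le_mul_of_nonneg_left ?_ (Nat.cast_nonneg N)
  have h9 : ∀ l ∈ PP, 1 + (Real.exp (m * (l : ℝ) ^ (η - 1)) - 1) / l ≤
      Real.exp (2 * m * (l : ℝ) ^ (η - 2)) := by
    intro l hl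
    have hl0 : (0 : ℝ) < l := by exact_mod_cast (hpr l hl).pos
    have h10 : (Real.exp (m * (l : ℝ) ^ (η - 1)) - 1) / l ≤ 2 * m * (l : ℝ) ^ (η - 2) := by
      rw [div_le_iff₀ hl0]
      refine (hβ1 l hl).trans (le_of_eq ?_)
      have h8 : η - 1 = (η - 2) + 1 := by ring
      rw [h8, Real.rpow_add_one hl0.ne']
      ring
    linarith [Real.add_one_le_exp (2 * m * (l : ℝ) ^ (η - 2))]
  refine (Finset.prod_le_prod (fun l hl => ?_) h9).trans ?_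
  · have := div_nonneg (hβ0 l hl) (Nat.cast_nonneg (α := ℝ) l)
    linarith
  rw [← Real.exp_sum, ← Finset.mul_sum]
  refine Real.exp_le_exp.2 ?_
  have h11 := T4A_int η w hη hη2 hw X
  rw [← hPP] at h11
  calc 2 * m * ∑ l ∈ PP, (l : ℝ) ^ (η - 2) ≤ 2 * m * (3 * w ^ (η - 1)) :=
      mul_le_mul_of_nonneg_left h11 (by positivity)
    _ = 6 * (m * w ^ (η - 1)) := by ring
    _ ≤ 6 := by linarith

end Pool.Agent.Lib.H59P
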