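import Pool.Agent.Lib.H59P.T2
import Pool.Agent.Lib.H59P.T4A

/-!
# Chunk T5 (M): the Rankin product is controlled by the collisions at the large primes

* `T5_GG`: exchange the sums: `∑_{l ∈ pr X, l > w} col l h l^(η-1) = ∑_{p ∈ prs k} ∑_{l > w, l ∣ h p.1 - h p.2}
  l^(η-1)` (`(l : ℤ) ∣ z` iff `l ∣ z.natAbs`: `Int.natCast_dvd`).
* `T5_RP`. Split `pr X` at `w`. Primes `l ≤ w`: by `T2_abs`, with `B = (l/(l-1))^k ≥ 1`, `l^η ≥ 1`:
  `1 + l^η |tp| ≤ 2 l^η B ≤ 2 w B` (`l^η ≤ l ≤ w`), and `B ≤ exp (k/(l-1)) ≤ exp (2k/l)`. There are at most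
  `w` of them, and `∑_{l ≤ w} 1/l ≤ 1 + log w` (harmonic sum over all integers `1 ≤ l ≤ ⌊w⌋`:
  `harmonic_floor_le_one_add_log` or similar), so their product is at most
  `(2 w)^w exp (2k (1 + log w)) = exp (w (log 2 + log w) + 2k (1 + log w))`. Primes `l > w ≥ 2k`: by
  `T2_large`, `1 + l^η |tp| ≤ exp (l^η |tp|) ≤ exp (k^2 l^(η-2) + 3 col l h l^(η-1))`; sum over `l` with
  `T4A_int` and `T5_GG`.
-/

open Finset

namespace Pool.Agent.Lib.H59P

theorem T5_GG {k : ℕ} (η w : ℝ) (X : ℕ) (h : Fin k → ℕ) :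
    ∑ l ∈ (pr X).filter (fun l : ℕ => w < (l : ℝ)), (col l h : ℝ) * (l : ℝ) ^ (η - 1) = GG η w X h := by
  classical
  have h1 : ∀ l : ℕ, (col l h : ℝ) * (l : ℝ) ^ (η - 1) =
      ∑ p ∈ prs k, if l ∣ ((h p.1 : ℤ) - (h p.2 : ℤ)).natAbs then (l : ℝ) ^ (η - 1) else 0 := by
    intro l
    rw [← Finset.sum_filter, Finset.sum_const, nsmul_eq_mul, col]
    congr 3
    refine Finset.filter_congr fun p _ => ?_
    exact Int.natCast_dvd
  rw [Finset.sum_congr rfl fun l _ => h1 l, Finset.sum_comm, GG]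
  refine Finset.sum_congr rfl fun p _ => ?_
  rw [Fz, ← Finset.sum_filter, Finset.filter_filter]

/-- One factor, small primes. -/
theorem t5_small {k : ℕ} (η w : ℝ) (hη : 0 < η) (hη2 : η ≤ 1 / 2) (l : ℕ)
    (hl : l.Prime) (hlw : (l : ℝ) ≤ w) (h : Fin k → ℕ) :
    1 + (l : ℝ) ^ η * |tp l h| ≤ Real.exp (Real.log 2 + Real.log w + 2 * k * ((l : ℝ))⁻¹) := by
  have hl2 : (2 : ℝ) ≤ l := by exact_mod_cast hl.two_le
  have hl0 : (0 : ℝ) < l := by linarith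
  have hl1 : (0 : ℝ) < (l : ℝ) - 1 := by linarith
  have hw0 : 0 < w := by linarith
  have h1 := T2_abs l hl h
  set B := ((l : ℝ) / ((l : ℝ) - 1)) ^ k with hB
  have h2 : (l : ℝ) / ((l : ℝ) - 1) = 1 / ((l : ℝ) - 1) + 1 := by
    field_simp
    ring
  have hB1 : 1 ≤ B := by
    rw [hB, h2]
    refine one_le_pow₀ ?_
    have h3 : 0 ≤ 1 / ((l : ℝ) - 1) := by positivity
    linarith
  have hB2 : B ≤ Real.exp (2 * k * ((l : ℝ))⁻¹) := by
    have h3 : (l : ℝ) / ((l : ℝ) - 1) ≤ Real.exp (2 * ((l : ℝ))⁻¹) := by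
      rw [h2]
      refine (Real.add_one_le_exp _).trans (Real.exp_le_exp.2 ?_)
      rw [← div_eq_mul_inv, div_le_div_iff₀ hl1 hl0]
      linarith
    have h4 : B ≤ Real.exp (2 * ((l : ℝ))⁻¹) ^ k := pow_le_pow_left₀ (by positivity) h3 k
    refine h4.trans (le_of_eq ?_)
    rw [← Real.exp_nat_mul]
    congr 1
    ring
  have h5 : 1 ≤ (l : ℝ) ^ η := Real.one_le_rpow (by linarith) hη.le
  have h6 : (l : ℝ) ^ η ≤ w := by
    have h7 : (l : ℝ) ^ η ≤ (l : ℝ) ^ (1 : ℝ) :=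
      Real.rpow_le_rpow_of_exponent_le (by linarith) (by linarith)
    rw [Real.rpow_one] at h7
    linarith
  have h8 : (l : ℝ) ^ η * |tp l h| ≤ w * B := mul_le_mul h6 h1 (abs_nonneg _) hw0.le
  have h9 : 1 ≤ w * B := by nlinarith
  rw [Real.exp_add, Real.exp_add, Real.exp_log (by norm_num), Real.exp_log hw0]
  have h10 : 2 * w * B ≤ 2 * w * Real.exp (2 * k * ((l : ℝ))⁻¹) :=
    mul_le_mul_of_nonneg_left hB2 (by positivity)
  linarith

/-- One factor, large primes. -/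
theorem t5_large {k : ℕ} (η : ℝ) (l : ℕ) (hl : l.Prime) (hk : 2 * k ≤ l) (h : Fin k → ℕ) :
    1 + (l : ℝ) ^ η * |tp l h| ≤
      Real.exp ((k : ℝ) ^ 2 * (l : ℝ) ^ (η - 2) + 3 * ((col l h : ℝ) * (l : ℝ) ^ (η - 1))) := by
  have hl0 : (0 : ℝ) < l := by exact_mod_cast hl.pos
  have h1 := T2_large l hl h hk
  have h2 : (l : ℝ) ^ (η - 2) = (l : ℝ) ^ η / (l : ℝ) ^ 2 := by
    rw [Real.rpow_sub hl0]
    norm_num
  have h3 : (l : ℝ) ^ (η - 1) = (l : ℝ) ^ η / (l : ℝ) := by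
    rw [Real.rpow_sub hl0, Real.rpow_one]
  have h4 : (l : ℝ) ^ η * |tp l h| ≤
      (k : ℝ) ^ 2 * (l : ℝ) ^ (η - 2) + 3 * ((col l h : ℝ) * (l : ℝ) ^ (η - 1)) := by
    refine (mul_le_mul_of_nonneg_left h1 (Real.rpow_nonneg hl0.le _)).trans (le_of_eq ?_)
    rw [h2, h3]
    ring
  linarith [Real.add_one_le_exp ((k : ℝ) ^ 2 * (l : ℝ) ^ (η - 2) +
    3 * ((col l h : ℝ) * (l : ℝ) ^ (η - 1)))]

theorem T5_RP {k : ℕ} (η w : ℝ) (hη : 0 < η) (hη2 : η ≤ 1 / 2) (hw : 2 ≤ w) (hk : 2 * (k : ℝ) ≤ w)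
    (X : ℕ) (h : Fin k → ℕ) :
    RP η X h ≤ Real.exp (w * (Real.log 2 + Real.log w) + 2 * k * (1 + Real.log w) +
      3 * (k : ℝ) ^ 2 * w ^ (η - 1) + 3 * GG η w X h) := by
  classical
  have hw0 : 0 < w := by linarith
  have hlog2 : 0 ≤ Real.log 2 := Real.log_nonneg (by norm_num)
  have hlogw : 0 ≤ Real.log w := Real.log_nonneg (by linarith)
  have hlogc : 0 ≤ Real.log 2 + Real.log w := by linarith
  have h0 : RP η X h = (∏ l ∈ (pr X).filter (fun l : ℕ => w < (l : ℝ)), (1 + (l : ℝ) ^ η * |tp l h|)) *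
      ∏ l ∈ (pr X).filter (fun l : ℕ => ¬ w < (l : ℝ)), (1 + (l : ℝ) ^ η * |tp l h|) := by
    rw [RP]
    exact (Finset.prod_filter_mul_prod_filter_not (pr X) (fun l : ℕ => w < (l : ℝ)) _).symm
  have h1 : ∏ l ∈ (pr X).filter (fun l : ℕ => w < (l : ℝ)), (1 + (l : ℝ) ^ η * |tp l h|) ≤
      Real.exp (3 * (k : ℝ) ^ 2 * w ^ (η - 1) + 3 * GG η w X h) := by
    refine (Finset.prod_le_prod (fun l _ => by positivity) fun l hl => t5_large η l
      (mem_pr.1 (mem_filter.1 hl).1).2 ?_ h).trans ?_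
    · have h2 := (mem_filter.1 hl).2
      have h3 : 2 * (k : ℝ) ≤ l := by linarith
      exact_mod_cast h3
    rw [← Real.exp_sum, Finset.sum_add_distrib, ← Finset.mul_sum, ← Finset.mul_sum, T5_GG]
    refine Real.exp_le_exp.2 ?_
    have h4 := T4A_int η w hη hη2 (by linarith) X
    have h5 := mul_le_mul_of_nonneg_left h4 (by positivity : (0 : ℝ) ≤ (k : ℝ) ^ 2)
    linarith
  have h2 : ∏ l ∈ (pr X).filter (fun l : ℕ => ¬ w < (l : ℝ)), (1 + (l : ℝ) ^ η * |tp l h|) ≤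
      Real.exp (w * (Real.log 2 + Real.log w) + 2 * k * (1 + Real.log w)) := by
    have hsub : (pr X).filter (fun l : ℕ => ¬ w < (l : ℝ)) ⊆ Icc 1 ⌊w⌋₊ := by
      intro l hl
      obtain ⟨h3, h4⟩ := mem_filter.1 hl
      push Not at h4
      exact mem_Icc.2 ⟨(mem_pr.1 h3).2.one_lt.le, Nat.le_floor h4⟩
    have hcard : (((pr X).filter (fun l : ℕ => ¬ w < (l : ℝ))).card : ℝ) ≤ w := by
      have h3 := Finset.card_le_card hsub
      rw [Nat.card_Icc, Nat.add_sub_cancel] at h3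
      have h4 : (((pr X).filter (fun l : ℕ => ¬ w < (l : ℝ))).card : ℝ) ≤ (⌊w⌋₊ : ℝ) := by
        exact_mod_cast h3
      exact h4.trans (Nat.floor_le hw0.le)
    have hharm : ∑ l ∈ (pr X).filter (fun l : ℕ => ¬ w < (l : ℝ)), ((l : ℝ))⁻¹ ≤ 1 + Real.log w := by
      refine (Finset.sum_le_sum_of_subset_of_nonneg hsub fun l _ _ => by positivity).trans ?_
      have h3 := harmonic_floor_le_one_add_log w (by linarith)
      rw [harmonic_eq_sum_Icc] at h3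
      push_cast at h3
      exact h3
    refine (Finset.prod_le_prod (fun l _ => by positivity) fun l hl => t5_small η w hη hη2 l
      (mem_pr.1 (mem_filter.1 hl).1).2 (not_lt.1 (mem_filter.1 hl).2) h).trans ?_
    rw [← Real.exp_sum, Finset.sum_add_distrib, Finset.sum_const, nsmul_eq_mul, ← Finset.mul_sum]
    refine Real.exp_le_exp.2 ?_
    have h6 := mul_le_mul_of_nonneg_right hcard hlogc
    have h7 := mul_le_mul_of_nonneg_left hharm (by positivity : (0 : ℝ) ≤ 2 * (k : ℝ))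
    linarith
  rw [h0]
  refine (mul_le_mul h1 h2 (Finset.prod_nonneg fun l _ => by positivity) (Real.exp_pos _).le).trans ?_
  rw [← Real.exp_add]
  refine Real.exp_le_exp.2 (le_of_eq ?_)
  ring

end Pool.Agent.Lib.H59P
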