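import Pool.Agent.Lib.H59P.TDefs
import Pool.Agent.Lib.H68T.FINP

/-!
# Chunk T6A (M): the choice of the parameters

Real inequalities. Put `L = log X`, `w = L^(1-δ/4)`, `η = δ/4`, `ε = δ/40`; `1 ≤ k ≤ L^(1-δ)`,
`log Q ≥ L^(1-δ/8)`, `log Q ≤ L`. For large `L`:
* `w ≥ 2`, `2 k ≤ w`: `2 L^(1-δ) ≤ L^(1-δ/4)`.
* `300 k w^(η-1) ≤ 300 L^((1-δ) - (1-δ/4)(1-δ/4)) = 300 L^(-δ/2 - δ^2/16) ≤ 1`.
* `w (log 2 + log w) + 2k (1 + log w) + 3 k^2 w^(η-1) ≤ (ε/60) log Q`: `log w ≤ log L`,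
  `w (log 2 + log L) + 2 L^(1-δ) (1 + log L) + L^(1-δ) = o(L^(1-δ/8))` (`k^2 w^(η-1) ≤ k/300` by the item
  before).
* `(2 exp 6)^k ≤ Q^ε`: `k log (2 exp 6) = k (log 2 + 6) ≤ 7 k ≤ ε log Q`.
* `k^2/X ≤ X^(-1/2) ≤ Q^(-2ε)`: `k^2 ≤ L^2 ≤ X^(1/2)`, and `Q ≤ X`, `2 ε ≤ 1/20`.
* `2 ≤ Q^ε`.
The lemmas `ev_rpow`, `ev_log` of `H68T/FINP.lean` (`H51D/VRB.lean` shows how they are used) give such
inequalities for large `L`; then take `X0 = ⌈exp L0⌉`.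
-/

open Finset

namespace Pool.Agent.Lib.H59P

open Pool.Agent.Lib.H68T Filter in
theorem t6a_ev (δ : ℝ) (hδ : 0 < δ) (hδ1 : δ < 1) : ∀ᶠ L : ℝ in atTop,
    1 ≤ L ∧ 2 ≤ L ^ (1 - δ / 4) ∧ 2 * L ^ (1 - δ) ≤ L ^ (1 - δ / 4) ∧
    300 * L ^ (-(δ / 2) - δ ^ 2 / 16) ≤ 1 ∧
    L ^ (1 - δ / 4) * (3 + 2 * Real.log L) ≤ δ / 40 / 60 * L ^ (1 - δ / 8) ∧
    7 * L ^ (1 - δ) ≤ δ / 40 * L ^ (1 - δ / 8) ∧
    2 * Real.log L ≤ 19 / 20 * L ∧ 1 ≤ δ / 40 * L ^ (1 - δ / 8) := by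
  filter_upwards [eventually_ge_atTop (1 : ℝ), ev_rpow 2 0 (1 - δ / 4) (by linarith),
    ev_rpow 2 (1 - δ) (1 - δ / 4) (by linarith),
    ev_rpow 300 (-(δ / 2) - δ ^ 2 / 16) 0 (by nlinarith [sq_nonneg δ]),
    ev_log 1 (1 : ℝ) one_pos, ev_log 4 (δ / 16) (by linarith), ev_rpow 6 0 (δ / 16) (by linarith),
    ev_rpow (2400 / δ) (1 - 3 * δ / 16) (1 - δ / 8) (by linarith),
    ev_rpow (280 / δ) (1 - δ) (1 - δ / 8) (by linarith), ev_log 4 1 one_pos,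
    ev_rpow (40 / δ) 0 (1 - δ / 8) (by linarith)] with L h1 h2 h3 h4 h5 h6 h7 h8 h9 h10 h11
  have hL : 0 < L := by linarith
  rw [Real.rpow_zero] at h2 h4 h7 h11
  rw [Real.rpow_one] at h5 h10
  refine ⟨h1, by linarith, h3, h4, ?_, ?_, by linarith, ?_⟩
  · have e1 : 3 + 2 * Real.log L ≤ L ^ (δ / 16) := by linarith
    have e2 : L ^ (1 - δ / 4) * (3 + 2 * Real.log L) ≤ L ^ (1 - 3 * δ / 16) := by
      calc L ^ (1 - δ / 4) * (3 + 2 * Real.log L) ≤ L ^ (1 - δ / 4) * L ^ (δ / 16) :=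
            mul_le_mul_of_nonneg_left e1 (Real.rpow_nonneg hL.le _)
        _ = L ^ (1 - 3 * δ / 16) := by rw [← Real.rpow_add hL]; ring_nf
    refine e2.trans ?_
    have e3 := mul_le_mul_of_nonneg_left h8 (show 0 ≤ δ / 40 / 60 by positivity)
    have e4 : δ / 40 / 60 * (2400 / δ * L ^ (1 - 3 * δ / 16)) = L ^ (1 - 3 * δ / 16) := by
      field_simp
      ring
    rw [e4] at e3
    exact e3
  · have e3 := mul_le_mul_of_nonneg_left h9 (show 0 ≤ δ / 40 by positivity)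
    have e4 : δ / 40 * (280 / δ * L ^ (1 - δ)) = 7 * L ^ (1 - δ) := by
      field_simp
      ring
    rw [e4] at e3
    exact e3
  · have e3 := mul_le_mul_of_nonneg_left h11 (show 0 ≤ δ / 40 by positivity)
    have e4 : δ / 40 * (40 / δ * 1) = 1 := by
      field_simp
    rw [e4] at e3
    exact e3

theorem T6A (δ : ℝ) (hδ : 0 < δ) (hδ1 : δ < 1) : ∃ X0 : ℕ, ∀ (k Q X : ℕ), X0 ≤ X → 1 ≤ k →
    (k : ℝ) ≤ (Real.log X) ^ (1 - δ) → (Real.log X) ^ (1 - δ / 8) ≤ Real.log Q → Q ≤ X →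
    ∀ w : ℝ, w = (Real.log X) ^ (1 - δ / 4) →
    2 ≤ w ∧ 2 * (k : ℝ) ≤ w ∧ 300 * (k : ℝ) * w ^ (δ / 4 - 1) ≤ 1 ∧
    w * (Real.log 2 + Real.log w) + 2 * k * (1 + Real.log w) + 3 * (k : ℝ) ^ 2 * w ^ (δ / 4 - 1) ≤
      δ / 40 / 60 * Real.log Q ∧
    (2 * Real.exp 6) ^ k ≤ (Q : ℝ) ^ (δ / 40) ∧
    (k : ℝ) ^ 2 / X ≤ (Q : ℝ) ^ (-(2 * (δ / 40))) ∧
    2 ≤ (Q : ℝ) ^ (δ / 40) ∧ 1 ≤ Q := by
  obtain ⟨L0, hL0⟩ := Filter.eventually_atTop.mp (t6a_ev δ hδ hδ1)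
  refine ⟨⌈Real.exp L0⌉₊, fun k Q X hX hk hkL hQL hQX w hw => ?_⟩
  have hXe : Real.exp L0 ≤ (X : ℝ) := (Nat.le_ceil _).trans (by exact_mod_cast hX)
  have hXpos : (0 : ℝ) < X := (Real.exp_pos _).trans_le hXe
  have hLL : L0 ≤ Real.log X := by
    rw [Real.le_log_iff_exp_le hXpos]
    exact hXe
  obtain ⟨h1, h2, h3, h4, h5, h6, h7, h8⟩ := hL0 (Real.log X) hLL
  set L := Real.log X with hLdef
  have hL : 0 < L := by linarith
  have hk1 : (1 : ℝ) ≤ k := by exact_mod_cast hk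
  have hlogQ : 0 < Real.log Q := (Real.rpow_pos_of_pos hL _).trans_le hQL
  have hQ1 : 1 ≤ Q := by
    rcases Nat.eq_zero_or_pos Q with h | h
    · rw [h] at hlogQ
      simp at hlogQ
    · exact h
  have hQpos : (0 : ℝ) < Q := by exact_mod_cast hQ1
  have hQLle : Real.log Q ≤ L := Real.log_le_log hQpos (by exact_mod_cast hQX)
  have hwpos : 0 < w := by rw [hw]; exact Real.rpow_pos_of_pos hL _
  have hw2 : 2 ≤ w := by rw [hw]; exact h2
  have hkw : 2 * (k : ℝ) ≤ w := by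
    rw [hw]
    linarith
  have hwL : w ≤ L := by
    rw [hw]
    calc L ^ (1 - δ / 4) ≤ L ^ (1 : ℝ) := Real.rpow_le_rpow_of_exponent_le h1 (by linarith)
      _ = L := Real.rpow_one _
  have hlw : Real.log w ≤ Real.log L := Real.log_le_log hwpos hwL
  have hlw0 : 0 ≤ Real.log w := Real.log_nonneg (by linarith)
  have hwp : 0 < w ^ (δ / 4 - 1) := Real.rpow_pos_of_pos hwpos _
  have h300 : 300 * (k : ℝ) * w ^ (δ / 4 - 1) ≤ 1 := by
    have e1 : w ^ (δ / 4 - 1) = L ^ (-(1 - δ / 4) ^ 2) := by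
      rw [hw, ← Real.rpow_mul hL.le]
      congr 1
      ring
    have e2 : 300 * (k : ℝ) * w ^ (δ / 4 - 1) ≤ 300 * L ^ (1 - δ) * w ^ (δ / 4 - 1) := by
      apply mul_le_mul_of_nonneg_right _ hwp.le
      linarith
    refine e2.trans ?_
    rw [e1, mul_assoc, ← Real.rpow_add hL]
    refine le_trans (le_of_eq ?_) h4
    congr 2
    ring
  have hmain : w * (Real.log 2 + Real.log w) + 2 * k * (1 + Real.log w) +
      3 * (k : ℝ) ^ 2 * w ^ (δ / 4 - 1) ≤ w * (3 + 2 * Real.log L) := by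
    have hlog2 : Real.log 2 ≤ 1 := by
      have := Real.log_two_lt_d9
      linarith
    have a1 : w * (Real.log 2 + Real.log w) ≤ w * (1 + Real.log L) :=
      mul_le_mul_of_nonneg_left (by linarith) hwpos.le
    have a2 : 2 * (k : ℝ) * (1 + Real.log w) ≤ w * (1 + Real.log L) :=
      mul_le_mul hkw (by linarith) (by linarith) hwpos.le
    have a3 : 3 * (k : ℝ) ^ 2 * w ^ (δ / 4 - 1) ≤ w := by
      have : 3 * (k : ℝ) ^ 2 * w ^ (δ / 4 - 1) = (300 * k * w ^ (δ / 4 - 1)) * (k / 100) := by ring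
      rw [this]
      have b1 : (300 * k * w ^ (δ / 4 - 1)) * (k / 100 : ℝ) ≤ 1 * (k / 100) :=
        mul_le_mul_of_nonneg_right h300 (by positivity)
      linarith
    nlinarith
  refine ⟨hw2, hkw, h300, ?_, ?_, ?_, ?_, hQ1⟩
  · refine hmain.trans ?_
    rw [hw]
    refine h5.trans ?_
    exact mul_le_mul_of_nonneg_left hQL (by positivity)
  · have e1 : (2 * Real.exp 6) ^ k = Real.exp (k * (Real.log 2 + 6)) := by
      have : (2 : ℝ) * Real.exp 6 = Real.exp (Real.log 2 + 6) := by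
        rw [Real.exp_add, Real.exp_log (by norm_num)]
      rw [this, ← Real.exp_nat_mul]
    rw [e1, Real.rpow_def_of_pos hQpos]
    apply Real.exp_le_exp.mpr
    have hlog2 : Real.log 2 ≤ 1 := by
      have := Real.log_two_lt_d9
      linarith
    have e2 : (k : ℝ) * (Real.log 2 + 6) ≤ 7 * L ^ (1 - δ) := by
      have : (k : ℝ) * (Real.log 2 + 6) ≤ k * 7 :=
        mul_le_mul_of_nonneg_left (by linarith) (by linarith)
      linarith
    have e3 : δ / 40 * L ^ (1 - δ / 8) ≤ δ / 40 * Real.log Q :=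
      mul_le_mul_of_nonneg_left hQL (by positivity)
    linarith
  · rw [div_le_iff₀ hXpos]
    have hkL2 : (k : ℝ) ≤ L := by
      refine hkL.trans ?_
      calc L ^ (1 - δ) ≤ L ^ (1 : ℝ) := Real.rpow_le_rpow_of_exponent_le h1 (by linarith)
        _ = L := Real.rpow_one _
    have e1 : (k : ℝ) ^ 2 ≤ Real.exp (2 * Real.log L) := by
      have : Real.exp (2 * Real.log L) = L ^ 2 := by
        rw [two_mul, Real.exp_add, Real.exp_log hL]
        ring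
      rw [this]
      exact pow_le_pow_left₀ (by linarith) hkL2 2
    have e2 : (Q : ℝ) ^ (-(2 * (δ / 40))) * X = Real.exp (L - δ / 20 * Real.log Q) := by
      have hXL : (X : ℝ) = Real.exp L := by rw [hLdef, Real.exp_log hXpos]
      rw [Real.rpow_def_of_pos hQpos, hXL, ← Real.exp_add]
      congr 1
      ring
    rw [e2]
    refine e1.trans (Real.exp_le_exp.mpr ?_)
    have e3 : δ / 20 * Real.log Q ≤ 1 / 20 * L :=
      mul_le_mul (by linarith) hQLle hlogQ.le (by norm_num)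
    linarith
  · have hlog2 : Real.log 2 ≤ 1 := by
      have := Real.log_two_lt_d9
      linarith
    have e3 : δ / 40 * L ^ (1 - δ / 8) ≤ δ / 40 * Real.log Q :=
      mul_le_mul_of_nonneg_left hQL (by positivity)
    rw [Real.rpow_def_of_pos hQpos]
    calc (2 : ℝ) = Real.exp (Real.log 2) := (Real.exp_log (by norm_num)).symm
      _ ≤ _ := Real.exp_le_exp.mpr (by linarith)

end Pool.Agent.Lib.H59P
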