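import Pool.Agent.Lib.H59P.SDefs

/-!
# Project H59P, definitions for the assembly
-/

open Finset

namespace Pool.Agent.Lib.H59P

open Pool.Agent.Lib.H68T Pool.Agent.Lib.H18Q

noncomputable section

/-- The main term of the cell with coefficients `c`: `∑_{p ∈ TS} ∏ c_i(p_i) (MR p R h) ∑_{d ∈ SF (D/R) R} td d h`,
`D = √Q`, `D1 = √D`. -/
def MC {k : ℕ} (Q : ℕ) (px : Ch) (c : Fin k → Ch → ℂ) (h : Fin k → ℕ) : ℂ :=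
  ∑ p ∈ TS k Q (Nat.sqrt (Nat.sqrt Q)) px, (∏ i, c i (p i)) *
    (MR p (Rp px p) h * ((∑ d ∈ SF (Nat.sqrt Q / Rp px p) (Rp px p), td d h : ℝ) : ℂ))

/-- The total main term: the sum over the `Q^8` cells of `n`. -/
def MT {k : ℕ} (Q X H : ℕ) (px : Ch) (B : ℤ → Ch → ℂ) (h : Fin k → ℕ) : ℂ :=
  ∑ j ∈ range (Q ^ 8), (H : ℂ) *
    MC Q px (fun i => B (((X + j * H + bs H (h i) : ℕ) : ℤ))) h

/-- The conclusion of module F (chunk F_main). -/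
def FMain : Prop := ∃ C K : ℝ, 1 ≤ C ∧ 1 ≤ K ∧ ∀ (k Q X H D : ℕ), RegP K Q X → Q ^ 4 ≤ H → H ≤ X →
  1 ≤ D → D ≤ Q → ∀ (p : Fin k → Ch), (∀ i, p i ∈ PC Q) → ∀ (a : ℕ) (b : Fin k → ℕ)
    (T : Finset (Fin k → ℕ)), T ⊆ Fintype.piFinset (fun i => KS Q (p i).1) →
    (∀ κ ∈ T, D < univ.lcm (fun i => (p i).1 * κ i)) →
    ∑ h ∈ cube b H, ‖∑ n ∈ Ico a (a + H), ∑ κ ∈ T, ∏ i, gk (p i) (κ i) ((n : ℤ) + h i)‖ ^ 2 ≤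
      (Real.log X) ^ (C * k) * (H : ℝ) ^ (k + 2) * (D : ℝ) ^ (-(1 / 2) : ℝ)

/-- The conclusion of module T (truncation of the singular series). -/
def TMain : Prop := ∀ δ : ℝ, 0 < δ → δ < 1 → ∃ ε : ℝ, 0 < ε ∧ ε ≤ 1 ∧ ∃ X0 : ℕ, ∀ (k Q X : ℕ), X0 ≤ X → 1 ≤ k →
  (k : ℝ) ≤ (Real.log X) ^ (1 - δ) → (Real.log X) ^ (1 - δ / 8) ≤ Real.log Q → Q ≤ X →
  ∃ Bad : Finset (Fin k → ℕ), Bad ⊆ bx k X ∧ (Bad.card : ℝ) ≤ (X : ℝ) ^ k * (Q : ℝ) ^ (-ε) ∧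
    ∀ h ∈ bx k X, h ∉ Bad → Function.Injective h ∧ ∀ (R E : ℕ), (Q : ℝ) ^ (1 / 5 : ℝ) ≤ E → E ≤ Q →
      |∑ d ∈ SF E R, td d h - SS ((pr Q).filter (fun l => ¬ l ∣ R)) h| ≤ (Q : ℝ) ^ (-ε)

end

end Pool.Agent.Lib.H59P
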