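import Pool.Agent.Lib.H59P.T3
import Pool.Agent.Lib.H59P.T4B
import Pool.Agent.Lib.H59P.T5
import Pool.Agent.Lib.H59P.T6A
import Pool.Agent.Lib.H59P.ZDefs

/-!
# Chunk T6 (M): truncation of the singular series outside of a small set (`TMain`)

`ε = δ/40`, `η = δ/4`, `w = (log X)^(1-δ/4)`, `X0` from `T6A`. Let
`Bad = {h ∈ bx k X : h not injective} ∪ {h ∈ bx k X injective : (ε/100) log Q < GG η w Q h}`.

* Size: the non-injective `h`: for some `j < i` the value `h i` is `h j`: at most `k^2 X^(k-1)`, which is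
  `X^k k^2/X ≤ X^k Q^(-2ε)`. The others: `T4B_markov` with `lam = 300`, `M = X` and the parameter `X` there
  equal to `Q`, `T = (ε/100) log Q`: at most `(2 exp 6)^k X^k exp (-3 ε log Q) ≤ X^k Q^(ε - 3ε)`. Sum:
  `2 X^k Q^(-2ε) ≤ X^k Q^(-ε)`.
* `h ∉ Bad`: `RP η Q h ≤ exp ((ε/60) log Q + 3 (ε/100) log Q) ≤ Q^(ε/20)` (`T5_RP` with `Q` for `X`;
  `1/60 + 3/100 < 1/20`).
* `T3_diff` with `Q` for `X` and for `z`, `E0 = Q^(1/5)` (`≤ Q` as `Q ≥ 1`): the difference is at most
  `Q^(-η/5) Q^(ε/20) = Q^(-δ/20 + δ/800) ≤ Q^(-δ/40)`.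
-/

open Finset

namespace Pool.Agent.Lib.H59P

theorem t6_pair {k : ℕ} (X : ℕ) (i j : Fin k) (hij : i ≠ j) :
    ((bx k X).filter (fun h => h i = h j)).card * X ≤ X ^ k := by
  have h1 : (bx k X).card = X ^ k := by
    unfold bx
    rw [Fintype.card_piFinset]
    simp
  have h2 : (((bx k X).filter (fun h => h i = h j)) ×ˢ range X).card =
      ((bx k X).filter (fun h => h i = h j)).card * X := by
    rw [card_product, card_range]
  rw [← h2, ← h1]
  refine Finset.card_le_card_of_injOn (fun p => Function.update p.1 i p.2) ?_ ?_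
  · rintro ⟨h, x⟩ hp
    have hp' := mem_product.1 (mem_coe.1 hp)
    have hh := (mem_filter.1 hp'.1).1
    have hx := hp'.2
    show Function.update h i x ∈ bx k X
    unfold bx at hh ⊢
    rw [Fintype.mem_piFinset] at hh ⊢
    intro l
    by_cases hl : l = i
    · rw [hl, Function.update_self]
      exact hx
    · rw [Function.update_of_ne hl]
      exact hh l
  · rintro ⟨h, x⟩ hp ⟨h', x'⟩ hp' heq
    have hp1 := (mem_filter.1 (mem_product.1 (mem_coe.1 hp)).1).2
    have hp2 := (mem_filter.1 (mem_product.1 (mem_coe.1 hp')).1).2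
    have heq' : Function.update h i x = Function.update h' i x' := heq
    have e1 : x = x' := by
      have := congrFun heq' i
      rwa [Function.update_self, Function.update_self] at this
    have e2 : ∀ l, l ≠ i → h l = h' l := by
      intro l hl
      have := congrFun heq' l
      rwa [Function.update_of_ne hl, Function.update_of_ne hl] at this
    have e3 : h = h' := by
      funext l
      by_cases hl : l = i
      · rw [hl]
        show h i = h' i
        have g1 : h i = h j := hp1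
        have g2 : h' i = h' j := hp2
        rw [g1, g2]
        exact e2 j hij.symm
      · exact e2 l hl
    rw [e1, e3]

theorem t6_ninj {k : ℕ} (X : ℕ) :
    ((bx k X).filter (fun h => ¬ Function.Injective h)).card * X ≤ k ^ 2 * X ^ k := by
  have hsub : (bx k X).filter (fun h => ¬ Function.Injective h) ⊆
      ((univ : Finset (Fin k × Fin k)).filter (fun p => p.1 ≠ p.2)).biUnion
        (fun p => (bx k X).filter (fun h => h p.1 = h p.2)) := by
    intro h hh
    obtain ⟨hb, hn⟩ := mem_filter.1 hh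
    have hn' : ∃ a b, h a = h b ∧ a ≠ b := by
      by_contra hc
      push Not at hc
      exact hn fun a b hab => hc a b hab
    obtain ⟨a, b, hab, hne⟩ := hn'
    rw [mem_biUnion]
    exact ⟨(a, b), mem_filter.2 ⟨mem_univ _, hne⟩, mem_filter.2 ⟨hb, hab⟩⟩
  calc ((bx k X).filter (fun h => ¬ Function.Injective h)).card * X
      ≤ (∑ p ∈ (univ : Finset (Fin k × Fin k)).filter (fun p => p.1 ≠ p.2),
          ((bx k X).filter (fun h => h p.1 = h p.2)).card) * X :=
        Nat.mul_le_mul_right _ ((card_le_card hsub).trans card_biUnion_le)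
    _ = ∑ p ∈ (univ : Finset (Fin k × Fin k)).filter (fun p => p.1 ≠ p.2),
          ((bx k X).filter (fun h => h p.1 = h p.2)).card * X := by rw [Finset.sum_mul]
    _ ≤ ∑ _p ∈ (univ : Finset (Fin k × Fin k)).filter (fun p => p.1 ≠ p.2), X ^ k :=
        Finset.sum_le_sum fun p hp => t6_pair X p.1 p.2 (mem_filter.1 hp).2
    _ = ((univ : Finset (Fin k × Fin k)).filter (fun p => p.1 ≠ p.2)).card * X ^ k := by
        rw [Finset.sum_const, smul_eq_mul]
    _ ≤ k ^ 2 * X ^ k := by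
        refine Nat.mul_le_mul_right _ ((card_le_univ _).trans (le_of_eq ?_))
        rw [Fintype.card_prod, Fintype.card_fin, sq]

theorem tmain : TMain := by
  intro δ hδ hδ1
  obtain ⟨X0, hX0⟩ := T6A δ hδ hδ1
  refine ⟨δ / 40, by linarith, by linarith, max X0 1, fun k Q X hX hk hkL hQL hQX => ?_⟩
  obtain ⟨h1, h2, h3, h4, h5, h6, h7, h8⟩ := hX0 k Q X ((le_max_left _ _).trans hX) hk hkL hQL hQX _ rfl
  obtain ⟨w, hw⟩ : ∃ w : ℝ, w = (Real.log X) ^ (1 - δ / 4) := ⟨_, rfl⟩
  rw [← hw] at h1 h2 h3 h4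
  have hX1 : 1 ≤ X := (le_max_right _ _).trans hX
  have hX1r : (0 : ℝ) < X := by exact_mod_cast hX1
  have hQ0 : (0 : ℝ) < Q := by exact_mod_cast h8
  have hQ1 : (1 : ℝ) ≤ Q := by exact_mod_cast h8
  obtain ⟨T, hT⟩ : ∃ T : ℝ, T = δ / 40 / 100 * Real.log Q := ⟨_, rfl⟩
  refine ⟨(bx k X).filter (fun h => ¬ Function.Injective h) ∪
    (bx k X).filter (fun h => Function.Injective h ∧ T < GG (δ / 4) w Q h), ?_, ?_, ?_⟩
  · exact union_subset (filter_subset _ _) (filter_subset _ _)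
  · have c1 : (((bx k X).filter (fun h => ¬ Function.Injective h)).card : ℝ) ≤
        (X : ℝ) ^ k * (Q : ℝ) ^ (-(2 * (δ / 40))) := by
      have e1 : (((bx k X).filter (fun h => ¬ Function.Injective h)).card : ℝ) * X ≤
          (k : ℝ) ^ 2 * (X : ℝ) ^ k := by exact_mod_cast t6_ninj (k := k) X
      have e2 : (((bx k X).filter (fun h => ¬ Function.Injective h)).card : ℝ) ≤
          (X : ℝ) ^ k * ((k : ℝ) ^ 2 / X) := by
        rw [← mul_div_assoc, le_div_iff₀ hX1r]
        linarith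
      exact e2.trans (mul_le_mul_of_nonneg_left h6 (by positivity))
    have c2 : (((bx k X).filter (fun h => Function.Injective h ∧ T < GG (δ / 4) w Q h)).card : ℝ) ≤
        (X : ℝ) ^ k * (Q : ℝ) ^ (-(2 * (δ / 40))) := by
      have e1 := T4B_markov (δ / 4) w 300 T (by linarith) (by linarith) (by linarith) (by norm_num) k Q X h3
      refine e1.trans ?_
      have e2 : Real.exp (-(300 * T)) = (Q : ℝ) ^ (-(3 * (δ / 40))) := by
        rw [Real.rpow_def_of_pos hQ0, hT]
        congr 1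
        ring
      rw [e2, mul_pow]
      calc (2 * Real.exp 6) ^ k * (X : ℝ) ^ k * (Q : ℝ) ^ (-(3 * (δ / 40)))
          ≤ (Q : ℝ) ^ (δ / 40) * (X : ℝ) ^ k * (Q : ℝ) ^ (-(3 * (δ / 40))) := by
            refine mul_le_mul_of_nonneg_right (mul_le_mul_of_nonneg_right h5 (by positivity)) ?_
            exact Real.rpow_nonneg hQ0.le _
        _ = (X : ℝ) ^ k * ((Q : ℝ) ^ (δ / 40) * (Q : ℝ) ^ (-(3 * (δ / 40)))) := by ring
        _ = (X : ℝ) ^ k * (Q : ℝ) ^ (-(2 * (δ / 40))) := by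
            rw [← Real.rpow_add hQ0]
            congr 2
            ring
    have c3 : (2 : ℝ) * (Q : ℝ) ^ (-(2 * (δ / 40))) ≤ (Q : ℝ) ^ (-(δ / 40)) := by
      calc (2 : ℝ) * (Q : ℝ) ^ (-(2 * (δ / 40))) ≤ (Q : ℝ) ^ (δ / 40) * (Q : ℝ) ^ (-(2 * (δ / 40))) :=
            mul_le_mul_of_nonneg_right h7 (Real.rpow_nonneg hQ0.le _)
        _ = (Q : ℝ) ^ (-(δ / 40)) := by
            rw [← Real.rpow_add hQ0]
            congr 1
            ring
    have c4 : (0 : ℝ) ≤ (X : ℝ) ^ k := by positivity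
    calc (((bx k X).filter (fun h => ¬ Function.Injective h) ∪
          (bx k X).filter (fun h => Function.Injective h ∧ T < GG (δ / 4) w Q h)).card : ℝ)
        ≤ (((bx k X).filter (fun h => ¬ Function.Injective h)).card : ℝ) +
          (((bx k X).filter (fun h => Function.Injective h ∧ T < GG (δ / 4) w Q h)).card : ℝ) := by
          exact_mod_cast card_union_le _ _
      _ ≤ (X : ℝ) ^ k * (2 * (Q : ℝ) ^ (-(2 * (δ / 40)))) := by linarith
      _ ≤ (X : ℝ) ^ k * (Q : ℝ) ^ (-(δ / 40)) := mul_le_mul_of_nonneg_left c3 c4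
  · intro h hh hbad
    rw [mem_union, not_or, mem_filter, mem_filter] at hbad
    have hinj : Function.Injective h := by
      by_contra hc
      exact hbad.1 ⟨hh, hc⟩
    have hGG : GG (δ / 4) w Q h ≤ T := by
      by_contra hc
      exact hbad.2 ⟨hh, hinj, not_le.1 hc⟩
    refine ⟨hinj, fun R E hE1 hE2 => ?_⟩
    have hE0 : (0 : ℝ) < (Q : ℝ) ^ (1 / 5 : ℝ) := Real.rpow_pos_of_pos hQ0 _
    have hEQ : (Q : ℝ) ^ (1 / 5 : ℝ) ≤ (Q : ℝ) := by
      calc (Q : ℝ) ^ (1 / 5 : ℝ) ≤ (Q : ℝ) ^ (1 : ℝ) := Real.rpow_le_rpow_of_exponent_le hQ1 (by norm_num)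
        _ = Q := Real.rpow_one _
    have hlQ : 0 ≤ Real.log Q := Real.log_nonneg hQ1
    have r1 := T5_RP (δ / 4) w (by linarith) (by linarith) h1 h2 Q h
    have r2 : RP (δ / 4) Q h ≤ (Q : ℝ) ^ (δ / 800) := by
      refine r1.trans ?_
      rw [Real.rpow_def_of_pos hQ0]
      apply Real.exp_le_exp.2
      have e1 : 3 * GG (δ / 4) w Q h ≤ 3 * T := by linarith
      rw [hT] at e1
      nlinarith [mul_nonneg hδ.le hlQ]
    have r3 := T3_diff (δ / 4) ((Q : ℝ) ^ (1 / 5 : ℝ)) (by linarith) hE0 Q Q R E le_rfl hE2 hEQ hE1 h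
    refine r3.trans ?_
    calc ((Q : ℝ) ^ (1 / 5 : ℝ)) ^ (-(δ / 4)) * RP (δ / 4) Q h
        ≤ ((Q : ℝ) ^ (1 / 5 : ℝ)) ^ (-(δ / 4)) * (Q : ℝ) ^ (δ / 800) :=
          mul_le_mul_of_nonneg_left r2 (Real.rpow_nonneg hE0.le _)
      _ = (Q : ℝ) ^ (1 / 5 * (-(δ / 4)) + δ / 800) := by
          rw [← Real.rpow_mul hQ0.le, ← Real.rpow_add hQ0]
      _ ≤ (Q : ℝ) ^ (-(δ / 40)) := Real.rpow_le_rpow_of_exponent_le hQ1 (by linarith)

end Pool.Agent.Lib.H59P
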