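import Pool.Agent.Lib.H59P.T1
import Pool.Agent.Lib.H59P.T6
import Pool.Agent.Lib.H59P.YDefs

/-!
# Module T: the conclusions
-/

open Finset

namespace Pool.Agent.Lib.H59P

theorem T_main : TMain := tmain

theorem T_low : ∃ c0 : ℝ, 0 ≤ c0 ∧ TLow c0 :=
  ⟨4, by norm_num, fun _ h hA P hP => T_lower h hA P hP⟩

end Pool.Agent.Lib.H59P
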