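import Pool.Agent.Lib.H59P.TSL
import Pool.Agent.Lib.H59P.YDefs

/-!
# Project H59P, T8: the number of admissible sets
-/

open Finset

namespace Pool.Agent.Lib.H59P

open Pool.Agent.Lib.H68T Pool.Agent.Lib.H18Q

theorem T_count : TCount := by
  classical
  refine ⟨2, by norm_num, fun δ hδ hδ1 => ?_⟩
  obtain ⟨N0, hN0⟩ := TSL_large δ hδ hδ1
  refine ⟨max N0 ⌈Real.exp 2⌉₊, fun N k hN hk1 hk => ?_⟩
  obtain ⟨h1, -⟩ := hN0 N k ((le_max_left _ _).trans hN) hk
  have hNe : Real.exp 2 ≤ N := (Nat.le_ceil _).trans (by exact_mod_cast (le_max_right _ _).trans hN)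
  have hNpos : (0 : ℝ) < N := lt_of_lt_of_le (Real.exp_pos _) hNe
  have hL2 : 2 ≤ Real.log N := by
    rw [Real.le_log_iff_exp_le hNpos]; exact hNe
  have hkL : (k : ℝ) ≤ Real.log N := by
    refine hk.trans ?_
    have := Real.rpow_le_rpow_of_exponent_le (show 1 ≤ Real.log N by linarith)
      (show 1 - δ ≤ 1 by linarith)
    rwa [Real.rpow_one] at this
  have hN1 : N - 1 + 1 = N := by
    have : 0 < N := by exact_mod_cast hNpos
    omega
  have h2 := adm_lower (N - 1) k hk1 (by rw [hN1]; exact h1)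
  rw [hN1] at h2
  have hcast : ((N - 1 : ℕ) : ℝ) + 1 = N := by
    have : ((N - 1 + 1 : ℕ) : ℝ) = (N : ℝ) := by rw [hN1]
    rw [← this]; push_cast; ring
  rw [hcast] at h2
  refine h2.trans ?_
  have h3 : 2 * (k : ℝ) ^ k ≤ (Real.log N) ^ ((2 : ℝ) * k) := by
    have e1 : (Real.log N) ^ ((2 : ℝ) * k) = (Real.log N * Real.log N) ^ k := by
      rw [Real.rpow_mul (by linarith), Real.rpow_natCast]
      norm_num
      rw [sq]
    rw [e1, mul_pow]
    have h4 : (2 : ℝ) ≤ (Real.log N) ^ k := by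
      calc (2 : ℝ) ≤ Real.log N := hL2
        _ = (Real.log N) ^ 1 := (pow_one _).symm
        _ ≤ (Real.log N) ^ k := pow_le_pow_right₀ (by linarith) hk1
    have h5 : (k : ℝ) ^ k ≤ (Real.log N) ^ k := pow_le_pow_left₀ (Nat.cast_nonneg _) hkL k
    exact mul_le_mul h4 h5 (by positivity) (by positivity)
  have h6 : (0 : ℝ) ≤ (k.factorial : ℝ) *
    ((((range N).powersetCard k).filter (fun A => Admissible A)).card : ℝ) := by positivity
  calc _ = 2 * (k : ℝ) ^ k * ((k.factorial : ℝ) *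
    ((((range N).powersetCard k).filter (fun A => Admissible A)).card : ℝ)) := by ring
    _ ≤ _ := mul_le_mul_of_nonneg_right h3 h6

end Pool.Agent.Lib.H59P
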