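import Pool.Agent.Lib.H59P.Y8

/-!
# Project H59P, chunk Y9: the proportion among the admissible sets
-/

open Finset

namespace Pool.Agent.Lib.H59P

open Pool.Agent.Lib.H68T Pool.Agent.Lib.H18Q

/-- **Y9.** The proportion of the bad sets among the admissible ones. Proof. `Y8` with `N = ⌊x^(1-δ)⌋₊ + 1`
(`4 N ≤ x` for `x` large), `TCount`; `2^k ≤ (log N)^k`; `log N ≤ log x`. -/
theorem Y9 (hC : TCount) : ∃ C : ℝ, 1 ≤ C ∧ ∀ δ δ' : ℝ, 0 < δ → δ < 1 → 0 < δ' → δ' < 1 → ∃ x0 : ℝ,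
    ∀ (x : ℝ) (k : ℕ), x0 ≤ x → 1 ≤ k → (k : ℝ) ≤ (Real.log (⌊x ^ (1 - δ)⌋₊ + 1 : ℕ)) ^ (1 - δ') →
    ∀ (X : ℕ) (Bad : Finset (Fin k → ℕ)) (σ : ℝ), ⌊x ^ (1 - δ)⌋₊ + 1 ≤ X →
      X ≤ 2 * (⌊x ^ (1 - δ)⌋₊ + 1) → Good' X Bad → (Bad.card : ℝ) ≤ (X : ℝ) ^ k * σ → 0 ≤ σ →
      ((bad x δ k).card : ℝ) ≤ (Real.log x) ^ (C * k) * σ * ((adm x δ k).card : ℝ) := by
  classical
  obtain ⟨C0, hC0, hCt⟩ := hC
  refine ⟨C0 + 1, by linarith, ?_⟩
  intro δ δ' hδ hδ1 hδ' hδ'1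
  obtain ⟨N0, hN0⟩ := hCt δ' hδ' hδ'1
  refine ⟨max (max 8 (8 ^ (1 / δ))) (max ((N0 : ℝ) ^ (1 / (1 - δ))) (Real.exp 2)), ?_⟩
  intro x k hx hk hkN X Bad σ hNX hX2 hG hcard hσ
  have hx8 : 8 ≤ x := (le_max_left _ _).trans ((le_max_left _ _).trans hx)
  have hx8δ : (8 : ℝ) ^ (1 / δ) ≤ x := (le_max_right _ _).trans ((le_max_left _ _).trans hx)
  have hxN0 : (N0 : ℝ) ^ (1 / (1 - δ)) ≤ x := (le_max_left _ _).trans ((le_max_right _ _).trans hx)
  have hxe : Real.exp 2 ≤ x := (le_max_right _ _).trans ((le_max_right _ _).trans hx)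
  have hx0 : 0 < x := by linarith
  have hδ1' : 0 < 1 - δ := by linarith
  have hxδ : 8 ≤ x ^ δ := by
    have h1 : ((8 : ℝ) ^ (1 / δ)) ^ δ ≤ x ^ δ := Real.rpow_le_rpow (by positivity) hx8δ hδ.le
    rw [← Real.rpow_mul (by norm_num), one_div, inv_mul_cancel₀ hδ.ne', Real.rpow_one] at h1
    exact h1
  have hxN : (N0 : ℝ) ≤ x ^ (1 - δ) := by
    have h1 : ((N0 : ℝ) ^ (1 / (1 - δ))) ^ (1 - δ) ≤ x ^ (1 - δ) :=
      Real.rpow_le_rpow (by positivity) hxN0 hδ1'.le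
    rw [← Real.rpow_mul (by positivity), one_div, inv_mul_cancel₀ hδ1'.ne', Real.rpow_one] at h1
    exact h1
  have hlogx : 2 ≤ Real.log x := (Real.le_log_iff_exp_le hx0).mpr hxe
  have hprod : x ^ (1 - δ) * x ^ δ = x := by
    rw [← Real.rpow_add hx0]
    simp
  have hxpos : 0 < x ^ (1 - δ) := Real.rpow_pos_of_pos hx0 _
  have h8 : 8 * x ^ (1 - δ) ≤ x := by nlinarith
  set N := ⌊x ^ (1 - δ)⌋₊ + 1 with hN
  have hNle : (N : ℝ) ≤ x ^ (1 - δ) + 1 := by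
    rw [hN]
    push_cast
    have := Nat.floor_le hxpos.le
    linarith
  have hNgt : x ^ (1 - δ) < N := by
    rw [hN]
    push_cast
    exact Nat.lt_floor_add_one _
  have h4N : 4 * (N : ℝ) ≤ x := by linarith
  have hN1 : 1 ≤ N := by omega
  have hN0N : N0 ≤ N := by
    have : (N0 : ℝ) ≤ N := by linarith
    exact_mod_cast this
  have hNr : (1 : ℝ) ≤ N := by exact_mod_cast hN1
  have hNx : (N : ℝ) ≤ x := by linarith
  have hlogN0 : 0 ≤ Real.log N := Real.log_nonneg hNr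
  have hlogNx : Real.log N ≤ Real.log x := Real.log_le_log (by linarith) hNx
  have hA := Y8 x N X k hN1 hNX hX2 h4N Bad hG σ hcard hσ
  have hB := hN0 N k hN0N hk hkN
  have hfac : (0 : ℝ) < (k.factorial : ℝ) := by exact_mod_cast k.factorial_pos
  have hbad : ((bad x δ k).card : ℝ) = ((((range N).powersetCard k).filter
      (fun A => Admissible A ∧ ¬ HasPrimeTranslate x A)).card : ℝ) := by
    unfold bad
    norm_cast
  have hadm : ((adm x δ k).card : ℝ) = ((((range N).powersetCard k).filter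
      (fun A => Admissible A)).card : ℝ) := by
    unfold adm
    norm_cast
  have hA' : (k.factorial : ℝ) * ((bad x δ k).card : ℝ) ≤ 2 ^ k * (N : ℝ) ^ k * σ := by
    rw [hbad]
    refine le_trans (le_of_eq ?_) hA
    congr
  have hB' : (N : ℝ) ^ k ≤ (Real.log N) ^ (C0 * k) * ((k.factorial : ℝ) * ((adm x δ k).card : ℝ)) := by
    rw [hadm]
    refine hB.trans (le_of_eq ?_)
    congr
  set Ad := ((adm x δ k).card : ℝ) with hAd
  have hAd0 : 0 ≤ Ad := by rw [hAd]; positivity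
  have hk0 : (0 : ℝ) ≤ k := by positivity
  have hpow1 : (2 : ℝ) ^ k ≤ (Real.log x) ^ k := pow_le_pow_left₀ (by norm_num) hlogx k
  have hpow2 : (Real.log N) ^ (C0 * k) ≤ (Real.log x) ^ (C0 * k) :=
    Real.rpow_le_rpow hlogN0 hlogNx (by positivity)
  have hlx : 0 < Real.log x := by linarith
  have hpow3 : (Real.log x) ^ ((C0 + 1) * k) = (Real.log x) ^ k * (Real.log x) ^ (C0 * k) := by
    rw [← Real.rpow_natCast, ← Real.rpow_add hlx]
    congr 1
    ring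
  have hfin : (k.factorial : ℝ) * ((bad x δ k).card : ℝ) ≤
      (k.factorial : ℝ) * ((Real.log x) ^ ((C0 + 1) * k) * σ * Ad) := by
    calc (k.factorial : ℝ) * ((bad x δ k).card : ℝ) ≤ 2 ^ k * (N : ℝ) ^ k * σ := hA'
      _ ≤ 2 ^ k * ((Real.log N) ^ (C0 * k) * ((k.factorial : ℝ) * Ad)) * σ := by
          refine mul_le_mul_of_nonneg_right ?_ hσ
          exact mul_le_mul_of_nonneg_left hB' (by positivity)
      _ = (2 ^ k * (Real.log N) ^ (C0 * k)) * (((k.factorial : ℝ) * Ad) * σ) := by ring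
      _ ≤ ((Real.log x) ^ k * (Real.log x) ^ (C0 * k)) * (((k.factorial : ℝ) * Ad) * σ) := by
          refine mul_le_mul_of_nonneg_right ?_ (by positivity)
          exact mul_le_mul hpow1 hpow2 (Real.rpow_nonneg hlogN0 _) (by positivity)
      _ = (k.factorial : ℝ) * ((Real.log x) ^ ((C0 + 1) * k) * σ * Ad) := by
          rw [hpow3]
          ring
  exact le_of_mul_le_mul_left hfin hfac

end Pool.Agent.Lib.H59P
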