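import Pool.Agent.Lib.H59P.Y7
import Pool.Agent.Lib.H59P.Y9

/-!
# Project H59P, chunk YE: statement (e) for sets
-/

open Finset

namespace Pool.Agent.Lib.H59P

open Pool.Agent.Lib.H68T Pool.Agent.Lib.H18Q

theorem YE_asym (C c δ : ℝ) (hC : 0 < C) (hc : 0 < c) (hδ : 0 < δ) :
    ∀ᶠ L : ℝ in Filter.atTop, 1 < Real.log L ∧ 1 < L ∧ C * L ^ (1 - δ) * Real.log L ≤ c * (L / Real.log L) := by
  have h1 : ∀ᶠ L : ℝ in Filter.atTop, ‖Real.log L‖ ≤ 1 * ‖L ^ (δ / 4)‖ :=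
    (isLittleO_log_rpow_atTop (by positivity)).bound one_pos
  have h2 : ∀ᶠ L : ℝ in Filter.atTop, C / c ≤ L ^ (δ / 2) :=
    (tendsto_rpow_atTop (by positivity)).eventually_ge_atTop _
  have h3 : ∀ᶠ L : ℝ in Filter.atTop, 1 < Real.log L := Real.tendsto_log_atTop.eventually_gt_atTop 1
  filter_upwards [h1, h2, h3, Filter.eventually_gt_atTop (1 : ℝ)] with L a1 a2 a3 a4
  refine ⟨a3, a4, ?_⟩
  have hL : 0 < L := by linarith
  have hl : 0 < Real.log L := by linarith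
  have hp : 0 < L ^ (δ / 4) := Real.rpow_pos_of_pos hL _
  rw [Real.norm_of_nonneg hl.le, Real.norm_of_nonneg hp.le, one_mul] at a1
  have e1 : Real.log L * Real.log L ≤ L ^ (δ / 2) := by
    calc Real.log L * Real.log L ≤ L ^ (δ / 4) * L ^ (δ / 4) := mul_le_mul a1 a1 hl.le hp.le
      _ = L ^ (δ / 2) := by rw [← Real.rpow_add hL]; congr 1; ring
  have e2 : C ≤ c * L ^ (δ / 2) := by
    rw [div_le_iff₀ hc] at a2; linarith
  have e3 : C * (Real.log L * Real.log L) ≤ c * L ^ δ := by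
    calc C * (Real.log L * Real.log L) ≤ (c * L ^ (δ / 2)) * L ^ (δ / 2) :=
          mul_le_mul e2 e1 (by positivity) (by positivity)
      _ = c * L ^ δ := by rw [mul_assoc, ← Real.rpow_add hL]; congr 2; ring
  have e4 : L ^ (1 - δ) * L ^ δ = L := by
    rw [← Real.rpow_add hL]; simp
  rw [← mul_div_assoc, le_div_iff₀ hl]
  calc C * L ^ (1 - δ) * Real.log L * Real.log L = L ^ (1 - δ) * (C * (Real.log L * Real.log L)) := by ring
    _ ≤ L ^ (1 - δ) * (c * L ^ δ) := mul_le_mul_of_nonneg_left e3 (by positivity)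
    _ = c * (L ^ (1 - δ) * L ^ δ) := by ring
    _ = c * L := by rw [e4]

/-- **(e).** Proof. `Y7` with `δ/2` in place of `δ` gives `N` arbitrarily large; choose `x` with
`⌊x^(1-δ)⌋₊ + 1 = N`, e.g. `x = (N - 1/2)^(1/(1-δ))`; `k ≤ (log x)^(1-δ) ≤ (log N)^(1-δ/2)`. `Y9` with
`σ = exp(-ε log N/log log N)`, `(log x)^(C k) ≤ exp(ε log N/(2 log log N))`. -/
theorem YE (hF : FMain) (hT : TMain) (hA : AGood) (c0 : ℝ) (hlow : TLow c0) (hC : TCount) (δ : ℝ)
    (hδ : 0 < δ) (hδ1 : δ < 1) :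
    ∃ c : ℝ, 0 < c ∧ ∀ x0 : ℝ, ∃ x : ℝ, x0 ≤ x ∧ ∀ k : ℕ, 1 ≤ k → (k : ℝ) ≤ (Real.log x) ^ (1 - δ) →
      ((bad x δ k).card : ℝ) ≤ x ^ (-(c / Real.log (Real.log x))) * ((adm x δ k).card : ℝ) := by
  obtain ⟨ε, hε, h7⟩ := Y7 hF hT hA c0 hlow (δ / 2) (by positivity) (by linarith)
  obtain ⟨C, hC1, h9⟩ := Y9 hC
  obtain ⟨x1, h9⟩ := h9 δ (δ / 2) hδ hδ1 (by positivity) (by linarith)
  have h1δ : 0 < 1 - δ := by linarith
  have hinv : 0 < 1 / (1 - δ) := by positivity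
  set c : ℝ := ε / 2 * (1 - δ) with hcdef
  have hc : 0 < c := by positivity
  refine ⟨c, hc, ?_⟩
  intro x0
  -- the map N ↦ x
  have hNat : Filter.Tendsto (fun N : ℕ => (N : ℝ) - 1 / 2) Filter.atTop Filter.atTop :=
    Filter.tendsto_atTop_add_const_right _ _ tendsto_natCast_atTop_atTop
  have hX : Filter.Tendsto (fun N : ℕ => ((N : ℝ) - 1 / 2) ^ (1 / (1 - δ))) Filter.atTop Filter.atTop :=
    (tendsto_rpow_atTop hinv).comp hNat
  have hL : Filter.Tendsto (fun N : ℕ => Real.log (((N : ℝ) - 1 / 2) ^ (1 / (1 - δ)))) Filter.atTop Filter.atTop :=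
    Real.tendsto_log_atTop.comp hX
  have hlN : Filter.Tendsto (fun N : ℕ => Real.log (N : ℝ)) Filter.atTop Filter.atTop :=
    Real.tendsto_log_atTop.comp tendsto_natCast_atTop_atTop
  have g1 := hX.eventually_ge_atTop x0
  have g2 := hX.eventually_ge_atTop x1
  have g3 := hL.eventually (YE_asym C c δ (by linarith) hc hδ)
  have g4 : ∀ᶠ N : ℕ in Filter.atTop, (1 / (1 - δ)) ^ (1 - δ) ≤ (Real.log N) ^ (δ / 2) :=
    ((tendsto_rpow_atTop (by positivity : 0 < δ / 2)).comp hlN).eventually_ge_atTop _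
  have g5 := hlN.eventually_gt_atTop 1
  -- N ≤ x
  have g6 : ∀ᶠ N : ℕ in Filter.atTop, 2 ≤ ((N : ℝ) - 1 / 2) ^ (δ / (1 - δ)) :=
    ((tendsto_rpow_atTop (by positivity)).comp hNat).eventually_ge_atTop _
  obtain ⟨N0, hN0⟩ := Filter.eventually_atTop.1 (g1.and (g2.and (g3.and (g4.and (g5.and g6)))))
  obtain ⟨N, hN, h7⟩ := h7 (max N0 2)
  obtain ⟨a1, a2, ⟨a3, a3', a4⟩, a5, a6, a7⟩ := hN0 N ((le_max_left _ _).trans hN)
  have hN2 : 2 ≤ N := (le_max_right _ _).trans hN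
  have hN2' : (2 : ℝ) ≤ N := by exact_mod_cast hN2
  set x : ℝ := ((N : ℝ) - 1 / 2) ^ (1 / (1 - δ)) with hxdef
  have hNp : 0 < (N : ℝ) - 1 / 2 := by linarith
  have hxp : 0 < x := Real.rpow_pos_of_pos hNp _
  have hxN : x ^ (1 - δ) = (N : ℝ) - 1 / 2 := by
    rw [hxdef, ← Real.rpow_mul hNp.le, one_div_mul_cancel h1δ.ne', Real.rpow_one]
  have hfl : ⌊x ^ (1 - δ)⌋₊ + 1 = N := by
    have h1 : ⌊x ^ (1 - δ)⌋₊ = N - 1 := by
      rw [Nat.floor_eq_iff (by rw [hxN]; exact hNp.le), hxN, Nat.cast_sub (by omega)]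
      push_cast
      constructor <;> linarith
    omega
  have hNx : (N : ℝ) ≤ x := by
    have h1 : x = ((N : ℝ) - 1 / 2) * ((N : ℝ) - 1 / 2) ^ (δ / (1 - δ)) := by
      rw [hxdef]
      have h2 : (1 : ℝ) / (1 - δ) = 1 + δ / (1 - δ) := by field_simp; ring
      rw [h2, Real.rpow_add hNp, Real.rpow_one]
    rw [h1]
    have h3 : ((N : ℝ) - 1 / 2) * 2 ≤ ((N : ℝ) - 1 / 2) * ((N : ℝ) - 1 / 2) ^ (δ / (1 - δ)) :=
      mul_le_mul_of_nonneg_left a7 hNp.le
    linarith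
  have hlogx : Real.log x = Real.log ((N : ℝ) - 1 / 2) / (1 - δ) := by
    rw [hxdef, Real.log_rpow hNp]; ring
  have hlog1 : (1 - δ) * Real.log x ≤ Real.log N := by
    rw [hlogx, mul_div_cancel₀ _ h1δ.ne']
    exact Real.log_le_log hNp (by linarith)
  have hlog2 : Real.log x ≤ 1 / (1 - δ) * Real.log N := by
    rw [div_mul_eq_mul_div, one_mul, le_div_iff₀ h1δ]; linarith
  have hlog3 : Real.log N ≤ Real.log x := Real.log_le_log (by linarith) hNx
  refine ⟨x, a1, ?_⟩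
  intro k hk hkx
  have hLpos : 0 < Real.log x := by linarith
  have hllpos : 0 < Real.log (Real.log x) := by linarith
  have hkN : (k : ℝ) ≤ (Real.log N) ^ (1 - δ / 2) := by
    calc (k : ℝ) ≤ (Real.log x) ^ (1 - δ) := hkx
      _ ≤ (1 / (1 - δ) * Real.log N) ^ (1 - δ) := Real.rpow_le_rpow hLpos.le hlog2 h1δ.le
      _ = (1 / (1 - δ)) ^ (1 - δ) * (Real.log N) ^ (1 - δ) := Real.mul_rpow hinv.le (by linarith)
      _ ≤ (Real.log N) ^ (δ / 2) * (Real.log N) ^ (1 - δ) :=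
          mul_le_mul_of_nonneg_right a5 (Real.rpow_nonneg (by linarith) _)
      _ = (Real.log N) ^ (1 - δ / 2) := by rw [← Real.rpow_add (by linarith)]; congr 1; ring
  obtain ⟨X, Bad, b1, b2, b3, b4⟩ := h7 k hk hkN
  have h10 := h9 x k a2 hk (by rw [hfl]; exact hkN) X Bad
    (Real.exp (-(ε * (Real.log N / Real.log (Real.log N))))) (by rw [hfl]; exact b1) (by rw [hfl]; exact b2) b3 b4
    (Real.exp_pos _).le
  refine h10.trans (mul_le_mul_of_nonneg_right ?_ (Nat.cast_nonneg _))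
  -- exponents
  have hllN : 0 < Real.log (Real.log N) := Real.log_pos a6
  have hll : Real.log (Real.log N) ≤ Real.log (Real.log x) := Real.log_le_log (by linarith) hlog3
  have e1 : (1 - δ) * (Real.log x / Real.log (Real.log x)) ≤ Real.log N / Real.log (Real.log N) := by
    rw [← mul_div_assoc]
    exact div_le_div₀ (by linarith) hlog1 hllN hll
  have e2 : (Real.log x) ^ (C * k) = Real.exp (Real.log (Real.log x) * (C * k)) :=
    Real.rpow_def_of_pos hLpos _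
  have e3 : x ^ (-(c / Real.log (Real.log x))) = Real.exp (Real.log x * -(c / Real.log (Real.log x))) :=
    Real.rpow_def_of_pos hxp _
  rw [e2, e3, ← Real.exp_add, Real.exp_le_exp]
  have e4 : Real.log (Real.log x) * (C * k) ≤ c * (Real.log x / Real.log (Real.log x)) := by
    refine le_trans ?_ a4
    calc Real.log (Real.log x) * (C * k) ≤ Real.log (Real.log x) * (C * (Real.log x) ^ (1 - δ)) :=
          mul_le_mul_of_nonneg_left (mul_le_mul_of_nonneg_left hkx (by linarith)) hllpos.le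
      _ = C * Real.log x ^ (1 - δ) * Real.log (Real.log x) := by ring
  have e5 : 2 * c * (Real.log x / Real.log (Real.log x)) ≤ ε * (Real.log N / Real.log (Real.log N)) := by
    calc 2 * c * (Real.log x / Real.log (Real.log x)) = ε * ((1 - δ) * (Real.log x / Real.log (Real.log x))) := by
          rw [hcdef]; ring
      _ ≤ _ := mul_le_mul_of_nonneg_left e1 hε.le
  have e6 : Real.log x * -(c / Real.log (Real.log x)) = -(c * (Real.log x / Real.log (Real.log x))) := by ring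
  rw [e6]
  linarith

end Pool.Agent.Lib.H59P
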