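import Pool.Agent.Lib.H59P.YKA
import Pool.Agent.Lib.H68T.FINP
import Pool.Agent.Lib.H68X.XSIE

/-!
# Project H59P, chunk YK: forward direction of the equivalence
-/

open Finset

namespace Pool.Agent.Lib.H59P

open Pool.Agent.Lib.H68T Pool.Agent.Lib.H18Q

/-- **YK.** Proof. As `forwardK` (`H51D/VTH.lean`): `t = κ - δ/4`, `a = κ - δ`, `g = κ - δ/2`, `b = t (1/κ - 1 + ε')` with
`ε'` small; `a + b < 1`. The zeros with `r ≥ r₀(ε')` by `NoSiegelK`, those with `r < r₀` by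
`zero_elementary`. (`g ≤ κ - δ/2 < t`, `g < 1`.) -/
theorem YK (hF : FMain) (hT : TMain) (hA : AMain) (c0 : ℝ) (hc0 : 0 ≤ c0) (hlow : TLow c0)
    (hC : TCount) (κ : ℝ) (hκ : 0 < κ) (hκ1 : κ ≤ 1) (h : NoSiegelK κ) :
    ∀ δ : ℝ, 0 < δ → δ < κ → ∃ x0 : ℝ, ∀ x : ℝ, x0 ≤ x → ∀ k : ℕ, 1 ≤ k →
      (k : ℝ) ≤ (Real.log x) ^ (κ - δ) →
      ((bad x δ k).card : ℝ) ≤ Real.exp (-(Real.log x) ^ (κ - δ / 2)) * ((adm x δ k).card : ℝ) := by
  intro δ hδ hδκ
  obtain ⟨c, hc, hz⟩ := zero_elementary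
  obtain ⟨r₀, hr₀⟩ := h (δ / 2) (by linarith)
  set q := 1 / κ with hq
  have hqκ : q * κ = 1 := by rw [hq]; field_simp
  have hq1 : 1 ≤ q := by
    rw [hq, le_div_iff₀ hκ]; linarith
  set γ := q - 1 + δ / 2 with hγ
  have hγ0 : 0 < γ := by rw [hγ]; linarith
  set t := κ - δ / 4 with ht
  have ht0 : 0 < t := by rw [ht]; linarith
  set b := t * γ with hb
  have hb0 : 0 < b := mul_pos ht0 hγ0
  have hb1 : b = 1 - κ + κ * δ / 2 - δ * q / 4 + δ / 4 - δ ^ 2 / 8 := by
    rw [hb, ht, hγ]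
    linear_combination hqκ
  have hκb : κ - δ + b < 1 := by
    rw [hb1]
    have h1 : κ * δ ≤ 1 * δ := mul_le_mul_of_nonneg_right hκ1 hδ.le
    have h2 : δ * 1 ≤ δ * q := mul_le_mul_of_nonneg_left hq1 hδ.le
    have h3 : 0 ≤ δ ^ 2 := sq_nonneg δ
    linarith
  obtain ⟨L₀, hcore⟩ := YKa hF hT hA c0 hc0 hlow hC δ (κ - δ) t b (κ - δ / 2) hδ
    (by linarith) (by linarith) (by rw [ht]; linarith) hb0 hκb (by rw [ht]; linarith)
    (by linarith) (by linarith)
  obtain ⟨L₁, hL₁⟩ := Filter.eventually_atTop.mp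
    (ev_rpow (|Real.log c| + 2 * Real.log (r₀ + 1)) 0 b hb0)
  refine ⟨Real.exp (max (max L₀ L₁) 1), fun x hx k hk1 hk => ?_⟩
  have hx0 : 0 < x := lt_of_lt_of_le (Real.exp_pos _) hx
  set L := Real.log x with hL
  have hLx : x = Real.exp L := (Real.exp_log hx0).symm
  have hLge : max (max L₀ L₁) 1 ≤ L := by
    rw [hL, Real.le_log_iff_exp_le hx0]; exact hx
  have hLL₀ : L₀ ≤ L := (le_max_left _ _).trans ((le_max_left _ _).trans hLge)
  have hLL₁ : L₁ ≤ L := (le_max_right _ _).trans ((le_max_left _ _).trans hLge)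
  have hL1 : 1 ≤ L := (le_max_right _ _).trans hLge
  have hL0 : 0 < L := by linarith
  have e1 := hL₁ L hLL₁
  rw [Real.rpow_zero, mul_one] at e1
  have h := hcore L hLL₀ ?_ k hk1 hk
  · rw [hLx]
    exact h
  · intro r hr ψ hrL hprim hψ hψ2 β hβ hzero
    have hrpos : (1:ℝ) ≤ r := by
      have := Nat.pos_of_ne_zero (NeZero.ne r)
      exact_mod_cast this
    rcases le_or_gt r₀ r with hrr | hrr
    · by_contra hcon
      push Not at hcon
      refine hr₀ r hrr ψ hprim hψ hψ2 β ?_ hβ.le hzero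
      have hlr : 0 ≤ Real.log r := Real.log_nonneg hrpos
      have h1 : (Real.log r) ^ γ ≤ L ^ b := by
        have h1a : Real.log r ≤ L ^ t := by
          rw [Real.log_le_iff_le_exp (by linarith)]; exact hrL
        calc (Real.log r) ^ γ ≤ (L ^ t) ^ γ := Real.rpow_le_rpow hlr h1a hγ0.le
          _ = L ^ b := by rw [hb, Real.rpow_mul hL0.le]
      have h2 : Real.exp (-L ^ b) ≤ Real.exp (-(Real.log r) ^ γ) :=
        Real.exp_le_exp.mpr (by linarith)
      linarith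
    · refine le_trans ?_ (hz r ψ hψ hψ2 β hβ hzero)
      rw [le_div_iff₀ (by positivity)]
      have hc1 : Real.exp (-|Real.log c|) ≤ c := by
        calc Real.exp (-|Real.log c|) ≤ Real.exp (Real.log c) :=
              Real.exp_le_exp.mpr (neg_abs_le _)
          _ = c := Real.exp_log hc
      refine le_trans ?_ hc1
      have hr1 : (r : ℝ) ≤ r₀ + 1 := by
        have : r ≤ r₀ + 1 := by omega
        exact_mod_cast this
      have hr0pos : (0:ℝ) < r₀ + 1 := by positivity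
      calc Real.exp (-L ^ b) * (r : ℝ) ^ 2
          ≤ Real.exp (-L ^ b) * (Real.exp (Real.log (r₀ + 1))) ^ 2 := by
            apply mul_le_mul_of_nonneg_left _ (Real.exp_pos _).le
            rw [Real.exp_log hr0pos]
            exact pow_le_pow_left₀ (by linarith) hr1 2
        _ = Real.exp (-L ^ b + 2 * Real.log (r₀ + 1)) := by
            rw [← Real.exp_nat_mul, ← Real.exp_add]; push_cast; ring_nf
        _ ≤ _ := by
            apply Real.exp_le_exp.mpr
            linarith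

end Pool.Agent.Lib.H59P
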