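import Pool.Agent.Lib.H59P.YD
import Pool.Agent.Lib.H59P.YE
import Pool.Agent.Lib.H59P.YK
import Pool.Agent.Lib.H59P.T7
import Pool.Agent.Lib.H59P.T8
import Pool.Agent.Lib.H59P.A7
import Pool.Agent.Lib.H59P.F
import Pool.Agent.Lib.H59P.HB
import Pool.Agent.Lib.H51D.VTH
import Pool.Agent.Lib.H68X.XSET

/-!
# Project H59P: the main theorems with sets
-/

open Finset

namespace Pool.Agent.Lib.H59P

open Pool.Agent.Lib.H68T Pool.Agent.Lib.H18Q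

theorem END_bad (x δ : ℝ) (k : ℕ) (hx : 0 ≤ x) :
    ({A ∈ XSET_adm x δ k | ¬ HasPrimeTranslate x A}).ncard = (bad x δ k).card := by
  rw [XSET_badcard x δ k hx]
  rfl

theorem END_adm (x δ : ℝ) (k : ℕ) (hx : 0 ≤ x) :
    (XSET_adm x δ k).ncard = (adm x δ k).card := by
  rw [XSET_card x δ k hx]
  rfl

/-- Statement (d). -/
theorem END_d (δ : ℝ) (hδ : 0 < δ) (hδ1 : δ < 1 / 2) :
    ∃ c x₀ : ℝ, 0 < c ∧ ∀ x : ℝ, x₀ ≤ x → ∀ k : ℕ, 1 ≤ k →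
      (k : ℝ) ≤ (Real.log x) ^ (1 / 2 - δ) → 0 < (XSET_adm x δ k).ncard ∧
      (({A ∈ XSET_adm x δ k | ¬ HasPrimeTranslate x A}.ncard : ℕ) : ℝ) ≤
        x ^ (-(c / (k * Real.log (k + 1)))) * ((XSET_adm x δ k).ncard : ℝ) := by
  obtain ⟨c0, hc0, hlow⟩ := T_low
  obtain ⟨c, x₀, hc, h⟩ := YD F_main T_main A_main c0 hc0 hlow T_count δ hδ hδ1
  obtain ⟨x₁, hx₁1, hx₁⟩ := XSET_pos δ hδ (by linarith)
  refine ⟨c, max (max x₀ x₁) (Real.exp 1), hc, fun x hx k hk1 hk => ?_⟩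
  have hxe : Real.exp 1 ≤ x := (le_max_right _ _).trans hx
  have h0' : 0 < x := lt_of_lt_of_le (Real.exp_pos _) hxe
  have hL1 : 1 ≤ Real.log x := by
    rw [Real.le_log_iff_exp_le h0']; exact hxe
  have hm : max x₀ x₁ ≤ x := (le_max_left _ _).trans hx
  refine ⟨hx₁ x ((le_max_right _ _).trans hm) k hk1 (hk.trans ?_), ?_⟩
  · exact Real.rpow_le_rpow_of_exponent_le hL1 (by linarith)
  rw [END_bad x δ k h0'.le, END_adm x δ k h0'.le]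
  exact h x ((le_max_left _ _).trans hm) k hk1 hk

/-- Statement (e). -/
theorem END_e (δ : ℝ) (hδ : 0 < δ) (hδ1 : δ < 1) :
    ∃ c : ℝ, 0 < c ∧ ∀ x₀ : ℝ, ∃ x : ℝ, x₀ ≤ x ∧ ∀ k : ℕ, 1 ≤ k →
      (k : ℝ) ≤ (Real.log x) ^ (1 - δ) → 0 < (XSET_adm x δ k).ncard ∧
      (({A ∈ XSET_adm x δ k | ¬ HasPrimeTranslate x A}.ncard : ℕ) : ℝ) ≤
        x ^ (-(c / Real.log (Real.log x))) * ((XSET_adm x δ k).ncard : ℝ) := by
  obtain ⟨c0, hc0, hlow⟩ := T_low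
  obtain ⟨c, hc, h⟩ := YE F_main T_main A_good c0 hlow T_count δ hδ hδ1
  obtain ⟨x₁, hx₁1, hx₁⟩ := XSET_pos δ hδ hδ1
  refine ⟨c, hc, fun x₀ => ?_⟩
  obtain ⟨x, hx, hh⟩ := h (max (max x₀ x₁) (Real.exp 1))
  have hxe : Real.exp 1 ≤ x := (le_max_right _ _).trans hx
  have h0' : 0 < x := lt_of_lt_of_le (Real.exp_pos _) hxe
  have hm : max x₀ x₁ ≤ x := (le_max_left _ _).trans hx
  refine ⟨x, (le_max_left _ _).trans hm, fun k hk1 hk => ?_⟩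
  refine ⟨hx₁ x ((le_max_right _ _).trans hm) k hk1 hk, ?_⟩
  rw [END_bad x δ k h0'.le, END_adm x δ k h0'.le]
  exact hh k hk1 hk

/-- (c) implies (a). -/
theorem END_a (κ : ℝ) (hκ : 0 < κ) (hκ1 : κ ≤ 1) (h : NoSiegelK κ) (δ : ℝ) (hδ : 0 < δ)
    (hδ1 : δ < κ) : ∃ x₀ : ℝ, ∀ x : ℝ, x₀ ≤ x → ∀ k : ℕ, 1 ≤ k →
      (k : ℝ) ≤ (Real.log x) ^ (κ - δ) → 0 < (XSET_adm x δ k).ncard ∧
      (({A ∈ XSET_adm x δ k | ¬ HasPrimeTranslate x A}.ncard : ℕ) : ℝ) ≤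
        Real.exp (-(Real.log x) ^ (κ - δ / 2)) * ((XSET_adm x δ k).ncard : ℝ) := by
  obtain ⟨c0, hc0, hlow⟩ := T_low
  obtain ⟨x₀, hh⟩ := YK F_main T_main A_main c0 hc0 hlow T_count κ hκ hκ1 h δ hδ hδ1
  obtain ⟨x₁, hx₁1, hx₁⟩ := XSET_pos δ hδ (by linarith)
  refine ⟨max (max x₀ x₁) (Real.exp 1), fun x hx k hk1 hk => ?_⟩
  have hxe : Real.exp 1 ≤ x := (le_max_right _ _).trans hx
  have h0' : 0 < x := lt_of_lt_of_le (Real.exp_pos _) hxe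
  have hL1 : 1 ≤ Real.log x := by
    rw [Real.le_log_iff_exp_le h0']; exact hxe
  have hm : max x₀ x₁ ≤ x := (le_max_left _ _).trans hx
  refine ⟨hx₁ x ((le_max_right _ _).trans hm) k hk1 (hk.trans ?_), ?_⟩
  · exact Real.rpow_le_rpow_of_exponent_le hL1 (by linarith)
  rw [END_bad x δ k h0'.le, END_adm x δ k h0'.le]
  exact hh x ((le_max_left _ _).trans hm) k hk1 hk

end Pool.Agent.Lib.H59P
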