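import Pool.Agent.Lib.H59P.FDefs
import Pool.Agent.Lib.H59C.LSB

/-!
# Project H59P, chunk F1a: Fourier expansion of a primitive character
-/

open Finset

namespace Pool.Agent.Lib.H59P

open Pool.Agent.Lib.H68T Pool.Agent.Lib.H18Q

theorem f1a_e (r : ℕ) [NeZero r] (m : ℤ) (b : ℕ) : ZMod.stdAddChar ((m : ZMod r) * (b : ZMod r)) =
    e ((m : ℝ) * ((b : ℝ) / r)) := by
  have h := ZMod.stdAddChar_coe (N := r) (m * (b : ℤ))
  push_cast at h
  rw [h, e]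
  congr 1
  push_cast
  ring

/-- **F1a.** Proof. `gaussSum_mulShift_of_isPrimitive` (as in `ls_gauss`, `H59C/LSB.lean`) and `lsb_gauss`:
`τ conj χ(m) = ∑_y χ(y) e(y m / r)`, `|τ|² = r`, `χ(y) = 0` if `(y,r) ≠ 1`: `d y = χ(y)/τ`. Sum over `ZMod r`
to `range r`: `CA_range` (`H18Q/CA.lean`), `ZMod.stdAddChar` to `e`: `lsb_e`. -/
theorem F1a (r : ℕ) [NeZero r] (χ : DirichletCharacter ℂ r) (hχ : χ.IsPrimitive) : ∃ d : ℕ → ℂ,
    (∀ y, ‖d y‖ ^ 2 ≤ 1 / (r : ℝ)) ∧ ∀ m : ℤ, (starRingEnd ℂ) (χ (m : ZMod r)) =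
      ∑ y ∈ UR r, d y * e ((m : ℝ) * ((y : ℝ) / r)) := by
  have hr0 : (0 : ℝ) < r := by exact_mod_cast NeZero.pos r
  obtain ⟨τ, hτ⟩ : ∃ τ : ℂ, τ = gaussSum χ (ZMod.stdAddChar (N := r)) := ⟨_, rfl⟩
  have hn : ‖τ‖ ^ 2 = r := by rw [hτ]; exact Pool.Agent.Lib.H59C.lsb_gauss r hχ
  have hτ0 : τ ≠ 0 := by
    intro h
    rw [h, norm_zero] at hn
    norm_num at hn
    exact hr0.ne hn
  refine ⟨fun y => χ (y : ZMod r) / τ, ?_, ?_⟩
  · intro y
    rw [norm_div, div_pow, hn]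
    have h1 : ‖χ (y : ZMod r)‖ ^ 2 ≤ 1 := pow_le_one₀ (norm_nonneg _) (DirichletCharacter.norm_le_one _ _)
    exact div_le_div_of_nonneg_right h1 hr0.le
  · intro m
    have h1 : (starRingEnd ℂ) (χ (m : ZMod r)) = χ⁻¹ (m : ZMod r) := MulChar.star_apply' χ (m : ZMod r)
    have h2 := gaussSum_mulShift_of_isPrimitive (ZMod.stdAddChar (N := r)) hχ (m : ZMod r)
    rw [← hτ, gaussSum] at h2
    have h3 : ∑ b : ZMod r, χ b * (AddChar.mulShift (ZMod.stdAddChar (N := r)) (m : ZMod r)) b =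
        ∑ y ∈ UR r, χ (y : ZMod r) * e ((m : ℝ) * ((y : ℝ) / r)) := by
      rw [← CA_range r fun b => χ b * (AddChar.mulShift (ZMod.stdAddChar (N := r)) (m : ZMod r)) b]
      unfold UR
      rw [sum_filter]
      refine sum_congr rfl fun y _ => ?_
      split_ifs with hy
      · rw [AddChar.mulShift_apply, f1a_e]
      · have h4 : ¬ IsUnit (y : ZMod r) := by
          rw [ZMod.isUnit_iff_coprime]
          exact hy
        rw [MulChar.map_nonunit χ h4, zero_mul]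
    rw [h1]
    have h5 : χ⁻¹ (m : ZMod r) = (∑ y ∈ UR r, χ (y : ZMod r) * e ((m : ℝ) * ((y : ℝ) / r))) / τ := by
      rw [← h3, h2, mul_div_cancel_right₀ _ hτ0]
    rw [h5, sum_div]
    refine sum_congr rfl fun y _ => ?_
    ring

end Pool.Agent.Lib.H59P
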