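import Mathlib

/-!
# Project H59P, chunk HL1: the shift lemma
-/

open Finset

namespace Pool.Agent.Lib.H59P

theorem hl1_aux {k L : ℕ} [NeZero L] {α : Type*} (l : ℕ) (w : ZMod L)
    (c : (Fin k → ZMod L) → α)
    (hc : ∀ (b : Fin k → ZMod L) (t : Fin k → ℕ), c (fun i => b i + (t i : ZMod L) * w) = c b)
    (g : α → ℝ) (h : α → ZMod L → ℝ) :
    (l : ℝ) ^ k * ∑ b : Fin k → ZMod L, g (c b) * ∏ i, h (c b) (b i) =
      ∑ b : Fin k → ZMod L, g (c b) * ∏ i, ∑ t ∈ range l, h (c b) (b i + (t : ZMod L) * w) := by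
  have h1 : ∀ t : Fin k → ℕ, ∑ b : Fin k → ZMod L, g (c b) * ∏ i, h (c b) (b i) =
      ∑ b : Fin k → ZMod L, g (c b) * ∏ i, h (c b) (b i + (t i : ZMod L) * w) := by
    intro t
    have h2 := Equiv.sum_comp (Equiv.addRight (fun i => (t i : ZMod L) * w : Fin k → ZMod L))
      (fun b : Fin k → ZMod L => g (c b) * ∏ i, h (c b) (b i))
    rw [← h2]
    refine Finset.sum_congr rfl fun b _ => ?_
    have h3 : (Equiv.addRight (fun i => (t i : ZMod L) * w : Fin k → ZMod L)) b =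
        fun i => b i + (t i : ZMod L) * w := rfl
    rw [h3, hc]
  have h2 : (l : ℝ) ^ k * ∑ b : Fin k → ZMod L, g (c b) * ∏ i, h (c b) (b i) =
      ∑ t ∈ Fintype.piFinset (fun _ : Fin k => range l),
        ∑ b : Fin k → ZMod L, g (c b) * ∏ i, h (c b) (b i + (t i : ZMod L) * w) := by
    rw [Finset.sum_congr rfl (fun t _ => (h1 t).symm), Finset.sum_const, Fintype.card_piFinset,
      Finset.prod_const, Finset.card_range, Finset.card_univ, Fintype.card_fin, nsmul_eq_mul,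
      Nat.cast_pow]
  rw [h2, Finset.sum_comm]
  refine Finset.sum_congr rfl fun b _ => ?_
  rw [← Finset.mul_sum, Finset.prod_univ_sum]

/-- **HL1, shift lemma.** The coordinates are shifted independently by multiples of `w`.

Proof. For every `t ∈ piFinset (fun _ => range l)` the map `b ↦ (fun i => b i + t i * w)` is a bijection of
`Fin k → ZMod L`, so with `F(b) = g (c b) ∏ h (c b) (b i)` (`h = h1` or `h2`) and `hc`:
`l^k ∑_b F(b) = ∑_b ∑_t F(b + t w) = ∑_b g (c b) ∑_t ∏_i h (c b) (b i + t i w)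
= ∑_b g (c b) ∏_i ∑_{t < l} h (c b) (b i + t w)` (`Finset.prod_univ_sum`). Compare the products with
`Finset.prod_le_prod` (`h1 ≥ 0`) and divide by `l^k > 0`. -/
theorem HL1 {k L : ℕ} [NeZero L] {α : Type*} (l : ℕ) (hl : 0 < l) (w : ZMod L)
    (c : (Fin k → ZMod L) → α)
    (hc : ∀ (b : Fin k → ZMod L) (t : Fin k → ℕ), c (fun i => b i + (t i : ZMod L) * w) = c b)
    (g : α → ℝ) (hg : ∀ a, 0 ≤ g a) (h1 h2 : α → ZMod L → ℝ) (h1n : ∀ a x, 0 ≤ h1 a x) (M : ℝ)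
    (hM : ∀ a, g a ≠ 0 → ∀ x, (∃ b i, c b = a ∧ b i = x) →
      ∑ t ∈ range l, h1 a (x + (t : ZMod L) * w) ≤ M * ∑ t ∈ range l, h2 a (x + (t : ZMod L) * w)) :
    ∑ b : Fin k → ZMod L, g (c b) * ∏ i, h1 (c b) (b i) ≤
      M ^ k * ∑ b : Fin k → ZMod L, g (c b) * ∏ i, h2 (c b) (b i) := by
  have hlk : (0 : ℝ) < (l : ℝ) ^ k := by
    have : (0 : ℝ) < l := by exact_mod_cast hl
    positivity
  refine le_of_mul_le_mul_left ?_ hlk
  have e1 : (l : ℝ) ^ k * (M ^ k * ∑ b : Fin k → ZMod L, g (c b) * ∏ i, h2 (c b) (b i)) =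
      M ^ k * ((l : ℝ) ^ k * ∑ b : Fin k → ZMod L, g (c b) * ∏ i, h2 (c b) (b i)) := by ring
  rw [e1, hl1_aux l w c hc g h1, hl1_aux l w c hc g h2, Finset.mul_sum]
  refine Finset.sum_le_sum fun b _ => ?_
  by_cases hgb : g (c b) = 0
  · rw [hgb, zero_mul, zero_mul, mul_zero]
  · have h3 : ∏ i, ∑ t ∈ range l, h1 (c b) (b i + (t : ZMod L) * w) ≤
        ∏ i, (M * ∑ t ∈ range l, h2 (c b) (b i + (t : ZMod L) * w)) := by
      refine Finset.prod_le_prod (fun i _ => Finset.sum_nonneg fun t _ => h1n _ _) fun i _ => ?_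
      exact hM (c b) hgb (b i) ⟨b, i, rfl, rfl⟩
    rw [Finset.prod_mul_distrib, Finset.prod_const, Finset.card_univ, Fintype.card_fin] at h3
    calc g (c b) * ∏ i, ∑ t ∈ range l, h1 (c b) (b i + (t : ZMod L) * w) ≤
        g (c b) * (M ^ k * ∏ i, ∑ t ∈ range l, h2 (c b) (b i + (t : ZMod L) * w)) :=
          mul_le_mul_of_nonneg_left h3 (hg _)
      _ = M ^ k * (g (c b) * ∏ i, ∑ t ∈ range l, h2 (c b) (b i + (t : ZMod L) * w)) := by ring

end Pool.Agent.Lib.H59P
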