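import Pool.Agent.Lib.H59P.HLDefs

/-!
# Project H59P, chunk HL6: the centre exists
-/

open Finset

namespace Pool.Agent.Lib.H59P

open Pool.Agent.Lib.H68T Pool.Agent.Lib.H18Q

/-- **HL6.** Proof. As `SETS_shift` (`H68T/SetsP.lean`): for every prime `p ∣ q` choose `n_p` with
`n_p ≡ -c_p mod p` (`c_p` the avoided class), `Nat.chineseRemainderOfFinset` over `q.primeFactors`; then no prime
divisor of `q` divides `n + (b i).val` (`(b i).cast` in `ZMod p` is `((b i).val : ZMod p)`). -/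
theorem HL6 {k q L : ℕ} [NeZero L] (hq : 0 < q) (hL : q ∣ L) (b : Fin k → ZMod L) (h : AdL q b) :
    ∃ n : ℕ, ∀ i, IsUnit ((n : ZMod q) + (b i).cast) := by
  classical
  have h1 : ∀ p : ℕ, ∃ n : ℕ, p.Prime → p ∣ q → ∀ i, ¬ p ∣ n + (b i).val := by
    intro p
    by_cases hp : p.Prime ∧ p ∣ q
    · obtain ⟨c, hc⟩ := h p hp.1 hp.2
      have : NeZero p := ⟨hp.1.ne_zero⟩
      refine ⟨(-c).val, fun _ _ i hdvd => ?_⟩
      have h2 := (ZMod.natCast_eq_zero_iff _ _).mpr hdvd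
      rw [Nat.cast_add, ZMod.natCast_val, ZMod.cast_id, ZMod.natCast_val] at h2
      apply hc i
      have h3 : ((b i).cast : ZMod p) = c + (-c + ((b i).cast : ZMod p)) := by ring
      rw [h3, h2, add_zero]
    · exact ⟨0, fun h1 h2 => absurd ⟨h1, h2⟩ hp⟩
  choose n hn using h1
  obtain ⟨m, hm⟩ := Nat.chineseRemainderOfFinset n id q.primeFactors
    (fun p hp => (Nat.prime_of_mem_primeFactors hp).ne_zero)
    (fun p hp l hl hpl => (Nat.coprime_primes (Nat.prime_of_mem_primeFactors hp)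
      (Nat.prime_of_mem_primeFactors hl)).mpr hpl)
  refine ⟨m, fun i => ?_⟩
  have h4 : (m : ZMod q) + ((b i).cast : ZMod q) = ((m + (b i).val : ℕ) : ZMod q) := by
    rw [Nat.cast_add, ZMod.natCast_val]
  rw [h4, ZMod.isUnit_iff_coprime, Nat.coprime_iff_gcd_eq_one]
  by_contra hne
  obtain ⟨p, hp, hpd⟩ := Nat.exists_prime_and_dvd hne
  have hpq : p ∣ q := hpd.trans (Nat.gcd_dvd_right _ _)
  have hpb : p ∣ m + (b i).val := hpd.trans (Nat.gcd_dvd_left _ _)
  have hmem : p ∈ q.primeFactors := Nat.mem_primeFactors.mpr ⟨hp, hpq, hq.ne'⟩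
  have h2 := hm p hmem
  simp only [id] at h2
  apply hn p hp hpq i
  have h3 : n p + (b i).val ≡ m + (b i).val [MOD p] := Nat.ModEq.add_right _ h2.symm
  exact (Nat.modEq_zero_iff_dvd).mp (h3.trans ((Nat.modEq_zero_iff_dvd).mpr hpb))

/-- Units modulo `q` and modulo `l` are units modulo `r = q l`; and if `l ∣ q` it is enough to be a unit
modulo `q`. Proof. `ZMod.isUnit_iff_coprime` for `(z : ℕ)`; a prime divisor of `r` divides `q` or `l`. -/
theorem HL6_unit {r l : ℕ} [NeZero r] (hl : l.Prime) (hlr : l ∣ r) (z : ℕ)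
    (h1 : IsUnit (z : ZMod (r / l))) (h2 : l ∣ r / l ∨ ¬ l ∣ z) : IsUnit (z : ZMod r) := by
  rw [ZMod.isUnit_iff_coprime] at h1 ⊢
  have hr : r = r / l * l := (Nat.div_mul_cancel hlr).symm
  have h3 : Nat.Coprime z l := by
    rcases h2 with h2 | h2
    · exact h1.coprime_dvd_right h2
    · exact ((Nat.Prime.coprime_iff_not_dvd hl).mpr h2).symm
  rw [hr]
  exact Nat.Coprime.mul_right h1 h3

end Pool.Agent.Lib.H59P
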