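import Pool.Agent.Lib.H59P.HL4
import Pool.Agent.Lib.H59P.HL6

/-!
# Project H59P, chunk HL8: for a fixed class many minus signs are rare
-/

open Finset

namespace Pool.Agent.Lib.H59P

open Pool.Agent.Lib.H68T Pool.Agent.Lib.H18Q

theorem hl8_cast {p q L : ℕ} [NeZero L] (hq : 0 < q) (hpq : p ∣ q) (x : ZMod L) :
    ((x.cast : ZMod q).cast : ZMod p) = (x.cast : ZMod p) := by
  have : NeZero q := ⟨hq.ne'⟩
  rw [ZMod.cast_eq_val x, ZMod.cast_eq_val, ZMod.val_natCast, ZMod.cast_eq_val x]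
  rw [ZMod.natCast_eq_natCast_iff]
  exact (Nat.mod_modEq _ _).of_dvd hpq

theorem hl8_rsd {k q L : ℕ} [NeZero L] (hq : 0 < q) (b : Fin k → ZMod L) : AdL q (rsd q b) ↔ AdL q b := by
  unfold AdL rsd
  refine forall_congr' fun p => forall_congr' fun _ => forall_congr' fun hpq => exists_congr fun c =>
    forall_congr' fun i => ?_
  rw [hl8_cast hq hpq]

theorem hl8_vv (k r : ℕ) : 0 < vv k r ∧ ∀ l : ℕ, l.Prime → l ∣ r → Nat.Coprime (vv k r) l := by
  constructor
  · unfold vv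
    exact Finset.prod_pos fun p hp => (Finset.mem_filter.1 hp).2.1.pos
  · intro l hl hlr
    unfold vv
    refine Nat.Coprime.prod_left fun p hp => ?_
    obtain ⟨h1, h2⟩ := (Finset.mem_filter.1 hp).2
    refine (Nat.coprime_primes h1 hl).2 ?_
    rintro rfl
    exact h2 hlr

theorem hl8_avoid {k l L : ℕ} (hl : l.Prime) (hkl : k < l) (b : Fin k → ZMod L) :
    ∃ c : ZMod l, ∀ i, ((b i).cast : ZMod l) ≠ c := by
  classical
  have : Fact l.Prime := ⟨hl⟩
  by_contra hcon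
  push Not at hcon
  have h1 : Function.Surjective (fun i : Fin k => ((b i).cast : ZMod l)) := hcon
  have h2 := Fintype.card_le_of_surjective _ h1
  rw [ZMod.card, Fintype.card_fin] at h2
  omega

open Classical in
/-- **HL8.** Proof. `l` a prime divisor of `r` (`r > 1`, `ψ ≠ 1`), `v = vv k r`, `q = (r/l) v`, `g a = AdL q a`.
* If `l ∣ r/l` or `k < l`: `g (rsd q b) ↔ AdL (r v) b` (for `l > k` a class modulo `l` is avoided anyway), `HL4`.
* If `l ∤ r/l` and `l ≤ k`: `AdL (r v) b ↔ g (rsd q b) ∧ ∃ c : ZMod l, ∀ i, (b i).cast ≠ c`; union over `c` of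
  the sets of `HL4B`, each at most `exp (-2ε²k) #{AdL (r v)}`; there are `l ≤ k` classes. -/
theorem HL8 {k r L : ℕ} [NeZero L] [NeZero r] (ψ : DirichletCharacter ℂ r) (hprim : ψ.IsPrimitive)
    (hψ : ψ ≠ 1) (hψ2 : ψ ^ 2 = 1) (hk : 1 ≤ k) (hL : r * vv k r ∣ L) (n : ℕ) (ε : ℝ) (hε : 0 ≤ ε) :
    ((univ.filter (fun b : Fin k → ZMod L => AdL (r * vv k r) b ∧
        (1 / 2 + ε) * k ≤ (mnL ψ n b : ℝ))).card : ℝ) ≤
      k * Real.exp (-(2 * ε ^ 2 * k)) *
        ((univ.filter (fun b : Fin k → ZMod L => AdL (r * vv k r) b)).card : ℝ) := by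
  have hr1 : r ≠ 1 := by
    rintro rfl
    exact hψ (DirichletCharacter.level_one ψ)
  obtain ⟨l, hl, hlr⟩ := Nat.exists_prime_and_dvd hr1
  obtain ⟨hv0, hvc⟩ := hl8_vv k r
  have hv := hvc l hl hlr
  have hr0 : 0 < r := Nat.pos_of_ne_zero (NeZero.ne r)
  have hrl : 0 < r / l := Nat.div_pos (Nat.le_of_dvd hr0 hlr) hl.pos
  have hq0 : 0 < r / l * vv k r := Nat.mul_pos hrl hv0
  have hrr : r = l * (r / l) := (Nat.mul_div_cancel' hlr).symm
  have hqr : r / l * vv k r ∣ r * vv k r := Nat.mul_dvd_mul_right (Nat.div_dvd_of_dvd hlr) _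
  have hexp : 0 ≤ Real.exp (-(2 * ε ^ 2 * k)) := (Real.exp_pos _).le
  have hk1 : (1 : ℝ) ≤ k := by exact_mod_cast hk
  have hdown : ∀ b : Fin k → ZMod L, AdL (r * vv k r) b → AdL (r / l * vv k r) (rsd (r / l * vv k r) b) := by
    intro b hb
    rw [hl8_rsd hq0]
    intro p hp hpq
    exact hb p hp (hpq.trans hqr)
  have hup : ∀ b : Fin k → ZMod L, AdL (r / l * vv k r) (rsd (r / l * vv k r) b) →
      (∃ c : ZMod l, ∀ i, ((b i).cast : ZMod l) ≠ c) → AdL (r * vv k r) b := by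
    intro b hb hc p hp hpq
    rw [hl8_rsd hq0] at hb
    rcases (hp.dvd_mul).1 hpq with h1 | h1
    · rw [hrr] at h1
      rcases (hp.dvd_mul).1 h1 with h2 | h2
      · have h3 : p = l := (Nat.prime_dvd_prime_iff_eq hp hl).1 h2
        subst h3
        exact hc
      · exact hb p hp (h2.mul_right _)
    · exact hb p hp (h1.mul_left _)
  by_cases hA : l ∣ r / l ∨ k < l
  · have hiff : ∀ b : Fin k → ZMod L, AdL (r / l * vv k r) (rsd (r / l * vv k r) b) → AdL (r * vv k r) b := by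
      intro b hb
      refine hup b hb ?_
      rcases hA with h1 | h1
      · rw [hl8_rsd hq0] at hb
        exact hb l hl (h1.mul_right _)
      · exact hl8_avoid hl h1 b
    have h4 := HL4 (k := k) ψ hprim hψ2 hl hlr hv hL (fun a => AdL (r / l * vv k r) a) n ε hε
    have h5 : ((univ.filter (fun b : Fin k → ZMod L => AdL (r * vv k r) b ∧
        (1 / 2 + ε) * k ≤ (mnL ψ n b : ℝ))).card : ℝ) ≤
        ((univ.filter (fun b : Fin k → ZMod L => AdL (r / l * vv k r) (rsd (r / l * vv k r) b) ∧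
        (1 / 2 + ε) * k ≤ (mnL ψ n b : ℝ))).card : ℝ) := by
      exact_mod_cast Finset.card_le_card fun b hb => by
        rw [Finset.mem_filter] at hb ⊢
        exact ⟨hb.1, hdown b hb.2.1, hb.2.2⟩
    have h6 : ((univ.filter (fun b : Fin k → ZMod L =>
        AdL (r / l * vv k r) (rsd (r / l * vv k r) b))).card : ℝ) ≤
        ((univ.filter (fun b : Fin k → ZMod L => AdL (r * vv k r) b)).card : ℝ) := by
      exact_mod_cast Finset.card_le_card fun b hb => by
        rw [Finset.mem_filter] at hb ⊢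
        exact ⟨hb.1, hiff b hb.2⟩
    refine h5.trans (h4.trans ?_)
    refine mul_le_mul ?_ h6 (Nat.cast_nonneg _) (mul_nonneg (by linarith) hexp)
    nlinarith
  · push Not at hA
    obtain ⟨hA1, hA2⟩ := hA
    have : Fact l.Prime := ⟨hl⟩
    have h5 : (univ.filter (fun b : Fin k → ZMod L => AdL (r * vv k r) b ∧
        (1 / 2 + ε) * k ≤ (mnL ψ n b : ℝ))) ⊆
        (univ : Finset (ZMod l)).biUnion fun c => univ.filter (fun b : Fin k → ZMod L =>
          AdL (r / l * vv k r) (rsd (r / l * vv k r) b) ∧ (∀ i, ((b i).cast : ZMod l) ≠ c) ∧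
          (1 / 2 + ε) * k ≤ (mnL ψ n b : ℝ)) := by
      intro b hb
      rw [Finset.mem_filter] at hb
      obtain ⟨c, hc⟩ := hb.2.1 l hl (hlr.mul_right _)
      rw [Finset.mem_biUnion]
      refine ⟨c, Finset.mem_univ _, ?_⟩
      rw [Finset.mem_filter]
      exact ⟨Finset.mem_univ _, hdown b hb.2.1, hc, hb.2.2⟩
    have h6 : ∀ c : ZMod l, ((univ.filter (fun b : Fin k → ZMod L =>
          AdL (r / l * vv k r) (rsd (r / l * vv k r) b) ∧ (∀ i, ((b i).cast : ZMod l) ≠ c) ∧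
          (1 / 2 + ε) * k ≤ (mnL ψ n b : ℝ))).card : ℝ) ≤ Real.exp (-(2 * ε ^ 2 * k)) *
          ((univ.filter (fun b : Fin k → ZMod L => AdL (r * vv k r) b)).card : ℝ) := by
      intro c
      refine (HL4B ψ hprim hψ2 hl hlr hA1 hv hL (fun a => AdL (r / l * vv k r) a) n c ε hε).trans ?_
      refine mul_le_mul_of_nonneg_left ?_ hexp
      exact_mod_cast Finset.card_le_card fun b hb => by
        rw [Finset.mem_filter] at hb ⊢
        exact ⟨hb.1, hup b hb.2.1 ⟨c, hb.2.2⟩⟩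
    have h7 : ((univ.filter (fun b : Fin k → ZMod L => AdL (r * vv k r) b ∧
        (1 / 2 + ε) * k ≤ (mnL ψ n b : ℝ))).card : ℝ) ≤ ∑ c : ZMod l, ((univ.filter (fun b : Fin k → ZMod L =>
          AdL (r / l * vv k r) (rsd (r / l * vv k r) b) ∧ (∀ i, ((b i).cast : ZMod l) ≠ c) ∧
          (1 / 2 + ε) * k ≤ (mnL ψ n b : ℝ))).card : ℝ) := by
      exact_mod_cast (Finset.card_le_card h5).trans Finset.card_biUnion_le
    refine h7.trans ((Finset.sum_le_sum fun c _ => h6 c).trans ?_)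
    rw [Finset.sum_const, Finset.card_univ, ZMod.card, nsmul_eq_mul, ← mul_assoc]
    refine mul_le_mul_of_nonneg_right ?_ (Nat.cast_nonneg _)
    exact mul_le_mul_of_nonneg_right (by exact_mod_cast hA2) hexp

end Pool.Agent.Lib.H59P
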