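import Pool.Agent.Lib.H59P.HLDefs

/-!
# Project H59P, chunk HL9: from tuples of classes to sets
-/

open Finset

namespace Pool.Agent.Lib.H59P

open Pool.Agent.Lib.H68T Pool.Agent.Lib.H18Q

open Classical in
/-- **HL9A.** Injective tuples with `AdL (r v)` give admissible sets. Proof. As `XRC_inj`, `XRC_noninj`,
`XRC_T_le` (`H68X/XRC.lean`): `b ↦ (b i).val`; a prime `p ≤ k` divides `r (vv k r)`, for `p > k` use
`XRC_large_prime`. -/
theorem HL9A {k r L : ℕ} [NeZero L] [NeZero r] (H : ℕ) (hLH : L ≤ H + 1) :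
    (univ.filter (fun b : Fin k → ZMod L => AdL (r * vv k r) b)).card ≤
      k.factorial * (((range (H + 1)).powersetCard k).filter (fun A => Admissible A)).card +
        k ^ 2 * L ^ (k - 1) := by
  rw [← card_filter_add_card_filter_not
    (s := univ.filter (fun b : Fin k → ZMod L => AdL (r * vv k r) b)) (fun b => Function.Injective b)]
  refine Nat.add_le_add ?_ (le_trans (card_le_card ?_) XRC_noninj)
  · rw [← SETS_tuples k H]
    refine card_le_card_of_injOn (fun b i => (b i).val) ?_ ?_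
    · intro b hb
      rw [mem_coe, mem_filter, mem_filter] at hb
      obtain ⟨⟨-, hb⟩, hinj⟩ := hb
      rw [mem_coe, mem_filter]
      refine ⟨?_, ?_, ?_⟩
      · unfold SETS_Om
        rw [Fintype.mem_piFinset]
        intro i
        rw [mem_range]
        exact lt_of_lt_of_le (ZMod.val_lt _) hLH
      · intro i j h
        exact hinj (ZMod.val_injective _ h)
      · intro p hp
        by_cases hpq : p ∣ r * vv k r
        · obtain ⟨c, hc⟩ := hb p hp hpq
          refine ⟨c, fun y hy => ?_⟩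
          rw [mem_image] at hy
          obtain ⟨i, -, rfl⟩ := hy
          rw [← XRC_cast_val]
          exact hc i
        · have hpr : ¬ p ∣ r := fun h => hpq (h.mul_right _)
          have hpk : k < p := by
            by_contra h
            push Not at h
            refine hpq (Dvd.dvd.mul_left ?_ _)
            unfold vv
            exact dvd_prod_of_mem _ (mem_filter.2 ⟨mem_range.2 (by omega), hp, hpr⟩)
          exact XRC_large_prime hp hpk _
    · intro b _ b' _ h
      funext i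
      exact ZMod.val_injective _ (congrFun h i)
  · exact filter_subset_filter _ (subset_univ _)

open Classical in
/-- **HL9B.** Proof. As `XRC_bad`: `SETS_tuples`; the injective `a ∈ [0,H]^k` with `P (image a)` have a coordinate
`≥ L` (`SETS_large`, union over `i`), or inject by `a ↦ (a i : ZMod L)`. -/
theorem HL9B {k L : ℕ} [NeZero L] (H : ℕ) (P : Finset ℕ → Prop) (P' : (Fin k → ZMod L) → Prop)
    (hPP : ∀ a : Fin k → ℕ, Function.Injective a → P (univ.image a) → P' (fun i => (a i : ZMod L))) :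
    k.factorial * (((range (H + 1)).powersetCard k).filter P).card ≤
      k * ((H + 1 - L) * (H + 1) ^ (k - 1)) + (univ.filter P').card := by
  rw [← SETS_tuples k H P]
  set X : Finset (Fin k → ℕ) := (SETS_Om k H).filter (fun a => (∀ i, a i < L) ∧
    Function.Injective a ∧ P (univ.image a)) with hX
  have hsub : (SETS_Om k H).filter
      (fun a => Function.Injective a ∧ P (univ.image a)) ⊆
      ((univ : Finset (Fin k)).biUnion (fun i => (SETS_Om k H).filter (fun a => L ≤ a i))) ∪ X := by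
    intro a ha
    rw [mem_filter] at ha
    obtain ⟨h1, h2, h3⟩ := ha
    rw [mem_union]
    by_cases h6 : ∃ i, L ≤ a i
    · left
      obtain ⟨i, hi⟩ := h6
      rw [mem_biUnion]
      exact ⟨i, mem_univ _, mem_filter.2 ⟨h1, hi⟩⟩
    · right
      push Not at h6
      exact mem_filter.2 ⟨h1, h6, h2, h3⟩
  refine (card_le_card hsub).trans ((card_union_le _ _).trans (Nat.add_le_add ?_ ?_))
  · refine card_biUnion_le.trans ((sum_le_sum (fun i _ => SETS_large k H L i)).trans ?_)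
    rw [sum_const, smul_eq_mul, card_univ, Fintype.card_fin]
  · refine card_le_card_of_injOn (fun a i => ((a i : ℕ) : ZMod L)) ?_ ?_
    · intro a ha
      rw [mem_coe, hX, mem_filter] at ha
      obtain ⟨_, _, h3, h4⟩ := ha
      rw [mem_coe, mem_filter]
      exact ⟨mem_univ _, hPP a h3 h4⟩
    · intro a ha a' ha' h
      rw [mem_coe, hX, mem_filter] at ha ha'
      funext i
      have h1 := congrFun h i
      beta_reduce at h1
      rw [ZMod.natCast_eq_natCast_iff] at h1
      exact Nat.ModEq.eq_of_lt_of_lt h1 (ha.2.1 i) (ha'.2.1 i)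

open Classical in
/-- **HL9.** Proof. `W = r (vv k r) ≤ r 4^k` (`vv k r ∣ primorial k ≤ 4^k`), `L = W ⌊(H+1)/W⌋`, so `L ≤ H+1`,
`H + 1 - L < W`. `P'(b) = AdL (r v) b ∧ P' L b`; for an injective `a` with `P (image a)` the set is admissible, so
`AdL` holds for the classes modulo `L`. With `N = H + 1`, `B`, `Ad` the two numbers of sets:
`k! B ≤ k W N^(k-1) + β (k! Ad + k² N^(k-1))` (`HL9A`, `HL9B`) and `N^k ≤ 2 k^k k! Ad` (`adm_lower`), so the error
is at most `(k W + β k²) 2 k^k k! Ad/N ≤ β k! Ad` since `2 k^k (k W exp k + k²) ≤ N`. (As the end of `few_bad`.) -/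
theorem HL9 (H k r : ℕ) [NeZero r] (hk : 1 ≤ k)
    (hH : (100 * k ^ 2 * (r * 4 ^ k) : ℝ) * (k : ℝ) ^ k * Real.exp k ≤ H + 1) (β : ℝ)
    (hβ : Real.exp (-(k : ℝ)) ≤ β) (P : Finset ℕ → Prop) (hP : ∀ A, P A → Admissible A)
    (P' : ∀ L : ℕ, (Fin k → ZMod L) → Prop)
    (hPP : ∀ (L : ℕ) (a : Fin k → ℕ), r * vv k r ∣ L → Function.Injective a → P (univ.image a) →
      P' L (fun i => (a i : ZMod L)))
    (hcount : ∀ (L : ℕ) [NeZero L], r * vv k r ∣ L →
      ((univ.filter (fun b : Fin k → ZMod L => AdL (r * vv k r) b ∧ P' L b)).card : ℝ) ≤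
        β * ((univ.filter (fun b : Fin k → ZMod L => AdL (r * vv k r) b)).card : ℝ)) :
    ((((range (H + 1)).powersetCard k).filter P).card : ℝ) ≤
      2 * β * ((((range (H + 1)).powersetCard k).filter (fun A => Admissible A)).card : ℝ) := by
  have hr0 : 0 < r := Nat.pos_of_ne_zero (NeZero.ne r)
  have hr1 : (1 : ℝ) ≤ r := by exact_mod_cast hr0
  have hk1 : (1 : ℝ) ≤ k := by exact_mod_cast hk
  have hPprim : vv k r ∣ primorial k := by
    unfold primorial vv
    refine prod_dvd_prod_of_subset _ _ _ (fun p hp => ?_)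
    rw [mem_filter] at hp ⊢
    exact ⟨hp.1, hp.2.1⟩
  have hPle : vv k r ≤ 4 ^ k := (Nat.le_of_dvd (primorial_pos k) hPprim).trans (primorial_le_four_pow k)
  have hP0 : 0 < vv k r := Nat.pos_of_dvd_of_pos hPprim (primorial_pos k)
  have hR0 : 0 < r * vv k r := Nat.mul_pos hr0 hP0
  set M := (H + 1) / (r * vv k r) with hM
  set L := r * vv k r * M with hL
  have hLH : L ≤ H + 1 := Nat.mul_div_le _ _
  have hHL : H + 1 - L ≤ r * vv k r := by
    have := Nat.lt_mul_div_succ (H + 1) hR0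
    rw [← hM, mul_add, mul_one, ← hL] at this
    omega
  have hee : (1 : ℝ) ≤ Real.exp k := Real.one_le_exp (by positivity)
  have hkk : (1 : ℝ) ≤ (k : ℝ) ^ k := one_le_pow₀ hk1
  have hL0 : 0 < L := by
    rcases Nat.eq_zero_or_pos L with h | h
    · exfalso
      rw [h, Nat.sub_zero] at hHL
      have h1 : ((H : ℝ) + 1) ≤ r * 4 ^ k := by
        have : ((H + 1 : ℕ) : ℝ) ≤ ((r * 4 ^ k : ℕ) : ℝ) := by
          exact_mod_cast hHL.trans (Nat.mul_le_mul_left _ hPle)
        push_cast at this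
        exact this
      have h4 : (0 : ℝ) < r * 4 ^ k := by positivity
      have h5 : (100 : ℝ) ≤ 100 * (k : ℝ) ^ 2 := by
        have := pow_le_pow_left₀ (by norm_num : (0 : ℝ) ≤ 1) hk1 2
        linarith
      have h6 : 100 * (r * 4 ^ k : ℝ) ≤ (100 * k ^ 2 * (r * 4 ^ k) : ℝ) * (k : ℝ) ^ k * Real.exp k := by
        have h7 : 100 * (r * 4 ^ k : ℝ) * 1 * 1 ≤
            (100 * k ^ 2 * (r * 4 ^ k) : ℝ) * (k : ℝ) ^ k * Real.exp k := by
          gcongr
        linarith
      linarith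
    · exact h
  have hNZ : NeZero L := ⟨hL0.ne'⟩
  have hWL : r * vv k r ∣ L := dvd_mul_right _ _
  have hT := HL9A (k := k) (r := r) (L := L) H hLH
  have hbad := HL9B (k := k) (L := L) H P (fun b => AdL (r * vv k r) b ∧ P' L b) (fun a ha hPa => by
    refine ⟨?_, hPP L a hWL ha hPa⟩
    intro p hp hpW
    obtain ⟨c, hc⟩ := hP _ hPa p hp
    refine ⟨c, fun i h => ?_⟩
    rw [ZMod.cast_natCast (hpW.trans hWL)] at h
    exact hc (a i) (mem_image_of_mem _ (mem_univ _)) h)
  have hct := hcount L hWL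
  have hadm := adm_lower H k (by omega) (by
    have h1 : ((8 * k ^ 2 * primorial k : ℕ) : ℝ) ≤ ((H + 1 : ℕ) : ℝ) := by
      have h4 : (primorial k : ℝ) ≤ 4 ^ k := by exact_mod_cast primorial_le_four_pow k
      push_cast
      refine le_trans ?_ hH
      calc (8 * k ^ 2 * primorial k : ℝ) ≤ 100 * k ^ 2 * (1 * 4 ^ k) * 1 * 1 := by
            rw [one_mul, mul_one, mul_one]
            have h5 : (0 : ℝ) ≤ (k : ℝ) ^ 2 := by positivity
            have h6 := mul_le_mul_of_nonneg_left h4 h5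
            have h7 : (0 : ℝ) ≤ (k : ℝ) ^ 2 * 4 ^ k := by positivity
            linarith
        _ ≤ _ := by gcongr
    exact_mod_cast h1)
  set Bad := (((range (H + 1)).powersetCard k).filter P).card with hBad
  set Adm := (((range (H + 1)).powersetCard k).filter (fun A => Admissible A)).card with hAdm
  set T := (univ.filter (fun b : Fin k → ZMod L => AdL (r * vv k r) b)).card with hTdef
  set B := (univ.filter (fun b : Fin k → ZMod L => AdL (r * vv k r) b ∧ P' L b)).card with hBdef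
  set N : ℝ := (H : ℝ) + 1 with hN
  have hN0 : 0 < N := by positivity
  have hβ0 : 0 < β := lt_of_lt_of_le (Real.exp_pos _) hβ
  have hLN : (L : ℝ) ≤ N := by
    have : (L : ℝ) ≤ ((H + 1 : ℕ) : ℝ) := by exact_mod_cast hLH
    rw [Nat.cast_add, Nat.cast_one] at this
    exact this
  have h6 : (T : ℝ) ≤ k.factorial * Adm + k ^ 2 * N ^ (k - 1) := by
    have h7 : (T : ℝ) ≤ k.factorial * Adm + k ^ 2 * (L : ℝ) ^ (k - 1) := by exact_mod_cast hT
    have h8 : (L : ℝ) ^ (k - 1) ≤ N ^ (k - 1) := pow_le_pow_left₀ (by positivity) hLN _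
    have h9 : (k : ℝ) ^ 2 * (L : ℝ) ^ (k - 1) ≤ k ^ 2 * N ^ (k - 1) :=
      mul_le_mul_of_nonneg_left h8 (by positivity)
    linarith
  have h10 : (k.factorial : ℝ) * Bad ≤ k * ((r * 4 ^ k) * N ^ (k - 1)) + B := by
    have hbad' : k.factorial * Bad ≤ k * ((H + 1 - L) * (H + 1) ^ (k - 1)) + B := by
      refine hbad.trans (Nat.add_le_add_left (le_of_eq ?_) _)
      rw [hBdef]
      refine congrArg Finset.card ?_
      ext b
      simp only [mem_filter]
    have h11 : (k.factorial : ℝ) * Bad ≤ k * (((H + 1 - L : ℕ) : ℝ) * N ^ (k - 1)) + B := by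
      rw [hN]
      exact_mod_cast hbad'
    have h12 : ((H + 1 - L : ℕ) : ℝ) ≤ r * 4 ^ k := by
      have := hHL.trans (Nat.mul_le_mul_left r hPle)
      exact_mod_cast this
    have h13 : (k : ℝ) * (((H + 1 - L : ℕ) : ℝ) * N ^ (k - 1)) ≤ k * ((r * 4 ^ k) * N ^ (k - 1)) := by
      gcongr
    linarith
  -- the numerical inequality
  have hNk : N ^ k = N ^ (k - 1) * N := by
    rw [← pow_succ]
    congr 1
    omega
  have hkk0 : (0 : ℝ) < (k : ℝ) ^ k := by positivity
  have hX0 : (0 : ℝ) < N ^ (k - 1) := by positivity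
  have hkey : (k : ℝ) * (r * 4 ^ k) + β * k ^ 2 ≤ β * (N / (2 * (k : ℝ) ^ k)) := by
    have hE2 : Real.exp (-(k : ℝ)) * Real.exp k = 1 := by
      rw [← Real.exp_add]; simp
    have h15 : (100 * (k : ℝ) ^ 2 * (r * 4 ^ k)) / 2 * Real.exp k ≤ N / (2 * (k : ℝ) ^ k) := by
      rw [le_div_iff₀ (by positivity)]
      calc (100 * (k : ℝ) ^ 2 * (r * 4 ^ k)) / 2 * Real.exp k * (2 * (k : ℝ) ^ k) =
            (100 * k ^ 2 * (r * 4 ^ k) : ℝ) * (k : ℝ) ^ k * Real.exp k := by ring
        _ ≤ N := hH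
    have h16 : (1 : ℝ) ≤ β * Real.exp k := by
      rw [← hE2]
      exact mul_le_mul_of_nonneg_right hβ (Real.exp_pos _).le
    have h4k : (1 : ℝ) ≤ 4 ^ k := one_le_pow₀ (by norm_num)
    have hr4 : (1 : ℝ) ≤ r * 4 ^ k := by
      calc (1 : ℝ) = 1 * 1 := by ring
        _ ≤ r * 4 ^ k := by gcongr
    have h17 : (k : ℝ) * (r * 4 ^ k) ≤ β * ((k : ℝ) ^ 2 * (r * 4 ^ k) * Real.exp k) := by
      have h18 : (k : ℝ) ≤ (k : ℝ) ^ 2 := le_self_pow₀ hk1 (by norm_num)
      calc (k : ℝ) * (r * 4 ^ k) ≤ (k : ℝ) ^ 2 * (r * 4 ^ k) * 1 := by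
            rw [mul_one]
            gcongr
        _ ≤ (k : ℝ) ^ 2 * (r * 4 ^ k) * (β * Real.exp k) := by gcongr
        _ = β * ((k : ℝ) ^ 2 * (r * 4 ^ k) * Real.exp k) := by ring
    have h19 : (k : ℝ) ^ 2 ≤ (k : ℝ) ^ 2 * (r * 4 ^ k) * Real.exp k := by
      calc (k : ℝ) ^ 2 = (k : ℝ) ^ 2 * 1 * 1 := by ring
        _ ≤ (k : ℝ) ^ 2 * (r * 4 ^ k) * Real.exp k := by gcongr
    have h20 : β * (k : ℝ) ^ 2 ≤ β * ((k : ℝ) ^ 2 * (r * 4 ^ k) * Real.exp k) :=
      mul_le_mul_of_nonneg_left h19 hβ0.le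
    have h21 : β * ((100 * (k : ℝ) ^ 2 * (r * 4 ^ k)) / 2 * Real.exp k) ≤
        β * (N / (2 * (k : ℝ) ^ k)) := mul_le_mul_of_nonneg_left h15 hβ0.le
    have h22 : 0 ≤ β * ((k : ℝ) ^ 2 * (r * 4 ^ k) * Real.exp k) := by positivity
    have h23 : β * ((100 * (k : ℝ) ^ 2 * (r * 4 ^ k)) / 2 * Real.exp k) =
        50 * (β * ((k : ℝ) ^ 2 * (r * 4 ^ k) * Real.exp k)) := by ring
    linarith
  have h25 : N ^ k / (2 * (k : ℝ) ^ k) ≤ k.factorial * Adm := by
    rw [div_le_iff₀ (by positivity)]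
    refine hadm.trans (le_of_eq ?_)
    ring
  have h26 : (k : ℝ) * ((r * 4 ^ k) * N ^ (k - 1)) + β * (k ^ 2 * N ^ (k - 1)) ≤
      β * (k.factorial * Adm) := by
    calc (k : ℝ) * ((r * 4 ^ k) * N ^ (k - 1)) + β * (k ^ 2 * N ^ (k - 1)) =
          N ^ (k - 1) * ((k : ℝ) * (r * 4 ^ k) + β * k ^ 2) := by ring
      _ ≤ N ^ (k - 1) * (β * (N / (2 * (k : ℝ) ^ k))) :=
          mul_le_mul_of_nonneg_left hkey hX0.le
      _ = β * (N ^ k / (2 * (k : ℝ) ^ k)) := by rw [hNk]; ring
      _ ≤ β * (k.factorial * Adm) := mul_le_mul_of_nonneg_left h25 hβ0.le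
  have h27 : (k.factorial : ℝ) * Bad ≤ k.factorial * (2 * β * Adm) := by
    have h28 : β * (T : ℝ) ≤ β * (k.factorial * Adm + k ^ 2 * N ^ (k - 1)) :=
      mul_le_mul_of_nonneg_left h6 hβ0.le
    calc (k.factorial : ℝ) * Bad ≤ k * ((r * 4 ^ k) * N ^ (k - 1)) + B := h10
      _ ≤ k * ((r * 4 ^ k) * N ^ (k - 1)) + β * (k.factorial * Adm + k ^ 2 * N ^ (k - 1)) := by
          linarith
      _ = (k * ((r * 4 ^ k) * N ^ (k - 1)) + β * (k ^ 2 * N ^ (k - 1))) +
          β * (k.factorial * Adm) := by ring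
      _ ≤ β * (k.factorial * Adm) + β * (k.factorial * Adm) := by linarith
      _ = k.factorial * (2 * β * Adm) := by ring
  exact le_of_mul_le_mul_left h27 (by positivity)

end Pool.Agent.Lib.H59P
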