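import Pool.Agent.Lib.H59P.HL7
import Pool.Agent.Lib.H59P.HL8
import Pool.Agent.Lib.H59P.HL9

/-!
# Project H59P, chunk HL10: the two counts for sets
-/

open Finset

namespace Pool.Agent.Lib.H59P

open Pool.Agent.Lib.H68T Pool.Agent.Lib.H18Q

theorem hl10_dec {α : Type*} (S : Finset α) (p : α → Prop) (i1 i2 : DecidablePred p) :
    (((@Finset.filter α p i1 S).card : ℕ) : ℝ) = (((@Finset.filter α p i2 S).card : ℕ) : ℝ) := by
  have h : i1 = i2 := Subsingleton.elim _ _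
  rw [h]

/-- The two counts of minus signs agree. -/
theorem hl10_mn {k L r : ℕ} (ψ : DirichletCharacter ℂ r) (n : ℕ) (hL : r ∣ L) (a : Fin k → ℕ)
    (ha : Function.Injective a) :
    mnL ψ n (fun i => (a i : ZMod L)) = mnA ψ n (univ.image a) := by
  classical
  unfold mnL mnA
  rw [Finset.filter_image, Finset.card_image_of_injective _ ha]
  congr 1
  ext i
  simp only [Finset.mem_filter, Finset.mem_univ, true_and]
  rw [ZMod.cast_natCast hL, Nat.cast_add]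

theorem hl10_mod {r : ℕ} (ψ : DirichletCharacter ℂ r) (n : ℕ) (A : Finset ℕ) :
    mnA ψ n A = mnA ψ (n % r) A := by
  unfold mnA
  congr 1
  refine Finset.filter_congr fun a _ => ?_
  have h1 : ((n + a : ℕ) : ZMod r) = ((n % r + a : ℕ) : ZMod r) := by
    rw [Nat.cast_add, Nat.cast_add, ZMod.natCast_mod]
  rw [h1]

open Classical in
/-- **HL10A.** Proof. `HL9` with `P A = Admissible A ∧ ∀ n, mnA ψ n A < (1/2-ε) k`, `P' L b = ∀ n, mnL ψ n b <
(1/2-ε) k` (`mnL ψ n (fun i => (a i : ZMod L)) = mnA ψ n (image a)` for injective `a`), `HL7`,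
`β = (k+1) exp (-ε²k) ≥ exp (-k)`. -/
theorem HL10A (H k r : ℕ) [NeZero r] (ψ : DirichletCharacter ℂ r) (hprim : ψ.IsPrimitive)
    (hψ : ψ ≠ 1) (hψ2 : ψ ^ 2 = 1) (hk : 1 ≤ k)
    (hH : (100 * k ^ 2 * (r * 4 ^ k) : ℝ) * (k : ℝ) ^ k * Real.exp k ≤ H + 1) (ε : ℝ) (hε : 0 < ε)
    (hε1 : ε ≤ 1 / 2) :
    ((((range (H + 1)).powersetCard k).filter (fun A => Admissible A ∧
        ∀ n : ℕ, (mnA ψ n A : ℝ) < (1 / 2 - ε) * k)).card : ℝ) ≤
      2 * ((k + 1) * Real.exp (-(ε ^ 2 * k))) *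
        ((((range (H + 1)).powersetCard k).filter (fun A => Admissible A)).card : ℝ) := by
  have hk0 : (0 : ℝ) ≤ k := Nat.cast_nonneg k
  have hβ : Real.exp (-(k : ℝ)) ≤ ((k : ℝ) + 1) * Real.exp (-(ε ^ 2 * k)) := by
    have h1 : Real.exp (-(k : ℝ)) ≤ Real.exp (-(ε ^ 2 * k)) := by
      rw [Real.exp_le_exp]
      have h2 : ε ^ 2 ≤ 1 := by nlinarith
      nlinarith
    have h3 : 0 < Real.exp (-(ε ^ 2 * k)) := Real.exp_pos _
    nlinarith
  refine (le_of_eq (hl10_dec _ _ _ _)).trans (HL9 H k r hk hH _ hβ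
    (fun A => Admissible A ∧ ∀ n : ℕ, (mnA ψ n A : ℝ) < (1 / 2 - ε) * k)
    (fun A h => h.1) (fun L b => ∀ n : ℕ, (mnL ψ n b : ℝ) < (1 / 2 - ε) * k) ?_ ?_)
  · intro L a hL ha hP n
    have h1 := hP.2 n
    rw [hl10_mn ψ n ((dvd_mul_right r _).trans hL) a ha]
    exact h1
  · intro L _ hL
    exact HL7 ψ hprim hψ hψ2 hk hL ε hε

open Classical in
/-- **HL10B.** Proof. For every `n < r`: `HL9` with `P A = Admissible A ∧ (1/2+ε) k ≤ mnA ψ n A`, `HL8`,
`β = k exp (-2ε²k) ≥ exp (-k)` (`2 ε² ≤ 1/2`). `mnA ψ n A` depends only on `n` modulo `r`: sum over `n < r`. -/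
theorem HL10B (H k r : ℕ) [NeZero r] (ψ : DirichletCharacter ℂ r) (hprim : ψ.IsPrimitive)
    (hψ : ψ ≠ 1) (hψ2 : ψ ^ 2 = 1) (hk : 1 ≤ k)
    (hH : (100 * k ^ 2 * (r * 4 ^ k) : ℝ) * (k : ℝ) ^ k * Real.exp k ≤ H + 1) (ε : ℝ) (hε : 0 ≤ ε)
    (hε1 : ε ≤ 1 / 2) :
    ((((range (H + 1)).powersetCard k).filter (fun A => Admissible A ∧
        ∃ n : ℕ, (1 / 2 + ε) * k ≤ (mnA ψ n A : ℝ))).card : ℝ) ≤
      2 * (r * (k * Real.exp (-(2 * ε ^ 2 * k)))) *
        ((((range (H + 1)).powersetCard k).filter (fun A => Admissible A)).card : ℝ) := by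
  have hk0 : (1 : ℝ) ≤ k := by exact_mod_cast hk
  have hβ : Real.exp (-(k : ℝ)) ≤ (k : ℝ) * Real.exp (-(2 * ε ^ 2 * k)) := by
    have h1 : Real.exp (-(k : ℝ)) ≤ Real.exp (-(2 * ε ^ 2 * k)) := by
      rw [Real.exp_le_exp]
      have h2 : 2 * ε ^ 2 ≤ 1 := by nlinarith
      nlinarith
    have h3 : 0 < Real.exp (-(2 * ε ^ 2 * k)) := Real.exp_pos _
    nlinarith
  have hone : ∀ n : ℕ, ((((range (H + 1)).powersetCard k).filter (fun A => Admissible A ∧
      (1 / 2 + ε) * k ≤ (mnA ψ n A : ℝ))).card : ℝ) ≤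
      2 * (k * Real.exp (-(2 * ε ^ 2 * k))) *
        ((((range (H + 1)).powersetCard k).filter (fun A => Admissible A)).card : ℝ) := by
    intro n
    refine (le_of_eq (hl10_dec _ _ _ _)).trans (HL9 H k r hk hH _ hβ
      (fun A => Admissible A ∧ (1 / 2 + ε) * k ≤ (mnA ψ n A : ℝ))
      (fun A h => h.1) (fun L b => (1 / 2 + ε) * k ≤ (mnL ψ n b : ℝ)) ?_ ?_)
    · intro L a hL ha hP
      have h1 := hP.2
      rw [hl10_mn ψ n ((dvd_mul_right r _).trans hL) a ha]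
      exact h1
    · intro L _ hL
      exact HL8 ψ hprim hψ hψ2 hk hL n ε hε
  have hsub : ((range (H + 1)).powersetCard k).filter (fun A => Admissible A ∧
      ∃ n : ℕ, (1 / 2 + ε) * k ≤ (mnA ψ n A : ℝ)) ⊆
      (range r).biUnion (fun n => ((range (H + 1)).powersetCard k).filter (fun A => Admissible A ∧
        (1 / 2 + ε) * k ≤ (mnA ψ n A : ℝ))) := by
    intro A hA
    rw [Finset.mem_filter] at hA
    obtain ⟨hA1, hA2, n, hn⟩ := hA
    rw [Finset.mem_biUnion]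
    refine ⟨n % r, Finset.mem_range.2 (Nat.mod_lt _ (Nat.pos_of_ne_zero (NeZero.ne r))), ?_⟩
    rw [Finset.mem_filter]
    refine ⟨hA1, hA2, ?_⟩
    rw [← hl10_mod]
    exact hn
  have h1 : ((((range (H + 1)).powersetCard k).filter (fun A => Admissible A ∧
      ∃ n : ℕ, (1 / 2 + ε) * k ≤ (mnA ψ n A : ℝ))).card : ℝ) ≤
      ∑ n ∈ range r, ((((range (H + 1)).powersetCard k).filter (fun A => Admissible A ∧
        (1 / 2 + ε) * k ≤ (mnA ψ n A : ℝ))).card : ℝ) := by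
    have h2 := (Finset.card_le_card hsub).trans Finset.card_biUnion_le
    exact_mod_cast h2
  refine h1.trans ((Finset.sum_le_sum fun n _ => hone n).trans (le_of_eq ?_))
  rw [Finset.sum_const, Finset.card_range, nsmul_eq_mul]
  ring

end Pool.Agent.Lib.H59P
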