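import Pool.Agent.Lib.H59P.HL12A
import Pool.Agent.Lib.H59P.YDefs
import Pool.Agent.Lib.H59P.C3A
import Pool.Agent.Lib.H59P.X1

/-!
# Project H59P, chunk HL12: lower bound for the main term from one class with all signs -1
-/

open Finset

namespace Pool.Agent.Lib.H59P

open Pool.Agent.Lib.H68T Pool.Agent.Lib.H18Q

/-- the indicator of the class -/
noncomputable def hl12_F (r n0 : ℕ) (n : ℤ) : ℝ := if (r : ℤ) ∣ n - n0 then 1 else 0

theorem hl12_F_per (r n0 : ℕ) (m : ℤ) : hl12_F r n0 (m + r) = hl12_F r n0 m := by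
  unfold hl12_F
  have h : ((r : ℤ) ∣ m + r - n0) ↔ (r : ℤ) ∣ m - n0 := by
    have e : m + r - n0 = (m - n0) + r := by ring
    rw [e]
    exact Int.dvd_add_left (dvd_refl _)
  simp only [h]

theorem hl12_F_sum (r n0 : ℕ) (hr : 0 < r) : ∑ n ∈ range r, hl12_F r n0 (n : ℤ) = 1 := by
  rw [Finset.sum_eq_single (n0 % r)]
  · unfold hl12_F
    rw [if_pos]
    have e := Nat.mod_add_div n0 r
    have e' : ((n0 % r : ℕ) : ℤ) + (r : ℤ) * ((n0 / r : ℕ) : ℤ) = (n0 : ℤ) := by exact_mod_cast e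
    exact ⟨-((n0 / r : ℕ) : ℤ), by linarith⟩
  · intro n hn hne
    unfold hl12_F
    rw [if_neg]
    intro h
    apply hne
    rw [Finset.mem_range] at hn
    have h1 : (n : ℤ) ≡ n0 [ZMOD r] := (Int.modEq_iff_dvd.2 (by
      have := Int.dvd_neg.2 h
      rw [neg_sub] at this
      exact this))
    have h2 : n ≡ n0 [MOD r] := (Int.natCast_modEq_iff).1 h1
    have h3 : n % r = n0 % r := h2
    rw [Nat.mod_eq_of_lt hn] at h3
    exact h3
  · intro h
    exact absurd (Finset.mem_range.2 (Nat.mod_lt _ hr)) h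

/-- **HL12.** Proof. `r = px.1` divides `Q!` (`r ≤ Q`). All factors of `fP Q px th h n` are `≥ 0`
(`M3a_uu_nonneg`, `C3a`, `0 ≤ th ≤ 1`). For `n ≡ n0 mod r`: `cj px (n + h_i) = -1`, so `1 - th_i (-1) ≥ 1`, and
`uu (pr Q) (n+h_i) = uu r.primeFactors (n+h_i) * ∏_{l ≤ Q, l ∤ r} (1 + gl l (n+h_i))` with
`uu r.primeFactors (n + h_i) = r/φ(r) ≥ 1` (`n + h_i` is a unit modulo `r` as `ψ ≠ 0`; `x1_uu_unit`, `x1_uu_per`).
So `fP ≥ [n ≡ n0 mod r] ∏_{l ∤ r} m5a_g h l n` (real), and by `HL12A` with `F = [n ≡ n0 mod r]`, `∑_{n<r} F = 1`,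
`PM ≥ SS {l ≤ Q, l ∤ r} h / r ≥ exp (-c0 j)/r`. -/
theorem HL12 (c0 : ℝ) (hlow : TLow c0) {j : ℕ} (Q : ℕ) (px : Ch) (hpx : px ∈ PC Q)
    (hreal : px.2 ^ 2 = 1) (th : Fin j → ℝ) (h0 : ∀ i, 0 ≤ th i) (h1 : ∀ i, th i ≤ 1)
    (h : Fin j → ℕ) (hA : Adm h) (n0 : ℕ)
    (hm : ∀ i, px.2 ((n0 + h i : ℕ) : ZMod px.1) = -1) :
    Real.exp (-(c0 * j)) / px.1 ≤ PM Q px th h := by
  obtain ⟨hr1, hrQ, -⟩ := mem_PC.1 hpx
  have hr : 0 < px.1 := hr1
  have hr0 : (0 : ℝ) < px.1 := by exact_mod_cast hr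
  have hfac : (0 : ℝ) < (Q.factorial : ℝ) := by exact_mod_cast Nat.factorial_pos Q
  have hpr : ∀ l ∈ pr Q, l.Prime := fun l hl => (Finset.mem_filter.mp hl).2
  obtain ⟨S, hSdef⟩ : ∃ S, S = (pr Q).filter (fun l => ¬ l ∣ px.1) := ⟨_, rfl⟩
  have hSpr : ∀ l ∈ S, l.Prime := by
    intro l hl
    rw [hSdef] at hl
    exact hpr l (Finset.mem_filter.1 hl).1
  -- the real version of `HL12A`
  have hG : ∀ n : ℤ, ((hl12_F px.1 n0 n * ∏ l ∈ S, ∏ i, (1 + gl l (n + h i)) : ℝ) : ℂ) =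
      ((hl12_F px.1 n0 n : ℝ) : ℂ) * ∏ l ∈ S, m5a_g h l n := by
    intro n
    unfold m5a_g
    push_cast
    rfl
  have hsum : (∑ n ∈ range Q.factorial, hl12_F px.1 n0 (n : ℤ) *
      ∏ l ∈ S, ∏ i, (1 + gl l ((n : ℤ) + h i))) * px.1 = (Q.factorial : ℝ) * SS S h := by
    have h2 := HL12A Q px.1 hr (Nat.dvd_factorial hr hrQ) (fun n => ((hl12_F px.1 n0 n : ℝ) : ℂ))
      (fun m => by rw [hl12_F_per]) h
    rw [← hSdef] at h2
    have h3 : ∑ n ∈ range px.1, ((hl12_F px.1 n0 (n : ℤ) : ℝ) : ℂ) = 1 := by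
      rw [← Complex.ofReal_sum, hl12_F_sum px.1 n0 hr, Complex.ofReal_one]
    rw [h3, one_mul] at h2
    have h4 : ∑ n ∈ range Q.factorial, ((hl12_F px.1 n0 (n : ℤ) : ℝ) : ℂ) * ∏ l ∈ S, m5a_g h l n =
        ((∑ n ∈ range Q.factorial, hl12_F px.1 n0 (n : ℤ) *
          ∏ l ∈ S, ∏ i, (1 + gl l ((n : ℤ) + h i)) : ℝ) : ℂ) := by
      rw [Complex.ofReal_sum]
      exact Finset.sum_congr rfl fun n _ => (hG n).symm
    rw [h4] at h2
    have h5 : (((∑ n ∈ range Q.factorial, hl12_F px.1 n0 (n : ℤ) *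
          ∏ l ∈ S, ∏ i, (1 + gl l ((n : ℤ) + h i))) * px.1 : ℝ) : ℂ) =
        (((Q.factorial : ℝ) * SS S h : ℝ) : ℂ) := by
      rw [Complex.ofReal_mul, Complex.ofReal_mul, Complex.ofReal_natCast, Complex.ofReal_natCast]
      exact h2
    exact Complex.ofReal_injective h5
  -- the factors are nonnegative
  have hcj : ∀ (i : Fin j) (n : ℤ), 0 ≤ 1 - th i * (cj px (n + h i)).re := by
    intro i n
    have a1 := (abs_le.mp (C3a px hreal (n + h i)).2).2
    have a2 := mul_le_mul_of_nonneg_left a1 (h0 i)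
    have a3 := h1 i
    linarith
  -- pointwise
  have hpt : ∀ n : ℤ, hl12_F px.1 n0 n * ∏ l ∈ S, ∏ i, (1 + gl l (n + h i)) ≤ fP Q px th h n := by
    intro n
    unfold hl12_F fP
    split_ifs with hd
    · rw [one_mul, Finset.prod_comm]
      refine Finset.prod_le_prod (fun i _ => Finset.prod_nonneg fun l hl =>
        (M3a_gl l (hSpr l hl) _).1) fun i _ => ?_
      have hval : ((n + h i : ℤ) : ZMod px.1) = ((n0 + h i : ℕ) : ZMod px.1) := by
        have e1 : ((n - n0 : ℤ) : ZMod px.1) = 0 := (ZMod.intCast_zmod_eq_zero_iff_dvd _ _).2 hd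
        have e2 : (n + h i : ℤ) = (n - n0) + ((n0 + h i : ℕ) : ℤ) := by push_cast; ring
        rw [e2, Int.cast_add, e1, zero_add, Int.cast_natCast]
      have hchi : px.2 ((n + h i : ℤ) : ZMod px.1) = -1 := by rw [hval]; exact hm i
      have hcjv : cj px (n + h i) = -1 := by
        unfold cj
        rw [hchi, map_neg, map_one]
      have hco : IsCoprime (px.1 : ℤ) (n + h i) := by
        by_contra hc
        have := CA_chi_zero px.1 px.2 (n + h i) hc
        rw [hchi] at this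
        norm_num at this
      have hsplit : uu (pr Q) (n + h i) =
          (∏ l ∈ (pr Q).filter (fun l => l ∣ px.1), (1 + gl l (n + h i))) *
            ∏ l ∈ S, (1 + gl l (n + h i)) := by
        rw [hSdef]
        exact (Finset.prod_filter_mul_prod_filter_not (pr Q) (fun l => l ∣ px.1)
          (fun l => 1 + gl l (n + h i))).symm
      have hA1 : 1 ≤ ∏ l ∈ (pr Q).filter (fun l => l ∣ px.1), (1 + gl l (n + h i)) := by
        calc (1 : ℝ) = ∏ _l ∈ (pr Q).filter (fun l => l ∣ px.1), (1 : ℝ) := by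
              rw [Finset.prod_const_one]
          _ ≤ _ := by
              refine Finset.prod_le_prod (fun _ _ => zero_le_one) fun l hl => ?_
              rw [Finset.mem_filter] at hl
              have hlp := hpr l hl.1
              have hnd : ¬ (l : ℤ) ∣ n + h i := by
                intro hdm
                exact (Nat.prime_iff_prime_int.mp hlp).not_isUnit
                  (hco.isUnit_of_dvd' (Int.natCast_dvd_natCast.2 hl.2) hdm)
              have hl2 : (2 : ℝ) ≤ l := by exact_mod_cast hlp.two_le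
              unfold gl
              rw [if_neg hnd]
              have : 0 ≤ 1 / ((l : ℝ) - 1) := div_nonneg zero_le_one (by linarith)
              linarith
      have hB0 : 0 ≤ ∏ l ∈ S, (1 + gl l (n + h i)) :=
        Finset.prod_nonneg fun l hl => (M3a_gl l (hSpr l hl) _).1
      have hC1 : 1 ≤ 1 - th i * (cj px (n + h i)).re := by
        rw [hcjv]
        have := h0 i
        simp
        exact this
      rw [hsplit]
      calc ∏ l ∈ S, (1 + gl l (n + h i)) = 1 * ∏ l ∈ S, (1 + gl l (n + h i)) := (one_mul _).symm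
        _ ≤ (∏ l ∈ (pr Q).filter (fun l => l ∣ px.1), (1 + gl l (n + h i))) *
            ∏ l ∈ S, (1 + gl l (n + h i)) := mul_le_mul_of_nonneg_right hA1 hB0
        _ ≤ _ := le_mul_of_one_le_right (mul_nonneg (zero_le_one.trans hA1) hB0) hC1
    · rw [zero_mul]
      exact Finset.prod_nonneg fun i _ => mul_nonneg (M3a_uu_nonneg _ hpr _) (hcj i n)
  have hge : (∑ n ∈ range Q.factorial, hl12_F px.1 n0 (n : ℤ) *
      ∏ l ∈ S, ∏ i, (1 + gl l ((n : ℤ) + h i))) / (Q.factorial : ℝ) ≤ PM Q px th h := by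
    unfold PM
    refine div_le_div_of_nonneg_right (Finset.sum_le_sum fun n _ => ?_) hfac.le
    exact hpt n
  have hSS := hlow j h hA S hSpr
  refine le_trans ?_ hge
  rw [div_le_div_iff₀ hr0 hfac, hsum, mul_comm]
  exact mul_le_mul_of_nonneg_left hSS hfac.le

end Pool.Agent.Lib.H59P
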