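import Pool.Agent.Lib.H59P.M5A

/-!
# Project H59P, chunk HL12A: means with an arbitrary periodic factor
-/

open Finset

namespace Pool.Agent.Lib.H59P

open Pool.Agent.Lib.H68T Pool.Agent.Lib.H18Q

theorem hl12a_per (F : ℤ → ℂ) (R : ℕ) (hF : ∀ m, F (m + R) = F m) (j : ℕ) (m : ℤ) :
    F (m + (R * j : ℕ)) = F m := by
  induction j with
  | zero => simp
  | succ j ihj =>
    have e : m + ((R * (j + 1) : ℕ) : ℤ) = (m + ((R * j : ℕ) : ℤ)) + R := by
      push_cast; ring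
    rw [e, hF, ihj]

theorem hl12a_main {k : ℕ} (R : ℕ) (hR : 0 < R) (F : ℤ → ℂ) (hF : ∀ m, F (m + R) = F m)
    (h : Fin k → ℕ) (S : Finset ℕ) (hS : ∀ l ∈ S, l.Prime ∧ ¬ l ∣ R) :
    ∑ n ∈ range (R * ∏ l ∈ S, l), F n * ∏ l ∈ S, m5a_g h l n =
      (∑ n ∈ range R, F n) * ∏ l ∈ S, (l * (((1 + tp l h : ℝ)) : ℂ)) := by
  induction S using Finset.induction_on with
  | empty => simp
  | insert l S hl ih =>
    have ih := ih fun q hq => hS q (mem_insert_of_mem hq)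
    obtain ⟨hlp, hlR⟩ := hS l (mem_insert_self _ _)
    have hSpos : 0 < ∏ q ∈ S, q := prod_pos fun q hq => (hS q (mem_insert_of_mem hq)).1.pos
    have hco : Nat.Coprime (R * ∏ q ∈ S, q) l := by
      rw [Nat.coprime_comm, Nat.Prime.coprime_iff_not_dvd hlp]
      intro hdvd
      rcases (Nat.Prime.dvd_mul hlp).1 hdvd with h1 | h1
      · exact hlR h1
      · obtain ⟨q, hq, hlq⟩ := (Prime.dvd_finsetProd_iff hlp.prime _).1 h1
        have := (Nat.prime_dvd_prime_iff_eq hlp (hS q (mem_insert_of_mem hq)).1).1 hlq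
        exact hl (this ▸ hq)
    have e1 : R * ∏ q ∈ insert l S, q = (R * ∏ q ∈ S, q) * l := by
      rw [prod_insert hl]; ring
    have h3 := M3d (fun n => F n * ∏ q ∈ S, m5a_g h q n) (m5a_g h l)
      (R * ∏ q ∈ S, q) l (Nat.mul_pos hR hSpos) hlp.pos hco (by
        intro m
        have a2 : ∀ q ∈ S, m5a_g h q (m + (R * ∏ q ∈ S, q : ℕ)) = m5a_g h q m := by
          intro q hq
          have : R * ∏ q ∈ S, q = q * (R * ∏ t ∈ S.erase q, t) := by
            rw [← mul_prod_erase S (fun t => t) hq]; ring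
          rw [this]
          exact m5a_g_per' h q _ m
        rw [hl12a_per F R hF, prod_congr rfl a2]) (m5a_g_per h l)
    rw [e1, prod_insert hl]
    have e2 : ∑ n ∈ range (R * (∏ q ∈ S, q) * l),
        F n * ∏ q ∈ insert l S, m5a_g h q n =
        ∑ n ∈ range (R * (∏ q ∈ S, q) * l),
          (F n * ∏ q ∈ S, m5a_g h q n) * m5a_g h l n := by
      refine sum_congr rfl fun n _ => ?_
      rw [prod_insert hl]
      ring
    rw [e2, h3, ih, m5a_g_sum h l hlp.pos]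
    ring

/-- **HL12A.** Proof. Copy `m5a_main` and `M5` (`M5A.lean`) with an arbitrary function `F` of period `R` in place
of `Ph p R.primeFactors h`. -/
theorem HL12A {k : ℕ} (Q R : ℕ) (hR : 0 < R) (hRQ : R ∣ Q.factorial) (F : ℤ → ℂ)
    (hF : ∀ m, F (m + R) = F m) (h : Fin k → ℕ) :
    (∑ n ∈ range Q.factorial, F n * ∏ l ∈ (pr Q).filter (fun l => ¬ l ∣ R), m5a_g h l n) * R =
      (Q.factorial : ℂ) * ((∑ n ∈ range R, F n) *
        ((SS ((pr Q).filter (fun l => ¬ l ∣ R)) h : ℝ) : ℂ)) := by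
  obtain ⟨S, hSdef⟩ : ∃ S, S = (pr Q).filter (fun l => ¬ l ∣ R) := ⟨_, rfl⟩
  rw [← hSdef]
  have hS : ∀ l ∈ S, (l ≤ Q ∧ l.Prime) ∧ ¬ l ∣ R := by
    intro l hl
    rw [hSdef, mem_filter, pr, mem_filter, mem_Icc] at hl
    exact ⟨⟨hl.1.1.2, hl.1.2⟩, hl.2⟩
  have hcop : Nat.Coprime R (∏ q ∈ S, q) := by
    apply Nat.Coprime.prod_right
    intro q hq
    rw [Nat.coprime_comm, Nat.Prime.coprime_iff_not_dvd (hS q hq).1.2]
    exact (hS q hq).2
  have hdvdN : R * ∏ q ∈ S, q ∣ Q.factorial := by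
    apply hcop.mul_dvd_of_dvd_of_dvd hRQ
    apply Finset.prod_primes_dvd
    · intro q hq
      exact (hS q hq).1.2.prime
    · intro q hq
      exact (Nat.Prime.dvd_factorial (hS q hq).1.2).2 (hS q hq).1.1
  obtain ⟨j, hj⟩ := hdvdN
  have hper : ∀ m : ℤ, F (m + (R * ∏ q ∈ S, q : ℕ)) * ∏ l ∈ S, m5a_g h l (m + (R * ∏ q ∈ S, q : ℕ)) =
      F m * ∏ l ∈ S, m5a_g h l m := by
    intro m
    rw [hl12a_per F R hF]
    congr 1
    refine prod_congr rfl fun q hq => ?_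
    have : R * ∏ q ∈ S, q = q * (R * ∏ t ∈ S.erase q, t) := by
      rw [← mul_prod_erase S (fun t => t) hq]; ring
    rw [this]
    exact m5a_g_per' h q _ m
  have hfull := m5a_full (fun n => F n * ∏ l ∈ S, m5a_g h l n) _ hper j
  rw [hj, hfull, hl12a_main R hR F hF h S fun l hl => ⟨(hS l hl).1.2, (hS l hl).2⟩,
    prod_mul_distrib]
  unfold SS
  push_cast
  ring

end Pool.Agent.Lib.H59P
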