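import Pool.Agent.Lib.H59P.SDefs

/-!
# Project H59P, chunk HL13: sub-tuples
-/

open Finset

namespace Pool.Agent.Lib.H59P

open Pool.Agent.Lib.H68T Pool.Agent.Lib.H18Q

open Classical in
/-- The tuples whose restriction to `S` is in `B`. -/
noncomputable def hl13_bad {j : ℕ} (k X : ℕ) (B : Finset (Fin j → ℕ)) (S : Finset (Fin k)) : Finset (Fin k → ℕ) :=
  (bx k X).filter (fun h => ∃ hS : S.card = j, (fun i => h (S.orderEmbOfFin hS i)) ∈ B)

theorem hl13_card {k j X : ℕ} (B : Finset (Fin j → ℕ)) (S : Finset (Fin k)) :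
    (hl13_bad k X B S).card ≤ X ^ (k - j) * B.card := by
  classical
  by_cases hS : S.card = j
  · have hc : Fintype.card {i : Fin k // i ∉ S} = k - j := by
      rw [Fintype.card_subtype_compl, Fintype.card_fin, Fintype.card_coe, hS]
    have h1 : (hl13_bad k X B S).card ≤
        ((Fintype.piFinset fun _ : {i : Fin k // i ∉ S} => range X) ×ˢ B).card := by
      refine Finset.card_le_card_of_injOn
        (fun h => (fun i : {i : Fin k // i ∉ S} => h i.1, fun i => h (S.orderEmbOfFin hS i))) ?_ ?_
      · intro h hh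
        have hh' := Finset.mem_coe.1 hh
        unfold hl13_bad at hh'
        rw [Finset.mem_filter] at hh'
        obtain ⟨h2, hS', h3⟩ := hh'
        rw [Finset.mem_coe, Finset.mem_product]
        refine ⟨?_, h3⟩
        rw [Fintype.mem_piFinset]
        intro i
        unfold bx at h2
        exact Fintype.mem_piFinset.1 h2 i.1
      · intro h _ h' _ he
        obtain ⟨e1, e2⟩ := Prod.mk.inj he
        funext i
        by_cases hi : i ∈ S
        · have h2 : i ∈ Set.range (S.orderEmbOfFin hS) := by
            rw [Finset.range_orderEmbOfFin]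
            exact hi
          obtain ⟨i', rfl⟩ := h2
          exact congrFun e2 i'
        · exact congrFun e1 ⟨i, hi⟩
    refine h1.trans (le_of_eq ?_)
    rw [Finset.card_product, Fintype.card_piFinset, Finset.prod_const, Finset.card_range,
      Finset.card_univ, hc]
  · have h1 : hl13_bad k X B S = ∅ := by
      unfold hl13_bad
      rw [Finset.filter_eq_empty_iff]
      rintro h _ ⟨hS', -⟩
      exact hS hS'
    rw [h1, Finset.card_empty]
    exact Nat.zero_le _

/-- **HL13.** Proof. `Bad` is the union over the subsets `S` of `Fin k` with `j` elements (at most `2^k`) of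
`{h ∈ bx k X | h ∘ S.orderEmbOfFin ∈ B}`; for fixed `S` the map `h ↦ (h ∘ emb, h restricted to the complement
of S)` is injective, so there are at most `#B X^(k-j)` such `h`. -/
theorem HL13 {k j X : ℕ} (B : Finset (Fin j → ℕ)) :
    ∃ Bad : Finset (Fin k → ℕ), Bad ⊆ bx k X ∧ Bad.card ≤ 2 ^ k * (X ^ (k - j) * B.card) ∧
      ∀ h ∈ bx k X, h ∉ Bad → ∀ (S : Finset (Fin k)) (hS : S.card = j),
        (fun i => h (S.orderEmbOfFin hS i)) ∉ B := by
  classical
  refine ⟨(univ : Finset (Finset (Fin k))).biUnion (hl13_bad k X B), ?_, ?_, ?_⟩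
  · intro h hh
    obtain ⟨S, -, h2⟩ := Finset.mem_biUnion.1 hh
    unfold hl13_bad at h2
    exact (Finset.mem_filter.1 h2).1
  · refine Finset.card_biUnion_le.trans ?_
    refine (Finset.sum_le_sum fun S _ => hl13_card B S).trans ?_
    rw [Finset.sum_const, Finset.card_univ, Fintype.card_finset, Fintype.card_fin, smul_eq_mul]
  · intro h hh hnot S hS hB
    refine hnot (Finset.mem_biUnion.2 ⟨S, Finset.mem_univ _, ?_⟩)
    unfold hl13_bad
    exact Finset.mem_filter.2 ⟨hh, hS, hB⟩

end Pool.Agent.Lib.H59P
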