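import Pool.Agent.Lib.H59P.YDefs

/-!
# Project H59P, chunk Y1B: a positive weighted count gives a prime translate
-/

open Finset

namespace Pool.Agent.Lib.H59P

open Pool.Agent.Lib.H68T Pool.Agent.Lib.H18Q

/-- If the weighted count is positive there is a prime translate. Proof. Some summand is positive, so all
factors `lp (n + h_i)` are different from `0`, i.e. all `n + h_i` are primes. -/
theorem Y1b {k : ℕ} (X : ℕ) (h : Fin k → ℕ) (hR : 0 < Rh X h) :
    ∃ n ∈ Ico X (2 * X), ∀ i, (n + h i).Prime := by
  by_contra hcon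
  have hz : Rh X h ≤ 0 := by
    unfold Rh
    refine Finset.sum_nonpos fun n hn => ?_
    have hne : ¬ ∀ i, (n + h i).Prime := fun hh => hcon ⟨n, hn, hh⟩
    push Not at hne
    obtain ⟨i, hi⟩ := hne
    refine le_of_eq (Finset.prod_eq_zero (Finset.mem_univ i) ?_)
    unfold Pool.Agent.Lib.H68T.lp
    have : ((n : ℤ) + (h i : ℤ)).toNat = n + h i := by
      rw [← Nat.cast_add]; exact Int.toNat_natCast _
    rw [this, if_neg hi]
  exact absurd hR (not_lt.mpr hz)

end Pool.Agent.Lib.H59P
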