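import Pool.Agent.Lib.H59P.HL12
import Pool.Agent.Lib.H59P.HL13
import Pool.Agent.Lib.H59P.Y1B
import Pool.Agent.Lib.H59P.Z4

/-!
# Project H59P, chunk HL14: primes at the positions with sign -1
-/

open Finset

namespace Pool.Agent.Lib.H59P

open Pool.Agent.Lib.H68T Pool.Agent.Lib.H18Q

/-- **HL14.** Proof. `Z4` with `j` in place of `k` (`1 ≤ j ≤ k`), `HL13`. For `h ∉ Bad` and `S` the sub-tuple
`h' = h ∘ S.orderEmbOfFin` is in `bx j X`, outside of the bad set of `Z4`, and admissible; by `HL12`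
(`th' ≤ 1 - η ≤ 1`) `m = exp (-c0 j)/px.1` is a lower bound of the `PM`, and `m/2 - Q^(-ε) > 0` since
`4 px.1 Q^(-ε) ≤ exp (-c0 k) ≤ exp (-c0 j)`. So `Rh X h' > 0`, `Y1b`. (`px.1 ≥ 1`.) -/
theorem HL14 (hF : FMain) (hT : TMain) (c0 : ℝ) (hc0 : 0 ≤ c0) (hlow : TLow c0) (δ : ℝ) (hδ : 0 < δ)
    (hδ1 : δ < 1) :
    ∃ ε K : ℝ, 0 < ε ∧ 1 ≤ K ∧ ∃ X0 : ℕ, ∀ (k j Q X H : ℕ) (η E0 : ℝ) (px : Ch) (th : ℤ → ℝ), X0 ≤ X →
      1 ≤ j → j ≤ k → (k : ℝ) ≤ (Real.log X) ^ (1 - δ) → RegP K Q X →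
      (Real.log X) ^ (1 - δ / 8) ≤ Real.log Q → X = H * Q ^ 8 → Mdl Q X η E0 px th → 0 ≤ E0 →
      4 * k * E0 ≤ 1 → 4 * px.1 * (Q : ℝ) ^ (-ε) ≤ Real.exp (-(c0 * k)) →
      ∃ Bad : Finset (Fin k → ℕ), Bad ⊆ bx k X ∧
        (Bad.card : ℝ) ≤ (X : ℝ) ^ k * (2 ^ k * (Q : ℝ) ^ (-ε)) ∧
        ∀ h ∈ bx k X, h ∉ Bad → Adm h → ∀ (n0 : ℕ) (S : Finset (Fin k)), S.card = j →
          (∀ i ∈ S, px.2 ((n0 + h i : ℕ) : ZMod px.1) = -1) →
          ∃ n ∈ Ico X (2 * X), ∀ i ∈ S, (n + h i).Prime := by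
  obtain ⟨ε, K, hε, hK, X0, H4⟩ := Z4 hF hT δ hδ hδ1
  refine ⟨ε, K, hε, hK, max X0 1, ?_⟩
  intro k j Q X H η E0 px th hX hj hjk hkL hreg hQL hXH hM hE0 hkE hpx
  have hX0 : X0 ≤ X := le_trans (le_max_left _ _) hX
  have hX1 : 1 ≤ X := le_trans (le_max_right _ _) hX
  have hjk' : (j : ℝ) ≤ k := by exact_mod_cast hjk
  obtain ⟨B, hB1, hB2, hB3⟩ := H4 j Q X H η E0 px th hX0 hj (hjk'.trans hkL) hreg hQL hXH hM hE0
    (by nlinarith)
  obtain ⟨Bad, hBad1, hBad2, hBad3⟩ := HL13 (k := k) (X := X) B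
  refine ⟨Bad, hBad1, ?_, ?_⟩
  · have h1 : (Bad.card : ℝ) ≤ 2 ^ k * ((X : ℝ) ^ (k - j) * (B.card : ℝ)) := by exact_mod_cast hBad2
    refine h1.trans ?_
    have h2 : (2 : ℝ) ^ k * ((X : ℝ) ^ (k - j) * (B.card : ℝ)) ≤
        2 ^ k * ((X : ℝ) ^ (k - j) * ((X : ℝ) ^ j * (Q : ℝ) ^ (-ε))) := by
      apply mul_le_mul_of_nonneg_left _ (by positivity)
      exact mul_le_mul_of_nonneg_left hB2 (by positivity)
    refine h2.trans (le_of_eq ?_)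
    have h3 : (X : ℝ) ^ k = (X : ℝ) ^ (k - j) * (X : ℝ) ^ j := by
      rw [← pow_add, Nat.sub_add_cancel hjk]
    rw [h3]
    ring
  · intro h hh hhB hA n0 S hS hsgn
    have hnot := hBad3 h hh hhB S hS
    set h' : Fin j → ℕ := fun i => h (S.orderEmbOfFin hS i) with hh'
    have hmem : h' ∈ bx j X := by
      unfold bx at hh ⊢
      rw [Fintype.mem_piFinset] at hh ⊢
      intro i
      exact hh _
    have hAdm : Adm h' := by
      intro l hl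
      obtain ⟨n, hn⟩ := hA l hl
      exact ⟨n, fun i => hn _⟩
    have hpx1 : 1 ≤ px.1 := (mem_PC.1 hM.mem).1
    have hpx0 : (0 : ℝ) < px.1 := by exact_mod_cast hpx1
    have hlow1 := (hB3 h' hmem hnot).2 (Real.exp (-(c0 * j)) / px.1) (by
      intro th' h0 h1 _
      refine HL12 c0 hlow Q px hM.mem hM.real th' h0 (fun i => (h1 i).trans ?_) h' hAdm n0 ?_
      · linarith [hM.eta_pos]
      · intro i
        exact hsgn _ (S.orderEmbOfFin_mem hS i))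
    have hexp : Real.exp (-(c0 * k)) ≤ Real.exp (-(c0 * j)) := by
      apply Real.exp_le_exp.2
      have := mul_le_mul_of_nonneg_left hjk' hc0
      linarith
    have hpos : 0 < Real.exp (-(c0 * j)) / px.1 / 2 - (Q : ℝ) ^ (-ε) := by
      have h1 : 4 * (px.1 : ℝ) * (Q : ℝ) ^ (-ε) ≤ Real.exp (-(c0 * j)) := hpx.trans hexp
      have h2 : (Q : ℝ) ^ (-ε) ≤ Real.exp (-(c0 * j)) / px.1 / 4 := by
        rw [le_div_iff₀ (by norm_num), le_div_iff₀ hpx0]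
        linarith
      have h3 : 0 < Real.exp (-(c0 * j)) / px.1 := by positivity
      linarith
    have hXr : (0 : ℝ) < X := by exact_mod_cast hX1
    have hR : 0 < Rh X h' := lt_of_lt_of_le (mul_pos hXr hpos) hlow1
    obtain ⟨n, hn, hp⟩ := Y1b X h' hR
    refine ⟨n, hn, ?_⟩
    intro i hi
    have h4 : i ∈ Set.range (S.orderEmbOfFin hS) := by
      rw [Finset.range_orderEmbOfFin]
      exact hi
    obtain ⟨i', rfl⟩ := h4
    exact hp i'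

end Pool.Agent.Lib.H59P
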