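import Pool.Agent.Lib.H59P.Y1
import Pool.Agent.Lib.H59P.Y1B
import Pool.Agent.Lib.H59P.Z4

/-!
# Project H59P, chunk Y3A: tuples at a given level
-/

open Finset

namespace Pool.Agent.Lib.H59P

open Pool.Agent.Lib.H68T Pool.Agent.Lib.H18Q

/-- **Y3a.** Small conductor or no exceptional character. Proof. `Z4` with `m = η^k e^(-c0 k)` (`Y1`):
`m/2 - Q^(-ε) ≥ m/4 > 0`, so `Rh > 0`, `Y1b`. -/
theorem Y3a (hF : FMain) (hT : TMain) (c0 : ℝ) (hlow : TLow c0) (δ : ℝ) (hδ : 0 < δ) (hδ1 : δ < 1) :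
    ∃ ε K : ℝ, 0 < ε ∧ 1 ≤ K ∧ ∃ X0 : ℕ, ∀ (k Q X H : ℕ) (η E0 : ℝ) (px : Ch) (th : ℤ → ℝ), X0 ≤ X →
      1 ≤ k → (k : ℝ) ≤ (Real.log X) ^ (1 - δ) → RegP K Q X →
      (Real.log X) ^ (1 - δ / 8) ≤ Real.log Q → X = H * Q ^ 8 → Mdl Q X η E0 px th → 0 ≤ E0 →
      4 * k * E0 ≤ 1 → 4 * (Q : ℝ) ^ (-ε) ≤ η ^ k * Real.exp (-(c0 * k)) →
      ∃ Bad : Finset (Fin k → ℕ), Good' X Bad ∧ (Bad.card : ℝ) ≤ (X : ℝ) ^ k * (Q : ℝ) ^ (-ε) := by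
  obtain ⟨ε, K, hε, hK, X0, hZ⟩ := Z4 hF hT δ hδ hδ1
  refine ⟨ε, K, hε, hK, X0, ?_⟩
  intro k Q X H η E0 px th hX0 hk hkX hReg hlQ hXH hM hE0 hkE hsmall
  obtain ⟨Bad, hB1, hB2, hB3⟩ := hZ k Q X H η E0 px th hX0 hk hkX hReg hlQ hXH hM hE0 hkE
  refine ⟨Bad, ⟨hB1, ?_⟩, hB2⟩
  intro h hh hnB hA
  apply Y1b X h
  obtain ⟨_, hZ2⟩ := hB3 h hh hnB
  have h1 := hZ2 (η ^ k * Real.exp (-(c0 * k)))
    (fun th' t0 t1 _ => Y1 c0 hlow Q px hM.real η hM.eta_pos th' t0 t1 h hA)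
  have hXpos : (0 : ℝ) < X := by
    exact_mod_cast hReg.X_pos (by linarith)
  have hm : 0 < η ^ k * Real.exp (-(c0 * k)) := by
    have := hM.eta_pos
    positivity
  have h2 : 0 < (X : ℝ) * (η ^ k * Real.exp (-(c0 * k)) / 2 - (Q : ℝ) ^ (-ε)) := by
    apply mul_pos hXpos
    linarith
  linarith

end Pool.Agent.Lib.H59P
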