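import Pool.Agent.Lib.H59P.X2
import Pool.Agent.Lib.H59P.X1
import Pool.Agent.Lib.H59P.C3

/-!
# Project H59P, chunk X3
-/

open Finset

namespace Pool.Agent.Lib.H59P

open Pool.Agent.Lib.H68T Pool.Agent.Lib.H18Q

theorem x3_const (c0 L : ℝ) (hc0 : 0 ≤ c0) (hL : 3 ≤ L) (k : ℕ) (hk : 1 ≤ k) :
    2 ^ k * (4 ^ (k + 1) * Real.exp (2 * c0) ^ k * (2 ^ k * (4 * L) ^ (2 * k))) ≤
      L ^ ((9 + 2 * c0) * (k : ℝ)) := by
  have hL0 : 0 < L := by linarith
  rw [Real.rpow_mul hL0.le, Real.rpow_natCast, Real.rpow_add hL0]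
  have h1 : Real.exp (2 * c0) ≤ L ^ (2 * c0) := by
    have h2 : Real.exp 1 ≤ L := by
      have := Real.exp_one_lt_d9
      linarith
    calc Real.exp (2 * c0) = Real.exp 1 ^ (2 * c0) := by
          rw [Real.exp_one_rpow]
      _ ≤ L ^ (2 * c0) := Real.rpow_le_rpow (Real.exp_pos 1).le h2 (by positivity)
  have h3 : L ^ (9 : ℝ) = L ^ 9 := by
    rw [← Real.rpow_natCast]
    norm_num
  rw [h3]
  have h4 : (4 : ℝ) ≤ 4 ^ k := by
    calc (4 : ℝ) = 4 ^ 1 := by norm_num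
      _ ≤ 4 ^ k := pow_le_pow_right₀ (by norm_num) hk
  have h5 : 2 ^ k * (4 ^ (k + 1) * Real.exp (2 * c0) ^ k * (2 ^ k * (4 * L) ^ (2 * k))) =
      4 * (256 * Real.exp (2 * c0) * L ^ 2) ^ k := by
    rw [pow_mul (4 * L) 2 k, pow_succ]
    have e1 : (256 : ℝ) = 2 * (4 * (2 * 4 ^ 2)) := by norm_num
    rw [e1]
    simp only [mul_pow]
    ring
  rw [h5]
  calc 4 * (256 * Real.exp (2 * c0) * L ^ 2) ^ k
      ≤ 4 ^ k * (256 * Real.exp (2 * c0) * L ^ 2) ^ k :=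
        mul_le_mul_of_nonneg_right h4 (by positivity)
    _ = (4 * (256 * Real.exp (2 * c0) * L ^ 2)) ^ k := by rw [← mul_pow]
    _ ≤ (L ^ 9 * L ^ (2 * c0)) ^ k := by
        refine pow_le_pow_left₀ (by positivity) ?_ k
        have h6 : (2187 : ℝ) ≤ L ^ 7 := by
          calc (2187 : ℝ) = 3 ^ 7 := by norm_num
            _ ≤ L ^ 7 := pow_le_pow_left₀ (by norm_num) hL 7
        have h7 : (0 : ℝ) < L ^ 2 := by positivity
        calc 4 * (256 * Real.exp (2 * c0) * L ^ 2) = (1024 * L ^ 2) * Real.exp (2 * c0) := by ring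
          _ ≤ (L ^ 7 * L ^ 2) * L ^ (2 * c0) := by
              refine mul_le_mul ?_ h1 (Real.exp_pos _).le (by positivity)
              exact mul_le_mul_of_nonneg_right (by linarith) h7.le
          _ = L ^ 9 * L ^ (2 * c0) := by ring

/-- **X3.** Large conductor. `c0` is the constant of the lower bound for the singular series (hypothesis
`hlow`, proved in module T).

Proof. The bad set is the union over `B ≠ ∅` of `{h ∈ bx k X | 2^(k+1) ‖MR (pB px B) r h‖ > exp (-c0 k)}`;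
by Markov and `X1` its size is at most `2^k · 4^(k+1) e^(2 c0 k) (2X)^k (r/φ(r))^(2k) r^(-1/2)`, and
`r/φ(r) ≤ 2 (1 + log r) ≤ 4 log X` (`M3b`). The total constant to the power `k` is absorbed by
`(log X)^(C k)` (`log X ≥ 3`). -/
theorem X3 (c0 : ℝ) (hc0 : 0 ≤ c0)
    (hlow : ∀ (k : ℕ) (h : Fin k → ℕ), Adm h → ∀ P : Finset ℕ, (∀ l ∈ P, l.Prime) →
      Real.exp (-(c0 * k)) ≤ SS P h) :
    ∃ C : ℝ, 1 ≤ C ∧ ∀ (k Q X : ℕ) (px : Ch), 3 ≤ Real.log X → 1 ≤ k → px ∈ PC Q → px.2 ^ 2 = 1 →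
      px.1 ≤ X → ∃ Bad : Finset (Fin k → ℕ), Bad ⊆ bx k X ∧
        (Bad.card : ℝ) ≤ (X : ℝ) ^ k * (Real.log X) ^ (C * k) * (px.1 : ℝ) ^ (-(1 / 2) : ℝ) ∧
        ∀ h ∈ bx k X, h ∉ Bad → Adm h → ∀ th : Fin k → ℝ, (∀ i, 0 ≤ th i) → (∀ i, th i ≤ 1) →
          1 / 2 * SS (pr Q) h ≤ PM Q px th h := by
  classical
  refine ⟨9 + 2 * c0, by linarith, ?_⟩
  intro k Q X px hX hk hpx hreal hle
  obtain ⟨hr1, hrQ, hprim⟩ := mem_PC.1 hpx
  set L := Real.log X with hLdef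
  have hL0 : 0 < L := by linarith
  -- the sets for one `B`
  set S : Finset (Fin k) → Finset (Fin k → ℕ) := fun B =>
    (bx k X).filter (fun h => Real.exp (-(c0 * k)) < 2 ^ (k + 1) * ‖MR (pB px B) px.1 h‖) with hS
  set Bad : Finset (Fin k → ℕ) := ((univ : Finset (Finset (Fin k))).filter (fun B => B.Nonempty)).biUnion S
    with hBad
  have hr0 : (0 : ℝ) < (px.1 : ℝ) ^ (-(1 / 2) : ℝ) := Real.rpow_pos_of_pos (by exact_mod_cast hr1) _
  have hphi : (px.1 : ℝ) / (Nat.totient px.1 : ℝ) ≤ 4 * L := by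
    have h1 := M3b px.1 hr1
    have h2 : Real.log px.1 ≤ L := Real.log_le_log (by exact_mod_cast hr1) (by exact_mod_cast hle)
    linarith
  have hphi0 : (0 : ℝ) ≤ (px.1 : ℝ) / (Nat.totient px.1 : ℝ) := by positivity
  have hcard : ∀ B : Finset (Fin k), B.Nonempty → ((S B).card : ℝ) ≤
      4 ^ (k + 1) * Real.exp (2 * c0) ^ k * ((2 * (X : ℝ)) ^ k * (4 * L) ^ (2 * k) *
        (px.1 : ℝ) ^ (-(1 / 2) : ℝ)) := by
    intro B hB
    have h1 := X1 X px.1 (by omega) hle px rfl hprim B hB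
    have h2 : ((S B).card : ℝ) ≤ ∑ h ∈ S B, 4 ^ (k + 1) * Real.exp (2 * c0) ^ k *
        ‖MR (pB px B) px.1 h‖ ^ 2 := by
      rw [Finset.card_eq_sum_ones, Nat.cast_sum]
      refine sum_le_sum fun h hh => ?_
      rw [hS] at hh
      have h3 := (mem_filter.1 hh).2
      have h4 : Real.exp (-(c0 * k)) ^ 2 ≤ (2 ^ (k + 1) * ‖MR (pB px B) px.1 h‖) ^ 2 :=
        pow_le_pow_left₀ (Real.exp_pos _).le h3.le 2
      have h5 : Real.exp (2 * c0) ^ k * Real.exp (-(c0 * k)) ^ 2 = 1 := by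
        rw [← Real.exp_nat_mul, ← Real.exp_nat_mul, ← Real.exp_add]
        rw [Real.exp_eq_one_iff]
        push_cast
        ring
      have h6 : (0 : ℝ) < Real.exp (2 * c0) ^ k := by positivity
      push_cast
      calc (1 : ℝ) = Real.exp (2 * c0) ^ k * Real.exp (-(c0 * k)) ^ 2 := h5.symm
        _ ≤ Real.exp (2 * c0) ^ k * (2 ^ (k + 1) * ‖MR (pB px B) px.1 h‖) ^ 2 :=
            mul_le_mul_of_nonneg_left h4 h6.le
        _ = 4 ^ (k + 1) * Real.exp (2 * c0) ^ k * ‖MR (pB px B) px.1 h‖ ^ 2 := by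
            rw [mul_pow, ← pow_mul, mul_comm (k + 1) 2, pow_mul]
            norm_num
            ring
    refine h2.trans ?_
    rw [← mul_sum]
    refine mul_le_mul_of_nonneg_left ?_ (by positivity)
    have h7 : ∑ h ∈ S B, ‖MR (pB px B) px.1 h‖ ^ 2 ≤ ∑ h ∈ bx k X, ‖MR (pB px B) px.1 h‖ ^ 2 :=
      sum_le_sum_of_subset_of_nonneg (filter_subset _ _) fun _ _ _ => sq_nonneg _
    refine h7.trans (h1.trans ?_)
    refine mul_le_mul_of_nonneg_right ?_ hr0.le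
    refine mul_le_mul_of_nonneg_left ?_ (by positivity)
    exact pow_le_pow_left₀ hphi0 hphi (2 * k)
  refine ⟨Bad, ?_, ?_, ?_⟩
  · intro h hh
    rw [hBad, mem_biUnion] at hh
    obtain ⟨B, _, hB⟩ := hh
    exact (mem_filter.1 hB).1
  · have h1 : (Bad.card : ℝ) ≤ ∑ B ∈ (univ : Finset (Finset (Fin k))).filter (fun B => B.Nonempty),
        ((S B).card : ℝ) := by
      have := @card_biUnion_le _ _ _ ((univ : Finset (Finset (Fin k))).filter (fun B => B.Nonempty)) S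
      exact_mod_cast this
    have h2 : ∑ B ∈ (univ : Finset (Finset (Fin k))).filter (fun B => B.Nonempty),
        ((S B).card : ℝ) ≤ 2 ^ k * (4 ^ (k + 1) * Real.exp (2 * c0) ^ k * ((2 * (X : ℝ)) ^ k *
          (4 * L) ^ (2 * k) * (px.1 : ℝ) ^ (-(1 / 2) : ℝ))) := by
      refine (sum_le_sum fun B hB => hcard B (mem_filter.1 hB).2).trans ?_
      rw [sum_const, nsmul_eq_mul]
      refine mul_le_mul_of_nonneg_right ?_ (by positivity)
      have h3 : ((univ : Finset (Finset (Fin k))).filter (fun B => B.Nonempty)).card ≤ 2 ^ k := by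
        refine (card_filter_le _ _).trans ?_
        rw [card_univ, Fintype.card_finset, Fintype.card_fin]
      exact_mod_cast h3
    refine h1.trans (h2.trans ?_)
    have h4 := x3_const c0 L hc0 hX k hk
    have h5 : 2 ^ k * (4 ^ (k + 1) * Real.exp (2 * c0) ^ k * ((2 * (X : ℝ)) ^ k *
          (4 * L) ^ (2 * k) * (px.1 : ℝ) ^ (-(1 / 2) : ℝ))) =
        (X : ℝ) ^ k * (2 ^ k * (4 ^ (k + 1) * Real.exp (2 * c0) ^ k * (2 ^ k * (4 * L) ^ (2 * k)))) *
          (px.1 : ℝ) ^ (-(1 / 2) : ℝ) := by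
      rw [mul_pow 2 (X : ℝ) k]
      ring
    rw [h5]
    refine mul_le_mul_of_nonneg_right ?_ hr0.le
    exact mul_le_mul_of_nonneg_left h4 (by positivity)
  · intro h hh hnb hadm th h0 h1
    refine X2 Q px hpx hreal th h0 h1 h ?_
    intro B hB
    by_contra hcon
    rw [not_le] at hcon
    apply hnb
    rw [hBad, mem_biUnion]
    refine ⟨B, mem_filter.2 ⟨mem_univ _, hB⟩, mem_filter.2 ⟨hh, ?_⟩⟩
    refine lt_of_le_of_lt ?_ hcon
    exact hlow k h hadm px.1.primeFactors fun l hl => Nat.prime_of_mem_primeFactors hl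

end Pool.Agent.Lib.H59P
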