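import Pool.Agent.Lib.H59P.Y1B
import Pool.Agent.Lib.H59P.Z4
import Pool.Agent.Lib.H59P.X3

/-!
# Project H59P, chunk Y3B: tuples at a given level, large conductor
-/

open Finset

namespace Pool.Agent.Lib.H59P

open Pool.Agent.Lib.H68T Pool.Agent.Lib.H18Q

/-- **Y3b.** Large conductor. Proof. `Z4` with `m = e^(-c0 k)/2` and `X3` (`th' ≤ 1 - η ≤ 1`; the bad set is the
union of the two). `px.1 ≤ Q ≤ X` (`Mdl.mem`, `RegP`). For `px = p0` `X3` applies as well (conductor `1`). -/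
theorem Y3b (hF : FMain) (hT : TMain) (c0 : ℝ) (hc0 : 0 ≤ c0) (hlow : TLow c0) (δ : ℝ) (hδ : 0 < δ)
    (hδ1 : δ < 1) :
    ∃ ε K C : ℝ, 0 < ε ∧ 1 ≤ K ∧ 1 ≤ C ∧ ∃ X0 : ℕ, ∀ (k Q X H : ℕ) (η E0 : ℝ) (px : Ch) (th : ℤ → ℝ),
      X0 ≤ X → 1 ≤ k → (k : ℝ) ≤ (Real.log X) ^ (1 - δ) → RegP K Q X →
      (Real.log X) ^ (1 - δ / 8) ≤ Real.log Q → X = H * Q ^ 8 → Mdl Q X η E0 px th → 0 ≤ E0 →
      4 * k * E0 ≤ 1 → 8 * (Q : ℝ) ^ (-ε) ≤ Real.exp (-(c0 * k)) →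
      ∃ Bad : Finset (Fin k → ℕ), Good' X Bad ∧ (Bad.card : ℝ) ≤ (X : ℝ) ^ k * ((Q : ℝ) ^ (-ε) +
        (Real.log X) ^ (C * k) * (px.1 : ℝ) ^ (-(1 / 2) : ℝ)) := by
  classical
  obtain ⟨ε, K, hε, hK, X0, hZ⟩ := Z4 hF hT δ hδ hδ1
  obtain ⟨C, hC, hX3⟩ := X3 c0 hc0 hlow
  refine ⟨ε, K + 2, C, hε, by linarith, hC, X0, ?_⟩
  intro k Q X H η E0 px th hX0 hk hkX hReg hlQ hXH hM hE0 hkE hsmall
  have hKpos : (0 : ℝ) < K + 2 := by linarith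
  have hRegK : RegP K Q X := hReg.mono hKpos.le (by linarith)
  obtain ⟨Bad1, hB1, hB2, hB3⟩ := hZ k Q X H η E0 px th hX0 hk hkX hRegK hlQ hXH hM hE0 hkE
  have hlogX : 3 ≤ Real.log X := by
    have h1 := hReg.logX_ge hKpos
    have h2 := Real.add_one_le_exp (K + 2)
    linarith
  have hXpos : 0 < X := hReg.X_pos hKpos
  have hQpos : 0 < Q := hReg.Q_pos (by linarith)
  have hHpos : 0 < H := by
    rcases Nat.eq_zero_or_pos H with h0 | h0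
    · rw [h0] at hXH
      omega
    · exact h0
  have hQX : Q ≤ X := by
    rw [hXH]
    calc Q = Q ^ 1 := (pow_one Q).symm
      _ ≤ Q ^ 8 := Nat.pow_le_pow_right hQpos (by norm_num)
      _ ≤ H * Q ^ 8 := Nat.le_mul_of_pos_left _ hHpos
  have hpxX : px.1 ≤ X := ((mem_PC.mp hM.mem).2.1).trans hQX
  obtain ⟨Bad2, hD1, hD2, hD3⟩ := hX3 k Q X px hlogX hk hM.mem hM.real hpxX
  refine ⟨Bad1 ∪ Bad2, ⟨Finset.union_subset hB1 hD1, ?_⟩, ?_⟩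
  · intro h hh hnB hA
    rw [mem_union, not_or] at hnB
    apply Y1b X h
    obtain ⟨_, hZ2⟩ := hB3 h hh hnB.1
    have hSS := hlow k h hA (pr Q) (fun l hl => (mem_filter.mp hl).2)
    have h1 := hZ2 (Real.exp (-(c0 * k)) / 2) (fun th' t0 t1 _ => by
      have h2 := hD3 h hh hnB.2 hA th' t0 (fun i => (t1 i).trans (by
        have := hM.eta_pos
        linarith))
      linarith)
    have hXr : (0 : ℝ) < X := by exact_mod_cast hXpos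
    have hm : 0 < Real.exp (-(c0 * k)) := Real.exp_pos _
    have h2 : 0 < (X : ℝ) * (Real.exp (-(c0 * k)) / 2 / 2 - (Q : ℝ) ^ (-ε)) := by
      apply mul_pos hXr
      linarith
    linarith
  · have h1 : ((Bad1 ∪ Bad2).card : ℝ) ≤ (Bad1.card : ℝ) + (Bad2.card : ℝ) := by
      exact_mod_cast card_union_le Bad1 Bad2
    have h2 : (X : ℝ) ^ k * ((Q : ℝ) ^ (-ε) + (Real.log X) ^ (C * k) * (px.1 : ℝ) ^ (-(1 / 2) : ℝ))
        = (X : ℝ) ^ k * (Q : ℝ) ^ (-ε) +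
          (X : ℝ) ^ k * (Real.log X) ^ (C * k) * (px.1 : ℝ) ^ (-(1 / 2) : ℝ) := by ring
    rw [h2]
    linarith

end Pool.Agent.Lib.H59P
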