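import Pool.Agent.Lib.H59P.Y3A
import Pool.Agent.Lib.H59P.Y3B

/-!
# Project H59P, chunk Y5: tuples, all large N, with a threshold for the conductor
-/

open Finset

namespace Pool.Agent.Lib.H59P

open Pool.Agent.Lib.H68T Pool.Agent.Lib.H18Q

theorem y5_ev (A b : ℝ) (hA : 0 ≤ A) (hb : 0 < b) (y : ℝ) (hy : 1 ≤ y) (h : 4 * A / b ^ 2 ≤ y) :
    A * (1 + y) ≤ Real.exp (b * y) := by
  have h1 := Real.quadratic_le_exp_of_nonneg (x := b * y) (by positivity)
  have h2 : 4 * A ≤ y * b ^ 2 := (div_le_iff₀ (by positivity)).1 h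
  have h3 : 0 ≤ b * y := by positivity
  calc A * (1 + y) ≤ A * (2 * y) := mul_le_mul_of_nonneg_left (by linarith) hA
    _ = (4 * A) * y / 2 := by ring
    _ ≤ (y * b ^ 2) * y / 2 := by
        have : (4 * A) * y ≤ (y * b ^ 2) * y := mul_le_mul_of_nonneg_right h2 (by linarith)
        linarith
    _ = (b * y) ^ 2 / 2 := by ring
    _ ≤ Real.exp (b * y) := by linarith

/-- **Y5.** `v` is a lower bound for `1 - β` for all exceptional zeros of conductor at most `ρ`.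

Proof. Let `C, K` be the constants of `AMain`, `K'` and `ε` those of `Y3a`, `Y3b` (maximum, minimum). Put
`kp = K0 log(k+1)` with `K0` so large that `max(K, K') ≤ K0 log 2` and `4 k C exp(-kp/C) ≤ 1` for all `k ≥ 1`
(`(k+1)^(-K0/C) 4 C k ≤ 1`: `2^(K0/C - 1) ≥ 4C`). For `N` large `kp ≤ (log log N)^2` (`log(k+1) ≤ log log N + 1`),
so `AMain` gives `Q, H`, `X = H Q^8`; `log Q ≥ log N/(C kp) ≥ (log X)^(1-δ/8)` for `N` large (`log X ≤ log N + 1`), and
`k ≤ (log N)^(1-δ) ≤ (log X)^(1-δ)`. `Q^(-ε) ≤ exp(-ε log N/(C K0 log(k+1)))`.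
No exceptional character: `Y3a` with `η = 1` (`4 Q^(-ε) ≤ e^(-c0 k)` since `k log(k+1) = o(log N)`).
Exceptional, `r ≤ ρ`: `η ≥ (1-β)/2 ≥ v/2`, `Y3a`: `(v/2)^k e^(-c0 k) ≥ 4 Q^(-ε)` since
`k log(1/v) ≤ ε1 log N/log(k+1)` with `ε1 = ε/(4 C K0)` and `k (c0 + 1) + 2 ≤ ε1 log N/log(k+1)`.
Exceptional, `r > ρ`: `Y3b`, `r^(-1/2) ≤ ρ^(-1/2)`, `(log X)^(C k) ≤ (log N)^(2 C k)`. -/
theorem Y5 (hF : FMain) (hT : TMain) (hA : AMain) (c0 : ℝ) (hc0 : 0 ≤ c0) (hlow : TLow c0) (δ : ℝ)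
    (hδ : 0 < δ) (hδ1 : δ < 1) :
    ∃ ε C : ℝ, 0 < ε ∧ 1 ≤ C ∧ ∃ N0 : ℕ, ∀ (N k : ℕ) (ρ v : ℝ), N0 ≤ N → 1 ≤ k →
      (k : ℝ) ≤ (Real.log N) ^ (1 - δ) → 1 ≤ ρ → 0 < v → v ≤ 1 →
      k * Real.log (1 / v) ≤ ε * (Real.log N / Real.log (k + 1)) →
      (∀ (r : ℕ) [NeZero r] (ψ : DirichletCharacter ℂ r), (r : ℝ) ≤ ρ → ψ.IsPrimitive → ψ ≠ 1 →
        ψ ^ 2 = 1 → ∀ β : ℝ, β < 1 → ψ.LFunction (β : ℂ) = 0 → v ≤ 1 - β) →
      ∃ (X : ℕ) (Bad : Finset (Fin k → ℕ)), N ≤ X ∧ X ≤ 2 * N ∧ Good' X Bad ∧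
        (Bad.card : ℝ) ≤ (X : ℝ) ^ k * (Real.exp (-(ε * (Real.log N / Real.log (k + 1)))) +
          (Real.log N) ^ (C * k) * ρ ^ (-(1 / 2) : ℝ)) := by
  obtain ⟨CA, KA, hCA, hKA, hA⟩ := hA
  obtain ⟨e1, K1, he1, hK1, X1, h3a⟩ := Y3a hF hT c0 hlow δ hδ hδ1
  obtain ⟨e2, K2, C2, he2, hK2, hC2, X2, h3b⟩ := Y3b hF hT c0 hc0 hlow δ hδ hδ1
  obtain ⟨e, he_def⟩ : ∃ e : ℝ, e = min e1 e2 := ⟨_, rfl⟩
  have he : 0 < e := by rw [he_def]; exact lt_min he1 he2
  have hee1 : e ≤ e1 := by rw [he_def]; exact min_le_left _ _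
  have hee2 : e ≤ e2 := by rw [he_def]; exact min_le_right _ _
  obtain ⟨K', hK'_def⟩ : ∃ K' : ℝ, K' = max K1 K2 := ⟨_, rfl⟩
  have hK'1 : K1 ≤ K' := by rw [hK'_def]; exact le_max_left _ _
  have hK'2 : K2 ≤ K' := by rw [hK'_def]; exact le_max_right _ _
  have hK' : 1 ≤ K' := hK1.trans hK'1
  have hl2 : 0 < Real.log 2 := Real.log_pos (by norm_num)
  have hl2' : Real.log 2 < 1 := by
    have := Real.log_two_lt_d9
    linarith
  have h4CA : 0 ≤ Real.log (4 * CA) := Real.log_nonneg (by linarith)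
  obtain ⟨K0, hK0_def⟩ : ∃ K0 : ℝ, K0 = CA * (1 + Real.log (4 * CA) / Real.log 2) +
    (KA + K') / Real.log 2 := ⟨_, rfl⟩
  have hp1 : CA ≤ CA * (1 + Real.log (4 * CA) / Real.log 2) := by
    have : 0 ≤ Real.log (4 * CA) / Real.log 2 := div_nonneg h4CA hl2.le
    nlinarith
  have hp2 : 0 ≤ (KA + K') / Real.log 2 := div_nonneg (by linarith) hl2.le
  have hK0C : CA * (1 + Real.log (4 * CA) / Real.log 2) ≤ K0 := by rw [hK0_def]; linarith
  have hK01 : 1 ≤ K0 := by linarith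
  have hK0l : KA + K' ≤ K0 * Real.log 2 := by
    rw [hK0_def, add_mul, div_mul_cancel₀ _ hl2.ne']
    have : 0 ≤ CA * (1 + Real.log (4 * CA) / Real.log 2) * Real.log 2 :=
      mul_nonneg (by linarith) hl2.le
    linarith
  obtain ⟨NA, hNA⟩ := hA K'
  obtain ⟨es, hes_def⟩ : ∃ es : ℝ, es = e / (CA * K0) := ⟨_, rfl⟩
  have hCK : 0 < CA * K0 := by positivity
  have hes : 0 < es := by rw [hes_def]; positivity
  obtain ⟨Y0, hY0_def⟩ : ∃ Y0 : ℝ, Y0 = max (K0 + 1) (max (4 * (2 * (CA * K0)) / (δ / 8) ^ 2)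
    (4 * ((c0 + 4) * (4 / es)) / δ ^ 2)) := ⟨_, rfl⟩
  refine ⟨es / 4, 2 * C2, by positivity, by linarith,
    max (max NA (max X1 X2)) ⌈Real.exp (Real.exp Y0)⌉₊, ?_⟩
  intro N k ρ v hN hk hkN hρ hv hv1 hkv hexc
  have hNNA : NA ≤ N := ((le_max_left _ _).trans (le_max_left _ _)).trans hN
  have hNX1 : X1 ≤ N := (((le_max_left _ _).trans (le_max_right _ _)).trans (le_max_left _ _)).trans hN
  have hNX2 : X2 ≤ N := (((le_max_right _ _).trans (le_max_right _ _)).trans (le_max_left _ _)).trans hN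
  have hNe : Real.exp (Real.exp Y0) ≤ N := (Nat.le_ceil _).trans (by exact_mod_cast (le_max_right _ _).trans hN)
  have hN0 : (0 : ℝ) < N := (Real.exp_pos _).trans_le hNe
  obtain ⟨LN, hLN_def⟩ : ∃ LN : ℝ, LN = Real.log N := ⟨_, rfl⟩
  have hLN1 : Real.exp Y0 ≤ LN := by rw [hLN_def]; exact (Real.le_log_iff_exp_le hN0).2 hNe
  have hLN0 : 0 < LN := (Real.exp_pos _).trans_le hLN1
  obtain ⟨y, hy_def⟩ : ∃ y : ℝ, y = Real.log LN := ⟨_, rfl⟩
  have hy : Y0 ≤ y := by rw [hy_def]; exact (Real.le_log_iff_exp_le hLN0).2 hLN1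
  have hy1 : K0 + 1 ≤ y := by rw [hY0_def] at hy; exact (le_max_left _ _).trans hy
  have hyb : 4 * (2 * (CA * K0)) / (δ / 8) ^ 2 ≤ y := by
    rw [hY0_def] at hy
    exact ((le_max_left _ _).trans (le_max_right _ _)).trans hy
  have hyc : 4 * ((c0 + 4) * (4 / es)) / δ ^ 2 ≤ y := by
    rw [hY0_def] at hy
    exact ((le_max_right _ _).trans (le_max_right _ _)).trans hy
  have hey : Real.exp y = LN := by rw [hy_def]; exact Real.exp_log hLN0
  have hLN3 : 3 ≤ LN := by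
    rw [← hey]
    have := Real.add_one_le_exp y
    linarith
  have hb := y5_ev (2 * (CA * K0)) (δ / 8) (by positivity) (by positivity) y (by linarith) hyb
  have hc := y5_ev ((c0 + 4) * (4 / es)) δ (by positivity) hδ y (by linarith) hyc
  have hk1 : (1 : ℝ) ≤ k := by exact_mod_cast hk
  rw [← hLN_def] at hkN hkv
  obtain ⟨lk, hlk_def⟩ : ∃ lk : ℝ, lk = Real.log (k + 1) := ⟨_, rfl⟩
  rw [← hlk_def] at hkv
  have hlk2 : Real.log 2 ≤ lk := by
    rw [hlk_def]
    exact Real.log_le_log (by norm_num) (by linarith)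
  have hlk0 : 0 < lk := hl2.trans_le hlk2
  have hkLN : (k : ℝ) ≤ LN := by
    refine hkN.trans ?_
    calc LN ^ (1 - δ) ≤ LN ^ (1 : ℝ) := Real.rpow_le_rpow_of_exponent_le (by linarith) (by linarith)
      _ = LN := Real.rpow_one _
  have hlky : lk ≤ 1 + y := by
    rw [hlk_def]
    calc Real.log (k + 1) ≤ Real.log (2 * LN) := Real.log_le_log (by linarith) (by linarith)
      _ = Real.log 2 + y := by rw [Real.log_mul (by norm_num) hLN0.ne', hy_def]
      _ ≤ 1 + y := by linarith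
  -- the parameter
  have hkp1 : K0 * Real.log 2 ≤ K0 * lk := mul_le_mul_of_nonneg_left hlk2 (by linarith)
  obtain ⟨Q, H, hXN, hX2N, hreg, hlogQ, hmdl⟩ := hNA N hNNA (K0 * lk) (by linarith) (by linarith) (by
    rw [← hLN_def, ← hy_def]
    have g1 : K0 * lk ≤ K0 * (1 + y) := mul_le_mul_of_nonneg_left hlky (by linarith)
    nlinarith)
  obtain ⟨X, hX_def⟩ : ∃ X : ℕ, X = H * Q ^ 8 := ⟨_, rfl⟩
  rw [← hX_def] at hXN hX2N hreg hmdl
  rw [← hLN_def] at hlogQ
  have hQ1 : 0 < Q := hreg.Q_pos hK'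
  have hQ0 : (0 : ℝ) < Q := by exact_mod_cast hQ1
  have hXNr : (N : ℝ) ≤ X := by exact_mod_cast hXN
  have hX2Nr : (X : ℝ) ≤ 2 * N := by exact_mod_cast hX2N
  have hX0 : (0 : ℝ) < X := hN0.trans_le hXNr
  have hLX1 : LN ≤ Real.log X := by rw [hLN_def]; exact Real.log_le_log hN0 hXNr
  have hLX2 : Real.log X ≤ LN + 1 := by
    calc Real.log X ≤ Real.log (2 * N) := Real.log_le_log hX0 hX2Nr
      _ = Real.log 2 + LN := by rw [Real.log_mul (by norm_num) hN0.ne', hLN_def]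
      _ ≤ LN + 1 := by linarith
  obtain ⟨lam, hlam_def⟩ : ∃ lam : ℝ, lam = LN / lk := ⟨_, rfl⟩
  rw [← hlam_def] at hkv
  have hlam0 : 0 < lam := by rw [hlam_def]; positivity
  have hlQ : lam / (CA * K0) ≤ Real.log Q := by
    rw [hlam_def, div_div, div_le_iff₀ (by positivity)]
    calc LN ≤ CA * (K0 * lk) * Real.log Q := hlogQ
      _ = Real.log Q * (lk * (CA * K0)) := by ring
  have hlQ0 : 0 < Real.log Q := lt_of_lt_of_le (by positivity) hlQ
  have hesl : es * lam ≤ e * Real.log Q := by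
    calc es * lam = e * (lam / (CA * K0)) := by rw [hes_def]; ring
      _ ≤ e * Real.log Q := mul_le_mul_of_nonneg_left hlQ he.le
  have hlamy : LN / (1 + y) ≤ lam := by
    rw [hlam_def]
    exact div_le_div_of_nonneg_left hLN0.le hlk0 hlky
  have h1y : 0 < 1 + y := by linarith
  have hpow : ∀ b : ℝ, LN ^ (1 - b) = LN * Real.exp (-(b * y)) := by
    intro b
    rw [sub_eq_add_neg, Real.rpow_add hLN0, Real.rpow_one, Real.rpow_def_of_pos hLN0, ← hy_def]
    congr 2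
    ring
  have hQ8 : (Real.log X) ^ (1 - δ / 8) ≤ Real.log Q := by
    have hLX0 : 0 ≤ Real.log X := by linarith
    have g1 : (Real.log X) ^ (1 - δ / 8) ≤ 2 * LN ^ (1 - δ / 8) := by
      calc (Real.log X) ^ (1 - δ / 8) ≤ (2 * LN) ^ (1 - δ / 8) :=
            Real.rpow_le_rpow hLX0 (by linarith) (by linarith)
        _ = 2 ^ (1 - δ / 8) * LN ^ (1 - δ / 8) := Real.mul_rpow (by norm_num) hLN0.le
        _ ≤ 2 ^ (1 : ℝ) * LN ^ (1 - δ / 8) := by
            refine mul_le_mul_of_nonneg_right ?_ (Real.rpow_nonneg hLN0.le _)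
            exact Real.rpow_le_rpow_of_exponent_le (by norm_num) (by linarith)
        _ = 2 * LN ^ (1 - δ / 8) := by rw [Real.rpow_one]
    refine g1.trans (le_trans ?_ hlQ)
    rw [hpow, le_div_iff₀ hCK]
    have g2 : Real.exp (-(δ / 8 * y)) * Real.exp (δ / 8 * y) = 1 := by
      rw [← Real.exp_add]; simp
    have g3 : 2 * (CA * K0) * (1 + y) * Real.exp (-(δ / 8 * y)) ≤ 1 := by
      calc 2 * (CA * K0) * (1 + y) * Real.exp (-(δ / 8 * y))
          ≤ Real.exp (δ / 8 * y) * Real.exp (-(δ / 8 * y)) :=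
            mul_le_mul_of_nonneg_right hb (Real.exp_pos _).le
        _ = 1 := by rw [mul_comm]; exact g2
    refine le_trans ?_ hlamy
    rw [le_div_iff₀ h1y]
    calc 2 * (LN * Real.exp (-(δ / 8 * y))) * (CA * K0) * (1 + y)
        = LN * (2 * (CA * K0) * (1 + y) * Real.exp (-(δ / 8 * y))) := by ring
      _ ≤ LN * 1 := mul_le_mul_of_nonneg_left g3 hLN0.le
      _ = LN := mul_one _
  have hklam : k * (c0 + 1) + 3 ≤ es / 4 * lam := by
    have g0 : k * (c0 + 1) + 3 ≤ k * (c0 + 4) := by nlinarith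
    have g1 : k * (c0 + 4) ≤ LN * Real.exp (-(δ * y)) * (c0 + 4) := by
      rw [← hpow]
      exact mul_le_mul_of_nonneg_right hkN (by linarith)
    have g2 : (c0 + 4) * (1 + y) * Real.exp (-(δ * y)) ≤ es / 4 := by
      have g3 : (c0 + 4) * (1 + y) ≤ es / 4 * Real.exp (δ * y) := by
        calc (c0 + 4) * (1 + y) = es / 4 * ((c0 + 4) * (4 / es) * (1 + y)) := by
              field_simp
          _ ≤ es / 4 * Real.exp (δ * y) := mul_le_mul_of_nonneg_left hc (by positivity)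
      calc (c0 + 4) * (1 + y) * Real.exp (-(δ * y))
          ≤ es / 4 * Real.exp (δ * y) * Real.exp (-(δ * y)) :=
            mul_le_mul_of_nonneg_right g3 (Real.exp_pos _).le
        _ = es / 4 * (Real.exp (δ * y) * Real.exp (-(δ * y))) := by ring
        _ = es / 4 := by rw [← Real.exp_add]; simp
    have g4 : LN * Real.exp (-(δ * y)) * (c0 + 4) ≤ es / 4 * (LN / (1 + y)) := by
      rw [← mul_div_assoc, le_div_iff₀ h1y]
      calc LN * Real.exp (-(δ * y)) * (c0 + 4) * (1 + y)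
          = LN * ((c0 + 4) * (1 + y) * Real.exp (-(δ * y))) := by ring
        _ ≤ LN * (es / 4) := mul_le_mul_of_nonneg_left g2 hLN0.le
        _ = es / 4 * LN := by ring
    have g5 : es / 4 * (LN / (1 + y)) ≤ es / 4 * lam := mul_le_mul_of_nonneg_left hlamy (by positivity)
    linarith
  have hE0 : 4 * k * (CA * Real.exp (-(K0 * lk / CA))) ≤ 1 := by
    have g1 : lk + Real.log (4 * CA) ≤ K0 * lk / CA := by
      rw [le_div_iff₀ (by linarith)]
      have g2 : lk + Real.log (4 * CA) ≤ (1 + Real.log (4 * CA) / Real.log 2) * lk := by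
        have g3 : Real.log (4 * CA) ≤ Real.log (4 * CA) / Real.log 2 * lk := by
          rw [div_mul_eq_mul_div, le_div_iff₀ hl2]
          exact mul_le_mul_of_nonneg_left hlk2 h4CA
        linarith
      calc (lk + Real.log (4 * CA)) * CA ≤ (1 + Real.log (4 * CA) / Real.log 2) * lk * CA :=
            mul_le_mul_of_nonneg_right g2 (by linarith)
        _ = CA * (1 + Real.log (4 * CA) / Real.log 2) * lk := by ring
        _ ≤ K0 * lk := mul_le_mul_of_nonneg_right hK0C hlk0.le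
    have g4 : (k + 1) * (4 * CA) ≤ Real.exp (K0 * lk / CA) := by
      calc (k + 1) * (4 * CA) = Real.exp (lk + Real.log (4 * CA)) := by
            rw [Real.exp_add, hlk_def, Real.exp_log (by linarith), Real.exp_log (by linarith)]
        _ ≤ Real.exp (K0 * lk / CA) := Real.exp_le_exp.2 g1
    have g5 : Real.exp (K0 * lk / CA) * Real.exp (-(K0 * lk / CA)) = 1 := by
      rw [← Real.exp_add]; simp
    have g6 : 4 * k * CA ≤ Real.exp (K0 * lk / CA) := by nlinarith
    calc 4 * k * (CA * Real.exp (-(K0 * lk / CA))) = (4 * k * CA) * Real.exp (-(K0 * lk / CA)) := by ring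
      _ ≤ Real.exp (K0 * lk / CA) * Real.exp (-(K0 * lk / CA)) :=
          mul_le_mul_of_nonneg_right g6 (Real.exp_pos _).le
      _ = 1 := g5
  have hE00 : 0 ≤ CA * Real.exp (-(K0 * lk / CA)) := by positivity
  have hQpow : ∀ e' : ℝ, e ≤ e' → (Q : ℝ) ^ (-e') ≤ Real.exp (-(es * lam)) := by
    intro e' he'
    rw [Real.rpow_def_of_pos hQ0]
    apply Real.exp_le_exp.2
    have : e * Real.log Q ≤ e' * Real.log Q := mul_le_mul_of_nonneg_right he' hlQ0.le
    linarith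
  have hexp4 : Real.exp (-(es * lam)) ≤ Real.exp (-(es / 4 * lam)) := by
    apply Real.exp_le_exp.2
    have : 0 < es * lam := by positivity
    linarith
  have hkX : (k : ℝ) ≤ (Real.log X) ^ (1 - δ) :=
    hkN.trans (Real.rpow_le_rpow hLN0.le hLX1 (by linarith))
  have hXk : (0 : ℝ) ≤ (X : ℝ) ^ k := by positivity
  have hpos2 : 0 ≤ LN ^ (2 * C2 * k) * ρ ^ (-(1 / 2) : ℝ) := by positivity
  have hlog4 : Real.log 4 ≤ 2 := by
    have : Real.log 4 = 2 * Real.log 2 := by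
      rw [show (4 : ℝ) = 2 ^ 2 by norm_num, Real.log_pow]
      norm_num
    linarith
  rw [← hLN_def]
  rw [← hlk_def, ← hlam_def]
  rcases hmdl with hm | ⟨r, hr, ψ, β, η, hψ1, hψ2, hψ3, hβ1, hβ2, hβ3, hη, hm⟩
  · -- no exceptional character
    obtain ⟨Bad, hB1, hB2⟩ := h3a k Q X H 1 _ p0 (fun _ => 0) (hNX1.trans hXN) hk hkX
      (hreg.mono (by linarith) hK'1) hQ8 hX_def hm hE00 hE0 (by
        rw [one_pow, one_mul]
        have g1 : (4 : ℝ) * (Q : ℝ) ^ (-e1) ≤ Real.exp (Real.log 4) * Real.exp (-(es * lam)) := by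
          rw [Real.exp_log (by norm_num)]
          exact mul_le_mul_of_nonneg_left (hQpow e1 hee1) (by norm_num)
        refine g1.trans ?_
        rw [← Real.exp_add]
        apply Real.exp_le_exp.2
        have : 0 < es * lam := by positivity
        linarith [hklam])
    refine ⟨X, Bad, hXN, hX2N, hB1, hB2.trans (mul_le_mul_of_nonneg_left ?_ hXk)⟩
    linarith [hQpow e1 hee1]
  · by_cases hrρ : (r : ℝ) ≤ ρ
    · have hvβ := hexc r ψ hrρ hψ1 hψ2 hψ3 β hβ2 hβ3
      have hηv : v / 2 ≤ η := by linarith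
      obtain ⟨Bad, hB1, hB2⟩ := h3a k Q X H η _ ⟨r, ψ⟩ _ (hNX1.trans hXN) hk hkX
        (hreg.mono (by linarith) hK'1) hQ8 hX_def hm hE00 hE0 (by
          have g0 : (v / 2) ^ k ≤ η ^ k := pow_le_pow_left₀ (by positivity) hηv k
          have g1 : (4 : ℝ) * (Q : ℝ) ^ (-e1) ≤ Real.exp (Real.log 4) * Real.exp (-(es * lam)) := by
            rw [Real.exp_log (by norm_num)]
            exact mul_le_mul_of_nonneg_left (hQpow e1 hee1) (by norm_num)
          refine g1.trans (le_trans ?_ (mul_le_mul_of_nonneg_right g0 (Real.exp_pos _).le))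
          have g2 : (v / 2) ^ k = Real.exp (-(k * Real.log (1 / v)) - k * Real.log 2) := by
            rw [← Real.exp_log (show 0 < (v / 2) ^ k by positivity), Real.log_pow,
              Real.log_div hv.ne' (by norm_num), Real.log_div (by norm_num) hv.ne', Real.log_one]
            congr 1
            ring
          rw [g2, ← Real.exp_add, ← Real.exp_add]
          apply Real.exp_le_exp.2
          have g3 : (k : ℝ) * Real.log 2 ≤ k := by nlinarith
          have : 0 < es * lam := by positivity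
          nlinarith)
      refine ⟨X, Bad, hXN, hX2N, hB1, hB2.trans (mul_le_mul_of_nonneg_left ?_ hXk)⟩
      linarith [hQpow e1 hee1]
    · obtain ⟨Bad, hB1, hB2⟩ := h3b k Q X H η _ ⟨r, ψ⟩ _ (hNX2.trans hXN) hk hkX
        (hreg.mono (by linarith) hK'2) hQ8 hX_def hm hE00 hE0 (by
          have g1 : (8 : ℝ) * (Q : ℝ) ^ (-e2) ≤ Real.exp (Real.log 8) * Real.exp (-(es * lam)) := by
            rw [Real.exp_log (by norm_num)]
            exact mul_le_mul_of_nonneg_left (hQpow e2 hee2) (by norm_num)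
          refine g1.trans ?_
          rw [← Real.exp_add]
          apply Real.exp_le_exp.2
          have hlog8 : Real.log 8 ≤ 3 := by
            have : Real.log 8 = 3 * Real.log 2 := by
              rw [show (8 : ℝ) = 2 ^ 3 by norm_num, Real.log_pow]
              norm_num
            linarith
          have : 0 < es * lam := by positivity
          linarith [hklam])
      refine ⟨X, Bad, hXN, hX2N, hB1, hB2.trans (mul_le_mul_of_nonneg_left ?_ hXk)⟩
      have g1 : (Real.log X) ^ (C2 * k) ≤ LN ^ (2 * C2 * k) := by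
        calc (Real.log X) ^ (C2 * k) ≤ (LN ^ (2 : ℝ)) ^ (C2 * k) := by
              refine Real.rpow_le_rpow (by linarith) ?_ (by positivity)
              rw [Real.rpow_two]
              nlinarith
          _ = LN ^ (2 * C2 * k) := by
              rw [← Real.rpow_mul hLN0.le]
              congr 1
              ring
      have g2 : ((⟨r, ψ⟩ : Ch).1 : ℝ) ^ (-(1 / 2) : ℝ) ≤ ρ ^ (-(1 / 2) : ℝ) :=
        Real.rpow_le_rpow_of_nonpos (by linarith) (not_le.1 hrρ).le (by norm_num)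
      have g3 : (Real.log X) ^ (C2 * k) * ((⟨r, ψ⟩ : Ch).1 : ℝ) ^ (-(1 / 2) : ℝ) ≤
          LN ^ (2 * C2 * k) * ρ ^ (-(1 / 2) : ℝ) :=
        mul_le_mul g1 g2 (by positivity) (by positivity)
      have g4 := (hQpow e2 hee2).trans hexp4
      exact add_le_add g4 g3

end Pool.Agent.Lib.H59P
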