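import Pool.Agent.Lib.H59P.HL14
import Pool.Agent.Lib.H59P.Y3A
import Pool.Agent.Lib.H59P.Y3B
import Pool.Agent.Lib.H59P.Y5

/-!
# Project H59P, chunk HL15: tuples, all large N: all elements, or the positions with sign -1
-/

open Finset

namespace Pool.Agent.Lib.H59P

open Pool.Agent.Lib.H68T Pool.Agent.Lib.H18Q

/-- The second alternative of `HL15`: a real primitive character `ψ` modulo `r ≤ N^(1/4)` such that for every
`1 ≤ j ≤ k`, outside of a small set of tuples, every `j` positions at which `ψ` is `-1` for one class `n0` can be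
made prime together by some `n ∈ [X, 2X)`. -/
def Signed (N X k : ℕ) (σ : ℝ) : Prop :=
  ∃ (r : ℕ) (_ : NeZero r) (ψ : DirichletCharacter ℂ r), ψ.IsPrimitive ∧ ψ ≠ 1 ∧ ψ ^ 2 = 1 ∧
    (r : ℝ) ≤ (N : ℝ) ^ (1 / 4 : ℝ) ∧ ∀ j : ℕ, 1 ≤ j → j ≤ k →
    ∃ Bad : Finset (Fin k → ℕ), Bad ⊆ bx k X ∧ (Bad.card : ℝ) ≤ (X : ℝ) ^ k * σ ∧
      ∀ h ∈ bx k X, h ∉ Bad → Adm h → ∀ (n0 : ℕ) (S : Finset (Fin k)), S.card = j →
        (∀ i ∈ S, ψ ((n0 + h i : ℕ) : ZMod r) = -1) → ∃ n ∈ Ico X (2 * X), ∀ i ∈ S, (n + h i).Prime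

theorem hl15_sq {a : ℝ} (ha : 0 < a) : a ≤ (1 + a) ^ 2 := by nlinarith

theorem hl15_y {K0 lk y : ℝ} (g1 : K0 * lk ≤ K0 * (1 + y)) (hy1 : K0 + 1 ≤ y) (hK : 1 ≤ K0) :
    K0 * lk ≤ y ^ 2 := by nlinarith

theorem hl15_a {k CA : ℝ} {E : ℝ} (g4 : (k + 1) * (4 * CA) ≤ E) (hCA : 1 ≤ CA) : 4 * k * CA ≤ E := by
  nlinarith

/-- **HL15.** Proof. As `Y5` (same choice of `kp = K0 log(k+1)`, `Q`, `H`, `X = H Q^8`; `log Q ≥ log N/(C K0
log(k+1))`, `k ≤ (log X)^(1-δ)`, `(log X)^(1-δ/8) ≤ log Q`). Let `ε0` be the minimum of the `ε` of `Y3a`, `Y3b`,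
`HL14`. No exceptional character: `Y3a` with `η = 1`. Exceptional with `r > Q^(ε0/2)`: `Y3b`,
`(log X)^(C k) r^(-1/2) ≤ (log X)^(C k) Q^(-ε0/4) ≤ Q^(-ε0/8)`. Exceptional with `r ≤ Q^(ε0/2)`: second
alternative by `HL14`: `4 r Q^(-ε0) ≤ 4 Q^(-ε0/2) ≤ exp (-c0 k)` and `2^k Q^(-ε0) ≤ Q^(-ε0/2)`, since
`k (c0 + 1) + 2 = o(log Q)`; `r ≤ Q` and `Q^8 ≤ X ≤ 2N`, so `r ≤ N^(1/4)`. -/
theorem HL15 (hF : FMain) (hT : TMain) (hA : AMain) (c0 : ℝ) (hc0 : 0 ≤ c0) (hlow : TLow c0) (δ : ℝ)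
    (hδ : 0 < δ) (hδ1 : δ < 1) :
    ∃ ε : ℝ, 0 < ε ∧ ∃ N0 : ℕ, ∀ N k : ℕ, N0 ≤ N → 1 ≤ k → (k : ℝ) ≤ (Real.log N) ^ (1 - δ) →
      ∃ X : ℕ, N ≤ X ∧ X ≤ 2 * N ∧
        ((∃ Bad : Finset (Fin k → ℕ), Good' X Bad ∧ (Bad.card : ℝ) ≤
            (X : ℝ) ^ k * Real.exp (-(ε * (Real.log N / Real.log (k + 1))))) ∨
          Signed N X k (Real.exp (-(ε * (Real.log N / Real.log (k + 1)))))) := by
  obtain ⟨CA, KA, hCA, hKA, hA⟩ := hA
  obtain ⟨e1, K1, he1, hK1, X1, h3a⟩ := Y3a hF hT c0 hlow δ hδ hδ1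
  obtain ⟨e2, K2, C2, he2, hK2, hC2, X2, h3b⟩ := Y3b hF hT c0 hc0 hlow δ hδ hδ1
  obtain ⟨e3, K3, he3, hK3, X3, h3c⟩ := HL14 hF hT c0 hc0 hlow δ hδ hδ1
  obtain ⟨e, he_def⟩ : ∃ e : ℝ, e = min e1 (min e2 e3) := ⟨_, rfl⟩
  have he : 0 < e := by rw [he_def]; exact lt_min he1 (lt_min he2 he3)
  have hee1 : e ≤ e1 := by rw [he_def]; exact min_le_left _ _
  have hee2 : e ≤ e2 := by rw [he_def]; exact (min_le_right _ _).trans (min_le_left _ _)
  have hee3 : e ≤ e3 := by rw [he_def]; exact (min_le_right _ _).trans (min_le_right _ _)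
  obtain ⟨K', hK'_def⟩ : ∃ K' : ℝ, K' = max K1 (max K2 K3) := ⟨_, rfl⟩
  have hK'1 : K1 ≤ K' := by rw [hK'_def]; exact le_max_left _ _
  have hK'2 : K2 ≤ K' := by rw [hK'_def]; exact (le_max_left _ _).trans (le_max_right _ _)
  have hK'3 : K3 ≤ K' := by rw [hK'_def]; exact (le_max_right _ _).trans (le_max_right _ _)
  have hK' : 1 ≤ K' := hK1.trans hK'1
  have hl2 : 0 < Real.log 2 := Real.log_pos (by norm_num)
  have hl2' : Real.log 2 < 1 := by
    have := Real.log_two_lt_d9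
    linarith
  have h4CA : 0 ≤ Real.log (4 * CA) := Real.log_nonneg (by linarith)
  obtain ⟨K0, hK0_def⟩ : ∃ K0 : ℝ, K0 = CA * (1 + Real.log (4 * CA) / Real.log 2) +
    (KA + K') / Real.log 2 := ⟨_, rfl⟩
  have hp1 : CA ≤ CA * (1 + Real.log (4 * CA) / Real.log 2) := by
    have : 0 ≤ Real.log (4 * CA) / Real.log 2 := div_nonneg h4CA hl2.le
    exact le_mul_of_one_le_right (by linarith) (by linarith)
  have hp2 : 0 ≤ (KA + K') / Real.log 2 := div_nonneg (by linarith) hl2.le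
  have hK0C : CA * (1 + Real.log (4 * CA) / Real.log 2) ≤ K0 := by rw [hK0_def]; linarith
  have hK01 : 1 ≤ K0 := by linarith
  have hK0l : KA + K' ≤ K0 * Real.log 2 := by
    rw [hK0_def, add_mul, div_mul_cancel₀ _ hl2.ne']
    have : 0 ≤ CA * (1 + Real.log (4 * CA) / Real.log 2) * Real.log 2 :=
      mul_nonneg (by linarith) hl2.le
    linarith
  obtain ⟨NA, hNA⟩ := hA K'
  obtain ⟨es, hes_def⟩ : ∃ es : ℝ, es = e / (CA * K0) := ⟨_, rfl⟩
  have hCK : 0 < CA * K0 := by positivity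
  have hes : 0 < es := by rw [hes_def]; positivity
  obtain ⟨Y0, hY0_def⟩ : ∃ Y0 : ℝ, Y0 = max (K0 + 1) (max (4 * (2 * (CA * K0)) / (δ / 8) ^ 2)
    (max (4 * ((c0 + 4) * (32 / es)) / δ ^ 2) (4 * (1 + 16 * C2 / es) / (δ / 2) ^ 2))) := ⟨_, rfl⟩
  refine ⟨es / 32, by positivity,
    max (max NA (max X1 (max X2 X3))) ⌈Real.exp (Real.exp Y0)⌉₊, ?_⟩
  intro N k hN hk hkN
  have hNNA : NA ≤ N := ((le_max_left _ _).trans (le_max_left _ _)).trans hN
  have hNX1 : X1 ≤ N := (((le_max_left _ _).trans (le_max_right _ _)).trans (le_max_left _ _)).trans hN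
  have hNX2 : X2 ≤ N := ((((le_max_left _ _).trans (le_max_right _ _)).trans (le_max_right _ _)).trans
    (le_max_left _ _)).trans hN
  have hNX3 : X3 ≤ N := ((((le_max_right _ _).trans (le_max_right _ _)).trans (le_max_right _ _)).trans
    (le_max_left _ _)).trans hN
  have hNe : Real.exp (Real.exp Y0) ≤ N := (Nat.le_ceil _).trans (by exact_mod_cast (le_max_right _ _).trans hN)
  have hN0 : (0 : ℝ) < N := (Real.exp_pos _).trans_le hNe
  obtain ⟨LN, hLN_def⟩ : ∃ LN : ℝ, LN = Real.log N := ⟨_, rfl⟩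
  have hLN1 : Real.exp Y0 ≤ LN := by rw [hLN_def]; exact (Real.le_log_iff_exp_le hN0).2 hNe
  have hLN0 : 0 < LN := (Real.exp_pos _).trans_le hLN1
  obtain ⟨y, hy_def⟩ : ∃ y : ℝ, y = Real.log LN := ⟨_, rfl⟩
  have hy : Y0 ≤ y := by rw [hy_def]; exact (Real.le_log_iff_exp_le hLN0).2 hLN1
  have hy1 : K0 + 1 ≤ y := by rw [hY0_def] at hy; exact (le_max_left _ _).trans hy
  have hyb : 4 * (2 * (CA * K0)) / (δ / 8) ^ 2 ≤ y := by
    rw [hY0_def] at hy
    exact ((le_max_left _ _).trans (le_max_right _ _)).trans hy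
  have hyc : 4 * ((c0 + 4) * (32 / es)) / δ ^ 2 ≤ y := by
    rw [hY0_def] at hy
    exact (((le_max_left _ _).trans (le_max_right _ _)).trans (le_max_right _ _)).trans hy
  have hyd : 4 * (1 + 16 * C2 / es) / (δ / 2) ^ 2 ≤ y := by
    rw [hY0_def] at hy
    exact (((le_max_right _ _).trans (le_max_right _ _)).trans (le_max_right _ _)).trans hy
  have hey : Real.exp y = LN := by rw [hy_def]; exact Real.exp_log hLN0
  have hLN3 : 3 ≤ LN := by
    rw [← hey]
    have := Real.add_one_le_exp y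
    linarith
  have hb := y5_ev (2 * (CA * K0)) (δ / 8) (by positivity) (by positivity) y (by linarith) hyb
  have hc := y5_ev ((c0 + 4) * (32 / es)) δ (by positivity) hδ y (by linarith) hyc
  have hC2es : 0 < 16 * C2 / es := by positivity
  have hd := y5_ev (1 + 16 * C2 / es) (δ / 2) (by linarith) (by positivity) y (by linarith) hyd
  have hk1 : (1 : ℝ) ≤ k := by exact_mod_cast hk
  rw [← hLN_def] at hkN
  obtain ⟨lk, hlk_def⟩ : ∃ lk : ℝ, lk = Real.log (k + 1) := ⟨_, rfl⟩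
  have hlk2 : Real.log 2 ≤ lk := by
    rw [hlk_def]
    exact Real.log_le_log (by norm_num) (by linarith)
  have hlk0 : 0 < lk := hl2.trans_le hlk2
  have hkLN : (k : ℝ) ≤ LN := by
    refine hkN.trans ?_
    calc LN ^ (1 - δ) ≤ LN ^ (1 : ℝ) := Real.rpow_le_rpow_of_exponent_le (by linarith) (by linarith)
      _ = LN := Real.rpow_one _
  have hlky : lk ≤ 1 + y := by
    rw [hlk_def]
    calc Real.log (k + 1) ≤ Real.log (2 * LN) := Real.log_le_log (by linarith) (by linarith)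
      _ = Real.log 2 + y := by rw [Real.log_mul (by norm_num) hLN0.ne', hy_def]
      _ ≤ 1 + y := by linarith
  -- the parameter
  have hkp1 : K0 * Real.log 2 ≤ K0 * lk := mul_le_mul_of_nonneg_left hlk2 (by linarith)
  obtain ⟨Q, H, hXN, hX2N, hreg, hlogQ, hmdl⟩ := hNA N hNNA (K0 * lk) (by linarith) (by linarith) (by
    rw [← hLN_def, ← hy_def]
    have g1 : K0 * lk ≤ K0 * (1 + y) := mul_le_mul_of_nonneg_left hlky (by linarith)
    exact hl15_y g1 hy1 hK01)
  obtain ⟨X, hX_def⟩ : ∃ X : ℕ, X = H * Q ^ 8 := ⟨_, rfl⟩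
  rw [← hX_def] at hXN hX2N hreg hmdl
  rw [← hLN_def] at hlogQ
  have hQ1 : 0 < Q := hreg.Q_pos hK'
  have hQ0 : (0 : ℝ) < Q := by exact_mod_cast hQ1
  have hXNr : (N : ℝ) ≤ X := by exact_mod_cast hXN
  have hX2Nr : (X : ℝ) ≤ 2 * N := by exact_mod_cast hX2N
  have hX0 : (0 : ℝ) < X := hN0.trans_le hXNr
  have hLX1 : LN ≤ Real.log X := by rw [hLN_def]; exact Real.log_le_log hN0 hXNr
  have hLX2 : Real.log X ≤ LN + 1 := by
    calc Real.log X ≤ Real.log (2 * N) := Real.log_le_log hX0 hX2Nr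
      _ = Real.log 2 + LN := by rw [Real.log_mul (by norm_num) hN0.ne', hLN_def]
      _ ≤ LN + 1 := by linarith
  obtain ⟨lam, hlam_def⟩ : ∃ lam : ℝ, lam = LN / lk := ⟨_, rfl⟩
  have hlam0 : 0 < lam := by rw [hlam_def]; positivity
  have hlQ : lam / (CA * K0) ≤ Real.log Q := by
    rw [hlam_def, div_div, div_le_iff₀ (by positivity)]
    calc LN ≤ CA * (K0 * lk) * Real.log Q := hlogQ
      _ = Real.log Q * (lk * (CA * K0)) := by ring
  have hlQ0 : 0 < Real.log Q := lt_of_lt_of_le (by positivity) hlQ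
  have hesl : es * lam ≤ e * Real.log Q := by
    calc es * lam = e * (lam / (CA * K0)) := by rw [hes_def]; ring
      _ ≤ e * Real.log Q := mul_le_mul_of_nonneg_left hlQ he.le
  have hlamy : LN / (1 + y) ≤ lam := by
    rw [hlam_def]
    exact div_le_div_of_nonneg_left hLN0.le hlk0 hlky
  have h1y : 0 < 1 + y := by linarith
  have hpow : ∀ b : ℝ, LN ^ (1 - b) = LN * Real.exp (-(b * y)) := by
    intro b
    rw [sub_eq_add_neg, Real.rpow_add hLN0, Real.rpow_one, Real.rpow_def_of_pos hLN0, ← hy_def]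
    congr 2
    ring
  have hQ8 : (Real.log X) ^ (1 - δ / 8) ≤ Real.log Q := by
    have hLX0 : 0 ≤ Real.log X := by linarith
    have g1 : (Real.log X) ^ (1 - δ / 8) ≤ 2 * LN ^ (1 - δ / 8) := by
      calc (Real.log X) ^ (1 - δ / 8) ≤ (2 * LN) ^ (1 - δ / 8) :=
            Real.rpow_le_rpow hLX0 (by linarith) (by linarith)
        _ = 2 ^ (1 - δ / 8) * LN ^ (1 - δ / 8) := Real.mul_rpow (by norm_num) hLN0.le
        _ ≤ 2 ^ (1 : ℝ) * LN ^ (1 - δ / 8) := by
            refine mul_le_mul_of_nonneg_right ?_ (Real.rpow_nonneg hLN0.le _)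
            exact Real.rpow_le_rpow_of_exponent_le (by norm_num) (by linarith)
        _ = 2 * LN ^ (1 - δ / 8) := by rw [Real.rpow_one]
    refine g1.trans (le_trans ?_ hlQ)
    rw [hpow, le_div_iff₀ hCK]
    have g2 : Real.exp (-(δ / 8 * y)) * Real.exp (δ / 8 * y) = 1 := by
      rw [← Real.exp_add]; simp
    have g3 : 2 * (CA * K0) * (1 + y) * Real.exp (-(δ / 8 * y)) ≤ 1 := by
      calc 2 * (CA * K0) * (1 + y) * Real.exp (-(δ / 8 * y))
          ≤ Real.exp (δ / 8 * y) * Real.exp (-(δ / 8 * y)) :=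
            mul_le_mul_of_nonneg_right hb (Real.exp_pos _).le
        _ = 1 := by rw [mul_comm]; exact g2
    refine le_trans ?_ hlamy
    rw [le_div_iff₀ h1y]
    calc 2 * (LN * Real.exp (-(δ / 8 * y))) * (CA * K0) * (1 + y)
        = LN * (2 * (CA * K0) * (1 + y) * Real.exp (-(δ / 8 * y))) := by ring
      _ ≤ LN * 1 := mul_le_mul_of_nonneg_left g3 hLN0.le
      _ = LN := mul_one _
  have hklam : k * (c0 + 1) + 3 ≤ es / 32 * lam := by
    have g0 : k * (c0 + 1) + 3 ≤ k * (c0 + 4) := by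
      have g00 : (k : ℝ) * (c0 + 4) = k * (c0 + 1) + 3 * k := by ring
      rw [g00]
      linarith
    have g1 : k * (c0 + 4) ≤ LN * Real.exp (-(δ * y)) * (c0 + 4) := by
      rw [← hpow]
      exact mul_le_mul_of_nonneg_right hkN (by linarith)
    have g2 : (c0 + 4) * (1 + y) * Real.exp (-(δ * y)) ≤ es / 32 := by
      have g3 : (c0 + 4) * (1 + y) ≤ es / 32 * Real.exp (δ * y) := by
        calc (c0 + 4) * (1 + y) = es / 32 * ((c0 + 4) * (32 / es) * (1 + y)) := by
              field_simp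
          _ ≤ es / 32 * Real.exp (δ * y) := mul_le_mul_of_nonneg_left hc (by positivity)
      calc (c0 + 4) * (1 + y) * Real.exp (-(δ * y))
          ≤ es / 32 * Real.exp (δ * y) * Real.exp (-(δ * y)) :=
            mul_le_mul_of_nonneg_right g3 (Real.exp_pos _).le
        _ = es / 32 * (Real.exp (δ * y) * Real.exp (-(δ * y))) := by ring
        _ = es / 32 := by rw [← Real.exp_add]; simp
    have g4 : LN * Real.exp (-(δ * y)) * (c0 + 4) ≤ es / 32 * (LN / (1 + y)) := by
      rw [← mul_div_assoc, le_div_iff₀ h1y]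
      calc LN * Real.exp (-(δ * y)) * (c0 + 4) * (1 + y)
          = LN * ((c0 + 4) * (1 + y) * Real.exp (-(δ * y))) := by ring
        _ ≤ LN * (es / 32) := mul_le_mul_of_nonneg_left g2 hLN0.le
        _ = es / 32 * LN := by ring
    have g5 : es / 32 * (LN / (1 + y)) ≤ es / 32 * lam := mul_le_mul_of_nonneg_left hlamy (by positivity)
    linarith
  have hCk : C2 * k * (1 + y) ≤ es / 16 * lam := by
    have g1 : (16 * C2 / es) * (1 + y) ^ 2 ≤ Real.exp (δ * y) := by
      have g2 : (1 + 16 * C2 / es) ^ 2 * (1 + y) ^ 2 ≤ Real.exp (δ * y) := by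
        have g3 : ((1 + 16 * C2 / es) * (1 + y)) ^ 2 ≤ Real.exp (δ / 2 * y) ^ 2 :=
          pow_le_pow_left₀ (by positivity) hd 2
        rw [← Real.exp_nat_mul] at g3
        have g4 : ((2 : ℕ) : ℝ) * (δ / 2 * y) = δ * y := by push_cast; ring
        rw [g4] at g3
        calc (1 + 16 * C2 / es) ^ 2 * (1 + y) ^ 2 = ((1 + 16 * C2 / es) * (1 + y)) ^ 2 := by ring
          _ ≤ Real.exp (δ * y) := g3
      refine le_trans ?_ g2
      refine mul_le_mul_of_nonneg_right ?_ (sq_nonneg _)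
      exact hl15_sq hC2es
    have g5 : C2 * (1 + y) ^ 2 * Real.exp (-(δ * y)) ≤ es / 16 := by
      calc C2 * (1 + y) ^ 2 * Real.exp (-(δ * y))
          = es / 16 * ((16 * C2 / es) * (1 + y) ^ 2 * Real.exp (-(δ * y))) := by
            field_simp
        _ ≤ es / 16 * (Real.exp (δ * y) * Real.exp (-(δ * y))) :=
            mul_le_mul_of_nonneg_left (mul_le_mul_of_nonneg_right g1 (Real.exp_pos _).le) (by positivity)
        _ = es / 16 := by rw [← Real.exp_add]; simp
    have g6 : C2 * k * (1 + y) ≤ es / 16 * (LN / (1 + y)) := by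
      rw [← mul_div_assoc, le_div_iff₀ h1y]
      have g7 : (k : ℝ) ≤ LN * Real.exp (-(δ * y)) := by rw [← hpow]; exact hkN
      calc C2 * k * (1 + y) * (1 + y) = k * (C2 * (1 + y) ^ 2) := by ring
        _ ≤ (LN * Real.exp (-(δ * y))) * (C2 * (1 + y) ^ 2) :=
            mul_le_mul_of_nonneg_right g7 (by positivity)
        _ = LN * (C2 * (1 + y) ^ 2 * Real.exp (-(δ * y))) := by ring
        _ ≤ LN * (es / 16) := mul_le_mul_of_nonneg_left g5 hLN0.le
        _ = es / 16 * LN := by ring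
    exact g6.trans (mul_le_mul_of_nonneg_left hlamy (by positivity))
  have hE0 : 4 * k * (CA * Real.exp (-(K0 * lk / CA))) ≤ 1 := by
    have g1 : lk + Real.log (4 * CA) ≤ K0 * lk / CA := by
      rw [le_div_iff₀ (by linarith)]
      have g2 : lk + Real.log (4 * CA) ≤ (1 + Real.log (4 * CA) / Real.log 2) * lk := by
        have g3 : Real.log (4 * CA) ≤ Real.log (4 * CA) / Real.log 2 * lk := by
          rw [div_mul_eq_mul_div, le_div_iff₀ hl2]
          exact mul_le_mul_of_nonneg_left hlk2 h4CA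
        linarith
      calc (lk + Real.log (4 * CA)) * CA ≤ (1 + Real.log (4 * CA) / Real.log 2) * lk * CA :=
            mul_le_mul_of_nonneg_right g2 (by linarith)
        _ = CA * (1 + Real.log (4 * CA) / Real.log 2) * lk := by ring
        _ ≤ K0 * lk := mul_le_mul_of_nonneg_right hK0C hlk0.le
    have g4 : (k + 1) * (4 * CA) ≤ Real.exp (K0 * lk / CA) := by
      calc (k + 1) * (4 * CA) = Real.exp (lk + Real.log (4 * CA)) := by
            rw [Real.exp_add, hlk_def, Real.exp_log (by linarith), Real.exp_log (by linarith)]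
        _ ≤ Real.exp (K0 * lk / CA) := Real.exp_le_exp.2 g1
    have g5 : Real.exp (K0 * lk / CA) * Real.exp (-(K0 * lk / CA)) = 1 := by
      rw [← Real.exp_add]; simp
    have g6 : 4 * k * CA ≤ Real.exp (K0 * lk / CA) := hl15_a g4 hCA
    calc 4 * k * (CA * Real.exp (-(K0 * lk / CA))) = (4 * k * CA) * Real.exp (-(K0 * lk / CA)) := by ring
      _ ≤ Real.exp (K0 * lk / CA) * Real.exp (-(K0 * lk / CA)) :=
          mul_le_mul_of_nonneg_right g6 (Real.exp_pos _).le
      _ = 1 := g5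
  have hE00 : 0 ≤ CA * Real.exp (-(K0 * lk / CA)) := by positivity
  have hQpow : ∀ e' : ℝ, e ≤ e' → (Q : ℝ) ^ (-e') ≤ Real.exp (-(es * lam)) := by
    intro e' he'
    rw [Real.rpow_def_of_pos hQ0]
    apply Real.exp_le_exp.2
    have : e * Real.log Q ≤ e' * Real.log Q := mul_le_mul_of_nonneg_right he' hlQ0.le
    linarith
  have hexp4 : Real.exp (-(es * lam)) ≤ Real.exp (-(es / 8 * lam)) := by
    apply Real.exp_le_exp.2
    have : 0 < es * lam := by positivity
    linarith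
  have h3lam : 3 ≤ es / 32 * lam := by
    have : 0 ≤ k * (c0 + 1) := by positivity
    linarith
  have hkX : (k : ℝ) ≤ (Real.log X) ^ (1 - δ) :=
    hkN.trans (Real.rpow_le_rpow hLN0.le hLX1 (by linarith))
  have hXk : (0 : ℝ) ≤ (X : ℝ) ^ k := by positivity
  have hlog4 : Real.log 4 ≤ 2 := by
    have : Real.log 4 = 2 * Real.log 2 := by
      rw [show (4 : ℝ) = 2 ^ 2 by norm_num, Real.log_pow]
      norm_num
    linarith
  rw [← hLN_def, ← hlk_def, ← hlam_def]
  rcases hmdl with hm | ⟨r, hr, ψ, β, η, hψ1, hψ2, hψ3, hβ1, hβ2, hβ3, hη, hm⟩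
  · -- no exceptional character
    obtain ⟨Bad, hB1, hB2⟩ := h3a k Q X H 1 _ p0 (fun _ => 0) (hNX1.trans hXN) hk hkX
      (hreg.mono (by linarith) hK'1) hQ8 hX_def hm hE00 hE0 (by
        rw [one_pow, one_mul]
        have g1 : (4 : ℝ) * (Q : ℝ) ^ (-e1) ≤ Real.exp (Real.log 4) * Real.exp (-(es * lam)) := by
          rw [Real.exp_log (by norm_num)]
          exact mul_le_mul_of_nonneg_left (hQpow e1 hee1) (by norm_num)
        refine g1.trans ?_
        rw [← Real.exp_add]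
        apply Real.exp_le_exp.2
        have : 0 < es * lam := by positivity
        linarith [hklam])
    refine ⟨X, hXN, hX2N, Or.inl ⟨Bad, hB1, hB2.trans (mul_le_mul_of_nonneg_left ?_ hXk)⟩⟩
    refine (hQpow e1 hee1).trans (Real.exp_le_exp.2 ?_)
    have : 0 < es * lam := by positivity
    linarith
  · have hmem := hm.mem
    have hrQ : (r : ℝ) ≤ Q := by exact_mod_cast (mem_PC.mp hmem).2.1
    have hr0 : (0 : ℝ) < r := by exact_mod_cast (mem_PC.mp hmem).1
    have hQe : (Q : ℝ) ^ (-(e / 2)) ≤ Real.exp (-(es / 2 * lam)) := by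
      rw [Real.rpow_def_of_pos hQ0]
      apply Real.exp_le_exp.2
      have g0 : Real.log Q * -(e / 2) = -(e * Real.log Q / 2) := by ring
      rw [g0]
      linarith
    by_cases hrρ : (r : ℝ) ≤ (Q : ℝ) ^ (e / 2)
    · refine ⟨X, hXN, hX2N, Or.inr ⟨r, hr, ψ, hψ1, hψ2, hψ3, ?_, fun j hj1 hjk => ?_⟩⟩
      · -- `r ≤ N^(1/4)`
        have hH1 : 1 ≤ H := by
          rcases Nat.eq_zero_or_pos H with h0 | h0
          · rw [h0, zero_mul] at hX_def
            rw [hX_def] at hX0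
            simp at hX0
          · exact h0
        have g1 : (Q : ℝ) ^ 8 ≤ X := by
          have g2 : Q ^ 8 ≤ X := by
            rw [hX_def]
            exact Nat.le_mul_of_pos_left _ hH1
          exact_mod_cast g2
        have g3 : (2 : ℝ) ≤ N := by
          have g4 : Real.exp 1 ≤ N := by
            refine le_trans (Real.exp_le_exp.2 ?_) hNe
            have hY00 : 0 ≤ Y0 := by
              rw [hY0_def]
              exact le_trans (by linarith) (le_max_left _ _)
            exact Real.one_le_exp hY00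
          have g5 := Real.add_one_le_exp (1 : ℝ)
          linarith
        have g6 : (Q : ℝ) ^ 8 ≤ (N : ℝ) ^ 2 := by
          refine (g1.trans hX2Nr).trans ?_
          rw [pow_two]
          exact mul_le_mul_of_nonneg_right g3 hN0.le
        have g7 : (Q : ℝ) = ((Q : ℝ) ^ 8) ^ (1 / 8 : ℝ) := by
          rw [← Real.rpow_natCast, ← Real.rpow_mul hQ0.le]
          norm_num
        have g8 : ((N : ℝ) ^ 2) ^ (1 / 8 : ℝ) = (N : ℝ) ^ (1 / 4 : ℝ) := by
          rw [← Real.rpow_natCast, ← Real.rpow_mul hN0.le]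
          norm_num
        calc (r : ℝ) ≤ Q := hrQ
          _ = ((Q : ℝ) ^ 8) ^ (1 / 8 : ℝ) := g7
          _ ≤ ((N : ℝ) ^ 2) ^ (1 / 8 : ℝ) := Real.rpow_le_rpow (by positivity) g6 (by norm_num)
          _ = (N : ℝ) ^ (1 / 4 : ℝ) := g8
      · obtain ⟨Bad, hB1, hB2, hB3⟩ := h3c k j Q X H η _ ⟨r, ψ⟩ _ (hNX3.trans hXN) hj1 hjk hkX
          (hreg.mono (by linarith) hK'3) hQ8 hX_def hm hE00 hE0 (by
            have g1 : (4 : ℝ) * r * (Q : ℝ) ^ (-e3) ≤ 4 * (Q : ℝ) ^ (-(e / 2)) := by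
              have g2 : (Q : ℝ) ^ (-e3) ≤ (Q : ℝ) ^ (-e) :=
                Real.rpow_le_rpow_of_exponent_le (by exact_mod_cast hQ1) (by linarith)
              have g3 : (Q : ℝ) ^ (e / 2) * (Q : ℝ) ^ (-e) = (Q : ℝ) ^ (-(e / 2)) := by
                rw [← Real.rpow_add hQ0]
                congr 1
                ring
              calc (4 : ℝ) * r * (Q : ℝ) ^ (-e3) = 4 * (r * (Q : ℝ) ^ (-e3)) := by ring
                _ ≤ 4 * ((Q : ℝ) ^ (e / 2) * (Q : ℝ) ^ (-e)) := by
                    refine mul_le_mul_of_nonneg_left ?_ (by norm_num)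
                    exact mul_le_mul hrρ g2 (Real.rpow_nonneg hQ0.le _) (Real.rpow_nonneg hQ0.le _)
                _ = 4 * (Q : ℝ) ^ (-(e / 2)) := by rw [g3]
            refine g1.trans ?_
            have g4 : (4 : ℝ) * (Q : ℝ) ^ (-(e / 2)) ≤ Real.exp (Real.log 4) * Real.exp (-(es / 2 * lam)) := by
              rw [Real.exp_log (by norm_num)]
              exact mul_le_mul_of_nonneg_left hQe (by norm_num)
            refine g4.trans ?_
            rw [← Real.exp_add]
            apply Real.exp_le_exp.2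
            have : 0 < es * lam := by positivity
            linarith [hklam])
        refine ⟨Bad, hB1, hB2.trans (mul_le_mul_of_nonneg_left ?_ hXk), hB3⟩
        have g1 : (2 : ℝ) ^ k ≤ Real.exp k := by
          have g2 : (2 : ℝ) ≤ Real.exp 1 := by
            have := Real.add_one_le_exp (1 : ℝ)
            linarith
          calc (2 : ℝ) ^ k ≤ Real.exp 1 ^ k := pow_le_pow_left₀ (by norm_num) g2 k
            _ = Real.exp k := by rw [← Real.exp_nat_mul, mul_one]
        calc (2 : ℝ) ^ k * (Q : ℝ) ^ (-e3) ≤ Real.exp k * Real.exp (-(es * lam)) :=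
              mul_le_mul g1 (hQpow e3 hee3) (Real.rpow_nonneg hQ0.le _) (Real.exp_pos _).le
          _ = Real.exp (k + -(es * lam)) := by rw [← Real.exp_add]
          _ ≤ Real.exp (-(es / 32 * lam)) := by
              apply Real.exp_le_exp.2
              have g3 : (k : ℝ) ≤ k * (c0 + 1) := le_mul_of_one_le_right (by linarith) (by linarith)
              have : 0 < es * lam := by positivity
              linarith
    · obtain ⟨Bad, hB1, hB2⟩ := h3b k Q X H η _ ⟨r, ψ⟩ _ (hNX2.trans hXN) hk hkX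
        (hreg.mono (by linarith) hK'2) hQ8 hX_def hm hE00 hE0 (by
          have g1 : (8 : ℝ) * (Q : ℝ) ^ (-e2) ≤ Real.exp (Real.log 8) * Real.exp (-(es * lam)) := by
            rw [Real.exp_log (by norm_num)]
            exact mul_le_mul_of_nonneg_left (hQpow e2 hee2) (by norm_num)
          refine g1.trans ?_
          rw [← Real.exp_add]
          apply Real.exp_le_exp.2
          have hlog8 : Real.log 8 ≤ 3 := by
            have : Real.log 8 = 3 * Real.log 2 := by
              rw [show (8 : ℝ) = 2 ^ 3 by norm_num, Real.log_pow]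
              norm_num
            linarith
          have : 0 < es * lam := by positivity
          linarith [hklam])
      refine ⟨X, hXN, hX2N, Or.inl ⟨Bad, hB1, hB2.trans (mul_le_mul_of_nonneg_left ?_ hXk)⟩⟩
      have hLX0 : 0 < Real.log X := by linarith
      have g1 : (Real.log X) ^ (C2 * k) ≤ Real.exp (es / 16 * lam) := by
        rw [Real.rpow_def_of_pos hLX0]
        apply Real.exp_le_exp.2
        have g2 : Real.log (Real.log X) ≤ 1 + y := by
          calc Real.log (Real.log X) ≤ Real.log (2 * LN) := Real.log_le_log hLX0 (by linarith)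
            _ = Real.log 2 + y := by rw [Real.log_mul (by norm_num) hLN0.ne', hy_def]
            _ ≤ 1 + y := by linarith
        calc Real.log (Real.log X) * (C2 * k) ≤ (1 + y) * (C2 * k) :=
              mul_le_mul_of_nonneg_right g2 (by positivity)
          _ = C2 * k * (1 + y) := by ring
          _ ≤ es / 16 * lam := hCk
      have g2 : ((⟨r, ψ⟩ : Ch).1 : ℝ) ^ (-(1 / 2) : ℝ) ≤ Real.exp (-(es / 4 * lam)) := by
        have g3 : ((⟨r, ψ⟩ : Ch).1 : ℝ) ^ (-(1 / 2) : ℝ) ≤ ((Q : ℝ) ^ (e / 2)) ^ (-(1 / 2) : ℝ) :=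
          Real.rpow_le_rpow_of_nonpos (Real.rpow_pos_of_pos hQ0 _) (not_le.1 hrρ).le (by norm_num)
        refine g3.trans ?_
        rw [← Real.rpow_mul hQ0.le, Real.rpow_def_of_pos hQ0]
        apply Real.exp_le_exp.2
        have g0 : Real.log Q * (e / 2 * -(1 / 2)) = -(e * Real.log Q / 4) := by ring
        rw [g0]
        linarith
      have g3 : (Real.log X) ^ (C2 * k) * ((⟨r, ψ⟩ : Ch).1 : ℝ) ^ (-(1 / 2) : ℝ) ≤
          Real.exp (-(es / 8 * lam)) := by
        calc (Real.log X) ^ (C2 * k) * ((⟨r, ψ⟩ : Ch).1 : ℝ) ^ (-(1 / 2) : ℝ)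
            ≤ Real.exp (es / 16 * lam) * Real.exp (-(es / 4 * lam)) :=
              mul_le_mul g1 g2 (Real.rpow_nonneg (Nat.cast_nonneg _) _) (Real.exp_pos _).le
          _ = Real.exp (es / 16 * lam + -(es / 4 * lam)) := by rw [← Real.exp_add]
          _ ≤ Real.exp (-(es / 8 * lam)) := by
              apply Real.exp_le_exp.2
              have : 0 < es * lam := by positivity
              linarith
      have g4 := (hQpow e2 hee2).trans hexp4
      have g5 : 2 * Real.exp (-(es / 8 * lam)) ≤ Real.exp (-(es / 32 * lam)) := by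
        have g6 : (2 : ℝ) ≤ Real.exp 1 := by
          have := Real.add_one_le_exp (1 : ℝ)
          linarith
        calc 2 * Real.exp (-(es / 8 * lam)) ≤ Real.exp 1 * Real.exp (-(es / 8 * lam)) :=
              mul_le_mul_of_nonneg_right g6 (Real.exp_pos _).le
          _ = Real.exp (1 + -(es / 8 * lam)) := by rw [← Real.exp_add]
          _ ≤ Real.exp (-(es / 32 * lam)) := by
              apply Real.exp_le_exp.2
              linarith
      linarith

end Pool.Agent.Lib.H59P
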