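import Pool.Agent.Lib.H59P.HL15
import Pool.Agent.Lib.H59P.HL10
import Pool.Agent.Lib.H59P.Y9

/-!
# Project H59P, chunk HL16: sets with few primes in all translates
-/

open Finset

namespace Pool.Agent.Lib.H59P

open Pool.Agent.Lib.H68T Pool.Agent.Lib.H18Q

open Classical in
/-- **HL16A.** The sets which are bad for the analytic part. Proof. As `Y8`: `SETS_tuples` with `H = N - 1` and
`P A = Admissible A ∧ (∃ n0, (1/2-ε) k ≤ mnA ψ n0 A) ∧ ¬ HasMany x (1/2-ε) A`; an injective tuple `a` with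
`P (image a)` is in `Bad`: else take `n0`, the set of the indices with `ψ(n0 + a_i) = -1` has `mnA ≥ (1/2-ε) k`
elements, hence at least `j`; choose a subset `S` with `j` elements; the `n ∈ [X, 2X)` with `n + a_i` prime for
`i ∈ S` gives `HasMany x (1/2-ε) (image a)` (`j ≥ (1/2-ε) k`, `n ≤ 2X ≤ 4N ≤ x`). -/
theorem HL16A (x ε : ℝ) (N X k j r : ℕ) [NeZero r] (ψ : DirichletCharacter ℂ r) (hN : 1 ≤ N)
    (hNX : N ≤ X) (hX : X ≤ 2 * N) (hx : 4 * (N : ℝ) ≤ x) (hj : j = ⌈(1 / 2 - ε) * k⌉₊)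
    (Bad : Finset (Fin k → ℕ))
    (hB : ∀ h ∈ bx k X, h ∉ Bad → Adm h → ∀ (n0 : ℕ) (S : Finset (Fin k)), S.card = j →
        (∀ i ∈ S, ψ ((n0 + h i : ℕ) : ZMod r) = -1) → ∃ n ∈ Ico X (2 * X), ∀ i ∈ S, (n + h i).Prime)
    (σ : ℝ) (hσ : (Bad.card : ℝ) ≤ (X : ℝ) ^ k * σ) (hσ0 : 0 ≤ σ) :
    (k.factorial : ℝ) * ((((range N).powersetCard k).filter (fun A => Admissible A ∧
      (∃ n0 : ℕ, (1 / 2 - ε) * k ≤ (mnA ψ n0 A : ℝ)) ∧ ¬ HasMany x (1 / 2 - ε) A)).card : ℝ) ≤
        2 ^ k * (N : ℝ) ^ k * σ := by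
  classical
  have hT := SETS_tuples k (N - 1) (fun A => Admissible A ∧
    (∃ n0 : ℕ, (1 / 2 - ε) * k ≤ (mnA ψ n0 A : ℝ)) ∧ ¬ HasMany x (1 / 2 - ε) A)
  have hN1 : N - 1 + 1 = N := by omega
  rw [hN1] at hT
  have hsub : (SETS_Om k (N - 1)).filter (fun a => Function.Injective a ∧
      (Admissible (univ.image a) ∧ (∃ n0 : ℕ, (1 / 2 - ε) * k ≤ (mnA ψ n0 (univ.image a) : ℝ)) ∧
        ¬ HasMany x (1 / 2 - ε) (univ.image a))) ⊆ Bad := by
    intro a ha
    rw [mem_filter] at ha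
    obtain ⟨h1, hinj, h3, ⟨n0, hn0⟩, h4⟩ := ha
    unfold SETS_Om at h1
    rw [Fintype.mem_piFinset] at h1
    have hbx : a ∈ bx k X := by
      unfold bx
      rw [Fintype.mem_piFinset]
      intro i
      have := mem_range.mp (h1 i)
      rw [mem_range]
      omega
    by_contra hBad
    set T : Finset (Fin k) := univ.filter (fun i => ψ ((n0 + a i : ℕ) : ZMod r) = -1) with hTdef
    have hTc : mnA ψ n0 (univ.image a) = T.card := by
      unfold mnA
      rw [Finset.filter_image, card_image_of_injective _ hinj]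
    have hjT : j ≤ T.card := by
      rw [hj]
      apply Nat.ceil_le.2
      rw [← hTc]
      exact hn0
    obtain ⟨S, hST, hSc⟩ := Finset.exists_subset_card_eq hjT
    obtain ⟨n, hn, hp⟩ := hB a hbx hBad ((Y8a a).mpr h3) n0 S hSc (fun i hi =>
      (mem_filter.1 (hST hi)).2)
    rw [mem_Ico] at hn
    refine h4 ⟨n, by omega, ?_, ?_⟩
    · have h5 : (n : ℝ) < 2 * X := by exact_mod_cast hn.2
      have h6 : (X : ℝ) ≤ 2 * N := by exact_mod_cast hX
      linarith
    · have h5 : (univ.image a).card = k := by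
        rw [card_image_of_injective _ hinj, card_univ, Fintype.card_fin]
      have h6 : S.image a ⊆ (univ.image a).filter (fun b => (n + b).Prime) := by
        intro b hb
        rw [mem_image] at hb
        obtain ⟨i, hi, rfl⟩ := hb
        rw [mem_filter]
        exact ⟨mem_image_of_mem _ (mem_univ _), hp i hi⟩
      have h7 := card_le_card h6
      rw [card_image_of_injective _ hinj, hSc] at h7
      rw [h5]
      calc (1 / 2 - ε) * k ≤ (j : ℝ) := by rw [hj]; exact Nat.le_ceil _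
        _ ≤ _ := by exact_mod_cast h7
  have h5 := card_le_card hsub
  have h6 : k.factorial * (((range N).powersetCard k).filter (fun A => Admissible A ∧
      (∃ n0 : ℕ, (1 / 2 - ε) * k ≤ (mnA ψ n0 A : ℝ)) ∧ ¬ HasMany x (1 / 2 - ε) A)).card ≤ Bad.card := by
    refine le_trans (le_of_eq ?_) h5
    refine Eq.trans ?_ (hT.symm.trans ?_)
    · congr
    · congr
  have h7 : (k.factorial : ℝ) * ((((range N).powersetCard k).filter (fun A => Admissible A ∧
      (∃ n0 : ℕ, (1 / 2 - ε) * k ≤ (mnA ψ n0 A : ℝ)) ∧ ¬ HasMany x (1 / 2 - ε) A)).card : ℝ) ≤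
      (Bad.card : ℝ) := by
    exact_mod_cast h6
  refine h7.trans (hσ.trans ?_)
  have h8 : (X : ℝ) ≤ 2 * N := by exact_mod_cast hX
  have h9 : (X : ℝ) ^ k ≤ (2 * (N : ℝ)) ^ k := pow_le_pow_left₀ (by positivity) h8 k
  rw [mul_pow] at h9
  exact mul_le_mul_of_nonneg_right h9 hσ0

/-- `A log(y+1) ≤ y^s` for large `y`. -/
theorem hl16_log (A s : ℝ) (hA : 0 ≤ A) (hs : 0 < s) :
    ∀ᶠ y : ℝ in Filter.atTop, 3 ≤ y ∧ A * Real.log (y + 1) ≤ y ^ s := by
  have h0 := (isLittleO_log_rpow_atTop hs).bound (c := (2 * A + 1)⁻¹) (by positivity)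
  filter_upwards [h0, Filter.eventually_ge_atTop (3 : ℝ)] with y h1 h3
  refine ⟨h3, ?_⟩
  have hy : 0 < y := by linarith
  have hly : 0 ≤ Real.log y := Real.log_nonneg (by linarith)
  rw [Real.norm_of_nonneg hly, Real.norm_of_nonneg (Real.rpow_nonneg hy.le _)] at h1
  have hl2 : Real.log (y + 1) ≤ 2 * Real.log y := by
    have h4 : Real.log (y ^ 2) = 2 * Real.log y := by rw [Real.log_pow]; norm_num
    rw [← h4]
    exact Real.log_le_log (by linarith) (by nlinarith)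
  have h2A : 0 < 2 * A + 1 := by linarith
  have h5 : (2 * A + 1) * Real.log y ≤ y ^ s := by
    have h6 := mul_le_mul_of_nonneg_left h1 h2A.le
    rw [← mul_assoc, mul_inv_cancel₀ h2A.ne', one_mul] at h6
    exact h6
  calc A * Real.log (y + 1) ≤ A * (2 * Real.log y) := mul_le_mul_of_nonneg_left hl2 hA
    _ ≤ (2 * A + 1) * Real.log y := by nlinarith
    _ ≤ y ^ s := h5

/-- The asymptotic conditions on `y = log x`. -/
theorem hl16_ev (A c b δ' : ℝ) (hA : 0 ≤ A) (hc : 0 < c) (hb : 0 < b) (hδ' : 0 < δ') :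
    ∀ᶠ y : ℝ in Filter.atTop, 3 ≤ y ∧ 1 ≤ b * y ^ (δ' / 2) ∧
      A * (y ^ (1 - δ') * Real.log y * Real.log (y + 1)) ≤ 3 * c * y ∧
      11 * (y ^ (1 - δ') * Real.log (y + 1)) ≤ 3 / 4 * (b * y) := by
  filter_upwards [(tendsto_rpow_atTop (show 0 < δ' / 2 by positivity)).eventually
      (Filter.eventually_ge_atTop (1 / b)),
    hl16_log (1 + A / (3 * c)) (δ' / 2) (by positivity) (by positivity),
    hl16_log (15 / b) δ' (by positivity) (by positivity)] with y h1 h2 h3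
  obtain ⟨hy3, h2⟩ := h2
  obtain ⟨-, h3⟩ := h3
  have hy : 0 < y := by linarith
  have hly : 0 ≤ Real.log y := Real.log_nonneg (by linarith)
  have hly1 : 0 ≤ Real.log (y + 1) := Real.log_nonneg (by linarith)
  have hlyl : Real.log y ≤ Real.log (y + 1) := Real.log_le_log hy (by linarith)
  have hp0 : 0 ≤ y ^ (1 - δ') := Real.rpow_nonneg hy.le _
  have hq0 : 0 ≤ y ^ (δ' / 2) := Real.rpow_nonneg hy.le _
  refine ⟨hy3, ?_, ?_, ?_⟩
  · have h4 := mul_le_mul_of_nonneg_left h1 hb.le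
    rw [mul_one_div_cancel hb.ne'] at h4
    exact h4
  · have hAc : 0 ≤ A / (3 * c) := by positivity
    have h4 : Real.log (y + 1) ≤ y ^ (δ' / 2) := by
      have h5 : Real.log (y + 1) ≤ (1 + A / (3 * c)) * Real.log (y + 1) :=
        le_mul_of_one_le_left hly1 (by linarith)
      exact h5.trans h2
    have h5 : A / (3 * c) * Real.log y ≤ y ^ (δ' / 2) := by
      have h6 : A / (3 * c) * Real.log y ≤ (1 + A / (3 * c)) * Real.log (y + 1) :=
        mul_le_mul (by linarith) hlyl hly (by linarith)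
      exact h6.trans h2
    have h6 : A * Real.log y ≤ 3 * c * y ^ (δ' / 2) := by
      have h7 := mul_le_mul_of_nonneg_left h5 (show 0 ≤ 3 * c by positivity)
      have h8 : 3 * c * (A / (3 * c) * Real.log y) = A * Real.log y := by
        field_simp
      rw [h8] at h7
      exact h7
    have h9 : y ^ (1 - δ') * y ^ (δ' / 2) * y ^ (δ' / 2) = y := by
      rw [← Real.rpow_add hy, ← Real.rpow_add hy]
      have : (1 - δ' + δ' / 2 + δ' / 2 : ℝ) = 1 := by ring
      rw [this, Real.rpow_one]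
    calc A * (y ^ (1 - δ') * Real.log y * Real.log (y + 1)) =
          y ^ (1 - δ') * ((A * Real.log y) * Real.log (y + 1)) := by ring
      _ ≤ y ^ (1 - δ') * ((3 * c * y ^ (δ' / 2)) * y ^ (δ' / 2)) := by
          apply mul_le_mul_of_nonneg_left _ hp0
          exact mul_le_mul h6 h4 hly1 (by positivity)
      _ = 3 * c * (y ^ (1 - δ') * y ^ (δ' / 2) * y ^ (δ' / 2)) := by ring
      _ = 3 * c * y := by rw [h9]
  · have h4 : 15 * Real.log (y + 1) ≤ b * y ^ δ' := by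
      have h5 := mul_le_mul_of_nonneg_left h3 hb.le
      have h6 : b * (15 / b * Real.log (y + 1)) = 15 * Real.log (y + 1) := by
        field_simp
      rw [h6] at h5
      exact h5
    have h9 : y ^ (1 - δ') * y ^ δ' = y := by
      rw [← Real.rpow_add hy]
      have : (1 - δ' + δ' : ℝ) = 1 := by ring
      rw [this, Real.rpow_one]
    calc 11 * (y ^ (1 - δ') * Real.log (y + 1)) ≤ y ^ (1 - δ') * (3 / 4 * (15 * Real.log (y + 1))) := by
          nlinarith [mul_nonneg hp0 hly1]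
      _ ≤ y ^ (1 - δ') * (3 / 4 * (b * y ^ δ')) := by
          apply mul_le_mul_of_nonneg_left _ hp0
          linarith
      _ = 3 / 4 * (b * (y ^ (1 - δ') * y ^ δ')) := by ring
      _ = 3 / 4 * (b * y) := by rw [h9]

/-- Sets with few primes in all translates are bad. -/
theorem hl16_sub (x δ θ : ℝ) (k : ℕ) (hθ : θ ≤ 1) : fewS x δ θ k ⊆ bad x δ k := by
  classical
  intro A hA
  unfold fewS at hA
  rw [mem_filter] at hA
  obtain ⟨h1, h2⟩ := hA
  unfold adm at h1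
  rw [mem_filter] at h1
  unfold bad
  rw [mem_filter]
  refine ⟨h1.1, h1.2, ?_⟩
  rintro ⟨n, hn1, hnz, hp⟩
  apply h2
  refine ⟨n, hn1, hnz, ?_⟩
  have h3 : A.filter (fun a => (n + a).Prime) = A := Finset.filter_true_of_mem hp
  rw [h3]
  have h4 : (0 : ℝ) ≤ A.card := Nat.cast_nonneg _
  nlinarith

open Classical in
/-- The decomposition of the sets with few primes. -/
theorem hl16_union (x δ ε : ℝ) (k r : ℕ) [NeZero r] (ψ : DirichletCharacter ℂ r) :
    (fewS x δ (1 / 2 - ε) k).card ≤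
      (((range (⌊x ^ (1 - δ)⌋₊ + 1)).powersetCard k).filter (fun A => Admissible A ∧
        (∃ n0 : ℕ, (1 / 2 - ε) * k ≤ (mnA ψ n0 A : ℝ)) ∧ ¬ HasMany x (1 / 2 - ε) A)).card +
      (((range (⌊x ^ (1 - δ)⌋₊ + 1)).powersetCard k).filter (fun A => Admissible A ∧
        ∀ n : ℕ, (mnA ψ n A : ℝ) < (1 / 2 - ε) * k)).card := by
  refine le_trans (card_le_card ?_) (card_union_le _ _)
  intro A hA
  unfold fewS at hA
  rw [mem_filter] at hA
  obtain ⟨h1, h2⟩ := hA
  unfold adm at h1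
  rw [mem_filter] at h1
  rw [mem_union, mem_filter, mem_filter]
  by_cases h3 : ∃ n0 : ℕ, (1 / 2 - ε) * k ≤ (mnA ψ n0 A : ℝ)
  · exact Or.inl ⟨h1.1, h1.2, h3, h2⟩
  · push Not at h3
    exact Or.inr ⟨h1.1, h1.2, h3⟩

/-- The size condition of the counts. -/
theorem hl16_size (k r N : ℕ) (hk : 1 ≤ k) (hN : 1 ≤ N) (hr : (r : ℝ) ≤ (N : ℝ) ^ (1 / 4 : ℝ)) (ℓ : ℝ)
    (hℓ : 1 ≤ ℓ) (hkℓ : Real.log k ≤ ℓ) (h : 11 * (k * ℓ) ≤ 3 / 4 * Real.log N) :
    (100 * k ^ 2 * (r * 4 ^ k) : ℝ) * (k : ℝ) ^ k * Real.exp k ≤ N := by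
  have hk1 : (1 : ℝ) ≤ k := by exact_mod_cast hk
  have hk0 : (0 : ℝ) < k := by linarith
  have hN1 : (1 : ℝ) ≤ N := by exact_mod_cast hN
  have hN0 : (0 : ℝ) < N := by linarith
  have hlk : 0 ≤ Real.log k := Real.log_nonneg hk1
  have h1 : (100 * (k : ℝ) ^ 2 * 4 ^ k) * (k : ℝ) ^ k * Real.exp k ≤ (N : ℝ) ^ (3 / 4 : ℝ) := by
    have e1 : (100 * (k : ℝ) ^ 2 * 4 ^ k) * (k : ℝ) ^ k * Real.exp k =
        Real.exp (Real.log 100 + 2 * Real.log k + k * Real.log 4 + k * Real.log k + k) := by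
      rw [Real.exp_add, Real.exp_add, Real.exp_add, Real.exp_add, Real.exp_log (by norm_num),
        mul_comm (2 : ℝ) (Real.log k), Real.exp_mul, Real.exp_log hk0, mul_comm (k : ℝ) (Real.log 4),
        Real.exp_mul, Real.exp_log (by norm_num), mul_comm (k : ℝ) (Real.log k), Real.exp_mul,
        Real.exp_log hk0, Real.rpow_natCast, Real.rpow_natCast, Real.rpow_two]
    rw [e1, Real.rpow_def_of_pos hN0]
    apply Real.exp_le_exp.2
    have hl100 : Real.log 100 ≤ 5 := by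
      have h2 : Real.log 100 ≤ Real.log (Real.exp 5) := by
        apply Real.log_le_log (by norm_num)
        have h3 := Real.exp_one_gt_d9
        have h4 : Real.exp 5 = Real.exp 1 ^ 5 := by rw [← Real.exp_nat_mul]; norm_num
        rw [h4]
        have h5 : (2.7 : ℝ) ^ 5 ≤ Real.exp 1 ^ 5 := pow_le_pow_left₀ (by norm_num) (by linarith) 5
        have h6 : (100 : ℝ) ≤ 2.7 ^ 5 := by norm_num
        linarith
      rwa [Real.log_exp] at h2
    have hl4 : Real.log 4 ≤ 3 / 2 := by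
      have h5 : Real.log 4 = 2 * Real.log 2 := by
        rw [show (4 : ℝ) = 2 ^ 2 by norm_num, Real.log_pow]
        norm_num
      have h6 := Real.log_two_lt_d9
      rw [h5]
      linarith
    have hkl1 : 1 ≤ k * ℓ := by nlinarith
    have hkl2 : ℓ ≤ k * ℓ := by nlinarith
    have hkl3 : (k : ℝ) ≤ k * ℓ := by nlinarith
    have h7 : (k : ℝ) * Real.log 4 ≤ 3 / 2 * (k * ℓ) := by nlinarith
    have h8 : (k : ℝ) * Real.log k ≤ k * ℓ := mul_le_mul_of_nonneg_left hkℓ hk0.le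
    linarith
  have h2 : (N : ℝ) ^ (1 / 4 : ℝ) * (N : ℝ) ^ (3 / 4 : ℝ) = N := by
    rw [← Real.rpow_add hN0]
    norm_num
  calc (100 * k ^ 2 * (r * 4 ^ k) : ℝ) * (k : ℝ) ^ k * Real.exp k =
        r * ((100 * (k : ℝ) ^ 2 * 4 ^ k) * (k : ℝ) ^ k * Real.exp k) := by ring
    _ ≤ (N : ℝ) ^ (1 / 4 : ℝ) * (N : ℝ) ^ (3 / 4 : ℝ) := mul_le_mul hr h1 (by positivity) (by positivity)
    _ = N := h2

/-- **HL16.** Proof. `N = ⌊x^(1-δ)⌋₊ + 1`, `4 N ≤ x`, `k ≤ (log x)^(1-δ') ≤ (log N)^(1-δ'/2)`; `HL15` with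
`δ'/2`, its constant `ε1`. First alternative: `Y9` with `δ'/2` (a set with a prime translate satisfies
`HasMany x (1/2-ε)`, so `fewS ⊆ bad`). Second: `j = ⌈(1/2-ε) k⌉₊`, `1 ≤ j ≤ k`. The sets of `fewS` either satisfy
`∀ n, mnA ψ n A < (1/2-ε) k`: `HL10A` with `H + 1 = N` (`r ≤ N^(1/4)`, so the size condition holds for `x` large:
`k log k = o(log N)`); or they are counted by `HL16A`, and `N^k ≤ (log N)^(C k) k! #adm` (`TCount`), so their
proportion is at most `2^k (log N)^(C k) exp (-ε1 log N/log(k+1)) ≤ exp (-c log x/log(k+1))`,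
`c = ε1 (1-δ)/4`. -/
theorem HL16 (hF : FMain) (hT : TMain) (hA : AMain) (c0 : ℝ) (hc0 : 0 ≤ c0) (hlow : TLow c0)
    (hC : TCount) (δ δ' ε : ℝ) (hδ : 0 < δ) (hδ1 : δ < 1) (hδ' : 0 < δ') (hδ1' : δ' < 1) (hε : 0 < ε)
    (hε1 : ε < 1 / 2) :
    ∃ c x0 : ℝ, 0 < c ∧ ∀ x : ℝ, x0 ≤ x → ∀ k : ℕ, 1 ≤ k → (k : ℝ) ≤ (Real.log x) ^ (1 - δ') →
      ((fewS x δ (1 / 2 - ε) k).card : ℝ) ≤ (2 * ((k + 1) * Real.exp (-(ε ^ 2 * k))) +
        Real.exp (-(c * (Real.log x / Real.log (k + 1))))) * ((adm x δ k).card : ℝ) := by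
  classical
  obtain ⟨ε1, hε1', N1, H15⟩ := HL15 hF hT hA c0 hc0 hlow (δ' / 2) (by positivity) (by linarith)
  obtain ⟨C9, hC9, H9⟩ := Y9 hC
  obtain ⟨x9, H9'⟩ := H9 δ (δ' / 2) hδ hδ1 (by positivity) (by linarith)
  obtain ⟨C1, hC1, HC⟩ := hC
  obtain ⟨N2, HC'⟩ := HC (δ' / 2) (by positivity) (by linarith)
  set c := ε1 * (1 - δ) / 4 with hcdef
  have hd : 0 < 1 - δ := by linarith
  have hc : 0 < c := by positivity
  set A := C9 + C1 + 1 with hAdef
  have hev : ∀ᶠ x : ℝ in Filter.atTop, x9 ≤ x ∧ (((N1 + N2 : ℕ) : ℝ)) ≤ x ^ (1 - δ) ∧ 8 ≤ x ^ δ ∧ 8 ≤ x ∧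
      (3 ≤ Real.log x ∧ 1 ≤ (1 - δ) * (Real.log x) ^ (δ' / 2) ∧
      A * ((Real.log x) ^ (1 - δ') * Real.log (Real.log x) * Real.log (Real.log x + 1)) ≤
        3 * c * Real.log x ∧
      11 * ((Real.log x) ^ (1 - δ') * Real.log (Real.log x + 1)) ≤ 3 / 4 * ((1 - δ) * Real.log x)) := by
    filter_upwards [Filter.eventually_ge_atTop x9,
      (tendsto_rpow_atTop hd).eventually (Filter.eventually_ge_atTop (((N1 + N2 : ℕ) : ℝ))),
      (tendsto_rpow_atTop hδ).eventually (Filter.eventually_ge_atTop 8),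
      Filter.eventually_ge_atTop (8 : ℝ),
      Real.tendsto_log_atTop.eventually (hl16_ev A c (1 - δ) δ' (by linarith) hc hd hδ')] with x h1 h2 h3 h4 h5
    exact ⟨h1, h2, h3, h4, h5⟩
  obtain ⟨x0, hx0⟩ := Filter.eventually_atTop.1 hev
  refine ⟨c, x0, hc, ?_⟩
  intro x hx k hk hkx
  obtain ⟨g1, g2, g3, g4, g5, g6, g7, g8⟩ := hx0 x hx
  have hxp : 0 < x := by linarith
  set y := Real.log x with hy
  have hyp : 0 < y := by linarith
  have hk1 : (1 : ℝ) ≤ k := by exact_mod_cast hk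
  have hk0 : (0 : ℝ) < k := by linarith
  have hlk : 0 < Real.log (k + 1) := Real.log_pos (by linarith)
  have hxpos : 0 < x ^ (1 - δ) := Real.rpow_pos_of_pos hxp _
  have hprod : x ^ (1 - δ) * x ^ δ = x := by
    rw [← Real.rpow_add hxp]
    simp
  have h8x : 8 * x ^ (1 - δ) ≤ x := by nlinarith
  set N := ⌊x ^ (1 - δ)⌋₊ + 1 with hN
  have hNle : (N : ℝ) ≤ x ^ (1 - δ) + 1 := by
    rw [hN]
    push_cast
    have := Nat.floor_le hxpos.le
    linarith
  have hNgt : x ^ (1 - δ) < N := by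
    rw [hN]
    push_cast
    exact Nat.lt_floor_add_one _
  have h4N : 4 * (N : ℝ) ≤ x := by linarith
  have hN1 : 1 ≤ N := by omega
  have hN12 : N1 + N2 ≤ N := by
    have : (((N1 + N2 : ℕ) : ℝ)) ≤ N := by linarith
    exact_mod_cast this
  have hNr : (1 : ℝ) ≤ N := by exact_mod_cast hN1
  have hNp : (0 : ℝ) < N := by linarith
  have hNx : (N : ℝ) ≤ x := by linarith
  set L := Real.log (N : ℝ) with hL
  have hLy : L ≤ y := Real.log_le_log hNp hNx
  have hyL : (1 - δ) * y ≤ L := by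
    rw [hy, ← Real.log_rpow hxp]
    exact Real.log_le_log hxpos hNgt.le
  have hLp : 0 < L := lt_of_lt_of_le (by positivity) hyL
  have hkL : (k : ℝ) ≤ L ^ (1 - δ' / 2) := by
    have h1 : ((1 - δ) * y) ^ (1 - δ' / 2) ≤ L ^ (1 - δ' / 2) :=
      Real.rpow_le_rpow (by positivity) hyL (by linarith)
    refine le_trans ?_ h1
    rw [Real.mul_rpow hd.le hyp.le]
    have h2 : 1 - δ ≤ (1 - δ) ^ (1 - δ' / 2) := by
      calc 1 - δ = (1 - δ) ^ (1 : ℝ) := (Real.rpow_one _).symm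
        _ ≤ (1 - δ) ^ (1 - δ' / 2) :=
          Real.rpow_le_rpow_of_exponent_ge hd (by linarith) (by linarith)
    have h3 : y ^ (1 - δ' / 2) = y ^ (δ' / 2) * y ^ (1 - δ') := by
      rw [← Real.rpow_add hyp]
      congr 1
      ring
    have h4 : 0 ≤ y ^ (1 - δ') := Real.rpow_nonneg hyp.le _
    have h5 : 0 ≤ y ^ (1 - δ' / 2) := Real.rpow_nonneg hyp.le _
    calc (k : ℝ) ≤ 1 * y ^ (1 - δ') := by rw [one_mul]; exact hkx
      _ ≤ ((1 - δ) * y ^ (δ' / 2)) * y ^ (1 - δ') := mul_le_mul_of_nonneg_right g6 h4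
      _ = (1 - δ) * y ^ (1 - δ' / 2) := by rw [h3]; ring
      _ ≤ (1 - δ) ^ (1 - δ' / 2) * y ^ (1 - δ' / 2) := mul_le_mul_of_nonneg_right h2 h5
  have hky : (k : ℝ) ≤ y := by
    refine hkx.trans ?_
    calc y ^ (1 - δ') ≤ y ^ (1 : ℝ) := Real.rpow_le_rpow_of_exponent_le (by linarith) (by linarith)
      _ = y := Real.rpow_one y
  have hlky : Real.log (k + 1) ≤ Real.log (y + 1) := Real.log_le_log (by linarith) (by linarith)
  have hly : 0 ≤ Real.log y := Real.log_nonneg (by linarith)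
  have hly1 : 1 ≤ Real.log (y + 1) := by
    rw [Real.le_log_iff_exp_le (by linarith)]
    have := Real.exp_one_lt_three
    linarith
  have hAd : (0 : ℝ) ≤ ((adm x δ k).card : ℝ) := Nat.cast_nonneg _
  set σ := Real.exp (-(ε1 * (L / Real.log (k + 1)))) with hσ
  have hσ0 : 0 ≤ σ := (Real.exp_pos _).le
  -- the analytic estimate
  have hmain : y ^ (A * k) * σ ≤ Real.exp (-(c * (y / Real.log (k + 1)))) := by
    rw [hσ, Real.rpow_def_of_pos hyp, ← Real.exp_add]
    apply Real.exp_le_exp.2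
    have h1 : Real.log y * (A * k) + c * (y / Real.log (k + 1)) ≤ ε1 * (L / Real.log (k + 1)) := by
      have h2 : Real.log y * (A * k) * Real.log (k + 1) ≤ 3 * c * y := by
        have hA0 : 0 ≤ A := by linarith
        have h3 : (k : ℝ) * Real.log y * Real.log (k + 1) ≤
            y ^ (1 - δ') * Real.log y * Real.log (y + 1) := by
          have h4 : 0 ≤ y ^ (1 - δ') := Real.rpow_nonneg hyp.le _
          exact mul_le_mul (mul_le_mul_of_nonneg_right hkx hly) hlky hlk.le (by positivity)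
        calc Real.log y * (A * k) * Real.log (k + 1) = A * ((k : ℝ) * Real.log y * Real.log (k + 1)) := by
              ring
          _ ≤ A * (y ^ (1 - δ') * Real.log y * Real.log (y + 1)) := mul_le_mul_of_nonneg_left h3 hA0
          _ ≤ 3 * c * y := g7
      have h3 : 4 * c * y ≤ ε1 * L := by
        have h4 : 4 * c * y = ε1 * ((1 - δ) * y) := by rw [hcdef]; ring
        rw [h4]
        exact mul_le_mul_of_nonneg_left hyL hε1'.le
      rw [← mul_div_assoc, ← mul_div_assoc, le_div_iff₀ hlk, add_mul, div_mul_cancel₀ _ hlk.ne']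
      linarith
    linarith
  obtain ⟨X, hX1, hX2, hcases⟩ := H15 N k (by omega) hk hkL
  rcases hcases with ⟨Bad, hG, hcard⟩ | ⟨r, hr0, ψ, hprim, hψ1, hψ2, hrN, hS⟩
  · have h1 := H9' x k g1 hk hkL X Bad σ hX1 hX2 hG hcard hσ0
    have h2 : ((fewS x δ (1 / 2 - ε) k).card : ℝ) ≤ ((bad x δ k).card : ℝ) := by
      exact_mod_cast card_le_card (hl16_sub x δ (1 / 2 - ε) k (by linarith))
    refine h2.trans (h1.trans ?_)
    apply mul_le_mul_of_nonneg_right _ hAd
    have h3 : y ^ (C9 * k) ≤ y ^ (A * k) := by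
      apply Real.rpow_le_rpow_of_exponent_le (by linarith)
      apply mul_le_mul_of_nonneg_right _ hk0.le
      rw [hAdef]
      linarith
    have h4 : y ^ (C9 * k) * σ ≤ y ^ (A * k) * σ := mul_le_mul_of_nonneg_right h3 hσ0
    have h5 : 0 ≤ 2 * (((k : ℝ) + 1) * Real.exp (-(ε ^ 2 * k))) := by positivity
    linarith
  · have hr00 := hr0
    set j := ⌈(1 / 2 - ε) * k⌉₊ with hj
    have hj1 : 1 ≤ j := by
      rw [hj]
      apply Nat.one_le_ceil_iff.2
      have : 0 < 1 / 2 - ε := by linarith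
      positivity
    have hjk : j ≤ k := by
      rw [hj]
      apply Nat.ceil_le.2
      nlinarith
    obtain ⟨Bad, _, hBc, hB⟩ := hS j hj1 hjk
    have hA16 := HL16A x ε N X k j r ψ hN1 hX1 hX2 h4N hj Bad hB σ hBc hσ0
    have hsize : (100 * k ^ 2 * (r * 4 ^ k) : ℝ) * (k : ℝ) ^ k * Real.exp k ≤
        ((⌊x ^ (1 - δ)⌋₊ : ℕ) : ℝ) + 1 := by
      have h1 := hl16_size k r N hk hN1 hrN (Real.log (y + 1)) hly1
        (Real.log_le_log hk0 (by linarith)) (by
          have h2 : (k : ℝ) * Real.log (y + 1) ≤ y ^ (1 - δ') * Real.log (y + 1) :=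
            mul_le_mul_of_nonneg_right hkx (by linarith)
          have h3 : 3 / 4 * ((1 - δ) * y) ≤ 3 / 4 * L := by linarith
          linarith)
      have h2 : ((N : ℕ) : ℝ) = ((⌊x ^ (1 - δ)⌋₊ : ℕ) : ℝ) + 1 := by
        rw [hN]
        push_cast
        ring
      rw [← h2]
      exact h1
    have hB10 := HL10A ⌊x ^ (1 - δ)⌋₊ k r ψ hprim hψ1 hψ2 hk hsize ε hε hε1.le
    have hB' := HC' N k (by omega) hk hkL
    have hun := hl16_union x δ ε k r ψ
    have hadm : ((adm x δ k).card : ℝ) = ((((range N).powersetCard k).filter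
        (fun A => Admissible A)).card : ℝ) := by
      unfold adm
      norm_cast
    have hfac : (0 : ℝ) < (k.factorial : ℝ) := by exact_mod_cast k.factorial_pos
    set F1 := (((range N).powersetCard k).filter (fun A => Admissible A ∧
        (∃ n0 : ℕ, (1 / 2 - ε) * k ≤ (mnA ψ n0 A : ℝ)) ∧ ¬ HasMany x (1 / 2 - ε) A)).card with hF1
    set F2 := (((range N).powersetCard k).filter (fun A => Admissible A ∧
        ∀ n : ℕ, (mnA ψ n A : ℝ) < (1 / 2 - ε) * k)).card with hF2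
    have hF2le : (F2 : ℝ) ≤ 2 * ((k + 1) * Real.exp (-(ε ^ 2 * k))) * ((adm x δ k).card : ℝ) := by
      rw [hadm]
      exact hB10
    have hF1le : (F1 : ℝ) ≤ Real.exp (-(c * (y / Real.log (k + 1)))) * ((adm x δ k).card : ℝ) := by
      have h1 : (k.factorial : ℝ) * (F1 : ℝ) ≤ 2 ^ k * (N : ℝ) ^ k * σ := hA16
      have h2 : (N : ℝ) ^ k ≤ L ^ (C1 * k) * ((k.factorial : ℝ) * ((adm x δ k).card : ℝ)) := by
        rw [hadm]
        exact hB'
      have h3 : (2 : ℝ) ^ k ≤ y ^ (k : ℝ) := by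
        rw [Real.rpow_natCast]
        exact pow_le_pow_left₀ (by norm_num) (by linarith) k
      have h4 : L ^ (C1 * k) ≤ y ^ (C1 * k) := Real.rpow_le_rpow hLp.le hLy (by positivity)
      have h5 : y ^ (k : ℝ) * y ^ (C1 * k) ≤ y ^ (A * k) := by
        rw [← Real.rpow_add hyp]
        apply Real.rpow_le_rpow_of_exponent_le (by linarith)
        rw [hAdef]
        nlinarith
      have h6 : (k.factorial : ℝ) * (F1 : ℝ) ≤ (k.factorial : ℝ) *
          (Real.exp (-(c * (y / Real.log (k + 1)))) * ((adm x δ k).card : ℝ)) := by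
        calc (k.factorial : ℝ) * (F1 : ℝ) ≤ 2 ^ k * (N : ℝ) ^ k * σ := h1
          _ ≤ y ^ (k : ℝ) * (y ^ (C1 * k) * ((k.factorial : ℝ) * ((adm x δ k).card : ℝ))) * σ := by
              apply mul_le_mul_of_nonneg_right _ hσ0
              apply mul_le_mul h3 _ (by positivity) (by positivity)
              refine h2.trans ?_
              exact mul_le_mul_of_nonneg_right h4 (by positivity)
          _ = (y ^ (k : ℝ) * y ^ (C1 * k)) * σ * ((k.factorial : ℝ) * ((adm x δ k).card : ℝ)) := by ring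
          _ ≤ Real.exp (-(c * (y / Real.log (k + 1)))) *
                ((k.factorial : ℝ) * ((adm x δ k).card : ℝ)) := by
              apply mul_le_mul_of_nonneg_right _ (by positivity)
              exact (mul_le_mul_of_nonneg_right h5 hσ0).trans hmain
          _ = _ := by ring
      exact le_of_mul_le_mul_left h6 hfac
    have hunr : ((fewS x δ (1 / 2 - ε) k).card : ℝ) ≤ (F1 : ℝ) + (F2 : ℝ) := by
      exact_mod_cast hun
    refine hunr.trans ?_
    rw [add_mul]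
    linarith

end Pool.Agent.Lib.H59P
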