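import Pool.Agent.Lib.H59P.Y5
import Pool.Agent.Lib.H59P.Y9
import Pool.Agent.Lib.H18Q.MPA
import Pool.Agent.Lib.H68T.FINP

/-!
# Project H59P, chunk YD: statement (d) for sets
-/

open Finset

namespace Pool.Agent.Lib.H59P

open Pool.Agent.Lib.H68T Pool.Agent.Lib.H18Q

/-- The asymptotic condition on `y = log x`. -/
theorem yd_ev (A δ : ℝ) (hA : 1 ≤ A) (hδ : 0 < δ) :
    ∀ᶠ y : ℝ in Filter.atTop, 3 ≤ y ∧ y ^ (1 - 2 * δ) * Real.log (y + 1) * (A * (1 + Real.log y)) ≤ y := by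
  filter_upwards [ev_log (2 * A) δ hδ, Filter.eventually_ge_atTop (3 : ℝ)] with y h1 h3
  refine ⟨h3, ?_⟩
  have hy : 0 < y := by linarith
  have hl1 : 1 ≤ Real.log y := by
    rw [Real.le_log_iff_exp_le hy]
    exact Real.exp_one_lt_three.le.trans h3
  have hl2 : Real.log (y + 1) ≤ 2 * Real.log y := by
    have h4 : Real.log (y ^ 2) = 2 * Real.log y := by rw [Real.log_pow]; norm_num
    rw [← h4]
    exact Real.log_le_log (by linarith) (by nlinarith)
  have hl0 : 0 ≤ Real.log (y + 1) := Real.log_nonneg (by linarith)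
  have h5 : Real.log (y + 1) * (A * (1 + Real.log y)) ≤ y ^ (2 * δ) := by
    have h6 : y ^ (2 * δ) = y ^ δ * y ^ δ := by rw [← Real.rpow_add hy]; ring_nf
    have h7 : (2 * A * Real.log y) * (2 * A * Real.log y) ≤ y ^ δ * y ^ δ :=
      mul_self_le_mul_self (by positivity) h1
    have h8 : Real.log (y + 1) * (A * (1 + Real.log y)) ≤ (2 * Real.log y) * (A * (2 * Real.log y)) := by
      apply mul_le_mul hl2 _ (by positivity) (by positivity)
      exact mul_le_mul_of_nonneg_left (by linarith) (by linarith)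
    have h9 : (2 * Real.log y) * (A * (2 * Real.log y)) ≤ (2 * A * Real.log y) * (2 * A * Real.log y) := by
      have h10 : 0 ≤ (A - 1) * (A * (Real.log y * Real.log y)) := by
        have : 0 ≤ A - 1 := by linarith
        positivity
      nlinarith
    rw [h6]
    exact h8.trans (h9.trans h7)
  have h6 : y ^ (1 - 2 * δ) * y ^ (2 * δ) = y := by
    rw [← Real.rpow_add hy]
    simp
  calc y ^ (1 - 2 * δ) * Real.log (y + 1) * (A * (1 + Real.log y))
      = y ^ (1 - 2 * δ) * (Real.log (y + 1) * (A * (1 + Real.log y))) := by ring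
    _ ≤ y ^ (1 - 2 * δ) * y ^ (2 * δ) := mul_le_mul_of_nonneg_left h5 (Real.rpow_nonneg hy.le _)
    _ = y := h6

/-- `1 - β ≥ v` for conductors at most `ρ`. -/
theorem yd_zero : ∃ m0 : ℝ, 0 < m0 ∧ m0 ≤ 1 ∧ ∀ ρ : ℝ, 1 ≤ ρ → ∀ (r : ℕ) [NeZero r] (ψ : DirichletCharacter ℂ r),
    (r : ℝ) ≤ ρ → ψ.IsPrimitive → ψ ≠ 1 → ψ ^ 2 = 1 → ∀ β : ℝ, β < 1 → ψ.LFunction (β : ℂ) = 0 →
    m0 / (4 * ρ ^ 2) ≤ 1 - β := by
  obtain ⟨cz, hcz, H⟩ := zero_lower
  refine ⟨min 1 cz, by positivity, min_le_left _ _, ?_⟩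
  intro ρ hρ r _ ψ hr _ hψ hψ2 β hβ h0
  refine le_trans ?_ (H r ψ hψ hψ2 β hβ h0)
  have hr1 : (1 : ℝ) ≤ r := by
    have : 0 < r := Nat.pos_of_ne_zero (NeZero.ne r)
    exact_mod_cast this
  have hlog : 0 ≤ Real.log r := Real.log_nonneg hr1
  have hs0 : 0 ≤ Real.sqrt r := Real.sqrt_nonneg _
  have hs1 : Real.sqrt r * Real.sqrt r = r := Real.mul_self_sqrt (by linarith)
  have h1 : 1 + Real.log r ≤ 2 * Real.sqrt r := by
    have h2 : Real.log r = 2 * Real.log (Real.sqrt r) := by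
      rw [Real.log_sqrt (by linarith)]; ring
    have h3 := Real.log_le_sub_one_of_pos (Real.sqrt_pos.2 (show (0 : ℝ) < r by linarith))
    linarith
  have h2 : (1 + Real.log r) ^ 2 ≤ 4 * r := by
    calc (1 + Real.log r) ^ 2 ≤ (2 * Real.sqrt r) ^ 2 := pow_le_pow_left₀ (by linarith) h1 2
      _ = 4 * r := by rw [mul_pow, sq (Real.sqrt _), hs1]; norm_num
  have h3 : (r : ℝ) * (1 + Real.log r) ^ 2 ≤ 4 * ρ ^ 2 := by
    calc (r : ℝ) * (1 + Real.log r) ^ 2 ≤ r * (4 * r) := mul_le_mul_of_nonneg_left h2 (by linarith)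
      _ = 4 * r ^ 2 := by ring
      _ ≤ 4 * ρ ^ 2 := by
        have := pow_le_pow_left₀ (show (0 : ℝ) ≤ r by linarith) hr 2
        linarith
  calc min 1 cz / (4 * ρ ^ 2) ≤ cz / (4 * ρ ^ 2) := by
        apply div_le_div_of_nonneg_right (min_le_right _ _) (by positivity)
    _ ≤ cz / (r * (1 + Real.log r) ^ 2) := by
        apply div_le_div_of_nonneg_left hcz.le (by positivity) h3

/-- **(d).** Proof. Let `N = ⌊x^(1-δ)⌋₊ + 1`, `L = log N`, `log x ≤ L/(1-δ)`. `k ≤ (log x)^(1/2-δ) ≤ L^(1/2)` for `x` large,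
use `Y5` with `δ = 1/2` (call its constants `ε, C1`) and `ρ = exp(c3 L/(k log(k+1)))`, `v = min(1, cz)/(4 ρ^2)`:
by `zero_lower` (`H18Q/MPA.lean`) `1 - β ≥ cz/(r (1 + log r)^2) ≥ v` for `r ≤ ρ` (`(1+log r)^2 ≤ 4 r`), and
`k log(1/v) ≤ 2 c3 L/log(k+1) + k log(4/min(1,cz)) ≤ ε L/log(k+1)` for `c3 = ε/4`, `x` large (`k log(k+1) = o(L)`). Then
`Y9` with `σ = exp(-ε L/log(k+1)) + L^(C1 k) exp(-c3 L/(2 k log(k+1)))`; `(log x)^(C k) L^(C1 k) ≤
exp(c3 L/(8 k log(k+1)))` for `x` large, since `k^2 log(k+1) log log x ≤ (log x)^(1-δ)` (`k ≤ (log x)^(1/2-δ)`).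
So the proportion is at most `2 exp(-c3 L/(4 k log(k+1))) ≤ x^(-c/(k log(k+1)))`, `c = c3 (1-δ)/8`. -/
theorem YD (hF : FMain) (hT : TMain) (hA : AMain) (c0 : ℝ) (hc0 : 0 ≤ c0) (hlow : TLow c0)
    (hC : TCount) (δ : ℝ) (hδ : 0 < δ) (hδ1 : δ < 1 / 2) :
    ∃ c x0 : ℝ, 0 < c ∧ ∀ x : ℝ, x0 ≤ x → ∀ k : ℕ, 1 ≤ k → (k : ℝ) ≤ (Real.log x) ^ (1 / 2 - δ) →
      ((bad x δ k).card : ℝ) ≤ x ^ (-(c / (k * Real.log (k + 1)))) * ((adm x δ k).card : ℝ) := by
  obtain ⟨ε, C1, hε, hC1, N0, H5⟩ := Y5 hF hT hA c0 hc0 hlow (1 / 2) (by norm_num) (by norm_num)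
  obtain ⟨C2, hC2, H9⟩ := Y9 hC
  obtain ⟨x9, H9'⟩ := H9 δ (1 / 2) hδ (by linarith) (by norm_num) (by norm_num)
  obtain ⟨m0, hm0, hm1, Hz⟩ := yd_zero
  set c3 := ε / 4 with hc3
  have hc3p : 0 < c3 := by positivity
  set lm := Real.log (4 / m0) with hlm
  have hlm0 : 0 ≤ lm := by
    apply Real.log_nonneg
    rw [le_div_iff₀ hm0]
    linarith
  set A := 4 + 4 * lm / ε + 8 * (1 + C1 + C2) / c3 with hAdef
  have hA1 : 0 ≤ 4 * lm / ε := by positivity
  have hA2 : 0 ≤ 8 * (1 + C1 + C2) / c3 := by positivity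
  have hA4 : 4 ≤ A := by linarith
  have hev : ∀ᶠ x : ℝ in Filter.atTop, x9 ≤ x ∧ (N0 : ℝ) ^ 2 ≤ x ∧ 2 ≤ x ^ δ ∧ 4 ≤ x ∧
      (3 ≤ Real.log x ∧ (Real.log x) ^ (1 - 2 * δ) * Real.log (Real.log x + 1) * (A * (1 + Real.log (Real.log x))) ≤ Real.log x) := by
    filter_upwards [Filter.eventually_ge_atTop x9, Filter.eventually_ge_atTop ((N0 : ℝ) ^ 2),
      (tendsto_rpow_atTop hδ).eventually (Filter.eventually_ge_atTop 2), Filter.eventually_ge_atTop (4 : ℝ),
      Real.tendsto_log_atTop.eventually (yd_ev A δ (by linarith) hδ)] with x h1 h2 h3 h4 h5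
    exact ⟨h1, h2, h3, h4, h5⟩
  obtain ⟨x0, hx0⟩ := Filter.eventually_atTop.1 hev
  refine ⟨c3 / 8, x0, by positivity, ?_⟩
  intro x hx k hk hkx
  obtain ⟨g1, g2, g3, g4, g5, g6⟩ := hx0 x hx
  have hxp : 0 < x := by linarith
  set y := Real.log x with hy
  set N := ⌊x ^ (1 - δ)⌋₊ + 1 with hN
  have hNx : x ^ (1 - δ) ≤ (N : ℝ) := by
    rw [hN]
    push_cast
    exact (Nat.lt_floor_add_one _).le
  have hNp : (0 : ℝ) < N := lt_of_lt_of_le (Real.rpow_pos_of_pos hxp _) hNx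
  have hNle : (N : ℝ) ≤ x := by
    have h1 : ((⌊x ^ (1 - δ)⌋₊ : ℕ) : ℝ) ≤ x ^ (1 - δ) := Nat.floor_le (Real.rpow_nonneg hxp.le _)
    have h2 : x ^ (1 - δ) * x ^ δ = x := by
      rw [← Real.rpow_add hxp]
      simp
    have h3 : 2 * x ^ (1 - δ) ≤ x := by
      have := mul_le_mul_of_nonneg_left g3 (Real.rpow_nonneg hxp.le (1 - δ))
      linarith
    rw [hN]
    push_cast
    linarith
  have hNN : N0 ≤ N := by
    have h1 : (N0 : ℝ) ≤ Real.sqrt x := Real.le_sqrt_of_sq_le g2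
    have h2 : Real.sqrt x ≤ x ^ (1 - δ) := by
      rw [Real.sqrt_eq_rpow]
      exact Real.rpow_le_rpow_of_exponent_le (by linarith) (by linarith)
    exact_mod_cast h1.trans (h2.trans hNx)
  set L := Real.log (N : ℝ) with hL
  have hLy : L ≤ y := Real.log_le_log hNp hNle
  have hyL : y / 2 ≤ L := by
    have h1 : (1 - δ) * y ≤ L := by
      rw [hy, ← Real.log_rpow hxp]
      exact Real.log_le_log (Real.rpow_pos_of_pos hxp _) hNx
    have h2 : (1 / 2) * y ≤ (1 - δ) * y := mul_le_mul_of_nonneg_right (by linarith) (by linarith)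
    linarith
  have hyp : 0 < y := by linarith
  have hLp : 0 < L := by linarith
  have hk1 : (1 : ℝ) ≤ k := by exact_mod_cast hk
  have hlk : 0 < Real.log (k + 1) := Real.log_pos (by linarith)
  have hly : 0 ≤ Real.log y := Real.log_nonneg (by linarith)
  have hly1 : 0 < Real.log (y + 1) := Real.log_pos (by linarith)
  have hy2 : (0 : ℝ) < y ^ (1 - 2 * δ) := Real.rpow_pos_of_pos hyp _
  have hk2 : (k : ℝ) ^ 2 ≤ y ^ (1 - 2 * δ) := by
    calc (k : ℝ) ^ 2 ≤ (y ^ (1 / 2 - δ)) ^ 2 := pow_le_pow_left₀ (by linarith) hkx 2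
      _ = y ^ (1 - 2 * δ) := by
        rw [← Real.rpow_natCast, ← Real.rpow_mul hyp.le]
        congr 1
        push_cast
        ring
  have hky : (k : ℝ) ≤ y := by
    refine hkx.trans ?_
    calc y ^ (1 / 2 - δ) ≤ y ^ (1 : ℝ) := Real.rpow_le_rpow_of_exponent_le (by linarith) (by linarith)
      _ = y := Real.rpow_one y
  have hlky : Real.log (k + 1) ≤ Real.log (y + 1) := Real.log_le_log (by linarith) (by linarith)
  -- the main quantity
  have hkk : (k : ℝ) ^ 2 * Real.log (k + 1) ≤ y ^ (1 - 2 * δ) * Real.log (y + 1) :=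
    mul_le_mul hk2 hlky hlk.le hy2.le
  have hkk1 : (k : ℝ) * Real.log (k + 1) ≤ y ^ (1 - 2 * δ) * Real.log (y + 1) := by
    refine le_trans ?_ hkk
    apply mul_le_mul_of_nonneg_right _ hlk.le
    nlinarith
  -- (1)
  have c1 : (k : ℝ) ≤ L ^ (1 - 1 / 2 : ℝ) := by
    have h1 : 2 * y ^ (1 - 2 * δ) ≤ y := by
      have h2 : (1 / 2 : ℝ) ≤ Real.log (y + 1) := by
        have h3 : Real.log 2 ≤ Real.log (y + 1) := Real.log_le_log (by norm_num) (by linarith)
        have h4 := Real.log_two_gt_d9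
        linarith
      have h3 : (4 : ℝ) ≤ A * (1 + Real.log y) := by nlinarith
      have h4 : y ^ (1 - 2 * δ) * ((1 / 2) * 4) ≤ y ^ (1 - 2 * δ) * (Real.log (y + 1) * (A * (1 + Real.log y))) := by
        apply mul_le_mul_of_nonneg_left _ hy2.le
        exact mul_le_mul h2 h3 (by norm_num) hly1.le
      linarith
    have h2 : (k : ℝ) ^ 2 ≤ L := by linarith
    have h3 : (1 - 1 / 2 : ℝ) = 1 / 2 := by norm_num
    rw [h3, ← Real.sqrt_eq_rpow]
    exact Real.le_sqrt_of_sq_le h2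
  -- (2)
  have c2 : (k : ℝ) * Real.log (k + 1) * lm ≤ ε / 2 * L := by
    have h1 : (k : ℝ) * Real.log (k + 1) * (4 * lm / ε) ≤ y := by
      calc (k : ℝ) * Real.log (k + 1) * (4 * lm / ε) ≤
            y ^ (1 - 2 * δ) * Real.log (y + 1) * (A * (1 + Real.log y)) := by
            apply mul_le_mul hkk1 _ hA1 (by positivity)
            have h2 : A * 1 ≤ A * (1 + Real.log y) := mul_le_mul_of_nonneg_left (by linarith) (by linarith)
            linarith
        _ ≤ y := g6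
    have h2 : (k : ℝ) * Real.log (k + 1) * lm = (k : ℝ) * Real.log (k + 1) * (4 * lm / ε) * (ε / 4) := by
      field_simp
    rw [h2]
    have h3 := mul_le_mul_of_nonneg_right h1 (show 0 ≤ ε / 4 by positivity)
    have h4 := mul_le_mul_of_nonneg_left hyL (show 0 ≤ ε / 2 by positivity)
    linarith
  set M := L / (k * Real.log (k + 1)) with hM
  have hkl : 0 < (k : ℝ) * Real.log (k + 1) := by positivity
  have hMp : 0 < M := by positivity
  have hMk : k * M = L / Real.log (k + 1) := by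
    rw [hM]
    field_simp
  -- (3)
  have c4 : Real.log 2 + (C1 + C2) * k * Real.log y ≤ c3 / 4 * M := by
    have h1 : (k : ℝ) ^ 2 * Real.log (k + 1) * (8 * (1 + C1 + C2) / c3 * (1 + Real.log y)) ≤ y := by
      calc (k : ℝ) ^ 2 * Real.log (k + 1) * (8 * (1 + C1 + C2) / c3 * (1 + Real.log y)) ≤
            y ^ (1 - 2 * δ) * Real.log (y + 1) * (A * (1 + Real.log y)) := by
            apply mul_le_mul hkk _ (by positivity) (by positivity)
            exact mul_le_mul_of_nonneg_right (by linarith) (by linarith)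
        _ ≤ y := g6
    have h2 : Real.log 2 + (C1 + C2) * k * Real.log y ≤ k * ((1 + C1 + C2) * (1 + Real.log y)) := by
      have h3 := Real.log_two_lt_d9
      have h4 : (k : ℝ) * ((1 + C1 + C2) * (1 + Real.log y)) = k * (1 + C1 + C2) + k * Real.log y + (C1 + C2) * k * Real.log y := by ring
      have h5 : 0 ≤ (k : ℝ) * Real.log y := by positivity
      have h6 : (1 : ℝ) ≤ k * (1 + C1 + C2) := by nlinarith
      linarith
    refine h2.trans ?_
    rw [hM, ← mul_div_assoc, le_div_iff₀ hkl]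
    have h7 : (k : ℝ) * ((1 + C1 + C2) * (1 + Real.log y)) * (k * Real.log (k + 1)) =
        (k : ℝ) ^ 2 * Real.log (k + 1) * (8 * (1 + C1 + C2) / c3 * (1 + Real.log y)) * (c3 / 8) := by
      field_simp
    rw [h7]
    have h8 := mul_le_mul_of_nonneg_right h1 (show 0 ≤ c3 / 8 by positivity)
    have h9 := mul_le_mul_of_nonneg_left hyL (show 0 ≤ c3 / 4 by positivity)
    linarith
  -- the parameters
  set ρ := Real.exp (c3 * M) with hρ
  have hρ1 : 1 ≤ ρ := Real.one_le_exp (by positivity)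
  set v := m0 / (4 * ρ ^ 2) with hv
  have hv0 : 0 < v := by positivity
  have hv1 : v ≤ 1 := by
    rw [hv, div_le_one (by positivity)]
    nlinarith
  have hvlog : k * Real.log (1 / v) ≤ ε * (L / Real.log (k + 1)) := by
    have h1 : 1 / v = 4 / m0 * ρ ^ 2 := by
      rw [hv]
      field_simp
    have h2 : Real.log (1 / v) = lm + 2 * (c3 * M) := by
      rw [h1, Real.log_mul (by positivity) (by positivity), Real.log_pow, hρ, Real.log_exp]
      push_cast
      ring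
    rw [h2, ← hMk]
    have h3 : (k : ℝ) * lm ≤ ε / 2 * (k * M) := by
      rw [hMk, ← mul_div_assoc, le_div_iff₀ hlk]
      linarith
    have h4 : (k : ℝ) * (lm + 2 * (c3 * M)) = k * lm + ε / 2 * (k * M) := by
      rw [hc3]
      ring
    rw [h4]
    linarith
  obtain ⟨X, Bad, hX1, hX2, hGood, hBad⟩ := H5 N k ρ v hNN hk c1 hρ1 hv0 hv1 hvlog
    (fun r _ ψ hr hprim hψ hψ2 β hβ h0 => Hz ρ hρ1 r ψ hr hprim hψ hψ2 β hβ h0)
  set σ := Real.exp (-(ε * (L / Real.log (k + 1)))) + L ^ (C1 * k) * ρ ^ (-(1 / 2) : ℝ) with hσ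
  have hσ0 : 0 ≤ σ := by
    have h1 : 0 ≤ L ^ (C1 * k) := Real.rpow_nonneg hLp.le _
    have h2 : 0 ≤ ρ ^ (-(1 / 2) : ℝ) := Real.rpow_nonneg (by linarith) _
    positivity
  have hfin := H9' x k g1 hk c1 X Bad σ hX1 hX2 hGood hBad hσ0
  refine hfin.trans ?_
  apply mul_le_mul_of_nonneg_right _ (Nat.cast_nonneg _)
  -- the final estimate
  have hρh : ρ ^ (-(1 / 2) : ℝ) = Real.exp (-(c3 / 2 * M)) := by
    rw [hρ, ← Real.exp_mul]
    congr 1
    ring
  have hyC1 : L ^ (C1 * k) ≤ Real.exp (C1 * k * Real.log y) := by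
    calc L ^ (C1 * k) ≤ y ^ (C1 * k) := Real.rpow_le_rpow hLp.le hLy (by positivity)
      _ = Real.exp (C1 * k * Real.log y) := by
        rw [Real.rpow_def_of_pos hyp]
        congr 1
        ring
  have hone : (1 : ℝ) ≤ Real.exp (C1 * k * Real.log y) := Real.one_le_exp (by positivity)
  have hσ2 : σ ≤ 2 * (Real.exp (C1 * k * Real.log y) * Real.exp (-(c3 / 2 * M))) := by
    have h1 : Real.exp (-(ε * (L / Real.log (k + 1)))) ≤ Real.exp (-(c3 / 2 * M)) := by
      apply Real.exp_le_exp.2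
      rw [← hMk]
      have h2 : c3 / 2 * M ≤ ε * M := mul_le_mul_of_nonneg_right (by rw [hc3]; linarith) hMp.le
      have h3 : ε * M ≤ ε * (k * M) := by
        apply mul_le_mul_of_nonneg_left _ hε.le
        nlinarith
      linarith
    have h2 : Real.exp (-(c3 / 2 * M)) ≤ Real.exp (C1 * k * Real.log y) * Real.exp (-(c3 / 2 * M)) :=
      le_mul_of_one_le_left (Real.exp_pos _).le hone
    have h3 : L ^ (C1 * k) * ρ ^ (-(1 / 2) : ℝ) ≤ Real.exp (C1 * k * Real.log y) * Real.exp (-(c3 / 2 * M)) := by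
      rw [hρh]
      exact mul_le_mul_of_nonneg_right hyC1 (Real.exp_pos _).le
    rw [hσ]
    linarith
  have hyC2 : y ^ (C2 * k) = Real.exp (C2 * k * Real.log y) := by
    rw [Real.rpow_def_of_pos hyp]
    congr 1
    ring
  calc y ^ (C2 * k) * σ ≤ Real.exp (C2 * k * Real.log y) * (2 * (Real.exp (C1 * k * Real.log y) * Real.exp (-(c3 / 2 * M)))) := by
        rw [hyC2]
        exact mul_le_mul_of_nonneg_left hσ2 (Real.exp_pos _).le
    _ = Real.exp (Real.log 2 + (C1 + C2) * k * Real.log y - c3 / 2 * M) := by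
        rw [show Real.log 2 + (C1 + C2) * k * Real.log y - c3 / 2 * M = Real.log 2 + (C2 * k * Real.log y + (C1 * k * Real.log y + -(c3 / 2 * M))) by ring,
          Real.exp_add, Real.exp_add, Real.exp_add, Real.exp_log (by norm_num : (0 : ℝ) < 2)]
        ring
    _ ≤ Real.exp (y * -(c3 / 8 / (k * Real.log (k + 1)))) := by
        apply Real.exp_le_exp.2
        have h1 : c3 / 4 * M ≥ y * (c3 / 8 / (k * Real.log (k + 1))) := by
          have h2 : y * (c3 / 8 / (k * Real.log (k + 1))) = c3 / 4 * ((y / 2) / (k * Real.log (k + 1))) := by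
            field_simp
            norm_num
          rw [h2, hM]
          apply mul_le_mul_of_nonneg_left _ (by positivity)
          exact div_le_div_of_nonneg_right hyL hkl.le
        linarith
    _ = x ^ (-(c3 / 8 / (k * Real.log (k + 1)))) := by
        rw [Real.rpow_def_of_pos hxp]

end Pool.Agent.Lib.H59P
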