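import Pool.Agent.Lib.H59P.HL16
import Pool.Agent.Lib.H59P.YD

/-!
# Project H59P, chunk HL17: the half law
-/

open Finset

namespace Pool.Agent.Lib.H59P

open Pool.Agent.Lib.H68T Pool.Agent.Lib.H18Q

/-- `A log(y+1) ≤ y^s` for large `y`. -/
theorem hl17_log (A s : ℝ) (hA : 0 ≤ A) (hs : 0 < s) :
    ∀ᶠ y : ℝ in Filter.atTop, 3 ≤ y ∧ A * Real.log (y + 1) ≤ y ^ s := by
  filter_upwards [ev_log (2 * A) s hs, Filter.eventually_ge_atTop (3 : ℝ)] with y h1 h3
  refine ⟨h3, ?_⟩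
  have hy : 0 < y := by linarith
  have hl2 : Real.log (y + 1) ≤ 2 * Real.log y := by
    have h4 : Real.log (y ^ 2) = 2 * Real.log y := by rw [Real.log_pow]; norm_num
    rw [← h4]
    exact Real.log_le_log (by linarith) (by nlinarith)
  calc A * Real.log (y + 1) ≤ A * (2 * Real.log y) := mul_le_mul_of_nonneg_left hl2 hA
    _ = 2 * A * Real.log y := by ring
    _ ≤ y ^ s := h1

/-- The asymptotic conditions on `y = log x`. -/
theorem hl17_ev (c c2 δ ε : ℝ) (hc : 0 < c) (hc2 : 0 < c2) (hδ : 0 < δ) (hδ1 : δ < 1 / 2) (hε : 0 < ε) :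
    ∀ᶠ y : ℝ in Filter.atTop, 3 ≤ y ∧ 2 ≤ y ^ (δ / 4) ∧
      y ^ (1 / 2 - δ) * y ^ (1 / 2 - δ / 2) * Real.log (y + 1) ≤ c / 2 * y ∧
      Real.log 4 + Real.log (y + 1) + y ^ (1 / 2 - δ) ≤ ε ^ 2 * y ^ (1 / 2 - δ / 2) ∧
      (Real.log 2 + y ^ (1 / 2 - δ)) * Real.log (y + 1) ≤ c2 * y := by
  filter_upwards [(tendsto_rpow_atTop (show 0 < δ / 4 by positivity)).eventually
      (Filter.eventually_ge_atTop 2),
    hl17_log (2 / c) (3 * δ / 2) (by positivity) (by positivity),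
    hl17_log (4 / ε ^ 2) (δ / 2) (by positivity) (by positivity),
    hl17_log (2 / c2) (1 / 2) (by positivity) (by positivity)] with y h1 h2 h3 h4
  obtain ⟨hy3, h2⟩ := h2
  obtain ⟨-, h3⟩ := h3
  obtain ⟨-, h4⟩ := h4
  have hy : 0 < y := by linarith
  have hy1 : 1 ≤ y := by linarith
  have hlog1 : 1 ≤ Real.log (y + 1) := by
    rw [Real.le_log_iff_exp_le (by linarith)]
    have := Real.exp_one_lt_three
    linarith
  have hu1 : 1 ≤ y ^ (1 / 2 - δ) := Real.one_le_rpow hy1 (by linarith)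
  refine ⟨hy3, h1, ?_, ?_, ?_⟩
  · have e1 : y ^ (1 / 2 - δ) * y ^ (1 / 2 - δ / 2) * y ^ (3 * δ / 2) = y := by
      rw [← Real.rpow_add hy, ← Real.rpow_add hy]
      have : (1 / 2 - δ + (1 / 2 - δ / 2) + 3 * δ / 2 : ℝ) = 1 := by ring
      rw [this, Real.rpow_one]
    have e2 : Real.log (y + 1) ≤ c / 2 * y ^ (3 * δ / 2) := by
      have h5 := mul_le_mul_of_nonneg_left h2 (show 0 ≤ c / 2 by positivity)
      have h6 : c / 2 * (2 / c * Real.log (y + 1)) = Real.log (y + 1) := by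
        field_simp
      rw [h6] at h5
      exact h5
    have h7 : 0 ≤ y ^ (1 / 2 - δ) * y ^ (1 / 2 - δ / 2) := by positivity
    calc y ^ (1 / 2 - δ) * y ^ (1 / 2 - δ / 2) * Real.log (y + 1) ≤
          y ^ (1 / 2 - δ) * y ^ (1 / 2 - δ / 2) * (c / 2 * y ^ (3 * δ / 2)) :=
          mul_le_mul_of_nonneg_left e2 h7
      _ = c / 2 * (y ^ (1 / 2 - δ) * y ^ (1 / 2 - δ / 2) * y ^ (3 * δ / 2)) := by ring
      _ = c / 2 * y := by rw [e1]
  · have e1 : y ^ (1 / 2 - δ / 2) = y ^ (1 / 2 - δ) * y ^ (δ / 2) := by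
      rw [← Real.rpow_add hy]
      congr 1
      ring
    have e2 : 4 * Real.log (y + 1) ≤ ε ^ 2 * y ^ (δ / 2) := by
      have h5 := mul_le_mul_of_nonneg_left h3 (show 0 ≤ ε ^ 2 by positivity)
      have h6 : ε ^ 2 * (4 / ε ^ 2 * Real.log (y + 1)) = 4 * Real.log (y + 1) := by
        field_simp
      rw [h6] at h5
      exact h5
    have hl4 : Real.log 4 + 1 ≤ 3 := by
      have h5 : Real.log 4 = 2 * Real.log 2 := by
        rw [show (4 : ℝ) = 2 ^ 2 by norm_num, Real.log_pow]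
        norm_num
      have h6 := Real.log_two_lt_d9
      rw [h5]
      linarith
    rw [e1]
    have h7 : 1 ≤ ε ^ 2 * y ^ (δ / 2) - 1 := by linarith
    have h8 : ε ^ 2 * y ^ (δ / 2) - 1 ≤ (ε ^ 2 * y ^ (δ / 2) - 1) * y ^ (1 / 2 - δ) :=
      le_mul_of_one_le_right (by linarith) hu1
    have h9 : ε ^ 2 * (y ^ (1 / 2 - δ) * y ^ (δ / 2)) =
        (ε ^ 2 * y ^ (δ / 2) - 1) * y ^ (1 / 2 - δ) + y ^ (1 / 2 - δ) := by ring
    rw [h9]
    linarith
  · have e2 : 2 * Real.log (y + 1) ≤ c2 * y ^ (1 / 2 : ℝ) := by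
      have h5 := mul_le_mul_of_nonneg_left h4 (show 0 ≤ c2 by positivity)
      have h6 : c2 * (2 / c2 * Real.log (y + 1)) = 2 * Real.log (y + 1) := by
        field_simp
      rw [h6] at h5
      exact h5
    have h7 : Real.log 2 + y ^ (1 / 2 - δ) ≤ 2 * y ^ (1 / 2 : ℝ) := by
      have h8 := Real.log_two_lt_d9
      have h9 : 1 ≤ y ^ (1 / 2 : ℝ) := Real.one_le_rpow hy1 (by norm_num)
      have h10 : y ^ (1 / 2 - δ) ≤ y ^ (1 / 2 : ℝ) :=
        Real.rpow_le_rpow_of_exponent_le hy1 (by linarith)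
      linarith
    have h11 : y ^ (1 / 2 : ℝ) * y ^ (1 / 2 : ℝ) = y := by
      rw [← Real.rpow_add hy]
      norm_num
    have h12 : 0 ≤ y ^ (1 / 2 : ℝ) := Real.rpow_nonneg hy.le _
    calc (Real.log 2 + y ^ (1 / 2 - δ)) * Real.log (y + 1) ≤
          2 * y ^ (1 / 2 : ℝ) * Real.log (y + 1) := mul_le_mul_of_nonneg_right h7 (by linarith)
      _ = y ^ (1 / 2 : ℝ) * (2 * Real.log (y + 1)) := by ring
      _ ≤ y ^ (1 / 2 : ℝ) * (c2 * y ^ (1 / 2 : ℝ)) := mul_le_mul_of_nonneg_left e2 h12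
      _ = c2 * (y ^ (1 / 2 : ℝ) * y ^ (1 / 2 : ℝ)) := by ring
      _ = c2 * y := by rw [h11]

/-- Sets with few primes in all translates are bad. -/
theorem hl17_sub (x z δ δ' θ : ℝ) (k : ℕ) (hθ : θ ≤ 1) (hzx : z ≤ x)
    (hz : z ^ (1 - δ') = x ^ (1 - δ)) :
    fewS x δ θ k ⊆ bad z δ' k ∧ adm x δ k = adm z δ' k := by
  classical
  have h0 : adm x δ k = adm z δ' k := by
    unfold adm
    rw [hz]
  refine ⟨?_, h0⟩
  intro A hA
  unfold fewS at hA
  rw [mem_filter, h0] at hA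
  obtain ⟨h1, h2⟩ := hA
  unfold adm at h1
  rw [mem_filter] at h1
  unfold bad
  rw [mem_filter]
  refine ⟨h1.1, h1.2, ?_⟩
  rintro ⟨n, hn1, hnz, hp⟩
  apply h2
  refine ⟨n, hn1, hnz.trans hzx, ?_⟩
  have h3 : A.filter (fun a => (n + a).Prime) = A := Finset.filter_true_of_mem hp
  rw [h3]
  have h4 : (0 : ℝ) ≤ A.card := Nat.cast_nonneg _
  nlinarith

/-- **HL17, the half law.** Proof. For `k ≤ (log x)^(1/2-δ/2)`: put `δ' = δ/4`, `y = x^((1-δ)/(1-δ'))`, so
`y^(1-δ') = x^(1-δ)`, `y ≤ x`, `log y = (1-δ)/(1-δ') log x` and `k ≤ (log y)^(1/2-δ')` for `x` large; `fewS x δ θ k ⊆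
bad y δ' k` (a prime translate `≤ y` is one `≤ x`), `adm x δ k = adm y δ' k`, and `YD` with `δ'` gives the proportion
`y^(-c/(k log(k+1))) ≤ exp (-(log x)^(1/2-δ))`, since `k log(k+1) (log x)^(1/2-δ) = o(log x)`.
For `k > (log x)^(1/2-δ/2)`: `HL16` with `δ' = δ`: `2 (k+1) exp (-ε²k) ≤ exp (-(log x)^(1/2-δ))/2` and
`exp (-c log x/log(k+1)) ≤ exp (-(log x)^(1/2-δ))/2` for `x` large. -/
theorem HL17 (hF : FMain) (hT : TMain) (hA : AMain) (c0 : ℝ) (hc0 : 0 ≤ c0) (hlow : TLow c0)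
    (hC : TCount) (δ ε : ℝ) (hδ : 0 < δ) (hδ1 : δ < 1 / 2) (hε : 0 < ε) (hε1 : ε < 1 / 2) :
    ∃ x0 : ℝ, ∀ x : ℝ, x0 ≤ x → ∀ k : ℕ, 1 ≤ k → (k : ℝ) ≤ (Real.log x) ^ (1 - δ) →
      ((fewS x δ (1 / 2 - ε) k).card : ℝ) ≤
        Real.exp (-(Real.log x) ^ (1 / 2 - δ)) * ((adm x δ k).card : ℝ) := by
  obtain ⟨c, z0, hc, HD⟩ := YD hF hT hA c0 hc0 hlow hC (δ / 4) (by positivity) (by linarith)
  obtain ⟨c2, x2, hc2, H16⟩ := HL16 hF hT hA c0 hc0 hlow hC δ δ ε hδ (by linarith) hδ (by linarith) hε hε1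
  have hev : ∀ᶠ x : ℝ in Filter.atTop, x2 ≤ x ∧ (max z0 1) ^ 2 ≤ x ∧ 1 ≤ x ∧
      (3 ≤ Real.log x ∧ 2 ≤ (Real.log x) ^ (δ / 4) ∧
      (Real.log x) ^ (1 / 2 - δ) * (Real.log x) ^ (1 / 2 - δ / 2) * Real.log (Real.log x + 1) ≤
        c / 2 * Real.log x ∧
      Real.log 4 + Real.log (Real.log x + 1) + (Real.log x) ^ (1 / 2 - δ) ≤
        ε ^ 2 * (Real.log x) ^ (1 / 2 - δ / 2) ∧
      (Real.log 2 + (Real.log x) ^ (1 / 2 - δ)) * Real.log (Real.log x + 1) ≤ c2 * Real.log x) := by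
    filter_upwards [Filter.eventually_ge_atTop x2, Filter.eventually_ge_atTop ((max z0 1) ^ 2),
      Filter.eventually_ge_atTop (1 : ℝ),
      Real.tendsto_log_atTop.eventually (hl17_ev c c2 δ ε hc hc2 hδ hδ1 hε)] with x h1 h2 h3 h4
    exact ⟨h1, h2, h3, h4⟩
  obtain ⟨x0, hx0⟩ := Filter.eventually_atTop.1 hev
  refine ⟨x0, ?_⟩
  intro x hx k hk hkx
  obtain ⟨g1, g2, g3, g4, g5, g6, g7, g8⟩ := hx0 x hx
  have hxp : 0 < x := by linarith
  set y := Real.log x with hy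
  have hyp : 0 < y := by linarith
  have hk1 : (1 : ℝ) ≤ k := by exact_mod_cast hk
  have hk0 : (0 : ℝ) < k := by linarith
  have hlk : 0 < Real.log (k + 1) := Real.log_pos (by linarith)
  have hky : (k : ℝ) ≤ y := by
    refine hkx.trans ?_
    calc y ^ (1 - δ) ≤ y ^ (1 : ℝ) := Real.rpow_le_rpow_of_exponent_le (by linarith) (by linarith)
      _ = y := Real.rpow_one y
  have hlky : Real.log (k + 1) ≤ Real.log (y + 1) := Real.log_le_log (by linarith) (by linarith)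
  have hAd : (0 : ℝ) ≤ ((adm x δ k).card : ℝ) := Nat.cast_nonneg _
  by_cases hcase : (k : ℝ) ≤ y ^ (1 / 2 - δ / 2)
  · -- few elements: all translates
    set a := (1 - δ) / (1 - δ / 4) with ha
    have hd4 : 0 < 1 - δ / 4 := by linarith
    have ha1 : a ≤ 1 := by
      rw [ha, div_le_one hd4]
      linarith
    have ha2 : 1 / 2 ≤ a := by
      rw [ha, le_div_iff₀ hd4]
      linarith
    set z := x ^ a with hz
    have hzx : z ≤ x := by
      calc z ≤ x ^ (1 : ℝ) := Real.rpow_le_rpow_of_exponent_le g3 ha1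
        _ = x := Real.rpow_one x
    have hzd : z ^ (1 - δ / 4) = x ^ (1 - δ) := by
      rw [hz, ← Real.rpow_mul hxp.le, ha, div_mul_cancel₀ _ hd4.ne']
    have hlz : Real.log z = a * y := by rw [hz, Real.log_rpow hxp]
    have hz0 : z0 ≤ z := by
      have h1 : max z0 1 ≤ Real.sqrt x := Real.le_sqrt_of_sq_le g2
      have h2 : Real.sqrt x ≤ z := by
        rw [Real.sqrt_eq_rpow]
        exact Real.rpow_le_rpow_of_exponent_le g3 ha2
      exact (le_max_left _ _).trans (h1.trans h2)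
    have hzk : (k : ℝ) ≤ (Real.log z) ^ (1 / 2 - δ / 4) := by
      refine hcase.trans ?_
      rw [hlz, Real.mul_rpow (by linarith) hyp.le]
      have h1 : y ^ (1 / 2 - δ / 4) = y ^ (δ / 4) * y ^ (1 / 2 - δ / 2) := by
        rw [← Real.rpow_add hyp]
        congr 1
        ring
      have h2 : (1 / 2 : ℝ) ≤ a ^ (1 / 2 - δ / 4) := by
        calc (1 / 2 : ℝ) ≤ a := ha2
          _ = a ^ (1 : ℝ) := (Real.rpow_one a).symm
          _ ≤ a ^ (1 / 2 - δ / 4) :=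
            Real.rpow_le_rpow_of_exponent_ge (by linarith) ha1 (by linarith)
      have h3 : 0 ≤ y ^ (1 / 2 - δ / 2) := Real.rpow_nonneg hyp.le _
      rw [h1]
      have h4 : 1 ≤ a ^ (1 / 2 - δ / 4) * y ^ (δ / 4) := by
        calc (1 : ℝ) = 1 / 2 * 2 := by norm_num
          _ ≤ a ^ (1 / 2 - δ / 4) * y ^ (δ / 4) :=
            mul_le_mul h2 g5 (by norm_num) (by positivity)
      calc y ^ (1 / 2 - δ / 2) = 1 * y ^ (1 / 2 - δ / 2) := by ring
        _ ≤ a ^ (1 / 2 - δ / 4) * y ^ (δ / 4) * y ^ (1 / 2 - δ / 2) :=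
          mul_le_mul_of_nonneg_right h4 h3
        _ = _ := by ring
    have hD := HD z hz0 k hk hzk
    obtain ⟨hsub, hadm⟩ := hl17_sub x z δ (δ / 4) (1 / 2 - ε) k (by linarith) hzx hzd
    have hcard : ((fewS x δ (1 / 2 - ε) k).card : ℝ) ≤ ((bad z (δ / 4) k).card : ℝ) := by
      exact_mod_cast card_le_card hsub
    refine hcard.trans (hD.trans ?_)
    rw [← hadm]
    apply mul_le_mul_of_nonneg_right _ hAd
    have hzp : 0 < z := Real.rpow_pos_of_pos hxp _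
    rw [Real.rpow_def_of_pos hzp, hlz]
    apply Real.exp_le_exp.2
    have hkl : 0 < (k : ℝ) * Real.log (k + 1) := by positivity
    have h5 : y ^ (1 / 2 - δ) * (k * Real.log (k + 1)) ≤ c / 2 * y := by
      have hu0 : 0 ≤ y ^ (1 / 2 - δ) := Real.rpow_nonneg hyp.le _
      have hv0 : 0 ≤ y ^ (1 / 2 - δ / 2) := Real.rpow_nonneg hyp.le _
      calc y ^ (1 / 2 - δ) * (k * Real.log (k + 1)) ≤
            y ^ (1 / 2 - δ) * (y ^ (1 / 2 - δ / 2) * Real.log (y + 1)) :=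
            mul_le_mul_of_nonneg_left (mul_le_mul hcase hlky hlk.le hv0) hu0
        _ = y ^ (1 / 2 - δ) * y ^ (1 / 2 - δ / 2) * Real.log (y + 1) := by ring
        _ ≤ c / 2 * y := g6
    have h6 : y ^ (1 / 2 - δ) ≤ a * y * (c / (k * Real.log (k + 1))) := by
      rw [← mul_div_assoc, le_div_iff₀ hkl]
      refine h5.trans ?_
      have h7 := mul_le_mul_of_nonneg_right ha2 (show 0 ≤ c * y by positivity)
      linarith
    have h8 : a * y * -(c / (k * Real.log (k + 1))) = -(a * y * (c / (k * Real.log (k + 1)))) := by ring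
    rw [h8]
    linarith
  · -- many elements
    rw [not_le] at hcase
    have h16 := H16 x g1 k hk hkx
    refine h16.trans ?_
    apply mul_le_mul_of_nonneg_right _ hAd
    have hE : Real.exp (-y ^ (1 / 2 - δ)) = Real.exp (-y ^ (1 / 2 - δ)) / 2 + Real.exp (-y ^ (1 / 2 - δ)) / 2 := by
      ring
    rw [hE]
    apply add_le_add
    · -- the first term
      have h1 : 4 * ((k : ℝ) + 1) * Real.exp (-(ε ^ 2 * k)) ≤ Real.exp (-y ^ (1 / 2 - δ)) := by
        have h2 : 4 * ((k : ℝ) + 1) = Real.exp (Real.log 4 + Real.log (k + 1)) := by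
          rw [Real.exp_add, Real.exp_log (by norm_num), Real.exp_log (by linarith)]
        rw [h2, ← Real.exp_add]
        apply Real.exp_le_exp.2
        have h3 : ε ^ 2 * y ^ (1 / 2 - δ / 2) ≤ ε ^ 2 * k :=
          mul_le_mul_of_nonneg_left hcase.le (by positivity)
        linarith
      linarith
    · -- the second term
      have h1 : 2 * Real.exp (-(c2 * (y / Real.log (k + 1)))) ≤ Real.exp (-y ^ (1 / 2 - δ)) := by
        have h2 : (2 : ℝ) = Real.exp (Real.log 2) := (Real.exp_log (by norm_num)).symm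
        calc 2 * Real.exp (-(c2 * (y / Real.log (k + 1)))) =
              Real.exp (Real.log 2) * Real.exp (-(c2 * (y / Real.log (k + 1)))) := by rw [← h2]
          _ = Real.exp (Real.log 2 + -(c2 * (y / Real.log (k + 1)))) := (Real.exp_add _ _).symm
          _ ≤ Real.exp (-y ^ (1 / 2 - δ)) := by
            apply Real.exp_le_exp.2
            have h3 : Real.log 2 + y ^ (1 / 2 - δ) ≤ c2 * (y / Real.log (k + 1)) := by
              rw [← mul_div_assoc, le_div_iff₀ hlk]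
              refine le_trans ?_ g8
              apply mul_le_mul_of_nonneg_left hlky
              have h4 : 0 ≤ Real.log 2 := Real.log_nonneg (by norm_num)
              have h5 : 0 ≤ y ^ (1 / 2 - δ) := Real.rpow_nonneg hyp.le _
              linarith
            linarith
      linarith

end Pool.Agent.Lib.H59P
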