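import Pool.Agent.Lib.H59P.HL17

/-!
# Project H59P, chunk HL17B: the half law, all `0 < δ < 1`
-/

open Finset

namespace Pool.Agent.Lib.H59P

open Pool.Agent.Lib.H68T Pool.Agent.Lib.H18Q

/-- The asymptotic conditions on `y = log x`. -/
theorem hl17b_ev (c c2 δ ε : ℝ) (hc : 0 < c) (hc2 : 0 < c2) (hδ : 0 < δ) (hδ1 : δ < 1) (hε : 0 < ε) :
    ∀ᶠ y : ℝ in Filter.atTop, 3 ≤ y ∧ 1 / (1 - δ) ≤ y ^ (δ / 8) ∧
      y ^ ((1 - δ) / 2) * y ^ (1 / 2 - δ / 4) * Real.log (y + 1) ≤ (1 - δ) * c * y ∧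
      Real.log 4 + Real.log (y + 1) + y ^ ((1 - δ) / 2) ≤ ε ^ 2 * y ^ (1 / 2 - δ / 4) ∧
      (Real.log 2 + y ^ ((1 - δ) / 2)) * Real.log (y + 1) ≤ c2 * y := by
  have hd : 0 < 1 - δ := by linarith
  filter_upwards [(tendsto_rpow_atTop (show 0 < δ / 8 by positivity)).eventually
      (Filter.eventually_ge_atTop (1 / (1 - δ))),
    hl17_log (1 / ((1 - δ) * c)) (3 * δ / 4) (by positivity) (by positivity),
    hl17_log (4 / ε ^ 2) (δ / 4) (by positivity) (by positivity),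
    hl17_log (2 / c2) (1 / 2) (by positivity) (by positivity)] with y h1 h2 h3 h4
  obtain ⟨hy3, h2⟩ := h2
  obtain ⟨-, h3⟩ := h3
  obtain ⟨-, h4⟩ := h4
  have hy : 0 < y := by linarith
  have hy1 : 1 ≤ y := by linarith
  have hlog1 : 1 ≤ Real.log (y + 1) := by
    rw [Real.le_log_iff_exp_le (by linarith)]
    have := Real.exp_one_lt_three
    linarith
  have hu1 : 1 ≤ y ^ ((1 - δ) / 2) := Real.one_le_rpow hy1 (by linarith)
  refine ⟨hy3, h1, ?_, ?_, ?_⟩
  · have e1 : y ^ ((1 - δ) / 2) * y ^ (1 / 2 - δ / 4) * y ^ (3 * δ / 4) = y := by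
      rw [← Real.rpow_add hy, ← Real.rpow_add hy]
      have : ((1 - δ) / 2 + (1 / 2 - δ / 4) + 3 * δ / 4 : ℝ) = 1 := by ring
      rw [this, Real.rpow_one]
    have e2 : Real.log (y + 1) ≤ (1 - δ) * c * y ^ (3 * δ / 4) := by
      have h5 := mul_le_mul_of_nonneg_left h2 (show 0 ≤ (1 - δ) * c by positivity)
      have h6 : (1 - δ) * c * (1 / ((1 - δ) * c) * Real.log (y + 1)) = Real.log (y + 1) := by
        field_simp
      rw [h6] at h5
      exact h5
    have h7 : 0 ≤ y ^ ((1 - δ) / 2) * y ^ (1 / 2 - δ / 4) := by positivity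
    calc y ^ ((1 - δ) / 2) * y ^ (1 / 2 - δ / 4) * Real.log (y + 1) ≤
          y ^ ((1 - δ) / 2) * y ^ (1 / 2 - δ / 4) * ((1 - δ) * c * y ^ (3 * δ / 4)) :=
          mul_le_mul_of_nonneg_left e2 h7
      _ = (1 - δ) * c * (y ^ ((1 - δ) / 2) * y ^ (1 / 2 - δ / 4) * y ^ (3 * δ / 4)) := by ring
      _ = (1 - δ) * c * y := by rw [e1]
  · have e1 : y ^ (1 / 2 - δ / 4) = y ^ ((1 - δ) / 2) * y ^ (δ / 4) := by
      rw [← Real.rpow_add hy]
      congr 1
      ring
    have e2 : 4 * Real.log (y + 1) ≤ ε ^ 2 * y ^ (δ / 4) := by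
      have h5 := mul_le_mul_of_nonneg_left h3 (show 0 ≤ ε ^ 2 by positivity)
      have h6 : ε ^ 2 * (4 / ε ^ 2 * Real.log (y + 1)) = 4 * Real.log (y + 1) := by
        field_simp
      rw [h6] at h5
      exact h5
    have hl4 : Real.log 4 + 1 ≤ 3 := by
      have h5 : Real.log 4 = 2 * Real.log 2 := by
        rw [show (4 : ℝ) = 2 ^ 2 by norm_num, Real.log_pow]
        norm_num
      have h6 := Real.log_two_lt_d9
      rw [h5]
      linarith
    rw [e1]
    have h7 : 1 ≤ ε ^ 2 * y ^ (δ / 4) - 1 := by linarith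
    have h8 : ε ^ 2 * y ^ (δ / 4) - 1 ≤ (ε ^ 2 * y ^ (δ / 4) - 1) * y ^ ((1 - δ) / 2) :=
      le_mul_of_one_le_right (by linarith) hu1
    have h9 : ε ^ 2 * (y ^ ((1 - δ) / 2) * y ^ (δ / 4)) =
        (ε ^ 2 * y ^ (δ / 4) - 1) * y ^ ((1 - δ) / 2) + y ^ ((1 - δ) / 2) := by ring
    rw [h9]
    linarith
  · have e2 : 2 * Real.log (y + 1) ≤ c2 * y ^ (1 / 2 : ℝ) := by
      have h5 := mul_le_mul_of_nonneg_left h4 (show 0 ≤ c2 by positivity)
      have h6 : c2 * (2 / c2 * Real.log (y + 1)) = 2 * Real.log (y + 1) := by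
        field_simp
      rw [h6] at h5
      exact h5
    have h7 : Real.log 2 + y ^ ((1 - δ) / 2) ≤ 2 * y ^ (1 / 2 : ℝ) := by
      have h8 := Real.log_two_lt_d9
      have h9 : 1 ≤ y ^ (1 / 2 : ℝ) := Real.one_le_rpow hy1 (by norm_num)
      have h10 : y ^ ((1 - δ) / 2) ≤ y ^ (1 / 2 : ℝ) :=
        Real.rpow_le_rpow_of_exponent_le hy1 (by linarith)
      linarith
    have h11 : y ^ (1 / 2 : ℝ) * y ^ (1 / 2 : ℝ) = y := by
      rw [← Real.rpow_add hy]
      norm_num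
    have h12 : 0 ≤ y ^ (1 / 2 : ℝ) := Real.rpow_nonneg hy.le _
    calc (Real.log 2 + y ^ ((1 - δ) / 2)) * Real.log (y + 1) ≤
          2 * y ^ (1 / 2 : ℝ) * Real.log (y + 1) := mul_le_mul_of_nonneg_right h7 (by linarith)
      _ = y ^ (1 / 2 : ℝ) * (2 * Real.log (y + 1)) := by ring
      _ ≤ y ^ (1 / 2 : ℝ) * (c2 * y ^ (1 / 2 : ℝ)) := mul_le_mul_of_nonneg_left e2 h12
      _ = c2 * (y ^ (1 / 2 : ℝ) * y ^ (1 / 2 : ℝ)) := by ring
      _ = c2 * y := by rw [h11]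

/-- **HL17B, the half law.** As `HL17`, threshold `(log x)^(1/2-δ/4)` for `k`, `YD` with `δ/8`. -/
theorem HL17B (hF : FMain) (hT : TMain) (hA : AMain) (c0 : ℝ) (hc0 : 0 ≤ c0) (hlow : TLow c0)
    (hC : TCount) (δ ε : ℝ) (hδ : 0 < δ) (hδ1 : δ < 1) (hε : 0 < ε) (hε1 : ε < 1 / 2) :
    ∃ x0 : ℝ, ∀ x : ℝ, x0 ≤ x → ∀ k : ℕ, 1 ≤ k → (k : ℝ) ≤ (Real.log x) ^ (1 - δ) →
      ((fewS x δ (1 / 2 - ε) k).card : ℝ) ≤
        Real.exp (-(Real.log x) ^ ((1 - δ) / 2)) * ((adm x δ k).card : ℝ) := by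
  have hd : 0 < 1 - δ := by linarith
  obtain ⟨c, z0, hc, HD⟩ := YD hF hT hA c0 hc0 hlow hC (δ / 8) (by positivity) (by linarith)
  obtain ⟨c2, x2, hc2, H16⟩ := HL16 hF hT hA c0 hc0 hlow hC δ δ ε hδ hδ1 hδ hδ1 hε hε1
  have hev : ∀ᶠ x : ℝ in Filter.atTop, x2 ≤ x ∧ (max z0 1) ^ (1 / (1 - δ)) ≤ x ∧ 1 ≤ x ∧
      (3 ≤ Real.log x ∧ 1 / (1 - δ) ≤ (Real.log x) ^ (δ / 8) ∧
      (Real.log x) ^ ((1 - δ) / 2) * (Real.log x) ^ (1 / 2 - δ / 4) * Real.log (Real.log x + 1) ≤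
        (1 - δ) * c * Real.log x ∧
      Real.log 4 + Real.log (Real.log x + 1) + (Real.log x) ^ ((1 - δ) / 2) ≤
        ε ^ 2 * (Real.log x) ^ (1 / 2 - δ / 4) ∧
      (Real.log 2 + (Real.log x) ^ ((1 - δ) / 2)) * Real.log (Real.log x + 1) ≤ c2 * Real.log x) := by
    filter_upwards [Filter.eventually_ge_atTop x2,
      Filter.eventually_ge_atTop ((max z0 1) ^ (1 / (1 - δ))),
      Filter.eventually_ge_atTop (1 : ℝ),
      Real.tendsto_log_atTop.eventually (hl17b_ev c c2 δ ε hc hc2 hδ hδ1 hε)] with x h1 h2 h3 h4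
    exact ⟨h1, h2, h3, h4⟩
  obtain ⟨x0, hx0⟩ := Filter.eventually_atTop.1 hev
  refine ⟨x0, ?_⟩
  intro x hx k hk hkx
  obtain ⟨g1, g2, g3, g4, g5, g6, g7, g8⟩ := hx0 x hx
  have hxp : 0 < x := by linarith
  set y := Real.log x with hy
  have hyp : 0 < y := by linarith
  have hk1 : (1 : ℝ) ≤ k := by exact_mod_cast hk
  have hk0 : (0 : ℝ) < k := by linarith
  have hlk : 0 < Real.log (k + 1) := Real.log_pos (by linarith)
  have hky : (k : ℝ) ≤ y := by
    refine hkx.trans ?_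
    calc y ^ (1 - δ) ≤ y ^ (1 : ℝ) := Real.rpow_le_rpow_of_exponent_le (by linarith) (by linarith)
      _ = y := Real.rpow_one y
  have hlky : Real.log (k + 1) ≤ Real.log (y + 1) := Real.log_le_log (by linarith) (by linarith)
  have hAd : (0 : ℝ) ≤ ((adm x δ k).card : ℝ) := Nat.cast_nonneg _
  by_cases hcase : (k : ℝ) ≤ y ^ (1 / 2 - δ / 4)
  · -- few elements: all translates
    set a := (1 - δ) / (1 - δ / 8) with ha
    have hd8 : 0 < 1 - δ / 8 := by linarith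
    have ha1 : a ≤ 1 := by
      rw [ha, div_le_one hd8]
      linarith
    have ha2 : 1 - δ ≤ a := by
      rw [ha, le_div_iff₀ hd8]
      have h1 : (1 - δ) * (1 - δ / 8) ≤ (1 - δ) * 1 := mul_le_mul_of_nonneg_left (by linarith) hd.le
      linarith
    have ha0 : 0 < a := by linarith
    set z := x ^ a with hz
    have hzx : z ≤ x := by
      calc z ≤ x ^ (1 : ℝ) := Real.rpow_le_rpow_of_exponent_le g3 ha1
        _ = x := Real.rpow_one x
    have hzd : z ^ (1 - δ / 8) = x ^ (1 - δ) := by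
      rw [hz, ← Real.rpow_mul hxp.le, ha, div_mul_cancel₀ _ hd8.ne']
    have hlz : Real.log z = a * y := by rw [hz, Real.log_rpow hxp]
    have hz0 : z0 ≤ z := by
      have h1 : max z0 1 ≤ x ^ (1 - δ) := by
        have h2 : ((max z0 1) ^ (1 / (1 - δ))) ^ (1 - δ) ≤ x ^ (1 - δ) :=
          Real.rpow_le_rpow (by positivity) g2 hd.le
        rw [← Real.rpow_mul (by positivity), one_div, inv_mul_cancel₀ hd.ne', Real.rpow_one] at h2
        exact h2
      have h2 : x ^ (1 - δ) ≤ z := Real.rpow_le_rpow_of_exponent_le g3 ha2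
      exact (le_max_left _ _).trans (h1.trans h2)
    have hzk : (k : ℝ) ≤ (Real.log z) ^ (1 / 2 - δ / 8) := by
      refine hcase.trans ?_
      rw [hlz, Real.mul_rpow ha0.le hyp.le]
      have h1 : y ^ (1 / 2 - δ / 8) = y ^ (δ / 8) * y ^ (1 / 2 - δ / 4) := by
        rw [← Real.rpow_add hyp]
        congr 1
        ring
      have h2 : (1 - δ : ℝ) ≤ a ^ (1 / 2 - δ / 8) := by
        calc (1 - δ : ℝ) ≤ a := ha2
          _ = a ^ (1 : ℝ) := (Real.rpow_one a).symm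
          _ ≤ a ^ (1 / 2 - δ / 8) :=
            Real.rpow_le_rpow_of_exponent_ge ha0 ha1 (by linarith)
      have h3 : 0 ≤ y ^ (1 / 2 - δ / 4) := Real.rpow_nonneg hyp.le _
      rw [h1]
      have h4 : 1 ≤ a ^ (1 / 2 - δ / 8) * y ^ (δ / 8) := by
        calc (1 : ℝ) = (1 - δ) * (1 / (1 - δ)) := by field_simp
          _ ≤ a ^ (1 / 2 - δ / 8) * y ^ (δ / 8) :=
            mul_le_mul h2 g5 (by positivity) (by positivity)
      calc y ^ (1 / 2 - δ / 4) = 1 * y ^ (1 / 2 - δ / 4) := by ring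
        _ ≤ a ^ (1 / 2 - δ / 8) * y ^ (δ / 8) * y ^ (1 / 2 - δ / 4) :=
          mul_le_mul_of_nonneg_right h4 h3
        _ = _ := by ring
    have hD := HD z hz0 k hk hzk
    obtain ⟨hsub, hadm⟩ := hl17_sub x z δ (δ / 8) (1 / 2 - ε) k (by linarith) hzx hzd
    have hcard : ((fewS x δ (1 / 2 - ε) k).card : ℝ) ≤ ((bad z (δ / 8) k).card : ℝ) := by
      exact_mod_cast card_le_card hsub
    refine hcard.trans (hD.trans ?_)
    rw [← hadm]
    apply mul_le_mul_of_nonneg_right _ hAd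
    have hzp : 0 < z := Real.rpow_pos_of_pos hxp _
    rw [Real.rpow_def_of_pos hzp, hlz]
    apply Real.exp_le_exp.2
    have hkl : 0 < (k : ℝ) * Real.log (k + 1) := by positivity
    have h5 : y ^ ((1 - δ) / 2) * (k * Real.log (k + 1)) ≤ (1 - δ) * c * y := by
      have hu0 : 0 ≤ y ^ ((1 - δ) / 2) := Real.rpow_nonneg hyp.le _
      have hv0 : 0 ≤ y ^ (1 / 2 - δ / 4) := Real.rpow_nonneg hyp.le _
      calc y ^ ((1 - δ) / 2) * (k * Real.log (k + 1)) ≤
            y ^ ((1 - δ) / 2) * (y ^ (1 / 2 - δ / 4) * Real.log (y + 1)) :=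
            mul_le_mul_of_nonneg_left (mul_le_mul hcase hlky hlk.le hv0) hu0
        _ = y ^ ((1 - δ) / 2) * y ^ (1 / 2 - δ / 4) * Real.log (y + 1) := by ring
        _ ≤ (1 - δ) * c * y := g6
    have h6 : y ^ ((1 - δ) / 2) ≤ a * y * (c / (k * Real.log (k + 1))) := by
      rw [← mul_div_assoc, le_div_iff₀ hkl]
      refine h5.trans ?_
      have h7 := mul_le_mul_of_nonneg_right ha2 (show 0 ≤ c * y by positivity)
      linarith
    have h8 : a * y * -(c / (k * Real.log (k + 1))) = -(a * y * (c / (k * Real.log (k + 1)))) := by ring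
    rw [h8]
    linarith
  · -- many elements
    rw [not_le] at hcase
    have h16 := H16 x g1 k hk hkx
    refine h16.trans ?_
    apply mul_le_mul_of_nonneg_right _ hAd
    have hE : Real.exp (-y ^ ((1 - δ) / 2)) =
        Real.exp (-y ^ ((1 - δ) / 2)) / 2 + Real.exp (-y ^ ((1 - δ) / 2)) / 2 := by
      ring
    rw [hE]
    apply add_le_add
    · -- the first term
      have h1 : 4 * ((k : ℝ) + 1) * Real.exp (-(ε ^ 2 * k)) ≤ Real.exp (-y ^ ((1 - δ) / 2)) := by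
        have h2 : 4 * ((k : ℝ) + 1) = Real.exp (Real.log 4 + Real.log (k + 1)) := by
          rw [Real.exp_add, Real.exp_log (by norm_num), Real.exp_log (by linarith)]
        rw [h2, ← Real.exp_add]
        apply Real.exp_le_exp.2
        have h3 : ε ^ 2 * y ^ (1 / 2 - δ / 4) ≤ ε ^ 2 * k :=
          mul_le_mul_of_nonneg_left hcase.le (by positivity)
        linarith
      linarith
    · -- the second term
      have h1 : 2 * Real.exp (-(c2 * (y / Real.log (k + 1)))) ≤ Real.exp (-y ^ ((1 - δ) / 2)) := by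
        have h2 : (2 : ℝ) = Real.exp (Real.log 2) := (Real.exp_log (by norm_num)).symm
        calc 2 * Real.exp (-(c2 * (y / Real.log (k + 1)))) =
              Real.exp (Real.log 2) * Real.exp (-(c2 * (y / Real.log (k + 1)))) := by rw [← h2]
          _ = Real.exp (Real.log 2 + -(c2 * (y / Real.log (k + 1)))) := (Real.exp_add _ _).symm
          _ ≤ Real.exp (-y ^ ((1 - δ) / 2)) := by
            apply Real.exp_le_exp.2
            have h3 : Real.log 2 + y ^ ((1 - δ) / 2) ≤ c2 * (y / Real.log (k + 1)) := by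
              rw [← mul_div_assoc, le_div_iff₀ hlk]
              refine le_trans ?_ g8
              apply mul_le_mul_of_nonneg_left hlky
              have h4 : 0 ≤ Real.log 2 := Real.log_nonneg (by norm_num)
              have h5 : 0 ≤ y ^ ((1 - δ) / 2) := Real.rpow_nonneg hyp.le _
              linarith
            linarith
      linarith

end Pool.Agent.Lib.H59P
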