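import Pool.Agent.Lib.H68X.XRM

/-!
# Project H59P, chunk HL18: sets with many elements in a sparse set
-/

open Finset

namespace Pool.Agent.Lib.H59P

open Pool.Agent.Lib.H68T

open Classical in
/-- **HL18.** Proof. As `many_plus` (`H68X/XRM.lean`) with the threshold `θ k` in place of `k/8`. -/
theorem HL18 (U P : Finset ℕ) (hP : P ⊆ U) (k : ℕ) (ν θ : ℝ) (hν0 : 0 < ν) (hν1 : ν ≤ 1) (hθ : 0 ≤ θ)
    (hν : (P.card : ℝ) ≤ ν * U.card) :
    (((U.powersetCard k).filter (fun A => θ * k ≤ ((A ∩ P).card : ℝ))).card : ℝ) ≤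
      2 ^ k * ν ^ (θ * k) * ((U.card : ℝ) ^ k / (k.factorial : ℝ)) := by
  have h1 : ((U.powersetCard k).filter (fun A => θ * k ≤ ((A ∩ P).card : ℝ))).card ≤
      ∑ j ∈ (range (k + 1)).filter (fun j : ℕ => θ * k ≤ (j : ℝ)),
        P.card.choose j * U.card.choose (k - j) := by
    calc ((U.powersetCard k).filter (fun A => θ * k ≤ ((A ∩ P).card : ℝ))).card
        ≤ (((range (k + 1)).filter (fun j : ℕ => θ * k ≤ (j : ℝ))).biUnion (fun j =>
            (P.powersetCard j ×ˢ U.powersetCard (k - j)).image (fun q => q.1 ∪ q.2))).card := by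
          apply Finset.card_le_card
          intro A hA
          rw [Finset.mem_filter, Finset.mem_powersetCard] at hA
          obtain ⟨⟨hAU, hAk⟩, hk⟩ := hA
          have hle : (A ∩ P).card ≤ A.card := Finset.card_le_card Finset.inter_subset_left
          rw [Finset.mem_biUnion]
          refine ⟨(A ∩ P).card, ?_, ?_⟩
          · rw [Finset.mem_filter, Finset.mem_range]
            exact ⟨by omega, hk⟩
          · rw [Finset.mem_image]
            refine ⟨(A ∩ P, A \ P), ?_, ?_⟩
            · rw [Finset.mem_product, Finset.mem_powersetCard, Finset.mem_powersetCard]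
              refine ⟨⟨Finset.inter_subset_right, rfl⟩,
                ⟨Finset.sdiff_subset.trans hAU, ?_⟩⟩
              have := Finset.card_inter_add_card_sdiff A P
              change (A \ P).card = k - (A ∩ P).card
              omega
            · ext x
              simp only [Finset.mem_union, Finset.mem_inter, Finset.mem_sdiff]
              tauto
      _ ≤ ∑ j ∈ (range (k + 1)).filter (fun j : ℕ => θ * k ≤ (j : ℝ)),
            ((P.powersetCard j ×ˢ U.powersetCard (k - j)).image (fun q => q.1 ∪ q.2)).card :=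
          Finset.card_biUnion_le
      _ ≤ ∑ j ∈ (range (k + 1)).filter (fun j : ℕ => θ * k ≤ (j : ℝ)),
            P.card.choose j * U.card.choose (k - j) := by
          apply Finset.sum_le_sum
          intro j _
          refine Finset.card_image_le.trans ?_
          rw [Finset.card_product, Finset.card_powersetCard, Finset.card_powersetCard]
  have h2 : ∀ j ∈ (range (k + 1)).filter (fun j : ℕ => θ * k ≤ (j : ℝ)),
      ((P.card.choose j : ℝ) * (U.card.choose (k - j) : ℝ)) ≤
        (k.choose j : ℝ) * (ν ^ (θ * k) * ((U.card : ℝ) ^ k / (k.factorial : ℝ))) := by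
    intro j hj
    rw [Finset.mem_filter, Finset.mem_range] at hj
    have hjk : j ≤ k := by omega
    have hkj : θ * k ≤ j := hj.2
    have h3 : (P.card.choose j : ℝ) ≤ (P.card : ℝ) ^ j / (j.factorial : ℝ) :=
      Nat.choose_le_pow_div j P.card
    have h4 : (U.card.choose (k - j) : ℝ) ≤ (U.card : ℝ) ^ (k - j) / ((k - j).factorial : ℝ) :=
      Nat.choose_le_pow_div (k - j) U.card
    have h5 : (P.card : ℝ) ^ j ≤ (ν * U.card) ^ j :=
      pow_le_pow_left₀ (Nat.cast_nonneg _) hν j
    have h6 : ν ^ j ≤ ν ^ (θ * k) := by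
      rw [← Real.rpow_natCast]
      exact Real.rpow_le_rpow_of_exponent_ge hν0 hν1 hkj
    have h7 : (k.choose j : ℝ) * (j.factorial : ℝ) * ((k - j).factorial : ℝ) =
        (k.factorial : ℝ) := by
      exact_mod_cast Nat.choose_mul_factorial_mul_factorial hjk
    have hj0 : (0 : ℝ) < (j.factorial : ℝ) := by exact_mod_cast Nat.factorial_pos j
    have hkj0 : (0 : ℝ) < ((k - j).factorial : ℝ) := by exact_mod_cast Nat.factorial_pos (k - j)
    have hk0 : (0 : ℝ) < (k.factorial : ℝ) := by exact_mod_cast Nat.factorial_pos k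
    calc (P.card.choose j : ℝ) * (U.card.choose (k - j) : ℝ)
        ≤ ((P.card : ℝ) ^ j / (j.factorial : ℝ)) *
            ((U.card : ℝ) ^ (k - j) / ((k - j).factorial : ℝ)) :=
          mul_le_mul h3 h4 (Nat.cast_nonneg _) (by positivity)
      _ ≤ ((ν * U.card) ^ j / (j.factorial : ℝ)) *
            ((U.card : ℝ) ^ (k - j) / ((k - j).factorial : ℝ)) := by
          apply mul_le_mul_of_nonneg_right _ (by positivity)
          exact div_le_div_of_nonneg_right h5 hj0.le
      _ = (k.choose j : ℝ) * (ν ^ j * ((U.card : ℝ) ^ k / (k.factorial : ℝ))) := by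
          have h8 : (U.card : ℝ) ^ k = (U.card : ℝ) ^ j * (U.card : ℝ) ^ (k - j) := by
            rw [← pow_add]
            congr 1
            omega
          rw [h8, ← h7, mul_pow]
          have hc0 : (0 : ℝ) < (k.choose j : ℝ) := by
            exact_mod_cast Nat.choose_pos hjk
          field_simp
      _ ≤ (k.choose j : ℝ) * (ν ^ (θ * k) * ((U.card : ℝ) ^ k / (k.factorial : ℝ))) := by
          apply mul_le_mul_of_nonneg_left _ (Nat.cast_nonneg _)
          exact mul_le_mul_of_nonneg_right h6 (by positivity)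
  have h1' : (((U.powersetCard k).filter (fun A => θ * k ≤ ((A ∩ P).card : ℝ))).card : ℝ) ≤
      ∑ j ∈ (range (k + 1)).filter (fun j : ℕ => θ * k ≤ (j : ℝ)),
        ((P.card.choose j : ℝ) * (U.card.choose (k - j) : ℝ)) := by
    exact_mod_cast h1
  refine h1'.trans ((Finset.sum_le_sum h2).trans ?_)
  rw [← Finset.sum_mul, mul_assoc]
  apply mul_le_mul_of_nonneg_right _ (by positivity)
  calc ∑ j ∈ (range (k + 1)).filter (fun j : ℕ => θ * k ≤ (j : ℝ)), (k.choose j : ℝ)
      ≤ ∑ j ∈ range (k + 1), (k.choose j : ℝ) := by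
        apply Finset.sum_le_sum_of_subset_of_nonneg (Finset.filter_subset _ _)
        intro j _ _
        positivity
    _ = 2 ^ k := by exact_mod_cast Nat.sum_range_choose k

end Pool.Agent.Lib.H59P
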