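import Pool.Agent.Lib.H59P.HL10
import Pool.Agent.Lib.H59P.HL18
import Pool.Agent.Lib.H68X.XRB

/-!
# Project H59P, chunk HL19: very few sets have (1/2+ε)k primes in a translate if there is a bad zero
-/

open Finset

namespace Pool.Agent.Lib.H59P

open Pool.Agent.Lib.H68T Pool.Agent.Lib.H18Q

open Classical in
/-- **HL19.** Proof. As `XRB_count` (`H68X/XRB.lean`) and `TB_count`. Let `A` be an admissible `k`-set and `n ≤ x`
with `#{n + a prime} ≥ (1/2+ε) k`. Either `A` meets `range (r+1)` (`S1`: `S1.card (H+1) ≤ k (r+1) 2 k^k N` and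
`4 k (r+1) 2 k^k exp (ε² k) ≤ 16 k r k^k exp k ≤ H+1`, so `S1.card ≤ exp (-ε²k)/4 N`); or all primes `n + a` are
prime to `r`, so `ψ(n+a) = ±1`, and `#{ψ(n+a) = -1} ≥ (1/2 + 3ε/4) k` (`S2`: `HL10B` with `3ε/4`: at most
`2 r k exp (-(9/8) ε² k) N ≤ exp (-ε²k)/4 N`, `hr`) or `#(A ∩ XRB_P r ψ H n) ≥ (ε/4) k` (`S3`, union over
`n ≤ x`: `HL18` with `θ = ε/4`, `hP`, `adm_lower`, `hsum`). Together `3/4 exp (-ε²k) N < exp (-ε²k) N`. -/
theorem HL19 (r : ℕ) [NeZero r] (ψ : DirichletCharacter ℂ r) (hprim : ψ.IsPrimitive) (hψ : ψ ≠ 1)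
    (hψ2 : ψ ^ 2 = 1) (k H : ℕ) (x ν ε : ℝ) (hk : 2 ≤ k) (hx : 0 ≤ x) (hε : 0 < ε) (hε1 : ε ≤ 1 / 2)
    (hH : (100 * k ^ 2 * (r * 4 ^ k) : ℝ) * (k : ℝ) ^ k * Real.exp k ≤ H + 1)
    (hν0 : 0 < ν) (hν1 : ν ≤ 1)
    (hP : ∀ n : ℕ, 1 ≤ n → (n : ℝ) ≤ x → ((XRB_P r ψ H n).card : ℝ) ≤ ν * (H + 1))
    (hr : 2 * (r * (k * Real.exp (-(9 / 8 * ε ^ 2 * k)))) ≤ Real.exp (-(ε ^ 2 * k)) / 4)
    (hsum : x * (2 ^ (k + 1) * (k : ℝ) ^ k * ν ^ (ε / 4 * k)) ≤ Real.exp (-(ε ^ 2 * k)) / 4) :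
    ((((range (H + 1)).powersetCard k).filter (fun A => Admissible A ∧
        HasMany x (1 / 2 + ε) A)).card : ℝ) <
      Real.exp (-(ε ^ 2 * k)) *
        ((((range (H + 1)).powersetCard k).filter (fun A => Admissible A)).card : ℝ) := by
  set e0 : ℝ := Real.exp (-(ε ^ 2 * k)) with he0
  have he0pos : 0 < e0 := Real.exp_pos _
  set U := range (H + 1) with hU
  set 𝒜 := (U.powersetCard k).filter (fun A => Admissible A) with h𝒜
  set N : ℝ := (𝒜.card : ℝ) with hN
  have hUc : (U.card : ℝ) = H + 1 := by rw [hU, card_range]; push_cast; ring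
  have hr1 : (1 : ℝ) ≤ r := by
    have : 0 < r := Nat.pos_of_ne_zero (NeZero.ne r)
    exact_mod_cast this
  have hk1 : (2 : ℝ) ≤ k := by exact_mod_cast hk
  have hkk : (1 : ℝ) ≤ (k : ℝ) ^ k := one_le_pow₀ (by linarith)
  have h4k : (1 : ℝ) ≤ (4 : ℝ) ^ k := one_le_pow₀ (by norm_num)
  have hek : (1 : ℝ) ≤ Real.exp k := Real.one_le_exp (by linarith)
  have hH1 : (0 : ℝ) < (H : ℝ) + 1 := by positivity
  have hprimo : 8 * k ^ 2 * primorial k ≤ H + 1 := by
    have h1 : primorial k ≤ 4 ^ k := primorial_le_four_pow k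
    have h2 : (8 * k ^ 2 * primorial k : ℝ) ≤ H + 1 := by
      refine le_trans ?_ hH
      have h3 : (primorial k : ℝ) ≤ (4 : ℝ) ^ k := by exact_mod_cast h1
      have h4 : (1 : ℝ) ≤ (k : ℝ) ^ k * Real.exp k := one_le_mul_of_one_le_of_one_le hkk hek
      calc (8 * k ^ 2 * primorial k : ℝ) ≤ 8 * k ^ 2 * 4 ^ k := by
            apply mul_le_mul_of_nonneg_left h3 (by positivity)
        _ ≤ 100 * k ^ 2 * (r * 4 ^ k) := by
            have : (4 : ℝ) ^ k ≤ r * 4 ^ k := le_mul_of_one_le_left (by positivity) hr1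
            have h5 : (0 : ℝ) ≤ (k : ℝ) ^ 2 := by positivity
            linarith [mul_le_mul_of_nonneg_left this h5, mul_nonneg h5 (show (0:ℝ) ≤ 4 ^ k by positivity)]
        _ ≤ 100 * k ^ 2 * (r * 4 ^ k) * ((k : ℝ) ^ k * Real.exp k) :=
            le_mul_of_one_le_right (by positivity) h4
        _ = _ := by ring
    exact_mod_cast h2
  have hadm := adm_lower H k (by omega) hprimo
  have hNpos : 0 < N := by
    by_contra hcon
    have h0 : N = 0 := le_antisymm (not_lt.1 hcon) (Nat.cast_nonneg _)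
    have h1 : ((((range (H + 1)).powersetCard k).filter (fun A => Admissible A)).card : ℝ) = 0 := h0
    rw [h1, mul_zero] at hadm
    exact absurd hadm (not_le.2 (by positivity))
  have hfac : (0 : ℝ) < (k.factorial : ℝ) := by exact_mod_cast k.factorial_pos
  have hT : ((H : ℝ) + 1) ^ k / (k.factorial : ℝ) ≤ 2 * (k : ℝ) ^ k * N := by
    rw [div_le_iff₀ hfac]
    calc ((H : ℝ) + 1) ^ k ≤ _ := hadm
      _ = _ := by rw [hN, h𝒜, hU]; ring
  have hmul : (1 : ℝ) ≤ e0 * Real.exp k := by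
    rw [he0, ← Real.exp_add]
    apply Real.one_le_exp
    have h1 : ε ^ 2 ≤ 1 := by
      calc ε ^ 2 ≤ (1 / 2 : ℝ) ^ 2 := pow_le_pow_left₀ hε.le hε1 2
        _ ≤ 1 := by norm_num
    have h2 : ε ^ 2 * k ≤ 1 * k := mul_le_mul_of_nonneg_right h1 (by linarith)
    linarith
  set S1 := (U.powersetCard k).filter (fun A => (A ∩ range (r + 1)).Nonempty) with hS1
  set S2 := (U.powersetCard k).filter (fun A => Admissible A ∧
      ∃ n : ℕ, (1 / 2 + 3 / 4 * ε) * k ≤ (mnA ψ n A : ℝ)) with hS2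
  set S3 := (Icc 1 ⌊x⌋₊).biUnion (fun n =>
      (U.powersetCard k).filter (fun A => ε / 4 * k ≤ ((A ∩ XRB_P r ψ H n).card : ℝ))) with hS3
  set S := (U.powersetCard k).filter (fun A => Admissible A ∧ HasMany x (1 / 2 + ε) A) with hS
  have hsub : S ⊆ S1 ∪ S2 ∪ S3 := by
    intro A hA
    obtain ⟨hA2, hadmA, n, hn1, hnx, hpr⟩ := mem_filter.1 hA
    by_cases h1 : (A ∩ range (r + 1)).Nonempty
    · exact mem_union_left _ (mem_union_left _ (mem_filter.2 ⟨hA2, h1⟩))
    · have hbig : ∀ a ∈ A, r < a := by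
        intro a ha
        by_contra hcon
        exact h1 ⟨a, mem_inter.2 ⟨ha, mem_range.2 (by omega)⟩⟩
      have hval : ∀ a ∈ A, (n + a).Prime → ψ ((n + a : ℕ) : ZMod r) = 1 ∨ ψ ((n + a : ℕ) : ZMod r) = -1 := by
        intro a ha hpa
        have hcop : Nat.Coprime (n + a) r := by
          rw [Nat.Prime.coprime_iff_not_dvd hpa]
          intro hdvd
          have := Nat.le_of_dvd (Nat.pos_of_ne_zero (NeZero.ne r)) hdvd
          have := hbig a ha
          omega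
        have hu : IsUnit ((n + a : ℕ) : ZMod r) := (ZMod.isUnit_iff_coprime _ _).2 hcop
        have h2 : ψ ((n + a : ℕ) : ZMod r) ^ 2 = 1 := by
          rw [← MulChar.pow_apply' ψ two_ne_zero, hψ2, MulChar.one_apply hu]
        have h3 : (ψ ((n + a : ℕ) : ZMod r) - 1) * (ψ ((n + a : ℕ) : ZMod r) + 1) = 0 := by
          linear_combination h2
        rcases mul_eq_zero.mp h3 with h4 | h4
        · exact Or.inl (sub_eq_zero.mp h4)
        · exact Or.inr (eq_neg_of_add_eq_zero_left h4)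
      have hAk : A.card = k := (mem_powersetCard.1 hA2).2
      have hsubset : A.filter (fun a => (n + a).Prime) ⊆
          A.filter (fun a : ℕ => ψ ((n + a : ℕ) : ZMod r) = -1) ∪ (A ∩ XRB_P r ψ H n) := by
        intro a ha
        obtain ⟨ha1, ha2⟩ := mem_filter.1 ha
        rcases hval a ha1 ha2 with h3 | h3
        · exact mem_union_right _ (mem_inter.2 ⟨ha1, mem_filter.2 ⟨(mem_powersetCard.1 hA2).1 ha1, ha2, h3⟩⟩)
        · exact mem_union_left _ (mem_filter.2 ⟨ha1, h3⟩)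
      have hcard : ((A.filter (fun a => (n + a).Prime)).card : ℝ) ≤
          (mnA ψ n A : ℝ) + ((A ∩ XRB_P r ψ H n).card : ℝ) := by
        have h3 : (A.filter (fun a => (n + a).Prime)).card ≤ mnA ψ n A + (A ∩ XRB_P r ψ H n).card :=
          (card_le_card hsubset).trans (card_union_le _ _)
        exact_mod_cast h3
      rw [hAk] at hpr
      by_cases h2 : ε / 4 * k ≤ ((A ∩ XRB_P r ψ H n).card : ℝ)
      · exact mem_union_right _ (mem_biUnion.2 ⟨n, mem_Icc.2 ⟨hn1, Nat.le_floor hnx⟩,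
          mem_filter.2 ⟨hA2, h2⟩⟩)
      · refine mem_union_left _ (mem_union_right _ (mem_filter.2 ⟨hA2, hadmA, n, ?_⟩))
        rw [not_le] at h2
        linarith
  have hc1 : (S1.card : ℝ) ≤ e0 / 4 * N := by
    have hrH : range (r + 1) ⊆ U := by
      rw [hU]
      apply range_subset_range.2
      have : (r : ℝ) + 1 ≤ H + 1 := by
        refine le_trans ?_ hH
        have h4 : (1 : ℝ) ≤ (k : ℝ) ^ k * Real.exp k := one_le_mul_of_one_le_of_one_le hkk hek
        calc (r : ℝ) + 1 ≤ 100 * k ^ 2 * (r * 4 ^ k) := by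
              have h5 : (4 : ℝ) ≤ (k : ℝ) ^ 2 := by
                have := pow_le_pow_left₀ (by norm_num) hk1 2
                norm_num at this
                exact this
              have h6 : (r : ℝ) ≤ r * 4 ^ k := le_mul_of_one_le_right (by linarith) h4k
              linarith [mul_le_mul h5 h6 (by linarith) (by positivity)]
          _ ≤ 100 * k ^ 2 * (r * 4 ^ k) * ((k : ℝ) ^ k * Real.exp k) :=
              le_mul_of_one_le_right (by positivity) h4
          _ = _ := by ring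
      exact_mod_cast this
    have h1 := meet_small U (range (r + 1)) hrH k (by omega)
    rw [hUc, card_range] at h1
    have h2 : (S1.card : ℝ) * (H + 1) ≤ k * (r + 1) * (2 * (k : ℝ) ^ k * N) := by
      refine h1.trans ?_
      push_cast
      exact mul_le_mul_of_nonneg_left hT (by positivity)
    have h3 : (k : ℝ) * (r + 1) * (2 * (k : ℝ) ^ k * N) ≤ e0 / 4 * N * (H + 1) := by
      have h4 : (k : ℝ) * (r + 1) * (2 * (k : ℝ) ^ k) ≤ e0 / 4 * (H + 1) := by
        have h5 : 8 * (k : ℝ) * (r + 1) * (k : ℝ) ^ k ≤ e0 * (H + 1) := by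
          refine le_trans ?_ (mul_le_mul_of_nonneg_left hH he0pos.le)
          have h6 : 8 * (k : ℝ) * (r + 1) ≤ 100 * k ^ 2 * (r * 4 ^ k) := by
            have h7 : (r : ℝ) ≤ r * 4 ^ k := le_mul_of_one_le_right (by linarith) h4k
            have h8 : (k : ℝ) ≤ (k : ℝ) ^ 2 := by
              rw [sq]
              exact le_mul_of_one_le_left (by linarith) (by linarith)
            have h10 : (k : ℝ) ≤ k * r := le_mul_of_one_le_right (by linarith) hr1
            have h11 : (0 : ℝ) ≤ k * r := by linarith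
            have h9 : (k : ℝ) * r ≤ (k : ℝ) ^ 2 * (r * 4 ^ k) :=
              mul_le_mul h8 h7 (by linarith) (by positivity)
            linarith
          calc 8 * (k : ℝ) * (r + 1) * (k : ℝ) ^ k ≤ 100 * k ^ 2 * (r * 4 ^ k) * (k : ℝ) ^ k :=
                mul_le_mul_of_nonneg_right h6 (by positivity)
            _ ≤ 100 * k ^ 2 * (r * 4 ^ k) * (k : ℝ) ^ k * (e0 * Real.exp k) :=
                le_mul_of_one_le_right (by positivity) hmul
            _ = e0 * (100 * k ^ 2 * (r * 4 ^ k) * (k : ℝ) ^ k * Real.exp k) := by ring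
        linarith
      calc (k : ℝ) * (r + 1) * (2 * (k : ℝ) ^ k * N) = (k : ℝ) * (r + 1) * (2 * (k : ℝ) ^ k) * N := by
            ring
        _ ≤ e0 / 4 * (H + 1) * N := mul_le_mul_of_nonneg_right h4 hNpos.le
        _ = _ := by ring
    exact le_of_mul_le_mul_right (h2.trans h3) hH1
  have hc2 : (S2.card : ℝ) ≤ e0 / 4 * N := by
    have h1 := HL10B H k r ψ hprim hψ hψ2 (by omega) hH (3 / 4 * ε) (by linarith) (by linarith)
    refine h1.trans ?_
    have h2 : 2 * (3 / 4 * ε) ^ 2 * (k : ℝ) = 9 / 8 * ε ^ 2 * k := by ring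
    rw [h2]
    exact mul_le_mul_of_nonneg_right hr hNpos.le
  have hc3 : (S3.card : ℝ) ≤ e0 / 4 * N := by
    have h1 : (S3.card : ℝ) ≤ ∑ n ∈ Icc 1 ⌊x⌋₊,
        (((U.powersetCard k).filter (fun A => ε / 4 * k ≤ ((A ∩ XRB_P r ψ H n).card : ℝ))).card : ℝ) := by
      have := card_biUnion_le (s := Icc 1 ⌊x⌋₊) (t := fun n =>
        (U.powersetCard k).filter (fun A => ε / 4 * k ≤ ((A ∩ XRB_P r ψ H n).card : ℝ)))
      exact_mod_cast this
    have h2 : ∀ n ∈ Icc 1 ⌊x⌋₊,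
        (((U.powersetCard k).filter (fun A => ε / 4 * k ≤ ((A ∩ XRB_P r ψ H n).card : ℝ))).card : ℝ) ≤
          2 ^ k * ν ^ (ε / 4 * k) * (2 * (k : ℝ) ^ k * N) := by
      intro n hn
      obtain ⟨hn1, hn2⟩ := mem_Icc.1 hn
      have hnx : (n : ℝ) ≤ x := (Nat.le_floor_iff hx).1 hn2
      have h3 := HL18 U (XRB_P r ψ H n) (filter_subset _ _) k ν (ε / 4) hν0 hν1 (by linarith)
        (by rw [hUc]; exact hP n hn1 hnx)
      refine h3.trans ?_
      rw [hUc]
      exact mul_le_mul_of_nonneg_left hT (by positivity)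
    refine h1.trans ((sum_le_sum h2).trans ?_)
    rw [sum_const, Nat.card_Icc, nsmul_eq_mul]
    have h3 : ((⌊x⌋₊ + 1 - 1 : ℕ) : ℝ) ≤ x := by
      rw [Nat.add_sub_cancel]
      exact Nat.floor_le hx
    calc ((⌊x⌋₊ + 1 - 1 : ℕ) : ℝ) * (2 ^ k * ν ^ (ε / 4 * k) * (2 * (k : ℝ) ^ k * N))
        ≤ x * (2 ^ k * ν ^ (ε / 4 * k) * (2 * (k : ℝ) ^ k * N)) :=
          mul_le_mul_of_nonneg_right h3 (by positivity)
      _ = x * (2 ^ (k + 1) * (k : ℝ) ^ k * ν ^ (ε / 4 * k)) * N := by rw [pow_succ]; ring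
      _ ≤ e0 / 4 * N := mul_le_mul_of_nonneg_right hsum hNpos.le
  have hSc : (S.card : ℝ) ≤ 3 / 4 * (e0 * N) := by
    have h1 : S.card ≤ S1.card + S2.card + S3.card :=
      (card_le_card hsub).trans ((card_union_le _ _).trans
        (Nat.add_le_add_right (card_union_le _ _) _))
    have h2 : (S.card : ℝ) ≤ S1.card + S2.card + S3.card := by exact_mod_cast h1
    linarith
  have hpos : 0 < e0 * N := mul_pos he0pos hNpos
  linarith

end Pool.Agent.Lib.H59P
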