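import Pool.Agent.Lib.H68X.XRC

/-!
# Project H59P, chunk HL2: a primitive real character on a coset of the kernel of reduction modulo r/l
-/

open Finset

namespace Pool.Agent.Lib.H59P

open Pool.Agent.Lib.H68T

theorem hl2_solve (r : ℕ) [NeZero r] (l : ℕ) (hl : l.Prime) (hlr : l ∣ r) (v : ℕ) (hv : Nat.Coprime v l)
    (z : ZMod r) : ∃ t, t < l ∧ (t : ZMod r) * ((r / l * v : ℕ) : ZMod r) = ((r / l : ℕ) : ZMod r) * z := by
  haveI : Fact l.Prime := ⟨hl⟩
  haveI : NeZero l := ⟨hl.ne_zero⟩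
  refine ⟨(((z.val : ℕ) : ZMod l) * ((v : ℕ) : ZMod l)⁻¹).val, ZMod.val_lt _, ?_⟩
  set t : ℕ := (((z.val : ℕ) : ZMod l) * ((v : ℕ) : ZMod l)⁻¹).val with ht
  have hv0 : ((v : ℕ) : ZMod l) ≠ 0 := by
    intro h
    rw [ZMod.natCast_eq_zero_iff] at h
    exact (Nat.Prime.coprime_iff_not_dvd hl).1 hv.symm h
  have h1 : ((t * v : ℕ) : ZMod l) = ((z.val : ℕ) : ZMod l) := by
    rw [Nat.cast_mul, ht, ZMod.natCast_zmod_val, mul_assoc, inv_mul_cancel₀ hv0, mul_one]
  have h2 : t * v ≡ z.val [MOD l] := (ZMod.natCast_eq_natCast_iff _ _ _).1 h1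
  have h3 : r / l * (t * v) ≡ r / l * z.val [MOD r / l * l] := Nat.ModEq.mul_left' _ h2
  rw [Nat.div_mul_cancel hlr] at h3
  have h4 := (ZMod.natCast_eq_natCast_iff _ _ _).2 h3
  rw [Nat.cast_mul, Nat.cast_mul, Nat.cast_mul, ZMod.natCast_zmod_val] at h4
  rw [← h4, Nat.cast_mul]
  ring

theorem hl2_inj (r : ℕ) [NeZero r] (l : ℕ) (hl : l.Prime) (hlr : l ∣ r) (v : ℕ) (hv : Nat.Coprime v l)
    {t t' : ℕ} (ht : t < l) (ht' : t' < l)
    (h : (t : ZMod r) * ((r / l * v : ℕ) : ZMod r) = (t' : ZMod r) * ((r / l * v : ℕ) : ZMod r)) :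
    t = t' := by
  have hr : 0 < r := Nat.pos_of_ne_zero (NeZero.ne r)
  have hq : 0 < r / l := Nat.div_pos (Nat.le_of_dvd hr hlr) hl.pos
  rw [← Nat.cast_mul, ← Nat.cast_mul, ZMod.natCast_eq_natCast_iff] at h
  have h1 : r / l * (t * v) ≡ r / l * (t' * v) [MOD r / l * l] := by
    rw [Nat.div_mul_cancel hlr]
    have e1 : r / l * (t * v) = t * (r / l * v) := by ring
    have e2 : r / l * (t' * v) = t' * (r / l * v) := by ring
    rw [e1, e2]
    exact h
  have h2 : t * v ≡ t' * v [MOD l] := Nat.ModEq.mul_left_cancel' hq.ne' h1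
  have h3 : t ≡ t' [MOD l] := Nat.ModEq.cancel_right_of_coprime (by rw [Nat.gcd_comm]; exact hv) h2
  exact Nat.ModEq.eq_of_lt_of_lt h3 ht ht'

theorem hl2_unit (r : ℕ) [NeZero r] (ψ : DirichletCharacter ℂ r) (hprim : ψ.IsPrimitive) (hψ2 : ψ ^ 2 = 1)
    (l : ℕ) (hl : l.Prime) (hlr : l ∣ r) :
    ∃ u s : ZMod r, IsUnit u ∧ ψ u = -1 ∧ u = 1 + ((r / l : ℕ) : ZMod r) * s := by
  have hr : 0 < r := Nat.pos_of_ne_zero (NeZero.ne r)
  have hq : 0 < r / l := Nat.div_pos (Nat.le_of_dvd hr hlr) hl.pos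
  haveI : NeZero (r / l) := ⟨hq.ne'⟩
  have hd : r / l ∣ r := Nat.div_dvd_of_dvd hlr
  have hlt : r / l < r := Nat.div_lt_self hr hl.one_lt
  by_contra hcon
  push Not at hcon
  have h1 : ψ.FactorsThrough (r / l) := by
    rw [DirichletCharacter.factorsThrough_iff_ker_unitsMap hd]
    intro u hu
    rw [MonoidHom.mem_ker] at hu ⊢
    rcases XRC_sign hψ2 u.isUnit with h2 | h2
    · exact Units.ext h2
    · exfalso
      have h3 : ((u : ZMod r).cast : ZMod (r / l)) = 1 := by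
        have h4 := congrArg Units.val hu
        rwa [ZMod.unitsMap_val] at h4
      have h5 : (((u : ZMod r).val : ℕ) : ZMod (r / l)) = ((1 : ℕ) : ZMod (r / l)) := by
        rw [Nat.cast_one, ← h3, ZMod.natCast_val]
      have h6 : (((u : ZMod r).val : ℤ) : ZMod (r / l)) = ((1 : ℤ) : ZMod (r / l)) := by
        exact_mod_cast h5
      rw [ZMod.intCast_eq_intCast_iff_dvd_sub] at h6
      obtain ⟨s, hs⟩ := h6
      refine hcon u ((-s : ℤ) : ZMod r) u.isUnit h2 ?_
      have h7 : (((u : ZMod r).val : ℤ) : ZMod r) = (u : ZMod r) := by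
        rw [Int.cast_natCast, ZMod.natCast_zmod_val]
      have h8 : ((u : ZMod r).val : ℤ) = 1 + ((r / l : ℕ) : ℤ) * (-s) := by linarith
      rw [← h7, h8, Int.cast_add, Int.cast_one, Int.cast_mul, Int.cast_natCast]
  have h9 : ψ.conductor ∣ r / l :=
    DirichletCharacter.conductor_dvd_of_mem_conductorSet ψ h1
  rw [(DirichletCharacter.isPrimitive_def ψ).1 hprim] at h9
  exact absurd (Nat.le_of_dvd hq h9) (not_le.2 hlt)

open Classical in
theorem hl2_le (r : ℕ) [NeZero r] (ψ : DirichletCharacter ℂ r) (l : ℕ) (hl : l.Prime) (hlr : l ∣ r) (v : ℕ)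
    (hv : Nat.Coprime v l) (m : ZMod r) (u s : ZMod r) (hu : IsUnit u) (hψu : ψ u = -1)
    (hus : u = 1 + ((r / l : ℕ) : ZMod r) * s) (a : ℂ) :
    ((range l).filter (fun t : ℕ => ψ (m + (t : ZMod r) * ((r / l * v : ℕ) : ZMod r)) = a)).card ≤
    ((range l).filter (fun t : ℕ => ψ (m + (t : ZMod r) * ((r / l * v : ℕ) : ZMod r)) = -a)).card := by
  have key : ∀ t : ℕ, ∃ t', t' < l ∧ m + (t' : ZMod r) * ((r / l * v : ℕ) : ZMod r) =
      u * (m + (t : ZMod r) * ((r / l * v : ℕ) : ZMod r)) := by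
    intro t
    obtain ⟨t', ht', h1⟩ := hl2_solve r l hl hlr v hv (s * m + u * (t * v))
    refine ⟨t', ht', ?_⟩
    rw [h1, Nat.cast_mul]
    linear_combination (-m) * hus
  choose f hf1 hf2 using key
  refine Finset.card_le_card_of_injOn f ?_ ?_
  · intro t ht
    rw [Finset.mem_coe, mem_filter] at ht
    rw [Finset.mem_coe, mem_filter, mem_range]
    refine ⟨hf1 t, ?_⟩
    rw [hf2 t, map_mul, hψu, ht.2]
    ring
  · intro t ht t' ht' h
    rw [Finset.mem_coe, mem_filter, mem_range] at ht ht'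
    have h1 := hf2 t
    have h2 := hf2 t'
    have h3 : f t = f t' := h
    rw [h3, h2] at h1
    have h4 := hu.mul_left_cancel h1
    exact (hl2_inj r l hl hlr v hv ht'.1 ht.1 (add_left_cancel h4)).symm

open Classical in
/-- **HL2.** `ψ` primitive modulo `r`, `l` a prime divisor of `r`: on the coset `m + (r/l) ℤ` of `ℤ/r` (`v` is
prime to `l`, so `t ↦ v t` permutes the classes modulo `l`) the values `1` and `-1` are equally frequent.

Proof. There is a unit `u` of `ZMod r`, `u ≡ 1 mod r/l`, with `ψ u ≠ 1`: otherwise `ψ` factors through `r/l`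
(`DirichletCharacter.factorsThrough_iff_ker_unitsMap`), but its conductor is `r > r/l`
(`DirichletCharacter.conductor_le_conductor_mem_conductorSet`, `IsPrimitive`). `ψ u = -1` (`XRC_sign`).
Multiplication by `u` maps the coset to itself: `u (m + s (r/l)) - m = (u - 1) m + u s (r/l)` is a multiple of
`r/l`; it is injective and changes the sign of `ψ`. (The elements `m + t (r/l) v`, `t < l`, are distinct and are
the whole coset; e.g. show that `Fin l → ZMod r`, `t ↦ m + t (r/l) v` is injective with image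
`{x | (x - m).cast = 0 in ZMod (r/l)}`, a set of `l` elements, then `Finset.card_bij` with multiplication by `u`.) -/
theorem HL2 (r : ℕ) [NeZero r] (ψ : DirichletCharacter ℂ r) (hprim : ψ.IsPrimitive) (hψ2 : ψ ^ 2 = 1)
    (l : ℕ) (hl : l.Prime) (hlr : l ∣ r) (v : ℕ) (hv : Nat.Coprime v l) (m : ZMod r) :
    ((range l).filter (fun t : ℕ => ψ (m + (t : ZMod r) * ((r / l * v : ℕ) : ZMod r)) = 1)).card =
    ((range l).filter (fun t : ℕ => ψ (m + (t : ZMod r) * ((r / l * v : ℕ) : ZMod r)) = -1)).card := by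
  obtain ⟨u, s, hu, hψu, hus⟩ := hl2_unit r ψ hprim hψ2 l hl hlr
  refine le_antisymm ?_ ?_
  · exact hl2_le r ψ l hl hlr v hv m u s hu hψu hus 1
  · have h1 := hl2_le r ψ l hl hlr v hv m u s hu hψu hus (-1)
    rwa [neg_neg] at h1

end Pool.Agent.Lib.H59P
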