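import Pool.Agent.Lib.H59P.TB1
import Pool.Agent.Lib.H51D.VRB

/-!
# Chunk TB2 (M/L): the barrier for the weak form (port of `H51D/VRB.lean`)

Copy `VRB_Big`, `VRB_ev`, `VRB_num` and `barrierK` of `H51D/VRB.lean` with `k = ⌈8 u⌉ + 40` instead of
`⌈4 u⌉ + 12` (`u = log r`, so `8 u + 40 ≤ k ≤ 9 u` for `u ≥ 41`) and `TB_count` instead of `XRB_count`. Only the
constants change: `k 16^e ≤ 9 u 16 = 144 u`, so `b3` becomes `144 ≤ u^ρ`; `log (5u)` becomes `log (9u)`;
`hr`: `2 r exp (-k/4) = 2 exp (u - k/4) ≤ 2 exp (-k/8) exp (-5) ≤ exp (-k/16)/4` (`u ≤ (k - 40)/8`, so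
`u - k/4 ≤ -k/8 - 5`, and `8 ≤ exp 5`); `hsum`: the old proof shows that the left side is at most
`exp (-k)`, and `exp (-k) ≤ exp (-k/16)/4` for `k ≥ 2`. The conclusion of `TB_count` contradicts
`SomeHaveK κ`.
-/

open Finset

namespace Pool.Agent.Lib.H59P

open Pool.Agent.Lib.H68T

/-- The asymptotic conditions on `u = log r`. -/
structure TB2_Big (γ ρ C X0 u : ℝ) : Prop where
  u13 : 41 ≤ u
  b1 : Real.log (4 * C) + 2 * Real.log u ≤ u ^ γ / 2
  b0 : Real.log u ≤ u ^ γ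
  b2 : X0 ≤ u ^ (1 + γ) / 16
  b3 : 144 ≤ u ^ ρ
  b4 : 4 + u + u ^ γ / 2 ≤ u ^ (1 + γ) / 96
  b9 : Real.log (9 * u) + 7 ≤ u ^ γ / 96

open Filter in
theorem tb2_ev (γ ρ C X0 : ℝ) (hγ : 0 < γ) (hρ : 0 < ρ) : ∀ᶠ u : ℝ in atTop, TB2_Big γ ρ C X0 u := by
  have t1 : Tendsto (fun u : ℝ => u ^ γ) atTop atTop := tendsto_rpow_atTop hγ
  have t2 : Tendsto (fun u : ℝ => u ^ (1 + γ)) atTop atTop := tendsto_rpow_atTop (by linarith)
  have t3 : Tendsto (fun u : ℝ => u ^ ρ) atTop atTop := tendsto_rpow_atTop hρ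
  filter_upwards [eventually_ge_atTop (41 : ℝ), t1.eventually (eventually_ge_atTop (4 * |Real.log (4 * C)|)),
    ev_log 8 γ hγ, t2.eventually (eventually_ge_atTop (16 * |X0|)),
    t3.eventually (eventually_ge_atTop 144), t2.eventually (eventually_ge_atTop (4 * 288)),
    ev_rpow 288 1 (1 + γ) (by linarith), ev_rpow 288 γ (1 + γ) (by linarith),
    ev_log 192 γ hγ, t1.eventually (eventually_ge_atTop (192 * (Real.log 9 + 7)))] with u h13 h1 h2 h3 h4 h5 h6 h7 h8 h9
  have hu : 0 < u := by linarith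
  have hlu : 0 ≤ Real.log u := Real.log_nonneg (by linarith)
  have ha := le_abs_self (Real.log (4 * C))
  have hb := le_abs_self X0
  rw [Real.rpow_one] at h6
  refine ⟨h13, by linarith, by linarith, by linarith, h4, by linarith, ?_⟩
  rw [Real.log_mul (by norm_num) hu.ne']
  linarith

/-- The numbers. -/
theorem tb2_num (γ ρ C X0 u : ℝ) (hC : 0 < C) (hB : TB2_Big γ ρ C X0 u)
    (k H : ℕ) (hkdef : k = ⌈8 * u⌉₊ + 40) (x ν δ e L1 r : ℝ) (hδ0 : 0 < δ) (hδ3 : δ ≤ 1 / 3)
    (he0 : 0 < e) (he1 : e ≤ 1) (he : 1 + ρ ≤ (1 + γ) * e)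
    (hx : x = Real.exp (k * u ^ γ / 64)) (hHdef : H = ⌊x ^ (1 - δ)⌋₊) (hν : ν = Real.exp (-(u ^ γ / 2)))
    (hL1 : L1 ≤ C * Real.exp (-(u ^ γ)) * u ^ 2) (hr : r = Real.exp u) :
    X0 ≤ Real.log x ∧ (k : ℝ) ≤ (Real.log x) ^ e ∧
    (100 * k ^ 2 * (r * 4 ^ k) : ℝ) * (k : ℝ) ^ k * Real.exp k ≤ H + 1 ∧
    (H + 1) * L1 + 8 * r * Real.sqrt (x + H) ≤ ν * (H + 1) ∧
    2 * r * Real.exp (-(k / 4 : ℝ)) ≤ Real.exp (-(k / 16 : ℝ)) / 4 ∧
    x * (2 ^ (k + 1) * (k : ℝ) ^ k * ν ^ ((k : ℝ) / 8)) ≤ Real.exp (-(k / 16 : ℝ)) / 4 := by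
  have hu13 := hB.u13
  have hu : 0 < u := by linarith
  have hueps : 0 < u ^ γ := Real.rpow_pos_of_pos hu γ
  have hk1 : 8 * u + 40 ≤ k := by
    rw [hkdef]; push_cast
    have := Nat.le_ceil (8 * u)
    linarith
  have hk2 : (k : ℝ) ≤ 9 * u := by
    rw [hkdef]; push_cast
    have := Nat.ceil_lt_add_one (show 0 ≤ 8 * u by linarith)
    linarith
  have hkpos : (0 : ℝ) < k := by linarith
  have hlogx : Real.log x = k * u ^ γ / 64 := by rw [hx, Real.log_exp]
  have hu1e : u ^ (1 + γ) = u * u ^ γ := by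
    rw [Real.rpow_add hu, Real.rpow_one]
  have hLlow : u ^ (1 + γ) / 16 ≤ k * u ^ γ / 64 := by
    rw [hu1e]
    have := mul_le_mul_of_nonneg_right (show 4 * u ≤ k by linarith) hueps.le
    linarith
  have hxpos : 0 < x := by rw [hx]; exact Real.exp_pos _
  have hlogpos : 0 < Real.log x := by rw [hlogx]; positivity
  -- logarithm of k
  have hlogk : Real.log k ≤ Real.log (9 * u) := Real.log_le_log hkpos hk2
  have hlogk0 : 0 ≤ Real.log k := Real.log_nonneg (by linarith)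
  have hb9 := hB.b9
  have hHlow : Real.exp ((1 - δ) * (k * u ^ γ / 64)) ≤ (H : ℝ) + 1 := by
    have h1 : x ^ (1 - δ) = Real.exp ((1 - δ) * (k * u ^ γ / 64)) := by
      rw [Real.rpow_def_of_pos hxpos, hlogx]
      ring_nf
    rw [← h1, hHdef]
    exact (Nat.lt_floor_add_one _).le
  have hkk : (k : ℝ) ^ k = Real.exp (k * Real.log k) := by
    rw [← Real.rpow_natCast, Real.rpow_def_of_pos hkpos]
    ring_nf
  refine ⟨hB.b2.trans (hLlow.trans hlogx.ge), ?_, ?_, ?_, ?_, ?_⟩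
  · -- k ≤ (log x)^e
    rw [hlogx]
    have h1 : (u ^ (1 + γ) / 16) ^ e ≤ (k * u ^ γ / 64) ^ e :=
      Real.rpow_le_rpow (by positivity) hLlow he0.le
    refine le_trans ?_ h1
    rw [Real.div_rpow (by positivity) (by norm_num), ← Real.rpow_mul hu.le]
    have h2 : (16 : ℝ) ^ e ≤ 16 := by
      calc (16 : ℝ) ^ e ≤ 16 ^ (1 : ℝ) :=
            Real.rpow_le_rpow_of_exponent_le (by norm_num) he1
        _ = 16 := by norm_num
    have h3 : u ^ (1 + ρ) ≤ u ^ ((1 + γ) * e) :=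
      Real.rpow_le_rpow_of_exponent_le (by linarith) he
    have h4 : u ^ (1 + ρ) = u * u ^ ρ := by rw [Real.rpow_add hu, Real.rpow_one]
    rw [le_div_iff₀ (by positivity)]
    have h5 := hB.b3
    calc (k : ℝ) * 16 ^ e ≤ (9 * u) * 16 := mul_le_mul hk2 h2 (by positivity) (by linarith)
      _ = u * 144 := by ring
      _ ≤ u * u ^ ρ := mul_le_mul_of_nonneg_left h5 hu.le
      _ ≤ _ := by rw [← h4]; exact h3
  · -- the size of H
    refine le_trans ?_ hHlow
    have h100 : (100 : ℝ) ≤ Real.exp k := by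
      have h1 : (64 : ℝ) ≤ k := by linarith
      have h2 := Real.add_one_le_exp (k / 2 : ℝ)
      have h3 : Real.exp k = Real.exp (k / 2) ^ 2 := by
        rw [← Real.exp_nat_mul]; congr 1; push_cast; ring
      rw [h3]
      calc (100 : ℝ) ≤ 33 ^ 2 := by norm_num
        _ ≤ _ := pow_le_pow_left₀ (by norm_num) (by linarith) 2
    have hk2' : (k : ℝ) ^ 2 ≤ Real.exp (2 * k) := by
      have h2 := Real.add_one_le_exp (k : ℝ)
      have h3 : Real.exp (2 * k) = Real.exp k ^ 2 := by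
        rw [← Real.exp_nat_mul]; norm_num
      rw [h3]
      exact pow_le_pow_left₀ hkpos.le (by linarith) 2
    have h4k : (4 : ℝ) ^ k ≤ Real.exp (2 * k) := by
      have h1 : (4 : ℝ) ≤ Real.exp 2 := by
        have h2 := Real.add_one_le_exp (1 : ℝ)
        have h3 : Real.exp 2 = Real.exp 1 ^ 2 := by
          rw [← Real.exp_nat_mul]; norm_num
        rw [h3]
        calc (4 : ℝ) = 2 ^ 2 := by norm_num
          _ ≤ _ := pow_le_pow_left₀ (by norm_num) (by linarith) 2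
      calc (4 : ℝ) ^ k ≤ (Real.exp 2) ^ k := by gcongr
        _ = _ := by rw [← Real.exp_nat_mul]; congr 1; ring
    have hr' : r ≤ Real.exp (k / 4) := by
      rw [hr]
      apply Real.exp_le_exp.2
      linarith
    calc (100 * k ^ 2 * (r * 4 ^ k) : ℝ) * (k : ℝ) ^ k * Real.exp k
        ≤ (Real.exp k * Real.exp (2 * k) * (Real.exp (k / 4) * Real.exp (2 * k))) *
          Real.exp (k * Real.log k) * Real.exp k := by
          rw [hkk]
          have hr0 : 0 ≤ r := by rw [hr]; positivity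
          gcongr
      _ = Real.exp (k * (Real.log k + (6 + 1 / 4))) := by
          rw [← Real.exp_add, ← Real.exp_add, ← Real.exp_add, ← Real.exp_add, ← Real.exp_add]
          congr 1
          ring
      _ ≤ Real.exp ((1 - δ) * (k * u ^ γ / 64)) := by
          apply Real.exp_le_exp.2
          have h1 : Real.log k + (6 + 1 / 4) ≤ u ^ γ / 96 := by linarith
          have h2 : (k : ℝ) * (Real.log k + (6 + 1 / 4)) ≤ k * (u ^ γ / 96) :=
            mul_le_mul_of_nonneg_left h1 hkpos.le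
          have h3 : (2 / 3 : ℝ) * (k * u ^ γ / 64) ≤ (1 - δ) * (k * u ^ γ / 64) :=
            mul_le_mul_of_nonneg_right (by linarith) (by positivity)
          linarith
  · -- few primes
    have hH0 : (0 : ℝ) < (H : ℝ) + 1 := by positivity
    have hL1' : L1 ≤ ν / 4 := by
      refine hL1.trans ?_
      have h1 : 4 * C * u ^ 2 ≤ Real.exp (u ^ γ / 2) := by
        have h2 : Real.log (4 * C * u ^ 2) ≤ u ^ γ / 2 := by
          rw [Real.log_mul (by positivity) (by positivity), Real.log_pow]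
          push_cast
          exact hB.b1
        rwa [Real.log_le_iff_le_exp (by positivity)] at h2
      have h3 : Real.exp (-(u ^ γ)) = ν * Real.exp (-(u ^ γ / 2)) := by
        rw [hν, ← Real.exp_add]
        congr 1
        ring
      have h4 : Real.exp (u ^ γ / 2) * Real.exp (-(u ^ γ / 2)) = 1 := by
        rw [← Real.exp_add]
        simp
      have hνpos : 0 < ν := by rw [hν]; positivity
      rw [h3]
      have h5 : 4 * C * u ^ 2 * Real.exp (-(u ^ γ / 2)) ≤ 1 := by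
        rw [← h4]
        exact mul_le_mul_of_nonneg_right h1 (Real.exp_pos _).le
      have h6 := mul_le_mul_of_nonneg_left h5 hνpos.le
      linarith
    have hHx : (H : ℝ) ≤ x := by
      rw [hHdef]
      refine (Nat.floor_le (by positivity)).trans ?_
      have hx1 : 1 ≤ x := by rw [hx]; exact Real.one_le_exp (by positivity)
      calc x ^ (1 - δ) ≤ x ^ (1 : ℝ) := Real.rpow_le_rpow_of_exponent_le hx1 (by linarith)
        _ = x := Real.rpow_one x
    have hsq : Real.sqrt (x + H) ≤ 3 / 2 * Real.exp (k * u ^ γ / 64 / 2) := by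
      rw [Real.sqrt_le_left (by positivity)]
      have h1 : (3 / 2 * Real.exp (k * u ^ γ / 64 / 2)) ^ 2 = 9 / 4 * x := by
        rw [mul_pow, ← Real.exp_nat_mul, hx]
        congr 1
        · norm_num
        · congr 1; push_cast; ring
      rw [h1]
      linarith
    have hr0 : 0 < r := by rw [hr]; positivity
    have h8 : 16 * r * Real.exp (k * u ^ γ / 64 / 2) ≤ ν * (H + 1) := by
      have h1 : (16 : ℝ) ≤ Real.exp 4 := by
        have h2 := Real.add_one_le_exp (1 : ℝ)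
        have h3 : Real.exp 4 = Real.exp 1 ^ 4 := by
          rw [← Real.exp_nat_mul]; norm_num
        rw [h3]
        have : (2 : ℝ) ^ 4 ≤ Real.exp 1 ^ 4 := by gcongr; linarith
        norm_num at this
        linarith
      calc 16 * r * Real.exp (k * u ^ γ / 64 / 2)
          ≤ Real.exp 4 * Real.exp u * Real.exp (k * u ^ γ / 64 / 2) := by
            rw [hr]; gcongr
        _ = Real.exp (4 + u + k * u ^ γ / 64 / 2) := by rw [← Real.exp_add, ← Real.exp_add]
        _ ≤ Real.exp (-(u ^ γ / 2) + (1 - δ) * (k * u ^ γ / 64)) := by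
            apply Real.exp_le_exp.2
            have h2 := hB.b4
            have h3 : (1 / 6 : ℝ) * (k * u ^ γ / 64) ≤ (1 / 2 - δ) * (k * u ^ γ / 64) :=
              mul_le_mul_of_nonneg_right (by linarith) (by positivity)
            linarith
        _ = ν * Real.exp ((1 - δ) * (k * u ^ γ / 64)) := by rw [Real.exp_add, hν]
        _ ≤ _ := by
            apply mul_le_mul_of_nonneg_left hHlow
            rw [hν]; positivity
    have h9 : 8 * r * Real.sqrt (x + H) ≤ 3 / 4 * (ν * (H + 1)) := by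
      calc 8 * r * Real.sqrt (x + H) ≤ 8 * r * (3 / 2 * Real.exp (k * u ^ γ / 64 / 2)) :=
            mul_le_mul_of_nonneg_left hsq (by positivity)
        _ = 3 / 4 * (16 * r * Real.exp (k * u ^ γ / 64 / 2)) := by ring
        _ ≤ _ := mul_le_mul_of_nonneg_left h8 (by norm_num)
    have h10 : ((H : ℝ) + 1) * L1 ≤ (H + 1) * (ν / 4) := mul_le_mul_of_nonneg_left hL1' hH0.le
    linarith
  · have h1 : (8 : ℝ) ≤ Real.exp 5 := by
      have h2 := Real.add_one_le_exp (1 : ℝ)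
      have h3 : Real.exp 5 = Real.exp 1 ^ 5 := by
        rw [← Real.exp_nat_mul]; norm_num
      rw [h3]
      have : (2 : ℝ) ^ 5 ≤ Real.exp 1 ^ 5 := by gcongr; linarith
      norm_num at this
      linarith
    have h2 : 8 * (r * Real.exp (-(k / 4 : ℝ))) ≤ Real.exp (-(k / 16 : ℝ)) := by
      rw [hr, ← Real.exp_add]
      calc 8 * Real.exp (u + -(k / 4 : ℝ)) ≤ Real.exp 5 * Real.exp (u + -(k / 4 : ℝ)) := by gcongr
        _ = Real.exp (5 + (u + -(k / 4 : ℝ))) := by rw [← Real.exp_add]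
        _ ≤ _ := Real.exp_le_exp.2 (by linarith)
    linarith
  · have hνk : ν ^ ((k : ℝ) / 8) = Real.exp (-(k * u ^ γ / 16)) := by
      rw [hν, ← Real.exp_mul]
      congr 1
      ring
    have h2k : (2 : ℝ) ^ (k + 1) ≤ Real.exp (k + 1) := by
      have h1 : (2 : ℝ) ≤ Real.exp 1 := by
        have h2 := Real.add_one_le_exp (1 : ℝ)
        linarith
      calc (2 : ℝ) ^ (k + 1) ≤ (Real.exp 1) ^ (k + 1) := by gcongr
        _ = _ := by rw [← Real.exp_nat_mul]; congr 1; push_cast; ring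
    have h8 : Real.exp (-(k : ℝ)) ≤ Real.exp (-(k / 16 : ℝ)) / 4 := by
      have h1 : (64 : ℝ) ≤ k := by linarith
      have h2 := Real.add_one_le_exp (15 * k / 16 : ℝ)
      have h3 : Real.exp (-(k / 16 : ℝ)) = Real.exp (-(k : ℝ)) * Real.exp (15 * k / 16 : ℝ) := by
        rw [← Real.exp_add]; congr 1; ring
      rw [h3]
      have h4 : Real.exp (-(k : ℝ)) * 4 ≤ Real.exp (-(k : ℝ)) * Real.exp (15 * k / 16 : ℝ) :=
        mul_le_mul_of_nonneg_left (by linarith) (Real.exp_pos _).le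
      linarith
    rw [hνk, hkk, hx]
    calc Real.exp (k * u ^ γ / 64) * (2 ^ (k + 1) * Real.exp (k * Real.log k) *
          Real.exp (-(k * u ^ γ / 16)))
        ≤ Real.exp (k * u ^ γ / 64) * (Real.exp (k + 1) * Real.exp (k * Real.log k) *
          Real.exp (-(k * u ^ γ / 16))) := by gcongr
      _ = Real.exp (k * u ^ γ / 64 + (k + 1) + k * Real.log k - k * u ^ γ / 16) := by
          rw [← Real.exp_add, ← Real.exp_add, ← Real.exp_add]
          congr 1
          ring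
      _ ≤ Real.exp (-(k : ℝ)) := by
          apply Real.exp_le_exp.2
          have h1 : Real.log k + 7 ≤ u ^ γ / 96 := by linarith
          have h2 : (k : ℝ) * (Real.log k + 7) ≤ k * (u ^ γ / 96) :=
            mul_le_mul_of_nonneg_left h1 hkpos.le
          have h3 : 0 ≤ (k : ℝ) * u ^ γ := by positivity
          linarith
      _ ≤ Real.exp (-(k / 16 : ℝ)) / 4 := h8

theorem barrierS (κ : ℝ) (hκ : 0 < κ) (hκ1 : κ ≤ 1) : SomeHaveK κ → NoSiegelK κ := by
  classical
  intro hM ε₀ hε₀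
  set ε := min ε₀ 1 with hεdef
  have hε : 0 < ε := lt_min hε₀ one_pos
  have hε1 : ε ≤ 1 := min_le_right _ _
  have hqκ : 1 / κ * κ = 1 := by field_simp
  have hq1 : 1 ≤ 1 / κ := by
    rw [le_div_iff₀ hκ]; linarith
  set γ := 1 / κ - 1 + ε with hγdef
  have hγ : 0 < γ := by rw [hγdef]; linarith
  have hκκ : κ ^ 2 ≤ κ := by nlinarith
  have hδ0 : 0 < ε * κ ^ 2 / 3 := by positivity
  have hδκ : ε * κ ^ 2 ≤ κ := by nlinarith [sq_nonneg κ]
  have hρ : 0 < ε * κ / 3 := by positivity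
  have he : 1 + ε * κ / 3 ≤ (1 + γ) * (κ - ε * κ ^ 2 / 3) := by
    have h1 : (1 + γ) * (κ - ε * κ ^ 2 / 3) = 1 + ε * κ - ε * κ / 3 - ε * (ε * κ ^ 2) / 3 := by
      rw [hγdef]
      linear_combination (1 - ε * κ / 3) * hqκ
    have h2 : ε * (ε * κ ^ 2) ≤ ε * κ := mul_le_mul_of_nonneg_left hδκ hε.le
    rw [h1]
    linarith
  obtain ⟨x₀, hx₀⟩ := hM (ε * κ ^ 2 / 3) hδ0 (by linarith)
  obtain ⟨C, hC, hL⟩ := L1_upper
  obtain ⟨u₀, hu₀⟩ := Filter.eventually_atTop.1 (tb2_ev γ (ε * κ / 3) C (Real.log (max x₀ 1)) hγ hρ)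
  refine ⟨max 100 ⌈Real.exp u₀⌉₊, ?_⟩
  intro r hr _ ψ hprim hψ hψ2 σ hσ hσ1 hzero
  have hr100 : 100 ≤ r := (le_max_left _ _).trans hr
  have hr100' : (100 : ℝ) ≤ r := by exact_mod_cast hr100
  have hrpos : (0 : ℝ) < r := by linarith
  have hu : u₀ ≤ Real.log r := by
    rw [Real.le_log_iff_exp_le hrpos]
    have h1 : ⌈Real.exp u₀⌉₊ ≤ r := (le_max_right _ _).trans hr
    exact (Nat.le_ceil _).trans (by exact_mod_cast h1)
  set u := Real.log r with hudef
  have hB := hu₀ u hu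
  have hu13 := hB.u13
  have hupos : 0 < u := by linarith
  have hexpu : Real.exp u = r := by rw [hudef, Real.exp_log hrpos]
  -- the zero
  have hσne : σ ≠ 1 := by
    rintro rfl
    exact DirichletCharacter.LFunction_apply_one_ne_zero hψ (by exact_mod_cast hzero)
  have hσ2 : 1 - Real.exp (-(u ^ γ)) ≤ σ := by
    refine le_trans ?_ hσ
    have h1 : u ^ γ ≤ u ^ (1 / κ - 1 + ε₀) :=
      Real.rpow_le_rpow_of_exponent_le (by linarith) (by rw [hγdef]; linarith [min_le_left ε₀ 1])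
    have h2 : Real.exp (-(u ^ (1 / κ - 1 + ε₀))) ≤ Real.exp (-(u ^ γ)) :=
      Real.exp_le_exp.2 (by linarith)
    linarith
  have hσ3 : 1 - 1 / u ≤ σ := by
    refine le_trans ?_ hσ2
    have h1 : Real.exp (-(u ^ γ)) ≤ 1 / u := by
      rw [Real.exp_neg, one_div]
      apply inv_anti₀ hupos
      have h2 := hB.b0
      rwa [Real.log_le_iff_le_exp hupos] at h2
    linarith
  have hL1 := hL r ψ hr100 hψ σ hσ3 hσ1 hzero
  have hL2 : ‖ψ.LFunction 1‖ ≤ C * Real.exp (-(u ^ γ)) * u ^ 2 := by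
    refine hL1.trans ?_
    have h1 : 1 - σ ≤ Real.exp (-(u ^ γ)) := by linarith
    have h2 : C * (1 - σ) ≤ C * Real.exp (-(u ^ γ)) := mul_le_mul_of_nonneg_left h1 hC.le
    exact mul_le_mul_of_nonneg_right h2 (by positivity)
  -- the parameters
  set k := ⌈8 * u⌉₊ + 40 with hk
  set x := Real.exp (k * u ^ γ / 64) with hx
  set H := ⌊x ^ (1 - ε * κ ^ 2 / 3)⌋₊ with hH
  set ν := Real.exp (-(u ^ γ / 2)) with hν
  have hueps : 0 < u ^ γ := Real.rpow_pos_of_pos hupos γ
  obtain ⟨n1, n2, n3, n4, n5, n6⟩ := tb2_num γ (ε * κ / 3) C (Real.log (max x₀ 1)) u hC hB k H hk x ν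
    (ε * κ ^ 2 / 3) (κ - ε * κ ^ 2 / 3) ‖ψ.LFunction 1‖ r hδ0 (by nlinarith) (by linarith) (by linarith) he
    hx hH hν hL2 hexpu.symm
  have hxpos : 0 < x := Real.exp_pos _
  have hx0 : x₀ ≤ x := by
    have h1 : max x₀ 1 ≤ x := by
      rwa [Real.log_le_log_iff (by positivity) hxpos] at n1
    exact (le_max_left _ _).trans h1
  have hν0 : 0 < ν := Real.exp_pos _
  have hν1 : ν ≤ 1 := by
    rw [hν, Real.exp_le_one_iff]
    linarith
  have hcount := TB_count r ψ hψ hψ2 k H x ν (by omega) hxpos.le n3 hν0 hν1 ?_ n5 n6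
  · have h1 := hx₀ x hx0 k (by omega) n2
    exact absurd hcount (not_lt.2 h1)
  · intro n hn1 hnx
    have h1 := plus_primes r ψ hψ hψ2 n H hn1
    have h2 : ((XRB_P r ψ H n).card : ℝ) ≤
        (((Icc n (n + H)).filter (fun p : ℕ => p.Prime ∧ ψ (p : ZMod r) = 1)).card : ℝ) := by
      have : (XRB_P r ψ H n).card ≤
          ((Icc n (n + H)).filter (fun p : ℕ => p.Prime ∧ ψ (p : ZMod r) = 1)).card := by
        refine card_le_card_of_injOn (fun a => n + a) ?_ ?_
        · intro a ha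
          obtain ⟨h3, h4, h5⟩ := mem_filter.1 (mem_coe.1 ha)
          rw [mem_range] at h3
          have h6 : n + a ≤ n + H := by omega
          exact mem_coe.2 (mem_filter.2 ⟨mem_Icc.2 ⟨Nat.le_add_right _ _, h6⟩, h4, h5⟩)
        · intro a _ b _ hab
          simpa using hab
      exact_mod_cast this
    refine h2.trans (h1.trans (le_trans ?_ n4))
    have h3 : Real.sqrt ((n + H : ℕ) : ℝ) ≤ Real.sqrt (x + H) := by
      apply Real.sqrt_le_sqrt
      push_cast
      linarith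
    have h4 : 8 * (r : ℝ) * Real.sqrt ((n + H : ℕ) : ℝ) ≤ 8 * r * Real.sqrt (x + H) :=
      mul_le_mul_of_nonneg_left h3 (by positivity)
    linarith

end Pool.Agent.Lib.H59P
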