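import Pool.Agent.Lib.H59P.HLDefs
import Pool.Agent.Lib.H59P.YK

/-!
# Project H59P, chunk HL21: forward direction of the equivalence for (1/2+ε)k primes
-/

open Finset

namespace Pool.Agent.Lib.H59P

open Pool.Agent.Lib.H68T Pool.Agent.Lib.H18Q

/-- **HL21.** Proof. `YK`: `#bad ≤ exp (-(log x)^(κ-δ/2)) #adm`; an admissible set outside of `bad` has a prime
translate, which makes all `k ≥ (1/2+ε) k` elements prime; so `#manyS ≥ (1 - exp (-(log x)^(κ-δ/2))) #adm ≥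
exp (-ε²) #adm ≥ exp (-ε² k) #adm` for `x` large. -/
theorem HL21 (hF : FMain) (hT : TMain) (hA : AMain) (c0 : ℝ) (hc0 : 0 ≤ c0) (hlow : TLow c0)
    (hC : TCount) (κ ε : ℝ) (hκ : 0 < κ) (hκ1 : κ ≤ 1) (hε : 0 < ε) (hε1 : ε ≤ 1 / 2)
    (h : NoSiegelK κ) : ManyHave κ ε := by
  classical
  intro δ hδ hδκ
  obtain ⟨x0, hx0⟩ := YK hF hT hA c0 hc0 hlow hC κ hκ hκ1 h δ hδ hδκ
  have hg : 0 < κ - δ / 2 := by linarith
  set c : ℝ := 1 - Real.exp (-(ε ^ 2)) with hc
  have hcpos : 0 < c := by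
    have h1 : Real.exp (-(ε ^ 2)) < 1 := by
      rw [Real.exp_lt_one_iff]
      have : 0 < ε ^ 2 := by positivity
      linarith
    linarith
  obtain ⟨L₁, hL₁⟩ := Filter.eventually_atTop.mp
    ((tendsto_rpow_atTop hg).eventually (Filter.eventually_ge_atTop |Real.log c|))
  refine ⟨max x0 (Real.exp L₁), fun x hx k hk1 hk => ?_⟩
  have hxx0 : x0 ≤ x := (le_max_left _ _).trans hx
  have hxL : Real.exp L₁ ≤ x := (le_max_right _ _).trans hx
  have hxpos : 0 < x := lt_of_lt_of_le (Real.exp_pos _) hxL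
  have hL : L₁ ≤ Real.log x := by rwa [Real.le_log_iff_exp_le hxpos]
  have h1 := hL₁ (Real.log x) hL
  have h2 := hx0 x hxx0 k hk1 hk
  have h3 : Real.exp (-(Real.log x) ^ (κ - δ / 2)) ≤ c := by
    rw [← Real.le_log_iff_exp_le hcpos]
    have := neg_abs_le (Real.log c)
    linarith
  have hsub : (adm x δ k) ⊆ (bad x δ k) ∪ manyS x δ (1 / 2 + ε) k := by
    intro A hA
    by_cases hP : HasPrimeTranslate x A
    · obtain ⟨n, hn1, hnx, hn⟩ := hP
      refine mem_union_right _ (mem_filter.2 ⟨hA, n, hn1, hnx, ?_⟩)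
      rw [filter_true_of_mem hn]
      have : (0 : ℝ) ≤ A.card := Nat.cast_nonneg _
      calc (1 / 2 + ε) * (A.card : ℝ) ≤ 1 * (A.card : ℝ) := mul_le_mul_of_nonneg_right (by linarith) this
        _ = A.card := one_mul _
    · refine mem_union_left _ ?_
      unfold adm at hA
      unfold bad
      rw [mem_filter] at hA ⊢
      exact ⟨hA.1, hA.2, hP⟩
  have h4 : ((adm x δ k).card : ℝ) ≤ ((bad x δ k).card : ℝ) + ((manyS x δ (1 / 2 + ε) k).card : ℝ) := by
    have := (card_le_card hsub).trans (card_union_le _ _)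
    exact_mod_cast this
  have h5 : Real.exp (-(ε ^ 2 * k)) ≤ Real.exp (-(ε ^ 2)) := by
    apply Real.exp_le_exp.mpr
    have hk' : (1 : ℝ) ≤ k := by exact_mod_cast hk1
    have : ε ^ 2 * 1 ≤ ε ^ 2 * k := mul_le_mul_of_nonneg_left hk' (sq_nonneg ε)
    linarith
  have hN : (0 : ℝ) ≤ ((adm x δ k).card : ℝ) := Nat.cast_nonneg _
  have h6 := mul_le_mul_of_nonneg_right h5 hN
  have h7 := mul_le_mul_of_nonneg_right h3 hN
  have h8 : c * ((adm x δ k).card : ℝ) = ((adm x δ k).card : ℝ) - Real.exp (-(ε ^ 2)) * ((adm x δ k).card : ℝ) := by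
    rw [hc]
    ring
  linarith

end Pool.Agent.Lib.H59P
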