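import Pool.Agent.Lib.H59P.HL2

/-!
# Project H59P, chunk HL2A: units on a coset of the kernel of reduction modulo r/l
-/

open Finset

namespace Pool.Agent.Lib.H59P

open Pool.Agent.Lib.H68T

theorem hl2a_cast (r : ℕ) [NeZero r] (d l : ℕ) (hdr : d ∣ r) (v : ℕ) (m : ZMod r) (t : ℕ) :
    ((m + (t : ZMod r) * ((r / l * v : ℕ) : ZMod r)).cast : ZMod d) =
      (m.cast : ZMod d) + (t : ZMod d) * ((r / l * v : ℕ) : ZMod d) := by
  have h := map_add (ZMod.castHom hdr (ZMod d)) m ((t : ZMod r) * ((r / l * v : ℕ) : ZMod r))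
  rw [map_mul, map_natCast, map_natCast] at h
  exact h

theorem hl2a_unit (r : ℕ) [NeZero r] (l : ℕ) (hlr : l ∣ r) (x : ZMod r) :
    IsUnit x ↔ IsUnit (x.cast : ZMod (r / l)) ∧ IsUnit (x.cast : ZMod l) := by
  have h1 : ((x.val : ℕ) : ZMod r) = x := by rw [ZMod.natCast_val, ZMod.cast_id]
  have h2 : ((x.val : ℕ) : ZMod (r / l)) = x.cast := ZMod.natCast_val _
  have h3 : ((x.val : ℕ) : ZMod l) = x.cast := ZMod.natCast_val _
  have h4 : IsUnit x ↔ Nat.Coprime x.val r := by
    conv_lhs => rw [← h1]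
    exact ZMod.isUnit_iff_coprime _ _
  rw [h4, ← h2, ← h3, ZMod.isUnit_iff_coprime, ZMod.isUnit_iff_coprime]
  have h5 := Nat.coprime_mul_iff_right (k := x.val) (m := r / l) (n := l)
  rwa [Nat.div_mul_cancel hlr] at h5

open Classical in
/-- **HL2A.** Exactly one element of the coset is not prime to `l` if `l` does not divide `r/l`.

Proof. `l ∣ m.val + t (r/l) v` for exactly one class `t` modulo `l`, since `(r/l) v` is prime to `l`. -/
theorem HL2A (r : ℕ) [NeZero r] (l : ℕ) (hl : l.Prime) (hlr : l ∣ r) (h2 : ¬ l ∣ r / l) (v : ℕ)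
    (hv : Nat.Coprime v l) (m : ZMod r) (c : ZMod l) :
    ((range l).filter (fun t : ℕ =>
      ((m + (t : ZMod r) * ((r / l * v : ℕ) : ZMod r)).cast : ZMod l) = c)).card = 1 := by
  haveI : Fact l.Prime := ⟨hl⟩
  haveI : NeZero l := ⟨hl.ne_zero⟩
  have hw : ((r / l * v : ℕ) : ZMod l) ≠ 0 := by
    intro h
    rw [ZMod.natCast_eq_zero_iff] at h
    rcases (Nat.Prime.dvd_mul hl).1 h with h3 | h3
    · exact h2 h3
    · exact (Nat.Prime.coprime_iff_not_dvd hl).1 hv.symm h3
  set w : ZMod l := ((r / l * v : ℕ) : ZMod l) with hwd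
  rw [Finset.card_eq_one]
  refine ⟨((c - m.cast) * w⁻¹).val, ?_⟩
  ext t
  rw [mem_filter, mem_range, mem_singleton, hl2a_cast r l l hlr v m t, ← hwd]
  constructor
  · rintro ⟨ht, h3⟩
    have h4 : (t : ZMod l) = (c - m.cast) * w⁻¹ := by
      rw [← h3]
      field_simp
      ring
    rw [← h4, ZMod.val_natCast, Nat.mod_eq_of_lt ht]
  · rintro rfl
    refine ⟨ZMod.val_lt _, ?_⟩
    rw [ZMod.natCast_zmod_val, mul_assoc, inv_mul_cancel₀ hw, mul_one]
    ring

open Classical in
/-- If `m` is a unit modulo `r/l` then exactly `l - 1` elements of the coset are units (`l ∤ r/l`).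

Proof. `m + t (r/l) v` is a unit modulo `r` iff it is a unit modulo `r/l` (it is `≡ m`) and modulo `l` (these
are coprime and `r = (r/l) l`); `HL2A` with `c = 0`. -/
theorem HL2A_units (r : ℕ) [NeZero r] (l : ℕ) (hl : l.Prime) (hlr : l ∣ r) (h2 : ¬ l ∣ r / l) (v : ℕ)
    (hv : Nat.Coprime v l) (m : ZMod r) (hm : IsUnit (m.cast : ZMod (r / l))) :
    ((range l).filter (fun t : ℕ =>
      IsUnit (m + (t : ZMod r) * ((r / l * v : ℕ) : ZMod r)))).card = l - 1 := by
  haveI : Fact l.Prime := ⟨hl⟩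
  have h1 := HL2A r l hl hlr h2 v hv m 0
  have h3 : (range l).filter (fun t : ℕ => IsUnit (m + (t : ZMod r) * ((r / l * v : ℕ) : ZMod r))) =
      (range l).filter (fun t : ℕ =>
        ¬ ((m + (t : ZMod r) * ((r / l * v : ℕ) : ZMod r)).cast : ZMod l) = 0) := by
    refine Finset.filter_congr fun t _ => ?_
    rw [hl2a_unit r l hlr, isUnit_iff_ne_zero]
    have h4 : ((m + (t : ZMod r) * ((r / l * v : ℕ) : ZMod r)).cast : ZMod (r / l)) =
        (m.cast : ZMod (r / l)) := by
      rw [hl2a_cast r (r / l) l (Nat.div_dvd_of_dvd hlr) v m t, Nat.cast_mul, ZMod.natCast_self,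
        zero_mul, mul_zero, add_zero]
    rw [h4]
    exact and_iff_right hm
  rw [h3]
  have h5 := Finset.card_filter_add_card_filter_not (s := range l) (fun t : ℕ =>
        ((m + (t : ZMod r) * ((r / l * v : ℕ) : ZMod r)).cast : ZMod l) = 0)
  rw [h1, card_range] at h5
  omega

open Classical in
/-- At most half of the elements of the coset have `ψ = -1`; at most `(l-1)/2` if `l` does not divide `r/l`.

Proof. `HL2`: twice the number is the number of `t < l` with `ψ = ±1`, at most `l`; if `l ∤ r/l`, one element is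
not a unit (`HL2A` with `c = 0`) and `ψ` is `0` there. -/
theorem HL2A_minus (r : ℕ) [NeZero r] (ψ : DirichletCharacter ℂ r) (hprim : ψ.IsPrimitive)
    (hψ2 : ψ ^ 2 = 1) (l : ℕ) (hl : l.Prime) (hlr : l ∣ r) (v : ℕ) (hv : Nat.Coprime v l) (m : ZMod r) :
    2 * ((range l).filter (fun t : ℕ =>
      ψ (m + (t : ZMod r) * ((r / l * v : ℕ) : ZMod r)) = -1)).card ≤ l ∧
    (¬ l ∣ r / l → 2 * ((range l).filter (fun t : ℕ =>
      ψ (m + (t : ZMod r) * ((r / l * v : ℕ) : ZMod r)) = -1)).card ≤ l - 1) := by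
  have h1 := HL2 r ψ hprim hψ2 l hl hlr v hv m
  set P : Finset ℕ := (range l).filter (fun t : ℕ =>
      ψ (m + (t : ZMod r) * ((r / l * v : ℕ) : ZMod r)) = 1) with hP
  set Q : Finset ℕ := (range l).filter (fun t : ℕ =>
      ψ (m + (t : ZMod r) * ((r / l * v : ℕ) : ZMod r)) = -1) with hQ
  have hdis : Disjoint P Q := by
    rw [Finset.disjoint_left]
    intro t ht ht'
    rw [hP, mem_filter] at ht
    rw [hQ, mem_filter, ht.2] at ht'
    have h3 := ht'.2
    norm_num at h3
  have hsub : P ∪ Q ⊆ range l := Finset.union_subset (Finset.filter_subset _ _) (Finset.filter_subset _ _)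
  have hcard : (P ∪ Q).card = P.card + Q.card := Finset.card_union_of_disjoint hdis
  constructor
  · have h3 := Finset.card_le_card hsub
    rw [card_range] at h3
    omega
  · intro h2
    have h4 := HL2A r l hl hlr h2 v hv m 0
    set Z : Finset ℕ := (range l).filter (fun t : ℕ =>
      ((m + (t : ZMod r) * ((r / l * v : ℕ) : ZMod r)).cast : ZMod l) = 0) with hZ
    have hdis2 : Disjoint (P ∪ Q) Z := by
      rw [Finset.disjoint_left]
      intro t ht ht'
      rw [hZ, mem_filter] at ht'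
      have h5 : ¬ IsUnit (m + (t : ZMod r) * ((r / l * v : ℕ) : ZMod r)) := by
        rw [hl2a_unit r l hlr, ht'.2]
        rintro ⟨-, h6⟩
        haveI : Fact l.Prime := ⟨hl⟩
        exact not_isUnit_zero h6
      have h6 := MulChar.map_nonunit ψ h5
      rw [mem_union] at ht
      rcases ht with h7 | h7
      · rw [hP, mem_filter, h6] at h7
        exact absurd h7.2 (by norm_num)
      · rw [hQ, mem_filter, h6] at h7
        exact absurd h7.2 (by norm_num)
    have hsub2 : (P ∪ Q) ∪ Z ⊆ range l := Finset.union_subset hsub (Finset.filter_subset _ _)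
    have h8 := Finset.card_le_card hsub2
    rw [Finset.card_union_of_disjoint hdis2, hcard, h4, card_range] at h8
    omega

end Pool.Agent.Lib.H59P
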