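import Pool.Agent.Lib.H59P.HLDefs
import Pool.Agent.Lib.H59P.HL1
import Pool.Agent.Lib.H59P.HL2

/-!
# Project H59P, chunk HL3: few minus signs are rare
-/

open Finset

namespace Pool.Agent.Lib.H59P

open Pool.Agent.Lib.H68T Pool.Agent.Lib.H18Q

/-- The numerical inequality. -/
theorem hl3_num (ε : ℝ) :
    Real.exp (4 * ε * (1 / 2 - ε)) * ((1 + Real.exp (-(4 * ε))) / 2) ≤ Real.exp (-(2 * ε ^ 2)) := by
  have h1 := Real.cosh_le_exp_half_sq (2 * ε)
  have h2 : Real.exp (4 * ε * (1 / 2 - ε)) * ((1 + Real.exp (-(4 * ε))) / 2) =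
      Real.exp (-(4 * ε ^ 2)) * Real.cosh (2 * ε) := by
    rw [Real.cosh_eq]
    have e1 : Real.exp (4 * ε * (1 / 2 - ε)) = Real.exp (-(4 * ε ^ 2)) * Real.exp (2 * ε) := by
      rw [← Real.exp_add]
      congr 1
      ring
    have e2 : Real.exp (-(2 * ε)) = Real.exp (2 * ε) * Real.exp (-(4 * ε)) := by
      rw [← Real.exp_add]
      congr 1
      ring
    rw [e1, e2]
    ring
  rw [h2]
  calc Real.exp (-(4 * ε ^ 2)) * Real.cosh (2 * ε)
      ≤ Real.exp (-(4 * ε ^ 2)) * Real.exp ((2 * ε) ^ 2 / 2) :=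
        mul_le_mul_of_nonneg_left h1 (Real.exp_pos _).le
    _ = Real.exp (-(2 * ε ^ 2)) := by
        rw [← Real.exp_add]
        congr 1
        ring

/-- The classes modulo `q` do not change under shifts by multiples of `q`. -/
theorem hl3_rsd {k L : ℕ} {q : ℕ} (hq : q ∣ L) (b : Fin k → ZMod L) (t : Fin k → ℕ) :
    rsd q (fun i => b i + (t i : ZMod L) * ((q : ℕ) : ZMod L)) = rsd q b := by
  funext i
  unfold rsd
  rw [ZMod.cast_add hq, ZMod.cast_mul hq, ZMod.cast_natCast hq, ZMod.cast_natCast hq,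
    ZMod.natCast_self, mul_zero, add_zero]

/-- The shift, modulo `r`. -/
theorem hl3_cast {L r q : ℕ} (hr : r ∣ L) (x : ZMod L) (j n : ℕ) :
    (n : ZMod r) + (x + (j : ZMod L) * ((q : ℕ) : ZMod L)).cast =
      ((n : ZMod r) + x.cast) + (j : ZMod r) * ((q : ℕ) : ZMod r) := by
  rw [ZMod.cast_add hr, ZMod.cast_mul hr, ZMod.cast_natCast hr, ZMod.cast_natCast hr, add_assoc]

theorem hl3_one {r : ℕ} {ψ : DirichletCharacter ℂ r} (hψ2 : ψ ^ 2 = 1) (E : ℝ) (z : ZMod r)
    [Decidable (IsUnit z)] [Decidable (ψ z = -1)] [Decidable (ψ z = 1)] :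
    (if IsUnit z then (1 : ℝ) else 0) * (if ψ z = -1 then E else 1) =
      (if ψ z = 1 then 1 else 0) + (if ψ z = -1 then E else 0) := by
  by_cases hz : IsUnit z
  · rcases XRC_sign hψ2 hz with h | h
    · have h1 : ψ z ≠ -1 := by rw [h]; norm_num
      rw [if_pos hz, if_neg h1, if_pos h, if_neg h1]
      norm_num
    · have h1 : ψ z ≠ 1 := by rw [h]; norm_num
      rw [if_pos hz, if_pos h, if_neg h1, if_pos h]
      norm_num
  · have h0 : ψ z = 0 := MulChar.map_nonunit ψ hz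
    have h1 : ψ z ≠ 1 := by rw [h0]; norm_num
    have h2 : ψ z ≠ -1 := by rw [h0]; norm_num
    rw [if_neg hz, if_neg h1, if_neg h2, if_neg h2]
    norm_num

open Classical in
/-- The core of the proof, with a name for the modulus. -/
theorem hl3_core {k r l v L q : ℕ} [NeZero L] [NeZero r] (ψ : DirichletCharacter ℂ r) (hprim : ψ.IsPrimitive)
    (hψ2 : ψ ^ 2 = 1) (hl : l.Prime) (hlr : l ∣ r) (hv : Nat.Coprime v l) (hqe : q = r / l * v)
    (hqL : q ∣ L) (hrL : r ∣ L)
    (g : (Fin k → ZMod q) → Prop) (ν : (Fin k → ZMod q) → ℕ) (ε : ℝ) (hε : 0 ≤ ε) :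
    ((univ.filter (fun b : Fin k → ZMod L => g (rsd q b) ∧
        UnL r (ν (rsd q b)) b ∧
        (mnL ψ (ν (rsd q b)) b : ℝ) < (1 / 2 - ε) * k)).card : ℝ) ≤
      Real.exp (-(2 * ε ^ 2 * k)) * ((univ.filter (fun b : Fin k → ZMod L => g (rsd q b) ∧
        UnL r (ν (rsd q b)) b)).card : ℝ) := by
  set E := Real.exp (-(4 * ε)) with hE
  have hE0 : 0 ≤ E := (Real.exp_pos _).le
  set h2 : (Fin k → ZMod q) → ZMod L → ℝ := fun a x =>
    if IsUnit ((ν a : ZMod r) + x.cast) then (1 : ℝ) else 0 with hh2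
  set h1 : (Fin k → ZMod q) → ZMod L → ℝ := fun a x =>
    (if IsUnit ((ν a : ZMod r) + x.cast) then (1 : ℝ) else 0) *
      (if ψ ((ν a : ZMod r) + x.cast) = -1 then E else 1) with hh1
  have h1n : ∀ a x, 0 ≤ h1 a x := by
    intro a x
    rw [hh1]
    simp only
    split_ifs <;> simp [hE0]
  have key := HL1 (k := k) (L := L) l hl.pos ((q : ℕ) : ZMod L) (rsd q)
    (fun b t => hl3_rsd hqL b t) (fun a => if g a then (1 : ℝ) else 0)
    (fun a => by split_ifs <;> norm_num) h1 h2 h1n ((1 + E) / 2) (by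
      intro a _ x _
      have hcs : ∀ j : ℕ, ((ν a : ZMod r) + (x + (j : ZMod L) * ((q : ℕ) : ZMod L)).cast) =
          ((ν a : ZMod r) + x.cast) + (j : ZMod r) * ((q : ℕ) : ZMod r) :=
        fun j => hl3_cast hrL x j (ν a)
      have hc := HL2 r ψ hprim hψ2 l hl hlr v hv ((ν a : ZMod r) + x.cast)
      rw [← hqe] at hc
      have s1 : ∑ j ∈ range l, h1 a (x + (j : ZMod L) * ((q : ℕ) : ZMod L)) =
          (((range l).filter (fun t : ℕ => ψ (((ν a : ZMod r) + x.cast) +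
            (t : ZMod r) * ((q : ℕ) : ZMod r)) = 1)).card : ℝ) +
          (((range l).filter (fun t : ℕ => ψ (((ν a : ZMod r) + x.cast) +
            (t : ZMod r) * ((q : ℕ) : ZMod r)) = -1)).card : ℝ) * E := by
        rw [hh1]
        simp only
        rw [Finset.sum_congr rfl fun j _ => by rw [hcs j, hl3_one hψ2], Finset.sum_add_distrib,
          Finset.sum_boole, ← Finset.sum_filter, Finset.sum_const, nsmul_eq_mul]
      have s2 : ∑ j ∈ range l, h2 a (x + (j : ZMod L) * ((q : ℕ) : ZMod L)) =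
          (((range l).filter (fun t : ℕ => ψ (((ν a : ZMod r) + x.cast) +
            (t : ZMod r) * ((q : ℕ) : ZMod r)) = 1)).card : ℝ) +
          (((range l).filter (fun t : ℕ => ψ (((ν a : ZMod r) + x.cast) +
            (t : ZMod r) * ((q : ℕ) : ZMod r)) = -1)).card : ℝ) := by
        rw [hh2]
        simp only
        have h3 : ∀ z : ZMod r, (if IsUnit z then (1 : ℝ) else 0) =
            (if ψ z = 1 then 1 else 0) + (if ψ z = -1 then 1 else 0) := by
          intro z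
          rw [← hl3_one hψ2 1 z]
          split_ifs <;> norm_num
        rw [Finset.sum_congr rfl fun j _ => by rw [hcs j, h3], Finset.sum_add_distrib,
          Finset.sum_boole, Finset.sum_boole]
      rw [s1, s2, hc]
      apply le_of_eq
      ring)
  have hright : ∑ b : Fin k → ZMod L, (if g (rsd q b) then (1 : ℝ) else 0) *
      ∏ i, h2 (rsd q b) (b i) = ((univ.filter (fun b : Fin k → ZMod L => g (rsd q b) ∧
        UnL r (ν (rsd q b)) b)).card : ℝ) := by
    rw [← Finset.sum_boole]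
    refine Finset.sum_congr rfl fun b _ => ?_
    by_cases hg : g (rsd q b)
    · by_cases hu : UnL r (ν (rsd q b)) b
      · rw [if_pos hg, if_pos ⟨hg, hu⟩, one_mul]
        refine Finset.prod_eq_one fun i _ => ?_
        rw [hh2]
        exact if_pos (hu i)
      · rw [if_pos hg, if_neg (fun h => hu h.2), one_mul]
        unfold UnL at hu
        push Not at hu
        obtain ⟨i, hi⟩ := hu
        refine Finset.prod_eq_zero (mem_univ i) ?_
        rw [hh2]
        exact if_neg hi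
    · rw [if_neg hg, if_neg (fun h => hg h.1), zero_mul]
  have hleft : Real.exp (-(4 * ε * (1 / 2 - ε))) ^ k *
      ((univ.filter (fun b : Fin k → ZMod L => g (rsd q b) ∧
        UnL r (ν (rsd q b)) b ∧ (mnL ψ (ν (rsd q b)) b : ℝ) < (1 / 2 - ε) * k)).card : ℝ) ≤
      ∑ b : Fin k → ZMod L, (if g (rsd q b) then (1 : ℝ) else 0) * ∏ i, h1 (rsd q b) (b i) := by
    have h3 : Real.exp (-(4 * ε * (1 / 2 - ε))) ^ k *
      ((univ.filter (fun b : Fin k → ZMod L => g (rsd q b) ∧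
        UnL r (ν (rsd q b)) b ∧ (mnL ψ (ν (rsd q b)) b : ℝ) < (1 / 2 - ε) * k)).card : ℝ) =
      ∑ b ∈ univ.filter (fun b : Fin k → ZMod L => g (rsd q b) ∧
        UnL r (ν (rsd q b)) b ∧ (mnL ψ (ν (rsd q b)) b : ℝ) < (1 / 2 - ε) * k),
        Real.exp (-(4 * ε * (1 / 2 - ε))) ^ k := by
      rw [Finset.sum_const, nsmul_eq_mul, mul_comm]
    rw [h3]
    refine (Finset.sum_le_sum (fun b hb => ?_)).trans
      (Finset.sum_le_sum_of_subset_of_nonneg (Finset.filter_subset _ _) (fun b _ _ => ?_))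
    · rw [mem_filter] at hb
      obtain ⟨_, hg, hu, hm⟩ := hb
      rw [if_pos hg, one_mul]
      have h4 : ∏ i, h1 (rsd q b) (b i) = E ^ (mnL ψ (ν (rsd q b)) b) := by
        unfold mnL
        rw [← Finset.prod_const, Finset.prod_filter]
        refine Finset.prod_congr rfl fun i _ => ?_
        rw [hh1]
        simp only
        rw [if_pos (hu i), one_mul]
      rw [h4, hE, ← Real.exp_nat_mul, ← Real.exp_nat_mul]
      apply Real.exp_le_exp.2
      nlinarith
    · refine mul_nonneg ?_ (Finset.prod_nonneg fun i _ => h1n _ _)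
      split_ifs <;> norm_num
  have h5 := hleft.trans key
  rw [hright] at h5
  have hX : 0 ≤ ((univ.filter (fun b : Fin k → ZMod L => g (rsd q b) ∧
        UnL r (ν (rsd q b)) b)).card : ℝ) := Nat.cast_nonneg _
  have hexp : Real.exp (4 * ε * (1 / 2 - ε)) ^ k * Real.exp (-(4 * ε * (1 / 2 - ε))) ^ k = 1 := by
    rw [← mul_pow, ← Real.exp_add, add_neg_cancel, Real.exp_zero, one_pow]
  have h6 := mul_le_mul_of_nonneg_left h5
    (pow_nonneg (Real.exp_pos (4 * ε * (1 / 2 - ε))).le k)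
  rw [← mul_assoc, hexp, one_mul, ← mul_assoc, ← mul_pow] at h6
  refine h6.trans (mul_le_mul_of_nonneg_right ?_ hX)
  have h7 : Real.exp (-(2 * ε ^ 2 * k)) = Real.exp (-(2 * ε ^ 2)) ^ k := by
    rw [← Real.exp_nat_mul]
    congr 1
    ring
  rw [h7]
  exact pow_le_pow_left₀ (mul_nonneg (Real.exp_pos _).le (by positivity)) (hl3_num ε) k

open Classical in
/-- **HL3.** The centre `ν` and the condition `g` depend only on the classes modulo `q = (r/l) v`.

Proof. `HL1` with `w = ((r/l) v : ZMod L)`, `c = rsd q` (`(q : ZMod q) = 0`, `q ∣ r v ∣ L`), `t = 4 ε`,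
`h2 a x = [IsUnit (ν a + x.cast)]`, `h1 a x = h2 a x * (if ψ (ν a + x.cast) = -1 then exp (-t) else 1)`,
`M = (1 + exp (-t))/2`: for a unit `ψ = ±1` (`XRC_sign`), so by `HL2` (with `m = ν a + x.cast`;
`(x + t w).cast = x.cast + t (r/l) v` in `ZMod r`) the sum of `h1` over the coset is
`P + exp (-t) P`, `P` the number of plus signs `=` number of minus signs, and the sum of `h2` is `2 P`. So
`∑_b g ∏ h1 ≤ M^k #{g ∧ UnL}`, and `∏_i h1 = [UnL] exp (-t mnL) ≥ exp (-t (1/2 - ε) k)` if `mnL < (1/2-ε) k`.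
Hence the left side is at most `(exp (t (1/2 - ε)) M)^k #{..}` and
`exp (t (1/2-ε)) (1 + exp (-t))/2 = exp (-t ε) cosh (t/2) ≤ exp (-t ε + t²/8) = exp (-2 ε²)`
(`Real.cosh_le_exp_half_sq`). -/
theorem HL3 {k r l v L : ℕ} [NeZero L] [NeZero r] (ψ : DirichletCharacter ℂ r) (hprim : ψ.IsPrimitive)
    (hψ2 : ψ ^ 2 = 1) (hl : l.Prime) (hlr : l ∣ r) (hv : Nat.Coprime v l) (hL : r * v ∣ L)
    (g : (Fin k → ZMod (r / l * v)) → Prop) (ν : (Fin k → ZMod (r / l * v)) → ℕ) (ε : ℝ) (hε : 0 ≤ ε) :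
    ((univ.filter (fun b : Fin k → ZMod L => g (rsd (r / l * v) b) ∧
        UnL r (ν (rsd (r / l * v) b)) b ∧
        (mnL ψ (ν (rsd (r / l * v) b)) b : ℝ) < (1 / 2 - ε) * k)).card : ℝ) ≤
      Real.exp (-(2 * ε ^ 2 * k)) * ((univ.filter (fun b : Fin k → ZMod L => g (rsd (r / l * v) b) ∧
        UnL r (ν (rsd (r / l * v) b)) b)).card : ℝ) := by
  have hqL : r / l * v ∣ L := (Nat.mul_dvd_mul (Nat.div_dvd_of_dvd hlr) (dvd_refl v)).trans hL
  have hrL : r ∣ L := (Dvd.intro v rfl).trans hL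
  exact hl3_core ψ hprim hψ2 hl hlr hv rfl hqL hrL g ν ε hε

end Pool.Agent.Lib.H59P
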