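import Pool.Agent.Lib.H59P.HLDefs
import Pool.Agent.Lib.H59P.HL1
import Pool.Agent.Lib.H59P.HL2A

/-!
# Project H59P, chunk HL4: many minus signs are rare
-/

open Finset

namespace Pool.Agent.Lib.H59P

open Pool.Agent.Lib.H68T Pool.Agent.Lib.H18Q

/-- The numerical inequality. -/
theorem hl4_num (ε : ℝ) :
    Real.exp (-(4 * ε * (1 / 2 + ε))) * ((1 + Real.exp (4 * ε)) / 2) ≤ Real.exp (-(2 * ε ^ 2)) := by
  have h1 := Real.cosh_le_exp_half_sq (2 * ε)
  have h2 : Real.exp (-(4 * ε * (1 / 2 + ε))) * ((1 + Real.exp (4 * ε)) / 2) =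
      Real.exp (-(4 * ε ^ 2)) * Real.cosh (2 * ε) := by
    rw [Real.cosh_eq]
    have e1 : Real.exp (-(4 * ε * (1 / 2 + ε))) = Real.exp (-(4 * ε ^ 2)) * Real.exp (-(2 * ε)) := by
      rw [← Real.exp_add]
      congr 1
      ring
    have e2 : Real.exp (2 * ε) = Real.exp (-(2 * ε)) * Real.exp (4 * ε) := by
      rw [← Real.exp_add]
      congr 1
      ring
    rw [e1, e2]
    ring
  rw [h2]
  calc Real.exp (-(4 * ε ^ 2)) * Real.cosh (2 * ε)
      ≤ Real.exp (-(4 * ε ^ 2)) * Real.exp ((2 * ε) ^ 2 / 2) :=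
        mul_le_mul_of_nonneg_left h1 (Real.exp_pos _).le
    _ = Real.exp (-(2 * ε ^ 2)) := by
        rw [← Real.exp_add]
        congr 1
        ring

/-- The classes modulo `q` do not change under shifts by multiples of `q`. -/
theorem hl4_rsd {k L : ℕ} {q : ℕ} (hq : q ∣ L) (b : Fin k → ZMod L) (t : Fin k → ℕ) :
    rsd q (fun i => b i + (t i : ZMod L) * ((q : ℕ) : ZMod L)) = rsd q b := by
  funext i
  unfold rsd
  rw [ZMod.cast_add hq, ZMod.cast_mul hq, ZMod.cast_natCast hq, ZMod.cast_natCast hq,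
    ZMod.natCast_self, mul_zero, add_zero]

/-- The shift, modulo `r`. -/
theorem hl4_cast {L r q : ℕ} (hr : r ∣ L) (x : ZMod L) (j n : ℕ) :
    (n : ZMod r) + (x + (j : ZMod L) * ((q : ℕ) : ZMod L)).cast =
      ((n : ZMod r) + x.cast) + (j : ZMod r) * ((q : ℕ) : ZMod r) := by
  rw [ZMod.cast_add hr, ZMod.cast_mul hr, ZMod.cast_natCast hr, ZMod.cast_natCast hr, add_assoc]

/-- The class modulo `l` of the shift can be computed modulo `r`. -/
theorem hl4_castl {L r l q : ℕ} [NeZero L] (hr : r ∣ L) (hl : l ∣ r) (x : ZMod L) (j : ℕ) :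
    ((x + (j : ZMod L) * ((q : ℕ) : ZMod L)).cast : ZMod l) =
      (((x.cast : ZMod r) + (j : ZMod r) * ((q : ℕ) : ZMod r)).cast : ZMod l) := by
  have hlL : l ∣ L := hl.trans hr
  obtain ⟨m, rfl⟩ : ∃ m : ℕ, x = (m : ZMod L) := ⟨x.val, (ZMod.natCast_zmod_val x).symm⟩
  rw [ZMod.cast_add hlL, ZMod.cast_mul hlL, ZMod.cast_natCast hlL, ZMod.cast_natCast hlL,
    ZMod.cast_natCast hlL, ZMod.cast_natCast hr, ZMod.cast_add hl, ZMod.cast_mul hl,
    ZMod.cast_natCast hl, ZMod.cast_natCast hl, ZMod.cast_natCast hl]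

theorem hl4_sum (S : Finset ℕ) (P Q : ℕ → Prop) [DecidablePred P] [DecidablePred Q] {E : ℝ}
    (hE : 1 ≤ E)
    (h : 2 * (S.filter Q).card ≤ (S.filter P).card) :
    ∑ j ∈ S, (if P j then (1 : ℝ) else 0) * (if Q j then E else 1) ≤
      (1 + E) / 2 * ∑ j ∈ S, (if P j then (1 : ℝ) else 0) := by
  have h1 : ∑ j ∈ S, (if P j then (1 : ℝ) else 0) * (if Q j then E else 1) ≤
      ∑ j ∈ S, ((if P j then (1 : ℝ) else 0) + (E - 1) * (if Q j then (1 : ℝ) else 0)) := by
    refine Finset.sum_le_sum fun j _ => ?_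
    split_ifs <;> linarith
  have h2 : (2 : ℝ) * ((S.filter Q).card : ℝ) ≤ ((S.filter P).card : ℝ) := by
    exact_mod_cast h
  rw [Finset.sum_add_distrib, ← Finset.mul_sum, Finset.sum_boole, Finset.sum_boole] at h1
  rw [Finset.sum_boole]
  nlinarith

open Classical in
/-- The common part of the two estimates. -/
theorem hl4_core {k r q L l : ℕ} [NeZero L] [NeZero r] (ψ : DirichletCharacter ℂ r) (hl : 0 < l)
    (hqL : q ∣ L) (hrL : r ∣ L) (g : (Fin k → ZMod q) → Prop) (n : ℕ) (ε : ℝ) (hε : 0 ≤ ε)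
    (C : ZMod L → Prop) [DecidablePred C]
    (hC : ∀ x : ZMod L, 2 * ((range l).filter (fun t : ℕ =>
      ψ (((n : ZMod r) + x.cast) + (t : ZMod r) * ((q : ℕ) : ZMod r)) = -1)).card ≤
      ((range l).filter (fun t : ℕ => C (x + (t : ZMod L) * ((q : ℕ) : ZMod L)))).card) :
    ((univ.filter (fun b : Fin k → ZMod L => g (rsd q b) ∧ (∀ i, C (b i)) ∧
        (1 / 2 + ε) * k ≤ (mnL ψ n b : ℝ))).card : ℝ) ≤
      Real.exp (-(2 * ε ^ 2 * k)) *
        ((univ.filter (fun b : Fin k → ZMod L => g (rsd q b) ∧ (∀ i, C (b i)))).card : ℝ) := by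
  set E := Real.exp (4 * ε) with hE
  have hE1 : 1 ≤ E := Real.one_le_exp (by positivity)
  have hE0 : 0 ≤ E := (Real.exp_pos _).le
  set h2 : (Fin k → ZMod q) → ZMod L → ℝ := fun a x =>
    if C x then (1 : ℝ) else 0 with hh2
  set h1 : (Fin k → ZMod q) → ZMod L → ℝ := fun a x =>
    (if C x then (1 : ℝ) else 0) *
      (if ψ ((n : ZMod r) + x.cast) = -1 then E else 1) with hh1
  have h1n : ∀ a x, 0 ≤ h1 a x := by
    intro a x
    rw [hh1]
    simp only
    split_ifs <;> simp [hE0]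
  have key := HL1 (k := k) (L := L) l hl ((q : ℕ) : ZMod L) (rsd q)
    (fun b t => hl4_rsd hqL b t) (fun a => if g a then (1 : ℝ) else 0)
    (fun a => by split_ifs <;> norm_num) h1 h2 h1n ((1 + E) / 2) (by
      intro a _ x _
      have h3 := hl4_sum (range l) (fun j => C (x + (j : ZMod L) * ((q : ℕ) : ZMod L)))
        (fun j => ψ (((n : ZMod r) + x.cast) + (j : ZMod r) * ((q : ℕ) : ZMod r)) = -1) hE1 (hC x)
      rw [hh1, hh2]
      simp only
      refine le_trans (le_of_eq ?_) h3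
      refine Finset.sum_congr rfl fun j _ => ?_
      rw [hl4_cast hrL x j n])
  have hright : ∑ b : Fin k → ZMod L, (if g (rsd q b) then (1 : ℝ) else 0) *
      ∏ i, h2 (rsd q b) (b i) = ((univ.filter (fun b : Fin k → ZMod L => g (rsd q b) ∧
        (∀ i, C (b i)))).card : ℝ) := by
    rw [← Finset.sum_boole]
    refine Finset.sum_congr rfl fun b _ => ?_
    by_cases hg : g (rsd q b)
    · by_cases hu : ∀ i, C (b i)
      · rw [if_pos hg, if_pos ⟨hg, hu⟩, one_mul]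
        refine Finset.prod_eq_one fun i _ => ?_
        rw [hh2]
        exact if_pos (hu i)
      · rw [if_pos hg, if_neg (fun h => hu h.2), one_mul]
        push Not at hu
        obtain ⟨i, hi⟩ := hu
        refine Finset.prod_eq_zero (mem_univ i) ?_
        rw [hh2]
        exact if_neg hi
    · rw [if_neg hg, if_neg (fun h => hg h.1), zero_mul]
  have hleft : Real.exp (4 * ε * (1 / 2 + ε)) ^ k *
      ((univ.filter (fun b : Fin k → ZMod L => g (rsd q b) ∧ (∀ i, C (b i)) ∧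
        (1 / 2 + ε) * k ≤ (mnL ψ n b : ℝ))).card : ℝ) ≤
      ∑ b : Fin k → ZMod L, (if g (rsd q b) then (1 : ℝ) else 0) * ∏ i, h1 (rsd q b) (b i) := by
    have h3 : Real.exp (4 * ε * (1 / 2 + ε)) ^ k *
      ((univ.filter (fun b : Fin k → ZMod L => g (rsd q b) ∧ (∀ i, C (b i)) ∧
        (1 / 2 + ε) * k ≤ (mnL ψ n b : ℝ))).card : ℝ) =
      ∑ b ∈ univ.filter (fun b : Fin k → ZMod L => g (rsd q b) ∧ (∀ i, C (b i)) ∧
        (1 / 2 + ε) * k ≤ (mnL ψ n b : ℝ)),
        Real.exp (4 * ε * (1 / 2 + ε)) ^ k := by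
      rw [Finset.sum_const, nsmul_eq_mul, mul_comm]
    rw [h3]
    refine (Finset.sum_le_sum (fun b hb => ?_)).trans
      (Finset.sum_le_sum_of_subset_of_nonneg (Finset.filter_subset _ _) (fun b _ _ => ?_))
    · rw [mem_filter] at hb
      obtain ⟨_, hg, hu, hm⟩ := hb
      rw [if_pos hg, one_mul]
      have h4 : ∏ i, h1 (rsd q b) (b i) = E ^ (mnL ψ n b) := by
        unfold mnL
        rw [← Finset.prod_const, Finset.prod_filter]
        refine Finset.prod_congr rfl fun i _ => ?_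
        rw [hh1]
        simp only
        rw [if_pos (hu i), one_mul]
      rw [h4, hE, ← Real.exp_nat_mul, ← Real.exp_nat_mul]
      apply Real.exp_le_exp.2
      nlinarith
    · refine mul_nonneg ?_ (Finset.prod_nonneg fun i _ => h1n (rsd q b) (b i))
      split_ifs <;> norm_num
  have h5 := hleft.trans key
  rw [hright] at h5
  have hX : 0 ≤ ((univ.filter (fun b : Fin k → ZMod L => g (rsd q b) ∧
        (∀ i, C (b i)))).card : ℝ) := Nat.cast_nonneg _
  have hexp : Real.exp (-(4 * ε * (1 / 2 + ε))) ^ k * Real.exp (4 * ε * (1 / 2 + ε)) ^ k = 1 := by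
    rw [← mul_pow, ← Real.exp_add, neg_add_cancel, Real.exp_zero, one_pow]
  have h6 := mul_le_mul_of_nonneg_left h5
    (pow_nonneg (Real.exp_pos (-(4 * ε * (1 / 2 + ε)))).le k)
  rw [← mul_assoc, hexp, one_mul, ← mul_assoc, ← mul_pow] at h6
  refine h6.trans (mul_le_mul_of_nonneg_right ?_ hX)
  have h7 : Real.exp (-(2 * ε ^ 2 * k)) = Real.exp (-(2 * ε ^ 2)) ^ k := by
    rw [← Real.exp_nat_mul]
    congr 1
    ring
  rw [h7]
  exact pow_le_pow_left₀ (mul_nonneg (Real.exp_pos _).le (by positivity)) (hl4_num ε) k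

open Classical in
/-- **HL4.** Proof. `HL1` with `w = ((r/l) v : ZMod L)`, `c = rsd q`, `q = (r/l) v`, `t = 4 ε`, `h2 = 1`,
`h1 a x = if ψ (n + x.cast) = -1 then exp t else 1`, `M = (1 + exp t)/2`: by `HL2A_minus` the number `s` of
minus signs on the coset is at most `l/2`, and `(l - s) + exp t s ≤ l (1 + exp t)/2`. Then as `HL3`: `∏ h1 =
exp (t mnL) ≥ exp (t (1/2 + ε) k)`, and `exp (-t (1/2+ε)) (1 + exp t)/2 = exp (-t ε) cosh (t/2) ≤ exp (-2 ε²)`. -/
theorem HL4 {k r l v L : ℕ} [NeZero L] [NeZero r] (ψ : DirichletCharacter ℂ r) (hprim : ψ.IsPrimitive)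
    (hψ2 : ψ ^ 2 = 1) (hl : l.Prime) (hlr : l ∣ r) (hv : Nat.Coprime v l) (hL : r * v ∣ L)
    (g : (Fin k → ZMod (r / l * v)) → Prop) (n : ℕ) (ε : ℝ) (hε : 0 ≤ ε) :
    ((univ.filter (fun b : Fin k → ZMod L => g (rsd (r / l * v) b) ∧
        (1 / 2 + ε) * k ≤ (mnL ψ n b : ℝ))).card : ℝ) ≤
      Real.exp (-(2 * ε ^ 2 * k)) *
        ((univ.filter (fun b : Fin k → ZMod L => g (rsd (r / l * v) b))).card : ℝ) := by
  have hqL : r / l * v ∣ L := (Nat.mul_dvd_mul (Nat.div_dvd_of_dvd hlr) (dvd_refl v)).trans hL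
  have hrL : r ∣ L := (Dvd.intro v rfl).trans hL
  have h1 := hl4_core (k := k) ψ hl.pos hqL hrL g n ε hε (fun _ => True) (by
    intro x
    have h2 := (HL2A_minus r ψ hprim hψ2 l hl hlr v hv ((n : ZMod r) + x.cast)).1
    refine h2.trans (le_of_eq ?_)
    rw [Finset.filter_true, card_range])
  simpa using h1

open Classical in
/-- **HL4B.** With an avoided class `c` modulo `l` (`l ∤ r/l`). Proof. As `HL4` with `h2 a x = [x.cast ≠ c]`,
`h1 a x = h2 a x * (if ψ (n + x.cast) = -1 then exp t else 1)`: on the coset `∑ h2 = l - 1` (`HL2A`) and the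
number `s` of `t` with `ψ = -1` and class `≠ c` is at most `(l-1)/2` (`HL2A_minus`), so
`∑ h1 = (l - 1 - s) + exp t s ≤ (l - 1) (1 + exp t)/2`. -/
theorem HL4B {k r l v L : ℕ} [NeZero L] [NeZero r] (ψ : DirichletCharacter ℂ r) (hprim : ψ.IsPrimitive)
    (hψ2 : ψ ^ 2 = 1) (hl : l.Prime) (hlr : l ∣ r) (h2 : ¬ l ∣ r / l) (hv : Nat.Coprime v l)
    (hL : r * v ∣ L) (g : (Fin k → ZMod (r / l * v)) → Prop) (n : ℕ) (c : ZMod l) (ε : ℝ) (hε : 0 ≤ ε) :
    ((univ.filter (fun b : Fin k → ZMod L => g (rsd (r / l * v) b) ∧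
        (∀ i, ((b i).cast : ZMod l) ≠ c) ∧ (1 / 2 + ε) * k ≤ (mnL ψ n b : ℝ))).card : ℝ) ≤
      Real.exp (-(2 * ε ^ 2 * k)) *
        ((univ.filter (fun b : Fin k → ZMod L => g (rsd (r / l * v) b) ∧
          ∀ i, ((b i).cast : ZMod l) ≠ c)).card : ℝ) := by
  have hqL : r / l * v ∣ L := (Nat.mul_dvd_mul (Nat.div_dvd_of_dvd hlr) (dvd_refl v)).trans hL
  have hrL : r ∣ L := (Dvd.intro v rfl).trans hL
  refine hl4_core (k := k) ψ hl.pos hqL hrL g n ε hε (fun x => (x.cast : ZMod l) ≠ c) ?_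
  intro x
  have h3 := (HL2A_minus r ψ hprim hψ2 l hl hlr v hv ((n : ZMod r) + x.cast)).2 h2
  refine h3.trans (le_of_eq ?_)
  have h4 := HL2A r l hl hlr h2 v hv (x.cast : ZMod r) c
  have h5 : ((range l).filter (fun t : ℕ =>
      ((x + (t : ZMod L) * ((r / l * v : ℕ) : ZMod L)).cast : ZMod l) = c)).card = 1 := by
    rw [← h4]
    refine congrArg Finset.card (Finset.filter_congr fun t _ => ?_)
    rw [hl4_castl hrL hlr x t]
  have h6 := Finset.card_filter_add_card_filter_not (s := range l) (fun t : ℕ =>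
      ((x + (t : ZMod L) * ((r / l * v : ℕ) : ZMod L)).cast : ZMod l) = c)
  rw [card_range, h5] at h6
  have h7 : ((range l).filter (fun t : ℕ =>
      ¬ ((x + (t : ZMod L) * ((r / l * v : ℕ) : ZMod L)).cast : ZMod l) = c)).card = l - 1 := by
    omega
  rw [← h7]

end Pool.Agent.Lib.H59P
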