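import Pool.Agent.Lib.H59P.HLDefs
import Pool.Agent.Lib.H59P.HL1
import Pool.Agent.Lib.H59P.HL2A

/-!
# Project H59P, chunk HL5: for a large prime l the first centre is almost always good
-/

open Finset

namespace Pool.Agent.Lib.H59P

open Pool.Agent.Lib.H68T Pool.Agent.Lib.H18Q

theorem hl5_cast {L : ℕ} [NeZero L] {d : ℕ} (hd : d ∣ L) (x : ZMod L) (t q : ℕ) :
    ((x + (t : ZMod L) * ((q : ℕ) : ZMod L)).cast : ZMod d) = (x.cast : ZMod d) + (t : ZMod d) * ((q : ℕ) : ZMod d) := by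
  have h := map_add (ZMod.castHom hd (ZMod d)) x ((t : ZMod L) * ((q : ℕ) : ZMod L))
  rw [map_mul, map_natCast, map_natCast] at h
  exact h

theorem hl5_cc {L : ℕ} [NeZero L] {d e : ℕ} (he : e ∣ d) (hd : d ∣ L) (x : ZMod L) :
    ((x.cast : ZMod d).cast : ZMod e) = (x.cast : ZMod e) := by
  have h1 : ZMod.castHom he (ZMod e) (ZMod.castHom hd (ZMod d) x) = ZMod.castHom (he.trans hd) (ZMod e) x := by
    have hx : ((x.val : ℕ) : ZMod L) = x := by rw [ZMod.natCast_val, ZMod.cast_id]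
    rw [← hx, map_natCast, map_natCast, map_natCast]
  exact h1

open Classical in
/-- **HL5.** Proof. `HL1` with `w = ((r/l) v : ZMod L)`, `c = rsd q`, `q = (r/l) v`, `h1 = 1`,
`h2 a x = [IsUnit (ν a + x.cast)]`, `M = l/(l-1)`: on the coset the number of units is `l - 1`
(`HL2A_units` with `m = ν a + x.cast`, a unit modulo `r/l` by `hg` — here the hypothesis `∃ b i, c b = a ∧ b i = x`
of `HL1` is used, `x.cast = (a i).cast` in `ZMod (r/l)`). So `#{g} ≤ (l/(l-1))^k #{g ∧ UnL}`, i.e.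
`#{g ∧ UnL} ≥ (1 - 1/l)^k #{g} ≥ (1 - k/l) #{g}` (Bernoulli, `one_add_mul_le_pow`). -/
theorem HL5 {k r l v L : ℕ} [NeZero L] [NeZero r] (hl : l.Prime) (hlr : l ∣ r) (h2 : ¬ l ∣ r / l)
    (hv : Nat.Coprime v l) (hL : r * v ∣ L)
    (g : (Fin k → ZMod (r / l * v)) → Prop) (ν : (Fin k → ZMod (r / l * v)) → ℕ)
    (hg : ∀ a, g a → ∀ i, IsUnit ((ν a : ZMod (r / l)) + (a i).cast)) :
    ((univ.filter (fun b : Fin k → ZMod L => g (rsd (r / l * v) b) ∧
        ¬ UnL r (ν (rsd (r / l * v) b)) b)).card : ℝ) ≤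
      (k : ℝ) / l * ((univ.filter (fun b : Fin k → ZMod L => g (rsd (r / l * v) b))).card : ℝ) := by
  have hl2 : 2 ≤ l := hl.two_le
  have hqr : r / l ∣ r := Nat.div_dvd_of_dvd hlr
  have hrL : r ∣ L := (Nat.dvd_mul_right r v).trans hL
  have hqL : r / l * v ∣ L := (Nat.mul_dvd_mul_right hqr v).trans hL
  have hqq : r / l ∣ r / l * v := Nat.dvd_mul_right _ _
  have hlR : (2 : ℝ) ≤ l := by exact_mod_cast hl2
  have hM : (0 : ℝ) < l - 1 := by linarith
  have key := HL1 (k := k) (L := L) l hl.pos ((r / l * v : ℕ) : ZMod L) (rsd (r / l * v))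
    (fun b t => by
      funext i
      unfold rsd
      rw [hl5_cast hqL, ZMod.natCast_self, mul_zero, add_zero])
    (fun a => if g a then (1 : ℝ) else 0) (fun a => by split_ifs <;> norm_num)
    (fun _ _ => (1 : ℝ)) (fun a x => if IsUnit ((ν a : ZMod r) + x.cast) then (1 : ℝ) else 0)
    (fun _ _ => zero_le_one) ((l : ℝ) / (l - 1)) (fun a ha x hx => by
      obtain ⟨b, i, hba, hbx⟩ := hx
      have hga : g a := by
        by_contra h
        exact ha (if_neg h)
      have h3 : ∀ t ∈ range l, (if IsUnit ((ν a : ZMod r) +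
          ((x + (t : ZMod L) * ((r / l * v : ℕ) : ZMod L)).cast : ZMod r)) then (1 : ℝ) else 0) =
          if IsUnit (((ν a : ZMod r) + x.cast) + (t : ZMod r) * ((r / l * v : ℕ) : ZMod r)) then
            (1 : ℝ) else 0 := by
        intro t _
        rw [hl5_cast hrL, add_assoc]
      rw [Finset.sum_congr rfl h3, Finset.sum_boole]
      have h4 : IsUnit ((((ν a : ZMod r) + (x.cast : ZMod r)).cast : ZMod (r / l))) := by
        have h5 : (((ν a : ZMod r) + (x.cast : ZMod r)).cast : ZMod (r / l)) =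
            (ν a : ZMod (r / l)) + (a i).cast := by
          have h6 := map_add (ZMod.castHom hqr (ZMod (r / l))) (ν a : ZMod r) (x.cast : ZMod r)
          rw [map_natCast] at h6
          have h7 : ((a i).cast : ZMod (r / l)) = (x.cast : ZMod (r / l)) := by
            rw [← hba, ← hbx]
            exact hl5_cc hqq hqL (b i)
          rw [h7, ← hl5_cc hqr hrL x]
          exact h6
        rw [h5]
        exact hg a hga i
      rw [HL2A_units r l hl hlr h2 v hv _ h4, Finset.sum_const, card_range, nsmul_eq_mul, mul_one,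
        Nat.cast_sub (by omega), Nat.cast_one, div_mul_cancel₀ _ hM.ne'])
  have hL1 : ∑ b : Fin k → ZMod L, (if g (rsd (r / l * v) b) then (1 : ℝ) else 0) * ∏ _i : Fin k, (1 : ℝ) =
      ((univ.filter (fun b : Fin k → ZMod L => g (rsd (r / l * v) b))).card : ℝ) := by
    rw [← Finset.sum_boole]
    refine Finset.sum_congr rfl fun b _ => ?_
    rw [Finset.prod_const_one, mul_one]
  have hR1 : ∑ b : Fin k → ZMod L, (if g (rsd (r / l * v) b) then (1 : ℝ) else 0) *
      ∏ i : Fin k, (if IsUnit ((ν (rsd (r / l * v) b) : ZMod r) + (b i).cast) then (1 : ℝ) else 0) =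
      ((univ.filter (fun b : Fin k → ZMod L => g (rsd (r / l * v) b) ∧
        UnL r (ν (rsd (r / l * v) b)) b)).card : ℝ) := by
    rw [← Finset.sum_boole]
    refine Finset.sum_congr rfl fun b _ => ?_
    by_cases h3 : g (rsd (r / l * v) b)
    · rw [if_pos h3, one_mul]
      by_cases h4 : UnL r (ν (rsd (r / l * v) b)) b
      · rw [if_pos ⟨h3, h4⟩]
        exact Finset.prod_eq_one fun i _ => if_pos (h4 i)
      · rw [if_neg (fun h => h4 h.2)]
        unfold UnL at h4
        push Not at h4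
        obtain ⟨i, hi⟩ := h4
        exact Finset.prod_eq_zero (Finset.mem_univ i) (if_neg hi)
    · rw [if_neg h3, zero_mul, if_neg (fun h => h3 h.1)]
  rw [hL1, hR1] at key
  set A : ℝ := ((univ.filter (fun b : Fin k → ZMod L => g (rsd (r / l * v) b))).card : ℝ) with hA
  set B : ℝ := ((univ.filter (fun b : Fin k → ZMod L => g (rsd (r / l * v) b) ∧
        UnL r (ν (rsd (r / l * v) b)) b)).card : ℝ) with hB
  have hsplit : A = B + ((univ.filter (fun b : Fin k → ZMod L => g (rsd (r / l * v) b) ∧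
        ¬ UnL r (ν (rsd (r / l * v) b)) b)).card : ℝ) := by
    have h3 := Finset.card_filter_add_card_filter_not
      (s := univ.filter (fun b : Fin k → ZMod L => g (rsd (r / l * v) b)))
      (fun b => UnL r (ν (rsd (r / l * v) b)) b)
    rw [Finset.filter_filter, Finset.filter_filter] at h3
    rw [hA, hB, ← h3]
    push_cast
    rfl
  have hA0 : 0 ≤ A := Nat.cast_nonneg _
  have hB0 : 0 ≤ B := Nat.cast_nonneg _
  have hpow : (1 - 1 / (l : ℝ)) ^ k * ((l : ℝ) / (l - 1)) ^ k = 1 := by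
    rw [← mul_pow]
    have h3 : (1 - 1 / (l : ℝ)) * ((l : ℝ) / (l - 1)) = 1 := by
      have hl0 : (l : ℝ) ≠ 0 := by linarith
      field_simp
    rw [h3, one_pow]
  have hber : 1 - (k : ℝ) / l ≤ (1 - 1 / (l : ℝ)) ^ k := by
    have h3 := one_add_mul_le_pow (a := -(1 / (l : ℝ))) (by
      have h4 : 1 / (l : ℝ) ≤ 1 := by
        rw [div_le_one (by linarith)]
        linarith
      linarith) k
    have e1 : 1 + (k : ℝ) * -(1 / (l : ℝ)) = 1 - (k : ℝ) / l := by ring
    have e2 : (1 : ℝ) + -(1 / (l : ℝ)) = 1 - 1 / (l : ℝ) := by ring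
    rwa [e1, e2] at h3
  have hpos : 0 ≤ (1 - 1 / (l : ℝ)) ^ k := by
    refine pow_nonneg ?_ k
    have h4 : 1 / (l : ℝ) ≤ 1 := by
      rw [div_le_one (by linarith)]
      linarith
    linarith
  have h5 : (1 - (k : ℝ) / l) * A ≤ B := by
    calc (1 - (k : ℝ) / l) * A ≤ (1 - 1 / (l : ℝ)) ^ k * A := mul_le_mul_of_nonneg_right hber hA0
      _ ≤ (1 - 1 / (l : ℝ)) ^ k * (((l : ℝ) / (l - 1)) ^ k * B) := mul_le_mul_of_nonneg_left key hpos
      _ = B := by rw [← mul_assoc, hpow, one_mul]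
  linarith

end Pool.Agent.Lib.H59P
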