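import Pool.Agent.Lib.H59P.HL3
import Pool.Agent.Lib.H59P.HL5
import Pool.Agent.Lib.H59P.HL6

/-!
# Project H59P, chunk HL7: tuples without a class with almost half minus signs are rare
-/

open Finset

namespace Pool.Agent.Lib.H59P

open Pool.Agent.Lib.H68T Pool.Agent.Lib.H18Q

theorem hl7_cast {L q p : ℕ} [NeZero L] (h : p ∣ q) (x : ZMod L) :
    ((x.cast : ZMod q).cast : ZMod p) = x.cast := by
  rw [← ZMod.natCast_val x (R := ZMod q), ZMod.cast_natCast h, ZMod.natCast_val]

theorem hl7_natcast {L q : ℕ} [NeZero L] (n : ℕ) (x : ZMod L) :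
    (n : ZMod q) + (x.cast : ZMod q) = ((n + x.val : ℕ) : ZMod q) := by
  rw [← ZMod.natCast_val x (R := ZMod q)]
  push_cast
  rfl

theorem hl7_AdL_rsd {k L q q' : ℕ} [NeZero L] (b : Fin k → ZMod L) (h : q ∣ q')
    (hb : AdL q' b) : AdL q (rsd q b) := by
  intro p hp hpq
  obtain ⟨c, hc⟩ := hb p hp (hpq.trans h)
  refine ⟨c, fun i => ?_⟩
  unfold rsd
  rw [hl7_cast hpq]
  exact hc i

theorem hl7_AdL_of {k L q : ℕ} [NeZero L] (b : Fin k → ZMod L) (hb : AdL q (rsd q b)) :
    AdL q b := by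
  intro p hp hpq
  obtain ⟨c, hc⟩ := hb p hp hpq
  refine ⟨c, fun i => ?_⟩
  have := hc i
  unfold rsd at this
  rwa [hl7_cast hpq] at this

theorem hl7_vpos (k r : ℕ) : 0 < vv k r :=
  prod_pos fun p hp => by
    rw [mem_filter] at hp
    exact hp.2.1.pos

theorem hl7_vcop {k r l : ℕ} (hl : l.Prime) (hlr : l ∣ r) : Nat.Coprime (vv k r) l := by
  unfold vv
  refine Nat.Coprime.prod_left fun p hp => ?_
  rw [mem_filter] at hp
  rw [Nat.coprime_primes hp.2.1 hl]
  rintro rfl
  exact hp.2.2 hlr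

/-- a class modulo `l > k` is avoided by `k` elements -/
theorem hl7_avoid {k l : ℕ} [NeZero l] (h : k < l) (f : Fin k → ZMod l) : ∃ c, ∀ i, f i ≠ c := by
  classical
  by_contra hcon
  push Not at hcon
  have h1 : Function.Surjective f := fun c => by
    obtain ⟨i, hi⟩ := hcon c
    exact ⟨i, hi⟩
  have h2 := Fintype.card_le_of_surjective f h1
  rw [ZMod.card, Fintype.card_fin] at h2
  omega

/-- the primes dividing `r v` -/
theorem hl7_primes {r l v p : ℕ} (hl : l.Prime) (hlr : l ∣ r) (hp : p.Prime) (hpr : p ∣ r * v) :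
    p ∣ r / l * v ∨ p = l := by
  rcases (Nat.Prime.dvd_mul hp).1 hpr with h | h
  · rw [← Nat.div_mul_cancel hlr] at h
    rcases (Nat.Prime.dvd_mul hp).1 h with h | h
    · exact Or.inl (Dvd.dvd.mul_right h v)
    · exact Or.inr ((Nat.prime_dvd_prime_iff_eq hp hl).1 h)
  · exact Or.inl (Dvd.dvd.mul_left h _)

theorem hl7_inv {l m : ℕ} (hl : l.Prime) (h : ¬ l ∣ m) (x : ZMod l) :
    ∃ j < l, (m : ZMod l) * (j : ZMod l) = x := by
  have : Fact l.Prime := ⟨hl⟩
  have hm : (m : ZMod l) ≠ 0 := by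
    rw [Ne, ZMod.natCast_eq_zero_iff]
    exact h
  refine ⟨((m : ZMod l)⁻¹ * x).val, ZMod.val_lt _, ?_⟩
  rw [ZMod.natCast_zmod_val, ← mul_assoc, mul_inv_cancel₀ hm, one_mul]

/-- A prime `l ∣ r` with `UnL` gives the avoided class at `l`. -/
theorem hl7_AdL_of_UnL {k r l v n L : ℕ} [NeZero L] [NeZero r] (hl : l.Prime) (hlr : l ∣ r)
    (b : Fin k → ZMod L) (hg : AdL (r / l * v) (rsd (r / l * v) b)) (hu : UnL r n b) :
    AdL (r * v) b := by
  intro p hp hpr
  rcases hl7_primes hl hlr hp hpr with h | rfl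
  · exact hl7_AdL_of b hg p hp h
  · refine ⟨-(n : ZMod p), fun i hi => ?_⟩
    have h1 := hu i
    rw [hl7_natcast] at h1
    have h2 : Nat.Coprime (n + (b i).val) r := (ZMod.isUnit_iff_coprime _ _).1 h1
    have h3 : Nat.Coprime (n + (b i).val) p := Nat.Coprime.coprime_dvd_right hlr h2
    have h4 : ((n + (b i).val : ℕ) : ZMod p) = 0 := by
      rw [← hl7_natcast, hi, add_neg_cancel]
    rw [ZMod.natCast_eq_zero_iff] at h4
    have h5 := Nat.Coprime.eq_one_of_dvd h3.symm h4
    exact hp.one_lt.ne' h5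

/-- Unit modulo `r` from unit modulo `r / l`. -/
theorem hl7_UnL {k r l n m L : ℕ} [NeZero L] [NeZero r] (hl : l.Prime) (hlr : l ∣ r)
    (b : Fin k → ZMod L) (h1 : ∀ i, IsUnit ((n : ZMod (r / l)) + (b i).cast))
    (hm : (m : ZMod (r / l)) = n)
    (h2 : ∀ i, l ∣ r / l ∨ (m : ZMod l) + (b i).cast ≠ 0) : UnL r m b := by
  intro i
  rw [hl7_natcast]
  apply HL6_unit hl hlr
  · rw [← hl7_natcast, hm]
    exact h1 i
  · rcases h2 i with h | h
    · exact Or.inl h
    · refine Or.inr fun hd => h ?_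
      rw [hl7_natcast, ZMod.natCast_eq_zero_iff]
      exact hd

open Classical in
/-- **HL7.** Proof. `r > 1` (`ψ ≠ 1`); let `l` be a prime divisor of `r`, `v = vv k r` (prime to `l`),
`q = (r/l) v`, `g a = AdL q a`, `ν0 a` the centre of `HL6` for the modulus `r/l` (`g a → ∀ i, IsUnit ((ν0 a :
ZMod (r/l)) + (a i).cast)`; else `0`), `T = {b | AdL (r v) b}`. `AdL (r v) b → g (rsd q b)` (casts of casts).
* If `l ∣ r/l`: `g (rsd q b) ↔ AdL (r v) b` (same primes), and then `UnL r (ν0 ..) b` (`HL6_unit`). So the bad set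
  is contained in that of `HL3` with `ν = ν0`: at most `exp (-2ε²k) #T`.
* If `l ∤ r/l` and (`l ≤ k` or `l ≤ exp (ε² k)`): for `j < l` put `ν_j a = ν0 a + (r/l) j`. `AdL (r v) b` gives
  an avoided class `c` modulo `l` and a `j < l` with `ν0 + (r/l) j ≡ -c mod l`, so `UnL r (ν_j ..) b`
  (`HL6_unit`; modulo `r/l` nothing changes). So the bad set is contained in the union over `j` of the sets of
  `HL3` with `ν = ν_j`, `#{g ∧ UnL r ν_j} ≤ #T` (`g` and `UnL` imply `AdL (r v)`: avoided class `-ν_j` at `l`): at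
  most `l exp (-2ε²k) #T ≤ max (k, exp (ε² k)) exp (-2ε²k) #T ≤ (k+1) exp (-ε²k) #T`.
* If `l ∤ r/l`, `l > k`, `l > exp (ε² k)`: `g (rsd q b) → AdL (r v) b` (a class modulo `l > k` is avoided by `k`
  elements), so `{g} = T`; the bad set is contained in `{g ∧ ¬ UnL r ν0} ∪ {g ∧ UnL r ν0 ∧ few}`, at most
  `(k/l + exp (-2ε²k)) #T ≤ (k+1) exp (-ε²k) #T` by `HL5`, `HL3`. -/
theorem HL7 {k r L : ℕ} [NeZero L] [NeZero r] (ψ : DirichletCharacter ℂ r) (hprim : ψ.IsPrimitive)
    (hψ : ψ ≠ 1) (hψ2 : ψ ^ 2 = 1) (hk : 1 ≤ k) (hL : r * vv k r ∣ L) (ε : ℝ) (hε : 0 < ε) :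
    ((univ.filter (fun b : Fin k → ZMod L => AdL (r * vv k r) b ∧
        ∀ n : ℕ, (mnL ψ n b : ℝ) < (1 / 2 - ε) * k)).card : ℝ) ≤
      (k + 1) * Real.exp (-(ε ^ 2 * k)) *
        ((univ.filter (fun b : Fin k → ZMod L => AdL (r * vv k r) b)).card : ℝ) := by
  have hr1 : r ≠ 1 := by
    rintro rfl
    exact hψ (DirichletCharacter.level_one ψ)
  obtain ⟨l, hl, hlr⟩ := Nat.exists_prime_and_dvd hr1
  have : NeZero l := ⟨hl.ne_zero⟩
  have hr0 : 0 < r := Nat.pos_of_ne_zero (NeZero.ne r)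
  have hrl0 : 0 < r / l := Nat.div_pos (Nat.le_of_dvd hr0 hlr) hl.pos
  set v := vv k r with hv
  have hv0 : 0 < v := hl7_vpos k r
  have hvl : Nat.Coprime v l := hl7_vcop hl hlr
  have hq0 : 0 < r / l * v := Nat.mul_pos hrl0 hv0
  have : NeZero (r / l * v) := ⟨hq0.ne'⟩
  have hqd : r / l * v ∣ r * v := Nat.mul_dvd_mul_right (Nat.div_dvd_of_dvd hlr) v
  set g : (Fin k → ZMod (r / l * v)) → Prop := fun a => AdL (r / l * v) a with hg
  have hex : ∀ a : Fin k → ZMod (r / l * v), ∃ n : ℕ, g a →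
      ∀ i, IsUnit ((n : ZMod (r / l)) + (a i).cast) := by
    intro a
    by_cases h : g a
    · obtain ⟨n, hn⟩ := HL6 (q := r / l) hrl0 (Dvd.intro v rfl) a
        (fun p hp hpq => h p hp (hpq.trans (Dvd.intro v rfl)))
      exact ⟨n, fun _ => hn⟩
    · exact ⟨0, fun h' => absurd h' h⟩
  choose ν0 hν0 using hex
  have hunit : ∀ b : Fin k → ZMod L, g (rsd (r / l * v) b) →
      ∀ i, IsUnit ((ν0 (rsd (r / l * v) b) : ZMod (r / l)) + (b i).cast) := by
    intro b hb i
    have h := hν0 _ hb i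
    unfold rsd at h ⊢
    rwa [hl7_cast (Dvd.intro v rfl)] at h
  have hgAd : ∀ b : Fin k → ZMod L, AdL (r * v) b → g (rsd (r / l * v) b) :=
    fun b hb => hl7_AdL_rsd b hqd hb
  set T := univ.filter (fun b : Fin k → ZMod L => AdL (r * v) b) with hT
  have hT0 : (0 : ℝ) ≤ T.card := Nat.cast_nonneg _
  have hk0 : (0 : ℝ) ≤ k := Nat.cast_nonneg _
  have hexp : Real.exp (-(2 * ε ^ 2 * k)) = Real.exp (-(ε ^ 2 * k)) * Real.exp (-(ε ^ 2 * k)) := by
    rw [← Real.exp_add]
    congr 1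
    ring
  have hE0 : 0 < Real.exp (-(ε ^ 2 * k)) := Real.exp_pos _
  have hE1 : Real.exp (-(ε ^ 2 * k)) ≤ 1 := by
    rw [Real.exp_le_one_iff]
    have : 0 ≤ ε ^ 2 * k := by positivity
    linarith
  have hEE : Real.exp (-(2 * ε ^ 2 * k)) ≤ Real.exp (-(ε ^ 2 * k)) := by
    rw [hexp]
    calc _ ≤ Real.exp (-(ε ^ 2 * k)) * 1 := mul_le_mul_of_nonneg_left hE1 hE0.le
      _ = _ := mul_one _
  by_cases hc1 : l ∣ r / l
  · -- first case
    have h3 := HL3 (v := v) ψ hprim hψ2 hl hlr hvl hL g ν0 ε hε.le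
    have hsub : (univ.filter (fun b : Fin k → ZMod L => AdL (r * v) b ∧
        ∀ n : ℕ, (mnL ψ n b : ℝ) < (1 / 2 - ε) * k)) ⊆
        (univ.filter (fun b : Fin k → ZMod L => g (rsd (r / l * v) b) ∧
        UnL r (ν0 (rsd (r / l * v) b)) b ∧
        (mnL ψ (ν0 (rsd (r / l * v) b)) b : ℝ) < (1 / 2 - ε) * k)) := by
      intro b hb
      rw [mem_filter] at hb ⊢
      have hgb := hgAd b hb.2.1
      exact ⟨mem_univ _, hgb, hl7_UnL hl hlr b (hunit b hgb) rfl (fun _ => Or.inl hc1), hb.2.2 _⟩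
    have hsub2 : (univ.filter (fun b : Fin k → ZMod L => g (rsd (r / l * v) b) ∧
        UnL r (ν0 (rsd (r / l * v) b)) b)) ⊆ T := by
      intro b hb
      rw [mem_filter] at hb
      rw [hT, mem_filter]
      exact ⟨mem_univ _, hl7_AdL_of_UnL hl hlr b hb.2.1 hb.2.2⟩
    have c1 : ((univ.filter (fun b : Fin k → ZMod L => AdL (r * v) b ∧
        ∀ n : ℕ, (mnL ψ n b : ℝ) < (1 / 2 - ε) * k)).card : ℝ) ≤ _ :=
      le_trans (by exact_mod_cast card_le_card hsub) h3
    have c2 : ((univ.filter (fun b : Fin k → ZMod L => g (rsd (r / l * v) b) ∧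
        UnL r (ν0 (rsd (r / l * v) b)) b)).card : ℝ) ≤ T.card := by
      exact_mod_cast card_le_card hsub2
    refine c1.trans ?_
    calc _ ≤ Real.exp (-(ε ^ 2 * k)) * (T.card : ℝ) :=
          mul_le_mul hEE c2 (Nat.cast_nonneg _) hE0.le
      _ ≤ (k + 1) * Real.exp (-(ε ^ 2 * k)) * T.card := by
          apply mul_le_mul_of_nonneg_right _ hT0
          nlinarith
  · by_cases hc2 : k < l ∧ Real.exp (ε ^ 2 * k) < l
    · -- third case
      obtain ⟨hkl, hel⟩ := hc2
      have hgT : ∀ b : Fin k → ZMod L, g (rsd (r / l * v) b) → AdL (r * v) b := by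
        intro b hb p hp hpr
        rcases hl7_primes hl hlr hp hpr with h | rfl
        · exact hl7_AdL_of b hb p hp h
        · exact hl7_avoid hkl _
      have h3 := HL3 (v := v) ψ hprim hψ2 hl hlr hvl hL g ν0 ε hε.le
      have h5 := HL5 (v := v) hl hlr hc1 hvl hL g ν0 hν0
      have hsub : (univ.filter (fun b : Fin k → ZMod L => AdL (r * v) b ∧
          ∀ n : ℕ, (mnL ψ n b : ℝ) < (1 / 2 - ε) * k)) ⊆
          (univ.filter (fun b : Fin k → ZMod L => g (rsd (r / l * v) b) ∧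
            ¬ UnL r (ν0 (rsd (r / l * v) b)) b)) ∪
          (univ.filter (fun b : Fin k → ZMod L => g (rsd (r / l * v) b) ∧
          UnL r (ν0 (rsd (r / l * v) b)) b ∧
          (mnL ψ (ν0 (rsd (r / l * v) b)) b : ℝ) < (1 / 2 - ε) * k)) := by
        intro b hb
        rw [mem_filter] at hb
        rw [mem_union, mem_filter, mem_filter]
        have hgb := hgAd b hb.2.1
        by_cases hu : UnL r (ν0 (rsd (r / l * v) b)) b
        · exact Or.inr ⟨mem_univ _, hgb, hu, hb.2.2 _⟩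
        · exact Or.inl ⟨mem_univ _, hgb, hu⟩
      have hgc : ((univ.filter (fun b : Fin k → ZMod L => g (rsd (r / l * v) b))).card : ℝ) ≤
          T.card := by
        have : (univ.filter (fun b : Fin k → ZMod L => g (rsd (r / l * v) b))) ⊆ T := by
          intro b hb
          rw [mem_filter] at hb
          rw [hT, mem_filter]
          exact ⟨mem_univ _, hgT b hb.2⟩
        exact_mod_cast card_le_card this
      have hgu : ((univ.filter (fun b : Fin k → ZMod L => g (rsd (r / l * v) b) ∧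
          UnL r (ν0 (rsd (r / l * v) b)) b)).card : ℝ) ≤ T.card := by
        have : (univ.filter (fun b : Fin k → ZMod L => g (rsd (r / l * v) b) ∧
          UnL r (ν0 (rsd (r / l * v) b)) b)) ⊆ T := by
          intro b hb
          rw [mem_filter] at hb
          rw [hT, mem_filter]
          exact ⟨mem_univ _, hgT b hb.2.1⟩
        exact_mod_cast card_le_card this
      have hl0 : (0 : ℝ) < l := by exact_mod_cast hl.pos
      have hkl2 : (k : ℝ) / l ≤ k * Real.exp (-(ε ^ 2 * k)) := by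
        rw [div_le_iff₀ hl0, mul_assoc]
        have h1 : 1 ≤ Real.exp (-(ε ^ 2 * k)) * l := by
          rw [Real.exp_neg]
          rw [inv_mul_eq_div, le_div_iff₀ (Real.exp_pos _), one_mul]
          exact hel.le
        calc (k : ℝ) = k * 1 := (mul_one _).symm
          _ ≤ _ := mul_le_mul_of_nonneg_left h1 hk0
      have c1 : ((univ.filter (fun b : Fin k → ZMod L => AdL (r * v) b ∧
          ∀ n : ℕ, (mnL ψ n b : ℝ) < (1 / 2 - ε) * k)).card : ℝ) ≤
          ((univ.filter (fun b : Fin k → ZMod L => g (rsd (r / l * v) b) ∧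
            ¬ UnL r (ν0 (rsd (r / l * v) b)) b)).card : ℝ) +
          ((univ.filter (fun b : Fin k → ZMod L => g (rsd (r / l * v) b) ∧
          UnL r (ν0 (rsd (r / l * v) b)) b ∧
          (mnL ψ (ν0 (rsd (r / l * v) b)) b : ℝ) < (1 / 2 - ε) * k)).card : ℝ) := by
        exact_mod_cast (card_le_card hsub).trans (card_union_le _ _)
      refine c1.trans ((add_le_add h5 h3).trans ?_)
      calc _ ≤ (k * Real.exp (-(ε ^ 2 * k))) * (T.card : ℝ) +
            Real.exp (-(ε ^ 2 * k)) * (T.card : ℝ) := by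
            apply add_le_add
            · exact mul_le_mul hkl2 hgc (Nat.cast_nonneg _) (by positivity)
            · exact mul_le_mul hEE hgu (Nat.cast_nonneg _) hE0.le
        _ = (k + 1) * Real.exp (-(ε ^ 2 * k)) * T.card := by ring
    · -- second case
      have hlk : (l : ℝ) * Real.exp (-(2 * ε ^ 2 * k)) ≤ (k + 1) * Real.exp (-(ε ^ 2 * k)) := by
        rw [hexp, ← mul_assoc]
        apply mul_le_mul_of_nonneg_right _ hE0.le
        rw [not_and_or, not_lt, not_lt] at hc2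
        rcases hc2 with h | h
        · have h' : (l : ℝ) ≤ k := by exact_mod_cast h
          calc (l : ℝ) * Real.exp (-(ε ^ 2 * k)) ≤ k * 1 := mul_le_mul h' hE1 hE0.le hk0
            _ ≤ k + 1 := by linarith
        · calc (l : ℝ) * Real.exp (-(ε ^ 2 * k)) ≤
                Real.exp (ε ^ 2 * k) * Real.exp (-(ε ^ 2 * k)) :=
                mul_le_mul_of_nonneg_right h hE0.le
            _ = 1 := by rw [← Real.exp_add, add_neg_cancel, Real.exp_zero]
            _ ≤ k + 1 := by linarith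
      set νj : ℕ → (Fin k → ZMod (r / l * v)) → ℕ := fun j a => ν0 a + r / l * j with hνj
      have h3 := fun j : ℕ => HL3 (v := v) ψ hprim hψ2 hl hlr hvl hL g (νj j) ε hε.le
      have hsub : (univ.filter (fun b : Fin k → ZMod L => AdL (r * v) b ∧
          ∀ n : ℕ, (mnL ψ n b : ℝ) < (1 / 2 - ε) * k)) ⊆
          (range l).biUnion (fun j => univ.filter (fun b : Fin k → ZMod L =>
            g (rsd (r / l * v) b) ∧ UnL r (νj j (rsd (r / l * v) b)) b ∧
            (mnL ψ (νj j (rsd (r / l * v) b)) b : ℝ) < (1 / 2 - ε) * k)) := by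
        intro b hb
        rw [mem_filter] at hb
        rw [mem_biUnion]
        have hgb := hgAd b hb.2.1
        obtain ⟨c, hc⟩ := hb.2.1 l hl (Dvd.dvd.mul_right hlr v)
        obtain ⟨j, hj, hjc⟩ := hl7_inv hl hc1 (-c - (ν0 (rsd (r / l * v) b) : ZMod l))
        refine ⟨j, mem_range.2 hj, ?_⟩
        rw [mem_filter]
        refine ⟨mem_univ _, hgb, ?_, hb.2.2 _⟩
        refine hl7_UnL hl hlr b (hunit b hgb) ?_ (fun i => Or.inr ?_)
        · rw [hνj]
          simp only [Nat.cast_add, Nat.cast_mul, ZMod.natCast_self, zero_mul, add_zero]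
        · rw [hνj]
          simp only [Nat.cast_add, Nat.cast_mul]
          rw [hjc]
          intro h0
          apply hc i
          linear_combination h0
      have hsub2 : ∀ j : ℕ, ((univ.filter (fun b : Fin k → ZMod L => g (rsd (r / l * v) b) ∧
          UnL r (νj j (rsd (r / l * v) b)) b)).card : ℝ) ≤ T.card := by
        intro j
        have : (univ.filter (fun b : Fin k → ZMod L => g (rsd (r / l * v) b) ∧
          UnL r (νj j (rsd (r / l * v) b)) b)) ⊆ T := by
          intro b hb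
          rw [mem_filter] at hb
          rw [hT, mem_filter]
          exact ⟨mem_univ _, hl7_AdL_of_UnL hl hlr b hb.2.1 hb.2.2⟩
        exact_mod_cast card_le_card this
      have c1 : ((univ.filter (fun b : Fin k → ZMod L => AdL (r * v) b ∧
          ∀ n : ℕ, (mnL ψ n b : ℝ) < (1 / 2 - ε) * k)).card : ℝ) ≤
          ∑ j ∈ range l, ((univ.filter (fun b : Fin k → ZMod L =>
            g (rsd (r / l * v) b) ∧ UnL r (νj j (rsd (r / l * v) b)) b ∧
            (mnL ψ (νj j (rsd (r / l * v) b)) b : ℝ) < (1 / 2 - ε) * k)).card : ℝ) := by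
        exact_mod_cast (card_le_card hsub).trans card_biUnion_le
      refine c1.trans ?_
      calc _ ≤ ∑ j ∈ range l, Real.exp (-(2 * ε ^ 2 * k)) * (T.card : ℝ) :=
            sum_le_sum fun j _ => (h3 j).trans
              (mul_le_mul_of_nonneg_left (hsub2 j) (Real.exp_pos _).le)
        _ = (l : ℝ) * Real.exp (-(2 * ε ^ 2 * k)) * T.card := by
            rw [sum_const, card_range, nsmul_eq_mul]
            ring
        _ ≤ _ := mul_le_mul_of_nonneg_right hlk hT0

end Pool.Agent.Lib.H59P
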