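import Pool.Agent.Lib.H59P.YDefs
import Pool.Agent.Lib.H68X.XRC
import Pool.Agent.Lib.H51D.VDefs

/-!
# Project H59P, module HL (the half law): definitions
-/

open Finset

namespace Pool.Agent.Lib.H59P

open Pool.Agent.Lib.H68T Pool.Agent.Lib.H18Q

noncomputable section

/-- Some `n`, `1 ≤ n ≤ x`, makes at least `θ |A|` of the numbers `n + a`, `a ∈ A`, prime. -/
def HasMany (x θ : ℝ) (A : Finset ℕ) : Prop :=
  ∃ n : ℕ, 1 ≤ n ∧ (n : ℝ) ≤ x ∧ θ * A.card ≤ ((A.filter (fun a => (n + a).Prime)).card : ℝ)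

open Classical in
/-- The number of `a ∈ A` with `ψ(n+a) = -1`. -/
def mnA {r : ℕ} (ψ : DirichletCharacter ℂ r) (n : ℕ) (A : Finset ℕ) : ℕ :=
  (A.filter (fun a : ℕ => ψ ((n + a : ℕ) : ZMod r) = -1)).card

/-- The classes modulo `q` of a tuple of classes modulo `L` (used for `q ∣ L`). -/
def rsd {k L : ℕ} (q : ℕ) (b : Fin k → ZMod L) : Fin k → ZMod q := fun i => (b i).cast

/-- The tuple is admissible at the primes dividing `q`. -/
def AdL {k L : ℕ} (q : ℕ) (b : Fin k → ZMod L) : Prop :=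
  ∀ p : ℕ, p.Prime → p ∣ q → ∃ c : ZMod p, ∀ i, ((b i).cast : ZMod p) ≠ c

/-- All `n + b_i` are units modulo `r`. -/
def UnL {k L : ℕ} (r n : ℕ) (b : Fin k → ZMod L) : Prop := ∀ i, IsUnit ((n : ZMod r) + (b i).cast)

open Classical in
/-- The number of coordinates with `ψ(n + b_i) = -1`. -/
def mnL {k L r : ℕ} (ψ : DirichletCharacter ℂ r) (n : ℕ) (b : Fin k → ZMod L) : ℕ :=
  (univ.filter (fun i => ψ ((n : ZMod r) + (b i).cast) = -1)).card

/-- The product of the primes `p ≤ k` which do not divide `r`. -/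
def vv (k r : ℕ) : ℕ := ∏ p ∈ (range (k + 1)).filter (fun p => p.Prime ∧ ¬ p ∣ r), p

open Classical in
/-- The admissible `k`-sets in `[0, x^(1-δ)]` for which no `n ≤ x` makes at least `θ k` of the `n + a` prime. -/
def fewS (x δ θ : ℝ) (k : ℕ) : Finset (Finset ℕ) := (adm x δ k).filter (fun A => ¬ HasMany x θ A)

open Classical in
/-- The admissible `k`-sets in `[0, x^(1-δ)]` for which some `n ≤ x` makes at least `θ k` of the `n + a` prime. -/
def manyS (x δ θ : ℝ) (k : ℕ) : Finset (Finset ℕ) := (adm x δ k).filter (fun A => HasMany x θ A)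

/-- At least the proportion `exp (-ε² k)` of the admissible `k`-sets has a translate with at least
`(1/2 + ε) k` primes. -/
def ManyHave (κ ε : ℝ) : Prop :=
  ∀ δ : ℝ, 0 < δ → δ < κ → ∃ x₀ : ℝ, ∀ x : ℝ, x₀ ≤ x → ∀ k : ℕ, 1 ≤ k →
    (k : ℝ) ≤ (Real.log x) ^ (κ - δ) →
    Real.exp (-(ε ^ 2 * k)) * ((adm x δ k).card : ℝ) ≤ ((manyS x δ (1 / 2 + ε) k).card : ℝ)

end

end Pool.Agent.Lib.H59P
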