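import Pool.Agent.Lib.H59P.HL17B
import Pool.Agent.Lib.H59P.HL20
import Pool.Agent.Lib.H59P.YK
import Pool.Agent.Lib.H59P.T7
import Pool.Agent.Lib.H59P.T8
import Pool.Agent.Lib.H59P.A7
import Pool.Agent.Lib.H59P.F
import Pool.Agent.Lib.H68X.XSET

/-!
# Project H59P: the half law with sets
-/

open Finset

namespace Pool.Agent.Lib.H59P

open Pool.Agent.Lib.H68T Pool.Agent.Lib.H18Q

/-- The sets with a property, as a set of finite sets. -/
theorem HLE_card (x δ : ℝ) (k : ℕ) (hx : 0 ≤ x) (P : Finset ℕ → Prop) [DecidablePred P] :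
    ({A ∈ XSET_adm x δ k | P A}).ncard = ((adm x δ k).filter P).card := by
  have h : ({A ∈ XSET_adm x δ k | P A}) = (((adm x δ k).filter P : Finset (Finset ℕ)) : Set (Finset ℕ)) := by
    rw [XSET_conv x δ k hx]
    ext A
    simp only [Set.mem_setOf_eq, Finset.coe_filter, adm, Finset.mem_coe, Finset.mem_filter]
  rw [h, Set.ncard_coe_finset]

theorem HLE_adm (x δ : ℝ) (k : ℕ) (hx : 0 ≤ x) :
    (XSET_adm x δ k).ncard = (adm x δ k).card := by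
  rw [XSET_card x δ k hx]
  rfl

/-- All but a proportion `exp (-(log x)^((κ-δ)/2))` of the admissible `k`-sets have a translate with at least
`θ k` primes. -/
def HLStrong (κ θ : ℝ) : Prop :=
  ∀ δ : ℝ, 0 < δ → δ < κ → ∃ x₀ : ℝ, ∀ x : ℝ, x₀ ≤ x → ∀ k : ℕ, 1 ≤ k →
    (k : ℝ) ≤ (Real.log x) ^ (κ - δ) → 0 < (XSET_adm x δ k).ncard ∧
    (({A ∈ XSET_adm x δ k | ¬ HasMany x θ A}.ncard : ℕ) : ℝ) ≤
      Real.exp (-(Real.log x) ^ ((κ - δ) / 2)) * ((XSET_adm x δ k).ncard : ℝ)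

/-- At least the proportion `exp (-(θ-1/2)² k)` of the admissible `k`-sets, `k ≥ k₀`, has a translate with at
least `θ k` primes. -/
def HLWeak (κ θ : ℝ) : Prop :=
  ∀ δ : ℝ, 0 < δ → δ < κ → ∃ (x₀ : ℝ) (k₀ : ℕ), ∀ x : ℝ, x₀ ≤ x → ∀ k : ℕ, 1 ≤ k → k₀ ≤ k →
    (k : ℝ) ≤ (Real.log x) ^ (κ - δ) →
    Real.exp (-((θ - 1 / 2) ^ 2 * k)) * ((XSET_adm x δ k).ncard : ℝ) ≤
      (({A ∈ XSET_adm x δ k | HasMany x θ A}.ncard : ℕ) : ℝ)

/-- The half law. -/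
theorem HLE_half (κ θ : ℝ) (hκ1 : κ ≤ 1) (hθ : θ < 1 / 2) : HLStrong κ θ := by
  classical
  intro δ hδ hδκ
  obtain ⟨e, he0, he1, hee⟩ : ∃ e : ℝ, 0 < e ∧ e < 1 / 2 ∧ e ≤ 1 / 2 - θ :=
    ⟨min (1 / 2 - θ) (1 / 4), lt_min (by linarith) (by norm_num), by
      have := min_le_right (1 / 2 - θ) (1 / 4)
      linarith, min_le_left _ _⟩
  obtain ⟨c0, hc0, hlow⟩ := T_low
  obtain ⟨x₀, h⟩ := HL17B F_main T_main A_main c0 hc0 hlow T_count δ e hδ (by linarith) he0 he1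
  obtain ⟨x₁, hx₁1, hx₁⟩ := XSET_pos δ hδ (by linarith)
  refine ⟨max (max x₀ x₁) (Real.exp 1), fun x hx k hk1 hk => ?_⟩
  have hxe : Real.exp 1 ≤ x := (le_max_right _ _).trans hx
  have h0' : 0 < x := lt_of_lt_of_le (Real.exp_pos _) hxe
  have hL1 : 1 ≤ Real.log x := by
    rw [Real.le_log_iff_exp_le h0']; exact hxe
  have hm : max x₀ x₁ ≤ x := (le_max_left _ _).trans hx
  have hk' : (k : ℝ) ≤ (Real.log x) ^ (1 - δ) :=
    hk.trans (Real.rpow_le_rpow_of_exponent_le hL1 (by linarith))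
  refine ⟨hx₁ x ((le_max_right _ _).trans hm) k hk1 hk', ?_⟩
  rw [HLE_card x δ k h0'.le, HLE_adm x δ k h0'.le]
  have hsub : (adm x δ k).filter (fun A => ¬ HasMany x θ A) ⊆ fewS x δ (1 / 2 - e) k := by
    intro A hA
    unfold fewS
    rw [Finset.mem_filter] at hA ⊢
    refine ⟨hA.1, fun hM => hA.2 ?_⟩
    obtain ⟨n, hn1, hn2, hn3⟩ := hM
    refine ⟨n, hn1, hn2, le_trans ?_ hn3⟩
    exact mul_le_mul_of_nonneg_right (by linarith) (Nat.cast_nonneg _)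
  have h1 : (((adm x δ k).filter (fun A => ¬ HasMany x θ A)).card : ℝ) ≤
      ((fewS x δ (1 / 2 - e) k).card : ℝ) := by
    exact_mod_cast card_le_card hsub
  refine h1.trans ((h x ((le_max_left _ _).trans hm) k hk1 hk').trans ?_)
  apply mul_le_mul_of_nonneg_right _ (Nat.cast_nonneg _)
  apply Real.exp_le_exp.2
  have h2 : (Real.log x) ^ ((κ - δ) / 2) ≤ (Real.log x) ^ ((1 - δ) / 2) :=
    Real.rpow_le_rpow_of_exponent_le hL1 (by linarith)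
  linarith

/-- Without exceptional zeros: all elements. -/
theorem HLE_all (κ θ : ℝ) (hκ : 0 < κ) (hκ1 : κ ≤ 1) (hθ1 : θ ≤ 1) (hz : NoSiegelK κ) :
    HLStrong κ θ := by
  classical
  intro δ hδ hδκ
  obtain ⟨c0, hc0, hlow⟩ := T_low
  obtain ⟨x₀, h⟩ := YK F_main T_main A_main c0 hc0 hlow T_count κ hκ hκ1 hz δ hδ hδκ
  obtain ⟨x₁, hx₁1, hx₁⟩ := XSET_pos δ hδ (by linarith)
  refine ⟨max (max x₀ x₁) (Real.exp 1), fun x hx k hk1 hk => ?_⟩
  have hxe : Real.exp 1 ≤ x := (le_max_right _ _).trans hx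
  have h0' : 0 < x := lt_of_lt_of_le (Real.exp_pos _) hxe
  have hL1 : 1 ≤ Real.log x := by
    rw [Real.le_log_iff_exp_le h0']; exact hxe
  have hm : max x₀ x₁ ≤ x := (le_max_left _ _).trans hx
  have hk' : (k : ℝ) ≤ (Real.log x) ^ (1 - δ) :=
    hk.trans (Real.rpow_le_rpow_of_exponent_le hL1 (by linarith))
  refine ⟨hx₁ x ((le_max_right _ _).trans hm) k hk1 hk', ?_⟩
  rw [HLE_card x δ k h0'.le, HLE_adm x δ k h0'.le]
  obtain ⟨hsub, -⟩ := hl17_sub x x δ δ θ k hθ1 le_rfl rfl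
  have hsub' : (adm x δ k).filter (fun A => ¬ HasMany x θ A) ⊆ bad x δ k := by
    intro A hA
    apply hsub
    unfold fewS
    exact hA
  have h1 : (((adm x δ k).filter (fun A => ¬ HasMany x θ A)).card : ℝ) ≤ ((bad x δ k).card : ℝ) := by
    exact_mod_cast card_le_card hsub'
  refine h1.trans ((h x ((le_max_left _ _).trans hm) k hk1 hk).trans ?_)
  apply mul_le_mul_of_nonneg_right _ (Nat.cast_nonneg _)
  apply Real.exp_le_exp.2
  have h2 : (Real.log x) ^ ((κ - δ) / 2) ≤ (Real.log x) ^ (κ - δ / 2) :=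
    Real.rpow_le_rpow_of_exponent_le hL1 (by linarith)
  linarith

theorem HLE_weak (κ θ : ℝ) (hθ : θ ≠ 1 / 2) (h : HLStrong κ θ) : HLWeak κ θ := by
  classical
  intro δ hδ hδκ
  obtain ⟨x₀, hx₀⟩ := h δ hδ hδκ
  set s := (θ - 1 / 2) ^ 2 with hs
  have hs0 : 0 < s := by
    have : θ - 1 / 2 ≠ 0 := sub_ne_zero.2 hθ
    positivity
  have hs1 : Real.exp (-s) < 1 := by
    rw [Real.exp_lt_one_iff]
    linarith
  have hev : ∀ᶠ x : ℝ in Filter.atTop, Real.exp (-(Real.log x) ^ ((κ - δ) / 2)) ≤ 1 - Real.exp (-s) := by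
    have t1 : Filter.Tendsto (fun x : ℝ => (Real.log x) ^ ((κ - δ) / 2)) Filter.atTop Filter.atTop :=
      (tendsto_rpow_atTop (by linarith)).comp Real.tendsto_log_atTop
    have t2 : Filter.Tendsto (fun x : ℝ => Real.exp (-(Real.log x) ^ ((κ - δ) / 2))) Filter.atTop
        (nhds 0) := Real.tendsto_exp_neg_atTop_nhds_zero.comp t1
    exact t2.eventually (eventually_le_nhds (by linarith))
  obtain ⟨x₁, hx₁⟩ := Filter.eventually_atTop.1 hev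
  refine ⟨max (max x₀ x₁) 0, 0, fun x hx k hk1 _ hk => ?_⟩
  have h0 : 0 ≤ x := (le_max_right _ _).trans hx
  have hm : max x₀ x₁ ≤ x := (le_max_left _ _).trans hx
  obtain ⟨-, h1⟩ := hx₀ x ((le_max_left _ _).trans hm) k hk1 hk
  have h2 := hx₁ x ((le_max_right _ _).trans hm)
  rw [HLE_card x δ k h0, HLE_adm x δ k h0] at *
  have h3 : (((adm x δ k).filter (fun A => HasMany x θ A)).card : ℝ) +
      (((adm x δ k).filter (fun A => ¬ HasMany x θ A)).card : ℝ) = ((adm x δ k).card : ℝ) := by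
    exact_mod_cast card_filter_add_card_filter_not (s := adm x δ k) (fun A => HasMany x θ A)
  have h4 : (0 : ℝ) ≤ ((adm x δ k).card : ℝ) := Nat.cast_nonneg _
  have h5 : Real.exp (-(s * k)) ≤ Real.exp (-s) := by
    apply Real.exp_le_exp.2
    have : (1 : ℝ) ≤ k := by exact_mod_cast hk1
    have := mul_le_mul_of_nonneg_left this hs0.le
    linarith
  have h6 := mul_le_mul_of_nonneg_right h5 h4
  have h7 := mul_le_mul_of_nonneg_right h2 h4
  linarith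

theorem HLE_zeros (κ θ : ℝ) (hκ : 0 < κ) (hκ1 : κ ≤ 1) (hθ : 1 / 2 < θ) (hθ1 : θ ≤ 1)
    (h : HLWeak κ θ) : NoSiegelK κ := by
  classical
  refine HL20T κ (θ - 1 / 2) hκ hκ1 (by linarith) (by linarith) ?_
  intro δ hδ hδ1
  obtain ⟨x₀, k₀, hx₀⟩ := h δ hδ hδ1
  refine ⟨max x₀ 0, k₀, fun x hx k hk1 hk0 hk => ?_⟩
  have h0 : 0 ≤ x := (le_max_right _ _).trans hx
  have h1 := hx₀ x ((le_max_left _ _).trans hx) k hk1 hk0 hk
  rw [HLE_card x δ k h0, HLE_adm x δ k h0] at h1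
  have e1 : 1 / 2 + (θ - 1 / 2) = θ := by ring
  rw [e1]
  unfold manyS
  exact h1

/-- The exact condition for a share `θ` of primes. -/
theorem HLE_result (κ θ : ℝ) (hκ : 0 < κ) (hκ1 : κ ≤ 1) (hθ1 : θ ≤ 1) (hθ : θ ≠ 1 / 2) :
    (HLStrong κ θ ↔ (θ < 1 / 2 ∨ NoSiegelK κ)) ∧ (HLWeak κ θ ↔ (θ < 1 / 2 ∨ NoSiegelK κ)) := by
  have h1 : (θ < 1 / 2 ∨ NoSiegelK κ) → HLStrong κ θ := by
    rintro (h | h)
    · exact HLE_half κ θ hκ1 h
    · exact HLE_all κ θ hκ hκ1 hθ1 h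
  have h2 : HLStrong κ θ → HLWeak κ θ := HLE_weak κ θ hθ
  have h3 : HLWeak κ θ → (θ < 1 / 2 ∨ NoSiegelK κ) := by
    intro h
    rcases lt_or_gt_of_ne hθ with h4 | h4
    · exact Or.inl h4
    · exact Or.inr (HLE_zeros κ θ hκ hκ1 h4 hθ1 h)
  exact ⟨⟨fun h => h3 (h2 h), h1⟩, ⟨h3, fun h => h2 (h1 h)⟩⟩

end Pool.Agent.Lib.H59P
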