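import Pool.Agent.Lib.H59P.M1A
import Pool.Agent.Lib.H59P.MDefs

/-!
# Project H59P, chunk M1
-/

open Finset

namespace Pool.Agent.Lib.H59P

open Pool.Agent.Lib.H68T Pool.Agent.Lib.H18Q

theorem m1_lcm (m n : ℕ) (hm : Squarefree m) (hn : Squarefree n) : Squarefree (lcm m n) := by
  have hm0 := hm.ne_zero
  have hn0 := hn.ne_zero
  have hne : lcm m n ≠ 0 := by
    rw [Ne, _root_.lcm_eq_zero_iff]
    tauto
  rw [Nat.squarefree_iff_factorization_le_one hne]
  intro p
  change (Nat.lcm m n).factorization p ≤ 1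
  rw [Nat.factorization_lcm hm0 hn0, Finsupp.sup_apply]
  exact sup_le (hm.natFactorization_le_one p) (hn.natFactorization_le_one p)

/-- **M1.** Proof. Group the left side by `d = lcm κ` (`Finset.sum_fiberwise_of_maps_to`): `κ_i` are squarefree,
coprime to `R` and nonzero, so `d` is squarefree and coprime to `R`, i.e. `d ∈ SF E R`; for given `d` the
`κ` are exactly the tuples of divisors of `d` with lcm `d` (divisors of `d ≤ E` are in `SF E R`).
`M1a`. -/
theorem M1 {k : ℕ} (a : ℕ → Fin k → ℂ) (E R : ℕ) :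
    ∑ κ ∈ (Fintype.piFinset fun _ : Fin k => SF E R).filter (fun κ => univ.lcm κ ≤ E),
      ∏ i, ∏ l ∈ (κ i).primeFactors, a l i =
    ∑ d ∈ SF E R, ∏ l ∈ d.primeFactors, (∏ i, (1 + a l i) - 1) := by
  have hSF : ∀ q, q ∈ SF E R ↔ (1 ≤ q ∧ q ≤ E) ∧ Squarefree q ∧ Nat.Coprime q R := by
    intro q
    rw [SF, Finset.mem_filter, Finset.mem_Icc]
  rw [← Finset.sum_fiberwise_of_maps_to
    (s := (Fintype.piFinset fun _ : Fin k => SF E R).filter (fun κ => univ.lcm κ ≤ E))
    (t := SF E R) (g := fun κ => univ.lcm κ)]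
  · refine Finset.sum_congr rfl fun d hd => ?_
    have hd' := (hSF d).1 hd
    rw [← M1a a d hd'.2.1]
    refine Finset.sum_congr ?_ fun _ _ => rfl
    ext κ
    simp only [Finset.mem_filter, Fintype.mem_piFinset, Nat.mem_divisors]
    constructor
    · rintro ⟨⟨h1, h2⟩, h3⟩
      refine ⟨fun i => ⟨?_, hd'.2.1.ne_zero⟩, h3⟩
      rw [← h3]
      exact Finset.dvd_lcm (Finset.mem_univ i)
    · rintro ⟨h1, h3⟩
      refine ⟨⟨fun i => ?_, ?_⟩, h3⟩
      · rw [hSF]
        have hdv := (h1 i).1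
        exact ⟨⟨Nat.pos_of_dvd_of_pos hdv hd'.1.1, (Nat.le_of_dvd hd'.1.1 hdv).trans hd'.1.2⟩,
          hd'.2.1.squarefree_of_dvd hdv, hd'.2.2.coprime_dvd_left hdv⟩
      · rw [h3]
        exact hd'.1.2
  · intro κ hκ
    rw [Finset.mem_filter, Fintype.mem_piFinset] at hκ
    obtain ⟨h1, h2⟩ := hκ
    rw [hSF]
    have hne : univ.lcm κ ≠ 0 := by
      rw [Ne, Finset.lcm_eq_zero_iff]
      rintro ⟨i, -, hi⟩
      have := ((hSF (κ i)).1 (h1 i)).1.1
      omega
    have hsq : ∀ s : Finset (Fin k), Squarefree (s.lcm κ) := by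
      intro s
      induction s using Finset.induction_on with
      | empty => rw [Finset.lcm_empty]; exact squarefree_one
      | insert i s his ih =>
        rw [Finset.lcm_insert]
        exact m1_lcm _ _ ((hSF _).1 (h1 i)).2.1 ih
    have hco : ∀ s : Finset (Fin k), Nat.Coprime (s.lcm κ) R := by
      intro s
      induction s using Finset.induction_on with
      | empty => rw [Finset.lcm_empty]; exact Nat.coprime_one_left R
      | insert i s his ih =>
        rw [Finset.lcm_insert]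
        refine Nat.Coprime.coprime_dvd_left (lcm_dvd (Dvd.intro _ rfl) (Dvd.intro_left _ rfl))
          (Nat.Coprime.mul_left ((hSF _).1 (h1 i)).2.2 ih)
    exact ⟨⟨Nat.pos_of_ne_zero hne, h2⟩, hsq _, hco _⟩

end Pool.Agent.Lib.H59P
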