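import Pool.Agent.Lib.H59P.M3F

/-!
# Project H59P, chunk M5
-/

open Finset

namespace Pool.Agent.Lib.H59P

open Pool.Agent.Lib.H68T Pool.Agent.Lib.H18Q

/-- full periods -/
theorem m5a_full (f : ℤ → ℂ) (N : ℕ) (hf : ∀ m, f (m + N) = f m) (j : ℕ) :
    ∑ n ∈ range (N * j), f n = j * ∑ n ∈ range N, f n := by
  have hper : ∀ (j : ℕ) (n : ℕ), f ((N * j + n : ℕ) : ℤ) = f n := by
    intro j n
    induction j with
    | zero => simp
    | succ j ih =>
      have e : ((N * (j + 1) + n : ℕ) : ℤ) = ((N * j + n : ℕ) : ℤ) + N := by push_cast; ring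
      rw [e, hf, ih]
  induction j with
  | zero => simp
  | succ j ih =>
    rw [mul_add, mul_one, sum_range_add, ih]
    have : ∑ x ∈ range N, f ((N * j + x : ℕ) : ℤ) = ∑ n ∈ range N, f n :=
      sum_congr rfl fun n _ => hper j n
    rw [this]
    push_cast
    ring

/-- the local factors at one prime -/
noncomputable def m5a_g {k : ℕ} (h : Fin k → ℕ) (l : ℕ) (n : ℤ) : ℂ :=
  ∏ i, (((1 + gl l (n + h i) : ℝ)) : ℂ)

theorem m5a_g_per {k : ℕ} (h : Fin k → ℕ) (l : ℕ) (n : ℤ) : m5a_g h l (n + l) = m5a_g h l n := by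
  unfold m5a_g
  refine prod_congr rfl fun i _ => ?_
  have e : n + (l : ℤ) + h i = (n + h i) + 1 * l := by ring
  rw [e, gl_per]

theorem m5a_g_per' {k : ℕ} (h : Fin k → ℕ) (l c : ℕ) (n : ℤ) :
    m5a_g h l (n + (l * c : ℕ)) = m5a_g h l n := by
  unfold m5a_g
  refine prod_congr rfl fun i _ => ?_
  have e : n + ((l * c : ℕ) : ℤ) + h i = (n + h i) + c * l := by push_cast; ring
  rw [e, gl_per]

theorem m5a_g_sum {k : ℕ} (h : Fin k → ℕ) (l : ℕ) (hl : 0 < l) :
    ∑ n ∈ range l, m5a_g h l n = l * (((1 + tp l h : ℝ)) : ℂ) := by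
  have hl0 : (l : ℂ) ≠ 0 := by exact_mod_cast hl.ne'
  unfold tp m5a_g
  push_cast
  field_simp
  ring

theorem m5a_ph {k : ℕ} (p : Fin k → Ch) (A S : Finset ℕ) (hd : Disjoint A S) (h : Fin k → ℕ) (n : ℤ) :
    Ph p (A ∪ S) h n = Ph p A h n * ∏ l ∈ S, m5a_g h l n := by
  unfold Ph m5a_g uu
  rw [prod_comm (s := S), ← prod_mul_distrib]
  refine prod_congr rfl fun i _ => ?_
  rw [prod_union hd]
  push_cast
  ring

theorem m5a_main {k : ℕ} (R : ℕ) (hR : 0 < R) (p : Fin k → Ch) (hd : ∀ i, (p i).1 ∣ R)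
    (h : Fin k → ℕ) (S : Finset ℕ) (hS : ∀ l ∈ S, l.Prime ∧ ¬ l ∣ R) :
    ∑ n ∈ range (R * ∏ l ∈ S, l), Ph p R.primeFactors h n * ∏ l ∈ S, m5a_g h l n =
      (∑ n ∈ range R, Ph p R.primeFactors h n) * ∏ l ∈ S, (l * (((1 + tp l h : ℝ)) : ℂ)) := by
  induction S using Finset.induction_on with
  | empty => simp
  | insert l S hl ih =>
    have ih := ih fun q hq => hS q (mem_insert_of_mem hq)
    obtain ⟨hlp, hlR⟩ := hS l (mem_insert_self _ _)
    have hSpos : 0 < ∏ q ∈ S, q := prod_pos fun q hq => (hS q (mem_insert_of_mem hq)).1.pos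
    have hco : Nat.Coprime (R * ∏ q ∈ S, q) l := by
      rw [Nat.coprime_comm, Nat.Prime.coprime_iff_not_dvd hlp]
      intro hdvd
      rcases (Nat.Prime.dvd_mul hlp).1 hdvd with h1 | h1
      · exact hlR h1
      · obtain ⟨q, hq, hlq⟩ := (Prime.dvd_finset_prod_iff hlp.prime _).1 h1
        have := (Nat.prime_dvd_prime_iff_eq hlp (hS q (mem_insert_of_mem hq)).1).1 hlq
        exact hl (this ▸ hq)
    have e1 : R * ∏ q ∈ insert l S, q = (R * ∏ q ∈ S, q) * l := by
      rw [prod_insert hl]; ring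
    have h3 := M3d (fun n => Ph p R.primeFactors h n * ∏ q ∈ S, m5a_g h q n) (m5a_g h l)
      (R * ∏ q ∈ S, q) l (Nat.mul_pos hR hSpos) hlp.pos hco (by
        intro m
        have a1 : Ph p R.primeFactors h (m + (R * ∏ q ∈ S, q : ℕ)) = Ph p R.primeFactors h m := by
          have hper : ∀ (j : ℕ) (m : ℤ), Ph p R.primeFactors h (m + (R * j : ℕ)) =
              Ph p R.primeFactors h m := by
            intro j
            induction j with
            | zero => intro m; simp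
            | succ j ihj =>
              intro m
              have e : m + ((R * (j + 1) : ℕ) : ℤ) = (m + ((R * j : ℕ) : ℤ)) + R := by
                push_cast; ring
              rw [e, M3f_per p R hd h, ihj m]
          exact hper _ m
        have a2 : ∀ q ∈ S, m5a_g h q (m + (R * ∏ q ∈ S, q : ℕ)) = m5a_g h q m := by
          intro q hq
          have : R * ∏ q ∈ S, q = q * (R * ∏ t ∈ S.erase q, t) := by
            rw [← mul_prod_erase S (fun t => t) hq]; ring
          rw [this]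
          exact m5a_g_per' h q _ m
        rw [a1, prod_congr rfl a2]) (m5a_g_per h l)
    rw [e1, prod_insert hl]
    have e2 : ∑ n ∈ range (R * (∏ q ∈ S, q) * l),
        Ph p R.primeFactors h n * ∏ q ∈ insert l S, m5a_g h q n =
        ∑ n ∈ range (R * (∏ q ∈ S, q) * l),
          (Ph p R.primeFactors h n * ∏ q ∈ S, m5a_g h q n) * m5a_g h l n := by
      refine sum_congr rfl fun n _ => ?_
      rw [prod_insert hl]
      ring
    rw [e2, h3, ih, m5a_g_sum h l hlp.pos]
    ring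

/-- **M5.** The mean modulo `R` times the local factors at the other primes is the mean over `Q!`.

Proof. `Ph p (pr Q) h n = Ph p R.primeFactors h n * ∏_{l ∈ pr Q, l ∤ R} ∏_i (1 + gl l (n+h_i))` (the prime
factors of `R` are at most `Q`, since `R ∣ Q!`). By `M3d` and induction over the primes `l` the sum over a
period `N = R ∏_{l ≤ Q, l ∤ R} l` is `R MR p R h ∏ l (1 + tp l h)`; `N` divides `Q!` (`R ∣ Q!`, each `l ∣ Q!`,
pairwise coprime), so the mean over `Q!` is the mean over `N` (full periods). -/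
theorem M5 {k : ℕ} (Q R : ℕ) (hR : 0 < R) (hRQ : R ∣ Q.factorial) (p : Fin k → Ch)
    (hd : ∀ i, (p i).1 ∣ R) (h : Fin k → ℕ) :
    MR p R h * ((SS ((pr Q).filter (fun l => ¬ l ∣ R)) h : ℝ) : ℂ) = MQ Q p h := by
  obtain ⟨S, hSdef⟩ : ∃ S, S = (pr Q).filter (fun l => ¬ l ∣ R) := ⟨_, rfl⟩
  rw [← hSdef]
  have hS : ∀ l ∈ S, (l ≤ Q ∧ l.Prime) ∧ ¬ l ∣ R := by
    intro l hl
    rw [hSdef, mem_filter, pr, mem_filter, mem_Icc] at hl
    exact ⟨⟨hl.1.1.2, hl.1.2⟩, hl.2⟩
  have hSpos : 0 < ∏ q ∈ S, q := prod_pos fun q hq => (hS q hq).1.2.pos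
  have hdisj : Disjoint R.primeFactors S := by
    rw [disjoint_left]
    intro l h1 h2
    exact (hS l h2).2 (Nat.dvd_of_mem_primeFactors h1)
  have hunion : R.primeFactors ∪ S = pr Q := by
    ext l
    rw [mem_union, hSdef, mem_filter, Nat.mem_primeFactors]
    constructor
    · rintro (⟨h1, h2, -⟩ | h1)
      · rw [pr, mem_filter, mem_Icc]
        exact ⟨⟨h1.one_le, (Nat.Prime.dvd_factorial h1).1 (h2.trans hRQ)⟩, h1⟩
      · exact h1.1
    · intro h1
      by_cases h2 : l ∣ R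
      · left
        rw [pr, mem_filter] at h1
        exact ⟨h1.2, h2, hR.ne'⟩
      · exact Or.inr ⟨h1, h2⟩
  have hper0 : ∀ (j : ℕ) (m : ℤ), Ph p R.primeFactors h (m + (R * j : ℕ)) =
      Ph p R.primeFactors h m := by
    intro j
    induction j with
    | zero => intro m; simp
    | succ j ihj =>
      intro m
      have e : m + ((R * (j + 1) : ℕ) : ℤ) = (m + ((R * j : ℕ) : ℤ)) + R := by
        push_cast; ring
      rw [e, M3f_per p R hd h, ihj m]
  have hper : ∀ m : ℤ, Ph p (pr Q) h (m + (R * ∏ q ∈ S, q : ℕ)) = Ph p (pr Q) h m := by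
    intro m
    rw [← hunion, m5a_ph p _ _ hdisj, m5a_ph p _ _ hdisj, hper0]
    congr 1
    refine prod_congr rfl fun q hq => ?_
    have : R * ∏ q ∈ S, q = q * (R * ∏ t ∈ S.erase q, t) := by
      rw [← mul_prod_erase S (fun t => t) hq]; ring
    rw [this]
    exact m5a_g_per' h q _ m
  have hcop : Nat.Coprime R (∏ q ∈ S, q) := by
    apply Nat.Coprime.prod_right
    intro q hq
    rw [Nat.coprime_comm, Nat.Prime.coprime_iff_not_dvd (hS q hq).1.2]
    exact (hS q hq).2
  have hdvdN : R * ∏ q ∈ S, q ∣ Q.factorial := by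
    apply hcop.mul_dvd_of_dvd_of_dvd hRQ
    apply Finset.prod_primes_dvd
    · intro q hq
      exact (hS q hq).1.2.prime
    · intro q hq
      exact (Nat.Prime.dvd_factorial (hS q hq).1.2).2 (hS q hq).1.1
  obtain ⟨j, hj⟩ := hdvdN
  have hfac : 0 < Q.factorial := Nat.factorial_pos Q
  have hj0 : 0 < j := by
    rcases Nat.eq_zero_or_pos j with rfl | h1
    · rw [mul_zero] at hj
      omega
    · exact h1
  have hsum : ∑ n ∈ range (R * ∏ l ∈ S, l), Ph p (pr Q) h n =
      (∑ n ∈ range R, Ph p R.primeFactors h n) * ∏ l ∈ S, (l * (((1 + tp l h : ℝ)) : ℂ)) := by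
    rw [← m5a_main R hR p hd h S fun l hl => ⟨(hS l hl).1.2, (hS l hl).2⟩]
    refine sum_congr rfl fun n _ => ?_
    rw [← hunion, m5a_ph p _ _ hdisj]
  unfold MQ MR SS
  rw [hj, m5a_full _ _ hper j, hsum, prod_mul_distrib]
  have r0 : (R : ℂ) ≠ 0 := by exact_mod_cast hR.ne'
  have j0 : (j : ℂ) ≠ 0 := by exact_mod_cast hj0.ne'
  have s0 : (∏ l ∈ S, (l : ℂ)) ≠ 0 := by
    rw [← Nat.cast_prod]
    exact_mod_cast hSpos.ne'
  push_cast
  field_simp

end Pool.Agent.Lib.H59P
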