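import Pool.Agent.Lib.H59P.TB2

/-!
# Project H59P: the barrier for a small proportion of the sets and large `k`
-/

open Finset

namespace Pool.Agent.Lib.H59P

open Pool.Agent.Lib.H68T

/-- At least the proportion `exp (-k/16)` of the admissible `k`-sets has a prime translate, for all
large `x`, for all `k₀ ≤ k ≤ (log x)^(κ-δ)`. -/
def SomeHaveT (κ : ℝ) : Prop :=
  open Classical in
  ∀ δ : ℝ, 0 < δ → δ < κ → ∃ (k₀ : ℕ) (x₀ : ℝ), ∀ x : ℝ, x₀ ≤ x → ∀ k : ℕ, 1 ≤ k → k₀ ≤ k →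
    (k : ℝ) ≤ (Real.log x) ^ (κ - δ) →
    Real.exp (-(k / 16 : ℝ)) * ((((range (⌊x ^ (1 - δ)⌋₊ + 1)).powersetCard k).filter
      (fun A => Admissible A)).card : ℝ) ≤
      ((((range (⌊x ^ (1 - δ)⌋₊ + 1)).powersetCard k).filter (fun A => Admissible A ∧
        HasPrimeTranslate x A)).card : ℝ)

/-- The barrier for large `k`. The proof is that of `barrierS` (helper24). -/
theorem barrierT (κ : ℝ) (hκ : 0 < κ) (hκ1 : κ ≤ 1) : SomeHaveT κ → NoSiegelK κ := by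
  classical
  intro hM ε₀ hε₀
  set ε := min ε₀ 1 with hεdef
  have hε : 0 < ε := lt_min hε₀ one_pos
  have hε1 : ε ≤ 1 := min_le_right _ _
  have hqκ : 1 / κ * κ = 1 := by field_simp
  have hq1 : 1 ≤ 1 / κ := by
    rw [le_div_iff₀ hκ]; linarith
  set γ := 1 / κ - 1 + ε with hγdef
  have hγ : 0 < γ := by rw [hγdef]; linarith
  have hκκ : κ ^ 2 ≤ κ := by nlinarith
  have hδ0 : 0 < ε * κ ^ 2 / 3 := by positivity
  have hδκ : ε * κ ^ 2 ≤ κ := by nlinarith [sq_nonneg κ]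
  have hρ : 0 < ε * κ / 3 := by positivity
  have he : 1 + ε * κ / 3 ≤ (1 + γ) * (κ - ε * κ ^ 2 / 3) := by
    have h1 : (1 + γ) * (κ - ε * κ ^ 2 / 3) = 1 + ε * κ - ε * κ / 3 - ε * (ε * κ ^ 2) / 3 := by
      rw [hγdef]
      linear_combination (1 - ε * κ / 3) * hqκ
    have h2 : ε * (ε * κ ^ 2) ≤ ε * κ := mul_le_mul_of_nonneg_left hδκ hε.le
    rw [h1]
    linarith
  obtain ⟨k₀, x₀, hx₀⟩ := hM (ε * κ ^ 2 / 3) hδ0 (by linarith)
  obtain ⟨C, hC, hL⟩ := L1_upper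
  obtain ⟨u₀, hu₀⟩ := Filter.eventually_atTop.1 ((tb2_ev γ (ε * κ / 3) C (Real.log (max x₀ 1)) hγ hρ).and
    (Filter.eventually_ge_atTop (k₀ : ℝ)))
  refine ⟨max 100 ⌈Real.exp u₀⌉₊, ?_⟩
  intro r hr _ ψ hprim hψ hψ2 σ hσ hσ1 hzero
  have hr100 : 100 ≤ r := (le_max_left _ _).trans hr
  have hr100' : (100 : ℝ) ≤ r := by exact_mod_cast hr100
  have hrpos : (0 : ℝ) < r := by linarith
  have hu : u₀ ≤ Real.log r := by
    rw [Real.le_log_iff_exp_le hrpos]
    have h1 : ⌈Real.exp u₀⌉₊ ≤ r := (le_max_right _ _).trans hr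
    exact (Nat.le_ceil _).trans (by exact_mod_cast h1)
  set u := Real.log r with hudef
  obtain ⟨hB, huk⟩ := hu₀ u hu
  have hu13 := hB.u13
  have hupos : 0 < u := by linarith
  have hexpu : Real.exp u = r := by rw [hudef, Real.exp_log hrpos]
  -- the zero
  have hσne : σ ≠ 1 := by
    rintro rfl
    exact DirichletCharacter.LFunction_apply_one_ne_zero hψ (by exact_mod_cast hzero)
  have hσ2 : 1 - Real.exp (-(u ^ γ)) ≤ σ := by
    refine le_trans ?_ hσ
    have h1 : u ^ γ ≤ u ^ (1 / κ - 1 + ε₀) :=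
      Real.rpow_le_rpow_of_exponent_le (by linarith) (by rw [hγdef]; linarith [min_le_left ε₀ 1])
    have h2 : Real.exp (-(u ^ (1 / κ - 1 + ε₀))) ≤ Real.exp (-(u ^ γ)) :=
      Real.exp_le_exp.2 (by linarith)
    linarith
  have hσ3 : 1 - 1 / u ≤ σ := by
    refine le_trans ?_ hσ2
    have h1 : Real.exp (-(u ^ γ)) ≤ 1 / u := by
      rw [Real.exp_neg, one_div]
      apply inv_anti₀ hupos
      have h2 := hB.b0
      rwa [Real.log_le_iff_le_exp hupos] at h2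
    linarith
  have hL1 := hL r ψ hr100 hψ σ hσ3 hσ1 hzero
  have hL2 : ‖ψ.LFunction 1‖ ≤ C * Real.exp (-(u ^ γ)) * u ^ 2 := by
    refine hL1.trans ?_
    have h1 : 1 - σ ≤ Real.exp (-(u ^ γ)) := by linarith
    have h2 : C * (1 - σ) ≤ C * Real.exp (-(u ^ γ)) := mul_le_mul_of_nonneg_left h1 hC.le
    exact mul_le_mul_of_nonneg_right h2 (by positivity)
  -- the parameters
  set k := ⌈8 * u⌉₊ + 40 with hk
  set x := Real.exp (k * u ^ γ / 64) with hx
  set H := ⌊x ^ (1 - ε * κ ^ 2 / 3)⌋₊ with hH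
  set ν := Real.exp (-(u ^ γ / 2)) with hν
  have hueps : 0 < u ^ γ := Real.rpow_pos_of_pos hupos γ
  obtain ⟨n1, n2, n3, n4, n5, n6⟩ := tb2_num γ (ε * κ / 3) C (Real.log (max x₀ 1)) u hC hB k H hk x ν
    (ε * κ ^ 2 / 3) (κ - ε * κ ^ 2 / 3) ‖ψ.LFunction 1‖ r hδ0 (by nlinarith) (by linarith) (by linarith) he
    hx hH hν hL2 hexpu.symm
  have hxpos : 0 < x := Real.exp_pos _
  have hx0 : x₀ ≤ x := by
    have h1 : max x₀ 1 ≤ x := by
      rwa [Real.log_le_log_iff (by positivity) hxpos] at n1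
    exact (le_max_left _ _).trans h1
  have hν0 : 0 < ν := Real.exp_pos _
  have hν1 : ν ≤ 1 := by
    rw [hν, Real.exp_le_one_iff]
    linarith
  have hcount := TB_count r ψ hψ hψ2 k H x ν (by omega) hxpos.le n3 hν0 hν1 ?_ n5 n6
  · have hk0 : k₀ ≤ k := by
      have h1 : u ≤ (⌈8 * u⌉₊ : ℝ) := by linarith [Nat.le_ceil (8 * u)]
      have h2 : (k₀ : ℝ) ≤ (⌈8 * u⌉₊ : ℝ) := huk.trans h1
      have h3 : k₀ ≤ ⌈8 * u⌉₊ := by exact_mod_cast h2
      omega
    have h1 := hx₀ x hx0 k (by omega) hk0 n2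
    exact absurd hcount (not_lt.2 h1)
  · intro n hn1 hnx
    have h1 := plus_primes r ψ hψ hψ2 n H hn1
    have h2 : ((XRB_P r ψ H n).card : ℝ) ≤
        (((Icc n (n + H)).filter (fun p : ℕ => p.Prime ∧ ψ (p : ZMod r) = 1)).card : ℝ) := by
      have : (XRB_P r ψ H n).card ≤
          ((Icc n (n + H)).filter (fun p : ℕ => p.Prime ∧ ψ (p : ZMod r) = 1)).card := by
        refine card_le_card_of_injOn (fun a => n + a) ?_ ?_
        · intro a ha
          obtain ⟨h3, h4, h5⟩ := mem_filter.1 (mem_coe.1 ha)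
          rw [mem_range] at h3
          have h6 : n + a ≤ n + H := by omega
          exact mem_coe.2 (mem_filter.2 ⟨mem_Icc.2 ⟨Nat.le_add_right _ _, h6⟩, h4, h5⟩)
        · intro a _ b _ hab
          simpa using hab
      exact_mod_cast this
    refine h2.trans (h1.trans (le_trans ?_ n4))
    have h3 : Real.sqrt ((n + H : ℕ) : ℝ) ≤ Real.sqrt (x + H) := by
      apply Real.sqrt_le_sqrt
      push_cast
      linarith
    have h4 : 8 * (r : ℝ) * Real.sqrt ((n + H : ℕ) : ℝ) ≤ 8 * r * Real.sqrt (x + H) :=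
      mul_le_mul_of_nonneg_left h3 (by positivity)
    linarith

end Pool.Agent.Lib.H59P
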