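import Pool.Agent.Lib.H59P.SDefs

/-!
# Project H59P, chunk S0a
-/

open Finset

namespace Pool.Agent.Lib.H59P

open Pool.Agent.Lib.H68T Pool.Agent.Lib.H18Q

/-- **S0a.** Second moment over the box of a sum of products.

Proof. Square out, `Finset.sum_comm`; `∏_i f_i(n+h_i) f_i(n'+h_i)`, `Finset.prod_univ_sum` (the sum over
`piFinset` of a product is the product of the sums). -/
theorem S0a {k : ℕ} (X : ℕ) (I : Finset ℕ) (f : Fin k → ℤ → ℝ) :
    ∑ h ∈ bx k X, (∑ n ∈ I, ∏ i, f i ((n : ℤ) + h i)) ^ 2 =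
      ∑ n ∈ I, ∑ n' ∈ I, ∏ i, ∑ s ∈ range X, f i ((n : ℤ) + s) * f i ((n' : ℤ) + s) := by
  have h1 : ∀ h : Fin k → ℕ, (∑ n ∈ I, ∏ i, f i ((n : ℤ) + h i)) ^ 2 =
      ∑ n ∈ I, ∑ n' ∈ I, ∏ i, (f i ((n : ℤ) + h i) * f i ((n' : ℤ) + h i)) := by
    intro h
    rw [sq, Finset.sum_mul_sum]
    refine Finset.sum_congr rfl fun n _ => Finset.sum_congr rfl fun n' _ => ?_
    rw [Finset.prod_mul_distrib]
  rw [Finset.sum_congr rfl fun h _ => h1 h, Finset.sum_comm]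
  refine Finset.sum_congr rfl fun n _ => ?_
  rw [Finset.sum_comm]
  refine Finset.sum_congr rfl fun n' _ => ?_
  rw [Finset.prod_univ_sum]
  rfl

end Pool.Agent.Lib.H59P
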