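import Pool.Agent.Lib.H59P.S0A
import Pool.Agent.Lib.H59P.SDefs

/-!
# Project H59P, chunk S0b
-/

open Finset

namespace Pool.Agent.Lib.H59P

open Pool.Agent.Lib.H68T Pool.Agent.Lib.H18Q

theorem s0b_aux (X : ℕ) (a b : ℕ → ℝ) (W : ℝ) (ha : ∑ s ∈ range X, a s ^ 2 ≤ W)
    (hb : ∑ s ∈ range X, b s ^ 2 ≤ W) : |∑ s ∈ range X, a s * b s| ≤ W := by
  have h0 : 0 ≤ W := le_trans (Finset.sum_nonneg fun s _ => sq_nonneg (a s)) ha
  have h1 := Finset.sum_mul_sq_le_sq_mul_sq (range X) a b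
  refine abs_le_of_sq_le_sq ?_ h0
  calc (∑ s ∈ range X, a s * b s) ^ 2 ≤ (∑ s ∈ range X, a s ^ 2) * ∑ s ∈ range X, b s ^ 2 := h1
    _ ≤ W * W := mul_le_mul ha hb (Finset.sum_nonneg fun s _ => sq_nonneg (b s)) h0
    _ = W ^ 2 := (sq W).symm

/-- **S0b.** Crude bound: if all mean squares `∑_{s<X} f_i(n+s)²`, `n ∈ I`, are at most `W i`.

Proof. `S0a`, Cauchy-Schwarz for each factor (`Finset.sum_mul_sq_le_sq_mul_sq` or
`Finset.inner_mul_le_norm_mul_norm`): `|∑_s f_i(n+s) f_i(n'+s)| ≤ W i`. -/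
theorem S0b {k : ℕ} (X : ℕ) (I : Finset ℕ) (f : Fin k → ℤ → ℝ) (W : Fin k → ℝ)
    (hW : ∀ i, ∀ n ∈ I, ∑ s ∈ range X, f i ((n : ℤ) + s) ^ 2 ≤ W i) :
    ∑ h ∈ bx k X, (∑ n ∈ I, ∏ i, f i ((n : ℤ) + h i)) ^ 2 ≤ (I.card : ℝ) ^ 2 * ∏ i, W i := by
  rw [S0a]
  calc ∑ n ∈ I, ∑ n' ∈ I, ∏ i, ∑ s ∈ range X, f i ((n : ℤ) + s) * f i ((n' : ℤ) + s)
      ≤ ∑ n ∈ I, ∑ n' ∈ I, ∏ i, W i := by
        refine Finset.sum_le_sum fun n hn => Finset.sum_le_sum fun n' hn' => ?_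
        refine (le_abs_self _).trans ?_
        rw [Finset.abs_prod]
        exact Finset.prod_le_prod (fun i _ => abs_nonneg _) fun i _ =>
          s0b_aux X (fun s => f i ((n : ℤ) + s)) (fun s => f i ((n' : ℤ) + s)) (W i)
            (hW i n hn) (hW i n' hn')
    _ = (I.card : ℝ) ^ 2 * ∏ i, W i := by
        rw [Finset.sum_const, Finset.sum_const, nsmul_eq_mul, nsmul_eq_mul]
        ring

end Pool.Agent.Lib.H59P
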