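import Pool.Agent.Lib.H59P.SDefs
import Pool.Agent.Lib.H18Q.QP

/-!
# Project H59P, chunk S1a
-/

open Finset

namespace Pool.Agent.Lib.H59P

open Pool.Agent.Lib.H68T Pool.Agent.Lib.H18Q

/-- `∑_{c < X} dQ(n + c)² ≤ 5 X (1 + log Q)^3` for `Q² ≤ X`, any `n`. Proof. `dQ_moment` (used in the proof
of `QP_Lk`, `H18Q/QP.lean`): `dQ Q m = ∑_{d ≤ Q} 1[d ∣ m]`, `dQ² = ∑_{d,d'} 1[lcm ∣ m]`,
`∑ 1/lcm(d,d') ≤ (1+log Q)^3`. (A constant other than `5`: use it below; the statement has `8`.) -/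
theorem S1a (Q X : ℕ) (hQ : 1 ≤ Q) (hQX : Q ^ 2 ≤ X) (n : ℕ) :
    ∑ c ∈ range X, dQ Q ((n : ℤ) + c) ^ 2 ≤ 8 * X * (1 + Real.log Q) ^ 3 := by
  have h1 := dQ_moment Q X 1 0 n one_pos (Nat.coprime_one_right 0)
  have h2 : ∑ c ∈ range X, dQ Q ((n : ℤ) + c) ^ 2 =
      ∑ c ∈ range X, (dQ Q (((0 : ℕ) : ℤ) + (1 : ℕ) * ((n + c : ℕ) : ℤ))) ^ 2 := by
    refine Finset.sum_congr rfl fun c _ => ?_
    congr 2
    push_cast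
    ring
  rw [h2]
  refine h1.trans ?_
  have hlog : 0 ≤ Real.log Q := Real.log_natCast_nonneg Q
  have h3 : (1 : ℝ) ≤ (1 + Real.log Q) ^ 3 := one_le_pow₀ (by linarith)
  have h4 : (Q : ℝ) ^ 2 ≤ X := by exact_mod_cast hQX
  have h5 : (0 : ℝ) ≤ X := Nat.cast_nonneg X
  have h6 : (X : ℝ) * 1 ≤ X * (1 + Real.log Q) ^ 3 := mul_le_mul_of_nonneg_left h3 h5
  nlinarith

end Pool.Agent.Lib.H59P
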