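import Pool.Agent.Lib.H59P.TDefs

/-!
# Chunk T0 (M): the local factor

* `T0_tp`. For a prime `l` and an integer `n`: `1 + gl l (n + h i)` is `l/(l-1)` if `l` does not divide
  `n + h i` and `0` else. So `∏_i (1 + gl l (n + h i)) = (l/(l-1))^k` if `l ∤ n + h i` for all `i`, and `0`
  if `l ∣ n + h i` for some `i` (the divisibility of integers `(l : ℤ) ∣ (n : ℤ) + h i` is the one of
  natural numbers: `exact_mod_cast`). The sum over `n < l` is `(l - nu l h) (l/(l-1))^k`. (`k = 0`: both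
  sides are `1`; `nu = 0`.)
* `T0_nu_le_k`. The classes `n < l` with `∃ i, l ∣ n + h i` inject into `Fin k` (choose `i`; two `n, n' < l`
  with the same `i` satisfy `l ∣ n - n'`, so they are equal). E.g. the set is contained in the image of
  `univ : Finset (Fin k)` under `i ↦ (l - h i % l) % l`.
* `T0_nu_lt`. `Adm h` gives `n` with `l ∤ n + h i` for all `i`; then `n % l < l` is not in the filtered set
  (`(n % l + h i) % l = (n + h i) % l`), so the filtered set is a proper subset of `range l`.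
* `T0_k_le`. Let `r i = (l - h i % l) % l`, so `nu l h = (univ.image r).card` (the filtered set is exactly the
  image). Call `i` old if there is `j < i` with `r j = r i`. The other `i` (first occurrences) inject into
  the image: at most `nu` of them. The old ones inject into the set of pairs counted by `col` (map `i` to
  `(i, j)` with such a `j`; `r j = r i` iff `h j ≡ h i` mod `l` iff `(l : ℤ) ∣ (h i : ℤ) - h j`).
* `T0_nonneg`: each product is nonnegative. `T0_le`: `1 - nu / l ≤ 1`, in `T0_tp`.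
-/

open Finset

namespace Pool.Agent.Lib.H59P

theorem t0_gl (l : ℕ) (hl : l.Prime) (m : ℕ) :
    1 + gl l (m : ℤ) = if l ∣ m then 0 else (l : ℝ) / ((l : ℝ) - 1) := by
  have h1 : (1 : ℝ) < l := by exact_mod_cast hl.one_lt
  have h2 : (l : ℝ) - 1 ≠ 0 := by linarith
  rw [gl]
  by_cases h : l ∣ m
  · rw [if_pos h, if_pos (Int.natCast_dvd_natCast.2 h)]
    norm_num
  · rw [if_neg h, if_neg fun h' => h (Int.natCast_dvd_natCast.1 h')]
    field_simp
    ring

theorem t0_prod {k : ℕ} (l : ℕ) (hl : l.Prime) (h : Fin k → ℕ) (n : ℕ) :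
    ∏ i, (1 + gl l ((n : ℤ) + h i)) =
      if ∃ i, l ∣ n + h i then 0 else ((l : ℝ) / ((l : ℝ) - 1)) ^ k := by
  have h1 : ∀ i, 1 + gl l ((n : ℤ) + h i) = if l ∣ n + h i then 0 else (l : ℝ) / ((l : ℝ) - 1) := by
    intro i
    rw [← t0_gl l hl (n + h i)]
    push_cast
    rfl
  rw [Finset.prod_congr rfl fun i _ => h1 i]
  split_ifs with hex
  · obtain ⟨i, hi⟩ := hex
    exact Finset.prod_eq_zero (Finset.mem_univ i) (if_pos hi)
  · have h2 : ∀ i ∈ (univ : Finset (Fin k)), (if l ∣ n + h i then 0 else (l : ℝ) / ((l : ℝ) - 1)) =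
        (l : ℝ) / ((l : ℝ) - 1) := fun i _ => if_neg fun hd => hex ⟨i, hd⟩
    rw [Finset.prod_congr rfl h2, Finset.prod_const, Finset.card_univ, Fintype.card_fin]

/-- The class modulo `l` of `- a`. -/
def t0_r (l a : ℕ) : ℕ := (l - a % l) % l

theorem t0_r_dvd {l : ℕ} (hl : 0 < l) (a : ℕ) : t0_r l a < l ∧ l ∣ t0_r l a + a := by
  refine ⟨Nat.mod_lt _ hl, ?_⟩
  have h1 : t0_r l a + a ≡ (l - a % l) + a % l [MOD l] :=
    (Nat.mod_modEq _ _).add (Nat.mod_modEq a l).symm
  have h2 : (l - a % l) + a % l = l := Nat.sub_add_cancel (Nat.mod_lt a hl).le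
  rw [h2] at h1
  exact (Nat.modEq_zero_iff_dvd.1 (h1.trans (Nat.modEq_zero_iff_dvd.2 dvd_rfl)))

theorem t0_eq {l n n' a : ℕ} (hn : n < l) (hn' : n' < l) (h : l ∣ n + a) (h' : l ∣ n' + a) :
    n = n' := by
  have h1 : n + a ≡ n' + a [MOD l] :=
    (Nat.modEq_zero_iff_dvd.2 h).trans (Nat.modEq_zero_iff_dvd.2 h').symm
  have h2 := Nat.ModEq.add_right_cancel' a h1
  exact Nat.ModEq.eq_of_lt_of_lt h2 hn hn'

theorem t0_image {k : ℕ} (l : ℕ) (hl : 0 < l) (h : Fin k → ℕ) :
    (range l).filter (fun n => ∃ i, l ∣ n + h i) = univ.image fun i => t0_r l (h i) := by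
  ext n
  rw [mem_filter, mem_range, mem_image]
  constructor
  · rintro ⟨h1, i, hi⟩
    exact ⟨i, mem_univ _, t0_eq (t0_r_dvd hl (h i)).1 h1 (t0_r_dvd hl (h i)).2 hi⟩
  · rintro ⟨i, -, rfl⟩
    exact ⟨(t0_r_dvd hl (h i)).1, i, (t0_r_dvd hl (h i)).2⟩

theorem T0_tp {k : ℕ} (l : ℕ) (hl : l.Prime) (h : Fin k → ℕ) :
    1 + tp l h = (1 - (nu l h : ℝ) / l) * ((l : ℝ) / ((l : ℝ) - 1)) ^ k := by
  have hl0 : (l : ℝ) ≠ 0 := by exact_mod_cast hl.ne_zero
  rw [tp, Finset.sum_congr rfl fun n _ => t0_prod l hl h n, Finset.sum_ite, Finset.sum_const_zero,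
    zero_add, Finset.sum_const, nsmul_eq_mul, nu]
  have h1 := Finset.card_filter_add_card_filter_not (s := range l) (fun n => ∃ i, l ∣ n + h i)
  rw [card_range] at h1
  have h2 : ((((range l).filter (fun n => ∃ i, l ∣ n + h i)).card : ℕ) : ℝ) +
      ((((range l).filter (fun n => ¬ ∃ i, l ∣ n + h i)).card : ℕ) : ℝ) = l := by
    exact_mod_cast h1
  rw [← eq_sub_iff_add_eq'] at h2
  rw [h2]
  field_simp
  ring

theorem T0_nu_le_k {k : ℕ} (l : ℕ) (hl : l.Prime) (h : Fin k → ℕ) : nu l h ≤ k := by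
  rw [nu, t0_image l hl.pos]
  refine Finset.card_image_le.trans ?_
  rw [Finset.card_univ, Fintype.card_fin]

theorem T0_nu_lt {k : ℕ} (l : ℕ) (hl : l.Prime) (h : Fin k → ℕ) (hA : Adm h) : nu l h < l := by
  obtain ⟨n, hn⟩ := hA l hl
  rw [nu]
  have h1 : ((range l).filter (fun n => ∃ i, l ∣ n + h i)).card < (range l).card := by
    refine Finset.card_lt_card (Finset.filter_ssubset.2 ⟨n % l, mem_range.2 (Nat.mod_lt _ hl.pos), ?_⟩)
    rintro ⟨i, hi⟩
    refine hn i ?_
    have h2 : n % l + h i ≡ n + h i [MOD l] := (Nat.mod_modEq _ _).add_right _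
    exact (Nat.ModEq.dvd_iff h2 dvd_rfl).1 hi
  rwa [card_range] at h1

theorem T0_k_le {k : ℕ} (l : ℕ) (hl : l.Prime) (h : Fin k → ℕ) : k ≤ nu l h + col l h := by
  classical
  have h1 := Finset.card_filter_add_card_filter_not (s := (univ : Finset (Fin k)))
    (fun i => ∃ j, j < i ∧ t0_r l (h j) = t0_r l (h i))
  rw [Finset.card_univ, Fintype.card_fin] at h1
  have h2 : ((univ : Finset (Fin k)).filter
      (fun i => ¬ ∃ j, j < i ∧ t0_r l (h j) = t0_r l (h i))).card ≤ nu l h := by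
    rw [nu, t0_image l hl.pos]
    refine Finset.card_le_card_of_injOn (fun i => t0_r l (h i)) ?_ ?_
    · intro i _
      exact mem_image_of_mem _ (mem_univ i)
    · intro i hi j hj hij
      have hi' := (mem_filter.1 hi).2
      have hj' := (mem_filter.1 hj).2
      rcases lt_trichotomy i j with hlt | heq | hlt
      · exact absurd ⟨i, hlt, hij⟩ hj'
      · exact heq
      · exact absurd ⟨j, hlt, hij.symm⟩ hi'
  have h3 : ((univ : Finset (Fin k)).filter
      (fun i => ∃ j, j < i ∧ t0_r l (h j) = t0_r l (h i))).card ≤ col l h := by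
    rw [col]
    refine le_trans (Finset.card_le_card ?_) (Finset.card_image_le (f := Prod.fst))
    intro i hi
    obtain ⟨j, hj, hij⟩ := (mem_filter.1 hi).2
    refine mem_image.2 ⟨(i, j), mem_filter.2 ⟨mem_filter.2 ⟨mem_univ _, hj⟩, ?_⟩, rfl⟩
    have h4 := (t0_r_dvd hl.pos (h i)).2
    have h5 := (t0_r_dvd hl.pos (h j)).2
    rw [hij] at h5
    have h6 : (l : ℤ) ∣ ((t0_r l (h i) + h i : ℕ) : ℤ) := Int.natCast_dvd_natCast.2 h4
    have h7 : (l : ℤ) ∣ ((t0_r l (h i) + h j : ℕ) : ℤ) := Int.natCast_dvd_natCast.2 h5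
    have h8 := dvd_sub h6 h7
    push_cast at h8
    rwa [add_sub_add_left_eq_sub] at h8
  omega

theorem T0_nonneg {k : ℕ} (l : ℕ) (hl : l.Prime) (h : Fin k → ℕ) : 0 ≤ 1 + tp l h := by
  have hl1 : (1 : ℝ) < l := by exact_mod_cast hl.one_lt
  rw [T0_tp l hl]
  have h1 : nu l h ≤ l := by
    rw [nu]
    exact (Finset.card_filter_le _ _).trans (card_range l).le
  have h2 : (nu l h : ℝ) ≤ l := by exact_mod_cast h1
  have h3 : (nu l h : ℝ) / l ≤ 1 := (div_le_one (by linarith)).2 h2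
  have h4 : 0 ≤ (l : ℝ) / ((l : ℝ) - 1) := div_nonneg (by linarith) (by linarith)
  exact mul_nonneg (by linarith) (pow_nonneg h4 k)

theorem T0_le {k : ℕ} (l : ℕ) (hl : l.Prime) (h : Fin k → ℕ) :
    1 + tp l h ≤ ((l : ℝ) / ((l : ℝ) - 1)) ^ k := by
  have hl1 : (1 : ℝ) < l := by exact_mod_cast hl.one_lt
  rw [T0_tp l hl]
  have h4 : 0 ≤ (l : ℝ) / ((l : ℝ) - 1) := div_nonneg (by linarith) (by linarith)
  have h5 : 0 ≤ (nu l h : ℝ) / l := by positivity
  exact mul_le_of_le_one_left (pow_nonneg h4 k) (by linarith)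

end Pool.Agent.Lib.H59P
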