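import Pool.Agent.Lib.H59P.T0

/-!
# Chunk T1 (M): lower bound for the singular series of admissible tuples

Use `T0_tp`, `T0_nu_lt`, `T0_nu_le_k`. For `l ∈ P` put `b l = 1/l` if `l ≤ 2k` and `b l = 1 - k^2/l^2` if
`l > 2k`. Then `b l ≤ 1 + tp l h` and `0 < b l ≤ 1`:
* `l ≤ 2k`: `1 - nu/l ≥ 1/l` (as `nu + 1 ≤ l`) and `(l/(l-1))^k ≥ 1`.
* `l > 2k`: `1 - nu/l ≥ 1 - k/l > 0` and `(l/(l-1))^k = (1 + 1/(l-1))^k ≥ 1 + k/(l-1) ≥ 1 + k/l` (Bernoulli,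
  `one_add_mul_le_pow`), so the product is at least `(1 - k/l)(1 + k/l)`.
So `SS P h ≥ ∏_{l ∈ P} b l`. The small primes: `∏_{l ∈ P, l ≤ 2k} 1/l ≥ 1/primorial (2k) ≥ 4^(-2k)`
(`primorial_le_four_pow`; `primorial` is the product over all primes `≤ 2k`, and `1/l ≤ 1`). The large ones:
`1 - k^2/l^2 ≥ exp (-2 k^2/l^2)` (for `0 ≤ x ≤ 1/2`: `1 - x ≥ exp (-2x)`, e.g. from
`Real.add_one_le_exp` applied to `x/(1-x)`: `1/(1-x) = 1 + x/(1-x) ≤ exp (x/(1-x)) ≤ exp (2x)`), and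
`∑_{l > 2k} 1/l^2 ≤ 1/(2k)` for any finite set of integers `l > 2k` (compare with
`1/(l-1) - 1/l`, or by induction `∑_{2k < l ≤ N} 1/l^2 ≤ 1/(2k) - 1/N`). Total:
`exp (-k (2 log 4 + 1)) ≥ exp (-4k)` (`2 log 4 = 4 log 2 ≤ 2.78`). `k = 0`: `nu = 0`, all factors are `1`.
-/

open Finset

namespace Pool.Agent.Lib.H59P

theorem t1_B {k l : ℕ} (hl : l.Prime) :
    1 ≤ ((l : ℝ) / ((l : ℝ) - 1)) ^ k ∧ 1 + (k : ℝ) / l ≤ ((l : ℝ) / ((l : ℝ) - 1)) ^ k := by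
  have h1 : (1 : ℝ) < l := by exact_mod_cast hl.one_lt
  have h2 : (0 : ℝ) < (l : ℝ) - 1 := by linarith
  have h3 : (l : ℝ) / ((l : ℝ) - 1) = 1 + 1 / ((l : ℝ) - 1) := by
    field_simp
    ring
  have h4 : (0 : ℝ) ≤ 1 / ((l : ℝ) - 1) := by positivity
  have h5 : 1 + (k : ℝ) / l ≤ ((l : ℝ) / ((l : ℝ) - 1)) ^ k := by
    rw [h3]
    refine le_trans ?_ (one_add_mul_le_pow (by linarith) k)
    have h6 : (k : ℝ) / l ≤ k * (1 / ((l : ℝ) - 1)) := by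
      rw [mul_one_div]
      exact div_le_div_of_nonneg_left (Nat.cast_nonneg k) h2 (by linarith)
    linarith
  refine ⟨le_trans ?_ h5, h5⟩
  have h7 : (0 : ℝ) ≤ (k : ℝ) / l := by positivity
  linarith

theorem t1_small {k : ℕ} (h : Fin k → ℕ) (hA : Adm h) {l : ℕ} (hl : l.Prime) :
    ((l : ℝ))⁻¹ ≤ 1 + tp l h := by
  have h1 : (1 : ℝ) < l := by exact_mod_cast hl.one_lt
  have h2 : nu l h + 1 ≤ l := T0_nu_lt l hl h hA
  have h3 : (nu l h : ℝ) + 1 ≤ l := by exact_mod_cast h2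
  have h4 : ((l : ℝ))⁻¹ ≤ 1 - (nu l h : ℝ) / l := by
    rw [inv_eq_one_div, div_le_iff₀ (by linarith), sub_mul, div_mul_cancel₀ _ (by linarith)]
    linarith
  rw [T0_tp l hl]
  calc ((l : ℝ))⁻¹ = (l : ℝ)⁻¹ * 1 := (mul_one _).symm
    _ ≤ (1 - (nu l h : ℝ) / l) * ((l : ℝ) / ((l : ℝ) - 1)) ^ k :=
      mul_le_mul h4 (t1_B hl).1 zero_le_one (le_trans (by positivity) h4)

theorem t1_exp {x : ℝ} (h0 : 0 ≤ x) (h1 : x ≤ 1 / 2) : Real.exp (-(2 * x)) ≤ 1 - x := by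
  rw [Real.exp_neg]
  have h2 := Real.add_one_le_exp (2 * x)
  have h3 : (Real.exp (2 * x))⁻¹ ≤ (2 * x + 1)⁻¹ := inv_anti₀ (by linarith) h2
  refine h3.trans ?_
  rw [inv_eq_one_div, div_le_iff₀ (by linarith)]
  nlinarith

theorem t1_large {k : ℕ} (h : Fin k → ℕ) {l : ℕ} (hl : l.Prime) (hk : 2 * k < l) :
    Real.exp (-(2 * (k : ℝ) ^ 2 * ((l : ℝ) ^ 2)⁻¹)) ≤ 1 + tp l h := by
  have h1 : (1 : ℝ) < l := by exact_mod_cast hl.one_lt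
  have h0 : (0 : ℝ) < l := by linarith
  have h2 : (nu l h : ℝ) ≤ k := by exact_mod_cast T0_nu_le_k l hl h
  have h3 : 2 * (k : ℝ) ≤ l := by exact_mod_cast hk.le
  have h4 : (k : ℝ) / l ≤ 1 / 2 := by
    rw [div_le_iff₀ h0]
    linarith
  have h4' : 0 ≤ (k : ℝ) / l := by positivity
  have h5 : Real.exp (-(2 * ((k : ℝ) / l) ^ 2)) ≤ 1 - ((k : ℝ) / l) ^ 2 :=
    t1_exp (by positivity) (by nlinarith)
  have h6 : 2 * (k : ℝ) ^ 2 * ((l : ℝ) ^ 2)⁻¹ = 2 * ((k : ℝ) / l) ^ 2 := by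
    rw [div_pow, div_eq_mul_inv, mul_assoc]
  rw [h6]
  refine h5.trans ?_
  rw [T0_tp l hl]
  have h7 : 1 - (k : ℝ) / l ≤ 1 - (nu l h : ℝ) / l := by
    have := div_le_div_of_nonneg_right h2 h0.le
    linarith
  calc 1 - ((k : ℝ) / l) ^ 2 = (1 - (k : ℝ) / l) * (1 + (k : ℝ) / l) := by ring
    _ ≤ (1 - (nu l h : ℝ) / l) * ((l : ℝ) / ((l : ℝ) - 1)) ^ k :=
      mul_le_mul h7 (t1_B hl).2 (by linarith) (by linarith)

theorem t1_prodSmall (k : ℕ) (P : Finset ℕ) (hP : ∀ l ∈ P, l.Prime) :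
    Real.exp (-(2 * k * Real.log 4)) ≤ ∏ l ∈ P.filter (fun l => l ≤ 2 * k), ((l : ℝ))⁻¹ := by
  have h1 : ∏ l ∈ P.filter (fun l => l ≤ 2 * k), l ≤ primorial (2 * k) := by
    unfold primorial
    refine Finset.prod_le_prod_of_subset_of_one_le' ?_ ?_
    · intro l hl
      have h2 := mem_filter.1 hl
      exact mem_filter.2 ⟨mem_range.2 (by omega), hP l h2.1⟩
    · intro l hl _
      exact (mem_filter.1 hl).2.one_lt.le
  have h2 := h1.trans (primorial_le_four_pow (2 * k))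
  have h3 : ∏ l ∈ P.filter (fun l => l ≤ 2 * k), (l : ℝ) ≤ (4 : ℝ) ^ (2 * k) := by
    have h3' := (Nat.cast_le (α := ℝ)).2 h2
    rw [Nat.cast_prod, Nat.cast_pow, Nat.cast_ofNat] at h3'
    exact h3'
  have h4 : 0 < ∏ l ∈ P.filter (fun l => l ≤ 2 * k), (l : ℝ) := by
    refine Finset.prod_pos fun l hl => ?_
    exact_mod_cast (hP l (mem_filter.1 hl).1).pos
  have h5 : Real.exp (-(2 * k * Real.log 4)) = ((4 : ℝ) ^ (2 * k))⁻¹ := by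
    have h6 : (2 * k * Real.log 4 : ℝ) = ((2 * k : ℕ) : ℝ) * Real.log 4 := by push_cast; ring
    rw [Real.exp_neg, h6, Real.exp_nat_mul, Real.exp_log (by norm_num)]
  rw [h5, Finset.prod_inv_distrib]
  exact inv_anti₀ h4 h3

theorem t1_sum (k : ℕ) (P : Finset ℕ) :
    2 * (k : ℝ) ^ 2 * ∑ l ∈ P.filter (fun l => ¬ l ≤ 2 * k), ((l : ℝ) ^ 2)⁻¹ ≤ k := by
  rcases Nat.eq_zero_or_pos k with rfl | hk
  · simp
  have hk' : (0 : ℝ) < k := by exact_mod_cast hk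
  have h1 : ∑ l ∈ P.filter (fun l => ¬ l ≤ 2 * k), ((l : ℝ) ^ 2)⁻¹ ≤
      ∑ l ∈ Ioc (2 * k) (2 * k + P.sup id), ((l : ℝ) ^ 2)⁻¹ := by
    refine Finset.sum_le_sum_of_subset_of_nonneg ?_ fun _ _ _ => by positivity
    intro l hl
    have h2 := mem_filter.1 hl
    have h3 : l ≤ P.sup id := Finset.le_sup (f := id) h2.1
    exact mem_Ioc.2 ⟨by omega, by omega⟩
  have h2 := sum_Ioc_inv_sq_le_sub (α := ℝ) (k := 2 * k) (n := 2 * k + P.sup id) (by omega) (by omega)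
  have h3 : (0 : ℝ) ≤ (((2 * k + P.sup id : ℕ) : ℝ))⁻¹ := by positivity
  have h4 : ∑ l ∈ P.filter (fun l => ¬ l ≤ 2 * k), ((l : ℝ) ^ 2)⁻¹ ≤ (((2 * k : ℕ) : ℝ))⁻¹ := by
    linarith
  have h5 : 2 * (k : ℝ) ^ 2 * (((2 * k : ℕ) : ℝ))⁻¹ = k := by
    push_cast
    field_simp
  calc 2 * (k : ℝ) ^ 2 * ∑ l ∈ P.filter (fun l => ¬ l ≤ 2 * k), ((l : ℝ) ^ 2)⁻¹ ≤
      2 * (k : ℝ) ^ 2 * (((2 * k : ℕ) : ℝ))⁻¹ := mul_le_mul_of_nonneg_left h4 (by positivity)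
    _ = k := h5

theorem T_lower {k : ℕ} (h : Fin k → ℕ) (hA : Adm h) (P : Finset ℕ) (hP : ∀ l ∈ P, l.Prime) :
    Real.exp (-(4 * k : ℝ)) ≤ SS P h := by
  have h0 : SS P h = (∏ l ∈ P.filter (fun l => l ≤ 2 * k), (1 + tp l h)) *
      ∏ l ∈ P.filter (fun l => ¬ l ≤ 2 * k), (1 + tp l h) := by
    rw [SS]
    exact (Finset.prod_filter_mul_prod_filter_not P (fun l => l ≤ 2 * k) _).symm
  have h1 : Real.exp (-(2 * k * Real.log 4)) ≤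
      ∏ l ∈ P.filter (fun l => l ≤ 2 * k), (1 + tp l h) := by
    refine (t1_prodSmall k P hP).trans (Finset.prod_le_prod (fun l _ => by positivity) fun l hl => ?_)
    exact t1_small h hA (hP l (mem_filter.1 hl).1)
  have h2 : Real.exp (-(k : ℝ)) ≤ ∏ l ∈ P.filter (fun l => ¬ l ≤ 2 * k), (1 + tp l h) := by
    have h3 : Real.exp (-(k : ℝ)) ≤
        ∏ l ∈ P.filter (fun l => ¬ l ≤ 2 * k), Real.exp (-(2 * (k : ℝ) ^ 2 * ((l : ℝ) ^ 2)⁻¹)) := by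
      rw [← Real.exp_sum, Finset.sum_neg_distrib, ← Finset.mul_sum]
      exact Real.exp_le_exp.2 (neg_le_neg (t1_sum k P))
    refine h3.trans (Finset.prod_le_prod (fun l _ => (Real.exp_pos _).le) fun l hl => ?_)
    have h4 := mem_filter.1 hl
    exact t1_large h (hP l h4.1) (by omega)
  rw [h0]
  refine le_trans ?_ (mul_le_mul h1 h2 (Real.exp_pos _).le (le_trans (Real.exp_pos _).le h1))
  rw [← Real.exp_add]
  refine Real.exp_le_exp.2 ?_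
  have h5 : Real.log 4 = 2 * Real.log 2 := by
    have h6 : (4 : ℝ) = 2 ^ 2 := by norm_num
    rw [h6, Real.log_pow]
    norm_num
  have h7 := Real.log_two_lt_d9
  have h8 : (0 : ℝ) ≤ k := Nat.cast_nonneg k
  rw [h5]
  nlinarith

end Pool.Agent.Lib.H59P
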