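import Pool.Agent.Lib.H59P.T0

/-!
# Chunk T2 (S/M): bounds for the local factors

* `T2_abs`: by `T0_nonneg`, `T0_le`: `-1 ≤ tp ≤ (l/(l-1))^k - 1` and `1 ≤ (l/(l-1))^k`.
* `T2_large` (`2 k ≤ l`). If `k = 0` then `tp l h = 0` (`T0_tp`, `nu = 0` by `T0_nu_le_k`). Let `k ≥ 1`,
  `g = k - nu` (real, `0 ≤ g ≤ col` by `T0_nu_le_k`, `T0_k_le`), `B = (l/(l-1))^k`. By `T0_tp`
  `tp = [(1 - k/l) B - 1] + (g/l) B`. Upper bound of `B`: `l/(l-1) = 1 + 1/(l-1) ≤ exp (1/(l-1))`, so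
  `B ≤ exp (k/(l-1)) ≤ exp 1 ≤ 3` (`k ≤ l - 1`: as `2k ≤ l`, `k ≥ 1`). The bracket lies in `[-k^2/l^2, 0]`:
  `(1 - k/l) ≤ (1 - 1/l)^k` (Bernoulli, `one_add_mul_le_pow`) and `(1 - 1/l)^k B = 1`; and
  `B ≥ 1 + k/(l-1) ≥ 1 + k/l`, so `(1 - k/l) B ≥ 1 - k^2/l^2`.
-/

open Finset

namespace Pool.Agent.Lib.H59P

theorem t2_B {k l : ℕ} (hl : l.Prime) :
    1 ≤ ((l : ℝ) / ((l : ℝ) - 1)) ^ k ∧ 1 + (k : ℝ) / l ≤ ((l : ℝ) / ((l : ℝ) - 1)) ^ k := by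
  have h1 : (1 : ℝ) < l := by exact_mod_cast hl.one_lt
  have h2 : (0 : ℝ) < (l : ℝ) - 1 := by linarith
  have h3 : (l : ℝ) / ((l : ℝ) - 1) = 1 + 1 / ((l : ℝ) - 1) := by
    field_simp
    ring
  have h4 : (0 : ℝ) ≤ 1 / ((l : ℝ) - 1) := by positivity
  have h5 : 1 + (k : ℝ) / l ≤ ((l : ℝ) / ((l : ℝ) - 1)) ^ k := by
    rw [h3]
    refine le_trans ?_ (one_add_mul_le_pow (by linarith) k)
    have h6 : (k : ℝ) / l ≤ k * (1 / ((l : ℝ) - 1)) := by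
      rw [mul_one_div]
      exact div_le_div_of_nonneg_left (Nat.cast_nonneg k) h2 (by linarith)
    linarith
  refine ⟨le_trans ?_ h5, h5⟩
  have h7 : (0 : ℝ) ≤ (k : ℝ) / l := by positivity
  linarith

theorem T2_abs {k : ℕ} (l : ℕ) (hl : l.Prime) (h : Fin k → ℕ) :
    |tp l h| ≤ ((l : ℝ) / ((l : ℝ) - 1)) ^ k := by
  have h1 := T0_nonneg l hl h
  have h2 := T0_le l hl h
  have h3 := (t2_B (k := k) hl).1
  rw [abs_le]
  constructor <;> linarith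

theorem T2_large {k : ℕ} (l : ℕ) (hl : l.Prime) (h : Fin k → ℕ) (hk : 2 * k ≤ l) :
    |tp l h| ≤ (k : ℝ) ^ 2 / (l : ℝ) ^ 2 + 3 * (col l h : ℝ) / l := by
  have hl1 : (1 : ℝ) < l := by exact_mod_cast hl.one_lt
  have hl0 : (0 : ℝ) < l := by linarith
  have hl2 : (0 : ℝ) < (l : ℝ) - 1 := by linarith
  obtain ⟨hB1, hB2⟩ := t2_B (k := k) hl
  have hB3 : ((l : ℝ) / ((l : ℝ) - 1)) ^ k ≤ 3 := by
    have h3 : (l : ℝ) / ((l : ℝ) - 1) = 1 / ((l : ℝ) - 1) + 1 := by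
      field_simp
      ring
    have h4 : (l : ℝ) / ((l : ℝ) - 1) ≤ Real.exp (1 / ((l : ℝ) - 1)) := by
      rw [h3]
      exact Real.add_one_le_exp _
    have h5 : ((l : ℝ) / ((l : ℝ) - 1)) ^ k ≤ Real.exp (1 / ((l : ℝ) - 1)) ^ k :=
      pow_le_pow_left₀ (by positivity) h4 k
    refine h5.trans ?_
    rw [← Real.exp_nat_mul]
    have h6 : (k : ℝ) * (1 / ((l : ℝ) - 1)) ≤ 1 := by
      rw [mul_one_div, div_le_one hl2]
      have h7 : k + 1 ≤ l := by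
        have := hl.two_le
        omega
      have h8 : ((k + 1 : ℕ) : ℝ) ≤ l := by exact_mod_cast h7
      push_cast at h8
      linarith
    refine (Real.exp_le_exp.2 h6).trans ?_
    linarith [Real.exp_one_lt_d9]
  have h1 : (nu l h : ℝ) ≤ k := by exact_mod_cast T0_nu_le_k l hl h
  have h2 : (k : ℝ) ≤ nu l h + col l h := by exact_mod_cast T0_k_le l hl h
  have hkl : (k : ℝ) / l ≤ 1 := by
    rw [div_le_one hl0]
    have h9 : k ≤ l := by omega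
    exact_mod_cast h9
  -- the bracket
  have hb1 : (1 - (k : ℝ) / l) * ((l : ℝ) / ((l : ℝ) - 1)) ^ k ≤ 1 := by
    have h3 : 1 - (k : ℝ) / l ≤ (1 + -(1 / (l : ℝ))) ^ k := by
      refine le_trans (le_of_eq ?_) (one_add_mul_le_pow (a := -(1 / (l : ℝ))) ?_ k)
      · ring
      · have h4 : 1 / (l : ℝ) ≤ 1 := (div_le_one hl0).2 hl1.le
        linarith
    have h5 : (1 + -(1 / (l : ℝ))) ^ k * ((l : ℝ) / ((l : ℝ) - 1)) ^ k = 1 := by
      rw [← mul_pow]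
      have h6 : (1 + -(1 / (l : ℝ))) * ((l : ℝ) / ((l : ℝ) - 1)) = 1 := by
        field_simp
        ring
      rw [h6, one_pow]
    calc (1 - (k : ℝ) / l) * ((l : ℝ) / ((l : ℝ) - 1)) ^ k ≤
        (1 + -(1 / (l : ℝ))) ^ k * ((l : ℝ) / ((l : ℝ) - 1)) ^ k :=
          mul_le_mul_of_nonneg_right h3 (by linarith)
      _ = 1 := h5
  have hb2 : 1 - (k : ℝ) ^ 2 / (l : ℝ) ^ 2 ≤ (1 - (k : ℝ) / l) * ((l : ℝ) / ((l : ℝ) - 1)) ^ k := by
    have h3 : (1 - (k : ℝ) / l) * (1 + (k : ℝ) / l) ≤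
        (1 - (k : ℝ) / l) * ((l : ℝ) / ((l : ℝ) - 1)) ^ k :=
      mul_le_mul_of_nonneg_left hB2 (by linarith)
    refine le_trans (le_of_eq ?_) h3
    ring
  set B := ((l : ℝ) / ((l : ℝ) - 1)) ^ k with hB
  have htp : tp l h = ((1 - (k : ℝ) / l) * B - 1) + ((k : ℝ) - nu l h) / l * B := by
    have h3 := T0_tp l hl h
    rw [← hB] at h3
    have h4 : tp l h = (1 - (nu l h : ℝ) / l) * B - 1 := by linarith
    rw [h4]
    ring
  have hg0 : 0 ≤ ((k : ℝ) - nu l h) / l := div_nonneg (by linarith) hl0.le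
  have hg1 : ((k : ℝ) - nu l h) / l ≤ (col l h : ℝ) / l :=
    div_le_div_of_nonneg_right (by linarith) hl0.le
  have hg2 : ((k : ℝ) - nu l h) / l * B ≤ (col l h : ℝ) / l * 3 :=
    mul_le_mul hg1 hB3 (by linarith) (by positivity)
  have hg3 : 0 ≤ ((k : ℝ) - nu l h) / l * B := mul_nonneg hg0 (by linarith)
  have hk2 : 0 ≤ (k : ℝ) ^ 2 / (l : ℝ) ^ 2 := by positivity
  have hc2 : 3 * (col l h : ℝ) / l = (col l h : ℝ) / l * 3 := by ring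
  have hc3 : 0 ≤ (col l h : ℝ) / l * 3 := by positivity
  rw [htp, hc2, abs_le]
  constructor <;> linarith

end Pool.Agent.Lib.H59P
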