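import Pool.Agent.Lib.H59P.TDefs

/-!
# Chunk T3 (M): Rankin's trick and the truncation of the singular series

* `T3_SS`: `Finset.prod_one_add` (or `Finset.prod_add`).
* `T3_tail`. For `d ∈ T`: `td d h = ∏_{l ∣ d} tp l h` and `1 ≤ (d/E0)^η`, `d = ∏_{l ∈ d.primeFactors} l`
  (`Nat.prod_primeFactors_of_squarefree`), so `|td d h| ≤ E0^(-η) ∏_{l ∈ d.primeFactors} l^η |tp l h|`
  (`Real.finset_prod_rpow`, `Real.mul_rpow`). The map `d ↦ d.primeFactors` is injective on squarefree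
  numbers and has values in `(pr X).powerset`; the sum over all of the powerset is `RP η X h`
  (`Finset.prod_one_add`), all terms being nonnegative.
* `T3_diff`. With `P = (pr z).filter (¬ · ∣ R)`: `SS P h = ∑_{S ⊆ P} ∏_{l ∈ S} tp l h` is the sum of `td d h`
  over the set `A` of the squarefree `d` all of whose prime factors are in `P` (bijection
  `S ↦ ∏_{l ∈ S} l`, inverse `d ↦ d.primeFactors`). `SF E R` is the set of squarefree `d ≤ E` coprime to
  `R`, i.e. no prime factor of `d` divides `R`. The difference of the two sums is at most the sum of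
  `|td d h|` over the symmetric difference. If `d ∈ A`, `d ∉ SF E R`, then `d > E ≥ E0`. If `d ∈ SF E R`,
  `d ∉ A`, then `d` has a prime factor `> z`, so `d > z ≥ E0`. In both cases the prime factors are `≤ X`
  (`≤ z ≤ X`, resp. `≤ d ≤ E ≤ X`). Apply `T3_tail`.
* `T3_abs`: `SF E R` with `E ≤ X`: `T3_tail` with `E0 = 1` (`1 ≤ d`).
* `T3_SSle`: `SS P h ≤ ∏ (1 + |tp l h|) ≤ ∏_{l ∈ P} (1 + l^η |tp l h|) ≤ RP η X h`; the lower bound
  `0 ≤ 1 + tp l h` is clear from the definition of `tp` (`-1 ≤ gl`), or do it with absolute values.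
-/

open Finset

namespace Pool.Agent.Lib.H59P

theorem T3_SS {k : ℕ} (P : Finset ℕ) (h : Fin k → ℕ) :
    SS P h = ∑ S ∈ P.powerset, ∏ l ∈ S, tp l h := by
  rw [SS, Finset.prod_one_add]

theorem T3_tail {k : ℕ} (η E0 : ℝ) (hη : 0 ≤ η) (hE0 : 0 < E0) (X : ℕ) (T : Finset ℕ)
    (hT : ∀ d ∈ T, Squarefree d ∧ (∀ l ∈ d.primeFactors, l ≤ X) ∧ E0 ≤ (d : ℝ)) (h : Fin k → ℕ) :
    ∑ d ∈ T, |td d h| ≤ E0 ^ (-η) * RP η X h := by
  classical
  have h1 : ∀ d ∈ T, |td d h| ≤ E0 ^ (-η) * ∏ l ∈ d.primeFactors, ((l : ℝ) ^ η * |tp l h|) := by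
    intro d hd
    obtain ⟨hsq, -, hle⟩ := hT d hd
    have h2 : ∏ l ∈ d.primeFactors, ((l : ℝ) ^ η * |tp l h|) = (d : ℝ) ^ η * |td d h| := by
      rw [Finset.prod_mul_distrib, td, Finset.abs_prod]
      congr 1
      rw [Real.finsetProd_rpow _ _ fun l _ => Nat.cast_nonneg l]
      congr 1
      have h3 := Nat.prod_primeFactors_of_squarefree hsq
      rw [← Nat.cast_prod, h3]
    rw [h2, ← mul_assoc]
    have h4 : 1 ≤ E0 ^ (-η) * (d : ℝ) ^ η := by
      rw [Real.rpow_neg hE0.le, inv_mul_eq_div, le_div_iff₀ (Real.rpow_pos_of_pos hE0 _), one_mul]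
      exact Real.rpow_le_rpow hE0.le hle hη
    exact le_mul_of_one_le_left (abs_nonneg _) h4
  refine (Finset.sum_le_sum h1).trans ?_
  rw [← Finset.mul_sum]
  refine mul_le_mul_of_nonneg_left ?_ (Real.rpow_nonneg hE0.le _)
  have hinj : Set.InjOn Nat.primeFactors (T : Set ℕ) := by
    intro d hd d' hd' hdd
    have h2 := Nat.prod_primeFactors_of_squarefree (hT d hd).1
    have h3 := Nat.prod_primeFactors_of_squarefree (hT d' hd').1
    rw [← h2, ← h3, hdd]
  rw [RP, Finset.prod_one_add,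
    ← Finset.sum_image (f := fun S : Finset ℕ => ∏ l ∈ S, ((l : ℝ) ^ η * |tp l h|)) hinj]
  refine Finset.sum_le_sum_of_subset_of_nonneg ?_ ?_
  · intro S hS
    obtain ⟨d, hd, rfl⟩ := mem_image.1 hS
    rw [mem_powerset]
    intro l hl
    exact mem_pr.2 ⟨(hT d hd).2.1 l hl, Nat.prime_of_mem_primeFactors hl⟩
  · intro S _ _
    exact Finset.prod_nonneg fun l _ => mul_nonneg (Real.rpow_nonneg (Nat.cast_nonneg l) _)
      (abs_nonneg _)

/-- The elements of `SF`. -/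
theorem t3_mem {E R d : ℕ} : d ∈ SF E R ↔ 1 ≤ d ∧ d ≤ E ∧ Squarefree d ∧ Nat.Coprime d R := by
  unfold SF
  rw [mem_filter, mem_Icc]
  tauto

theorem t3_coprime {R d : ℕ} (hd : d ≠ 0) :
    Nat.Coprime d R ↔ ∀ l ∈ d.primeFactors, ¬ l ∣ R := by
  constructor
  · intro h l hl hlR
    have hp := Nat.prime_of_mem_primeFactors hl
    have h1 : l ∣ Nat.gcd d R := Nat.dvd_gcd (Nat.dvd_of_mem_primeFactors hl) hlR
    rw [Nat.Coprime] at h
    rw [h] at h1
    exact hp.one_lt.ne' (Nat.dvd_one.1 h1)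
  · intro h
    refine Nat.coprime_of_dvd fun l hp hld hlR => ?_
    exact h l (Nat.mem_primeFactors.2 ⟨hp, hld, hd⟩) hlR

theorem T3_diff {k : ℕ} (η E0 : ℝ) (hη : 0 ≤ η) (hE0 : 0 < E0) (X z R E : ℕ) (hz : z ≤ X) (hE : E ≤ X)
    (h1 : E0 ≤ (z : ℝ)) (h2 : E0 ≤ (E : ℝ)) (h : Fin k → ℕ) :
    |∑ d ∈ SF E R, td d h - SS ((pr z).filter (fun l : ℕ => ¬ l ∣ R)) h| ≤ E0 ^ (-η) * RP η X h := by
  classical
  set P : Finset ℕ := (pr z).filter (fun l : ℕ => ¬ l ∣ R) with hP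
  have hPm : ∀ l, l ∈ P ↔ (l ≤ z ∧ l.Prime) ∧ ¬ l ∣ R := by
    intro l
    rw [hP, mem_filter, mem_pr]
  set A : Finset ℕ := P.powerset.image fun S => ∏ l ∈ S, l with hA
  have hpf : ∀ S ∈ P.powerset, (∏ l ∈ S, l).primeFactors = S := by
    intro S hS
    exact Nat.primeFactors_prod fun l hl => ((hPm l).1 (mem_powerset.1 hS hl)).1.2
  have hSA : SS P h = ∑ d ∈ A, td d h := by
    rw [T3_SS, hA, Finset.sum_image]
    · refine Finset.sum_congr rfl fun S hS => ?_
      rw [td, hpf S hS]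
    · intro S hS S' hS' hSS
      have h3 := congrArg Nat.primeFactors hSS
      rwa [hpf S hS, hpf S' hS'] at h3
  have hAm : ∀ d, d ∈ A ↔ Squarefree d ∧ d.primeFactors ⊆ P := by
    intro d
    rw [hA, mem_image]
    constructor
    · rintro ⟨S, hS, rfl⟩
      refine ⟨?_, ?_⟩
      · refine Finset.squarefree_prod_of_pairwise_isCoprime ?_ ?_
        · intro a ha b hb hab
          have ha' := ((hPm a).1 (mem_powerset.1 hS ha)).1.2
          have hb' := ((hPm b).1 (mem_powerset.1 hS hb)).1.2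
          exact Nat.coprime_iff_isRelPrime.1 ((Nat.coprime_primes ha' hb').2 hab)
        · intro a ha
          exact ((hPm a).1 (mem_powerset.1 hS ha)).1.2.prime.squarefree
      · rw [hpf S hS]
        exact mem_powerset.1 hS
    · rintro ⟨hsq, hsub⟩
      exact ⟨d.primeFactors, mem_powerset.2 hsub, Nat.prod_primeFactors_of_squarefree hsq⟩
  rw [hSA, ← Finset.sum_sdiff_sub_sum_sdiff]
  have hT : ∀ d ∈ (SF E R \ A) ∪ (A \ SF E R),
      Squarefree d ∧ (∀ l ∈ d.primeFactors, l ≤ X) ∧ E0 ≤ (d : ℝ) := by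
    intro d hd
    rcases mem_union.1 hd with hd | hd
    · obtain ⟨hd1, hd2⟩ := mem_sdiff.1 hd
      obtain ⟨h3, h4, h5, h6⟩ := t3_mem.1 hd1
      have hd0 : d ≠ 0 := by omega
      refine ⟨h5, fun l hl => (Nat.le_of_dvd (by omega) (Nat.dvd_of_mem_primeFactors hl)).trans
        (h4.trans hE), ?_⟩
      by_contra hlt
      push Not at hlt
      apply hd2
      rw [hAm]
      refine ⟨h5, fun l hl => (hPm l).2 ⟨⟨?_, Nat.prime_of_mem_primeFactors hl⟩,
        (t3_coprime hd0).1 h6 l hl⟩⟩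
      have h7 : l ≤ d := Nat.le_of_dvd (by omega) (Nat.dvd_of_mem_primeFactors hl)
      have h8 : (d : ℝ) ≤ z := by linarith
      exact h7.trans (by exact_mod_cast h8)
    · obtain ⟨hd1, hd2⟩ := mem_sdiff.1 hd
      obtain ⟨h3, h4⟩ := (hAm d).1 hd1
      refine ⟨h3, fun l hl => (((hPm l).1 (h4 hl)).1.1).trans hz, ?_⟩
      by_contra hlt
      push Not at hlt
      apply hd2
      have hd0 : d ≠ 0 := h3.ne_zero
      have h8 : (d : ℝ) ≤ E := by linarith
      exact t3_mem.2 ⟨by omega, by exact_mod_cast h8, h3,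
        (t3_coprime hd0).2 fun l hl => ((hPm l).1 (h4 hl)).2⟩
  refine le_trans ?_ (T3_tail η E0 hη hE0 X _ hT h)
  have hdisj : Disjoint (SF E R \ A) (A \ SF E R) := by
    rw [Finset.disjoint_left]
    intro d hd hd'
    exact (mem_sdiff.1 hd).2 (mem_sdiff.1 hd').1
  rw [Finset.sum_union hdisj]
  refine (abs_sub _ _).trans ?_
  exact add_le_add (Finset.abs_sum_le_sum_abs _ _) (Finset.abs_sum_le_sum_abs _ _)

theorem T3_abs {k : ℕ} (η : ℝ) (hη : 0 ≤ η) (X R E : ℕ) (hE : E ≤ X) (h : Fin k → ℕ) :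
    ∑ d ∈ SF E R, |td d h| ≤ RP η X h := by
  have h1 := T3_tail η 1 hη one_pos X (SF E R) ?_ h
  · rwa [Real.one_rpow, one_mul] at h1
  · intro d hd
    obtain ⟨h3, h4, h5, h6⟩ := t3_mem.1 hd
    exact ⟨h5, fun l hl => (Nat.le_of_dvd (by omega) (Nat.dvd_of_mem_primeFactors hl)).trans
        (h4.trans hE), by exact_mod_cast h3⟩

theorem T3_SSle {k : ℕ} (η : ℝ) (hη : 0 ≤ η) (X : ℕ) (P : Finset ℕ) (hP : P ⊆ pr X) (h : Fin k → ℕ) :
    SS P h ≤ RP η X h := by
  refine (le_abs_self _).trans ?_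
  rw [SS, Finset.abs_prod, RP]
  have h1 : ∀ l ∈ pr X, 1 ≤ (l : ℝ) ^ η := by
    intro l hl
    have h2 : (1 : ℝ) ≤ l := by exact_mod_cast (mem_pr.1 hl).2.one_lt.le
    exact Real.one_le_rpow h2 hη
  refine le_trans (Finset.prod_le_prod (g := fun l : ℕ => 1 + (l : ℝ) ^ η * |tp l h|)
    (fun l _ => abs_nonneg _) ?_) ?_
  · intro l hl
    refine (abs_add_le _ _).trans ?_
    rw [abs_one]
    have h3 := le_mul_of_one_le_left (abs_nonneg (tp l h)) (h1 l (hP hl))
    linarith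
  · refine Finset.prod_le_prod_of_subset_of_one_le hP (fun l _ => by positivity) ?_
    intro l hl _
    have h3 : 0 ≤ (l : ℝ) ^ η * |tp l h| := by positivity
    linarith

end Pool.Agent.Lib.H59P
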