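import Pool.Agent.Lib.H59P.TBDefs
import Pool.Agent.Lib.H68X.XRB

/-!
# Chunk TB1 (M): very few sets have a prime translate if there is a bad zero (port)

Copy the proof of `XRB_count` (`H68X/XRB.lean`) and keep the exact bounds for the three kinds of sets:
`S1` (sets which meet `range (r+1)`): `S1.card (H+1) ≤ k (r+1) 2 k^k N`, and
`4 k (r+1) 2 k^k exp (k/16) ≤ 16 k r k^k exp k ≤ H + 1`, so `S1.card ≤ exp (-k/16)/4 N`; `S2`: `few_bad`
gives `2 r exp (-k/4) N ≤ exp (-k/16)/4 N` (`hr`); `S3.card ≤ x 2^(k+1) k^k ν^(k/8) N ≤ exp (-k/16)/4 N`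
(`hsum`). Together `3/4 exp (-k/16) N < exp (-k/16) N`, as `N > 0`.
-/

open Finset

namespace Pool.Agent.Lib.H59P

open Pool.Agent.Lib.H68T

open scoped Classical in
theorem TB_count (r : ℕ) [NeZero r] (ψ : DirichletCharacter ℂ r) (hψ : ψ ≠ 1)
    (hψ2 : ψ ^ 2 = 1) (k H : ℕ) (x ν : ℝ) (hk : 2 ≤ k) (hx : 0 ≤ x)
    (hH : (100 * k ^ 2 * (r * 4 ^ k) : ℝ) * (k : ℝ) ^ k * Real.exp k ≤ H + 1)
    (hν0 : 0 < ν) (hν1 : ν ≤ 1)
    (hP : ∀ n : ℕ, 1 ≤ n → (n : ℝ) ≤ x → ((XRB_P r ψ H n).card : ℝ) ≤ ν * (H + 1))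
    (hr : 2 * (r : ℝ) * Real.exp (-(k / 4 : ℝ)) ≤ Real.exp (-(k / 16 : ℝ)) / 4)
    (hsum : x * (2 ^ (k + 1) * (k : ℝ) ^ k * ν ^ ((k : ℝ) / 8)) ≤ Real.exp (-(k / 16 : ℝ)) / 4) :
    ((((range (H + 1)).powersetCard k).filter (fun A => Admissible A ∧
        HasPrimeTranslate x A)).card : ℝ) <
      Real.exp (-(k / 16 : ℝ)) *
        ((((range (H + 1)).powersetCard k).filter (fun A => Admissible A)).card : ℝ) := by
  set U := range (H + 1) with hU
  set 𝒜 := (U.powersetCard k).filter (fun A => Admissible A) with h𝒜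
  set N : ℝ := (𝒜.card : ℝ) with hN
  have hUc : (U.card : ℝ) = H + 1 := by rw [hU, card_range]; push_cast; ring
  have hr1 : (1 : ℝ) ≤ r := by
    have : 0 < r := Nat.pos_of_ne_zero (NeZero.ne r)
    exact_mod_cast this
  have hk1 : (2 : ℝ) ≤ k := by exact_mod_cast hk
  have hkk : (1 : ℝ) ≤ (k : ℝ) ^ k := one_le_pow₀ (by linarith)
  have h4k : (1 : ℝ) ≤ (4 : ℝ) ^ k := one_le_pow₀ (by norm_num)
  have hek : (1 : ℝ) ≤ Real.exp k := Real.one_le_exp (by linarith)
  have hH1 : (0 : ℝ) < (H : ℝ) + 1 := by positivity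
  -- the condition of `adm_lower`
  have hprim : 8 * k ^ 2 * primorial k ≤ H + 1 := by
    have h1 : primorial k ≤ 4 ^ k := primorial_le_four_pow k
    have h2 : (8 * k ^ 2 * primorial k : ℝ) ≤ H + 1 := by
      refine le_trans ?_ hH
      have h3 : (primorial k : ℝ) ≤ (4 : ℝ) ^ k := by exact_mod_cast h1
      have h4 : (1 : ℝ) ≤ (k : ℝ) ^ k * Real.exp k := one_le_mul_of_one_le_of_one_le hkk hek
      calc (8 * k ^ 2 * primorial k : ℝ) ≤ 8 * k ^ 2 * 4 ^ k := by
            apply mul_le_mul_of_nonneg_left h3 (by positivity)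
        _ ≤ 100 * k ^ 2 * (r * 4 ^ k) := by
            have : (4 : ℝ) ^ k ≤ r * 4 ^ k := le_mul_of_one_le_left (by positivity) hr1
            have h5 : (0 : ℝ) ≤ (k : ℝ) ^ 2 := by positivity
            linarith [mul_le_mul_of_nonneg_left this h5, mul_nonneg h5 (show (0:ℝ) ≤ 4 ^ k by positivity)]
        _ ≤ 100 * k ^ 2 * (r * 4 ^ k) * ((k : ℝ) ^ k * Real.exp k) :=
            le_mul_of_one_le_right (by positivity) h4
        _ = _ := by ring
    exact_mod_cast h2
  have hadm := adm_lower H k (by omega) hprim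
  have hNpos : 0 < N := by
    by_contra hcon
    have h0 : N = 0 := le_antisymm (not_lt.1 hcon) (Nat.cast_nonneg _)
    have h1 : ((((range (H + 1)).powersetCard k).filter (fun A => Admissible A)).card : ℝ) = 0 := h0
    rw [h1, mul_zero] at hadm
    exact absurd hadm (not_le.2 (by positivity))
  have hfac : (0 : ℝ) < (k.factorial : ℝ) := by exact_mod_cast k.factorial_pos
  have hT : ((H : ℝ) + 1) ^ k / (k.factorial : ℝ) ≤ 2 * (k : ℝ) ^ k * N := by
    rw [div_le_iff₀ hfac]
    calc ((H : ℝ) + 1) ^ k ≤ _ := hadm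
      _ = _ := by rw [hN, h𝒜, hU]; ring
  -- the three kinds
  set S1 := (U.powersetCard k).filter (fun A => (A ∩ range (r + 1)).Nonempty) with hS1
  set S2 := (U.powersetCard k).filter (fun A => Admissible A ∧
      ∃ n < r, (∀ a ∈ A, Nat.Coprime (n + a) r) ∧
        8 * (A.filter (fun a : ℕ => ψ ((n + a : ℕ) : ZMod r) = 1)).card < k) with hS2
  set S3 := (Icc 1 ⌊x⌋₊).biUnion (fun n =>
      (U.powersetCard k).filter (fun A => k ≤ 8 * (A ∩ XRB_P r ψ H n).card)) with hS3
  set S := 𝒜.filter (fun A => HasPrimeTranslate x A) with hS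
  have hsub : S ⊆ S1 ∪ S2 ∪ S3 := by
    intro A hA
    obtain ⟨hA1, n, hn1, hnx, hpr⟩ := mem_filter.1 hA
    obtain ⟨hA2, hadmA⟩ := mem_filter.1 hA1
    by_cases h1 : (A ∩ range (r + 1)).Nonempty
    · exact mem_union_left _ (mem_union_left _ (mem_filter.2 ⟨hA2, h1⟩))
    · have hbig : ∀ a ∈ A, r < a := by
        intro a ha
        by_contra hcon
        exact h1 ⟨a, mem_inter.2 ⟨ha, mem_range.2 (by omega)⟩⟩
      have hcop : ∀ a ∈ A, Nat.Coprime (n + a) r := by
        intro a ha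
        rw [Nat.Prime.coprime_iff_not_dvd (hpr a ha)]
        intro hdvd
        have := Nat.le_of_dvd (Nat.pos_of_ne_zero (NeZero.ne r)) hdvd
        have := hbig a ha
        omega
      have hmod : ∀ a : ℕ, ((n % r + a : ℕ) : ZMod r) = ((n + a : ℕ) : ZMod r) := by
        intro a
        push_cast
        rw [ZMod.natCast_mod]
      by_cases h2 : 8 * (A.filter (fun a : ℕ => ψ ((n + a : ℕ) : ZMod r) = 1)).card < k
      · refine mem_union_left _ (mem_union_right _ (mem_filter.2 ⟨hA2, hadmA, n % r,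
          Nat.mod_lt _ (Nat.pos_of_ne_zero (NeZero.ne r)), ?_, ?_⟩))
        · intro a ha
          have h3 := hcop a ha
          rw [← ZMod.isUnit_iff_coprime] at h3 ⊢
          rw [hmod a]
          exact h3
        · have : (A.filter (fun a : ℕ => ψ ((n % r + a : ℕ) : ZMod r) = 1)) =
              (A.filter (fun a : ℕ => ψ ((n + a : ℕ) : ZMod r) = 1)) := by
            apply filter_congr
            intro a _
            rw [hmod a]
          rw [this]
          exact h2
      · refine mem_union_right _ (mem_biUnion.2 ⟨n, mem_Icc.2 ⟨hn1, Nat.le_floor hnx⟩,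
          mem_filter.2 ⟨hA2, ?_⟩⟩)
        have : A.filter (fun a : ℕ => ψ ((n + a : ℕ) : ZMod r) = 1) ⊆ A ∩ XRB_P r ψ H n := by
          intro a ha
          obtain ⟨ha1, ha2⟩ := mem_filter.1 ha
          exact mem_inter.2 ⟨ha1, mem_filter.2 ⟨(mem_powersetCard.1 hA2).1 ha1, hpr a ha1, ha2⟩⟩
        have := card_le_card this
        omega
  -- the counts
  have hc1 : (S1.card : ℝ) ≤ Real.exp (-(k / 16 : ℝ)) / 4 * N := by
    have hrH : range (r + 1) ⊆ U := by
      rw [hU]
      apply range_subset_range.2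
      have : (r : ℝ) + 1 ≤ H + 1 := by
        refine le_trans ?_ hH
        have h4 : (1 : ℝ) ≤ (k : ℝ) ^ k * Real.exp k := one_le_mul_of_one_le_of_one_le hkk hek
        calc (r : ℝ) + 1 ≤ 100 * k ^ 2 * (r * 4 ^ k) := by
              have h5 : (4 : ℝ) ≤ (k : ℝ) ^ 2 := by
                have := pow_le_pow_left₀ (by norm_num) hk1 2
                norm_num at this
                exact this
              have h6 : (r : ℝ) ≤ r * 4 ^ k := le_mul_of_one_le_right (by linarith) h4k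
              linarith [mul_le_mul h5 h6 (by linarith) (by positivity)]
          _ ≤ 100 * k ^ 2 * (r * 4 ^ k) * ((k : ℝ) ^ k * Real.exp k) :=
              le_mul_of_one_le_right (by positivity) h4
          _ = _ := by ring
      exact_mod_cast this
    have h1 := meet_small U (range (r + 1)) hrH k (by omega)
    rw [hUc, card_range] at h1
    have h2 : (S1.card : ℝ) * (H + 1) ≤ k * (r + 1) * (2 * (k : ℝ) ^ k * N) := by
      refine h1.trans ?_
      push_cast
      exact mul_le_mul_of_nonneg_left hT (by positivity)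
    have h3 : (k : ℝ) * (r + 1) * (2 * (k : ℝ) ^ k * N) ≤
        Real.exp (-(k / 16 : ℝ)) / 4 * N * (H + 1) := by
      have hexp : Real.exp (-(k / 16 : ℝ)) * Real.exp (k / 16 : ℝ) = 1 := by
        rw [← Real.exp_add]; simp
      have hexp16 : Real.exp (k / 16 : ℝ) ≤ Real.exp k := Real.exp_le_exp.2 (by linarith)
      have hepos : 0 < Real.exp (-(k / 16 : ℝ)) := Real.exp_pos _
      have h4 : (k : ℝ) * (r + 1) * (2 * (k : ℝ) ^ k) ≤ Real.exp (-(k / 16 : ℝ)) / 4 * (H + 1) := by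
        have h5 : 8 * (k : ℝ) * (r + 1) * (k : ℝ) ^ k * Real.exp (k / 16 : ℝ) ≤ H + 1 := by
          refine le_trans ?_ hH
          have h6 : 8 * (k : ℝ) * (r + 1) ≤ 100 * k ^ 2 * (r * 4 ^ k) := by
            have h7 : (r : ℝ) ≤ r * 4 ^ k := le_mul_of_one_le_right (by linarith) h4k
            have h8 : (k : ℝ) ≤ (k : ℝ) ^ 2 := by
              rw [sq]
              exact le_mul_of_one_le_left (by linarith) (by linarith)
            have h10 : (k : ℝ) ≤ k * r := le_mul_of_one_le_right (by linarith) hr1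
            have h11 : (0 : ℝ) ≤ k * r := by linarith
            have h9 : (k : ℝ) * r ≤ (k : ℝ) ^ 2 * (r * 4 ^ k) :=
              mul_le_mul h8 h7 (by linarith) (by positivity)
            linarith
          calc 8 * (k : ℝ) * (r + 1) * (k : ℝ) ^ k * Real.exp (k / 16 : ℝ)
              ≤ 100 * k ^ 2 * (r * 4 ^ k) * (k : ℝ) ^ k * Real.exp (k / 16 : ℝ) :=
                mul_le_mul_of_nonneg_right (mul_le_mul_of_nonneg_right h6 (by positivity))
                  (Real.exp_pos _).le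
            _ ≤ 100 * k ^ 2 * (r * 4 ^ k) * (k : ℝ) ^ k * Real.exp k :=
                mul_le_mul_of_nonneg_left hexp16 (by positivity)
        have h12 := mul_le_mul_of_nonneg_left h5 hepos.le
        have h13 : Real.exp (-(k / 16 : ℝ)) *
            (8 * (k : ℝ) * (r + 1) * (k : ℝ) ^ k * Real.exp (k / 16 : ℝ)) =
            8 * (k : ℝ) * (r + 1) * (k : ℝ) ^ k := by
          calc Real.exp (-(k / 16 : ℝ)) *
              (8 * (k : ℝ) * (r + 1) * (k : ℝ) ^ k * Real.exp (k / 16 : ℝ)) =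
              8 * (k : ℝ) * (r + 1) * (k : ℝ) ^ k *
                (Real.exp (-(k / 16 : ℝ)) * Real.exp (k / 16 : ℝ)) := by ring
            _ = _ := by rw [hexp, mul_one]
        rw [h13] at h12
        linarith
      calc (k : ℝ) * (r + 1) * (2 * (k : ℝ) ^ k * N) = (k : ℝ) * (r + 1) * (2 * (k : ℝ) ^ k) * N := by
            ring
        _ ≤ Real.exp (-(k / 16 : ℝ)) / 4 * (H + 1) * N := mul_le_mul_of_nonneg_right h4 hNpos.le
        _ = _ := by ring
    exact le_of_mul_le_mul_right (h2.trans h3) hH1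
  have hc2 : (S2.card : ℝ) ≤ Real.exp (-(k / 16 : ℝ)) / 4 * N := by
    have h1 := few_bad H k r ψ hψ hψ2 hk hH
    refine h1.trans ?_
    exact mul_le_mul_of_nonneg_right hr hNpos.le
  have hc3 : (S3.card : ℝ) ≤ Real.exp (-(k / 16 : ℝ)) / 4 * N := by
    have h1 : (S3.card : ℝ) ≤ ∑ n ∈ Icc 1 ⌊x⌋₊,
        (((U.powersetCard k).filter (fun A => k ≤ 8 * (A ∩ XRB_P r ψ H n).card)).card : ℝ) := by
      have := card_biUnion_le (s := Icc 1 ⌊x⌋₊) (t := fun n =>
        (U.powersetCard k).filter (fun A => k ≤ 8 * (A ∩ XRB_P r ψ H n).card))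
      exact_mod_cast this
    have h2 : ∀ n ∈ Icc 1 ⌊x⌋₊,
        (((U.powersetCard k).filter (fun A => k ≤ 8 * (A ∩ XRB_P r ψ H n).card)).card : ℝ) ≤
          2 ^ k * ν ^ ((k : ℝ) / 8) * (2 * (k : ℝ) ^ k * N) := by
      intro n hn
      obtain ⟨hn1, hn2⟩ := mem_Icc.1 hn
      have hnx : (n : ℝ) ≤ x := (Nat.le_floor_iff hx).1 hn2
      have h3 := many_plus U (XRB_P r ψ H n) (filter_subset _ _) k ν hν0 hν1
        (by rw [hUc]; exact hP n hn1 hnx)
      refine h3.trans ?_
      rw [hUc]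
      exact mul_le_mul_of_nonneg_left hT (by positivity)
    refine h1.trans ((sum_le_sum h2).trans ?_)
    rw [sum_const, Nat.card_Icc, nsmul_eq_mul]
    have h3 : ((⌊x⌋₊ + 1 - 1 : ℕ) : ℝ) ≤ x := by
      rw [Nat.add_sub_cancel]
      exact Nat.floor_le hx
    calc ((⌊x⌋₊ + 1 - 1 : ℕ) : ℝ) * (2 ^ k * ν ^ ((k : ℝ) / 8) * (2 * (k : ℝ) ^ k * N))
        ≤ x * (2 ^ k * ν ^ ((k : ℝ) / 8) * (2 * (k : ℝ) ^ k * N)) :=
          mul_le_mul_of_nonneg_right h3 (by positivity)
      _ = x * (2 ^ (k + 1) * (k : ℝ) ^ k * ν ^ ((k : ℝ) / 8)) * N := by rw [pow_succ]; ring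
      _ ≤ Real.exp (-(k / 16 : ℝ)) / 4 * N := mul_le_mul_of_nonneg_right hsum hNpos.le
  have hSc : (S.card : ℝ) ≤ 3 * (Real.exp (-(k / 16 : ℝ)) / 4 * N) := by
    have h1 : S.card ≤ S1.card + S2.card + S3.card :=
      (card_le_card hsub).trans ((card_union_le _ _).trans
        (Nat.add_le_add_right (card_union_le _ _) _))
    have h2 : (S.card : ℝ) ≤ S1.card + S2.card + S3.card := by exact_mod_cast h1
    linarith
  have hff : S = (U.powersetCard k).filter (fun A => Admissible A ∧ HasPrimeTranslate x A) := by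
    rw [hS, h𝒜, filter_filter]
  rw [← hff]
  have hpos : 0 < Real.exp (-(k / 16 : ℝ)) * N := mul_pos (Real.exp_pos _) hNpos
  linarith

end Pool.Agent.Lib.H59P
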