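import Pool.Agent.Lib.H51D.VDefs
import Pool.Agent.Lib.H68T.FINP

/-!
# Project H59P, part TB: the weak form of the tuples statement (helper24)
-/

open Finset

namespace Pool.Agent.Lib.H59P

open Pool.Agent.Lib.H68T

/-- At least the proportion `exp (-k/16)` of the admissible `k`-sets has a prime translate, for all
large `x`, for all `k ≤ (log x)^(κ-δ)`. -/
def SomeHaveK (κ : ℝ) : Prop :=
  open Classical in
  ∀ δ : ℝ, 0 < δ → δ < κ → ∃ x₀ : ℝ, ∀ x : ℝ, x₀ ≤ x → ∀ k : ℕ, 1 ≤ k →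
    (k : ℝ) ≤ (Real.log x) ^ (κ - δ) →
    Real.exp (-(k / 16 : ℝ)) * ((((range (⌊x ^ (1 - δ)⌋₊ + 1)).powersetCard k).filter
      (fun A => Admissible A)).card : ℝ) ≤
      ((((range (⌊x ^ (1 - δ)⌋₊ + 1)).powersetCard k).filter (fun A => Admissible A ∧
        HasPrimeTranslate x A)).card : ℝ)

end Pool.Agent.Lib.H59P
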