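import Pool.Agent.Lib.H59P.Defs

/-!
# Project H59P, part T: definitions for the local factors (helper24)
-/

open Finset

namespace Pool.Agent.Lib.H59P

noncomputable section

/-- The number of classes `n` modulo `l` with `l ∣ n + h_i` for some `i`. -/
def nu {k : ℕ} (l : ℕ) (h : Fin k → ℕ) : ℕ :=
  ((range l).filter (fun n => ∃ i, l ∣ n + h i)).card

/-- The pairs `(i, j)` of indices with `j < i`. -/
def prs (k : ℕ) : Finset (Fin k × Fin k) := univ.filter (fun p => p.2 < p.1)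

/-- The number of pairs `j < i` with `h_i ≡ h_j` modulo `l`. -/
def col {k : ℕ} (l : ℕ) (h : Fin k → ℕ) : ℕ :=
  ((prs k).filter (fun p => (l : ℤ) ∣ (h p.1 : ℤ) - (h p.2 : ℤ))).card

/-- `∑ l^(η-1)` over the primes `l ∣ n` with `w < l ≤ X`. -/
def Fz (η w : ℝ) (X n : ℕ) : ℝ := ∑ l ∈ (pr X).filter (fun l : ℕ => w < (l : ℝ) ∧ l ∣ n), (l : ℝ) ^ (η - 1)

/-- `∑_{j < i} Fz |h_i - h_j|` -/
def GG {k : ℕ} (η w : ℝ) (X : ℕ) (h : Fin k → ℕ) : ℝ :=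
  ∑ p ∈ prs k, Fz η w X ((h p.1 : ℤ) - (h p.2 : ℤ)).natAbs

/-- The product `∏_{l ≤ X} (1 + l^η |tp l h|)` which bounds all tails (Rankin). -/
def RP {k : ℕ} (η : ℝ) (X : ℕ) (h : Fin k → ℕ) : ℝ := ∏ l ∈ pr X, (1 + (l : ℝ) ^ η * |tp l h|)

theorem mem_pr {l X : ℕ} : l ∈ pr X ↔ l ≤ X ∧ l.Prime := by
  unfold pr
  rw [mem_filter, mem_Icc]
  constructor
  · rintro ⟨⟨-, h1⟩, h2⟩
    exact ⟨h1, h2⟩
  · rintro ⟨h1, h2⟩
    exact ⟨⟨h2.one_lt.le, h1⟩, h2⟩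

end

end Pool.Agent.Lib.H59P
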