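import Pool.Agent.Lib.H59P.SDefs
import Pool.Agent.Lib.H68X.XRN
import Pool.Agent.Lib.H68X.XSET

/-!
# Chunk TS (M): from tuples to sets

* `TS_adm`: `h` is admissible in the sense of `Adm` iff its image is admissible. `Adm` at the prime `p`: `n`
  with `p ∤ n + h i`; take `r = -n` in `ZMod p` (`(h i : ZMod p) = -n` iff `p ∣ n + h i`,
  `ZMod.natCast_eq_zero_iff`); conversely `n = (-r).val`.
* `TS_sets`. `SETS_tuples` (`H68T/SetsP.lean`) with `P A = Admissible A ∧ ¬ HasPrimeTranslate x A`: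
  `k! #{bad sets}` is the number of injective `a ∈ [0,H]^k` with `P (image a)`. Such an `a` lies in
  `bx k X` (`H + 1 ≤ X`), it is injective, `Adm a` (`TS_adm`), and there is no `n ∈ [X, 2X)` with all
  `n + a i` prime (else `n` is a translate: `1 ≤ n` as `X ≥ 1`, `n ≤ 2X ≤ x`). So `a ∈ Bad`, and
  `k! #{bad sets} ≤ ξ X^k ≤ ξ lam^k (H+1)^k`, and by `adm_lower` (`H68X/XRN.lean`)
  `(H+1)^k ≤ 2 k^k k! #{admissible sets}`. Divide by `k!`.
-/

open Finset

namespace Pool.Agent.Lib.H59P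

open Pool.Agent.Lib.H68T

theorem TS_adm {k : ℕ} (h : Fin k → ℕ) : Adm h ↔ Admissible (univ.image h) := by
  unfold Adm Admissible
  constructor
  · intro H p hp
    obtain ⟨n, hn⟩ := H p hp
    refine ⟨-(n : ZMod p), fun a ha => ?_⟩
    rw [mem_image] at ha
    obtain ⟨i, -, rfl⟩ := ha
    intro he
    apply hn i
    rw [← ZMod.natCast_eq_zero_iff]
    push_cast
    rw [he]
    ring
  · intro H p hp
    obtain ⟨r, hr⟩ := H p hp
    haveI : NeZero p := ⟨hp.ne_zero⟩
    refine ⟨(-r).val, fun i hd => ?_⟩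
    rw [← ZMod.natCast_eq_zero_iff] at hd
    push_cast at hd
    rw [ZMod.natCast_zmod_val] at hd
    apply hr (h i) (mem_image_of_mem h (mem_univ i))
    calc ((h i : ℕ) : ZMod p) = r + (-r + (h i : ZMod p)) := by ring
      _ = r := by rw [hd, add_zero]

open Classical in
theorem TS_sets (k H X : ℕ) (x ξ lam : ℝ) (hk : 1 ≤ k) (hH : 8 * k ^ 2 * primorial k ≤ H + 1)
    (h1 : H + 1 ≤ X) (h2 : (X : ℝ) ≤ lam * ((H : ℝ) + 1)) (hx : ((2 * X : ℕ) : ℝ) ≤ x) (hξ : 0 ≤ ξ)
    (Bad : Finset (Fin k → ℕ)) (hBad : (Bad.card : ℝ) ≤ ξ * (X : ℝ) ^ k)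
    (hB : ∀ h ∈ bx k X, Function.Injective h → Adm h →
      (∀ n ∈ Ico X (2 * X), ¬ ∀ i, (n + h i).Prime) → h ∈ Bad) :
    ((((range (H + 1)).powersetCard k).filter (fun A => Admissible A ∧
      ¬ HasPrimeTranslate x A)).card : ℝ) ≤
      2 * (lam * k) ^ k * ξ *
        ((((range (H + 1)).powersetCard k).filter (fun A => Admissible A)).card : ℝ) := by
  have hT := SETS_tuples k H (fun A => Admissible A ∧ ¬ HasPrimeTranslate x A)
  have hadm := adm_lower H k hk hH
  set Nb := (((range (H + 1)).powersetCard k).filter (fun A => Admissible A ∧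
      ¬ HasPrimeTranslate x A)).card with hNb
  set Na := (((range (H + 1)).powersetCard k).filter (fun A => Admissible A)).card with hNa
  have hsub : (SETS_Om k H).filter (fun a => Function.Injective a ∧
      (Admissible (univ.image a) ∧ ¬ HasPrimeTranslate x (univ.image a))) ⊆ Bad := by
    intro a ha
    rw [mem_filter] at ha
    obtain ⟨ha1, hinj, hA, hP⟩ := ha
    have ha2 : a ∈ bx k X := by
      unfold bx
      unfold SETS_Om at ha1
      rw [Fintype.mem_piFinset] at ha1 ⊢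
      intro i
      have := ha1 i
      rw [mem_range] at this ⊢
      omega
    refine hB a ha2 hinj ((TS_adm a).mpr hA) ?_
    intro n hn hpr
    rw [mem_Ico] at hn
    apply hP
    refine ⟨n, by omega, ?_, ?_⟩
    · refine le_trans ?_ hx
      exact_mod_cast hn.2.le
    · intro b hb
      rw [mem_image] at hb
      obtain ⟨i, -, rfl⟩ := hb
      exact hpr i
  have hcard := card_le_card hsub
  have hT' : ((SETS_Om k H).filter (fun a => Function.Injective a ∧
      (Admissible (univ.image a) ∧ ¬ HasPrimeTranslate x (univ.image a)))).card = k.factorial * Nb := by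
    refine Eq.trans ?_ (hT.trans ?_)
    · congr 1
      ext a
      simp only [mem_filter]
    · rw [hNb]
      congr 2
      ext A
      simp only [mem_filter]
  rw [hT'] at hcard
  have hcard' : (k.factorial : ℝ) * (Nb : ℝ) ≤ (Bad.card : ℝ) := by exact_mod_cast hcard
  have hfac : (0 : ℝ) < k.factorial := by exact_mod_cast k.factorial_pos
  have hX0 : (0 : ℝ) ≤ X := by positivity
  have h3 : (X : ℝ) ^ k ≤ lam ^ k * ((H : ℝ) + 1) ^ k := by
    rw [← mul_pow]
    exact pow_le_pow_left₀ hX0 h2 k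
  have hlam : 0 ≤ lam := by
    have hHp : (0 : ℝ) < (H : ℝ) + 1 := by positivity
    by_contra hc
    push Not at hc
    have : lam * ((H : ℝ) + 1) < 0 := mul_neg_of_neg_of_pos hc hHp
    linarith
  have hlk : 0 ≤ lam ^ k := pow_nonneg hlam k
  have h4 : (k.factorial : ℝ) * (Nb : ℝ) ≤
      (k.factorial : ℝ) * (2 * (lam * k) ^ k * ξ * (Na : ℝ)) := by
    calc (k.factorial : ℝ) * (Nb : ℝ) ≤ ξ * (X : ℝ) ^ k := hcard'.trans hBad
      _ ≤ ξ * (lam ^ k * ((H : ℝ) + 1) ^ k) := mul_le_mul_of_nonneg_left h3 hξ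
      _ ≤ ξ * (lam ^ k * (2 * (k : ℝ) ^ k * (k.factorial : ℝ) * (Na : ℝ))) :=
          mul_le_mul_of_nonneg_left (mul_le_mul_of_nonneg_left hadm hlk) hξ
      _ = _ := by rw [mul_pow]; ring
  exact le_of_mul_le_mul_left h4 hfac

end Pool.Agent.Lib.H59P
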