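import Pool.Agent.Lib.H59P.TS
import Pool.Agent.Lib.H68T.FINP

/-!
# Chunk TSL (S/M): the sizes needed for the passage to sets

`primorial k ≤ 4^k` (`primorial_le_four_pow`), `k ≤ L^(1-δ)`, `L = log N`: the logarithm of
`8 k^2 4^k` is at most `3 + 2 log L + 2 L^(1-δ) = o(L)`; and `k log (8 k) ≤ L^(1-δ) (log 8 + log L) ≤
L^(1-δ/2)`. `ev_rpow`, `ev_log` of `H68T/FINP.lean` give such inequalities for large `L`; then take
`N0 = ⌈exp L0⌉`.
-/

open Finset

namespace Pool.Agent.Lib.H59P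

open Pool.Agent.Lib.H68T Filter in
theorem tsl_ev (δ : ℝ) (hδ : 0 < δ) (hδ1 : δ < 1) : ∀ᶠ L : ℝ in atTop,
    1 ≤ L ∧ 3 + 2 * Real.log L + 2 * L ^ (1 - δ) ≤ L ∧
    L ^ (1 - δ) * (3 + Real.log L) ≤ L ^ (1 - δ / 2) := by
  filter_upwards [eventually_ge_atTop (12 : ℝ), ev_log 8 1 one_pos, ev_rpow 4 (1 - δ) 1 (by linarith),
    ev_log 2 (δ / 2) (by linarith), ev_rpow 6 0 (δ / 2) (by linarith)] with L h1 h2 h3 h4 h5
  have hL : 0 < L := by linarith
  rw [Real.rpow_zero] at h5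
  rw [Real.rpow_one] at h2 h3
  refine ⟨by linarith, by linarith, ?_⟩
  calc L ^ (1 - δ) * (3 + Real.log L) ≤ L ^ (1 - δ) * L ^ (δ / 2) :=
        mul_le_mul_of_nonneg_left (by linarith) (Real.rpow_nonneg hL.le _)
    _ = L ^ (1 - δ / 2) := by rw [← Real.rpow_add hL]; ring_nf

theorem TSL_large (δ : ℝ) (hδ : 0 < δ) (hδ1 : δ < 1) : ∃ N0 : ℕ, ∀ N k : ℕ, N0 ≤ N →
    (k : ℝ) ≤ (Real.log N) ^ (1 - δ) →
    8 * k ^ 2 * primorial k ≤ N ∧ (8 * (k : ℝ)) ^ k ≤ Real.exp ((Real.log N) ^ (1 - δ / 2)) := by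
  obtain ⟨L0, hL0⟩ := Filter.eventually_atTop.mp (tsl_ev δ hδ hδ1)
  refine ⟨⌈Real.exp L0⌉₊, fun N k hN hk => ?_⟩
  have hXe : Real.exp L0 ≤ (N : ℝ) := (Nat.le_ceil _).trans (by exact_mod_cast hN)
  have hXpos : (0 : ℝ) < N := (Real.exp_pos _).trans_le hXe
  have hLL : L0 ≤ Real.log N := by
    rw [Real.le_log_iff_exp_le hXpos]
    exact hXe
  obtain ⟨h1, h2, h3⟩ := hL0 (Real.log N) hLL
  have hNL : (N : ℝ) = Real.exp (Real.log N) := (Real.exp_log hXpos).symm
  set L := Real.log (N : ℝ) with hLdef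
  have hL : 0 < L := by linarith
  rcases Nat.eq_zero_or_pos k with rfl | hkpos
  · constructor
    · simp
    · simp only [pow_zero]
      exact Real.one_le_exp (Real.rpow_nonneg hL.le _)
  have hk1 : (1 : ℝ) ≤ k := by exact_mod_cast hkpos
  have hkL : (k : ℝ) ≤ L := by
    refine hk.trans ?_
    calc L ^ (1 - δ) ≤ L ^ (1 : ℝ) := Real.rpow_le_rpow_of_exponent_le h1 (by linarith)
      _ = L := Real.rpow_one _
  have hlogk : Real.log k ≤ Real.log L := Real.log_le_log (by linarith) hkL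
  have hlogk0 : 0 ≤ Real.log k := Real.log_nonneg hk1
  have hlog8 : Real.log 8 ≤ 3 := by
    have e : Real.log 8 = 3 * Real.log 2 := by
      rw [show (8 : ℝ) = 2 ^ (3 : ℕ) by norm_num, Real.log_pow]
      norm_num
    have := Real.log_two_lt_d9
    rw [e]
    linarith
  have hlog4 : Real.log 4 ≤ 2 := by
    have e : Real.log 4 = 2 * Real.log 2 := by
      rw [show (4 : ℝ) = 2 ^ (2 : ℕ) by norm_num, Real.log_pow]
      norm_num
    have := Real.log_two_lt_d9
    rw [e]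
    linarith
  constructor
  · have e1 : 8 * k ^ 2 * primorial k ≤ 8 * k ^ 2 * 4 ^ k :=
      Nat.mul_le_mul_left _ (primorial_le_four_pow k)
    have e2 : ((8 * k ^ 2 * 4 ^ k : ℕ) : ℝ) ≤ N := by
      push_cast
      have a1 : (8 : ℝ) * (k : ℝ) ^ 2 * 4 ^ k =
          Real.exp (Real.log 8 + 2 * Real.log k + k * Real.log 4) := by
        rw [Real.exp_add, Real.exp_add, Real.exp_log (by norm_num), two_mul, Real.exp_add,
          Real.exp_log (by linarith), Real.exp_nat_mul, Real.exp_log (by norm_num)]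
        ring
      rw [a1, hNL]
      apply Real.exp_le_exp.mpr
      have a2 : (k : ℝ) * Real.log 4 ≤ L ^ (1 - δ) * 2 :=
        mul_le_mul hk hlog4 (Real.log_nonneg (by norm_num)) (Real.rpow_nonneg hL.le _)
      linarith
    exact e1.trans (by exact_mod_cast e2)
  · have a1 : (8 * (k : ℝ)) ^ k = Real.exp (k * Real.log (8 * k)) := by
      rw [Real.exp_nat_mul, Real.exp_log (by positivity)]
    rw [a1]
    apply Real.exp_le_exp.mpr
    rw [Real.log_mul (by norm_num) (by positivity)]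
    refine le_trans ?_ h3
    exact mul_le_mul hk (by linarith) (add_nonneg (Real.log_nonneg (by norm_num)) hlogk0)
      (Real.rpow_nonneg hL.le _)

end Pool.Agent.Lib.H59P
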