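import Pool.Agent.Lib.H59P.SDefs
import Pool.Agent.Lib.H59P.M5
import Pool.Agent.Lib.H59C.LSB

/-!
# Project H59P, chunk X1a
-/

open Finset

namespace Pool.Agent.Lib.H59P

open Pool.Agent.Lib.H68T Pool.Agent.Lib.H18Q

theorem x1a_parseval (r : ℕ) [NeZero r] (f : ZMod r → ℂ) :
    ∑ m : ZMod r, ‖∑ b, (ZMod.stdAddChar (b * m) : ℂ) * f b‖ ^ 2 = (r : ℝ) * ∑ b, ‖f b‖ ^ 2 := by
  classical
  refine Pool.Agent.Lib.H59C.lsb_parseval (fun (m b : ZMod r) => (ZMod.stdAddChar (b * m) : ℂ)) (r : ℝ) ?_ f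
  intro b b'
  have h2 := AddChar.sum_mulShift (b' - b) (ZMod.isPrimitive_stdAddChar r)
  rw [ZMod.card] at h2
  have h3 : ∀ x : ZMod r, (starRingEnd ℂ) (ZMod.stdAddChar (b * x) : ℂ) *
      ZMod.stdAddChar (b' * x) = ZMod.stdAddChar (x * (b' - b)) := by
    intro x
    rw [← AddChar.map_neg_eq_conj, ← AddChar.map_add_eq_mul]
    congr 1
    ring
  rw [sum_congr rfl fun x _ => h3 x, h2]
  by_cases hb : b = b'
  · rw [if_pos hb, if_pos (by rw [hb, sub_self])]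
    norm_cast
  · rw [if_neg hb, if_neg (by rw [sub_eq_zero]; exact fun h => hb h.symm)]
    norm_cast

theorem x1a_gauss (r : ℕ) [NeZero r] (χ : DirichletCharacter ℂ r) (hχ : χ.IsPrimitive) (m : ZMod r) :
    ‖∑ b, (ZMod.stdAddChar (b * m) : ℂ) * χ b‖ ^ 2 ≤ r := by
  have h4 : ‖∑ b, (ZMod.stdAddChar (b * m) : ℂ) * χ b‖ ^ 2 =
      ‖χ⁻¹ m‖ ^ 2 * ‖gaussSum χ (ZMod.stdAddChar (N := r))‖ ^ 2 := by
    rw [← mul_pow, ← norm_mul, ← gaussSum_mulShift_of_isPrimitive _ hχ, gaussSum]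
    congr 2
    refine sum_congr rfl fun b _ => ?_
    rw [AddChar.mulShift_apply, mul_comm, mul_comm b]
  rw [h4, Pool.Agent.Lib.H59C.lsb_gauss r hχ]
  have h5 : ‖χ⁻¹ m‖ ≤ 1 := χ⁻¹.norm_le_one m
  have h6 : ‖χ⁻¹ m‖ ^ 2 ≤ 1 := pow_le_one₀ (norm_nonneg _) h5
  have h7 : (0 : ℝ) ≤ r := Nat.cast_nonneg r
  nlinarith

/-- **X1a.** For a primitive character modulo `r`: `∑_{t mod r} |∑_{s mod r} χ(s) conj χ(s+t)|² ≤ r^3`.

Proof. By Parseval the autocorrelation `c(t) = ∑_s χ(s) conj χ(s+t)` has Fourier transform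
`|χ^(ξ)|²`, and `|χ^(ξ)|² = |χ(ξ)|² |τ|² ≤ r` (`lsb_gauss`, `gaussSum_mulShift_of_isPrimitive`; primitivity), so
`∑_t |c(t)|² = (1/r) ∑_ξ |χ^(ξ)|^4 ≤ (1/r) r · r² = r²`... (so even `≤ r^2 · 1`; any bound `≤ r^3 / r` is fine:
the statement is with `r ^ 2`). Or `c(t)` is a Ramanujan sum. -/
theorem X1a (r : ℕ) [NeZero r] (χ : DirichletCharacter ℂ r) (hχ : χ.IsPrimitive) :
    ∑ t : ZMod r, ‖∑ s : ZMod r, χ s * (starRingEnd ℂ) (χ (s + t))‖ ^ 2 ≤ (r : ℝ) ^ 2 := by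
  classical
  have hr : (0 : ℝ) < r := by exact_mod_cast NeZero.pos r
  have h1 := x1a_parseval r (fun t => ∑ s : ZMod r, χ s * (starRingEnd ℂ) (χ (s + t)))
  have h2 : ∀ m : ZMod r, ‖∑ b : ZMod r, (ZMod.stdAddChar (b * m) : ℂ) *
      ∑ s : ZMod r, χ s * (starRingEnd ℂ) (χ (s + b))‖ ^ 2 ≤ (r : ℝ) ^ 2 := by
    intro m
    have e1 : ∑ b : ZMod r, (ZMod.stdAddChar (b * m) : ℂ) *
        ∑ s : ZMod r, χ s * (starRingEnd ℂ) (χ (s + b)) =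
        (∑ s : ZMod r, (ZMod.stdAddChar (s * (-m)) : ℂ) * χ s) *
          (starRingEnd ℂ) (∑ u : ZMod r, (ZMod.stdAddChar (u * (-m)) : ℂ) * χ u) := by
      rw [map_sum, sum_mul_sum]
      simp_rw [mul_sum]
      rw [sum_comm]
      refine sum_congr rfl fun s _ => ?_
      rw [← Equiv.sum_comp (Equiv.addLeft s)
        (fun u => (ZMod.stdAddChar (s * -m) : ℂ) * χ s *
          (starRingEnd ℂ) ((ZMod.stdAddChar (u * -m) : ℂ) * χ u))]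
      refine sum_congr rfl fun b _ => ?_
      rw [Equiv.coe_addLeft, map_mul (starRingEnd ℂ)]
      dsimp only
      rw [← AddChar.map_neg_eq_conj]
      have e2 : (ZMod.stdAddChar (b * m) : ℂ) =
          ZMod.stdAddChar (s * -m) * ZMod.stdAddChar (-((s + b) * -m)) := by
        rw [← AddChar.map_add_eq_mul]
        congr 1
        ring
      rw [e2]
      ring
    rw [e1, norm_mul, RCLike.norm_conj, ← sq, ← pow_mul]
    have e3 := x1a_gauss r χ hχ (-m)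
    calc ‖∑ s : ZMod r, (ZMod.stdAddChar (s * (-m)) : ℂ) * χ s‖ ^ (2 * 2)
        = (‖∑ s : ZMod r, (ZMod.stdAddChar (s * (-m)) : ℂ) * χ s‖ ^ 2) ^ 2 := by rw [pow_mul]
      _ ≤ (r : ℝ) ^ 2 := pow_le_pow_left₀ (sq_nonneg _) e3 2
  have h3 : (r : ℝ) * ∑ t : ZMod r, ‖∑ s : ZMod r, χ s * (starRingEnd ℂ) (χ (s + t))‖ ^ 2 ≤
      (r : ℝ) * (r : ℝ) ^ 2 := by
    rw [← h1]
    refine (sum_le_sum fun m _ => h2 m).trans ?_
    rw [sum_const, card_univ, ZMod.card, nsmul_eq_mul]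
  exact le_of_mul_le_mul_left h3 hr

end Pool.Agent.Lib.H59P
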