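import Pool.Agent.Lib.H59P.X2A
import Pool.Agent.Lib.H59P.X1
import Pool.Agent.Lib.H59P.C3
import Pool.Agent.Lib.H59P.M5B
import Pool.Agent.Lib.H59P.M3A

/-!
# Project H59P, chunk X2
-/

open Finset

namespace Pool.Agent.Lib.H59P

open Pool.Agent.Lib.H68T Pool.Agent.Lib.H18Q

theorem x2_SS_nonneg {k : ℕ} (P : Finset ℕ) (hP : ∀ l ∈ P, l.Prime) (h : Fin k → ℕ) :
    0 ≤ SS P h :=
  Finset.prod_nonneg fun l hl => (M3a_tp l (hP l hl) h 0).2.2.1

theorem x2_mem_pr {Q l : ℕ} : l ∈ pr Q ↔ l.Prime ∧ l ≤ Q := by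
  unfold pr
  rw [Finset.mem_filter, Finset.mem_Icc]
  constructor
  · rintro ⟨⟨_, h2⟩, h3⟩
    exact ⟨h3, h2⟩
  · rintro ⟨h1, h2⟩
    exact ⟨⟨h1.one_lt.le, h2⟩, h1⟩

/-- **X2.** Proof. `SS (pr Q) h = SS (primes ∣ r) h · SS (primes ∤ r) h` and `MR (pB px ∅) r h = SS (primes ∣ r) h`
(`M5_loc`). By `X2a`, `PM ≥ SS (primes ∤ r) (SS (primes ∣ r) - ∑_{B ≠ ∅} ‖MR (pB px B) r h‖)`
(`|th_i| ≤ 1`), and the sum is at most `2^k` times the maximum. -/
theorem X2 {k : ℕ} (Q : ℕ) (px : Ch) (hpx : px ∈ PC Q) (hreal : px.2 ^ 2 = 1) (th : Fin k → ℝ)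
    (hth0 : ∀ i, 0 ≤ th i) (hth : ∀ i, th i ≤ 1) (h : Fin k → ℕ)
    (hm : ∀ B : Finset (Fin k), B.Nonempty →
      2 ^ (k + 1) * ‖MR (pB px B) px.1 h‖ ≤ SS px.1.primeFactors h) :
    1 / 2 * SS (pr Q) h ≤ PM Q px th h := by
  classical
  have hpc := mem_PC.mp hpx
  have hr : 0 < px.1 := hpc.1
  set S : ℝ := SS px.1.primeFactors h with hS
  set S' : ℝ := SS ((pr Q).filter (fun l => ¬ l ∣ px.1)) h with hS'
  have hS0 : 0 ≤ S := x2_SS_nonneg _ (fun l hl => Nat.prime_of_mem_primeFactors hl) h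
  have hS'0 : 0 ≤ S' := x2_SS_nonneg _ (fun l hl => (x2_mem_pr.mp (Finset.mem_filter.mp hl).1).1) h
  have hsplit : SS (pr Q) h = S * S' := by
    have h1 : (pr Q).filter (fun l => l ∣ px.1) = px.1.primeFactors := by
      ext l
      rw [Finset.mem_filter, x2_mem_pr, Nat.mem_primeFactors]
      constructor
      · rintro ⟨⟨h1, _⟩, h3⟩
        exact ⟨h1, h3, hr.ne'⟩
      · rintro ⟨h1, h3, _⟩
        exact ⟨⟨h1, (Nat.le_of_dvd hr h3).trans hpc.2.1⟩, h3⟩
    rw [hS, hS', ← h1]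
    unfold SS
    exact (Finset.prod_filter_mul_prod_filter_not (pr Q) (fun l => l ∣ px.1)
      (fun l => 1 + tp l h)).symm
  have hempty : MR (pB px (∅ : Finset (Fin k))) px.1 h = ((S : ℝ) : ℂ) := by
    have h1 : (pB px (∅ : Finset (Fin k))) = fun _ => p0 := by
      funext i
      simp [pB]
    rw [h1]
    exact M5_loc px.1 hr h
  have hX := X2a Q px hpx hreal th h
  -- take real parts
  set E : Finset (Fin k) → ℂ := fun B => ((∏ i ∈ B, -(th i) : ℝ) : ℂ) * MR (pB px B) px.1 h with hE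
  have hX' : ((PM Q px th h : ℝ) : ℂ) = (∑ B ∈ (univ : Finset (Fin k)).powerset, E B) * (S' : ℂ) := by
    rw [hX, Finset.sum_mul]
    refine Finset.sum_congr rfl fun B _ => ?_
    simp only [hE]
    ring
  have hne : (∅ : Finset (Fin k)) ∈ (univ : Finset (Fin k)).powerset := by simp
  rw [← Finset.add_sum_erase _ E hne] at hX'
  have hE0 : E ∅ = ((S : ℝ) : ℂ) := by
    simp only [hE, Finset.prod_empty, hempty]
    simp
  rw [hE0] at hX'
  have hre : PM Q px th h = (S + (∑ B ∈ (univ : Finset (Fin k)).powerset.erase ∅, E B).re) * S' := by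
    have h1 := congrArg Complex.re hX'
    rw [Complex.ofReal_re, Complex.re_mul_ofReal, Complex.add_re, Complex.ofReal_re] at h1
    exact h1
  have hbound : ‖∑ B ∈ (univ : Finset (Fin k)).powerset.erase ∅, E B‖ ≤ S / 2 := by
    refine (norm_sum_le _ _).trans ?_
    have h1 : ∀ B ∈ (univ : Finset (Fin k)).powerset.erase ∅, ‖E B‖ ≤ S / 2 ^ (k + 1) := by
      intro B hB
      have hBn : B.Nonempty := Finset.nonempty_iff_ne_empty.mpr (Finset.mem_erase.mp hB).1
      simp only [hE]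
      rw [norm_mul, Complex.norm_real]
      have h2 : ‖(∏ i ∈ B, -(th i) : ℝ)‖ ≤ 1 := by
        rw [norm_prod]
        refine Finset.prod_le_one (fun i _ => norm_nonneg _) fun i _ => ?_
        rw [norm_neg, Real.norm_eq_abs, abs_of_nonneg (hth0 i)]
        exact hth i
      have h3 := hm B hBn
      have h4 : ‖MR (pB px B) px.1 h‖ ≤ S / 2 ^ (k + 1) := by
        rw [le_div_iff₀ (by positivity), mul_comm]
        exact h3
      calc ‖(∏ i ∈ B, -(th i) : ℝ)‖ * ‖MR (pB px B) px.1 h‖ ≤ 1 * ‖MR (pB px B) px.1 h‖ :=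
            mul_le_mul_of_nonneg_right h2 (norm_nonneg _)
        _ ≤ S / 2 ^ (k + 1) := by rw [one_mul]; exact h4
    refine (Finset.sum_le_sum h1).trans ?_
    rw [Finset.sum_const, nsmul_eq_mul]
    have h5 : (((univ : Finset (Fin k)).powerset.erase ∅).card : ℝ) ≤ 2 ^ k := by
      have h6 : ((univ : Finset (Fin k)).powerset.erase ∅).card ≤
          (univ : Finset (Fin k)).powerset.card := Finset.card_erase_le
      rw [Finset.card_powerset, Finset.card_univ, Fintype.card_fin] at h6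
      exact_mod_cast h6
    have h7 : 0 ≤ S / 2 ^ (k + 1) := by positivity
    calc (((univ : Finset (Fin k)).powerset.erase ∅).card : ℝ) * (S / 2 ^ (k + 1))
        ≤ 2 ^ k * (S / 2 ^ (k + 1)) := mul_le_mul_of_nonneg_right h5 h7
      _ = S / 2 := by rw [pow_succ]; field_simp
  have hre2 : -(S / 2) ≤ (∑ B ∈ (univ : Finset (Fin k)).powerset.erase ∅, E B).re := by
    have h1 := Complex.abs_re_le_norm (∑ B ∈ (univ : Finset (Fin k)).powerset.erase ∅, E B)
    have h2 := (abs_le.mp (h1.trans hbound)).1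
    exact h2
  rw [hre, hsplit]
  have h3 : S / 2 * S' ≤
      (S + (∑ B ∈ (univ : Finset (Fin k)).powerset.erase ∅, E B).re) * S' :=
    mul_le_mul_of_nonneg_right (by linarith) hS'0
  linarith

end Pool.Agent.Lib.H59P
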