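import Pool.Agent.Lib.H59P.X1
import Pool.Agent.Lib.H59P.C3

/-!
# Project H59P, chunk X2a
-/

open Finset

namespace Pool.Agent.Lib.H59P

open Pool.Agent.Lib.H68T Pool.Agent.Lib.H18Q

theorem x2a_p0 (m : ℤ) : cj p0 m = 1 := cl1_p0_one m

theorem x2a_real (px : Ch) (hreal : px.2 ^ 2 = 1) (m : ℤ) : (((cj px m).re : ℝ) : ℂ) = cj px m := by
  unfold cj
  by_cases hu : IsUnit (m : ZMod px.1)
  · have h1 : px.2 (m : ZMod px.1) ^ 2 = 1 := by
      have h2 : (px.2 ^ 2) (m : ZMod px.1) = (1 : DirichletCharacter ℂ px.1) (m : ZMod px.1) := by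
        rw [hreal]
      rw [MulChar.one_apply hu] at h2
      rw [← h2, MulChar.pow_apply' _ two_ne_zero]
    have h3 : px.2 (m : ZMod px.1) = 1 ∨ px.2 (m : ZMod px.1) = -1 := by
      have h4 : (px.2 (m : ZMod px.1) - 1) * (px.2 (m : ZMod px.1) + 1) = 0 := by linear_combination h1
      rcases mul_eq_zero.1 h4 with h5 | h5
      · left; linear_combination h5
      · right; linear_combination h5
    rcases h3 with h | h
    all_goals rw [h]; simp
  · rw [MulChar.map_nonunit _ hu]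
    simp

/-- The expansion of the main term. Proof. `∏_i (1 - th_i ψ) = ∑_B ∏_{i∈B} (-th_i) ψ(n+h_i)` (`Finset.prod_add` or
`Finset.prod_one_sub`…), and `M5` with `R = px.1` (`px.1 ∣ Q!`). -/
theorem X2a {k : ℕ} (Q : ℕ) (px : Ch) (hpx : px ∈ PC Q) (hreal : px.2 ^ 2 = 1) (th : Fin k → ℝ)
    (h : Fin k → ℕ) :
    ((PM Q px th h : ℝ) : ℂ) = ∑ B ∈ (univ : Finset (Fin k)).powerset,
      ((∏ i ∈ B, -(th i) : ℝ) : ℂ) * (MR (pB px B) px.1 h *
        ((SS ((pr Q).filter (fun l => ¬ l ∣ px.1)) h : ℝ) : ℂ)) := by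
  classical
  obtain ⟨hr1, hrQ, hprim⟩ := mem_PC.1 hpx
  have h1 : ∀ B : Finset (Fin k), MR (pB px B) px.1 h *
        ((SS ((pr Q).filter (fun l => ¬ l ∣ px.1)) h : ℝ) : ℂ) = MQ Q (pB px B) h := by
    intro B
    refine M5 Q px.1 (by omega) (Nat.dvd_factorial (by omega) hrQ) (pB px B) ?_ h
    intro i
    unfold pB
    split_ifs
    · exact dvd_rfl
    · exact one_dvd _
  rw [sum_congr rfl fun B _ => by rw [h1 B]]
  have h2 : ∀ n : ℤ, ((fP Q px th h n : ℝ) : ℂ) = ∑ B ∈ (univ : Finset (Fin k)).powerset,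
      ((∏ i ∈ B, -(th i) : ℝ) : ℂ) * Ph (pB px B) (pr Q) h n := by
    intro n
    unfold fP
    rw [Complex.ofReal_prod]
    have e1 : ∀ i : Fin k, ((uu (pr Q) (n + h i) * (1 - th i * (cj px (n + h i)).re) : ℝ) : ℂ) =
        ((uu (pr Q) (n + h i) : ℝ) : ℂ) * ((((-(th i) : ℝ)) : ℂ) * cj px (n + h i) + 1) := by
      intro i
      push_cast
      rw [x2a_real px hreal]
      ring
    rw [prod_congr rfl fun i _ => e1 i, prod_mul_distrib, Finset.prod_add, mul_sum]
    refine sum_congr rfl fun B hB => ?_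
    unfold Ph
    rw [prod_mul_distrib, prod_mul_distrib, prod_const_one, mul_one, Complex.ofReal_prod]
    have e2 : ∏ i, cj (pB px B i) (n + h i) = ∏ i ∈ B, cj px (n + h i) := by
      rw [← prod_subset (subset_univ B)]
      · refine prod_congr rfl fun i hi => ?_
        unfold pB
        rw [if_pos hi]
      · intro i _ hi
        unfold pB
        rw [if_neg hi, x2a_p0]
    rw [e2]
    ring
  unfold PM MQ
  rw [Complex.ofReal_div, Complex.ofReal_sum, sum_congr rfl fun (n : ℕ) _ => h2 (n : ℤ), sum_comm,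
    sum_div]
  refine sum_congr rfl fun B _ => ?_
  rw [← mul_sum, mul_div_assoc]
  norm_cast

end Pool.Agent.Lib.H59P
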