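import Pool.Agent.Lib.H59P.YDefs
import Pool.Agent.Lib.H59P.C3A
import Pool.Agent.Lib.H59P.M5

/-!
# Project H59P, chunk Y1: lower bound for the main term, any admissible tuple
-/

open Finset

namespace Pool.Agent.Lib.H59P

open Pool.Agent.Lib.H68T Pool.Agent.Lib.H18Q

/-- **Y1.** Proof. `fP = ∏ uu (1 - th_i ψ) ≥ ∏ uu · η^k` pointwise (`1 - th_i ψ ≥ 1 - th_i ≥ η`, `C3a`,
`M3a_uu_nonneg`), so `PM ≥ η^k SS (pr Q) h` (`M5_SS`), `TLow`. -/
theorem Y1 (c0 : ℝ) (hlow : TLow c0) {k : ℕ} (Q : ℕ) (px : Ch) (hreal : px.2 ^ 2 = 1) (η : ℝ)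
    (hη : 0 < η) (th : Fin k → ℝ) (h0 : ∀ i, 0 ≤ th i) (h1 : ∀ i, th i ≤ 1 - η) (h : Fin k → ℕ)
    (hA : Adm h) : η ^ k * Real.exp (-(c0 * k)) ≤ PM Q px th h := by
  have hpr : ∀ l ∈ pr Q, l.Prime := fun l hl => (Finset.mem_filter.mp hl).2
  have hQ0 : (0 : ℝ) < (Q.factorial : ℝ) := by exact_mod_cast Nat.factorial_pos Q
  have hS := hlow k h hA (pr Q) hpr
  have hpt : ∀ n : ℕ, η ^ k * ∏ i, uu (pr Q) ((n : ℤ) + h i) ≤ fP Q px th h (n : ℤ) := by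
    intro n
    have e1 : η ^ k * ∏ i, uu (pr Q) ((n : ℤ) + h i) = ∏ i : Fin k, (uu (pr Q) ((n : ℤ) + h i) * η) := by
      rw [Finset.prod_mul_distrib, Finset.prod_const, Finset.card_univ, Fintype.card_fin, mul_comm]
    rw [e1]
    unfold fP
    refine Finset.prod_le_prod (fun i _ => mul_nonneg (M3a_uu_nonneg _ hpr _) hη.le) (fun i _ => ?_)
    refine mul_le_mul_of_nonneg_left ?_ (M3a_uu_nonneg _ hpr _)
    have hc := (C3a px hreal ((n : ℤ) + h i)).2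
    have h2 := (abs_le.mp hc).2
    have h3 := mul_le_mul_of_nonneg_left h2 (h0 i)
    linarith [h1 i]
  have hsum : η ^ k * SS (pr Q) h ≤ PM Q px th h := by
    rw [← M5_SS Q h]
    unfold PM
    rw [← mul_div_assoc]
    refine div_le_div_of_nonneg_right ?_ hQ0.le
    rw [Finset.mul_sum]
    exact Finset.sum_le_sum fun n _ => hpt n
  exact (mul_le_mul_of_nonneg_left hS (pow_nonneg hη.le k)).trans hsum

end Pool.Agent.Lib.H59P
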