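import Pool.Agent.Lib.H59P.Y3A

/-!
# Project H59P, chunk Y7: tuples, arbitrarily large N, full range of k
-/

open Finset

namespace Pool.Agent.Lib.H59P

open Pool.Agent.Lib.H68T Pool.Agent.Lib.H18Q

/-- all conditions on `L = log N` -/
theorem y7_large (C c0 ε δ : ℝ) (hC : 1 ≤ C) (hε : 0 < ε) (hδ : 0 < δ) :
    ∀ᶠ L : ℝ in Filter.atTop, 4 ≤ L ∧ 1 ≤ Real.log L ∧ 2 * C * Real.log L ≤ L ^ (δ / 8) ∧
      (2 + |c0|) * C * Real.log L ≤ ε * L ^ δ := by
  have hC0 : 0 < C := by linarith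
  have h1 : ∀ᶠ L : ℝ in Filter.atTop, 4 ≤ L := Filter.eventually_ge_atTop 4
  have h2 : ∀ᶠ L : ℝ in Filter.atTop, 1 ≤ Real.log L :=
    Real.tendsto_log_atTop.eventually_ge_atTop 1
  have h3 := (isLittleO_log_rpow_atTop (r := δ / 8) (by positivity)).bound
    (c := 1 / (2 * C)) (by positivity)
  have hc : 0 < (2 + |c0|) * C := by
    have := abs_nonneg c0
    positivity
  have h4 := (isLittleO_log_rpow_atTop (r := δ) hδ).bound
    (c := ε / ((2 + |c0|) * C)) (by positivity)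
  filter_upwards [h1, h2, h3, h4] with L a1 a2 a3 a4
  have hL : 0 < L := by linarith
  rw [Real.norm_of_nonneg (by linarith), Real.norm_of_nonneg (Real.rpow_nonneg hL.le _)] at a3 a4
  refine ⟨a1, a2, ?_, ?_⟩
  · have := mul_le_mul_of_nonneg_left a3 (by positivity : (0 : ℝ) ≤ 2 * C)
    calc 2 * C * Real.log L ≤ 2 * C * (1 / (2 * C) * L ^ (δ / 8)) := this
      _ = L ^ (δ / 8) := by field_simp
  · have := mul_le_mul_of_nonneg_left a4 hc.le
    calc (2 + |c0|) * C * Real.log L ≤ (2 + |c0|) * C * (ε / ((2 + |c0|) * C) * L ^ δ) := this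
      _ = ε * L ^ δ := by field_simp

/-- **Y7.** Proof. `AGood` with `K'` of `Y3a`; `k (log N)^(-2) 4 ≤ 1` since `k ≤ log N`; `log Q ≥ log N/(C log log N) ≥
(log X)^(1-δ/8)`; `Y3a` with `η = 1`: `4 Q^(-ε) ≤ e^(-c0 k)` since `k ≤ (log N)^(1-δ)`. -/
theorem Y7 (hF : FMain) (hT : TMain) (hA : AGood) (c0 : ℝ) (hlow : TLow c0) (δ : ℝ)
    (hδ : 0 < δ) (hδ1 : δ < 1) :
    ∃ ε : ℝ, 0 < ε ∧ ∀ N0 : ℕ, ∃ N : ℕ, N0 ≤ N ∧ ∀ k : ℕ, 1 ≤ k →
      (k : ℝ) ≤ (Real.log N) ^ (1 - δ) →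
      ∃ (X : ℕ) (Bad : Finset (Fin k → ℕ)), N ≤ X ∧ X ≤ 2 * N ∧ Good' X Bad ∧
        (Bad.card : ℝ) ≤ (X : ℝ) ^ k *
          Real.exp (-(ε * (Real.log N / Real.log (Real.log N)))) := by
  obtain ⟨ε, K, hε, hK, X0, hY⟩ := Y3a hF hT c0 hlow δ hδ hδ1
  obtain ⟨C, hC, hAg⟩ := hA
  have hC0 : 0 < C := by linarith
  refine ⟨ε / C, by positivity, ?_⟩
  intro N0
  have hev := (Real.tendsto_log_atTop.comp (tendsto_natCast_atTop_atTop (R := ℝ))).eventually
    (y7_large C c0 ε δ hC hε hδ)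
  obtain ⟨N1, hN1⟩ := Filter.eventually_atTop.mp hev
  obtain ⟨N, hN, Q, H, hNX, hX2, hReg, hlog, hM⟩ := hAg K (max N0 (max N1 X0))
  refine ⟨N, (le_max_left _ _).trans hN, ?_⟩
  intro k hk hkN
  have hNN1 : N1 ≤ N := (le_max_left _ _).trans ((le_max_right _ _).trans hN)
  have hNX0 : X0 ≤ N := (le_max_right _ _).trans ((le_max_right _ _).trans hN)
  obtain ⟨c1, c2, c3, c4⟩ := hN1 N hNN1
  simp only [Function.comp] at c1 c2 c3 c4
  set L := Real.log N with hL
  have hL0 : 0 < L := by linarith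
  have hL1 : 1 ≤ L := by linarith
  set X := H * Q ^ 8 with hX
  have hNpos : 0 < N := by
    rcases Nat.eq_zero_or_pos N with h0 | h0
    · rw [hL, h0] at hL0
      simp at hL0
    · exact h0
  have hNr : (0 : ℝ) < N := by exact_mod_cast hNpos
  have hNXr : (N : ℝ) ≤ X := by exact_mod_cast hNX
  have hXr : (0 : ℝ) < X := by linarith
  have hLX : L ≤ Real.log X := Real.log_le_log hNr hNXr
  have hLX2 : Real.log X ≤ 2 * L := by
    have h1 : (X : ℝ) ≤ 2 * N := by exact_mod_cast hX2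
    have h2 : Real.log X ≤ Real.log (2 * N) := Real.log_le_log hXr h1
    rw [Real.log_mul (by norm_num) hNr.ne'] at h2
    have h3 : Real.log 2 ≤ 1 := by
      have := Real.log_two_lt_d9
      linarith
    linarith
  have hlQ : 0 ≤ Real.log Q := by
    by_contra hneg
    push Not at hneg
    have : C * Real.log L * Real.log Q ≤ 0 :=
      mul_nonpos_of_nonneg_of_nonpos (by positivity) hneg.le
    linarith
  have hCl : 0 < C * Real.log L := by positivity
  -- powers of `L`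
  have hp1 : L ^ (1 - δ / 8) * L ^ (δ / 8) = L := by
    rw [← Real.rpow_add hL0]
    simp
  have hp2 : L ^ (1 - δ) * L ^ δ = L := by
    rw [← Real.rpow_add hL0]
    simp
  have hP1 : 0 < L ^ (1 - δ / 8) := Real.rpow_pos_of_pos hL0 _
  have hP2 : 0 < L ^ (1 - δ) := Real.rpow_pos_of_pos hL0 _
  -- (ii)
  have hii : (Real.log X) ^ (1 - δ / 8) ≤ Real.log Q := by
    have e1 : (Real.log X) ^ (1 - δ / 8) ≤ (2 * L) ^ (1 - δ / 8) :=
      Real.rpow_le_rpow (by linarith) hLX2 (by linarith)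
    have e2 : (2 * L) ^ (1 - δ / 8) ≤ 2 * L ^ (1 - δ / 8) := by
      rw [Real.mul_rpow (by norm_num) hL0.le]
      refine mul_le_mul_of_nonneg_right ?_ hP1.le
      calc (2 : ℝ) ^ (1 - δ / 8) ≤ (2 : ℝ) ^ (1 : ℝ) :=
            Real.rpow_le_rpow_of_exponent_le (by norm_num) (by linarith)
        _ = 2 := Real.rpow_one _
    have e3 : (C * Real.log L) * (2 * L ^ (1 - δ / 8)) ≤ (C * Real.log L) * Real.log Q := by
      calc (C * Real.log L) * (2 * L ^ (1 - δ / 8)) = L ^ (1 - δ / 8) * (2 * C * Real.log L) := by ring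
        _ ≤ L ^ (1 - δ / 8) * L ^ (δ / 8) := mul_le_mul_of_nonneg_left c3 hP1.le
        _ = L := hp1
        _ ≤ (C * Real.log L) * Real.log Q := hlog
    exact e1.trans (e2.trans (le_of_mul_le_mul_left e3 hCl))
  have hkL : (k : ℝ) ≤ L ^ (1 - δ) := hkN
  have hkX : (k : ℝ) ≤ (Real.log X) ^ (1 - δ) :=
    hkL.trans (Real.rpow_le_rpow hL0.le hLX (by linarith))
  have hk1 : (1 : ℝ) ≤ k := by exact_mod_cast hk
  have hkL1 : (k : ℝ) ≤ L := by
    refine hkL.trans ?_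
    calc L ^ (1 - δ) ≤ L ^ (1 : ℝ) := Real.rpow_le_rpow_of_exponent_le hL1 (by linarith)
      _ = L := Real.rpow_one _
  -- (iii)
  have hiii : 4 * k * L ^ (-(2 : ℝ)) ≤ 1 := by
    rw [Real.rpow_neg hL0.le, Real.rpow_two]
    rw [mul_inv_le_iff₀ (by positivity)]
    nlinarith
  -- (iv)
  have hQpos : (0 : ℝ) < Q := by
    have := hReg.Q_pos hK
    exact_mod_cast this
  have hlogQ : L / (C * Real.log L) ≤ Real.log Q := by
    rw [div_le_iff₀ hCl]
    calc L ≤ C * Real.log L * Real.log Q := hlog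
      _ = Real.log Q * (C * Real.log L) := by ring
  have hiv : 4 * (Q : ℝ) ^ (-ε) ≤ (1 : ℝ) ^ k * Real.exp (-(c0 * k)) := by
    rw [one_pow, one_mul, Real.rpow_def_of_pos hQpos]
    have h4 : (4 : ℝ) ≤ Real.exp 2 := by
      have h5 : (2 : ℝ) + 1 ≤ Real.exp 2 := Real.add_one_le_exp 2
      have h6 : Real.exp 2 = Real.exp 1 * Real.exp 1 := by rw [← Real.exp_add]; norm_num
      have h7 : (2 : ℝ) ≤ Real.exp 1 := by
        have := Real.add_one_le_exp (1 : ℝ)
        linarith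
      rw [h6]
      nlinarith
    have h5 : 2 + |c0| * k ≤ ε * Real.log Q := by
      have e1 : 2 + |c0| * k ≤ (2 + |c0|) * L ^ (1 - δ) := by
        have a1 : (1 : ℝ) ≤ L ^ (1 - δ) := Real.one_le_rpow hL1 (by linarith)
        have a2 : |c0| * k ≤ |c0| * L ^ (1 - δ) := mul_le_mul_of_nonneg_left hkL (abs_nonneg _)
        nlinarith
      have e2 : (C * Real.log L) * ((2 + |c0|) * L ^ (1 - δ)) ≤ (C * Real.log L) * (ε * Real.log Q) := by
        calc (C * Real.log L) * ((2 + |c0|) * L ^ (1 - δ))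
            = L ^ (1 - δ) * ((2 + |c0|) * C * Real.log L) := by ring
          _ ≤ L ^ (1 - δ) * (ε * L ^ δ) := mul_le_mul_of_nonneg_left c4 hP2.le
          _ = ε * (L ^ (1 - δ) * L ^ δ) := by ring
          _ = ε * L := by rw [hp2]
          _ ≤ ε * (C * Real.log L * Real.log Q) := mul_le_mul_of_nonneg_left hlog hε.le
          _ = (C * Real.log L) * (ε * Real.log Q) := by ring
      exact e1.trans (le_of_mul_le_mul_left e2 hCl)
    have h6 : c0 * k ≤ |c0| * k := mul_le_mul_of_nonneg_right (le_abs_self _) (by positivity)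
    calc 4 * Real.exp (Real.log Q * -ε) ≤ Real.exp 2 * Real.exp (Real.log Q * -ε) :=
          mul_le_mul_of_nonneg_right h4 (Real.exp_pos _).le
      _ = Real.exp (2 + Real.log Q * -ε) := by rw [← Real.exp_add]
      _ ≤ Real.exp (-(c0 * k)) := by
          apply Real.exp_le_exp.mpr
          linarith
  obtain ⟨Bad, hG, hcard⟩ := hY k Q X H 1 (L ^ (-(2 : ℝ))) p0 (fun _ => 0) (hNX0.trans hNX) hk hkX
    hReg hii hX hM (Real.rpow_nonneg hL0.le _) hiii hiv
  refine ⟨X, Bad, hNX, hX2, hG, hcard.trans ?_⟩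
  refine mul_le_mul_of_nonneg_left ?_ (by positivity)
  rw [Real.rpow_def_of_pos hQpos]
  apply Real.exp_le_exp.mpr
  have h8 := mul_le_mul_of_nonneg_left hlogQ hε.le
  have h9 : ε / C * (L / Real.log L) = ε * (L / (C * Real.log L)) := by
    field_simp
  rw [h9]
  linarith

end Pool.Agent.Lib.H59P
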