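import Pool.Agent.Lib.H59P.Y8A
import Pool.Agent.Lib.H68T.SetsP

/-!
# Project H59P, chunk Y8: from tuples to sets
-/

open Finset

namespace Pool.Agent.Lib.H59P

open Pool.Agent.Lib.H68T Pool.Agent.Lib.H18Q

/-- **Y8.** Proof. `SETS_tuples` with `H = N - 1`: `k!` times the number of bad sets is the number of injective
tuples in `[0, N)^k` whose image is admissible and has no prime translate `n ≤ x`; such a tuple is in
`bx k X` (`N ≤ X`) and must be in `Bad`, since otherwise `n < 2X ≤ 4N ≤ x` is a translate (`Y8a`; `n ≥ X ≥ 1`). -/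
theorem Y8 (x : ℝ) (N X k : ℕ) (hN : 1 ≤ N) (hNX : N ≤ X) (hX : X ≤ 2 * N) (hx : 4 * (N : ℝ) ≤ x)
    (Bad : Finset (Fin k → ℕ)) (hB : Good' X Bad) (σ : ℝ) (hσ : (Bad.card : ℝ) ≤ (X : ℝ) ^ k * σ)
    (hσ0 : 0 ≤ σ) :
    open Classical in
    (k.factorial : ℝ) * ((((range N).powersetCard k).filter
      (fun A => Admissible A ∧ ¬ HasPrimeTranslate x A)).card : ℝ) ≤ 2 ^ k * (N : ℝ) ^ k * σ := by
  classical
  have hT := SETS_tuples k (N - 1) (fun A => Admissible A ∧ ¬ HasPrimeTranslate x A)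
  have hN1 : N - 1 + 1 = N := by omega
  rw [hN1] at hT
  have hsub : (SETS_Om k (N - 1)).filter (fun a => Function.Injective a ∧
      (Admissible (univ.image a) ∧ ¬ HasPrimeTranslate x (univ.image a))) ⊆ Bad := by
    intro a ha
    rw [mem_filter] at ha
    obtain ⟨h1, _, h3, h4⟩ := ha
    unfold SETS_Om at h1
    rw [Fintype.mem_piFinset] at h1
    have hbx : a ∈ bx k X := by
      unfold bx
      rw [Fintype.mem_piFinset]
      intro i
      have := mem_range.mp (h1 i)
      rw [mem_range]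
      omega
    by_contra hBad
    obtain ⟨n, hn, hp⟩ := hB.2 a hbx hBad ((Y8a a).mpr h3)
    rw [mem_Ico] at hn
    refine h4 ⟨n, by omega, ?_, ?_⟩
    · have h5 : (n : ℝ) < 2 * X := by exact_mod_cast hn.2
      have h6 : (X : ℝ) ≤ 2 * N := by exact_mod_cast hX
      linarith
    · intro y hy
      rw [mem_image] at hy
      obtain ⟨i, -, rfl⟩ := hy
      exact hp i
  have h5 := card_le_card hsub
  have h6 : k.factorial * (((range N).powersetCard k).filter
      (fun A => Admissible A ∧ ¬ HasPrimeTranslate x A)).card ≤ Bad.card := by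
    refine le_trans (le_of_eq ?_) h5
    refine Eq.trans ?_ (hT.symm.trans ?_)
    · congr
    · congr
  have h7 : (k.factorial : ℝ) * ((((range N).powersetCard k).filter
      (fun A => Admissible A ∧ ¬ HasPrimeTranslate x A)).card : ℝ) ≤ (Bad.card : ℝ) := by
    exact_mod_cast h6
  refine h7.trans (hσ.trans ?_)
  have h8 : (X : ℝ) ≤ 2 * N := by exact_mod_cast hX
  have h9 : (X : ℝ) ^ k ≤ (2 * (N : ℝ)) ^ k := pow_le_pow_left₀ (by positivity) h8 k
  rw [mul_pow] at h9
  exact mul_le_mul_of_nonneg_right h9 hσ0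

end Pool.Agent.Lib.H59P
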