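import Pool.Agent.Lib.H59P.YDefs

/-!
# Project H59P, chunk Y8A: admissible tuples and sets
-/

open Finset

namespace Pool.Agent.Lib.H59P

open Pool.Agent.Lib.H68T Pool.Agent.Lib.H18Q

/-- Admissible tuples and sets. Proof. `n = - r` modulo `l`; `(n + h_i : ZMod l) = 0 ↔ h_i = -n`. -/
theorem Y8a {k : ℕ} (h : Fin k → ℕ) : Adm h ↔ Admissible (univ.image h) := by
  constructor
  · intro hA p hp
    obtain ⟨n, hn⟩ := hA p hp
    refine ⟨-(n : ZMod p), fun y hy => ?_⟩
    rw [mem_image] at hy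
    obtain ⟨i, -, rfl⟩ := hy
    intro h0
    apply hn i
    rw [← ZMod.natCast_eq_zero_iff, Nat.cast_add, h0]
    ring
  · intro hA p hp
    obtain ⟨r, hr⟩ := hA p hp
    have : NeZero p := ⟨hp.ne_zero⟩
    refine ⟨(-r).val, fun i hdvd => ?_⟩
    have h2 := (ZMod.natCast_eq_zero_iff _ _).mpr hdvd
    rw [Nat.cast_add, ZMod.natCast_val, ZMod.cast_id] at h2
    apply hr (h i) (mem_image_of_mem _ (mem_univ _))
    have h3 : (h i : ZMod p) = r + (-r + (h i : ZMod p)) := by ring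
    rw [h3, h2, add_zero]

end Pool.Agent.Lib.H59P
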