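import Pool.Agent.Lib.H59P.Y5
import Pool.Agent.Lib.H59P.Y9
import Pool.Agent.Lib.H68T.FINP

/-!
# Project H59P, chunk YKA: forward direction, with parameters
-/

open Finset

namespace Pool.Agent.Lib.H59P

open Pool.Agent.Lib.H68T Pool.Agent.Lib.H18Q

theorem yka_ev (C p q : ℝ) (h : p < q) (hC : 0 ≤ C) :
    ∀ᶠ L : ℝ in Filter.atTop, C * L ^ p * (Real.log (2 * L)) ^ 2 ≤ L ^ q := by
  have hs : 0 < (q - p) / 4 := by linarith
  filter_upwards [ev_rpow C (p + (q - p) / 2) q (by linarith), ev_log 2 ((q - p) / 4) hs,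
    ev_rpow (2 * Real.log 2) 0 ((q - p) / 4) hs, Filter.eventually_ge_atTop (1 : ℝ)] with L h1 h2 h3 h4
  have hL0 : 0 < L := by linarith
  rw [Real.rpow_zero, mul_one] at h3
  have h5 : Real.log (2 * L) ≤ L ^ ((q - p) / 4) := by
    rw [Real.log_mul (by norm_num) hL0.ne']
    linarith
  have h6 : 0 ≤ Real.log (2 * L) := Real.log_nonneg (by linarith)
  have h7 : (Real.log (2 * L)) ^ 2 ≤ L ^ ((q - p) / 2) := by
    calc (Real.log (2 * L)) ^ 2 ≤ (L ^ ((q - p) / 4)) ^ 2 := pow_le_pow_left₀ h6 h5 2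
      _ = L ^ ((q - p) / 2) := by
        rw [← Real.rpow_natCast, ← Real.rpow_mul hL0.le]
        congr 1
        push_cast
        ring
  have h8 : 0 ≤ C * L ^ p := mul_nonneg hC (Real.rpow_nonneg hL0.le _)
  calc C * L ^ p * (Real.log (2 * L)) ^ 2 ≤ C * L ^ p * L ^ ((q - p) / 2) :=
        mul_le_mul_of_nonneg_left h7 h8
    _ = C * L ^ (p + (q - p) / 2) := by rw [mul_assoc, ← Real.rpow_add hL0]
    _ ≤ L ^ q := h1

/-- **YKa.** As `coreV` in `H51D`. Exponents: `a` for `k`, `t` for the threshold of the conductors, `b` for the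
zeros, `g` for the exceptional proportion.

Proof. `N = ⌊x^(1-δ)⌋₊ + 1`, `L = log x`, `(1-δ) L ≤ log N ≤ L`. `Y5` with `δ' = min((1-a)/2, …) > 0` (`k ≤ L^a ≤
(log N)^(1-δ')`), `ρ = exp(L^t)` and `v = exp(-L^b)`: `k log(1/v) ≤ L^(a+b) ≤ ε log N/log(k+1)` for `L` large
(`a + b < 1`). `Y9`: `(log x)^(C k) (exp(-ε log N/log(k+1)) + (log N)^(C k) exp(-L^t/2)) ≤ exp(-L^g)`, since
`L^a log L = o(L^t)`, `g < t`, `g < 1`. -/
theorem YKa (hF : FMain) (hT : TMain) (hA : AMain) (c0 : ℝ) (hc0 : 0 ≤ c0) (hlow : TLow c0)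
    (hC : TCount) (δ a t b g : ℝ) (hδ : 0 < δ) (hδ1 : δ < 1) (ha : 0 < a) (hat : a < t) (hb : 0 < b)
    (hab : a + b < 1) (hgt : g < t) (hg1 : g < 1) (hg : 0 < g) :
    ∃ L0 : ℝ, ∀ L : ℝ, L0 ≤ L →
      (∀ (r : ℕ) [NeZero r] (ψ : DirichletCharacter ℂ r), (r : ℝ) ≤ Real.exp (L ^ t) →
        ψ.IsPrimitive → ψ ≠ 1 → ψ ^ 2 = 1 → ∀ β : ℝ, β < 1 → ψ.LFunction (β : ℂ) = 0 →
        Real.exp (-L ^ b) ≤ 1 - β) →
      ∀ k : ℕ, 1 ≤ k → (k : ℝ) ≤ L ^ a →
        ((bad (Real.exp L) δ k).card : ℝ) ≤ Real.exp (-L ^ g) * ((adm (Real.exp L) δ k).card : ℝ) := by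
  obtain ⟨C9, hC9, h9⟩ := Y9 hC
  have ha1 : a < 1 := by linarith
  have hδ' : 0 < (1 - a) / 2 := by linarith
  have hδ'1 : (1 - a) / 2 < 1 := by linarith
  obtain ⟨ε, C5, hε, hC5, N0, h5⟩ := Y5 hF hT hA c0 hc0 hlow ((1 - a) / 2) hδ' hδ'1
  obtain ⟨x0, h9'⟩ := h9 δ ((1 - a) / 2) hδ hδ1 hδ' hδ'1
  have hd : 0 < 1 - δ := by linarith
  have hed : 0 < ε * (1 - δ) := mul_pos hε hd
  have ht : 0 < t := by linarith
  have hC9' : 0 ≤ C9 := by linarith
  have hC5' : 0 ≤ C5 := by linarith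
  have hq : 0 < (1 - δ) ^ ((1 + a) / 2) := Real.rpow_pos_of_pos hd _
  obtain ⟨L0, hL0⟩ := Filter.eventually_atTop.mp
    ((yka_ev (1 / (ε * (1 - δ))) (a + b) 1 hab (by positivity)).and
    ((yka_ev (3 * C9 / (ε * (1 - δ))) a 1 ha1 (by positivity)).and
    ((yka_ev (3 / (ε * (1 - δ))) g 1 hg1 (by positivity)).and
    ((yka_ev (3 / (ε * (1 - δ))) 0 1 one_pos (by positivity)).and
    ((yka_ev (6 * (C9 + C5)) a t hat (by positivity)).and
    ((yka_ev 6 g t hgt (by norm_num)).and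
    ((yka_ev 6 0 t ht (by norm_num)).and
    ((ev_rpow (1 / (1 - δ) ^ ((1 + a) / 2)) a ((1 + a) / 2) (by linarith)).and
    ((Filter.eventually_ge_atTop (2 : ℝ)).and
    ((Filter.eventually_ge_atTop (Real.log (max x0 1))).and
    ((Filter.eventually_ge_atTop (Real.log ((N0 : ℝ) + 1) / (1 - δ))).and
    (Filter.eventually_ge_atTop (Real.log 2 / δ)))))))))))))
  refine ⟨L0, fun L hL hzero k hk1 hka => ?_⟩
  obtain ⟨e1, e2, e3, e4, e5, e6, e7, e8, e9, e10, e11, e12⟩ := hL0 L hL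
  have hLpos : 0 < L := by linarith
  have hL1 : 1 ≤ L := by linarith
  set x := Real.exp L with hx
  have hxpos : 0 < x := Real.exp_pos _
  have hlogx : Real.log x = L := Real.log_exp L
  set N := ⌊x ^ (1 - δ)⌋₊ + 1 with hN
  have hxd : x ^ (1 - δ) = Real.exp ((1 - δ) * L) := by
    rw [hx, ← Real.exp_mul]
    ring_nf
  have hNgt : Real.exp ((1 - δ) * L) < N := by
    rw [← hxd, hN]
    push_cast
    exact Nat.lt_floor_add_one _
  have hNle : (N : ℝ) ≤ Real.exp ((1 - δ) * L) + 1 := by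
    rw [← hxd, hN]
    push_cast
    have := Nat.floor_le (show 0 ≤ x ^ (1 - δ) by positivity)
    linarith
  have hN0 : (0 : ℝ) < N := lt_trans (Real.exp_pos _) hNgt
  have hNx : (N : ℝ) ≤ x := by
    have h1 : Real.log 2 ≤ δ * L := by
      have := mul_le_mul_of_nonneg_left e12 hδ.le
      rwa [mul_div_cancel₀ _ hδ.ne'] at this
    have h2 : 2 ≤ Real.exp (δ * L) := by
      rw [← Real.log_le_iff_le_exp (by norm_num)]
      exact h1
    have h3 : x = Real.exp ((1 - δ) * L) * Real.exp (δ * L) := by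
      rw [hx, ← Real.exp_add]
      ring_nf
    have h4 : 1 ≤ Real.exp ((1 - δ) * L) := Real.one_le_exp (by positivity)
    have h5 := mul_le_mul_of_nonneg_left h2 (show 0 ≤ Real.exp ((1 - δ) * L) by positivity)
    rw [← h3] at h5
    linarith
  set l := Real.log N with hl
  have hl1 : (1 - δ) * L ≤ l := by
    rw [hl, Real.le_log_iff_exp_le hN0]
    exact hNgt.le
  have hl2 : l ≤ L := by
    rw [hl, ← hlogx]
    exact Real.log_le_log hN0 hNx
  have hl0 : 0 < l := lt_of_lt_of_le (by positivity) hl1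
  have hN0N : N0 ≤ N := by
    have h1 : Real.log ((N0 : ℝ) + 1) ≤ (1 - δ) * L := by
      have := mul_le_mul_of_nonneg_left e11 hd.le
      rwa [mul_div_cancel₀ _ hd.ne'] at this
    have h2 : (N0 : ℝ) + 1 ≤ Real.exp ((1 - δ) * L) := by
      rw [← Real.log_le_iff_le_exp (by positivity)]
      exact h1
    have h3 : (N0 : ℝ) ≤ N := by linarith
    exact_mod_cast h3
  have hx0 : x0 ≤ x := by
    have h1 : max x0 1 ≤ x := by
      rw [hx, ← Real.log_le_iff_le_exp (by positivity)]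
      exact e10
    exact (le_max_left _ _).trans h1
  -- the range of `k`
  have hkl : (k : ℝ) ≤ l ^ (1 - (1 - a) / 2) := by
    have h1 : 1 - (1 - a) / 2 = (1 + a) / 2 := by ring
    rw [h1]
    have h2 : ((1 - δ) * L) ^ ((1 + a) / 2) ≤ l ^ ((1 + a) / 2) :=
      Real.rpow_le_rpow (by positivity) hl1 (by linarith)
    rw [Real.mul_rpow hd.le hLpos.le] at h2
    have h3 : L ^ a ≤ (1 - δ) ^ ((1 + a) / 2) * L ^ ((1 + a) / 2) := by
      have := mul_le_mul_of_nonneg_left e8 hq.le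
      rwa [← mul_assoc, mul_one_div_cancel hq.ne', one_mul] at this
    linarith
  -- the double logarithm
  set ll := Real.log (2 * L) with hll
  have hll1 : 1 ≤ ll := by
    rw [hll, Real.le_log_iff_exp_le (by positivity)]
    have := Real.exp_one_lt_d9
    linarith
  have hllsq : ll ≤ ll ^ 2 := by nlinarith
  have hlogL : Real.log L ≤ ll := Real.log_le_log hLpos (by linarith)
  have hlogL0 : 0 ≤ Real.log L := Real.log_nonneg hL1
  have hLa : 1 ≤ L ^ a := Real.one_le_rpow hL1 ha.le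
  have hLaL : L ^ a ≤ L := by
    calc L ^ a ≤ L ^ (1 : ℝ) := Real.rpow_le_rpow_of_exponent_le hL1 ha1.le
      _ = L := Real.rpow_one L
  have hk1' : (1 : ℝ) ≤ k := by exact_mod_cast hk1
  set lk := Real.log ((k : ℝ) + 1) with hlk
  have hlk0 : 0 < lk := Real.log_pos (by linarith)
  have hlkll : lk ≤ ll := Real.log_le_log (by linarith) (by linarith)
  have hratio : ε * (1 - δ) * L / ll ≤ ε * (l / lk) := by
    have h1 : (1 - δ) * L / ll ≤ l / lk := div_le_div₀ hl0.le hl1 hlk0 hlkll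
    have h2 := mul_le_mul_of_nonneg_left h1 hε.le
    refine le_trans (le_of_eq ?_) h2
    ring
  have hcl : ∀ c y z : ℝ, c / (ε * (1 - δ)) * y * z ≤ L ^ (1 : ℝ) → c * y * z ≤ ε * (1 - δ) * L := by
    intro c y z h
    rw [Real.rpow_one] at h
    have h1 := mul_le_mul_of_nonneg_left h hed.le
    have h2 : ε * (1 - δ) * (c / (ε * (1 - δ)) * y * z) = c * y * z := by
      field_simp
    rwa [h2] at h1
  -- the condition on the zeros
  have hv : Real.log (1 / Real.exp (-L ^ b)) = L ^ b := by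
    rw [one_div, ← Real.exp_neg, neg_neg, Real.log_exp]
  have hkv : (k : ℝ) * Real.log (1 / Real.exp (-L ^ b)) ≤ ε * (l / lk) := by
    rw [hv]
    refine le_trans ?_ hratio
    rw [le_div_iff₀ (by linarith)]
    have h1 := hcl 1 _ _ e1
    have h2 : (k : ℝ) * L ^ b ≤ L ^ (a + b) := by
      rw [Real.rpow_add hLpos]
      exact mul_le_mul_of_nonneg_right hka (by positivity)
    calc (k : ℝ) * L ^ b * ll ≤ L ^ (a + b) * ll := mul_le_mul_of_nonneg_right h2 (by linarith)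
      _ ≤ L ^ (a + b) * ll ^ 2 := mul_le_mul_of_nonneg_left hllsq (by positivity)
      _ ≤ _ := by rwa [one_mul] at h1
  have hrho : 1 ≤ Real.exp (L ^ t) := Real.one_le_exp (by positivity)
  obtain ⟨X, Bad, hX1, hX2, hG, hcard⟩ := h5 N k (Real.exp (L ^ t)) (Real.exp (-L ^ b)) hN0N hk1 hkl
    hrho (Real.exp_pos _) (by
      rw [Real.exp_le_one_iff]
      have : 0 ≤ L ^ b := by positivity
      linarith) hkv hzero
  set σ := Real.exp (-(ε * (l / lk))) + l ^ (C5 * k) * (Real.exp (L ^ t)) ^ (-(1 / 2) : ℝ) with hσ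
  have hσ0 : 0 ≤ σ := by rw [hσ]; positivity
  have hmain := h9' x k hx0 hk1 hkl X Bad σ hX1 hX2 hG hcard hσ0
  refine hmain.trans (mul_le_mul_of_nonneg_right ?_ (Nat.cast_nonneg _))
  rw [hlogx]
  have hLpow : ∀ c : ℝ, L ^ (c * k) = Real.exp (c * k * Real.log L) := by
    intro c
    rw [Real.rpow_def_of_pos hLpos]
    ring_nf
  have hklog : ∀ c : ℝ, 0 ≤ c → c * k * Real.log L ≤ c * L ^ a * ll := by
    intro c hc
    calc c * k * Real.log L ≤ c * L ^ a * Real.log L :=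
          mul_le_mul_of_nonneg_right (mul_le_mul_of_nonneg_left hka hc) hlogL0
      _ ≤ c * L ^ a * ll := mul_le_mul_of_nonneg_left hlogL (by positivity)
  have hLg : 0 ≤ L ^ g := by positivity
  -- first term
  have hT1 : L ^ (C9 * k) * Real.exp (-(ε * (l / lk))) ≤ Real.exp (-L ^ g - 1) := by
    rw [hLpow, ← Real.exp_add]
    apply Real.exp_le_exp.2
    have h1 := hcl _ _ _ e2
    have h2 := hcl _ _ _ e3
    have h3 := hcl _ _ _ e4
    rw [Real.rpow_zero, mul_one] at h3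
    have h4 : (C9 * L ^ a * ll + L ^ g + 1) * ll ≤ ε * (1 - δ) * L := by
      have a2 : L ^ g * ll ≤ L ^ g * ll ^ 2 := mul_le_mul_of_nonneg_left hllsq hLg
      have a3 : (C9 * L ^ a * ll) * ll = C9 * L ^ a * ll ^ 2 := by ring
      have a4 : (C9 * L ^ a * ll + L ^ g + 1) * ll = (C9 * L ^ a * ll) * ll + L ^ g * ll + ll := by ring
      rw [a4, a3]
      linarith
    have h5 : C9 * L ^ a * ll + L ^ g + 1 ≤ ε * (1 - δ) * L / ll := by
      rw [le_div_iff₀ (by linarith)]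
      exact h4
    have h6 := hklog C9 hC9'
    linarith
  -- second term
  have hT2 : L ^ (C9 * k) * (l ^ (C5 * k) * (Real.exp (L ^ t)) ^ (-(1 / 2) : ℝ)) ≤
      Real.exp (-L ^ g - 1) := by
    have h1 : l ^ (C5 * k) ≤ L ^ (C5 * k) := Real.rpow_le_rpow hl0.le hl2 (by positivity)
    have h2 : (Real.exp (L ^ t)) ^ (-(1 / 2) : ℝ) = Real.exp (-(L ^ t / 2)) := by
      rw [← Real.exp_mul]
      ring_nf
    rw [h2]
    have h3 : L ^ (C9 * k) * (l ^ (C5 * k) * Real.exp (-(L ^ t / 2))) ≤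
        L ^ (C9 * k) * (L ^ (C5 * k) * Real.exp (-(L ^ t / 2))) :=
      mul_le_mul_of_nonneg_left (mul_le_mul_of_nonneg_right h1 (Real.exp_pos _).le) (by positivity)
    refine h3.trans ?_
    rw [hLpow, hLpow, ← Real.exp_add, ← Real.exp_add]
    apply Real.exp_le_exp.2
    have h6 := hklog C9 hC9'
    have h7 := hklog C5 hC5'
    have a1 : 6 * (C9 + C5) * L ^ a * ll ≤ 6 * (C9 + C5) * L ^ a * ll ^ 2 :=
      mul_le_mul_of_nonneg_left hllsq (by positivity)
    have a2 : L ^ g ≤ L ^ g * ll ^ 2 := by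
      have : 1 ≤ ll ^ 2 := hll1.trans hllsq
      exact le_mul_of_one_le_right hLg this
    have a3 : 1 ≤ ll ^ 2 := hll1.trans hllsq
    rw [Real.rpow_zero, mul_one] at e7
    have a4 : 6 * (C9 + C5) * L ^ a * ll = 6 * (C9 * L ^ a * ll) + 6 * (C5 * L ^ a * ll) := by ring
    have a5 : 6 * L ^ g * ll ^ 2 = 6 * (L ^ g * ll ^ 2) := by ring
    rw [a4] at a1
    rw [a5] at e6
    linarith
  have h2e : Real.exp (-L ^ g - 1) + Real.exp (-L ^ g - 1) ≤ Real.exp (-L ^ g) := by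
    have h1 : Real.exp (-L ^ g) = Real.exp 1 * Real.exp (-L ^ g - 1) := by
      rw [← Real.exp_add]
      ring_nf
    have h2 : 2 ≤ Real.exp 1 := by linarith [Real.add_one_le_exp (1 : ℝ)]
    rw [h1]
    have := mul_le_mul_of_nonneg_right h2 (Real.exp_pos (-L ^ g - 1)).le
    linarith
  rw [hσ, mul_add]
  linarith

end Pool.Agent.Lib.H59P
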