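import Pool.Agent.Lib.H59P.Z1A
import Pool.Agent.Lib.H59P.ZDefs
import Pool.Agent.Lib.H59P.M4

/-!
# Project H59P, chunk Z1b
-/

open Finset

namespace Pool.Agent.Lib.H59P

open Pool.Agent.Lib.H68T Pool.Agent.Lib.H18Q

/-- **Z1b.** If `lcm(R, κ) > D` with `R = Rp px p`, then `D < px.1 · lcm(r_i κ_i)`; and
`Rp px p ≤ px.1 · lcm(r_i κ_i)`.

Proof. `R = lcm(px.1, lcm r_i)` and all `κ_i` divide `lcm(px.1, lcm (r_i κ_i)) ≤ px.1 · lcm(r_i κ_i)` (the `κ_i`,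
`r_i` are positive, so this is positive). -/
theorem Z1b {k : ℕ} (Q D : ℕ) (px : Ch) (hpx : px ∈ PC Q) (p : Fin k → Ch) (hp : ∀ i, p i ∈ PC Q)
    (κ : Fin k → ℕ) (hκ : ∀ i, κ i ∈ KS Q (p i).1) :
    (D < (Rp px p).lcm (univ.lcm κ) → D < px.1 * univ.lcm (fun i => (p i).1 * κ i)) ∧
    Rp px p ≤ px.1 * univ.lcm (fun i => (p i).1 * κ i) := by
  have hx1 : 0 < px.1 := (mem_PC.mp hpx).1
  have hpi : ∀ i, 0 < (p i).1 := fun i => (mem_PC.mp (hp i)).1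
  have hκi : ∀ i, 0 < κ i := by
    intro i
    have h1 := hκ i
    unfold KS at h1
    rw [Finset.mem_filter, Finset.mem_Icc] at h1
    exact h1.1.1
  set L : ℕ := univ.lcm (fun i => (p i).1 * κ i) with hL
  have hL0 : L ≠ 0 := by
    intro h0
    rw [hL, Finset.lcm_eq_zero_iff] at h0
    obtain ⟨i, _, h1⟩ := h0
    exact (Nat.mul_pos (hpi i) (hκi i)).ne' h1
  have hpos : 0 < px.1 * L := Nat.mul_pos hx1 (Nat.pos_of_ne_zero hL0)
  have hdi : ∀ i, (p i).1 * κ i ∣ L := fun i => Finset.dvd_lcm (Finset.mem_univ i)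
  have hR : Rp px p ∣ px.1 * L := by
    unfold Rp
    refine Nat.lcm_dvd (Nat.dvd_mul_right _ _) ?_
    refine Dvd.dvd.mul_left ?_ _
    refine Finset.lcm_dvd fun i _ => ?_
    exact (Nat.dvd_mul_right _ _).trans (hdi i)
  have hK : univ.lcm κ ∣ px.1 * L := by
    refine Dvd.dvd.mul_left ?_ _
    refine Finset.lcm_dvd fun i _ => ?_
    exact (Nat.dvd_mul_left _ _).trans (hdi i)
  refine ⟨fun h => ?_, Nat.le_of_dvd hpos hR⟩
  exact lt_of_lt_of_le h (Nat.le_of_dvd hpos (Nat.lcm_dvd hR hK))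

end Pool.Agent.Lib.H59P
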