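import Pool.Agent.Lib.H59P.Z1B
import Pool.Agent.Lib.H59P.ZDefs
import Pool.Agent.Lib.H59P.M4

/-!
# Project H59P, chunk Z1c
-/

open Finset

namespace Pool.Agent.Lib.H59P

open Pool.Agent.Lib.H68T Pool.Agent.Lib.H18Q

/-- Sizes: for `Q` large, `px.1^100 ≤ Q`, `D = √Q`, `D1 = √D`, `D2 = ⌊Q^(1/5)⌋`: `px.1 D2 ≤ D1 ≤ D`,
`1 ≤ D2 ≤ Q`, `Q^(1/6) ≤ D2`, and `R ≤ D1` implies `Q^(1/5) ≤ D / R`, `D / R ≤ Q`, `1 ≤ D1`, `px.1 ≤ D1`. -/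
theorem Z1c : ∃ Q0 : ℕ, ∀ Q : ℕ, Q0 ≤ Q → ∀ r : ℕ, 1 ≤ r → r ^ 100 ≤ Q →
    r * ⌊(Q : ℝ) ^ (1 / 5 : ℝ)⌋₊ ≤ Nat.sqrt (Nat.sqrt Q) ∧ Nat.sqrt (Nat.sqrt Q) ≤ Nat.sqrt Q ∧
    1 ≤ ⌊(Q : ℝ) ^ (1 / 5 : ℝ)⌋₊ ∧ ⌊(Q : ℝ) ^ (1 / 5 : ℝ)⌋₊ ≤ Q ∧
    (Q : ℝ) ^ (1 / 6 : ℝ) ≤ ⌊(Q : ℝ) ^ (1 / 5 : ℝ)⌋₊ ∧ r ≤ Nat.sqrt (Nat.sqrt Q) ∧
    ∀ R : ℕ, 1 ≤ R → R ≤ Nat.sqrt (Nat.sqrt Q) →
      (Q : ℝ) ^ (1 / 5 : ℝ) ≤ ((Nat.sqrt Q / R : ℕ) : ℝ) ∧ Nat.sqrt Q / R ≤ Q := by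
  refine ⟨2 ^ 60, fun Q hQ r hr hrQ => ?_⟩
  have hQ1 : 1 ≤ Q := le_trans (Nat.one_le_two_pow) hQ
  have hQ0 : (0 : ℝ) ≤ (Q : ℝ) := Nat.cast_nonneg Q
  set y : ℝ := (Q : ℝ) ^ (1 / 60 : ℝ) with hy
  have hy0 : 0 ≤ y := Real.rpow_nonneg hQ0 _
  have hpow : ∀ n : ℕ, y ^ n = (Q : ℝ) ^ ((1 / 60 : ℝ) * n) := by
    intro n
    rw [hy, ← Real.rpow_natCast, ← Real.rpow_mul hQ0]
  have h5 : (Q : ℝ) ^ (1 / 5 : ℝ) = y ^ 12 := by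
    rw [hpow]; norm_num
  have h6 : (Q : ℝ) ^ (1 / 6 : ℝ) = y ^ 10 := by
    rw [hpow]; norm_num
  have h60 : (Q : ℝ) = y ^ 60 := by
    rw [hpow]; norm_num
  have hy2 : 2 ≤ y := by
    by_contra hlt
    push Not at hlt
    have h1 : y ^ 60 < 2 ^ 60 := pow_lt_pow_left₀ hlt hy0 (by norm_num)
    have h2 : ((2 ^ 60 : ℕ) : ℝ) ≤ (Q : ℝ) := by exact_mod_cast hQ
    rw [h60] at h2
    push_cast at h2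
    linarith
  have hmono : ∀ n : ℕ, (1 : ℝ) ≤ y ^ n := fun n => one_le_pow₀ (by linarith)
  set D2 : ℕ := ⌊(Q : ℝ) ^ (1 / 5 : ℝ)⌋₊ with hD2
  have hD2le : (D2 : ℝ) ≤ y ^ 12 := by
    rw [hD2, ← h5]
    exact Nat.floor_le (Real.rpow_nonneg hQ0 _)
  have hD2lt : y ^ 12 < (D2 : ℝ) + 1 := by
    rw [hD2, ← h5]
    exact Nat.lt_floor_add_one _
  have hD2Q : D2 ^ 5 ≤ Q := by
    have h1 : ((D2 : ℝ)) ^ 5 ≤ (y ^ 12) ^ 5 := pow_le_pow_left₀ (Nat.cast_nonneg _) hD2le 5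
    rw [← pow_mul] at h1
    have h2 : ((D2 : ℝ)) ^ 5 ≤ (Q : ℝ) := by
      rw [h60]; exact h1
    exact_mod_cast h2
  have h10 : y ^ 10 + 1 ≤ y ^ 12 := by
    have h1 := hmono 10
    have h2 : y ^ 12 = y ^ 10 * y ^ 2 := by ring
    have h3 : (2 : ℝ) ≤ y ^ 2 := by nlinarith
    rw [h2]
    nlinarith
  have hD2one : y ^ 10 ≤ (D2 : ℝ) := by linarith
  have hD21 : 1 ≤ D2 := by
    have h1 : (1 : ℝ) ≤ (D2 : ℝ) := (hmono 10).trans hD2one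
    exact_mod_cast h1
  have hsq : Nat.sqrt Q * Nat.sqrt Q ≤ Q := Nat.sqrt_le Q
  have hDQ : Nat.sqrt Q ≤ Q := Nat.sqrt_le_self Q
  have hD1D : Nat.sqrt (Nat.sqrt Q) * Nat.sqrt (Nat.sqrt Q) ≤ Nat.sqrt Q := Nat.sqrt_le _
  have hD1lt : (Q : ℝ) < ((Nat.sqrt (Nat.sqrt Q) : ℝ) + 1) ^ 4 := by
    have h1 : Q < (Nat.sqrt Q + 1) * (Nat.sqrt Q + 1) := Nat.lt_succ_sqrt Q
    have h2 : Nat.sqrt Q + 1 ≤ (Nat.sqrt (Nat.sqrt Q) + 1) * (Nat.sqrt (Nat.sqrt Q) + 1) :=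
      Nat.lt_succ_sqrt (Nat.sqrt Q)
    have h3 : Q < (Nat.sqrt (Nat.sqrt Q) + 1) ^ 4 := by
      calc Q < (Nat.sqrt Q + 1) * (Nat.sqrt Q + 1) := h1
        _ ≤ ((Nat.sqrt (Nat.sqrt Q) + 1) * (Nat.sqrt (Nat.sqrt Q) + 1)) *
            ((Nat.sqrt (Nat.sqrt Q) + 1) * (Nat.sqrt (Nat.sqrt Q) + 1)) := Nat.mul_le_mul h2 h2
        _ = (Nat.sqrt (Nat.sqrt Q) + 1) ^ 4 := by ring
    exact_mod_cast h3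
  have hD1 : y ^ 12 ≤ (Nat.sqrt (Nat.sqrt Q) : ℝ) := by
    have h1 : y ^ 15 < (Nat.sqrt (Nat.sqrt Q) : ℝ) + 1 := by
      by_contra hge
      push Not at hge
      have h2 : ((Nat.sqrt (Nat.sqrt Q) : ℝ) + 1) ^ 4 ≤ (y ^ 15) ^ 4 :=
        pow_le_pow_left₀ (by positivity) hge 4
      rw [← pow_mul] at h2
      rw [h60] at hD1lt
      exact absurd (lt_of_lt_of_le hD1lt h2) (lt_irrefl _)
    have h2 : y ^ 12 + 1 ≤ y ^ 15 := by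
      have h3 := hmono 12
      have h4 : y ^ 15 = y ^ 12 * y ^ 3 := by ring
      have h5 : (2 : ℝ) ≤ y ^ 3 := by
        have := pow_le_pow_left₀ (by norm_num : (0 : ℝ) ≤ 2) hy2 3
        linarith
      rw [h4]
      nlinarith
    linarith
  have key : ∀ m : ℕ, m ^ 4 ≤ Q → m ≤ Nat.sqrt (Nat.sqrt Q) := by
    intro m hm
    rw [Nat.le_sqrt, Nat.le_sqrt]
    calc m * m * (m * m) = m ^ 4 := by ring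
      _ ≤ Q := hm
  refine ⟨?_, Nat.sqrt_le_self _, hD21, ?_, ?_, ?_, ?_⟩
  · apply key
    by_contra hlt
    push Not at hlt
    have h1 : Q ^ 25 < ((r * D2) ^ 4) ^ 25 := Nat.pow_lt_pow_left hlt (by norm_num)
    have h2 : ((r * D2) ^ 4) ^ 25 = r ^ 100 * (D2 ^ 5) ^ 20 := by ring
    have h3 : r ^ 100 * (D2 ^ 5) ^ 20 ≤ Q * Q ^ 20 :=
      Nat.mul_le_mul hrQ (Nat.pow_le_pow_left hD2Q 20)
    have h4 : Q * Q ^ 20 ≤ Q ^ 25 := by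
      calc Q * Q ^ 20 = Q ^ 21 := by ring
        _ ≤ Q ^ 25 := Nat.pow_le_pow_right hQ1 (by norm_num)
    omega
  · calc D2 ≤ D2 ^ 5 := Nat.le_self_pow (by norm_num) D2
      _ ≤ Q := hD2Q
  · rw [h6]; exact hD2one
  · apply key
    calc r ^ 4 ≤ r ^ 100 := Nat.pow_le_pow_right hr (by norm_num)
      _ ≤ Q := hrQ
  · intro R hR1 hR
    refine ⟨?_, (Nat.div_le_self _ _).trans hDQ⟩
    have h1 : Nat.sqrt (Nat.sqrt Q) ≤ Nat.sqrt Q / R := by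
      rw [Nat.le_div_iff_mul_le (by omega)]
      exact (Nat.mul_le_mul_left _ hR).trans hD1D
    rw [h5]
    refine hD1.trans ?_
    exact_mod_cast h1

end Pool.Agent.Lib.H59P
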