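import Pool.Agent.Lib.H59P.Z1C

/-!
# Project H59P, chunk Z1d
-/

open Finset

namespace Pool.Agent.Lib.H59P

open Pool.Agent.Lib.H68T Pool.Agent.Lib.H18Q

theorem z1d_lcm_pos {k : ℕ} (d : Fin k → ℕ) (h : ∀ i, 0 < d i) : 0 < univ.lcm d :=
  Nat.pos_of_dvd_of_pos (Finset.lcm_dvd (fun i _ => Finset.dvd_prod_of_mem d (mem_univ i)))
    (Finset.prod_pos (fun i _ => h i))

/-- the numerical inequality -/
theorem z1d_num (L C0 : ℝ) (hL : 4 ≤ L) (hC0 : 1 ≤ C0) (k Q H D D2 : ℕ) (hk : 1 ≤ k) (hQ : 1 ≤ Q)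
    (hlQ : Real.log Q ≤ L) (hQH : Q ^ 4 ≤ H) (hD : D ^ 2 ≤ Q)
    (hD2 : (Q : ℝ) ^ (1 / 6 : ℝ) ≤ D2) :
    2 * ((H : ℝ) ^ k * (2 * (D : ℝ) ^ 2 * (2 * (1 + Real.log Q)) ^ (2 * k)) ^ 2) +
      2 * (L ^ (C0 * k) * (H : ℝ) ^ (k + 2) * (D2 : ℝ) ^ (-(1 / 2) : ℝ)) ≤
      L ^ ((C0 + 16) * k) * (H : ℝ) ^ (k + 2) * (Q : ℝ) ^ (-(1 / 12) : ℝ) := by
  have hQ1 : (1 : ℝ) ≤ Q := by exact_mod_cast hQ
  have hQ0 : (0 : ℝ) < Q := by linarith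
  have hlQ0 : 0 ≤ Real.log Q := Real.log_nonneg hQ1
  have hL0 : 0 < L := by linarith
  have hL1 : 1 ≤ L := by linarith
  have hH0 : (0 : ℝ) ≤ H := by positivity
  have hQH' : (Q : ℝ) ^ 4 ≤ H := by exact_mod_cast hQH
  have hD' : (D : ℝ) ^ 2 ≤ Q := by exact_mod_cast hD
  set y := 2 * (1 + Real.log Q) with hy
  have hy0 : 0 ≤ y := by positivity
  have hyL : y ≤ L ^ 2 := by nlinarith
  set q := (Q : ℝ) ^ (-(1 / 12) : ℝ) with hq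
  have hqpos : 0 < q := Real.rpow_pos_of_pos hQ0 _
  set P := L ^ (C0 * k) with hP
  have hk1 : (1 : ℝ) ≤ k := by exact_mod_cast hk
  have hP1 : 1 ≤ P := Real.one_le_rpow hL1 (by positivity)
  set E := L ^ (8 * k) with hE
  have hE16 : 16 ≤ E := by
    calc (16 : ℝ) ≤ L ^ 2 := by nlinarith
      _ ≤ L ^ (8 * k) := pow_le_pow_right₀ hL1 (by omega)
  have hsplit : L ^ ((C0 + 16) * (k : ℝ)) = P * (E * E) := by
    have h1 : ((C0 + 16) * (k : ℝ)) = C0 * k + ((16 * k : ℕ) : ℝ) := by push_cast; ring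
    rw [h1, Real.rpow_add hL0, Real.rpow_natCast, hP, hE, ← pow_add]
    congr 2
    ring
  -- first part
  have h1 : (2 * (D : ℝ) ^ 2 * y ^ (2 * k)) ^ 2 ≤ 4 * (Q : ℝ) ^ 2 * E := by
    have e1 : (2 * (D : ℝ) ^ 2 * y ^ (2 * k)) ^ 2 = 4 * ((D : ℝ) ^ 2) ^ 2 * y ^ (4 * k) := by
      rw [mul_pow, mul_pow, ← pow_mul y]
      have : 2 * k * 2 = 4 * k := by ring
      rw [this]
      norm_num
    have e2 : ((D : ℝ) ^ 2) ^ 2 ≤ (Q : ℝ) ^ 2 := pow_le_pow_left₀ (by positivity) hD' 2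
    have e3 : y ^ (4 * k) ≤ E := by
      calc y ^ (4 * k) ≤ (L ^ 2) ^ (4 * k) := pow_le_pow_left₀ hy0 hyL _
        _ = E := by rw [hE, ← pow_mul]; congr 1; ring
    rw [e1]
    have e4 : 4 * ((D : ℝ) ^ 2) ^ 2 ≤ 4 * (Q : ℝ) ^ 2 := by linarith
    exact mul_le_mul e4 e3 (by positivity) (by positivity)
  have h2 : (Q : ℝ) ^ 2 ≤ (H : ℝ) ^ 2 * q := by
    have e1 : q * (Q : ℝ) ^ (1 / 12 : ℝ) = 1 := by
      rw [hq, ← Real.rpow_add hQ0]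
      norm_num
    have e2 : (Q : ℝ) ^ (1 / 12 : ℝ) ≤ Q := by
      calc (Q : ℝ) ^ (1 / 12 : ℝ) ≤ (Q : ℝ) ^ (1 : ℝ) :=
            Real.rpow_le_rpow_of_exponent_le hQ1 (by norm_num)
        _ = Q := Real.rpow_one _
    have e3 : (Q : ℝ) ^ 3 ≤ (H : ℝ) ^ 2 := by
      calc (Q : ℝ) ^ 3 ≤ (Q : ℝ) ^ 8 := pow_le_pow_right₀ hQ1 (by norm_num)
        _ = ((Q : ℝ) ^ 4) ^ 2 := by ring
        _ ≤ (H : ℝ) ^ 2 := pow_le_pow_left₀ (by positivity) hQH' 2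
    calc (Q : ℝ) ^ 2 = (Q : ℝ) ^ 2 * (q * (Q : ℝ) ^ (1 / 12 : ℝ)) := by rw [e1, mul_one]
      _ = ((Q : ℝ) ^ 2 * (Q : ℝ) ^ (1 / 12 : ℝ)) * q := by ring
      _ ≤ ((Q : ℝ) ^ 2 * Q) * q := by
          refine mul_le_mul_of_nonneg_right ?_ hqpos.le
          exact mul_le_mul_of_nonneg_left e2 (by positivity)
      _ = (Q : ℝ) ^ 3 * q := by ring
      _ ≤ (H : ℝ) ^ 2 * q := mul_le_mul_of_nonneg_right e3 hqpos.le
  have h3 : (H : ℝ) ^ k * (2 * (D : ℝ) ^ 2 * y ^ (2 * k)) ^ 2 ≤ 4 * E * ((H : ℝ) ^ (k + 2) * q) := by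
    have hHk : 0 ≤ (H : ℝ) ^ k := by positivity
    have hE0 : 0 ≤ E := by linarith
    calc (H : ℝ) ^ k * (2 * (D : ℝ) ^ 2 * y ^ (2 * k)) ^ 2
        ≤ (H : ℝ) ^ k * (4 * (Q : ℝ) ^ 2 * E) := mul_le_mul_of_nonneg_left h1 hHk
      _ = (4 * E * (H : ℝ) ^ k) * (Q : ℝ) ^ 2 := by ring
      _ ≤ (4 * E * (H : ℝ) ^ k) * ((H : ℝ) ^ 2 * q) :=
          mul_le_mul_of_nonneg_left h2 (by positivity)
      _ = 4 * E * ((H : ℝ) ^ (k + 2) * q) := by ring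
  -- second part
  have h4 : (D2 : ℝ) ^ (-(1 / 2) : ℝ) ≤ q := by
    have e1 : (0 : ℝ) < (Q : ℝ) ^ (1 / 6 : ℝ) := Real.rpow_pos_of_pos hQ0 _
    calc (D2 : ℝ) ^ (-(1 / 2) : ℝ) ≤ ((Q : ℝ) ^ (1 / 6 : ℝ)) ^ (-(1 / 2) : ℝ) :=
          Real.rpow_le_rpow_of_nonpos e1 hD2 (by norm_num)
      _ = q := by
          rw [hq, ← Real.rpow_mul hQ0.le]
          norm_num
  have h5 : P * (H : ℝ) ^ (k + 2) * (D2 : ℝ) ^ (-(1 / 2) : ℝ) ≤ P * ((H : ℝ) ^ (k + 2) * q) := by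
    rw [mul_assoc]
    refine mul_le_mul_of_nonneg_left ?_ (by linarith)
    exact mul_le_mul_of_nonneg_left h4 (by positivity)
  have hZ : 0 ≤ (H : ℝ) ^ (k + 2) * q := by positivity
  rw [hsplit]
  have h6 : 8 * E + 2 * P ≤ P * (E * E) := by
    have a1 : 16 * E ≤ E * E := by nlinarith
    have a2 : 256 ≤ E * E := by nlinarith
    nlinarith
  calc 2 * ((H : ℝ) ^ k * (2 * (D : ℝ) ^ 2 * y ^ (2 * k)) ^ 2) +
      2 * (P * (H : ℝ) ^ (k + 2) * (D2 : ℝ) ^ (-(1 / 2) : ℝ))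
      ≤ 2 * (4 * E * ((H : ℝ) ^ (k + 2) * q)) + 2 * (P * ((H : ℝ) ^ (k + 2) * q)) := by linarith
    _ = (8 * E + 2 * P) * ((H : ℝ) ^ (k + 2) * q) := by ring
    _ ≤ (P * (E * E)) * ((H : ℝ) ^ (k + 2) * q) := mul_le_mul_of_nonneg_right h6 hZ
    _ = P * (E * E) * (H : ℝ) ^ (k + 2) * q := by ring

theorem z1d_sq (x y : ℂ) : ‖x + y‖ ^ 2 ≤ 2 * ‖x‖ ^ 2 + 2 * ‖y‖ ^ 2 := by
  have h1 : ‖x + y‖ ≤ ‖x‖ + ‖y‖ := norm_add_le x y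
  have h2 : 0 ≤ ‖x + y‖ := norm_nonneg _
  nlinarith [sq_nonneg (‖x‖ - ‖y‖)]

/-- **Z1d.** A tuple with small modulus. `C`, `K` depend on the constants of `FMain` only.

Proof. Split the tuples `κ` into those with `lcm(R, κ) ≤ D` (`M4`, error `2 D² (2(1+log Q))^(2k)`, `D ≤ Q`,
`D² ≤ Q`, `Q^4 ≤ H`: its square times `H^k` is at most `H^(k+2) Q^(-6) (log X)^(Ck)`) and the others, for which
`lcm(r_i κ_i) > D / px.1 ≥ D2` (`Z1b`, `Z1c`: `px.1 D2 ≤ D1 ≤ D`), `FMain` with `D2`; `D2^(-1/2) ≤ Q^(-1/12)`.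
`(x+y)² ≤ 2x² + 2y²`. -/
theorem Z1d (hF : FMain) : ∃ C K : ℝ, 1 ≤ C ∧ 1 ≤ K ∧ ∀ (k Q X H : ℕ), RegP K Q X → 1 ≤ k → Q ^ 4 ≤ H →
    H ≤ X → ∀ px ∈ PC Q, px.1 ^ 100 ≤ Q → ∀ p ∈ TS k Q (Nat.sqrt (Nat.sqrt Q)) px,
    ∀ (a : ℕ) (b : Fin k → ℕ),
    ∑ h ∈ cube b H, ‖∑ n ∈ Ico a (a + H),
        ∑ κ ∈ Fintype.piFinset fun i => KS Q (p i).1, ∏ i, gk (p i) (κ i) ((n : ℤ) + h i) -
      H * (MR p (Rp px p) h *
        ((∑ d ∈ SF (Nat.sqrt Q / Rp px p) (Rp px p), td d h : ℝ) : ℂ))‖ ^ 2 ≤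
      (Real.log X) ^ (C * k) * (H : ℝ) ^ (k + 2) * (Q : ℝ) ^ (-(1 / 12) : ℝ) := by
  classical
  obtain ⟨C0, K0, hC0, hK0, hF'⟩ := hF
  obtain ⟨Q0, hQ0⟩ := Z1c
  refine ⟨C0 + 16, K0 + Q0 + 3, by linarith, by
    have : (0 : ℝ) ≤ Q0 := by positivity
    linarith, ?_⟩
  intro k Q X H hReg hk hQH hHX px hpx hpx100 p hp a b
  have hQ0n : (0 : ℝ) ≤ Q0 := by positivity
  have hKpos : (0 : ℝ) < K0 + Q0 + 3 := by linarith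
  have hK1 : (1 : ℝ) ≤ K0 + Q0 + 3 := by linarith
  have hRegK0 : RegP K0 Q X := hReg.mono hKpos.le (by linarith)
  have hQQ0 : Q0 ≤ Q := by
    have h1 := hReg.Q_ge hK1
    have h2 : (Q0 : ℝ) ≤ Q := by linarith
    exact_mod_cast h2
  have hQpos : 1 ≤ Q := hReg.Q_pos hK1
  have hL4 : 4 ≤ Real.log X := by
    have h1 := hReg.logX_ge hKpos
    have h2 := Real.add_one_le_exp (K0 + Q0 + 3)
    linarith
  have hlQ : Real.log Q ≤ Real.log X := by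
    have h1 := hReg.logQ_le hK1
    have h2 : 0 ≤ Real.log Q := Real.log_nonneg (by exact_mod_cast hQpos)
    nlinarith
  have hpx1 : 1 ≤ px.1 := (mem_PC.mp hpx).1
  obtain ⟨c1, c2, c3, c4, c5, c6, c7⟩ := hQ0 Q hQQ0 px.1 hpx1 hpx100
  set D2 := ⌊(Q : ℝ) ^ (1 / 5 : ℝ)⌋₊ with hD2
  have hTS : (∀ i, p i ∈ PC Q) ∧ Rp px p ≤ Nat.sqrt (Nat.sqrt Q) := by
    unfold TS at hp
    rw [mem_filter, Fintype.mem_piFinset] at hp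
    exact hp
  obtain ⟨hpPC, hpR⟩ := hTS
  have hp1 : ∀ i, 1 ≤ (p i).1 := fun i => (mem_PC.mp (hpPC i)).1
  have hlcmpos : 0 < univ.lcm (fun i => (p i).1) := z1d_lcm_pos _ hp1
  have hRpos : 0 < Rp px p := Nat.lcm_pos hpx1 hlcmpos
  have hdvd : ∀ i, (p i).1 ∣ Rp px p := fun i => by
    unfold Rp
    exact (Finset.dvd_lcm (f := fun i => (p i).1) (mem_univ i)).trans (Nat.dvd_lcm_right _ _)
  have hDQ : Nat.sqrt Q ≤ Q := Nat.sqrt_le_self Q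
  have hDsq : Nat.sqrt Q ^ 2 ≤ Q := by
    rw [pow_two]
    exact Nat.sqrt_le Q
  -- the two parts
  set T := (Fintype.piFinset fun i => KS Q (p i).1).filter
    (fun κ => ¬ (Rp px p).lcm (univ.lcm κ) ≤ Nat.sqrt Q) with hT
  have hTsub : T ⊆ Fintype.piFinset (fun i => KS Q (p i).1) := Finset.filter_subset _ _
  have hTlt : ∀ κ ∈ T, D2 < univ.lcm (fun i => (p i).1 * κ i) := by
    intro κ hκ
    rw [hT, mem_filter, Fintype.mem_piFinset] at hκ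
    have h1 := (Z1b Q (Nat.sqrt Q) px hpx p hpPC κ hκ.1).1 (not_le.mp hκ.2)
    have h2 : px.1 * D2 < px.1 * univ.lcm (fun i => (p i).1 * κ i) :=
      lt_of_le_of_lt (c1.trans c2) h1
    exact lt_of_mul_lt_mul_left h2 (Nat.zero_le _)
  have hB := hF' k Q X H D2 hRegK0 hQH hHX c3 c4 p hpPC a b T hTsub hTlt
  have hA : ∀ h : Fin k → ℕ, ‖∑ n ∈ Ico a (a + H),
      ∑ κ ∈ (Fintype.piFinset fun i => KS Q (p i).1).filter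
        (fun κ => (Rp px p).lcm (univ.lcm κ) ≤ Nat.sqrt Q),
        ∏ i, gk (p i) (κ i) ((n : ℤ) + h i) -
      H * (MR p (Rp px p) h *
        ((∑ d ∈ SF (Nat.sqrt Q / Rp px p) (Rp px p), td d h : ℝ) : ℂ))‖ ≤
      2 * (Nat.sqrt Q : ℝ) ^ 2 * (2 * (1 + Real.log Q)) ^ (2 * k) :=
    fun h => M4 Q (Nat.sqrt Q) (Rp px p) hDQ hRpos p hpPC hdvd h a H
  have hsplit : ∀ h : Fin k → ℕ, ∑ n ∈ Ico a (a + H),
        ∑ κ ∈ Fintype.piFinset fun i => KS Q (p i).1, ∏ i, gk (p i) (κ i) ((n : ℤ) + h i) -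
      H * (MR p (Rp px p) h *
        ((∑ d ∈ SF (Nat.sqrt Q / Rp px p) (Rp px p), td d h : ℝ) : ℂ)) =
      (∑ n ∈ Ico a (a + H),
      ∑ κ ∈ (Fintype.piFinset fun i => KS Q (p i).1).filter
        (fun κ => (Rp px p).lcm (univ.lcm κ) ≤ Nat.sqrt Q),
        ∏ i, gk (p i) (κ i) ((n : ℤ) + h i) -
      H * (MR p (Rp px p) h *
        ((∑ d ∈ SF (Nat.sqrt Q / Rp px p) (Rp px p), td d h : ℝ) : ℂ))) +
      ∑ n ∈ Ico a (a + H), ∑ κ ∈ T, ∏ i, gk (p i) (κ i) ((n : ℤ) + h i) := by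
    intro h
    have h1 : ∑ n ∈ Ico a (a + H),
        ∑ κ ∈ Fintype.piFinset fun i => KS Q (p i).1, ∏ i, gk (p i) (κ i) ((n : ℤ) + h i) =
        ∑ n ∈ Ico a (a + H),
        ∑ κ ∈ (Fintype.piFinset fun i => KS Q (p i).1).filter
          (fun κ => (Rp px p).lcm (univ.lcm κ) ≤ Nat.sqrt Q),
          ∏ i, gk (p i) (κ i) ((n : ℤ) + h i) +
        ∑ n ∈ Ico a (a + H), ∑ κ ∈ T, ∏ i, gk (p i) (κ i) ((n : ℤ) + h i) := by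
      rw [← Finset.sum_add_distrib]
      refine Finset.sum_congr rfl (fun n _ => ?_)
      rw [hT]
      exact (Finset.sum_filter_add_sum_filter_not _ _ _).symm
    rw [h1]
    ring
  set W := 2 * (Nat.sqrt Q : ℝ) ^ 2 * (2 * (1 + Real.log Q)) ^ (2 * k) with hW
  have hW0 : 0 ≤ W := by
    have : 0 ≤ Real.log Q := Real.log_nonneg (by exact_mod_cast hQpos)
    positivity
  have hcard : ((cube b H).card : ℝ) = (H : ℝ) ^ k := by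
    unfold cube
    rw [Fintype.card_piFinset]
    simp
  calc ∑ h ∈ cube b H, ‖∑ n ∈ Ico a (a + H),
        ∑ κ ∈ Fintype.piFinset fun i => KS Q (p i).1, ∏ i, gk (p i) (κ i) ((n : ℤ) + h i) -
      H * (MR p (Rp px p) h *
        ((∑ d ∈ SF (Nat.sqrt Q / Rp px p) (Rp px p), td d h : ℝ) : ℂ))‖ ^ 2
      ≤ ∑ h ∈ cube b H, (2 * W ^ 2 + 2 * ‖∑ n ∈ Ico a (a + H), ∑ κ ∈ T,
          ∏ i, gk (p i) (κ i) ((n : ℤ) + h i)‖ ^ 2) := by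
        refine Finset.sum_le_sum (fun h _ => ?_)
        rw [hsplit h]
        refine (z1d_sq _ _).trans ?_
        have h1 := pow_le_pow_left₀ (norm_nonneg _) (hA h) 2
        linarith
    _ = 2 * ((H : ℝ) ^ k * W ^ 2) + 2 * ∑ h ∈ cube b H, ‖∑ n ∈ Ico a (a + H), ∑ κ ∈ T,
          ∏ i, gk (p i) (κ i) ((n : ℤ) + h i)‖ ^ 2 := by
        rw [Finset.sum_add_distrib, Finset.sum_const, nsmul_eq_mul, hcard, ← Finset.mul_sum]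
        ring
    _ ≤ 2 * ((H : ℝ) ^ k * W ^ 2) + 2 * ((Real.log X) ^ (C0 * k) * (H : ℝ) ^ (k + 2) *
          (D2 : ℝ) ^ (-(1 / 2) : ℝ)) := by linarith
    _ ≤ _ := z1d_num (Real.log X) C0 hL4 hC0 k Q H (Nat.sqrt Q) D2 hk hQpos hlQ hQH hDsq c5

end Pool.Agent.Lib.H59P
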