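import Pool.Agent.Lib.H59P.Z2A
import Pool.Agent.Lib.H59P.Z1E

/-!
# Project H59P, chunk Z2b
-/

open Finset

namespace Pool.Agent.Lib.H59P

open Pool.Agent.Lib.H68T Pool.Agent.Lib.H18Q

/-- The decomposition of the cell into the functions of the tuples of characters. -/
theorem z2b_dec {k : ℕ} (Q H a : ℕ) (px : Ch) (c : Fin k → Ch → ℂ) (h : Fin k → ℕ)
    (f : (Fin k → Ch) → ℂ)
    (hf1 : ∀ p ∈ TS k Q (Nat.sqrt (Nat.sqrt Q)) px, f p = ∑ n ∈ Ico a (a + H),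
        ∑ κ ∈ Fintype.piFinset fun i => KS Q (p i).1, ∏ i, gk (p i) (κ i) ((n : ℤ) + h i) -
      H * (MR p (Rp px p) h *
        ((∑ d ∈ SF (Nat.sqrt Q / Rp px p) (Rp px p), td d h : ℝ) : ℂ)))
    (hf2 : ∀ p, p ∉ TS k Q (Nat.sqrt (Nat.sqrt Q)) px → f p = ∑ n ∈ Ico a (a + H),
        ∑ κ ∈ Fintype.piFinset fun i => KS Q (p i).1, ∏ i, gk (p i) (κ i) ((n : ℤ) + h i)) :
    ∑ n ∈ Ico a (a + H), ∏ i, SG Q (c i) ((n : ℤ) + h i) - H * MC Q px c h =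
      ∑ p ∈ Fintype.piFinset fun _ : Fin k => PC Q, (∏ i, c i (p i)) * f p := by
  classical
  have h1 : ∑ n ∈ Ico a (a + H), ∏ i, SG Q (c i) ((n : ℤ) + h i) =
      ∑ p ∈ Fintype.piFinset fun _ : Fin k => PC Q, (∏ i, c i (p i)) *
        ∑ n ∈ Ico a (a + H), ∑ κ ∈ Fintype.piFinset fun i => KS Q (p i).1, ∏ i, gk (p i) (κ i) ((n : ℤ) + h i) := by
    have e1 : ∀ n ∈ Ico a (a + H), ∏ i, SG Q (c i) ((n : ℤ) + h i) =
        ∑ p ∈ Fintype.piFinset fun _ : Fin k => PC Q, (∏ i, c i (p i)) *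
          ∑ κ ∈ Fintype.piFinset fun i => KS Q (p i).1, ∏ i, gk (p i) (κ i) ((n : ℤ) + h i) :=
      fun n _ => Z1a Q c h n
    rw [Finset.sum_congr rfl e1, Finset.sum_comm]
    refine Finset.sum_congr rfl fun p _ => ?_
    rw [Finset.mul_sum]
  have hsub : TS k Q (Nat.sqrt (Nat.sqrt Q)) px ⊆ Fintype.piFinset fun _ : Fin k => PC Q := by
    unfold TS
    exact Finset.filter_subset _ _
  have h2 : (H : ℂ) * MC Q px c h = ∑ p ∈ Fintype.piFinset fun _ : Fin k => PC Q,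
      (if p ∈ TS k Q (Nat.sqrt (Nat.sqrt Q)) px then (∏ i, c i (p i)) * (H * (MR p (Rp px p) h *
        ((∑ d ∈ SF (Nat.sqrt Q / Rp px p) (Rp px p), td d h : ℝ) : ℂ))) else 0) := by
    rw [← Finset.sum_filter, Finset.filter_mem_eq_inter, Finset.inter_eq_right.mpr hsub]
    unfold MC
    rw [Finset.mul_sum]
    refine Finset.sum_congr rfl fun p _ => ?_
    ring
  rw [h1, h2, ← Finset.sum_sub_distrib]
  refine Finset.sum_congr rfl fun p _ => ?_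
  by_cases hp : p ∈ TS k Q (Nat.sqrt (Nat.sqrt Q)) px
  · rw [if_pos hp, hf1 p hp]
    ring
  · rw [if_neg hp, hf2 p hp, sub_zero]

/-- **Z2b.** One cell. Proof. `Z1a`; `Z2a` with `γ_p = ∏ c_i(p_i)`, `∑_p |γ_p| = ∏_i ∑_p ‖c_i p‖ ≤ 3^k`
(`Finset.prod_univ_sum`), `f_p` the difference of `Z1d` for `p ∈ TS`, the sum of `Z1e` else; `9^k ≤
(log X)^(3k)` (`log X ≥ 3`). -/
theorem Z2b (hF : FMain) : ∃ C K : ℝ, 1 ≤ C ∧ 1 ≤ K ∧ ∀ (k Q X H : ℕ), RegP K Q X → 1 ≤ k → Q ^ 4 ≤ H →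
    H ≤ X → ∀ px ∈ PC Q, px.1 ^ 100 ≤ Q → ∀ c : Fin k → Ch → ℂ, (∀ i, ∑ p ∈ PC Q, ‖c i p‖ ≤ 3) →
    ∀ (a : ℕ) (b : Fin k → ℕ),
    ∑ h ∈ cube b H, ‖∑ n ∈ Ico a (a + H), ∏ i, SG Q (c i) ((n : ℤ) + h i) - H * MC Q px c h‖ ^ 2 ≤
      (Real.log X) ^ (C * k) * (H : ℝ) ^ (k + 2) * (Q : ℝ) ^ (-(1 / 12) : ℝ) := by
  classical
  obtain ⟨C1, K1, hC1, hK1, h1⟩ := Z1d hF
  obtain ⟨C2, K2, hC2, hK2, h2⟩ := Z1e hF
  have hC0 : 1 ≤ max C1 C2 := hC1.trans (le_max_left _ _)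
  refine ⟨max C1 C2 + 3, max (max K1 K2) 3, by linarith, (by norm_num : (1 : ℝ) ≤ 3).trans (le_max_right _ _), ?_⟩
  intro k Q X H hR hk hQH hHX px hpx hpx100 c hc a b
  have hK0 : (0 : ℝ) ≤ max (max K1 K2) 3 := (by norm_num : (0 : ℝ) ≤ 3).trans (le_max_right _ _)
  have hR1 : RegP K1 Q X := hR.mono hK0 ((le_max_left _ _).trans (le_max_left _ _))
  have hR2 : RegP K2 Q X := hR.mono hK0 ((le_max_right _ _).trans (le_max_left _ _))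
  have hlX : 3 ≤ Real.log X := by
    have e1 : (3 : ℝ) ≤ Real.log (Real.log X) := (le_max_right _ _).trans hR.1
    exact e1.trans (Real.log_le_self (Real.log_natCast_nonneg X))
  have hlX1 : 1 ≤ Real.log X := by linarith
  have hHk : 0 ≤ (H : ℝ) ^ (k + 2) := pow_nonneg (Nat.cast_nonneg H) _
  have hQ12 : 0 ≤ (Q : ℝ) ^ (-(1 / 12) : ℝ) := Real.rpow_nonneg (Nat.cast_nonneg Q) _
  set W : ℝ := (Real.log X) ^ (max C1 C2 * k) * (H : ℝ) ^ (k + 2) * (Q : ℝ) ^ (-(1 / 12) : ℝ) with hW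
  have hW0 : 0 ≤ W := by
    rw [hW]
    exact mul_nonneg (mul_nonneg (Real.rpow_nonneg (by linarith) _) hHk) hQ12
  have hWle : ∀ C : ℝ, C ≤ max C1 C2 →
      (Real.log X) ^ (C * k) * (H : ℝ) ^ (k + 2) * (Q : ℝ) ^ (-(1 / 12) : ℝ) ≤ W := by
    intro C hC
    rw [hW]
    refine mul_le_mul_of_nonneg_right (mul_le_mul_of_nonneg_right ?_ hHk) hQ12
    exact Real.rpow_le_rpow_of_exponent_le hlX1 (mul_le_mul_of_nonneg_right hC (Nat.cast_nonneg k))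
  set f : (Fin k → Ch) → (Fin k → ℕ) → ℂ := fun p h =>
    if p ∈ TS k Q (Nat.sqrt (Nat.sqrt Q)) px then ∑ n ∈ Ico a (a + H),
        ∑ κ ∈ Fintype.piFinset fun i => KS Q (p i).1, ∏ i, gk (p i) (κ i) ((n : ℤ) + h i) -
      H * (MR p (Rp px p) h *
        ((∑ d ∈ SF (Nat.sqrt Q / Rp px p) (Rp px p), td d h : ℝ) : ℂ))
    else ∑ n ∈ Ico a (a + H),
        ∑ κ ∈ Fintype.piFinset fun i => KS Q (p i).1, ∏ i, gk (p i) (κ i) ((n : ℤ) + h i) with hfdef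
  have hf1 : ∀ p ∈ TS k Q (Nat.sqrt (Nat.sqrt Q)) px, ∀ h, f p h = ∑ n ∈ Ico a (a + H),
        ∑ κ ∈ Fintype.piFinset fun i => KS Q (p i).1, ∏ i, gk (p i) (κ i) ((n : ℤ) + h i) -
      H * (MR p (Rp px p) h *
        ((∑ d ∈ SF (Nat.sqrt Q / Rp px p) (Rp px p), td d h : ℝ) : ℂ)) := by
    intro p hp h
    rw [hfdef]
    exact if_pos hp
  have hf2 : ∀ p, p ∉ TS k Q (Nat.sqrt (Nat.sqrt Q)) px → ∀ h, f p h = ∑ n ∈ Ico a (a + H),
        ∑ κ ∈ Fintype.piFinset fun i => KS Q (p i).1, ∏ i, gk (p i) (κ i) ((n : ℤ) + h i) := by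
    intro p hp h
    rw [hfdef]
    exact if_neg hp
  have hdec : ∀ h ∈ cube b H,
      ‖∑ n ∈ Ico a (a + H), ∏ i, SG Q (c i) ((n : ℤ) + h i) - H * MC Q px c h‖ ^ 2 =
      ‖∑ p ∈ Fintype.piFinset fun _ : Fin k => PC Q, (∏ i, c i (p i)) * f p h‖ ^ 2 := by
    intro h _
    rw [z2b_dec Q H a px c h (fun p => f p h) (fun p hp => hf1 p hp h) (fun p hp => hf2 p hp h)]
  rw [Finset.sum_congr rfl hdec]
  have hγ : ∑ p ∈ Fintype.piFinset fun _ : Fin k => PC Q, ‖∏ i, c i (p i)‖ ≤ 3 ^ k := by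
    have e1 : ∑ p ∈ Fintype.piFinset fun _ : Fin k => PC Q, ‖∏ i, c i (p i)‖ = ∏ i, ∑ p ∈ PC Q, ‖c i p‖ := by
      rw [Finset.prod_univ_sum]
      refine Finset.sum_congr rfl fun p _ => ?_
      rw [norm_prod]
    rw [e1]
    have e2 : ∏ i : Fin k, ∑ p ∈ PC Q, ‖c i p‖ ≤ ∏ _i : Fin k, (3 : ℝ) :=
      Finset.prod_le_prod (fun i _ => Finset.sum_nonneg fun p _ => norm_nonneg _) (fun i _ => hc i)
    simpa using e2
  have hmain := Z2a (cube b H) (Fintype.piFinset fun _ : Fin k => PC Q) (fun p => ∏ i, c i (p i)) f (3 ^ k) W hW0 hγ ?_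
  · refine hmain.trans ?_
    have e1 : ((3 : ℝ) ^ k) ^ 2 ≤ (Real.log X) ^ (3 * (k : ℝ)) := by
      have e2 : ((3 : ℝ) ^ k) ^ 2 = 9 ^ k := by
        rw [← pow_mul, mul_comm, pow_mul]
        norm_num
      have e3 : (Real.log X) ^ (3 * (k : ℝ)) = ((Real.log X) ^ 3) ^ k := by
        rw [Real.rpow_mul (by linarith), Real.rpow_natCast]
        norm_num
      rw [e2, e3]
      refine pow_le_pow_left₀ (by norm_num) ?_ k
      have e4 : (3 : ℝ) ^ 3 ≤ (Real.log X) ^ 3 := pow_le_pow_left₀ (by norm_num) hlX 3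
      linarith
    have e5 : (Real.log X) ^ ((max C1 C2 + 3) * (k : ℝ)) =
        (Real.log X) ^ (3 * (k : ℝ)) * (Real.log X) ^ (max C1 C2 * (k : ℝ)) := by
      rw [← Real.rpow_add (by linarith)]
      congr 1
      ring
    rw [e5]
    have e6 := mul_le_mul_of_nonneg_right e1 hW0
    refine e6.trans (le_of_eq ?_)
    rw [hW]
    ring
  · intro p hp
    have hp' : ∀ i, p i ∈ PC Q := fun i => Fintype.mem_piFinset.mp hp i
    by_cases hpT : p ∈ TS k Q (Nat.sqrt (Nat.sqrt Q)) px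
    · have e1 := h1 k Q X H hR1 hk hQH hHX px hpx hpx100 p hpT a b
      have e2 : ∑ h ∈ cube b H, ‖f p h‖ ^ 2 = ∑ h ∈ cube b H, ‖∑ n ∈ Ico a (a + H),
          ∑ κ ∈ Fintype.piFinset fun i => KS Q (p i).1, ∏ i, gk (p i) (κ i) ((n : ℤ) + h i) -
        H * (MR p (Rp px p) h *
          ((∑ d ∈ SF (Nat.sqrt Q / Rp px p) (Rp px p), td d h : ℝ) : ℂ))‖ ^ 2 :=
        Finset.sum_congr rfl fun h _ => by rw [hf1 p hpT h]
      rw [e2]
      exact e1.trans (hWle C1 (le_max_left _ _))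
    · have e1 := h2 k Q X H hR2 hk hQH hHX px hpx hpx100 p hp' hpT a b
      have e2 : ∑ h ∈ cube b H, ‖f p h‖ ^ 2 = ∑ h ∈ cube b H, ‖∑ n ∈ Ico a (a + H),
          ∑ κ ∈ Fintype.piFinset fun i => KS Q (p i).1, ∏ i, gk (p i) (κ i) ((n : ℤ) + h i)‖ ^ 2 :=
        Finset.sum_congr rfl fun h _ => by rw [hf2 p hpT h]
      rw [e2]
      exact e1.trans (hWle C2 (le_max_right _ _))

end Pool.Agent.Lib.H59P
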