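import Pool.Agent.Lib.H59P.Z1A
import Pool.Agent.Lib.H59P.CF0
import Pool.Agent.Lib.H59P.C3

/-!
# Project H59P, chunk Z3a
-/

open Finset

namespace Pool.Agent.Lib.H59P

open Pool.Agent.Lib.H68T Pool.Agent.Lib.H18Q

/-- The mean of the main term is bounded. -/
theorem Z3A_MR {k : ℕ} (Q : ℕ) (p : Fin k → Ch) (R : ℕ) (hR : 0 < R) (hRQ : R ≤ Q) (h : Fin k → ℕ) :
    ‖MR p R h‖ ≤ (2 * (1 + Real.log Q)) ^ k := by
  have hR0 : (0 : ℝ) < (R : ℝ) := by exact_mod_cast hR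
  have hlog : Real.log R ≤ Real.log Q := Real.log_le_log hR0 (by exact_mod_cast hRQ)
  have hB : ∀ n : ℕ, ‖Ph p R.primeFactors h n‖ ≤ (2 * (1 + Real.log Q)) ^ k := by
    intro n
    refine (M3a_Ph p R.primeFactors (fun l hl => Nat.prime_of_mem_primeFactors hl) h n).trans ?_
    have h1 : ∀ i : Fin k, uu R.primeFactors ((n : ℤ) + h i) ≤ 2 * (1 + Real.log Q) := by
      intro i
      refine ((M3a_uu R hR _).2).trans ((M3b R hR).trans ?_)
      linarith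
    calc ∏ i, uu R.primeFactors ((n : ℤ) + h i) ≤ ∏ _i : Fin k, (2 * (1 + Real.log Q)) :=
          Finset.prod_le_prod (fun i _ => (M3a_uu R hR _).1) (fun i _ => h1 i)
      _ = (2 * (1 + Real.log Q)) ^ k := by
          rw [Finset.prod_const, Finset.card_univ, Fintype.card_fin]
  unfold MR
  rw [norm_div, Complex.norm_natCast, div_le_iff₀ hR0]
  refine (norm_sum_le _ _).trans ?_
  refine (Finset.sum_le_sum fun n _ => hB n).trans ?_
  rw [Finset.sum_const, Finset.card_range, nsmul_eq_mul, mul_comm]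

/-- **Z3a.** The truncated and the complete main term of a cell, for `h` with small tails.

Proof. For `p ∈ TS`, `R = Rp px p`: `‖MR p R h‖ ≤ (R/φ(R))^k ≤ (2(1+log Q))^k` (`M3a_Ph`, `M3a_uu`, `M3b`;
`R ≤ D1 ≤ Q`), and `MR p R h · SS (…) = MQ Q p h` (`M5`; `R ∣ Q!` since all the conductors are `≤ Q`:
`Nat.dvd_factorial`, `Nat.lcm_dvd`, `Finset.lcm_dvd`). `∑ ∏ ‖c‖ ≤ 3^k`. -/
theorem Z3a {k : ℕ} (Q : ℕ) (hQ : 1 ≤ Q) (px : Ch) (hpx : px ∈ PC Q) (c : Fin k → Ch → ℂ)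
    (hc : ∀ i, ∑ p ∈ PC Q, ‖c i p‖ ≤ 3) (h : Fin k → ℕ) (τ : ℝ)
    (hτ : ∀ R : ℕ, 1 ≤ R → R ≤ Nat.sqrt (Nat.sqrt Q) →
      |∑ d ∈ SF (Nat.sqrt Q / R) R, td d h - SS ((pr Q).filter (fun l => ¬ l ∣ R)) h| ≤ τ) :
    ‖MC Q px c h - ∑ p ∈ TS k Q (Nat.sqrt (Nat.sqrt Q)) px, (∏ i, c i (p i)) * MQ Q p h‖ ≤
      (6 * (1 + Real.log Q)) ^ k * τ := by
  classical
  have hpos : 0 < Nat.sqrt (Nat.sqrt Q) := by
    rw [Nat.sqrt_pos, Nat.sqrt_pos]; exact hQ
  have hτ0 : 0 ≤ τ := (abs_nonneg _).trans (hτ 1 le_rfl hpos)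
  have hlog0 : 0 ≤ Real.log Q := Real.log_natCast_nonneg Q
  have hterm : ∀ p ∈ TS k Q (Nat.sqrt (Nat.sqrt Q)) px,
      ‖(∏ i, c i (p i)) * (MR p (Rp px p) h *
          ((∑ d ∈ SF (Nat.sqrt Q / Rp px p) (Rp px p), td d h : ℝ) : ℂ)) -
        (∏ i, c i (p i)) * MQ Q p h‖ ≤ (∏ i, ‖c i (p i)‖) * ((2 * (1 + Real.log Q)) ^ k * τ) := by
    intro p hp
    unfold TS at hp
    rw [Finset.mem_filter, Fintype.mem_piFinset] at hp
    obtain ⟨hp1, hp2⟩ := hp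
    have hRle : Rp px p ≤ Nat.sqrt (Nat.sqrt Q) := hp2
    have hRQ : Rp px p ≤ Q := hRle.trans ((Nat.sqrt_le_self _).trans (Nat.sqrt_le_self _))
    have hR0 : 0 < Rp px p := by
      have h1 : (univ.lcm fun i => (p i).1) ≠ 0 := by
        intro h0
        rw [Finset.lcm_eq_zero_iff] at h0
        obtain ⟨i, _, h2⟩ := h0
        have h3 : 0 < (p i).1 := (mem_PC.mp (hp1 i)).1
        exact h3.ne' h2
      unfold Rp
      exact Nat.lcm_pos (mem_PC.mp hpx).1 (Nat.pos_of_ne_zero h1)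
    have hd : ∀ i, (p i).1 ∣ Rp px p := by
      intro i
      unfold Rp
      exact (Finset.dvd_lcm (f := fun i => (p i).1) (Finset.mem_univ i)).trans (Nat.dvd_lcm_right _ _)
    have hfac : Rp px p ∣ Q.factorial := by
      unfold Rp
      refine Nat.lcm_dvd (Nat.dvd_factorial (mem_PC.mp hpx).1 (mem_PC.mp hpx).2.1) ?_
      refine Finset.lcm_dvd fun i _ => ?_
      exact Nat.dvd_factorial (mem_PC.mp (hp1 i)).1 (mem_PC.mp (hp1 i)).2.1
    rw [← M5 Q (Rp px p) hR0 hfac p hd h, ← mul_sub, ← mul_sub, norm_mul, norm_mul, norm_prod,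
      ← Complex.ofReal_sub, Complex.norm_real, Real.norm_eq_abs]
    have h1 := Z3A_MR Q p (Rp px p) hR0 hRQ h
    have h2 := hτ (Rp px p) hR0 hRle
    have h3 : ‖MR p (Rp px p) h‖ * |∑ d ∈ SF (Nat.sqrt Q / Rp px p) (Rp px p), td d h -
        SS ((pr Q).filter (fun l => ¬ l ∣ Rp px p)) h| ≤ (2 * (1 + Real.log Q)) ^ k * τ :=
      mul_le_mul h1 h2 (abs_nonneg _) (by positivity)
    exact mul_le_mul_of_nonneg_left h3 (Finset.prod_nonneg fun i _ => norm_nonneg _)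
  have hsum : ∑ p ∈ TS k Q (Nat.sqrt (Nat.sqrt Q)) px, ∏ i, ‖c i (p i)‖ ≤ 3 ^ k := by
    calc ∑ p ∈ TS k Q (Nat.sqrt (Nat.sqrt Q)) px, ∏ i, ‖c i (p i)‖
        ≤ ∑ p ∈ Fintype.piFinset fun _ : Fin k => PC Q, ∏ i, ‖c i (p i)‖ := by
          refine Finset.sum_le_sum_of_subset_of_nonneg ?_ ?_
          · intro p hp
            unfold TS at hp
            exact (Finset.mem_filter.mp hp).1
          · intro p _ _
            exact Finset.prod_nonneg fun i _ => norm_nonneg _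
      _ = ∏ i, ∑ q ∈ PC Q, ‖c i q‖ := by
          rw [Finset.prod_univ_sum]
      _ ≤ ∏ _i : Fin k, (3 : ℝ) :=
          Finset.prod_le_prod (fun i _ => Finset.sum_nonneg fun _ _ => norm_nonneg _) fun i _ => hc i
      _ = 3 ^ k := by
          rw [Finset.prod_const, Finset.card_univ, Fintype.card_fin]
  unfold MC
  rw [← Finset.sum_sub_distrib]
  refine (norm_sum_le _ _).trans ?_
  refine (Finset.sum_le_sum hterm).trans ?_
  rw [← Finset.sum_mul]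
  have h6 : (6 * (1 + Real.log Q)) ^ k * τ = 3 ^ k * ((2 * (1 + Real.log Q)) ^ k * τ) := by
    rw [← mul_assoc, ← mul_pow]
    ring
  rw [h6]
  exact mul_le_mul_of_nonneg_right hsum (by positivity)

end Pool.Agent.Lib.H59P
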